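import Pool.Agent.Helper51.MU.Defs

/-!
# Project NG: the scalar multiplication and the star operation of the matrix ultraproduct
-/

namespace Helper53.NG

open Helper51.MU Filter Topology
open scoped Matrix.Norms.L2Operator MatrixOrder ComplexOrder

attribute [local irreducible] Helper51.MU.instRingMUlt

variable {ι : ℕ → Type} [∀ n, Fintype (ι n)] [∀ n, DecidableEq (ι n)] {U : Ultrafilter ℕ}

lemma mkM_smul (c : ℂ) (x : BSeq ι) : mkM U (c • x) = c • mkM U x := rfl

lemma smul_val (c : ℂ) (x : BSeq ι) (n : ℕ) : (c • x).1 n = c • x.1 n := rfl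

lemma star_smul' (c : ℂ) (x : MUlt ι U) : star (c • x) = (starRingEnd ℂ c) • star x := by
  obtain ⟨x, rfl⟩ := mkM_surjective x
  rw [← mkM_smul, star_mk, star_mk, ← mkM_smul]
  congr 1
  refine Subtype.ext (funext fun n => ?_)
  show star (c • x.1 n) = starRingEnd ℂ c • star (x.1 n)
  rw [star_smul]
  rfl

noncomputable instance : StarModule ℂ (MUlt ι U) where
  star_smul c x := star_smul' c x

end Helper53.NG
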