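import Pool.Agent.Helper53.NG.Grp
import Pool.Agent.Helper51.MU.Norms

/-!
# Project NG: statements of the modules on the spectral gap (T) and the lemma CB
-/

namespace Helper53.NG

open Helper51.MU
open scoped Matrix.Norms.L2Operator

/-- A positive semidefinite sesquilinear form (conjugate linear in the first variable). -/
structure PForm {E : Type} [AddCommGroup E] [Module ℂ E] (B : E → E → ℂ) : Prop where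
  add : ∀ v w w', B v (w + w') = B v w + B v w'
  smul : ∀ (c : ℂ) v w, B v (c • w) = c * B v w
  symm : ∀ v w, B w v = star (B v w)
  nonneg : ∀ v, 0 ≤ (B v v).re

/-- A representation by isometries of the form `B`, up to null vectors of `B`. -/
structure WRep {K E : Type} [Group K] [AddCommGroup E] [Module ℂ E] (B : E → E → ℂ)
    (ρ : K → E →ₗ[ℂ] E) : Prop where
  form : PForm B
  iso : ∀ k v, (B (ρ k v) (ρ k v)).re = (B v v).re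
  mul : ∀ k k' v, (B (ρ k (ρ k' v) - ρ (k * k') v) (ρ k (ρ k' v) - ρ (k * k') v)).re = 0
  one : ∀ v, (B (ρ 1 v - v) (ρ 1 v - v)).re = 0

/-- The average of the averages over the cyclic groups generated by the `x i`. -/
noncomputable def TAv {K E ι : Type} [Group K] [AddCommGroup E] [Module ℂ E] [Fintype ι] (p : ℕ)
    (x : ι → K) (ρ : K → E →ₗ[ℂ] E) : E →ₗ[ℂ] E :=
  ((Fintype.card ι : ℂ) * (p : ℂ))⁻¹ • ∑ i, ∑ j ∈ Finset.range p, ρ (x i ^ j)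

/-- The energy `⟨(1 - T) v, v⟩`. -/
noncomputable def Qf {E : Type} [AddCommGroup E] [Module ℂ E] (B : E → E → ℂ) (T : E →ₗ[ℂ] E)
    (v : E) : ℝ := (B v v).re - (B (T v) v).re

/-- The conclusion of the spectral gap lemma. -/
structure TConcl {K E ι : Type} [Group K] [AddCommGroup E] [Module ℂ E] [Fintype ι] (p : ℕ)
    (x : ι → K) (B : E → E → ℂ) (ρ : K → E →ₗ[ℂ] E) (c : ℝ) : Prop where
  nonneg : ∀ v, 0 ≤ Qf B (TAv p x ρ) v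
  contr : ∀ v, (B (TAv p x ρ v) (TAv p x ρ v)).re ≤ (B v v).re
  energy : ∀ (k : ℕ) v, Qf B (TAv p x ρ) ((TAv p x ρ ^ k) v) ≤
    (1 - c) ^ (2 * k) * Qf B (TAv p x ρ) v
  dist : ∀ (k : ℕ) v, (B ((TAv p x ρ ^ k) v - v) ((TAv p x ρ ^ k) v - v)).re ≤
    1 / c * Qf B (TAv p x ρ) v
  low : ∀ (k : ℕ) v, (B v v).re - (B ((TAv p x ρ ^ k) v) v).re ≤ 1 / c * Qf B (TAv p x ρ) v
  gen : ∀ i v, (B (ρ (x i) v - v) (ρ (x i) v - v)).re ≤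
    4 * Fintype.card ι * Qf B (TAv p x ρ) v
  conv : ∀ v, Qf B (TAv p x ρ) v ≤
    (p : ℝ) ^ 2 * ∑ i, (B (ρ (x i) v - v) (ρ (x i) v - v)).re

/-- The constant of the spectral gap lemma. -/
noncomputable def cT (p m : ℕ) : ℝ := (1 - 5 / Real.sqrt p) / m

/-- T1.  The Heisenberg pair inequality, in a genuine inner product space.  `a, b, z` linear
isometries with `a^p = b^p = 1`, `a b = z b a`, `z` commuting with `a` and `b`; `P`, `Q` the averages of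
the powers of `a`, `b`; `L = 1 - P`, `L' = 1 - Q`.
`z^p = 1`; decompose `v = ∑_ω E_ω v` into the eigenspaces of `z` (`E_ω = (1/p) ∑ ω^{-j} z^j`, orthogonal,
commuting with `P` and `Q`).  On `ω = 1`: `a`, `b` commute, `2 Re ⟨Lv, L'v⟩ ≥ 0`.  On `ω ≠ 1`: `P b^j P = 0` for
`0 < j < p`, so `P Q P = P / p` and `|⟨Pv, Qv⟩| ≤ p^{-1/2} ‖Pv‖ ‖Qv‖`.  With `‖v‖ = 1`, `c = p^{-1/2}`,
`A = ‖Pv‖² + ‖Qv‖²`, `B = ⟨Pv, Qv⟩`: `|B| ≤ c A / 2`, `A² = (Re ⟨Pv + Qv, v⟩)² ≤ ‖Pv + Qv‖² = A + 2 Re B`,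
so `A ≤ 1 + c` and
`2 Re ⟨Lv, L'v⟩ + c (‖Lv‖² + ‖L'v‖²) = 2 - 2A + 2 Re B + c (2 - A) ≥ (2 - A)(1 + c - A) ≥ 0`. -/
def StT1 : Prop := ∀ (V : Type) [NormedAddCommGroup V] [InnerProductSpace ℂ V] (p : ℕ)
  (a b z : V →ₗ[ℂ] V), p.Prime → (∀ v, ‖a v‖ = ‖v‖) → (∀ v, ‖b v‖ = ‖v‖) → (∀ v, ‖z v‖ = ‖v‖) →
  a ^ p = 1 → b ^ p = 1 → a * b = z * (b * a) → z * a = a * z → z * b = b * z →
  ∀ v : V, - (1 / Real.sqrt p) * (‖v - ((p : ℂ)⁻¹ • ∑ j ∈ Finset.range p, a ^ j) v‖ ^ 2 +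
      ‖v - ((p : ℂ)⁻¹ • ∑ j ∈ Finset.range p, b ^ j) v‖ ^ 2) ≤
    2 * (inner ℂ (v - ((p : ℂ)⁻¹ • ∑ j ∈ Finset.range p, a ^ j) v)
      (v - ((p : ℂ)⁻¹ • ∑ j ∈ Finset.range p, b ^ j) v)).re

/-- T2.  Spectral calculus for a selfadjoint `T` with `0 ≤ T ≤ 1` and `(1 - T)² ≥ c (1 - T)` in an inner
product space (not necessarily complete).  Let `q(v) = Re ⟨(1-T)v, v⟩ ≥ 0`, `β(v,w) = ⟨(1-T)v,w⟩`.
`β(Tv,v) = q(v) - ‖(1-T)v‖² ≤ (1-c) q(v)` and `β(Tv,v) = ⟨T(1-T)v,v⟩ = ⟨T(1-T)v,(1-T)v⟩ + ⟨(1-T)Tv,Tv⟩ ≥ 0`.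
Cauchy-Schwarz for the form `β(T·,·)`: `q(Tv) ≤ (1-c)² q(v)`.  `q(T^k v) ≤ (1-c)^{2k} q(v)`, and
`β(T^j v, v) ≤ (1-c)^j q(v)`.  `‖v‖² - Re⟨T^k v, v⟩ = ∑_{j<k} β(T^j v, v) ≤ (1/c) q(v)`;
`‖(1-T^k)v‖² ≤ Re ⟨(1-T^k) v, v⟩` (since `0 ≤ T^k ≤ 1`). -/
def StT2 : Prop := ∀ (V : Type) [NormedAddCommGroup V] [InnerProductSpace ℂ V]
  (T : V →ₗ[ℂ] V) (c : ℝ), 0 < c → c ≤ 1 → (∀ v w, inner ℂ (T v) w = inner ℂ v (T w)) →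
  (∀ v, 0 ≤ (inner ℂ (T v) v).re) → (∀ v, (inner ℂ (T v) v).re ≤ ‖v‖ ^ 2) →
  (∀ v, c * (‖v‖ ^ 2 - (inner ℂ (T v) v).re) ≤ ‖v - T v‖ ^ 2) →
  (∀ (k : ℕ) v, ‖(T ^ k) v‖ ^ 2 - (inner ℂ (T ((T ^ k) v)) ((T ^ k) v)).re ≤
    (1 - c) ^ (2 * k) * (‖v‖ ^ 2 - (inner ℂ (T v) v).re)) ∧
  (∀ (k : ℕ) v, ‖(T ^ k) v - v‖ ^ 2 ≤ 1 / c * (‖v‖ ^ 2 - (inner ℂ (T v) v).re)) ∧
  (∀ (k : ℕ) v, ‖v‖ ^ 2 - (inner ℂ ((T ^ k) v) v).re ≤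
    1 / c * (‖v‖ ^ 2 - (inner ℂ (T v) v).re))

/-- T3.  The spectral gap lemma for a genuine representation on an inner product space.
`P i = (1/p) ∑_j ρ(x i^j)` orthogonal projections, `L i = 1 - P i`, `Δ = ∑ L i = m (1 - T)`;
`Δ² = Δ + ∑_{i<j} (L_i L_j + L_j L_i) ≥ (1 - 5/√p) Δ` by T1 for the Heisenberg pairs (each `i` is in at most
5 of them) and `L_i L_j ≥ 0` for commuting pairs; then T2 with `c = cT p m`.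
`gen`: `ρ(x_i) P_i = P_i`.  `conv`: `v - P_i v = (1/p) ∑_j (v - ρ(x_i)^j v)`, of norm `≤ p ‖v - ρ(x_i) v‖`. -/
def StT3 : Prop := StT1 → StT2 → ∀ (K V ι : Type) [Group K] [NormedAddCommGroup V]
  [InnerProductSpace ℂ V] [Fintype ι] [DecidableEq ι] (p : ℕ) (x : ι → K) (N : ι → Finset ι)
  (ρ : K → V →ₗ[ℂ] V), TData K p x N → Nonempty ι → (∀ k v, ‖ρ k v‖ = ‖v‖) →
  (∀ k k' v, ρ k (ρ k' v) = ρ (k * k') v) → (∀ v, ρ 1 v = v) →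
  0 < cT p (Fintype.card ι) ∧ cT p (Fintype.card ι) ≤ 1 ∧
    TConcl p x (fun v w => inner ℂ v w) ρ (cT p (Fintype.card ι))

/-- T4.  The spectral gap lemma for `WRep`: pass to the quotient of `E` by the null vectors of `B`
(an inner product space). -/
def StT4 : Prop := StT1 → StT2 → StT3 → ∀ (K E ι : Type) [Group K] [AddCommGroup E] [Module ℂ E]
  [Fintype ι] [DecidableEq ι] (p : ℕ) (x : ι → K) (N : ι → Finset ι) (B : E → E → ℂ)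
  (ρ : K → E →ₗ[ℂ] E), TData K p x N → Nonempty ι → WRep B ρ →
  0 < cT p (Fintype.card ι) ∧ cT p (Fintype.card ι) ≤ 1 ∧
    TConcl p x B ρ (cT p (Fintype.card ι))

/-- CB.  `x = ∑ x_{ij} ⊗ e_{ij}` (here `blk x i j`, first tensor factor `Fin a`), `Φ ⊗ id` applied to `x`
is the matrix with blocks `Φ (x_{ij})`.
`Z = b^{-1/2} ∑ ε_{ij} x_{ij}` with independent random signs: `E nn (Φ Z) = nn ((Φ ⊗ id) x)`;
`E τ(Z Z* Z Z*) ≤ 3` (three pairings, each at most `1`, as `∑_j x_{ij} x_{ij}* ≤ 1`, `∑_i x_{ij}* x_{ij} ≤ 1`);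
truncation `Z_t = Z (1 + Z* Z / t²)⁻¹`: `‖Z_t‖ ≤ t/2`, `nn (Z - Z_t) ≤ τ((Z* Z)²) / (4 t²)`;
`nn(Φ Z) ≤ 2 nn (Φ Z_t) + 2 nn (Φ (Z - Z_t))`, optimize `t² = κ/δ`-ish.
Conventions: `nn` is the square of the normalized 2-norm. -/
def StCB : Prop := ∀ (α β : Type) [Fintype α] [DecidableEq α] [Fintype β] [DecidableEq β]
  (Φ : Matrix α α ℂ →ₗ[ℂ] Matrix α α ℂ) (κ δ : ℝ), 0 ≤ κ → 0 < δ →
  (∀ y, nn (Φ y) ≤ κ ^ 2 * nn y) → (∀ y, ‖y‖ ≤ 1 → nn (Φ y) ≤ δ ^ 2) →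
  ∀ (x y : Matrix (β × α) (β × α) ℂ), ‖x‖ ≤ 1 →
    (∀ i j, (Matrix.of fun s t => y (i, s) (j, t)) = Φ (Matrix.of fun s t => x (i, s) (j, t))) →
    nn y ≤ 4 * κ * δ

end Helper53.NG
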