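import Pool.Agent.Helper51.MU.Product
import Pool.Agent.Helper61.IE.Defs3
import Pool.Agent.Helper53.NG.StT
import Pool.Agent.Helper53.NG.Inst

/-!
# Project NG: basic lemmas on the matrix ultraproduct
-/

set_option linter.unusedSectionVars false

namespace Helper53.NG

open Helper51.MU Helper61.IE Filter Topology
open scoped Matrix.Norms.L2Operator MatrixOrder ComplexOrder

attribute [local irreducible] Helper51.MU.instRingMUlt

section basic

variable {ι κ : ℕ → Type} [∀ n, Fintype (ι n)] [∀ n, DecidableEq (ι n)]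
  [∀ n, Fintype (κ n)] [∀ n, DecidableEq (κ n)] {U : Ultrafilter ℕ}

lemma add_val (x y : BSeq ι) (n : ℕ) : (x + y).1 n = x.1 n + y.1 n := rfl
lemma sub_val (x y : BSeq ι) (n : ℕ) : (x - y).1 n = x.1 n - y.1 n := rfl
lemma mul_val (x y : BSeq ι) (n : ℕ) : (x * y).1 n = x.1 n * y.1 n := rfl
lemma star_val (x : BSeq ι) (n : ℕ) : (star x).1 n = (x.1 n).conjTranspose := rfl
lemma one_val (n : ℕ) : (1 : BSeq ι).1 n = 1 := rfl
lemma zero_val (n : ℕ) : (0 : BSeq ι).1 n = 0 := rfl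

/-! ## trace -/

lemma tendsto_tr (x : BSeq ι) : Tendsto (fun n => ntr (x.1 n)) U (𝓝 (tr (mkM U x))) :=
  tendsto_ntr x

lemma tr_add (x y : MUlt ι U) : tr (x + y) = tr x + tr y := by
  obtain ⟨x, rfl⟩ := mkM_surjective x
  obtain ⟨y, rfl⟩ := mkM_surjective y
  rw [← map_add]
  refine tr_mk_eq ?_
  refine ((tendsto_tr x).add (tendsto_tr y)).congr fun n => ?_
  rw [add_val, ntr_add]

lemma tr_smul (c : ℂ) (x : MUlt ι U) : tr (c • x) = c * tr x := by
  obtain ⟨x, rfl⟩ := mkM_surjective x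
  rw [← mkM_smul]
  refine tr_mk_eq ?_
  refine ((tendsto_tr x).const_mul c).congr fun n => ?_
  rw [smul_val, ntr_smul]

lemma tr_zero : tr (0 : MUlt ι U) = 0 := by
  have := tr_smul (ι := ι) (U := U) 0 0
  rwa [zero_smul, zero_mul] at this

lemma tr_neg (x : MUlt ι U) : tr (-x) = -tr x := by
  have := tr_smul (ι := ι) (U := U) (-1) x
  rwa [neg_one_smul, neg_one_mul] at this

lemma tr_sub (x y : MUlt ι U) : tr (x - y) = tr x - tr y := by
  rw [sub_eq_add_neg, tr_add, tr_neg, sub_eq_add_neg]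

lemma tr_sum {α : Type} (s : Finset α) (f : α → MUlt ι U) :
    tr (∑ i ∈ s, f i) = ∑ i ∈ s, tr (f i) := by
  classical
  induction s using Finset.induction_on with
  | empty => simp [tr_zero]
  | insert a s ha ih => rw [Finset.sum_insert ha, Finset.sum_insert ha, tr_add, ih]

lemma ntr_mul_comm {n : Type} [Fintype n] (x y : Matrix n n ℂ) : ntr (x * y) = ntr (y * x) := by
  have h := Matrix.trace_mul_comm x y
  unfold Matrix.trace at h
  unfold ntr
  simp only [Matrix.diag_apply] at h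
  rw [h]

lemma tr_mul_comm (x y : MUlt ι U) : tr (x * y) = tr (y * x) := by
  obtain ⟨x, rfl⟩ := mkM_surjective x
  obtain ⟨y, rfl⟩ := mkM_surjective y
  rw [← map_mul, ← map_mul]
  refine tr_mk_eq ?_
  refine (tendsto_tr (y * x)).congr fun n => ?_
  rw [mul_val, mul_val, ntr_mul_comm]

lemma ntr_conjTranspose {n : Type} [Fintype n] (x : Matrix n n ℂ) :
    ntr x.conjTranspose = star (ntr x) := by
  unfold ntr
  simp [Matrix.conjTranspose_apply]

lemma tr_star (x : MUlt ι U) : tr (star x) = star (tr x) := by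
  obtain ⟨x, rfl⟩ := mkM_surjective x
  rw [star_mk]
  refine tr_mk_eq ?_
  refine ((Complex.continuous_conj.tendsto _).comp (tendsto_tr x)).congr fun n => ?_
  rw [star_val, ntr_conjTranspose]
  rfl

lemma tr_one (h : ∀ᶠ n in (U : Filter ℕ), Nonempty (ι n)) : tr (1 : MUlt ι U) = 1 := by
  rw [← map_one (mkM U)]
  refine tr_mk_eq ?_
  refine (tendsto_const_nhds (x := (1 : ℂ))).congr' ?_
  filter_upwards [h] with n hn
  rw [one_val, ntr_one]

/-! ## the 2-norm -/

lemma ntr_star_mul {n : Type} [Fintype n] (x : Matrix n n ℂ) :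
    ntr (x.conjTranspose * x) = ((nn x : ℝ) : ℂ) := by
  unfold ntr nn hs
  rw [Complex.ofReal_div, Complex.ofReal_natCast]
  congr 1
  simp only [Matrix.mul_apply, Matrix.conjTranspose_apply]
  rw [Finset.sum_comm, Complex.ofReal_sum]
  refine Finset.sum_congr rfl fun i _ => ?_
  rw [Complex.ofReal_sum]
  refine Finset.sum_congr rfl fun j _ => ?_
  rw [RCLike.star_def, Complex.conj_mul', Complex.ofReal_pow]

lemma tendsto_nn (y : BSeq ι) : Tendsto (fun n => nn (y.1 n)) U (𝓝 (nrm (mkM U y))) := by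
  have h := tendsto_tr (U := U) (star y * y)
  have h2 := (Complex.continuous_re.tendsto _).comp h
  have h3 : nrm (mkM U y) = (tr (mkM U (star y * y))).re := by
    unfold nrm
    rw [star_mk, ← map_mul]
  rw [h3]
  refine h2.congr fun n => ?_
  show (ntr ((star y * y).1 n)).re = nn (y.1 n)
  rw [mul_val, star_val, ntr_star_mul, Complex.ofReal_re]

lemma nrm_nonneg (y : MUlt ι U) : 0 ≤ nrm y := by
  obtain ⟨y, rfl⟩ := mkM_surjective y
  exact ge_of_tendsto' (tendsto_nn y) fun n => nn_nonneg _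

lemma nrm_eq_zero {y : MUlt ι U} : nrm y = 0 ↔ y = 0 := by
  obtain ⟨y, rfl⟩ := mkM_surjective y
  rw [← map_zero (mkM U), mk_eq_mk]
  constructor
  · intro h
    have := tendsto_nn (U := U) y
    rw [h] at this
    refine this.congr fun n => ?_
    rw [zero_val, sub_zero]
  · intro h
    refine tendsto_nhds_unique (tendsto_nn y) ?_
    refine h.congr fun n => ?_
    rw [zero_val, sub_zero]

/-- `tr (star y * y)` is real, equal to `nrm y`. -/
lemma tr_star_mul (y : MUlt ι U) : tr (star y * y) = ((nrm y : ℝ) : ℂ) := by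
  have h1 : (tr (star y * y)).im = 0 := by
    have h := tr_star (star y * y)
    rw [star_mul, star_star] at h
    have h2 := congrArg Complex.im h
    rw [RCLike.star_def, Complex.conj_im] at h2
    linarith
  apply Complex.ext
  · rw [Complex.ofReal_re]; rfl
  · rw [Complex.ofReal_im]; exact h1

/-- The form `tr (star x * y)` is a positive semidefinite sesquilinear form. -/
lemma pform : PForm (fun x y : MUlt ι U => tr (star x * y)) where
  add v w w' := by rw [mul_add, tr_add]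
  smul c v w := by rw [mul_smul_comm, tr_smul]
  symm v w := by rw [← tr_star, star_mul, star_star]
  nonneg v := nrm_nonneg v

lemma nrm_star (y : MUlt ι U) : nrm (star y) = nrm y := by
  unfold nrm
  rw [star_star, tr_mul_comm]

lemma nrm_neg (y : MUlt ι U) : nrm (-y) = nrm y := by
  unfold nrm
  rw [star_neg, neg_mul_neg]

lemma nrm_smul (c : ℂ) (y : MUlt ι U) : nrm (c • y) = ‖c‖ ^ 2 * nrm y := by
  have h := tr_star_mul (c • y)
  rw [star_smul', smul_mul_smul_comm, tr_smul, tr_star_mul, Complex.conj_mul'] at h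
  exact_mod_cast h.symm

lemma nrm_zero : nrm (0 : MUlt ι U) = 0 := nrm_eq_zero.2 rfl

lemma nrm_add_le (x y : MUlt ι U) : nrm (x + y) ≤ 2 * nrm x + 2 * nrm y := by
  obtain ⟨x, rfl⟩ := mkM_surjective x
  obtain ⟨y, rfl⟩ := mkM_surjective y
  rw [← map_add]
  refine le_of_tendsto_of_tendsto' (tendsto_nn _)
    (((tendsto_nn x).const_mul 2).add ((tendsto_nn y).const_mul 2)) fun n => ?_
  rw [add_val]
  exact nn_add_le _ _

lemma nrm_sub_comm (x y : MUlt ι U) : nrm (x - y) = nrm (y - x) := by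
  rw [← nrm_neg, neg_sub]

lemma nrm_sub_le (x y : MUlt ι U) : nrm (x - y) ≤ 2 * nrm x + 2 * nrm y := by
  have := nrm_add_le x (-y)
  rwa [nrm_neg, ← sub_eq_add_neg] at this

/-- Cauchy-Schwarz. -/
lemma norm_tr_mul_le (x y : MUlt ι U) : ‖tr (star x * y)‖ ^ 2 ≤ nrm x * nrm y := by
  obtain ⟨x, rfl⟩ := mkM_surjective x
  obtain ⟨y, rfl⟩ := mkM_surjective y
  have h1 : Tendsto (fun n => ‖ntr ((star x * y).1 n)‖ ^ 2) U
      (𝓝 (‖tr (star (mkM U x) * mkM U y)‖ ^ 2)) := by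
    have := (tendsto_tr (U := U) (star x * y)).norm.pow 2
    rwa [map_mul, ← star_mk] at this
  refine le_of_tendsto_of_tendsto' h1 ((tendsto_nn x).mul (tendsto_nn y)) fun n => ?_
  rw [mul_val, star_val]
  have h2 := norm_trace_mul_le (x.1 n).conjTranspose (y.1 n)
  rw [hs_conjTranspose] at h2
  have h3 : ntr ((x.1 n).conjTranspose * y.1 n) =
      Matrix.trace ((x.1 n).conjTranspose * y.1 n) / (Fintype.card (ι n) : ℂ) := rfl
  rw [h3, norm_div, Complex.norm_natCast, div_pow]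
  unfold nn
  rw [div_mul_div_comm, ← sq]
  refine div_le_div_of_nonneg_right ?_ (by positivity)
  have h4 := mul_self_le_mul_self (norm_nonneg _) h2
  rw [← sq] at h4
  refine h4.trans (le_of_eq ?_)
  have h5 := Real.mul_self_sqrt (hs_nonneg (x.1 n))
  have h6 := Real.mul_self_sqrt (hs_nonneg (y.1 n))
  linear_combination (Real.sqrt (hs (y.1 n)) * Real.sqrt (hs (y.1 n))) * h5 + hs (x.1 n) * h6

lemma norm_tr_sq_le (x : MUlt ι U) : ‖tr x‖ ^ 2 ≤ nrm x := by
  obtain ⟨x, rfl⟩ := mkM_surjective x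
  exact le_of_tendsto_of_tendsto' ((tendsto_tr x).norm.pow 2) (tendsto_nn x)
    fun n => norm_ntr_sq_le _

/-! ## operator norm bounds -/

/-- `x` has a lift of operator norm at most `C`. -/
def NB (C : ℝ) (x : MUlt ι U) : Prop := ∃ a : BSeq ι, mkM U a = x ∧ ∀ n, ‖a.1 n‖ ≤ C

lemma exists_NB (x : MUlt ι U) : ∃ C : ℝ, 0 < C ∧ NB C x := by
  obtain ⟨x, rfl⟩ := mkM_surjective x
  obtain ⟨C, hC⟩ := x.2
  exact ⟨max C 1, lt_max_of_lt_right one_pos, x, rfl, fun n => (hC n).trans (le_max_left _ _)⟩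

lemma NB.nonneg {C : ℝ} {x : MUlt ι U} (h : NB C x) : 0 ≤ C := by
  obtain ⟨a, -, ha⟩ := h
  exact (norm_nonneg _).trans (ha 0)

lemma NB.mul {C D : ℝ} {x y : MUlt ι U} (hx : NB C x) (hy : NB D y) : NB (C * D) (x * y) := by
  have hC := hx.nonneg
  obtain ⟨a, rfl, ha⟩ := hx
  obtain ⟨b, rfl, hb⟩ := hy
  refine ⟨a * b, map_mul _ _ _, fun n => ?_⟩
  rw [mul_val]
  exact (norm_mul_le _ _).trans (mul_le_mul (ha n) (hb n) (norm_nonneg _) hC)

lemma NB.add {C D : ℝ} {x y : MUlt ι U} (hx : NB C x) (hy : NB D y) : NB (C + D) (x + y) := by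
  obtain ⟨a, rfl, ha⟩ := hx
  obtain ⟨b, rfl, hb⟩ := hy
  refine ⟨a + b, map_add _ _ _, fun n => ?_⟩
  rw [add_val]
  exact (norm_add_le _ _).trans (add_le_add (ha n) (hb n))

lemma NB.star {C : ℝ} {x : MUlt ι U} (hx : NB C x) : NB C (star x) := by
  obtain ⟨a, rfl, ha⟩ := hx
  refine ⟨Star.star a, (star_mk a).symm, fun n => ?_⟩
  rw [star_val, Matrix.l2_opNorm_conjTranspose]
  exact ha n

lemma NB.smul {C : ℝ} {x : MUlt ι U} (c : ℂ) (hx : NB C x) : NB (‖c‖ * C) (c • x) := by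
  obtain ⟨a, rfl, ha⟩ := hx
  refine ⟨c • a, mkM_smul c a, fun n => ?_⟩
  rw [smul_val]
  exact (norm_smul_le _ _).trans (mul_le_mul_of_nonneg_left (ha n) (norm_nonneg _))

lemma NB.mono {C D : ℝ} {x : MUlt ι U} (hx : NB C x) (h : C ≤ D) : NB D x := by
  obtain ⟨a, rfl, ha⟩ := hx
  exact ⟨a, rfl, fun n => (ha n).trans h⟩

lemma nrm_mul_le {C : ℝ} {x : MUlt ι U} (hx : NB C x) (y : MUlt ι U) :
    nrm (x * y) ≤ C ^ 2 * nrm y := by
  obtain ⟨a, rfl, ha⟩ := hx
  obtain ⟨y, rfl⟩ := mkM_surjective y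
  rw [← map_mul]
  refine le_of_tendsto_of_tendsto' (tendsto_nn _) ((tendsto_nn y).const_mul _) fun n => ?_
  rw [mul_val]
  refine (nn_mul_le_left _ _).trans ?_
  exact mul_le_mul_of_nonneg_right (pow_le_pow_left₀ (norm_nonneg _) (ha n) 2) (nn_nonneg _)

lemma nrm_mul_le' {C : ℝ} {y : MUlt ι U} (hy : NB C y) (x : MUlt ι U) :
    nrm (x * y) ≤ C ^ 2 * nrm x := by
  rw [← nrm_star, star_mul, ← nrm_star x]
  exact nrm_mul_le hy.star _

lemma nrm_le_of_NB {C : ℝ} {x : MUlt ι U} (hx : NB C x) : nrm x ≤ C ^ 2 := by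
  obtain ⟨a, rfl, ha⟩ := hx
  refine le_of_tendsto' (tendsto_nn a) fun n => (nn_le_norm_sq _).trans ?_
  exact pow_le_pow_left₀ (norm_nonneg _) (ha n) 2

/-! ## unitaries and projections of the ultraproduct -/

/-- Projections of the ultraproduct. -/
def Pj (e : MUlt ι U) : Prop := star e = e ∧ e * e = e

lemma Pj.one : Pj (1 : MUlt ι U) := ⟨star_one (MUlt ι U), one_mul 1⟩

lemma Pj.one_sub {e : MUlt ι U} (he : Pj e) : Pj (1 - e) := by
  refine ⟨by rw [star_sub, star_one, he.1], ?_⟩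
  rw [sub_mul, mul_sub, mul_sub, he.2]; simp

lemma Pj.nrm {e : MUlt ι U} (he : Pj e) : Helper61.IE.nrm e = (tr e).re := by
  unfold Helper61.IE.nrm
  rw [he.1, he.2]

lemma Pj.tr_nonneg {e : MUlt ι U} (he : Pj e) : 0 ≤ (tr e).re := by
  rw [← he.nrm]; exact nrm_nonneg e

lemma Pj.tr_real {e : MUlt ι U} (he : Pj e) : tr e = (((tr e).re : ℝ) : ℂ) := by
  have := tr_star_mul e
  rw [he.1, he.2, he.nrm] at this
  exact this

lemma Pj.tr_pos {e : MUlt ι U} (he : Pj e) (h : e ≠ 0) : 0 < (tr e).re := by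
  rcases he.tr_nonneg.lt_or_eq with h1 | h1
  · exact h1
  · exact absurd (nrm_eq_zero.1 (by rw [he.nrm, ← h1])) h

lemma mul_star_of_unit {u : MUlt ι U} (h : star u * u = 1) : u * star u = 1 := by
  have h1 : Helper61.IE.nrm (1 - u * star u) = 0 := by
    unfold Helper61.IE.nrm
    have e1 : star (1 - u * star u) * (1 - u * star u) = 1 - u * star u := by
      rw [star_sub, star_one, star_mul, star_star, sub_mul, mul_sub, mul_sub, one_mul, mul_one,
        one_mul]
      have : u * star u * (u * star u) = u * (star u * u) * star u := by noncomm_ring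
      rw [this, h, mul_one]; simp
    rw [e1, tr_sub, tr_mul_comm u, h, sub_self, Complex.zero_re]
  have := nrm_eq_zero.1 h1
  exact (sub_eq_zero.1 this).symm

/-- Scalars with trace of absolute value one: a unitary `u` with `‖tr u‖ = 1` is `tr u • 1`. -/
lemma unit_eq_smul (h0 : ∀ᶠ n in (U : Filter ℕ), Nonempty (ι n)) {u : MUlt ι U}
    (h : star u * u = 1) (h1 : ‖tr u‖ = 1) : u = tr u • (1 : MUlt ι U) := by
  have h2 : Helper61.IE.nrm (u - tr u • (1 : MUlt ι U)) = 0 := by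
    unfold Helper61.IE.nrm
    have e1 : star (u - tr u • (1 : MUlt ι U)) * (u - tr u • (1 : MUlt ι U)) =
        1 - tr u • star u - (starRingEnd ℂ (tr u)) • u +
          ((starRingEnd ℂ (tr u)) * tr u) • (1 : MUlt ι U) := by
      rw [star_sub, star_smul', star_one, sub_mul, mul_sub, mul_sub, h, mul_smul_comm, mul_one,
        smul_mul_assoc, one_mul, smul_mul_smul_comm, one_mul]
      abel
    rw [e1, tr_add, tr_sub, tr_sub, tr_smul, tr_smul, tr_smul, tr_star, tr_one h0,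
      RCLike.star_def, Complex.conj_mul', Complex.mul_conj', h1]
    simp
  have := nrm_eq_zero.1 h2
  exact sub_eq_zero.1 this

/-! ## von Neumann subalgebras -/

/-- 2-norm closed unital *-subalgebras. -/
structure IsVN (D : Set (MUlt ι U)) : Prop where
  one : 1 ∈ D
  add : ∀ x ∈ D, ∀ y ∈ D, x + y ∈ D
  mul : ∀ x ∈ D, ∀ y ∈ D, x * y ∈ D
  smul : ∀ (c : ℂ), ∀ x ∈ D, c • x ∈ D
  star : ∀ x ∈ D, Star.star x ∈ D
  closed : ∀ x, (∀ ε > 0, ∃ y ∈ D, nrm (x - y) < ε) → x ∈ D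

/-- Prime: `x D y = 0` implies `x = 0` or `y = 0`. -/
def Prime (D : Set (MUlt ι U)) : Prop :=
  ∀ x ∈ D, ∀ y ∈ D, (∀ d ∈ D, x * d * y = 0) → x = 0 ∨ y = 0

/-- The commutant of a family. -/
def Cmt {K : Type} (u : K → MUlt ι U) : Set (MUlt ι U) := {y | ∀ k, y * u k = u k * y}

/-- The centre. -/
def Zc (D : Set (MUlt ι U)) : Set (MUlt ι U) := {z | z ∈ D ∧ ∀ d ∈ D, z * d = d * z}

lemma IsVN.zero {D : Set (MUlt ι U)} (hD : IsVN D) : (0 : MUlt ι U) ∈ D := by
  have := hD.smul 0 1 hD.one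
  rwa [zero_smul] at this

lemma IsVN.neg {D : Set (MUlt ι U)} (hD : IsVN D) {x : MUlt ι U} (hx : x ∈ D) : -x ∈ D := by
  have := hD.smul (-1) x hx
  rwa [neg_one_smul] at this

lemma IsVN.sub {D : Set (MUlt ι U)} (hD : IsVN D) {x y : MUlt ι U} (hx : x ∈ D) (hy : y ∈ D) :
    x - y ∈ D := by
  rw [sub_eq_add_neg]; exact hD.add _ hx _ (hD.neg hy)

lemma commute_of_closed {u x : MUlt ι U}
    (h : ∀ ε > 0, ∃ y : MUlt ι U, y * u = u * y ∧ nrm (x - y) < ε) : x * u = u * x := by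
  obtain ⟨C, hC, hu⟩ := exists_NB u
  have h1 : ∀ ε > 0, Helper61.IE.nrm (x * u - u * x) ≤ 4 * C ^ 2 * ε := by
    intro ε hε
    obtain ⟨y, hy, hxy⟩ := h ε hε
    have e1 : x * u - u * x = (x - y) * u - u * (x - y) := by
      rw [sub_mul, mul_sub, hy]; abel
    rw [e1]
    refine (nrm_sub_le _ _).trans ?_
    have a1 := nrm_mul_le' hu (x - y)
    have a2 := nrm_mul_le hu (x - y)
    have : 0 ≤ C ^ 2 := by positivity
    nlinarith
  have h2 : Helper61.IE.nrm (x * u - u * x) ≤ 0 := by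
    by_contra h3
    push Not at h3
    have h4 := h1 (Helper61.IE.nrm (x * u - u * x) / (8 * C ^ 2)) (by positivity)
    have h5 : 4 * C ^ 2 * (Helper61.IE.nrm (x * u - u * x) / (8 * C ^ 2)) =
        Helper61.IE.nrm (x * u - u * x) / 2 := by
      field_simp; ring
    rw [h5] at h4
    linarith
  exact sub_eq_zero.1 (nrm_eq_zero.1 (le_antisymm h2 (nrm_nonneg _)))

/-- The commutant of a family of unitaries closed under inverses is a von Neumann algebra. -/
lemma isVN_cmt {K : Type} (u : K → MUlt ι U) (hu : ∀ k, ∃ k', u k' = star (u k)) :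
    IsVN (Cmt u) where
  one := fun k => by rw [one_mul, mul_one]
  add := fun x hx y hy k => by rw [add_mul, mul_add, hx k, hy k]
  mul := fun x hx y hy k => by rw [mul_assoc, hy k, ← mul_assoc, hx k, mul_assoc]
  smul := fun c x hx k => by rw [smul_mul_assoc, mul_smul_comm, hx k]
  star := fun x hx k => by
    obtain ⟨k', hk'⟩ := hu k
    have := congrArg star (hx k')
    rw [star_mul, star_mul, hk', star_star] at this
    exact this.symm
  closed := fun x hx k => commute_of_closed fun ε hε => by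
    obtain ⟨y, hy, h⟩ := hx ε hε
    exact ⟨y, hy k, h⟩

lemma isVN_zc {D : Set (MUlt ι U)} (hD : IsVN D) : IsVN (Zc D) where
  one := ⟨hD.one, fun d _ => by rw [one_mul, mul_one]⟩
  add := fun x hx y hy => ⟨hD.add x hx.1 y hy.1, fun d hd => by
    rw [add_mul, mul_add, hx.2 d hd, hy.2 d hd]⟩
  mul := fun x hx y hy => ⟨hD.mul x hx.1 y hy.1, fun d hd => by
    rw [mul_assoc, hy.2 d hd, ← mul_assoc, hx.2 d hd, mul_assoc]⟩
  smul := fun c x hx => ⟨hD.smul c x hx.1, fun d hd => by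
    rw [smul_mul_assoc, mul_smul_comm, hx.2 d hd]⟩
  star := fun x hx => ⟨hD.star x hx.1, fun d hd => by
    have := congrArg star (hx.2 (star d) (hD.star d hd))
    rw [star_mul, star_mul, star_star] at this
    exact this.symm⟩
  closed := fun x hx => ⟨hD.closed x fun ε hε => by
      obtain ⟨y, hy, h⟩ := hx ε hε
      exact ⟨y, hy.1, h⟩, fun d hd => commute_of_closed fun ε hε => by
      obtain ⟨y, hy, h⟩ := hx ε hε
      exact ⟨y, hy.2 d hd, h⟩⟩

/-- A homomorphism to the unitary group: inverses. -/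
lemma hom_inv {K : Type} [Group K] (u : K →* MUlt ι U) (hu : ∀ k, star (u k) * u k = 1) (k : K) :
    u k⁻¹ = star (u k) := by
  have h1 : u k * u k⁻¹ = 1 := by rw [← map_mul, mul_inv_cancel, map_one]
  calc u k⁻¹ = (star (u k) * u k) * u k⁻¹ := by rw [hu, one_mul]
    _ = star (u k) := by rw [mul_assoc, h1, mul_one]

lemma isVN_cmt_hom {K : Type} [Group K] (u : K →* MUlt ι U) (hu : ∀ k, star (u k) * u k = 1) :
    IsVN (Cmt (fun k => u k)) :=
  isVN_cmt _ fun k => ⟨k⁻¹, hom_inv u hu k⟩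

end basic

/-! ## sequences of isometries -/

section iso

variable {ι κ : ℕ → Type} [∀ n, Fintype (ι n)] [∀ n, DecidableEq (ι n)]
  [∀ n, Fintype (κ n)] [∀ n, DecidableEq (κ n)] {U : Ultrafilter ℕ}

/-- A sequence of isometries `ℂ^{ι n} → ℂ^{κ n}`. -/
structure Iso (ι κ : ℕ → Type) [∀ n, Fintype (ι n)] [∀ n, DecidableEq (ι n)]
    [∀ n, Fintype (κ n)] [∀ n, DecidableEq (κ n)] where
  J : ∀ n, Matrix (κ n) (ι n) ℂ
  iso : ∀ n, (J n).conjTranspose * J n = 1

lemma norm_iso_le {a b : Type} [Fintype a] [DecidableEq a] [Fintype b] [DecidableEq b]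
    {J : Matrix b a ℂ} (h : J.conjTranspose * J = 1) : ‖J‖ ≤ 1 := by
  have h1 := Matrix.l2_opNorm_conjTranspose_mul_self J
  rw [h] at h1
  have h2 : ‖(1 : Matrix a a ℂ)‖ ≤ 1 := by
    rcases isEmpty_or_nonempty a with h | h
    · have : (1 : Matrix a a ℂ) = 0 := Subsingleton.elim _ _
      rw [this, norm_zero]; exact zero_le_one
    · exact le_of_eq CStarRing.norm_one
  rw [h1] at h2
  nlinarith [norm_nonneg J]

lemma norm_conj_le {a b : Type} [Fintype a] [DecidableEq a] [Fintype b] [DecidableEq b]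
    {J : Matrix b a ℂ} (h : J.conjTranspose * J = 1) (x : Matrix a a ℂ) :
    ‖J * x * J.conjTranspose‖ ≤ ‖x‖ := by
  have h1 := norm_iso_le h
  have h2 : ‖J.conjTranspose‖ ≤ 1 := by rw [Matrix.l2_opNorm_conjTranspose]; exact h1
  calc ‖J * x * J.conjTranspose‖ ≤ ‖J * x‖ * ‖J.conjTranspose‖ := Matrix.l2_opNorm_mul _ _
    _ ≤ ‖J * x‖ * 1 := by gcongr
    _ ≤ (‖J‖ * ‖x‖) * 1 := by gcongr; exact Matrix.l2_opNorm_mul _ _
    _ ≤ (1 * ‖x‖) * 1 := by gcongr
    _ = ‖x‖ := by ring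

lemma norm_conj_le' {a b : Type} [Fintype a] [DecidableEq a] [Fintype b] [DecidableEq b]
    {J : Matrix b a ℂ} (h : J.conjTranspose * J = 1) (x : Matrix b b ℂ) :
    ‖J.conjTranspose * x * J‖ ≤ ‖x‖ := by
  have h1 := norm_iso_le h
  have h2 : ‖J.conjTranspose‖ ≤ 1 := by rw [Matrix.l2_opNorm_conjTranspose]; exact h1
  calc ‖J.conjTranspose * x * J‖ ≤ ‖J.conjTranspose * x‖ * ‖J‖ := Matrix.l2_opNorm_mul _ _
    _ ≤ ‖J.conjTranspose * x‖ * 1 := by gcongr
    _ ≤ (‖J.conjTranspose‖ * ‖x‖) * 1 := by gcongr; exact Matrix.l2_opNorm_mul _ _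
    _ ≤ (1 * ‖x‖) * 1 := by gcongr
    _ = ‖x‖ := by ring

lemma hs_conj {a b : Type} [Fintype a] [DecidableEq a] [Fintype b] [DecidableEq b]
    {J : Matrix b a ℂ} (h : J.conjTranspose * J = 1) (x : Matrix a a ℂ) :
    hs (J * x * J.conjTranspose) = hs x := by
  rw [hs_eq_rt, hs_eq_rt]
  unfold rt
  congr 1
  rw [Matrix.conjTranspose_mul, Matrix.conjTranspose_mul, Matrix.conjTranspose_conjTranspose]
  have e : J * (x.conjTranspose * J.conjTranspose) * (J * x * J.conjTranspose) =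
      J * (x.conjTranspose * x * J.conjTranspose) := by
    calc J * (x.conjTranspose * J.conjTranspose) * (J * x * J.conjTranspose) =
        J * (x.conjTranspose * (J.conjTranspose * J) * x * J.conjTranspose) := by
          simp only [Matrix.mul_assoc]
      _ = _ := by rw [h, Matrix.mul_one]
  rw [e, Matrix.trace_mul_comm, Matrix.mul_assoc, h, Matrix.mul_one]

lemma conj_mul_conj {a b : Type} [Fintype a] [DecidableEq a] [Fintype b] [DecidableEq b]
    {J : Matrix b a ℂ} (h : J.conjTranspose * J = 1) (x y : Matrix a a ℂ) :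
    J * (x * y) * J.conjTranspose = J * x * J.conjTranspose * (J * y * J.conjTranspose) := by
  calc J * (x * y) * J.conjTranspose = J * x * (1 : Matrix a a ℂ) * y * J.conjTranspose := by
        simp only [Matrix.mul_assoc, Matrix.one_mul]
    _ = _ := by rw [← h]; simp only [Matrix.mul_assoc]

lemma trace_conj {a b : Type} [Fintype a] [DecidableEq a] [Fintype b] [DecidableEq b]
    {J : Matrix b a ℂ} (h : J.conjTranspose * J = 1) (x : Matrix a a ℂ) :
    Matrix.trace (J * x * J.conjTranspose) = Matrix.trace x := by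
  rw [Matrix.trace_mul_comm, ← Matrix.mul_assoc, h, Matrix.one_mul]

lemma card_le_of_iso {a b : Type} [Fintype a] [DecidableEq a] [Fintype b] [DecidableEq b]
    {J : Matrix b a ℂ} (h : J.conjTranspose * J = 1) : Fintype.card a ≤ Fintype.card b := by
  have h1 := hs_conj h (1 : Matrix a a ℂ)
  have h2 : hs (1 : Matrix a a ℂ) = Fintype.card a := sum_one_sq a
  have h3 := hs_mul_le_left (J * (1 : Matrix a a ℂ) * J.conjTranspose) (1 : Matrix b b ℂ)
  have h4 : hs (1 : Matrix b b ℂ) = Fintype.card b := sum_one_sq b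
  rw [Matrix.mul_one (J * (1 : Matrix a a ℂ) * J.conjTranspose), h1, h2, h4] at h3
  have h5 : ‖J * (1 : Matrix a a ℂ) * J.conjTranspose‖ ≤ 1 := by
    refine (norm_conj_le h _).trans ?_
    have := norm_iso_le (J := (1 : Matrix a a ℂ)) (by simp)
    exact this
  have h6 : ‖J * (1 : Matrix a a ℂ) * J.conjTranspose‖ ^ 2 ≤ 1 := by
    nlinarith [norm_nonneg (J * (1 : Matrix a a ℂ) * J.conjTranspose)]
  have h7 : (Fintype.card a : ℝ) ≤ Fintype.card b := by
    have : (0 : ℝ) ≤ Fintype.card b := by positivity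
    nlinarith
  exact_mod_cast h7

/-- Expansion on sequences. -/
noncomputable def expB (J : Iso ι κ) (x : BSeq ι) : BSeq κ :=
  ⟨fun n => J.J n * x.1 n * (J.J n).conjTranspose, by
    obtain ⟨C, hC⟩ := x.2
    exact ⟨C, fun n => (norm_conj_le (J.iso n) _).trans (hC n)⟩⟩

lemma expB_val (J : Iso ι κ) (x : BSeq ι) (n : ℕ) :
    (expB J x).1 n = J.J n * x.1 n * (J.J n).conjTranspose := rfl

lemma nn_expB_le (J : Iso ι κ) {n : ℕ} (x : Matrix (ι n) (ι n) ℂ) :
    nn (J.J n * x * (J.J n).conjTranspose) ≤ nn x := by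
  unfold nn
  rw [hs_conj (J.iso n)]
  rcases Nat.eq_zero_or_pos (Fintype.card (ι n)) with h | h
  · have : IsEmpty (ι n) := Fintype.card_eq_zero_iff.1 h
    have : hs x = 0 := by unfold hs; simp
    rw [this]; simp
  · refine div_le_div_of_nonneg_left (hs_nonneg _) (by exact_mod_cast h) ?_
    exact_mod_cast card_le_of_iso (J.iso n)

lemma expB_mk_eq (J : Iso ι κ) {x y : BSeq ι} (h : mkM U x = mkM U y) :
    mkM U (expB J x) = mkM U (expB J y) := by
  rw [mk_eq_mk] at h ⊢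
  refine squeeze_zero (fun n => nn_nonneg _) (fun n => ?_) h
  rw [expB_val, expB_val, ← Matrix.sub_mul, ← Matrix.mul_sub]
  exact nn_expB_le J _

/-- The map `x ↦ J x J*` on the ultraproduct. -/
noncomputable def expF (J : Iso ι κ) (U : Ultrafilter ℕ) : MUlt ι U → MUlt κ U :=
  Quotient.lift (fun x : BSeq ι => mkM U (expB J x)) fun _ _ h =>
    expB_mk_eq J (Quotient.sound h)

lemma expF_mk (J : Iso ι κ) (x : BSeq ι) : expF J U (mkM U x) = mkM U (expB J x) := rfl

/-- The (non-unital) *-homomorphism `x ↦ J x J*`. -/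
noncomputable def expd (J : Iso ι κ) (U : Ultrafilter ℕ) : MUlt ι U →⋆ₙₐ[ℂ] MUlt κ U where
  toFun := expF J U
  map_smul' c x := by
    obtain ⟨x, rfl⟩ := mkM_surjective x
    rw [← mkM_smul, expF_mk, expF_mk]
    show mkM U (expB J (c • x)) = c • mkM U (expB J x)
    rw [← mkM_smul]
    congr 1
    refine Subtype.ext (funext fun n => ?_)
    rw [expB_val, smul_val, smul_val, expB_val, Matrix.mul_smul, Matrix.smul_mul]
  map_zero' := by
    rw [← map_zero (mkM U), expF_mk, ← map_zero (mkM U)]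
    congr 1
    refine Subtype.ext (funext fun n => ?_)
    rw [expB_val, zero_val, zero_val]; simp
  map_add' x y := by
    obtain ⟨x, rfl⟩ := mkM_surjective x
    obtain ⟨y, rfl⟩ := mkM_surjective y
    rw [← map_add, expF_mk, expF_mk, expF_mk, ← map_add]
    congr 1
    refine Subtype.ext (funext fun n => ?_)
    rw [expB_val, add_val, add_val, expB_val, expB_val, Matrix.mul_add, Matrix.add_mul]
  map_mul' x y := by
    obtain ⟨x, rfl⟩ := mkM_surjective x
    obtain ⟨y, rfl⟩ := mkM_surjective y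
    rw [← map_mul, expF_mk, expF_mk, expF_mk, ← map_mul]
    congr 1
    refine Subtype.ext (funext fun n => ?_)
    rw [expB_val, mul_val, mul_val, expB_val, expB_val]
    exact conj_mul_conj (J.iso n) _ _
  map_star' x := by
    obtain ⟨x, rfl⟩ := mkM_surjective x
    rw [star_mk, expF_mk, expF_mk, star_mk]
    congr 1
    refine Subtype.ext (funext fun n => ?_)
    rw [expB_val, star_val, star_val, expB_val, Matrix.conjTranspose_mul,
      Matrix.conjTranspose_mul, Matrix.conjTranspose_conjTranspose, Matrix.mul_assoc]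

lemma expd_mk (J : Iso ι κ) (x : BSeq ι) : expd J U (mkM U x) = mkM U (expB J x) := rfl

/-- The sizes are comparable along `U`. -/
def Cmp (ι κ : ℕ → Type) [∀ n, Fintype (ι n)] [∀ n, Fintype (κ n)] (U : Ultrafilter ℕ) : Prop :=
  ∃ C : ℝ, ∀ᶠ n in (U : Filter ℕ), (Fintype.card (κ n) : ℝ) ≤ C * Fintype.card (ι n)

lemma nrm_expd_le (J : Iso ι κ) (x : MUlt ι U) : nrm (expd J U x) ≤ nrm x := by
  obtain ⟨x, rfl⟩ := mkM_surjective x
  rw [expd_mk]
  exact le_of_tendsto_of_tendsto' (tendsto_nn _) (tendsto_nn _) fun n => nn_expB_le J _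

lemma NB.expd (J : Iso ι κ) {C : ℝ} {x : MUlt ι U} (h : NB C x) : NB C (expd J U x) := by
  obtain ⟨a, rfl, ha⟩ := h
  exact ⟨expB J a, rfl, fun n => (norm_conj_le (J.iso n) _).trans (ha n)⟩

lemma expd_injective (J : Iso ι κ) (h : Cmp ι κ U) : Function.Injective (expd J U) := by
  obtain ⟨C, hC⟩ := h
  intro a b hab
  obtain ⟨x, rfl⟩ := mkM_surjective a
  obtain ⟨y, rfl⟩ := mkM_surjective b
  rw [expd_mk, expd_mk, mk_eq_mk] at hab
  rw [mk_eq_mk]
  have h1 : Tendsto (fun n => C * nn ((expB J x).1 n - (expB J y).1 n)) U (𝓝 0) := by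
    simpa using hab.const_mul C
  refine tendsto_of_tendsto_of_tendsto_of_le_of_le' tendsto_const_nhds h1
    (Filter.Eventually.of_forall fun n => nn_nonneg _) ?_
  filter_upwards [hC] with n hn
  rw [expB_val, expB_val, ← Matrix.sub_mul, ← Matrix.mul_sub]
  unfold nn
  rw [hs_conj (J.iso n)]
  rcases Nat.eq_zero_or_pos (Fintype.card (ι n)) with h | h
  · have : IsEmpty (ι n) := Fintype.card_eq_zero_iff.1 h
    have : hs (x.1 n - y.1 n) = 0 := by unfold hs; simp
    rw [this]; simp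
  · have hpos : (0 : ℝ) < Fintype.card (ι n) := by exact_mod_cast h
    have hpos' : (0 : ℝ) < Fintype.card (κ n) := by
      exact_mod_cast h.trans_le (card_le_of_iso (J.iso n))
    rw [← mul_div_assoc, div_le_div_iff₀ hpos hpos']
    have := hs_nonneg (x.1 n - y.1 n)
    nlinarith

/-- Elements of the corner `e M e`, `e = J J*`, are expansions. -/
lemma expd_range (J : Iso ι κ) (h : Cmp ι κ U) (y : MUlt κ U)
    (hy : expd J U 1 * y * expd J U 1 = y) : ∃ x, expd J U x = y := by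
  obtain ⟨y, rfl⟩ := mkM_surjective y
  refine ⟨mkM U ⟨fun n => (J.J n).conjTranspose * y.1 n * J.J n, ?_⟩, ?_⟩
  · obtain ⟨C, hC⟩ := y.2
    exact ⟨C, fun n => (norm_conj_le' (J.iso n) _).trans (hC n)⟩
  · rw [expd_mk]
    conv_rhs => rw [← hy]
    rw [← map_one (mkM U), expd_mk, ← map_mul, ← map_mul]
    congr 1
    refine Subtype.ext (funext fun n => ?_)
    rw [mul_val, mul_val, expB_val, expB_val, one_val]
    show J.J n * ((J.J n).conjTranspose * y.1 n * J.J n) * (J.J n).conjTranspose = _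
    simp only [Matrix.mul_assoc, Matrix.one_mul]

/-- The trace of an expansion. -/
lemma tr_expd (J : Iso ι κ) {ρ : ℝ} (hρ : Tendsto (fun n => (Fintype.card (ι n) : ℝ) /
    Fintype.card (κ n)) U (𝓝 ρ)) (x : MUlt ι U) : tr (expd J U x) = ρ * tr x := by
  obtain ⟨x, rfl⟩ := mkM_surjective x
  rw [expd_mk]
  refine tr_mk_eq ?_
  have h1 : Tendsto (fun n => (((Fintype.card (ι n) : ℝ) / Fintype.card (κ n) : ℝ) : ℂ) *
      ntr (x.1 n)) U (𝓝 (ρ * tr (mkM U x))) :=
    ((Complex.continuous_ofReal.tendsto _).comp hρ).mul (tendsto_tr x)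
  refine h1.congr fun n => ?_
  have h2 : ntr ((expB J x).1 n) = Matrix.trace (J.J n * x.1 n * (J.J n).conjTranspose) /
      (Fintype.card (κ n) : ℂ) := rfl
  have h3 : ntr (x.1 n) = Matrix.trace (x.1 n) / (Fintype.card (ι n) : ℂ) := rfl
  rw [h2, h3, trace_conj (J.iso n)]
  rcases Nat.eq_zero_or_pos (Fintype.card (ι n)) with h | h
  · have : IsEmpty (ι n) := Fintype.card_eq_zero_iff.1 h
    simp [Matrix.trace]
  · have hc : (Fintype.card (ι n) : ℂ) ≠ 0 := by exact_mod_cast h.ne'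
    push_cast
    field_simp

/-- The inclusions of the summands. -/
noncomputable def JL (ι κ : ℕ → Type) [∀ n, Fintype (ι n)] [∀ n, DecidableEq (ι n)]
    [∀ n, Fintype (κ n)] [∀ n, DecidableEq (κ n)] : Iso ι (fun n => ι n ⊕ κ n) where
  J n := Matrix.fromRows 1 0
  iso n := by
    rw [Matrix.conjTranspose_fromRows_eq_fromCols_conjTranspose, Matrix.fromCols_mul_fromRows]
    simp

noncomputable def JR (ι κ : ℕ → Type) [∀ n, Fintype (ι n)] [∀ n, DecidableEq (ι n)]
    [∀ n, Fintype (κ n)] [∀ n, DecidableEq (κ n)] : Iso κ (fun n => ι n ⊕ κ n) where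
  J n := Matrix.fromRows 0 1
  iso n := by
    rw [Matrix.conjTranspose_fromRows_eq_fromCols_conjTranspose, Matrix.fromCols_mul_fromRows]
    simp

/-- `x ↦ x ⊕ 0`. -/
noncomputable abbrev inlM (κ : ℕ → Type) [∀ n, Fintype (κ n)] [∀ n, DecidableEq (κ n)] :
    MUlt ι U →⋆ₙₐ[ℂ] MUlt (fun n => ι n ⊕ κ n) U := expd (JL ι κ) U

/-- `y ↦ 0 ⊕ y`. -/
noncomputable abbrev inrM (ι : ℕ → Type) [∀ n, Fintype (ι n)] [∀ n, DecidableEq (ι n)] :
    MUlt κ U →⋆ₙₐ[ℂ] MUlt (fun n => ι n ⊕ κ n) U := expd (JR ι κ) U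

lemma inl_add_inr : inlM κ (1 : MUlt ι U) + inrM ι (1 : MUlt κ U) = 1 := by
  rw [← map_one (mkM (ι := ι) U), ← map_one (mkM (ι := κ) U), expd_mk, expd_mk, ← map_add,
    ← map_one (mkM U)]
  congr 1
  refine Subtype.ext (funext fun n => ?_)
  rw [add_val, expB_val, expB_val, one_val, one_val, one_val]
  show Matrix.fromRows (1 : Matrix (ι n) (ι n) ℂ) (0 : Matrix (κ n) (ι n) ℂ) * 1 *
      (Matrix.fromRows (1 : Matrix (ι n) (ι n) ℂ) (0 : Matrix (κ n) (ι n) ℂ)).conjTranspose +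
    Matrix.fromRows (0 : Matrix (ι n) (κ n) ℂ) (1 : Matrix (κ n) (κ n) ℂ) * 1 *
      (Matrix.fromRows (0 : Matrix (ι n) (κ n) ℂ) (1 : Matrix (κ n) (κ n) ℂ)).conjTranspose = 1
  rw [Matrix.mul_one, Matrix.mul_one, Matrix.conjTranspose_fromRows_eq_fromCols_conjTranspose,
    Matrix.conjTranspose_fromRows_eq_fromCols_conjTranspose, Matrix.fromRows_mul_fromCols,
    Matrix.fromRows_mul_fromCols]
  simp [Matrix.fromBlocks_add]

lemma inl_mul_inr (x : MUlt ι U) (y : MUlt κ U) : inlM κ x * inrM ι y = 0 := by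
  obtain ⟨x, rfl⟩ := mkM_surjective x
  obtain ⟨y, rfl⟩ := mkM_surjective y
  rw [expd_mk, expd_mk, ← map_mul, ← map_zero (mkM U)]
  congr 1
  refine Subtype.ext (funext fun n => ?_)
  rw [mul_val, expB_val, expB_val, zero_val]
  have h : (Matrix.fromRows (1 : Matrix (ι n) (ι n) ℂ) (0 : Matrix (κ n) (ι n) ℂ)).conjTranspose *
      Matrix.fromRows (0 : Matrix (ι n) (κ n) ℂ) (1 : Matrix (κ n) (κ n) ℂ) = 0 := by
    rw [Matrix.conjTranspose_fromRows_eq_fromCols_conjTranspose, Matrix.fromCols_mul_fromRows]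
    simp
  show Matrix.fromRows (1 : Matrix (ι n) (ι n) ℂ) (0 : Matrix (κ n) (ι n) ℂ) * x.1 n *
      (Matrix.fromRows (1 : Matrix (ι n) (ι n) ℂ) (0 : Matrix (κ n) (ι n) ℂ)).conjTranspose *
    (Matrix.fromRows (0 : Matrix (ι n) (κ n) ℂ) (1 : Matrix (κ n) (κ n) ℂ) * y.1 n *
      (Matrix.fromRows (0 : Matrix (ι n) (κ n) ℂ) (1 : Matrix (κ n) (κ n) ℂ)).conjTranspose) = 0
  calc _ = Matrix.fromRows (1 : Matrix (ι n) (ι n) ℂ) (0 : Matrix (κ n) (ι n) ℂ) * x.1 n *
      ((Matrix.fromRows (1 : Matrix (ι n) (ι n) ℂ) (0 : Matrix (κ n) (ι n) ℂ)).conjTranspose *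
    Matrix.fromRows (0 : Matrix (ι n) (κ n) ℂ) (1 : Matrix (κ n) (κ n) ℂ)) * (y.1 n *
      (Matrix.fromRows (0 : Matrix (ι n) (κ n) ℂ) (1 : Matrix (κ n) (κ n) ℂ)).conjTranspose) := by
        simp only [Matrix.mul_assoc]
    _ = 0 := by rw [h]; simp

lemma inr_mul_inl (x : MUlt ι U) (y : MUlt κ U) : inrM ι y * inlM κ x = 0 := by
  have := congrArg star (inl_mul_inr (star x) (star y))
  rw [star_mul, ← map_star, ← map_star, star_star, star_star, star_zero] at this
  exact this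

end iso

/-! ## amplifications -/

section amp

variable {ι κ : ℕ → Type} [∀ n, Fintype (ι n)] [∀ n, DecidableEq (ι n)]
  [∀ n, Fintype (κ n)] [∀ n, DecidableEq (κ n)] {U : Ultrafilter ℕ}

/-- `x ↦ 1 ⊗ x`, with values in `∏ M_{b n} ⊗ M_{κ n}`. -/
noncomputable abbrev amp (b : ℕ → ℕ) : MUlt κ U →+* MUlt (fun n => Fin (b n) × κ n) U :=
  jm (fun n => Fin (b n)) U

lemma amp_smul (b : ℕ → ℕ) (c : ℂ) (x : MUlt κ U) : amp b (c • x) = c • amp b x := by
  obtain ⟨x, rfl⟩ := mkM_surjective x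
  rw [← mkM_smul, jm_mk, jm_mk, ← mkM_smul]
  congr 1
  refine Subtype.ext (funext fun n => ?_)
  rw [smul_val, jb_val, jb_val, smul_val, map_smul]

lemma amp_star (b : ℕ → ℕ) (x : MUlt κ U) : amp b (star x) = star (amp b x) := jm_star x

lemma nrm_amp (b : ℕ → ℕ) (hb : ∀ᶠ n in (U : Filter ℕ), 0 < b n) (x : MUlt κ U) :
    nrm (amp b x) = nrm x := by
  obtain ⟨x, rfl⟩ := mkM_surjective x
  refine tendsto_nhds_unique (tendsto_nn _) ((tendsto_nn x).congr' ?_)
  filter_upwards [hb] with n hn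
  have : Nonempty (Fin (b n)) := ⟨⟨0, hn⟩⟩
  rw [jb_val, nn_inr]

lemma amp_injective (b : ℕ → ℕ) (hb : ∀ᶠ n in (U : Filter ℕ), 0 < b n) :
    Function.Injective (amp b : MUlt κ U → _) :=
  jm_injective (by filter_upwards [hb] with n hn; exact ⟨⟨0, hn⟩⟩)

lemma NB.amp (b : ℕ → ℕ) {C : ℝ} {x : MUlt κ U} (h : NB C x) : NB C (amp b x) := by
  obtain ⟨a, rfl, ha⟩ := h
  exact ⟨jb _ a, rfl, fun n => (norm_inr_le _).trans (ha n)⟩

end amp

end Helper53.NG
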