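import Pool.Agent.Helper53.NG.Inst
import Pool.Agent.Helper61.IE.Defs2

/-!
# Project NG: the definitions used in the final statement

`MUlt ι U` is the tracial ultraproduct of the matrix algebras `M_{ι n}(ℂ)`, `tr` its trace and
`nrm x = tr (x* x)` the square of its 2-norm.
-/

namespace Helper53.NG

open Helper51.MU Helper61.IE Filter Topology
open scoped Matrix.Norms.L2Operator MatrixOrder ComplexOrder

attribute [local irreducible] Helper51.MU.instRingMUlt

variable {ι : ℕ → Type} [∀ n, Fintype (ι n)] [∀ n, DecidableEq (ι n)] {U : Ultrafilter ℕ}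

/-- Unital *-subalgebras of a tracial matrix ultraproduct. -/
abbrev Sub (ι : ℕ → Type) [∀ n, Fintype (ι n)] [∀ n, DecidableEq (ι n)] (U : Ultrafilter ℕ) :
    Type := StarSubalgebra ℂ (MUlt ι U)

/-- `x` is in the closure of the set `S` in the 2-norm. -/
def InClosure (S : Set (MUlt ι U)) (x : MUlt ι U) : Prop :=
  ∀ ε : ℝ, 0 < ε → ∃ y ∈ S, nrm (x - y) < ε

/-- Property Gamma of Murray and von Neumann for a *-subalgebra `N` of a tracial matrix
ultraproduct: for every finite subset `F` of `N` and every `ε > 0` there is a unitary `v` in `N` of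
trace zero with `‖v x - x v‖₂² < ε` for all `x ∈ F`. -/
def HasGamma (N : Sub ι U) : Prop :=
  ∀ F : Finset (MUlt ι U), (∀ x ∈ F, x ∈ N) → ∀ ε : ℝ, 0 < ε →
    ∃ v ∈ N, star v * v = 1 ∧ v * star v = 1 ∧ tr v = 0 ∧ ∀ x ∈ F, nrm (v * x - x * v) < ε

/-- `N` is a non-Gamma II_1 factor: a unital *-subalgebra of the tracial matrix ultraproduct that is
closed in the 2-norm (that is, a von Neumann subalgebra), has trivial centre, is
infinite-dimensional and does not have property Gamma. -/
structure NonGammaFactor (N : Sub ι U) : Prop where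
  closed : ∀ x, InClosure (N : Set (MUlt ι U)) x → x ∈ N
  centre : ∀ z ∈ N, (∀ x ∈ N, z * x = x * z) → ∃ c : ℂ, z = algebraMap ℂ (MUlt ι U) c
  infinite : ¬ FiniteDimensional ℂ N
  nonGamma : ¬ HasGamma N

/-- `u` is a homomorphism to the unitary group of the ultraproduct with `tr (u g) = φ g`, and `N` is
the closure in the 2-norm of the linear span of its values. -/
structure Generates {G : Type} [Group G] (φ : G → ℂ) (u : G →* MUlt ι U) (N : Sub ι U) :
    Prop where
  unitary : ∀ g, star (u g) * u g = 1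
  trace : ∀ g, tr (u g) = φ g
  closure : ∀ x, x ∈ N ↔ InClosure (Submodule.span ℂ (Set.range u) : Set (MUlt ι U)) x

/-- Unital *-homomorphisms from `N` to the ultraproduct of the matrix algebras of sizes `κ n`
along `V`. -/
abbrev Hom (N : Sub ι U) (κ : ℕ → Type) [∀ n, Fintype (κ n)] [∀ n, DecidableEq (κ n)]
    (V : Ultrafilter ℕ) : Type := N →⋆ₐ[ℂ] MUlt κ V

variable {κ : ℕ → Type} [∀ n, Fintype (κ n)] [∀ n, DecidableEq (κ n)] {V : Ultrafilter ℕ}

/-- `π` preserves the trace. -/
def TracePreserving {N : Sub ι U} (π : Hom N κ V) : Prop :=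
  ∀ x : N, tr (π x) = tr (x : MUlt ι U)

/-- Some `y` that is not a scalar commutes with all elements of `S`. -/
def NontrivialCommutant (S : Set (MUlt κ V)) : Prop :=
  ∃ y : MUlt κ V, (∀ x ∈ S, y * x = x * y) ∧ ∀ c : ℂ, y ≠ algebraMap ℂ (MUlt κ V) c

/-- The range of every unital trace-preserving *-homomorphism from `N` to the ultraproduct of the
matrix algebras of sizes `κ n` along `V` has a nontrivial relative commutant. -/
def NoIrreducible (N : Sub ι U) (κ : ℕ → Type) [∀ n, Fintype (κ n)] [∀ n, DecidableEq (κ n)]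
    (V : Ultrafilter ℕ) : Prop :=
  ∀ π : Hom N κ V, TracePreserving π → NontrivialCommutant (Set.range π)

end Helper53.NG
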