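import Pool.Agent.Helper53.NG.Neg
import Pool.Agent.Helper53.NG.Stmt

/-!
# Project NG: the counterexample (assembly of section 5)
-/

namespace Helper53.NG

open Helper51.MU Helper61.IE Filter Topology Polynomial
open scoped Matrix.Norms.L2Operator MatrixOrder ComplexOrder

attribute [local irreducible] Helper51.MU.instRingMUlt

section defs

variable {ι : ℕ → Type} [∀ n, Fintype (ι n)] [∀ n, DecidableEq (ι n)] {U : Ultrafilter ℕ}

/-- The *-subalgebra given by a von Neumann algebra in the sense of `IsVN`. -/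
def toSub {D : Set (MUlt ι U)} (hD : IsVN D) : StarSubalgebra ℂ (MUlt ι U) where
  carrier := D
  mul_mem' := fun ha hb => hD.mul _ ha _ hb
  add_mem' := fun ha hb => hD.add _ ha _ hb
  algebraMap_mem' := fun c => by
    rw [Algebra.algebraMap_eq_smul_one]
    exact hD.smul c 1 hD.one
  star_mem' := fun ha => hD.star _ ha

lemma mem_toSub {D : Set (MUlt ι U)} (hD : IsVN D) (x : MUlt ι U) : x ∈ toSub hD ↔ x ∈ D := Iff.rfl

end defs

namespace FIN

section grp

variable {A : Type} [CommRing A] {S : Subgroup (Matrix (Fin 4) (Fin 4) A)ˣ} {hS : S ≤ S3 A}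

/-- The embedding of `K × K`. -/
def ii (S : Subgroup (Matrix (Fin 4) (Fin 4) A)ˣ) (hS : S ≤ S3 A) :
    KG S hS × KG S hS →* GG S hS where
  toFun k := NEG.i1 S hS k.1 * NEG.i2 S hS k.2
  map_one' := by
    show NEG.i1 S hS 1 * NEG.i2 S hS 1 = 1
    rw [map_one, map_one, mul_one]
  map_mul' k k' := by
    show NEG.i1 S hS (k.1 * k'.1) * NEG.i2 S hS (k.2 * k'.2) =
      NEG.i1 S hS k.1 * NEG.i2 S hS k.2 * (NEG.i1 S hS k'.1 * NEG.i2 S hS k'.2)
    rw [map_mul, map_mul, mul_assoc, mul_assoc, ← mul_assoc (NEG.i1 S hS k'.1), NEG.i1_i2,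
      mul_assoc]

lemma ii_val (k : KG S hS × KG S hS) : (ii S hS k).1 = ((k.1 : (Matrix Ix Ix A)ˣ),
    (k.2 : (Matrix Ix Ix A)ˣ)) := by
  show ((k.1 : (Matrix Ix Ix A)ˣ), (1 : (Matrix Ix Ix A)ˣ)) *
    ((1 : (Matrix Ix Ix A)ˣ), (k.2 : (Matrix Ix Ix A)ˣ)) = _
  rw [Prod.mk_mul_mk, mul_one, one_mul]

end grp

lemma tr_eq_zero_of_empty {l : ℕ → ℕ} {V : Ultrafilter ℕ} (h : ∀ᶠ n in (V : Filter ℕ), l n = 0)
    (x : MUlt (fun n => Fin (l n)) V) : tr x = 0 := by
  obtain ⟨x, rfl⟩ := mkM_surjective x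
  refine tr_mk_eq ((tendsto_const_nhds (x := (0 : ℂ))).congr' ?_)
  filter_upwards [h] with n hn
  have : IsEmpty (Fin (l n)) := by rw [hn]; infer_instance
  unfold ntr
  simp [Matrix.trace]

end FIN

open FIN in
theorem cex (hREL : StRel) (hCHI : StChi) (hCNT : StCnt) (hSSR : StSS) (hORB : StOrb)
    (hPHI : StPhi) (hIND : StInd) (hQUO : StQuo) (hTDP : StTDP) (hCNJ : CNJ) (hSPN : StSPN)
    (hGPN : StGPN) (hCE : StCE) (p : ℕ) [Fact p.Prime] (x : Fin 8 → KK p)
    (hT : TData (KK p) p x nb)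
    (hNEG : ∀ (l : ℕ → ℕ) (U : Ultrafilter ℕ), Nonprincipal U →
      (∀ᶠ n in (U : Filter ℕ), 0 < l n) → ∀ u : GP p →* MUlt (fun n => Fin (l n)) U,
      (∀ g, star (u g) * u g = 1) → (∀ g : GP p, tr (u g) = phi (chi p) g.1) →
      ∃ y, (∀ g, y * u g = u g * y) ∧ ∀ t : ℂ, y ≠ t • (1 : MUlt (fun n => Fin (l n)) U)) :
    ∃ (G : Type) (_ : Group G) (φ : G → ℂ), Countable G ∧
      ∀ U : Ultrafilter ℕ, Nonprincipal U →
        ∃ (u : G →* MUlt (fun n => Fin n) U) (N : Sub (fun n => Fin n) U),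
          Generates φ u N ∧ NonGammaFactor N ∧
          ∀ (l : ℕ → ℕ) (V : Ultrafilter ℕ), Nonprincipal V →
            NoIrreducible N (fun n => Fin (l n)) V := by
  classical
  refine ⟨GP p, inferInstance, fun g => phi (chi p) g.1, hCNT p, fun U hU => ?_⟩
  have hne : ∀ᶠ n in (U : Filter ℕ), Nonempty (Fin n) := by
    filter_upwards [np_le_atTop hU (eventually_ge_atTop 1)] with n hn
    exact ⟨⟨0, hn⟩⟩
  obtain ⟨c1, c2, c3, c4, -, -⟩ := hCHI p
  obtain ⟨f1, f2, f3, f4, f5, f6, f7⟩ := hPHI (ZMod p)[X] (SS p) (SS_le p) (chi p) c1 c2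
  -- the homomorphism
  obtain ⟨u, hu, htr⟩ : ∃ u : GP p →* MUlt (fun n => Fin n) U, (∀ g, star (u g) * u g = 1) ∧
      ∀ g, tr (u g) = phi (chi p) g.1 := by
    obtain ⟨H, i1, i2, C, f, ρ, h1, h2⟩ := hQUO hPHI p
    have hrep : ∀ n, ∃ (d : ℕ) (_ : 0 < d) (π : H n →* Matrix.unitaryGroup (Fin d) ℂ), ∀ g,
        Matrix.trace ((π g : Matrix.unitaryGroup (Fin d) ℂ) : Matrix (Fin d) (Fin d) ℂ) =
          d * f n g := by
      intro n
      obtain ⟨a1, a2, a3, a4, a5⟩ := h1 n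
      have := i2 n
      exact hIND (H n) (C n) (f n) a1 a2 a3 a4 a5
    choose d hd π hπ using hrep
    refine hCE (GP p) (fun g => phi (chi p) g.1) d (fun k => (π k).comp (ρ k)) hd (fun g => ?_) U hU
    obtain ⟨n₀, hn₀⟩ := h2 g
    refine (tendsto_const_nhds (x := phi (chi p) g.1)).congr' ?_
    filter_upwards [eventually_ge_atTop n₀] with n hn
    show _ = Matrix.trace (((π n).comp (ρ n)) g : Matrix (Fin (d n)) (Fin (d n)) ℂ) /
      (Fintype.card (Fin (d n)) : ℂ)
    rw [MonoidHom.comp_apply, hπ, hn₀ n hn, Fintype.card_fin]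
    have : (d n : ℂ) ≠ 0 := by exact_mod_cast (hd n).ne'
    field_simp
  have hVN := hSPN (GP p) (fun n => Fin n) U u hu
  set N := toSub hVN with hN
  have hmem : ∀ x, x ∈ N ↔ ∀ ε : ℝ, 0 < ε → ∃ y ∈ Submodule.span ℂ (Set.range u),
      nrm (x - y) < ε := fun x => Iff.rfl
  have huN : ∀ g, u g ∈ N := fun g => (hmem _).2 fun ε hε =>
    ⟨u g, Submodule.subset_span ⟨g, rfl⟩, by rw [sub_self, nrm_zero]; exact hε⟩
  -- the gap
  obtain ⟨nb', hT'⟩ := hTDP (KK p) (Fin 8) p x nb hT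
  set x' : Fin 8 ⊕ Fin 8 → KK p × KK p :=
    Sum.elim (fun i => (x i, (1 : KK p))) fun i => ((1 : KK p), x i) with hx'
  have hI : Nonempty (Fin 8 ⊕ Fin 8) := ⟨Sum.inl 0⟩
  obtain ⟨hc0, hc1, -⟩ := hCNJ (KK p × KK p) (Fin 8 ⊕ Fin 8) p x' nb' (fun n => Fin n) U hU hT' hI
    (u.comp (ii _ _)) (u.comp (ii _ _)) (fun k => hu _) (fun k => hu _)
  set cc := cT p (Fintype.card (Fin 8 ⊕ Fin 8)) with hcc
  have hgap : ∀ y ∈ N, nrm (y - tr y • (1 : MUlt (fun n => Fin n) U)) ≤ (p : ℝ) ^ 2 / cc *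
      ∑ s, nrm (u (ii _ _ (x' s)) * y - y * u (ii _ _ (x' s))) := by
    intro y hy
    refine hGPN hCNJ (GP p) (KK p × KK p) (Fin 8 ⊕ Fin 8) p x' nb' (fun n => Fin n) U hU hne hT' hI
      (ii _ _) (fun g => phi (chi p) g.1) {g | InC g.1} ?_ ?_ ?_ ?_ u hu htr y ((hmem y).1 hy)
    · intro g hg
      show ‖phi (chi p) g.1‖ = 1
      unfold phi
      rw [if_pos (show InC g.1 from hg), c3]
    · intro g hg
      show phi (chi p) g.1 = 0
      unfold phi
      rw [if_neg (show ¬ InC g.1 from hg)]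
    · intro g h
      exact f7 g.1 g.2 h.1 h.2
    · intro g hg m
      obtain ⟨k, hk⟩ := hORB hSSR p g.1 g.2 hg m
      refine ⟨k, fun s t hst => ?_⟩
      have := hk s t hst
      show ¬ InC (((ii _ _ (k s) * g * (ii _ _ (k s))⁻¹) *
        (ii _ _ (k t) * g * (ii _ _ (k t))⁻¹)⁻¹ : GP p).1)
      have e : ∀ a b : GP p, (a * g * a⁻¹ * (b * g * b⁻¹)⁻¹ : GP p).1 =
        a.1 * g.1 * a.1⁻¹ * (b.1 * g.1 * b.1⁻¹)⁻¹ := fun a b => rfl
      rw [e, ii_val, ii_val]
      exact this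
  have hp0 : (0 : ℝ) < p := by exact_mod_cast hT.prime.pos
  refine ⟨u, N, ⟨hu, htr, hmem⟩,
    ⟨fun y hy => ?_, fun z hz hzc => ?_, fun hfd => ?_, fun hΓ => ?_⟩, fun l V hV π hπ => ?_⟩
  · exact hVN.closed y hy
  · refine ⟨tr z, ?_⟩
    rw [Algebra.algebraMap_eq_smul_one]
    have h1 := hgap z hz
    have h2 : ∑ s, nrm (u (ii _ _ (x' s)) * z - z * u (ii _ _ (x' s))) = 0 := by
      refine Finset.sum_eq_zero fun s _ => ?_
      rw [hzc _ (huN _), sub_self, nrm_zero]
    rw [h2, mul_zero] at h1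
    exact sub_eq_zero.1 (nrm_eq_zero.1 (le_antisymm h1 (nrm_nonneg _)))
  · -- infinite-dimensional
    obtain ⟨-, hmemb, -⟩ := hREL (ZMod p)[X] (SS p) (SS_le p)
    set gr : (ZMod p)[X] → GP p := fun r => ii _ _
      (⟨el .o .q (by decide) r, (hmemb r).2.2.2.2.1⟩, 1) with hgr
    have hLI : LinearIndependent ℂ (fun r : (ZMod p)[X] => (⟨u (gr r), huN _⟩ : N)) := by
      rw [linearIndependent_iff']
      intro s c hc r hr
      have h1 : ∑ t ∈ s, c t • u (gr t) = 0 := by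
        have := congrArg (fun z : N => (z : MUlt (fun n => Fin n) U)) hc
        simpa using this
      have h2 : tr (star (u (gr r)) * ∑ t ∈ s, c t • u (gr t)) = c r := by
        rw [Finset.mul_sum, tr_sum, Finset.sum_eq_single r]
        · rw [mul_smul_comm, hu, tr_smul, tr_one hne, mul_one]
        · intro t _ htr'
          rw [mul_smul_comm, ← hom_inv u hu, ← map_mul, tr_smul, htr]
          have : phi (chi p) ((gr r)⁻¹ * gr t).1 = 0 := by
            unfold phi
            rw [if_neg]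
            intro hC
            obtain ⟨a, b, d, h3, -⟩ := hC
            have e1 : ((gr r)⁻¹ * gr t).1.1 = (el .o .q (by decide) r)⁻¹ *
              el .o .q (by decide) t := by
              show (gr r).1.1⁻¹ * (gr t).1.1 = _
              rw [hgr]
              simp only [ii_val]
            have e2 : (((el .o .q (by decide) r)⁻¹ * el .o .q (by decide) t :
                (Matrix Ix Ix (ZMod p)[X])ˣ) : Matrix Ix Ix (ZMod p)[X]) =
                Matrix.transvection .o .q (-r) * Matrix.transvection .o .q t := rfl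
            rw [e1, e2, Matrix.transvection_mul_transvection_same _ _ (by decide)] at h3
            have h4 := congrFun (congrFun h3 .o) .q
            simp [Matrix.transvection, zt, Matrix.one_apply] at h4
            exact htr' (by linear_combination h4)
          rw [this, mul_zero]
        · intro h; exact absurd hr h
      rw [h1, mul_zero, tr_zero] at h2
      exact h2.symm
    have := hLI.finite
    exact not_finite (ZMod p)[X]
  · -- not Gamma
    have hm : (0 : ℝ) < Fintype.card (Fin 8 ⊕ Fin 8) := by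
      exact_mod_cast Fintype.card_pos
    obtain ⟨v, hv, hv1, hv2, hv3, hv4⟩ := hΓ (Finset.univ.image fun s => u (ii _ _ (x' s))) (by
      intro y hy
      obtain ⟨s, -, rfl⟩ := Finset.mem_image.1 hy
      exact huN _) (cc / (p ^ 2 * Fintype.card (Fin 8 ⊕ Fin 8))) (by positivity)
    have h1 := hgap v hv
    have h2 : nrm (v - tr v • (1 : MUlt (fun n => Fin n) U)) = 1 := by
      rw [hv3, zero_smul, sub_zero]
      unfold nrm
      rw [hv1, tr_one hne, Complex.one_re]
    have h3 : ∑ s, nrm (u (ii _ _ (x' s)) * v - v * u (ii _ _ (x' s))) <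
        ∑ s : Fin 8 ⊕ Fin 8, cc / (p ^ 2 * Fintype.card (Fin 8 ⊕ Fin 8)) := by
      refine Finset.sum_lt_sum_of_nonempty Finset.univ_nonempty fun s _ => ?_
      rw [nrm_sub_comm]
      exact hv4 _ (Finset.mem_image_of_mem _ (Finset.mem_univ s))
    rw [Finset.sum_const, Finset.card_univ, nsmul_eq_mul] at h3
    rw [h2] at h1
    have h4 : (p : ℝ) ^ 2 / cc * ∑ s, nrm (u (ii _ _ (x' s)) * v - v * u (ii _ _ (x' s))) <
        (p : ℝ) ^ 2 / cc * (Fintype.card (Fin 8 ⊕ Fin 8) *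
          (cc / (p ^ 2 * Fintype.card (Fin 8 ⊕ Fin 8)))) :=
      mul_lt_mul_of_pos_left h3 (by positivity)
    have h5 : (p : ℝ) ^ 2 / cc * (Fintype.card (Fin 8 ⊕ Fin 8) *
          (cc / (p ^ 2 * Fintype.card (Fin 8 ⊕ Fin 8)))) = 1 := by
      field_simp
    linarith
  · -- embeddings
    have hl : ∀ᶠ n in (V : Filter ℕ), 0 < l n := by
      by_contra hcon
      rw [Ultrafilter.eventually_not.symm] at hcon
      have h1 : ∀ᶠ n in (V : Filter ℕ), l n = 0 := by
        filter_upwards [hcon] with n hn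
        omega
      have h2 := tr_eq_zero_of_empty h1 (π 1)
      rw [hπ 1] at h2
      have h3 : tr ((1 : N) : MUlt (fun n => Fin n) U) = 1 := tr_one hne
      rw [h3] at h2
      exact one_ne_zero h2
    set uN : GP p →* N :=
      { toFun := fun g => ⟨u g, huN g⟩
        map_one' := Subtype.ext (map_one u)
        map_mul' := fun g h => Subtype.ext (map_mul u g h) } with huN'
    have huN'' : ∀ g, ((uN g : N) : MUlt (fun n => Fin n) U) = u g := fun g => rfl
    set v : GP p →* MUlt (fun n => Fin (l n)) V := (π : N →* MUlt (fun n => Fin (l n)) V).comp uN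
      with hv
    have hv' : ∀ g, v g = π (uN g) := fun g => rfl
    obtain ⟨y, hy1, hy2⟩ := hNEG l V hV hl v (fun g => by
      rw [hv', ← map_star, ← map_mul]
      have : star (uN g) * uN g = 1 := Subtype.ext (hu g)
      rw [this, map_one]) (fun g => by rw [hv', hπ, huN'', htr])
    refine ⟨y, ?_, fun c => by rw [Algebra.algebraMap_eq_smul_one]; exact hy2 c⟩
    rintro _ ⟨z, rfl⟩
    have hnrm : ∀ z : N, nrm (π z) = nrm (z : MUlt (fun n => Fin n) U) := by
      intro z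
      unfold nrm
      rw [← map_star, ← map_mul, hπ]
      rfl
    refine (commute_of_closed (u := y) (x := π z) fun ε hε => ?_).symm
    obtain ⟨t, ht, hzt⟩ := (hmem z).1 z.2 ε hε
    have hspan : ∀ t ∈ Submodule.span ℂ (Set.range u), ∃ ht : t ∈ N,
        π ⟨t, ht⟩ * y = y * π ⟨t, ht⟩ := by
      intro t ht
      induction ht using Submodule.span_induction with
      | mem t h =>
        obtain ⟨g, rfl⟩ := h
        exact ⟨huN g, (hy1 g).symm⟩
      | zero =>
        refine ⟨N.zero_mem, ?_⟩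
        have : (⟨0, N.zero_mem⟩ : N) = 0 := rfl
        rw [this, map_zero, zero_mul, mul_zero]
      | add a b _ _ ha hb =>
        obtain ⟨ha1, ha2⟩ := ha
        obtain ⟨hb1, hb2⟩ := hb
        refine ⟨N.add_mem ha1 hb1, ?_⟩
        have : (⟨a + b, N.add_mem ha1 hb1⟩ : N) = ⟨a, ha1⟩ + ⟨b, hb1⟩ := rfl
        rw [this, map_add, add_mul, mul_add, ha2, hb2]
      | smul c a _ ha =>
        obtain ⟨ha1, ha2⟩ := ha
        refine ⟨N.smul_mem ha1 c, ?_⟩
        have : (⟨c • a, N.smul_mem ha1 c⟩ : N) = c • ⟨a, ha1⟩ := rfl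
        rw [this, map_smul, smul_mul_assoc, mul_smul_comm, ha2]
    obtain ⟨htN, htc⟩ := hspan t ht
    refine ⟨π ⟨t, htN⟩, htc, ?_⟩
    rw [← map_sub, hnrm]
    exact hzt

end Helper53.NG
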