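import Mathlib

/-!
# Project NG (MP_4bd785_an): the groups

Index type `Ix` with ten elements, block upper triangular matrices with blocks of sizes 1,4,1,4 and
diagonal part `dg σ = diag(1, σ, 1, σ)`.
-/

namespace Helper53.NG

open Polynomial

/-- The ten matrix indices. -/
inductive Ix
  | o
  | v (i : Fin 4)
  | q
  | w (i : Fin 4)
  deriving DecidableEq, Fintype

/-- The level of an index. -/
def lvl : Ix → ℕ
  | .o => 0
  | .v _ => 1
  | .q => 2
  | .w _ => 3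

lemma sum_Ix {M : Type*} [AddCommMonoid M] (F : Ix → M) :
    ∑ i, F i = F .o + ∑ j, F (.v j) + F .q + ∑ j, F (.w j) := by
  have h : (Finset.univ : Finset Ix) = {.o} ∪ (Finset.univ.image Ix.v) ∪ {.q} ∪
      (Finset.univ.image Ix.w) := by
    ext i; cases i <;> simp
  rw [h, Finset.sum_union, Finset.sum_union, Finset.sum_union, Finset.sum_singleton,
    Finset.sum_singleton, Finset.sum_image, Finset.sum_image]
  · intro a _ b _ hab; simpa using hab
  · intro a _ b _ hab; simpa using hab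
  · rw [Finset.disjoint_left]; intro i hi; cases i <;> simp_all
  · rw [Finset.disjoint_left]; intro i hi; cases i <;> simp_all
  · rw [Finset.disjoint_left]; intro i hi; cases i <;> simp_all

section General

variable {A : Type} [CommRing A]

/-- The block diagonal matrix `diag(1, σ, 1, σ)`. -/
def dg (σ : Matrix (Fin 4) (Fin 4) A) : Matrix Ix Ix A := fun i j =>
  match i, j with
  | .o, .o => 1
  | .v i, .v j => σ i j
  | .q, .q => 1
  | .w i, .w j => σ i j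
  | _, _ => 0

/-- Block form: block upper triangular with diagonal part `dg σ`, `σ ∈ S`. -/
def BF (S : Subgroup (Matrix (Fin 4) (Fin 4) A)ˣ) (M : Matrix Ix Ix A) : Prop :=
  ∃ σ ∈ S, ∀ i j, lvl j ≤ lvl i → M i j = dg (σ : Matrix (Fin 4) (Fin 4) A) i j

lemma dg_zero_of_lvl {σ : Matrix (Fin 4) (Fin 4) A} {i j : Ix} (h : lvl i ≠ lvl j) :
    dg σ i j = 0 := by
  cases i <;> cases j <;> simp_all [dg, lvl]

lemma dg_one : dg (1 : Matrix (Fin 4) (Fin 4) A) = 1 := by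
  ext i j
  cases i <;> cases j <;> simp [dg, Matrix.one_apply]

lemma dg_mul (σ τ : Matrix (Fin 4) (Fin 4) A) : dg (σ * τ) = dg σ * dg τ := by
  ext i j
  rw [Matrix.mul_apply, sum_Ix]
  cases i <;> cases j <;> simp [dg, Matrix.mul_apply]

lemma BF_one (S : Subgroup (Matrix (Fin 4) (Fin 4) A)ˣ) : BF S (1 : Matrix Ix Ix A) :=
  ⟨1, S.one_mem, fun i j _ => by rw [Units.val_one, dg_one]⟩

lemma BF_mul {S : Subgroup (Matrix (Fin 4) (Fin 4) A)ˣ} {M N : Matrix Ix Ix A} (hM : BF S M)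
    (hN : BF S N) : BF S (M * N) := by
  obtain ⟨σ, hσ, h1⟩ := hM
  obtain ⟨τ, hτ, h2⟩ := hN
  refine ⟨σ * τ, S.mul_mem hσ hτ, fun i j hij => ?_⟩
  rw [Units.val_mul, dg_mul, Matrix.mul_apply, Matrix.mul_apply]
  refine Finset.sum_congr rfl fun k _ => ?_
  rcases le_or_gt (lvl k) (lvl i) with hk | hk
  · rcases le_or_gt (lvl j) (lvl k) with hj | hj
    · rw [h1 i k hk, h2 k j hj]
    · rw [h1 i k hk, dg_zero_of_lvl (i := i) (j := k) (by omega)]
      simp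
  · rw [h2 k j (by omega), dg_zero_of_lvl (i := k) (j := j) (by omega)]
    simp

/-- The group `P` of invertible matrices of block form. -/
def PG (S : Subgroup (Matrix (Fin 4) (Fin 4) A)ˣ) : Subgroup (Matrix Ix Ix A)ˣ where
  carrier := {g | BF S (g : Matrix Ix Ix A) ∧ BF S ((g⁻¹ : (Matrix Ix Ix A)ˣ) : Matrix Ix Ix A)}
  mul_mem' := by
    rintro g h ⟨h1, h2⟩ ⟨h3, h4⟩
    refine ⟨?_, ?_⟩
    · rw [Units.val_mul]; exact BF_mul h1 h3
    · rw [mul_inv_rev, Units.val_mul]; exact BF_mul h4 h2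
  one_mem' := by
    refine ⟨?_, ?_⟩
    · rw [Units.val_one]; exact BF_one S
    · rw [inv_one, Units.val_one]; exact BF_one S
  inv_mem' := by
    rintro g ⟨h1, h2⟩
    exact ⟨h2, by rw [inv_inv]; exact h1⟩

/-- The subgroup of `GL_4` of matrices `diag(σ, 1)`. -/
def S3 (A : Type) [CommRing A] : Subgroup (Matrix (Fin 4) (Fin 4) A)ˣ where
  carrier := {σ | (∀ i, (σ : Matrix (Fin 4) (Fin 4) A) i 3 = (1 : Matrix (Fin 4) (Fin 4) A) i 3) ∧
    (∀ i, (σ : Matrix (Fin 4) (Fin 4) A) 3 i = (1 : Matrix (Fin 4) (Fin 4) A) 3 i)}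
  mul_mem' := by
    rintro g h ⟨h1, h2⟩ ⟨h3, h4⟩
    refine ⟨fun i => ?_, fun i => ?_⟩
    · rw [Units.val_mul, Matrix.mul_apply]
      simp only [h3, Matrix.one_apply, mul_ite, mul_one, mul_zero, Finset.sum_ite_eq',
        Finset.mem_univ, if_true]
      simpa [Matrix.one_apply] using h1 i
    · rw [Units.val_mul, Matrix.mul_apply]
      simp only [h2, Matrix.one_apply, ite_mul, one_mul, zero_mul, Finset.sum_ite_eq,
        Finset.mem_univ, if_true]
      simpa [Matrix.one_apply] using h4 i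
  one_mem' := ⟨fun i => by rw [Units.val_one], fun i => by rw [Units.val_one]⟩
  inv_mem' := by
    rintro g ⟨h1, h2⟩
    have e1 : (g : Matrix (Fin 4) (Fin 4) A).mulVec (Pi.single 3 1) = Pi.single 3 1 := by
      ext i; rw [Matrix.mulVec_single_one]; simpa [Matrix.one_apply, Pi.single_apply] using h1 i
    have e2 : Matrix.vecMul (Pi.single 3 1) (g : Matrix (Fin 4) (Fin 4) A) = Pi.single 3 1 := by
      ext i; rw [Matrix.single_one_vecMul]
      simpa [Matrix.one_apply, Pi.single_apply, eq_comm] using h2 i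
    have e3 : ((g⁻¹ : (Matrix (Fin 4) (Fin 4) A)ˣ) : Matrix (Fin 4) (Fin 4) A).mulVec
        (Pi.single 3 1) = Pi.single 3 1 := by
      have := congrArg ((g⁻¹ : (Matrix (Fin 4) (Fin 4) A)ˣ) : Matrix (Fin 4) (Fin 4) A).mulVec e1
      rw [Matrix.mulVec_mulVec, ← Units.val_mul, inv_mul_cancel, Units.val_one,
        Matrix.one_mulVec] at this
      exact this.symm
    have e4 : Matrix.vecMul (Pi.single 3 1)
        ((g⁻¹ : (Matrix (Fin 4) (Fin 4) A)ˣ) : Matrix (Fin 4) (Fin 4) A) = Pi.single 3 1 := by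
      have := congrArg (fun x => Matrix.vecMul x
        ((g⁻¹ : (Matrix (Fin 4) (Fin 4) A)ˣ) : Matrix (Fin 4) (Fin 4) A)) e2
      simp only [] at this
      rw [Matrix.vecMul_vecMul, ← Units.val_mul, mul_inv_cancel, Units.val_one,
        Matrix.vecMul_one] at this
      exact this.symm
    refine ⟨fun i => ?_, fun i => ?_⟩
    · have := congrFun e3 i
      rw [Matrix.mulVec_single_one] at this
      simpa [Matrix.one_apply, Pi.single_apply] using this
    · have := congrFun e4 i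
      rw [Matrix.single_one_vecMul] at this
      simpa [Matrix.one_apply, Pi.single_apply, eq_comm] using this

/-- The four coordinates `t₁, t₂, t₃, t₄`. -/
def t1 (g : (Matrix Ix Ix A)ˣ) : A := (g : Matrix Ix Ix A) .q (.w 3)
def t2 (g : (Matrix Ix Ix A)ˣ) : A := (g : Matrix Ix Ix A) .o (.v 3)
def t3 (g : (Matrix Ix Ix A)ˣ) : A := (g : Matrix Ix Ix A) (.v 3) .q
def t4 (g : (Matrix Ix Ix A)ˣ) : A := (g : Matrix Ix Ix A) (.v 3) (.w 3)

lemma one_apply' (i j : Ix) : (1 : Matrix Ix Ix A) i j = if i = j then 1 else 0 :=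
  Matrix.one_apply

lemma t_mul_aux {S : Subgroup (Matrix (Fin 4) (Fin 4) A)ˣ} (hS : S ≤ S3 A)
    {g : (Matrix Ix Ix A)ˣ} (hg : g ∈ PG S) :
    (∀ i, (g : Matrix Ix Ix A) i .o = if i = .o then 1 else 0) ∧
    (∀ i, (g : Matrix Ix Ix A) (.w 3) i = if i = .w 3 then 1 else 0) ∧
    (∀ j : Fin 4, (g : Matrix Ix Ix A) (.w j) (.w 3) = if j = 3 then 1 else 0) ∧
    (∀ j : Fin 4, (g : Matrix Ix Ix A) (.v 3) (.v j) = if j = 3 then 1 else 0) ∧
    (∀ j : Fin 4, (g : Matrix Ix Ix A) (.v j) (.v 3) = if j = 3 then 1 else 0) ∧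
    (g : Matrix Ix Ix A) .q .q = 1 ∧ (∀ j : Fin 4, (g : Matrix Ix Ix A) .q (.v j) = 0) ∧
    (∀ j : Fin 4, (g : Matrix Ix Ix A) (.w j) .q = 0) ∧
    (∀ j i : Fin 4, (g : Matrix Ix Ix A) (.w j) (.v i) = 0) := by
  obtain ⟨⟨σ, hσ, h⟩, -⟩ := hg
  have h3 := hS hσ
  obtain ⟨h31, h32⟩ := h3
  refine ⟨fun i => ?_, fun i => ?_, fun j => ?_, fun j => ?_, fun j => ?_, ?_, fun j => ?_,
    fun j => ?_, fun j i => ?_⟩
  · rw [h i .o (by cases i <;> simp [lvl])]
    cases i <;> simp [dg]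
  · rw [h (.w 3) i (by cases i <;> simp [lvl])]
    cases i
    · simp [dg]
    · simp [dg]
    · simp [dg]
    · rename_i j
      show (σ : Matrix (Fin 4) (Fin 4) A) 3 j = _
      rw [h32 j, Matrix.one_apply]
      simp [eq_comm]
  · rw [h _ _ (by simp [lvl])]
    show (σ : Matrix (Fin 4) (Fin 4) A) j 3 = _
    rw [h31 j, Matrix.one_apply]
  · rw [h _ _ (by simp [lvl])]
    show (σ : Matrix (Fin 4) (Fin 4) A) 3 j = _
    rw [h32 j, Matrix.one_apply]
    simp [eq_comm]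
  · rw [h _ _ (by simp [lvl])]
    show (σ : Matrix (Fin 4) (Fin 4) A) j 3 = _
    rw [h31 j, Matrix.one_apply]
  · rw [h _ _ (by simp [lvl])]; simp [dg]
  · rw [h _ _ (by simp [lvl])]; simp [dg]
  · rw [h _ _ (by simp [lvl])]; simp [dg]
  · rw [h _ _ (by simp [lvl])]; simp [dg]

lemma t1_mul {S : Subgroup (Matrix (Fin 4) (Fin 4) A)ˣ} (hS : S ≤ S3 A)
    {g h : (Matrix Ix Ix A)ˣ} (hg : g ∈ PG S) (hh : h ∈ PG S) : t1 (g * h) = t1 g + t1 h := by
  obtain ⟨-, -, -, -, -, a6, a7, -, -⟩ := t_mul_aux hS hg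
  obtain ⟨b1, b2, b3, b4, b5, b6, b7, b8, b9⟩ := t_mul_aux hS hh
  unfold t1
  rw [Units.val_mul, Matrix.mul_apply, sum_Ix]
  have hgo : (g : Matrix Ix Ix A) .q .o = 0 := by
    have := (t_mul_aux hS hg).1 .q
    simpa using this
  simp only [hgo, a7, a6, b3, zero_mul, one_mul, mul_ite, mul_one, mul_zero, Finset.sum_const_zero,
    Finset.sum_ite_eq', Finset.mem_univ, if_true, zero_add]
  ring

lemma t2_mul {S : Subgroup (Matrix (Fin 4) (Fin 4) A)ˣ} (hS : S ≤ S3 A)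
    {g h : (Matrix Ix Ix A)ˣ} (hg : g ∈ PG S) (hh : h ∈ PG S) : t2 (g * h) = t2 g + t2 h := by
  obtain ⟨a1, -, -, -, -, a6, a7, -, -⟩ := t_mul_aux hS hg
  obtain ⟨b1, b2, b3, b4, b5, b6, b7, b8, b9⟩ := t_mul_aux hS hh
  unfold t2
  rw [Units.val_mul, Matrix.mul_apply, sum_Ix]
  have h1 := a1 .o
  simp only [if_true] at h1
  simp only [h1, b5, b7, b9, zero_mul, one_mul, mul_ite, mul_one, mul_zero, Finset.sum_const_zero,
    Finset.sum_ite_eq', Finset.mem_univ, if_true, add_zero]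
  ring

lemma t3_mul {S : Subgroup (Matrix (Fin 4) (Fin 4) A)ˣ} (hS : S ≤ S3 A)
    {g h : (Matrix Ix Ix A)ˣ} (hg : g ∈ PG S) (hh : h ∈ PG S) : t3 (g * h) = t3 g + t3 h := by
  obtain ⟨a1, -, -, a4, -, a6, a7, -, -⟩ := t_mul_aux hS hg
  obtain ⟨b1, b2, b3, b4, b5, b6, b7, b8, b9⟩ := t_mul_aux hS hh
  unfold t3
  rw [Units.val_mul, Matrix.mul_apply, sum_Ix]
  have h1 := a1 (.v 3)
  simp only [reduceCtorEq, if_false] at h1
  simp only [h1, a4, b6, b8, zero_mul, one_mul, ite_mul, mul_one, mul_zero, Finset.sum_const_zero,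
    Finset.sum_ite_eq', Finset.mem_univ, if_true, add_zero, zero_add]
  ring

lemma t4_mul {S : Subgroup (Matrix (Fin 4) (Fin 4) A)ˣ} (hS : S ≤ S3 A)
    {g h : (Matrix Ix Ix A)ˣ} (hg : g ∈ PG S) (hh : h ∈ PG S) :
    t4 (g * h) = t4 g + t4 h + t3 g * t1 h := by
  obtain ⟨a1, -, -, a4, -, a6, a7, -, -⟩ := t_mul_aux hS hg
  obtain ⟨b1, b2, b3, b4, b5, b6, b7, b8, b9⟩ := t_mul_aux hS hh
  unfold t4 t3 t1
  rw [Units.val_mul, Matrix.mul_apply, sum_Ix]
  have h1 := a1 (.v 3)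
  simp only [reduceCtorEq, if_false] at h1
  simp only [h1, a4, b3, zero_mul, one_mul, ite_mul, mul_ite, mul_one, mul_zero,
    Finset.sum_const_zero, Finset.sum_ite_eq', Finset.mem_univ, if_true, zero_add]
  ring

lemma t_one : t1 (1 : (Matrix Ix Ix A)ˣ) = 0 ∧ t2 (1 : (Matrix Ix Ix A)ˣ) = 0 ∧
    t3 (1 : (Matrix Ix Ix A)ˣ) = 0 ∧ t4 (1 : (Matrix Ix Ix A)ˣ) = 0 := by
  simp [t1, t2, t3, t4, Matrix.one_apply]

lemma t_inv {S : Subgroup (Matrix (Fin 4) (Fin 4) A)ˣ} (hS : S ≤ S3 A)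
    {g : (Matrix Ix Ix A)ˣ} (hg : g ∈ PG S) :
    t1 g⁻¹ = -t1 g ∧ t2 g⁻¹ = -t2 g ∧ t3 g⁻¹ = -t3 g ∧ t4 g⁻¹ = -t4 g + t3 g * t1 g := by
  have hi := (PG S).inv_mem hg
  have e1 := t1_mul hS hg hi
  have e2 := t2_mul hS hg hi
  have e3 := t3_mul hS hg hi
  have e4 := t4_mul hS hg hi
  obtain ⟨o1, o2, o3, o4⟩ := t_one (A := A)
  rw [mul_inv_cancel] at e1 e2 e3 e4
  rw [o1] at e1; rw [o2] at e2; rw [o3] at e3; rw [o4] at e4
  have f1 : t1 g⁻¹ = -t1 g := by linear_combination -e1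
  refine ⟨f1, by linear_combination -e2, by linear_combination -e3, ?_⟩
  rw [f1] at e4
  linear_combination -e4

/-- The group `K'`. -/
def KG (S : Subgroup (Matrix (Fin 4) (Fin 4) A)ˣ) (hS : S ≤ S3 A) :
    Subgroup (Matrix Ix Ix A)ˣ where
  carrier := {g | g ∈ PG S ∧ t1 g = 0 ∧ t2 g = 0 ∧ t3 g = 0 ∧ t4 g = 0}
  mul_mem' := by
    rintro g h ⟨h0, h1, h2, h3, h4⟩ ⟨k0, k1, k2, k3, k4⟩
    refine ⟨(PG S).mul_mem h0 k0, ?_, ?_, ?_, ?_⟩
    · rw [t1_mul hS h0 k0, h1, k1, add_zero]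
    · rw [t2_mul hS h0 k0, h2, k2, add_zero]
    · rw [t3_mul hS h0 k0, h3, k3, add_zero]
    · rw [t4_mul hS h0 k0, h4, k4, h3, add_zero, zero_mul, add_zero]
  one_mem' := ⟨(PG S).one_mem, t_one.1, t_one.2.1, t_one.2.2.1, t_one.2.2.2⟩
  inv_mem' := by
    rintro g ⟨h0, h1, h2, h3, h4⟩
    obtain ⟨e1, e2, e3, e4⟩ := t_inv hS h0
    exact ⟨(PG S).inv_mem h0, by rw [e1, h1, neg_zero], by rw [e2, h2, neg_zero],
      by rw [e3, h3, neg_zero], by rw [e4, h4, h3]; simp⟩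

/-- The group `G` of pairs with the same coordinates `t₁, …, t₄`. -/
def GG (S : Subgroup (Matrix (Fin 4) (Fin 4) A)ˣ) (hS : S ≤ S3 A) :
    Subgroup ((Matrix Ix Ix A)ˣ × (Matrix Ix Ix A)ˣ) where
  carrier := {x | x.1 ∈ PG S ∧ x.2 ∈ PG S ∧ t1 x.1 = t1 x.2 ∧ t2 x.1 = t2 x.2 ∧
    t3 x.1 = t3 x.2 ∧ t4 x.1 = t4 x.2}
  mul_mem' := by
    rintro g h ⟨g0, g0', g1, g2, g3, g4⟩ ⟨h0, h0', h1, h2, h3, h4⟩
    refine ⟨(PG S).mul_mem g0 h0, (PG S).mul_mem g0' h0', ?_, ?_, ?_, ?_⟩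
    · rw [Prod.fst_mul, Prod.snd_mul, t1_mul hS g0 h0, t1_mul hS g0' h0', g1, h1]
    · rw [Prod.fst_mul, Prod.snd_mul, t2_mul hS g0 h0, t2_mul hS g0' h0', g2, h2]
    · rw [Prod.fst_mul, Prod.snd_mul, t3_mul hS g0 h0, t3_mul hS g0' h0', g3, h3]
    · rw [Prod.fst_mul, Prod.snd_mul, t4_mul hS g0 h0, t4_mul hS g0' h0', g4, h4, g3, h1]
  one_mem' := ⟨(PG S).one_mem, (PG S).one_mem, rfl, rfl, rfl, rfl⟩
  inv_mem' := by
    rintro g ⟨g0, g0', g1, g2, g3, g4⟩
    obtain ⟨e1, e2, e3, e4⟩ := t_inv hS g0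
    obtain ⟨f1, f2, f3, f4⟩ := t_inv hS g0'
    exact ⟨(PG S).inv_mem g0, (PG S).inv_mem g0', by rw [Prod.fst_inv, Prod.snd_inv, e1, f1, g1],
      by rw [Prod.fst_inv, Prod.snd_inv, e2, f2, g2],
      by rw [Prod.fst_inv, Prod.snd_inv, e3, f3, g3],
      by rw [Prod.fst_inv, Prod.snd_inv, e4, f4, g4, g3, g1]⟩

/-- The elementary element `1 + r E_{ij}`. -/
def el {n : Type} [Fintype n] [DecidableEq n] (i j : n) (h : i ≠ j) (r : A) : (Matrix n n A)ˣ where
  val := Matrix.transvection i j r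
  inv := Matrix.transvection i j (-r)
  val_inv := by
    rw [Matrix.transvection_mul_transvection_same i j h]; simp
  inv_val := by
    rw [Matrix.transvection_mul_transvection_same i j h]; simp

/-- The homomorphism `σ ↦ dg σ`. -/
def dgU : (Matrix (Fin 4) (Fin 4) A)ˣ →* (Matrix Ix Ix A)ˣ where
  toFun σ := ⟨dg σ, dg ((σ⁻¹ : (Matrix (Fin 4) (Fin 4) A)ˣ) : Matrix (Fin 4) (Fin 4) A),
    by rw [← dg_mul, ← Units.val_mul, mul_inv_cancel, Units.val_one, dg_one],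
    by rw [← dg_mul, ← Units.val_mul, inv_mul_cancel, Units.val_one, dg_one]⟩
  map_one' := by ext1; simp [dg_one]
  map_mul' σ τ := by ext1; simp [dg_mul]

/-- The elements `z(r) τ₄(d)`. -/
def zt (r d : A) : Matrix Ix Ix A := 1 + Matrix.single .o (.w 3) r + Matrix.single (.v 3) (.w 3) d

/-- The subgroup `C`. -/
def InC (x : (Matrix Ix Ix A)ˣ × (Matrix Ix Ix A)ˣ) : Prop :=
  ∃ r r' d : A, (x.1 : Matrix Ix Ix A) = zt r d ∧ (x.2 : Matrix Ix Ix A) = zt r' d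

open Classical in
/-- The character `φ`. -/
noncomputable def phi (χ : A → ℂ) (x : (Matrix Ix Ix A)ˣ × (Matrix Ix Ix A)ˣ) : ℂ :=
  if InC x then χ ((x.1 : Matrix Ix Ix A) .o (.w 3) - (x.2 : Matrix Ix Ix A) .o (.w 3)) else 0

end General

section Poly

variable (p : ℕ) [Fact p.Prime]

/-- `S` is generated by `e01(1)`, `e12(1)`, `e20(t)`. -/
noncomputable def SS : Subgroup (Matrix (Fin 4) (Fin 4) (ZMod p)[X])ˣ :=
  Subgroup.closure {el 0 1 (by decide) 1, el 1 2 (by decide) 1, el 2 0 (by decide) X}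

lemma el_mem_S3 {A : Type} [CommRing A] (i j : Fin 4) (h : i ≠ j) (hi : i ≠ 3) (hj : j ≠ 3) (r : A) :
    el i j h r ∈ S3 A := by
  refine ⟨fun k => ?_, fun k => ?_⟩
  · show Matrix.transvection i j r k 3 = _
    simp [Matrix.transvection, Matrix.single_apply, hj]
  · show Matrix.transvection i j r 3 k = _
    simp [Matrix.transvection, Matrix.single_apply, hi]

lemma SS_le : SS p ≤ S3 (ZMod p)[X] := by
  unfold SS
  rw [Subgroup.closure_le]
  rintro g hg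
  simp only [Set.mem_insert_iff, Set.mem_singleton_iff] at hg
  rcases hg with rfl | rfl | rfl
  · exact el_mem_S3 _ _ _ (by decide) (by decide) _
  · exact el_mem_S3 _ _ _ (by decide) (by decide) _
  · exact el_mem_S3 _ _ _ (by decide) (by decide) _

/-- The group `K'` over `F_p[t]`. -/
noncomputable abbrev KK : Subgroup (Matrix Ix Ix (ZMod p)[X])ˣ := KG (SS p) (SS_le p)

/-- The group `G` over `F_p[t]`. -/
noncomputable abbrev GP : Subgroup ((Matrix Ix Ix (ZMod p)[X])ˣ × (Matrix Ix Ix (ZMod p)[X])ˣ) :=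
  GG (SS p) (SS_le p)

open Classical in
/-- The additive functional `f ↦ ∑_k f_{2^k}`. -/
noncomputable def lam (f : (ZMod p)[X]) : ZMod p := f.sum fun i c => if ∃ k, i = 2 ^ k then c else 0

/-- The additive character of `F_p[t]`. -/
noncomputable def chi (f : (ZMod p)[X]) : ℂ := ZMod.stdAddChar (lam p f)

/-- The eight generators of `K'`. -/
noncomputable def gen : Fin 8 → (Matrix Ix Ix (ZMod p)[X])ˣ :=
  ![dgU (el 0 1 (by decide) 1), dgU (el 1 2 (by decide) 1), dgU (el 2 0 (by decide) X),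
    el .o (.v 0) (by decide) 1, el (.v 2) .q (by decide) 1, el (.v 2) (.w 3) (by decide) 1,
    el .q (.w 0) (by decide) 1, el (.v 3) (.w 0) (by decide) 1]

/-- The Heisenberg pairs: neighbours of `A = 0, B = 1, C = 2, f = 3, x = 4, y = 5, m = 6,
m_a = 7`. -/
def nb : Fin 8 → Finset (Fin 8) :=
  ![{1, 2, 3, 6, 7}, {0, 2, 4, 5}, {0, 1}, {0}, {1, 6}, {1}, {0, 4}, {0}]

end Poly

/-- Data for the property (T) type spectral gap: a group generated by elements `x i` of prime order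
`p > 25`, each pair of which commutes or has a commutator commuting with both, each `x i` being in
at most five pairs of the second kind. -/
structure TData (K : Type) [Group K] {ι : Type} [Fintype ι] [DecidableEq ι] (p : ℕ) (x : ι → K)
    (N : ι → Finset ι) : Prop where
  prime : p.Prime
  lt : 25 < p
  pow : ∀ i, x i ^ p = 1
  gen : Subgroup.closure (Set.range x) = ⊤
  card : ∀ i, (N i).card ≤ 5
  irr : ∀ i, i ∉ N i
  symm : ∀ i j, j ∈ N i → i ∈ N j
  comm : ∀ i j, j ∉ N i → Commute (x i) (x j)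
  heis : ∀ i j, j ∈ N i → Commute (x i * x j * (x i)⁻¹ * (x j)⁻¹) (x i) ∧
    Commute (x i * x j * (x i)⁻¹ * (x j)⁻¹) (x j)

end Helper53.NG
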