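import Pool.Agent.Helper53.NG.StB
import Pool.Agent.Helper61.IE.PLift

/-!
# Project NG: the irreducible constituent (assembly of section 3)
-/

namespace Helper53.NG

open Helper51.MU Helper61.IE Filter Topology
open scoped Matrix.Norms.L2Operator MatrixOrder ComplexOrder

attribute [local irreducible] Helper51.MU.instRingMUlt

namespace INT

lemma pj_expd {ι κ : ℕ → Type} [∀ n, Fintype (ι n)] [∀ n, DecidableEq (ι n)]
    [∀ n, Fintype (κ n)] [∀ n, DecidableEq (κ n)] {U : Ultrafilter ℕ} (J : Iso ι κ)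
    {e : MUlt ι U} (he : Pj e) : Pj (expd J U e) :=
  ⟨by rw [← map_star, he.1], by rw [← map_mul, he.2]⟩

lemma nrm_expd_one {ι κ : ℕ → Type} [∀ n, Fintype (ι n)] [∀ n, DecidableEq (ι n)]
    [∀ n, Fintype (κ n)] [∀ n, DecidableEq (κ n)] {U : Ultrafilter ℕ} (J : Iso ι κ) :
    Tendsto (fun n => (Fintype.card (ι n) : ℝ) / Fintype.card (κ n)) U
      (𝓝 (nrm (expd J U (1 : MUlt ι U)))) := by
  rw [← map_one (mkM U), expd_mk]
  refine (tendsto_nn (expB J 1)).congr fun n => ?_
  rw [expB_val, one_val]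
  unfold nn
  rw [hs_conj (J.iso n)]
  have : hs (1 : Matrix (ι n) (ι n) ℂ) = Fintype.card (ι n) := sum_one_sq (ι n)
  rw [this]

lemma tr_inr_le_inl {ι κ : ℕ → Type} [∀ n, Fintype (ι n)] [∀ n, DecidableEq (ι n)]
    [∀ n, Fintype (κ n)] [∀ n, DecidableEq (κ n)] {U : Ultrafilter ℕ}
    (h : ∀ᶠ n in (U : Filter ℕ), Fintype.card (κ n) ≤ Fintype.card (ι n)) :
    (tr (inrM ι (1 : MUlt κ U))).re ≤ (tr (inlM κ (1 : MUlt ι U))).re := by
  rw [← (pj_expd (JR ι κ) (Pj.one (ι := κ) (U := U))).nrm,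
    ← (pj_expd (JL ι κ) (Pj.one (ι := ι) (U := U))).nrm]
  refine le_of_tendsto_of_tendsto (nrm_expd_one (JR ι κ)) (nrm_expd_one (JL ι κ)) ?_
  filter_upwards [h] with n hn
  refine div_le_div_of_nonneg_right ?_ (by positivity)
  exact_mod_cast hn

end INT

open INT in
/-- The irreducible constituent. -/
theorem int (hT4 : T4) (hNB1 : StNB1) (hCOM : StCom) (hRK : StRK) (hPOS : POS) (hPOL : POL)
    (hIDL : IDL) (hPR1 : StPR1) (hPR2 : StPR2) (hSML : StSML) (hCMP : StCMP) (hTNS : StTNS)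
    (hCBK : CBK) (hCUT : CUT) (hXIB : StXIB) (hIMA : StIMA) (hRND : StRND) (hIMB : StIMB)
    (hIMC : StIMC) (hIMM : StIMM) (hSUP : StSUP) (hRCT : StRCT) (hRCV : StRCV) (hPAD : StPAD)
    (hDDP : StDDP) (hBXI : StBXI)
    (K I : Type) [Group K] [Fintype I] [DecidableEq I] (p : ℕ) (x : I → K) (N : I → Finset I)
    (l : ℕ → ℕ) (U : Ultrafilter ℕ) (hU : Nonprincipal U) (hT : TData K p x N) (hI : Nonempty I)
    (hc01 : 0 < cT p (Fintype.card I) ∧ cT p (Fintype.card I) ≤ 1)
    (u : K →* MUlt (fun n => Fin (l n)) U) (hu : ∀ k, star (u k) * u k = 1)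
    (hD : Prime (Cmt fun k => u k)) (hl : ∀ᶠ n in (U : Filter ℕ), 0 < l n) :
    ∃ a b c V, Itw u a b c V ∧
      ∀ y ∈ Cmt (fun k => c k), ∃ t : ℂ, y = t • (1 : MUlt (fun n => Fin (a n)) U) := by
  classical
  obtain ⟨π, y, h1, h2, h3, -⟩ := pLift K (fun g => tr (u g)) l U u hu (fun _ => rfl)
  have hL : Lft u π y := ⟨h1, h2, h3⟩
  obtain ⟨hc0, hc1⟩ := hc01
  have hp : 25 < p := hT.lt
  have hp' : (25 : ℝ) < p := by exact_mod_cast hp
  set ε : ℝ := cT p (Fintype.card I) / (400 * (p : ℝ) ^ 2) with hε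
  have hε0 : 0 < ε := by positivity
  have hε1 : ε ≤ 1 / 2 := by
    rw [hε, div_le_iff₀ (by positivity)]
    nlinarith
  set b : ℕ → ℕ := fun n => Nat.findGreatest (fun b => Xi (fun i => π n (x i)) ε b) (2 * l n)
    with hb
  have hbX : ∀ᶠ n in (U : Filter ℕ), Xi (fun i => π n (x i)) ε (b n) ∧
      ∀ M, Xi (fun i => π n (x i)) ε M → M ≤ b n := by
    filter_upwards [hl] with n hn
    have hX := hXIB (Fin (l n)) I (fun i => π n (x i)) ε hε0.le hε1 (by simpa using hn)
    refine ⟨?_, fun M hM => ?_⟩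
    · exact Nat.findGreatest_spec (P := fun b => Xi (fun i => π n (x i)) ε b)
        (by omega : 1 ≤ 2 * l n) hX.1
    · have := hX.2 M hM
      rw [Fintype.card_fin] at this
      exact Nat.le_findGreatest this hM
  obtain ⟨r, c, V, hV, hr4⟩ := hIMM hIMA hIMB hIMC hRND hRK hT4 K I p x N l U hU hT hI u π y hL b ε
    hε0 le_rfl (by filter_upwards [hl, hbX] with n a1 a2; exact ⟨a1, a2.1⟩)
  obtain ⟨z, hz, hzp, hz0, hzpr, hzs⟩ := hSUP hIDL hCBK K I p x N l U hU hT hI u hu hD r b c V hV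
  have hVNc : IsVN (Cmt fun k => c k) := isVN_cmt_hom c hV.unit
  by_cases hA : ∃ e ∈ Cmt (fun k => c k), Pj e ∧ e ≠ 0 ∧ e * z = e ∧
      ∀ y ∈ Cmt (fun k => c k), e * y * e = y → ∃ t : ℂ, y = t • e
  · -- Case A
    obtain ⟨e, heC, hep, he0, hez, hmin⟩ := hA
    obtain ⟨w, hwC, hw⟩ := hzs e heC hez he0
    obtain ⟨a, J, c₁, hJ1, hJc, hc₁, -, ha0, hcmp, hJD, -⟩ :=
      hRCT hCUT K (fun n => Fin (r n)) U c hV.unit e heC hep he0
    obtain ⟨V₁, hV₁⟩ := hRCV K l U u hu hl r b c V hV e heC hep w hwC hw a J c₁ hJ1 hJc hc₁ ha0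
      hcmp
    refine ⟨a, b, c₁, V₁, hV₁, fun y hy => ?_⟩
    obtain ⟨t, ht⟩ := hmin (expd J U y) (hJD y hy) (by
      rw [← hJ1, ← map_mul, ← map_mul, one_mul, mul_one])
    refine ⟨t, expd_injective J hcmp ?_⟩
    rw [ht, map_smul, hJ1]
  · -- Case B
    exfalso
    push Not at hA
    obtain ⟨e, heC, hep, he0, hze, hetr⟩ := hSML hPOS hPOL (fun n => Fin (r n)) U hU
      (Cmt fun k => c k) hVNc z hz.1 hzp hz0 (by
        intro e heC hep he0 hze
        have hez : e * z = e := by rw [← hz.2 e heC]; exact hze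
        obtain ⟨y, h1, h2, h3⟩ := hA e heC hep he0 hez
        exact ⟨y, h1, h2, h3⟩) (ε / 200) (by positivity)
    have hez : e * z = e := by rw [← hz.2 e heC]; exact hze
    obtain ⟨w, hwC, hw⟩ := hzs e heC hez he0
    obtain ⟨a, J, c₁, hJ1, hJc, hc₁, har, ha0, hcmp, hJD, hJE⟩ :=
      hRCT hCUT K (fun n => Fin (r n)) U c hV.unit e heC hep he0
    obtain ⟨V₁, hV₁⟩ := hRCV K l U u hu hl r b c V hV e heC hep w hwC hw a J c₁ hJ1 hJc hc₁ ha0
      hcmp
    -- sizes
    have hsm : ∀ᶠ n in (U : Filter ℕ), (a n : ℝ) * b n ≤ ε / 25 * l n := by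
      have e1 : ∀ᶠ n in (U : Filter ℕ), (a n : ℝ) / Fintype.card (Fin (r n)) < ε / 100 := by
        refine har.eventually_lt_const ?_
        linarith
      filter_upwards [e1, hr4, hV.posa] with n a1 a2 a3
      rw [Fintype.card_fin, div_lt_iff₀ (by exact_mod_cast a3)] at a1
      have a4 : (0 : ℝ) ≤ b n := by positivity
      nlinarith
    set M : ℕ → ℕ := fun n => l n / a n with hM
    have hMa : ∀ᶠ n in (U : Filter ℕ), M n * a n ≤ l n :=
      Filter.Eventually.of_forall fun n => Nat.div_mul_le_self _ _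
    have hbM : ∀ᶠ n in (U : Filter ℕ), b n ≤ M n := by
      filter_upwards [hsm, ha0, hl] with n a1 a2 a3
      rw [hM, Nat.le_div_iff_mul_le a2]
      have a4 : (a n : ℝ) * b n ≤ l n := by
        have : (0 : ℝ) ≤ l n := by positivity
        nlinarith
      have a5 : a n * b n ≤ l n := by exact_mod_cast a4
      linarith [mul_comm (a n) (b n)]
    obtain ⟨V₂, hV₂⟩ := hPAD K l U u hl a b c₁ V₁ hV₁ M hbM hMa
    -- the centre of the commutant of c₁
    have hne : ∀ᶠ n in (U : Filter ℕ), Nonempty (Fin (a n)) := by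
      filter_upwards [ha0] with n hn
      exact ⟨⟨0, hn⟩⟩
    have hVN1 : IsVN (Cmt fun k => c₁ k) := isVN_cmt_hom c₁ hc₁
    have hinj := expd_injective J hcmp
    have hYe : ∀ y : MUlt (fun n => Fin (a n)) U, expd J U y * e = expd J U y := fun y => by
      rw [← hJ1, ← map_mul, mul_one]
    have hYe' : ∀ y : MUlt (fun n => Fin (a n)) U, e * expd J U y = expd J U y := fun y => by
      rw [← hJ1, ← map_mul, one_mul]
    have hYz : ∀ y : MUlt (fun n => Fin (a n)) U, expd J U y * z = expd J U y := fun y => by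
      calc expd J U y * z = expd J U y * (e * z) := by rw [← mul_assoc, hYe]
        _ = expd J U y := by rw [hez, hYe]
    have hpr1 : Prime (Cmt fun k => c₁ k) := by
      intro y₁ hy₁ y₂ hy₂ h0
      have hd : ∀ d ∈ Cmt (fun k => c k), expd J U y₁ * d * expd J U y₂ = 0 := by
        intro d hd
        have hede : e * (e * d * e) * e = e * d * e := by
          calc e * (e * d * e) * e = (e * e) * d * (e * e) := by simp only [mul_assoc]
            _ = _ := by rw [hep.2]
        obtain ⟨d₁, hd₁, hd₁'⟩ := hJE (e * d * e) (hVNc.mul _ (hVNc.mul _ heC _ hd) _ heC) hede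
        calc expd J U y₁ * d * expd J U y₂ = expd J U y₁ * (e * d * e) * expd J U y₂ := by
              conv_lhs => rw [← hYe y₁, ← hYe' y₂]
              simp only [mul_assoc]
          _ = expd J U (y₁ * d₁ * y₂) := by rw [← hd₁', map_mul, map_mul]
          _ = 0 := by rw [h0 d₁ hd₁, map_zero]
      rcases hzpr _ (hJD y₁ hy₁) _ (hJD y₂ hy₂) (hYz y₁) (hYz y₂) hd with h | h
      · left; apply hinj; rw [h, map_zero]
      · right; apply hinj; rw [h, map_zero]
    have hcen := hPR2 hPOS (fun n => Fin (a n)) U hne (Cmt fun k => c₁ k) hVN1 hpr1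
    obtain ⟨hDD, hDDp⟩ := hDDP hIDL hPOS hPR1 hPR2 hTNS K l U hU hl u hu hD a M c₁ V₂ hV₂ hcen
    set P := inlM (fun n => Fin (M n) × Fin (a n)) (1 : MUlt (fun n => Fin (l n)) U) with hP
    set Q := inrM (fun n => Fin (l n)) (1 : MUlt (fun n => Fin (M n) × Fin (a n)) U) with hQ
    have hPj : Pj P := pj_expd _ Pj.one
    have hQj : Pj Q := pj_expd _ Pj.one
    have hPl : ∀ w : MUlt (fun n => Fin (l n)) U, P * inlM _ w = inlM _ w := fun w => by
      rw [hP, ← map_mul, one_mul]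
    have hPr : ∀ w : MUlt (fun n => Fin (l n)) U, inlM _ w * P = inlM _ w := fun w => by
      rw [hP, ← map_mul, mul_one]
    have hQl : ∀ w : MUlt (fun n => Fin (M n) × Fin (a n)) U, Q * inrM _ w = inrM _ w := fun w => by
      rw [hQ, ← map_mul, one_mul]
    have hQr : ∀ w : MUlt (fun n => Fin (M n) × Fin (a n)) U, inrM _ w * Q = inrM _ w := fun w => by
      rw [hQ, ← map_mul, mul_one]
    have hPD : P ∈ Cmt fun k => inlM (fun n => Fin (M n) × Fin (a n)) (u k) +
        inrM (fun n => Fin (l n)) (amp M (c₁ k)) := by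
      intro k
      show P * (_ + _) = (_ + _) * P
      rw [mul_add, add_mul, hPl, hPr, hP, inl_mul_inr, inr_mul_inl]
    have hQD : Q ∈ Cmt fun k => inlM (fun n => Fin (M n) × Fin (a n)) (u k) +
        inrM (fun n => Fin (l n)) (amp M (c₁ k)) := by
      intro k
      show Q * (_ + _) = (_ + _) * Q
      rw [mul_add, add_mul, hQl, hQr, hQ, inl_mul_inr, inr_mul_inl]
    have htr : (tr Q).re ≤ (tr P).re := by
      refine tr_inr_le_inl ?_
      filter_upwards [hMa] with n hn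
      simpa using hn
    obtain ⟨W, hWD, hWW, hPW⟩ := hCMP hNB1 hCOM hPOL _ U hU _ hDD hDDp P hPD Q hQD hPj hQj htr
    have hWQ : W * Q = W := by
      have e1 : nrm (W - W * Q) = 0 := by
        unfold nrm
        have e2 : star (W - W * Q) * (W - W * Q) = 0 := by
          rw [star_sub, star_mul, hQj.1, sub_mul, mul_sub, mul_sub, ← mul_assoc (star W) W Q, hWW,
            mul_assoc Q (star W) W, hWW, mul_assoc Q (star W) (W * Q), ← mul_assoc (star W) W Q,
            hWW, hQj.2, hQj.2, sub_self]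
        rw [e2, tr_zero, Complex.zero_re]
      exact (sub_eq_zero.1 (nrm_eq_zero.1 e1)).symm
    have hWk : ∀ k, inlM (fun n => Fin (M n) × Fin (a n)) (u k) * W =
        W * inrM (fun n => Fin (l n)) (amp M (c₁ k)) := by
      intro k
      have e1 : W * (inlM (fun n => Fin (M n) × Fin (a n)) (u k) +
          inrM (fun n => Fin (l n)) (amp M (c₁ k))) =
        (inlM (fun n => Fin (M n) × Fin (a n)) (u k) +
          inrM (fun n => Fin (l n)) (amp M (c₁ k))) * W := hWD k
      have e2 : W * inlM (fun n => Fin (M n) × Fin (a n)) (u k) = 0 := by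
        rw [← hWQ, mul_assoc, hQ, inr_mul_inl, mul_zero]
      have e3 : inrM (fun n => Fin (l n)) (amp M (c₁ k)) * W = 0 := by
        rw [← hPW, ← mul_assoc, hP, inr_mul_inl, zero_mul]
      rw [mul_add, add_mul, e2, e3, zero_add, add_zero] at e1
      exact e1.symm
    have hfin : ∀ᶠ n in (U : Filter ℕ), 0 < M n ∧ 0 < a n ∧
        (1 - ε / 2) * (l n : ℝ) ≤ M n * a n ∧ M n * a n ≤ l n ∧ b n < M n := by
      filter_upwards [hsm, ha0, hl, hMa, hV.posb, hbM] with n a1 a2 a3 a4 a5 a6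
      have b1 : l n < (M n + 1) * a n := by
        rw [hM]
        have := Nat.lt_mul_div_succ (l n) a2
        rw [mul_comm]
        exact this
      have b2 : (l n : ℝ) < (M n + 1) * a n := by exact_mod_cast b1
      have b3 : (0 : ℝ) < a n := by exact_mod_cast a2
      have b4 : (1 : ℝ) ≤ b n := by exact_mod_cast a5
      have b5 : (0 : ℝ) < l n := by exact_mod_cast a3
      have b6 : (a n : ℝ) ≤ ε / 25 * l n := by nlinarith
      refine ⟨by omega, a2, by nlinarith, a4, ?_⟩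
      have b7 : (b n : ℝ) * a n < M n * a n := by nlinarith
      have b8 : (b n : ℝ) < M n := lt_of_mul_lt_mul_right b7 b3.le
      exact_mod_cast b8
    have hX := hBXI hNB1 K I x l U u π y hL hl a M c₁ hc₁ W hWW hPW hWk ε hε0
      (hε1.trans (by norm_num)) (by
        filter_upwards [hfin] with n h
        exact ⟨h.1, h.2.1, h.2.2.1, h.2.2.2.1⟩)
    obtain ⟨n, ⟨-, hn1⟩, hn2, hn3⟩ := (hbX.and (hX.and hfin)).exists
    exact absurd (hn1 (M n) hn2) (by omega)

end Helper53.NG
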