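import Pool.Agent.Helper53.NG.StB

/-!
# Project NG, module BXI
-/

set_option linter.unusedSectionVars false

namespace Helper53.NG

open Helper51.MU Helper61.IE Filter Topology
open scoped Matrix.Norms.L2Operator MatrixOrder ComplexOrder

attribute [local irreducible] Helper51.MU.instRingMUlt

namespace BXI

/-! ## rectangular matrices -/

section rect

variable {α β γ : Type} [Fintype α] [DecidableEq α] [Fintype β] [DecidableEq β] [Fintype γ]
  [DecidableEq γ]

/-- the square of the Hilbert-Schmidt norm -/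
noncomputable def hr (A : Matrix α β ℂ) : ℝ := ∑ i, ∑ j, ‖A i j‖ ^ 2

lemma hr_nonneg (A : Matrix α β ℂ) : 0 ≤ hr A :=
  Finset.sum_nonneg fun _ _ => Finset.sum_nonneg fun _ _ => by positivity

lemma hs_eq_hr (A : Matrix α α ℂ) : hs A = hr A := rfl

lemma hr_ct (A : Matrix α β ℂ) : hr A.conjTranspose = hr A := by
  unfold hr
  simp only [Matrix.conjTranspose_apply, norm_star]
  exact Finset.sum_comm

lemma hr_add_le (A B : Matrix α β ℂ) : hr (A + B) ≤ 2 * hr A + 2 * hr B := by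
  have h : ∀ a b : ℂ, ‖a + b‖ ^ 2 ≤ 2 * ‖a‖ ^ 2 + 2 * ‖b‖ ^ 2 := by
    intro a b
    have := norm_add_le a b
    nlinarith [norm_nonneg (a + b), norm_nonneg a, norm_nonneg b, sq_nonneg (‖a‖ - ‖b‖)]
  simp only [hr, Finset.mul_sum, ← Finset.sum_add_distrib]
  exact Finset.sum_le_sum fun i _ => Finset.sum_le_sum fun j _ => by simpa using h _ _

lemma hr_neg (A : Matrix α β ℂ) : hr (-A) = hr A := by simp [hr]

lemma hr_sub_le (A B : Matrix α β ℂ) : hr (A - B) ≤ 2 * hr A + 2 * hr B := by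
  have := hr_add_le A (-B)
  rwa [hr_neg, ← sub_eq_add_neg] at this

lemma hr_mul_left (x : Matrix α β ℂ) (y : Matrix β γ ℂ) : hr (x * y) ≤ ‖x‖ ^ 2 * hr y := by
  have key : ∀ j, ∑ i, ‖(x * y) i j‖ ^ 2 ≤ ‖x‖ ^ 2 * ∑ i, ‖y i j‖ ^ 2 := by
    intro j
    have h := Matrix.l2_opNorm_mulVec x (WithLp.toLp 2 (fun i => y i j))
    have h2 := mul_self_le_mul_self (norm_nonneg _) h
    have e1 : ‖(EuclideanSpace.equiv α ℂ).symm (x.mulVec (WithLp.toLp 2 (fun i => y i j)))‖
        * ‖(EuclideanSpace.equiv α ℂ).symm (x.mulVec (WithLp.toLp 2 (fun i => y i j)))‖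
        = ∑ i, ‖(x * y) i j‖ ^ 2 := by
      rw [← sq, EuclideanSpace.norm_sq_eq]
      rfl
    have e2 : ‖(WithLp.toLp 2 (fun i => y i j) : EuclideanSpace ℂ β)‖
        * ‖(WithLp.toLp 2 (fun i => y i j) : EuclideanSpace ℂ β)‖ = ∑ i, ‖y i j‖ ^ 2 := by
      rw [← sq, EuclideanSpace.norm_sq_eq]
    rw [e1] at h2
    calc _ ≤ _ := h2
      _ = ‖x‖ ^ 2 * (‖(WithLp.toLp 2 (fun i => y i j) : EuclideanSpace ℂ β)‖
        * ‖(WithLp.toLp 2 (fun i => y i j) : EuclideanSpace ℂ β)‖) := by ring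
      _ = _ := by rw [e2]
  unfold hr
  rw [Finset.sum_comm, Finset.sum_comm (f := fun i j => ‖y i j‖ ^ 2), Finset.mul_sum]
  exact Finset.sum_le_sum fun j _ => key j

lemma hr_mul_left_le {x : Matrix α β ℂ} (hx : ‖x‖ ≤ 1) (y : Matrix β γ ℂ) :
    hr (x * y) ≤ hr y := by
  refine (hr_mul_left x y).trans ?_
  have h1 : ‖x‖ ^ 2 ≤ 1 := by nlinarith [norm_nonneg x]
  nlinarith [hr_nonneg y]

lemma hr_mul_right_le {y : Matrix β γ ℂ} (hy : ‖y‖ ≤ 1) (x : Matrix α β ℂ) :
    hr (x * y) ≤ hr x := by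
  rw [← hr_ct, Matrix.conjTranspose_mul, ← hr_ct x]
  refine hr_mul_left_le ?_ _
  rw [Matrix.l2_opNorm_conjTranspose]; exact hy

lemma norm_ct_le {x : Matrix α β ℂ} (hx : ‖x‖ ≤ 1) : ‖x.conjTranspose‖ ≤ 1 := by
  rw [Matrix.l2_opNorm_conjTranspose]; exact hx

end rect

/-! ## reshuffling -/

section resh

variable {α β m : Type} [Fintype α] [DecidableEq α] [Fintype β] [DecidableEq β] [Fintype m]
  [DecidableEq m]

/-- `J (i, s) r = N^{-1/2} W s (i, r)` -/
noncomputable def jj (W : Matrix α (m × β) ℂ) : Matrix (m × α) β ℂ :=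
  fun q r => (((Real.sqrt (Fintype.card m))⁻¹ : ℝ) : ℂ) * W q.2 (q.1, r)

lemma jj_sub (A B : Matrix α (m × β) ℂ) : jj A - jj B = jj (A - B) := by
  ext q r
  show (((Real.sqrt (Fintype.card m))⁻¹ : ℝ) : ℂ) * A q.2 (q.1, r) -
    (((Real.sqrt (Fintype.card m))⁻¹ : ℝ) : ℂ) * B q.2 (q.1, r) =
    (((Real.sqrt (Fintype.card m))⁻¹ : ℝ) : ℂ) * (A - B) q.2 (q.1, r)
  rw [Matrix.sub_apply]; ring

lemma inr_mul_jj (x : Matrix α α ℂ) (W : Matrix α (m × β) ℂ) : inr m x * jj W = jj (x * W) := by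
  ext q r
  show (inr m x * jj W) q r = (((Real.sqrt (Fintype.card m))⁻¹ : ℝ) : ℂ) * (x * W) q.2 (q.1, r)
  rw [Matrix.mul_apply, Matrix.mul_apply, Fintype.sum_prod_type, Finset.sum_eq_single q.1]
  · rw [Finset.mul_sum]
    refine Finset.sum_congr rfl fun s _ => ?_
    show (1 : Matrix m m ℂ) q.1 q.1 * x q.2 s *
      ((((Real.sqrt (Fintype.card m))⁻¹ : ℝ) : ℂ) * W s (q.1, r)) = _
    rw [Matrix.one_apply_eq]; ring
  · intro l _ hl
    refine Finset.sum_eq_zero fun s _ => ?_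
    rw [inr_apply, Matrix.one_apply_ne hl.symm]; simp
  · simp

lemma jj_mul (W : Matrix α (m × β) ℂ) (x : Matrix β β ℂ) : jj W * x = jj (W * inr m x) := by
  ext q r
  show (jj W * x) q r = (((Real.sqrt (Fintype.card m))⁻¹ : ℝ) : ℂ) * (W * inr m x) q.2 (q.1, r)
  rw [Matrix.mul_apply, Matrix.mul_apply, Fintype.sum_prod_type, Finset.sum_eq_single q.1]
  · rw [Finset.mul_sum]
    refine Finset.sum_congr rfl fun s _ => ?_
    show (((Real.sqrt (Fintype.card m))⁻¹ : ℝ) : ℂ) * W q.2 (q.1, s) * x s r =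
      (((Real.sqrt (Fintype.card m))⁻¹ : ℝ) : ℂ) *
        (W q.2 (q.1, s) * ((1 : Matrix m m ℂ) q.1 q.1 * x s r))
    rw [Matrix.one_apply_eq]; ring
  · intro l _ hl
    refine Finset.sum_eq_zero fun s _ => ?_
    rw [inr_apply, Matrix.one_apply_ne hl]; simp
  · simp

lemma sq_cst (h : 0 < Fintype.card m) :
    (((Real.sqrt (Fintype.card m))⁻¹ : ℝ)) ^ 2 = (Fintype.card m : ℝ)⁻¹ := by
  rw [inv_pow, Real.sq_sqrt (by positivity)]

lemma card_mul_hr_jj (h : 0 < Fintype.card m) (W : Matrix α (m × β) ℂ) :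
    (Fintype.card m : ℝ) * hr (jj W) = hr W := by
  have h0 : (Fintype.card m : ℝ) ≠ 0 := by exact_mod_cast h.ne'
  unfold hr
  have e : ∀ (q : m × α) (r : β), ‖jj W q r‖ ^ 2 =
      (Fintype.card m : ℝ)⁻¹ * ‖W q.2 (q.1, r)‖ ^ 2 := by
    intro q r
    show ‖(((Real.sqrt (Fintype.card m))⁻¹ : ℝ) : ℂ) * W q.2 (q.1, r)‖ ^ 2 = _
    rw [norm_mul, mul_pow, Complex.norm_real, Real.norm_eq_abs, sq_abs, sq_cst h]
  simp only [e, ← Finset.mul_sum]
  rw [← mul_assoc, mul_inv_cancel₀ h0, one_mul, Fintype.sum_prod_type, Finset.sum_comm]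
  refine Finset.sum_congr rfl fun s _ => ?_
  rw [Fintype.sum_prod_type]

lemma jj_ct_mul (h : 0 < Fintype.card m) (W : Matrix α (m × β) ℂ) :
    (jj W).conjTranspose * jj W = ptr (W.conjTranspose * W) := by
  ext r s
  rw [Matrix.mul_apply, Fintype.sum_prod_type]
  show _ = ntr (blk (W.conjTranspose * W) r s)
  unfold ntr
  rw [div_eq_inv_mul, Finset.mul_sum]
  refine Finset.sum_congr rfl fun i _ => ?_
  show _ = ((Fintype.card m : ℂ))⁻¹ * (W.conjTranspose * W) (i, r) (i, s)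
  rw [Matrix.mul_apply, Finset.mul_sum]
  refine Finset.sum_congr rfl fun t _ => ?_
  rw [Matrix.conjTranspose_apply, Matrix.conjTranspose_apply]
  show star ((((Real.sqrt (Fintype.card m))⁻¹ : ℝ) : ℂ) * W t (i, r)) *
    ((((Real.sqrt (Fintype.card m))⁻¹ : ℝ) : ℂ) * W t (i, s)) = _
  have e := congrArg (fun x : ℝ => (x : ℂ)) (sq_cst h)
  simp only [Complex.ofReal_pow, Complex.ofReal_inv, Complex.ofReal_natCast] at e
  rw [star_mul', RCLike.star_def, Complex.conj_ofReal, Complex.ofReal_inv]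
  linear_combination ((starRingEnd ℂ) (W t (i, r)) * W t (i, s)) * e

lemma ptr_jj (h : 0 < Fintype.card m) (W : Matrix α (m × β) ℂ) :
    ((Fintype.card m : ℝ) ^ 2) • ptr (jj W * (jj W).conjTranspose) = W * W.conjTranspose := by
  have h0 : (Fintype.card m : ℂ) ≠ 0 := by exact_mod_cast h.ne'
  ext s t
  rw [Matrix.smul_apply, Matrix.mul_apply, Fintype.sum_prod_type]
  show ((Fintype.card m : ℝ) ^ 2) • ntr (blk (jj W * (jj W).conjTranspose) s t) = _
  unfold ntr
  have e1 : ∀ i : m, blk (jj W * (jj W).conjTranspose) s t i i =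
      (Fintype.card m : ℂ)⁻¹ * ∑ r, W s (i, r) * W.conjTranspose (i, r) t := by
    intro i
    show (jj W * (jj W).conjTranspose) (i, s) (i, t) = _
    rw [Matrix.mul_apply, Finset.mul_sum]
    refine Finset.sum_congr rfl fun r _ => ?_
    rw [Matrix.conjTranspose_apply, Matrix.conjTranspose_apply]
    show (((Real.sqrt (Fintype.card m))⁻¹ : ℝ) : ℂ) * W s (i, r) *
      star ((((Real.sqrt (Fintype.card m))⁻¹ : ℝ) : ℂ) * W t (i, r)) = _
    have e := congrArg (fun x : ℝ => (x : ℂ)) (sq_cst h)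
    simp only [Complex.ofReal_pow, Complex.ofReal_inv, Complex.ofReal_natCast] at e
    rw [star_mul', RCLike.star_def, Complex.conj_ofReal, Complex.ofReal_inv]
    linear_combination (W s (i, r) * (starRingEnd ℂ) (W t (i, r))) * e
  simp only [e1]
  rw [← Finset.mul_sum, Complex.real_smul]
  push_cast
  field_simp

lemma hs_ptr_le (h : 0 < Fintype.card m) (y : Matrix (m × β) (m × β) ℂ) :
    (Fintype.card m : ℝ) * hs (ptr y) ≤ hs y := by
  have hc : (0 : ℝ) < Fintype.card m := by exact_mod_cast h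
  rw [hs_eq_blk]
  unfold hs
  rw [Finset.mul_sum]
  refine Finset.sum_le_sum fun r _ => ?_
  rw [Finset.mul_sum]
  refine Finset.sum_le_sum fun s _ => ?_
  have h1 := norm_ntr_sq_le (blk y r s)
  unfold nn at h1
  rw [le_div_iff₀ hc] at h1
  show (Fintype.card m : ℝ) * ‖ntr (blk y r s)‖ ^ 2 ≤ _
  rw [mul_comm]
  exact h1

lemma ptr_one (h : 0 < Fintype.card m) : ptr (1 : Matrix (m × β) (m × β) ℂ) = 1 := by
  have : Nonempty m := Fintype.card_pos_iff.1 h
  ext r s
  show ntr (blk (1 : Matrix (m × β) (m × β) ℂ) r s) = _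
  by_cases hrs : r = s
  · subst hrs
    rw [Matrix.one_apply_eq]
    have : blk (1 : Matrix (m × β) (m × β) ℂ) r r = 1 := by
      ext i j
      show (1 : Matrix (m × β) (m × β) ℂ) (i, r) (j, r) = _
      simp [Matrix.one_apply]
    rw [this, ntr_one]
  · rw [Matrix.one_apply_ne hrs]
    have : blk (1 : Matrix (m × β) (m × β) ℂ) r s = 0 := by
      ext i j
      show (1 : Matrix (m × β) (m × β) ℂ) (i, r) (j, s) = _
      simp [Matrix.one_apply, hrs]
    rw [this]; simp [ntr]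

lemma ptr_sub (x y : Matrix (m × β) (m × β) ℂ) : ptr (x - y) = ptr x - ptr y := by
  ext r s
  exact ntr_sub (blk x r s) (blk y r s)

lemma le_one_of {A : Matrix α α ℂ} (hA : A.conjTranspose = A) (h : ‖A‖ ≤ 1) : A ≤ 1 := by
  have h1 := le_smul_of_norm hA
  have h2 : ‖A‖ • (1 : Matrix α α ℂ) ≤ (1 : ℝ) • (1 : Matrix α α ℂ) :=
    smul_mono_left h Pr.one.nonneg
  rw [one_smul] at h2
  exact h1.trans h2

lemma norm_mul_le_one {γ : Type} [Fintype γ] [DecidableEq γ] {A : Matrix α β ℂ}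
    {B : Matrix β γ ℂ} (hA : ‖A‖ ≤ 1) (hB : ‖B‖ ≤ 1) : ‖A * B‖ ≤ 1 := by
  calc ‖A * B‖ ≤ ‖A‖ * ‖B‖ := Matrix.l2_opNorm_mul _ _
    _ ≤ 1 * 1 := by gcongr
    _ = 1 := one_mul 1

lemma norm_jj_le (h : 0 < Fintype.card m) {W : Matrix α (m × β) ℂ} (hW : ‖W‖ ≤ 1) :
    ‖jj W‖ ≤ 1 := by
  have h1 := Matrix.l2_opNorm_conjTranspose_mul_self (jj W)
  rw [jj_ct_mul h] at h1
  have h2 : ‖ptr (W.conjTranspose * W)‖ ≤ 1 :=
    (norm_ptr_le _).trans (norm_mul_le_one (norm_ct_le hW) hW)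
  rw [h1] at h2
  nlinarith [norm_nonneg (jj W)]

/-- the matrix `X` -/
noncomputable def XX (W : Matrix α (m × β) ℂ) : Matrix (m × α) (m × α) ℂ :=
  jj W * (jj W).conjTranspose

lemma XX_herm (W : Matrix α (m × β) ℂ) : (XX W).conjTranspose = XX W := by
  unfold XX
  rw [Matrix.conjTranspose_mul, Matrix.conjTranspose_conjTranspose]

lemma XX_nonneg (W : Matrix α (m × β) ℂ) : 0 ≤ XX W :=
  (Matrix.posSemidef_self_mul_conjTranspose (jj W)).nonneg

lemma XX_le_one (h : 0 < Fintype.card m) {W : Matrix α (m × β) ℂ} (hW : ‖W‖ ≤ 1) :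
    XX W ≤ 1 :=
  le_one_of (XX_herm W) (norm_mul_le_one (norm_jj_le h hW) (norm_ct_le (norm_jj_le h hW)))

lemma ptr_XX_le (h : 0 < Fintype.card m) {W : Matrix α (m × β) ℂ} (hW : ‖W‖ ≤ 1) :
    ((Fintype.card m : ℝ) ^ 2) • ptr (XX W) ≤ 1 := by
  unfold XX
  rw [ptr_jj h]
  refine le_one_of ?_ (norm_mul_le_one hW (norm_ct_le hW))
  rw [Matrix.conjTranspose_mul, Matrix.conjTranspose_conjTranspose]

lemma hs_XX (h : 0 < Fintype.card m) (W : Matrix α (m × β) ℂ) :
    hs (XX W) = hs (ptr (W.conjTranspose * W)) := by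
  rw [← jj_ct_mul h, hs_eq_rt, hs_eq_rt, XX_herm]
  unfold XX rt
  rw [Matrix.conjTranspose_mul, Matrix.conjTranspose_conjTranspose]
  congr 1
  rw [Matrix.mul_assoc, Matrix.trace_mul_comm]
  simp only [Matrix.mul_assoc]

/-- lower bound for `N hs X` -/
lemma hs_XX_low (h : 0 < Fintype.card m) (W : Matrix α (m × β) ℂ) :
    Real.sqrt (Fintype.card m * Fintype.card β) ≤
      Real.sqrt (Fintype.card m * hs (XX W)) + Real.sqrt (hs (W.conjTranspose * W - 1)) := by
  set G := ptr (W.conjTranspose * W) with hG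
  have h1 := sqrt_hs_sub_le G (G - 1)
  rw [sub_sub_cancel] at h1
  have h2 : hs (1 : Matrix β β ℂ) = Fintype.card β := sum_one_sq β
  rw [h2] at h1
  have h3 : G - 1 = ptr (W.conjTranspose * W - 1) := by
    rw [ptr_sub, ptr_one h]
  have h4 : (Fintype.card m : ℝ) * hs (G - 1) ≤ hs (W.conjTranspose * W - 1) := by
    rw [h3]; exact hs_ptr_le h _
  have hc : (0 : ℝ) ≤ Fintype.card m := by positivity
  rw [hs_XX h, ← hG, Real.sqrt_mul hc, Real.sqrt_mul hc]
  have h5 : Real.sqrt (Fintype.card m) * Real.sqrt (hs (G - 1)) ≤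
      Real.sqrt (hs (W.conjTranspose * W - 1)) := by
    rw [← Real.sqrt_mul hc]
    exact Real.sqrt_le_sqrt h4
  have h6 := mul_le_mul_of_nonneg_left h1 (Real.sqrt_nonneg (Fintype.card m : ℝ))
  linarith

/-- the commutator bound -/
lemma comm_XX (h : 0 < Fintype.card m) {W : Matrix α (m × β) ℂ} (hW : ‖W‖ ≤ 1)
    {x : Matrix α α ℂ} (hx : x.conjTranspose * x = 1) {y : Matrix β β ℂ} (hy : ‖y‖ ≤ 1) :
    (Fintype.card m : ℝ) * hs (inr m x * XX W - XX W * inr m x) ≤
      6 * hr (x * W - W * inr m y) +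
        4 * (Fintype.card m * hs (1 - y * y.conjTranspose)) := by
  have hJ := norm_jj_le h hW
  have hJc := norm_ct_le hJ
  have hxn : ‖x‖ ≤ 1 := norm_unit_le hx
  have hXn : ‖inr m x‖ ≤ 1 := (norm_inr_le x).trans hxn
  have hXc := norm_ct_le hXn
  have hXX : (inr m x).conjTranspose * inr m x = 1 := by
    rw [← Matrix.star_eq_conjTranspose, ← map_star, ← map_mul, Matrix.star_eq_conjTranspose, hx,
      map_one]
  set X := inr m x with hX
  set J := jj W with hJd
  set D := X * J - J * y with hD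
  have hDr : (Fintype.card m : ℝ) * hr D = hr (x * W - W * inr m y) := by
    rw [hD, hX, hJd, inr_mul_jj, jj_mul, jj_sub, card_mul_hr_jj h]
  -- the adjoint version
  set E := J * y.conjTranspose - X.conjTranspose * J with hE
  have e1 : E = X.conjTranspose * D * y.conjTranspose -
      X.conjTranspose * J * (1 - y * y.conjTranspose) := by
    have f1 : X.conjTranspose * D = J - X.conjTranspose * J * y := by
      rw [hD, Matrix.mul_sub, ← Matrix.mul_assoc, hXX, Matrix.one_mul, ← Matrix.mul_assoc]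
    rw [f1, Matrix.sub_mul, Matrix.mul_sub, Matrix.mul_one, hE, ← Matrix.mul_assoc]
    abel
  have hEr : hr E ≤ 2 * hr D + 2 * hs (1 - y * y.conjTranspose) := by
    rw [e1]
    refine (hr_sub_le _ _).trans ?_
    have a1 : hr (X.conjTranspose * D * y.conjTranspose) ≤ hr D :=
      (hr_mul_right_le (norm_ct_le hy) _).trans (hr_mul_left_le hXc _)
    have a2 : hr (X.conjTranspose * J * (1 - y * y.conjTranspose)) ≤
        hr (1 - y * y.conjTranspose) := hr_mul_left_le (norm_mul_le_one hXc hJ) _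
    rw [hs_eq_hr]
    linarith
  have e2 : X * XX W - XX W * X = D * J.conjTranspose + J * E.conjTranspose := by
    unfold XX
    rw [← hJd, hD, hE, Matrix.conjTranspose_sub, Matrix.conjTranspose_mul,
      Matrix.conjTranspose_mul, Matrix.conjTranspose_conjTranspose,
      Matrix.conjTranspose_conjTranspose, Matrix.sub_mul, Matrix.mul_sub]
    simp only [Matrix.mul_assoc]
    abel
  have e3 : hs (X * XX W - XX W * X) ≤ 2 * hr D + 2 * hr E := by
    rw [e2, hs_eq_hr]
    refine (hr_add_le _ _).trans ?_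
    have a1 : hr (D * J.conjTranspose) ≤ hr D := hr_mul_right_le hJc _
    have a2 : hr (J * E.conjTranspose) ≤ hr E := by
      refine (hr_mul_left_le hJ _).trans ?_
      rw [hr_ct]
    linarith
  have hc : (0 : ℝ) ≤ Fintype.card m := by positivity
  have e4 : hs (X * XX W - XX W * X) ≤ 6 * hr D + 4 * hs (1 - y * y.conjTranspose) := by
    linarith
  have e5 := mul_le_mul_of_nonneg_left e4 hc
  rw [← hDr]
  linarith

end resh

/-! ## blocks -/

section blocks

variable {α γ : Type} [Fintype α] [DecidableEq α] [Fintype γ] [DecidableEq γ]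

lemma rowsL (x : Matrix α α ℂ) :
    (Matrix.fromRows 1 0 : Matrix (α ⊕ γ) α ℂ) * x *
      (Matrix.fromRows 1 0 : Matrix (α ⊕ γ) α ℂ).conjTranspose = Matrix.fromBlocks x 0 0 0 := by
  rw [Matrix.conjTranspose_fromRows_eq_fromCols_conjTranspose, Matrix.fromRows_mul,
    Matrix.fromRows_mul_fromCols]
  simp

lemma rowsR (x : Matrix γ γ ℂ) :
    (Matrix.fromRows 0 1 : Matrix (α ⊕ γ) γ ℂ) * x *
      (Matrix.fromRows 0 1 : Matrix (α ⊕ γ) γ ℂ).conjTranspose = Matrix.fromBlocks 0 0 0 x := by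
  rw [Matrix.conjTranspose_fromRows_eq_fromCols_conjTranspose, Matrix.fromRows_mul,
    Matrix.fromRows_mul_fromCols]
  simp

lemma corner (M : Matrix (α ⊕ γ) (α ⊕ γ) ℂ) :
    Matrix.fromBlocks 1 0 0 0 * M * Matrix.fromBlocks 0 0 0 1 =
      Matrix.fromBlocks 0 M.toBlocks₁₂ 0 0 := by
  conv_lhs => rw [← Matrix.fromBlocks_toBlocks M]
  rw [Matrix.fromBlocks_multiply, Matrix.fromBlocks_multiply]
  simp

lemma toBlocks_eq (M : Matrix (α ⊕ γ) (α ⊕ γ) ℂ) :
    M.toBlocks₁₂ = (Matrix.fromRows 1 0 : Matrix (α ⊕ γ) α ℂ).conjTranspose * M *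
      (Matrix.fromRows 0 1 : Matrix (α ⊕ γ) γ ℂ) := by
  ext i j
  rw [Matrix.conjTranspose_fromRows_eq_fromCols_conjTranspose, Matrix.mul_apply,
    Fintype.sum_sum_type, Finset.sum_eq_zero, zero_add, Finset.sum_eq_single j,
    Matrix.mul_apply, Fintype.sum_sum_type, Finset.sum_eq_single i]
  · simp [Matrix.toBlocks₁₂]
  · intro b _ hb
    simp [Matrix.one_apply_ne hb.symm]
  · simp
  · intro b _ hb
    simp [Matrix.one_apply_ne hb]
  · simp
  · intro b _
    simp

lemma norm_toBlocks_le {M : Matrix (α ⊕ γ) (α ⊕ γ) ℂ} (hM : ‖M‖ ≤ 1) :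
    ‖M.toBlocks₁₂‖ ≤ 1 := by
  rw [toBlocks_eq]
  have h1 : ‖(Matrix.fromRows 1 0 : Matrix (α ⊕ γ) α ℂ)‖ ≤ 1 := norm_iso_le (by
    rw [Matrix.conjTranspose_fromRows_eq_fromCols_conjTranspose, Matrix.fromCols_mul_fromRows]
    simp)
  have h2 : ‖(Matrix.fromRows 0 1 : Matrix (α ⊕ γ) γ ℂ)‖ ≤ 1 := norm_iso_le (by
    rw [Matrix.conjTranspose_fromRows_eq_fromCols_conjTranspose, Matrix.fromCols_mul_fromRows]
    simp)
  exact norm_mul_le_one (norm_mul_le_one (norm_ct_le h1) hM) h2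

lemma blk_sub' {ρ σ : Type} (A A' : Matrix ρ ρ ℂ) (B B' : Matrix ρ σ ℂ) (C C' : Matrix σ ρ ℂ)
    (D D' : Matrix σ σ ℂ) : Matrix.fromBlocks A B C D - Matrix.fromBlocks A' B' C' D' =
      Matrix.fromBlocks (A - A') (B - B') (C - C') (D - D') := by
  ext (i | i) (j | j) <;> rfl

lemma hs_blk12 (T : Matrix α γ ℂ) : hs (Matrix.fromBlocks 0 T 0 0) = hr T := by
  unfold hs hr
  rw [Fintype.sum_sum_type]
  simp [Fintype.sum_sum_type]

lemma hs_blk22 (T : Matrix γ γ ℂ) : hs (Matrix.fromBlocks (0 : Matrix α α ℂ) 0 0 T) = hs T := by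
  unfold hs
  rw [Fintype.sum_sum_type]
  simp [Fintype.sum_sum_type]

end blocks

end BXI

open BXI

theorem pBXI : StBXI := by
  intro hNB1 K I _ _ x l U u π y hL hl a N c hc W hW1 hW2 hW3 ε hε hε1 hev
  have hPj : Pj (inrM (fun n => Fin (l n)) (1 : MUlt (fun n => Fin (N n) × Fin (a n)) U)) :=
    ⟨by rw [← map_star, star_one], by rw [← map_mul, one_mul]⟩
  have hNW : NB 1 W := hNB1 _ U W (by rw [hW1]; exact hPj)
  have hW4 : W * inrM (fun n => Fin (l n)) 1 = W := by
    have h0 : nrm (W - W * inrM (fun n => Fin (l n)) 1) = 0 := by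
      unfold nrm
      have e : star (W - W * inrM (fun n => Fin (l n)) 1) *
          (W - W * inrM (fun n => Fin (l n)) 1) = 0 := by
        rw [star_sub, star_mul, hPj.1, sub_mul, mul_sub, mul_sub, hW1]
        have e1 : star W * (W * inrM (fun n => Fin (l n)) 1) =
            inrM (fun n => Fin (l n)) 1 := by
          rw [← mul_assoc, hW1, hPj.2]
        have e2 : inrM (fun n => Fin (l n)) 1 * star W * W = inrM (fun n => Fin (l n)) 1 := by
          rw [mul_assoc, hW1, hPj.2]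
        have e3 : inrM (fun n => Fin (l n)) 1 * star W * (W * inrM (fun n => Fin (l n)) 1) =
            inrM (fun n => Fin (l n)) 1 := by
          rw [mul_assoc, e1, hPj.2]
        rw [e1, e2, e3]
        simp
      rw [e, tr_zero]; rfl
    exact (sub_eq_zero.1 (nrm_eq_zero.1 h0)).symm
  obtain ⟨Wl, hWl, hWn⟩ := hNW
  set w : ∀ n, Matrix (Fin (l n)) (Fin (N n) × Fin (a n)) ℂ := fun n => (Wl.1 n).toBlocks₁₂
    with hw
  have hwn : ∀ n, ‖w n‖ ≤ 1 := fun n => norm_toBlocks_le (hWn n)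
  set EL : BSeq (fun n => Fin (l n) ⊕ (Fin (N n) × Fin (a n))) :=
    expB (JL (fun n => Fin (l n)) (fun n => Fin (N n) × Fin (a n))) 1 with hEL
  set ER : BSeq (fun n => Fin (l n) ⊕ (Fin (N n) × Fin (a n))) :=
    expB (JR (fun n => Fin (l n)) (fun n => Fin (N n) × Fin (a n))) 1 with hER
  have hLval : ∀ (z : BSeq (fun n => Fin (l n))) n,
      (expB (JL (fun n => Fin (l n)) (fun n => Fin (N n) × Fin (a n))) z).1 n =
        Matrix.fromBlocks (z.1 n) 0 0 0 := fun z n => rowsL (z.1 n)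
  have hRval : ∀ (z : BSeq (fun n => Fin (N n) × Fin (a n))) n,
      (expB (JR (fun n => Fin (l n)) (fun n => Fin (N n) × Fin (a n))) z).1 n =
        Matrix.fromBlocks 0 0 0 (z.1 n) := fun z n => rowsR (z.1 n)
  obtain ⟨B, hB⟩ : ∃ B : BSeq (fun n => Fin (l n) ⊕ (Fin (N n) × Fin (a n))),
    B = EL * Wl * ER := ⟨_, rfl⟩
  have hBW : mkM U B = W := by
    rw [hB, map_mul, map_mul, hWl]
    have e1 : mkM U EL = inlM (fun n => Fin (N n) × Fin (a n)) (1 : MUlt _ U) := by
      rw [← map_one (mkM U), expd_mk]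
    have e2 : mkM U ER = inrM (fun n => Fin (l n)) (1 : MUlt _ U) := by
      rw [← map_one (mkM U), expd_mk]
    rw [e1, e2, hW2, hW4]
  have hBval : ∀ n, B.1 n = Matrix.fromBlocks 0 (w n) 0 0 := by
    intro n
    rw [hB, mul_val, mul_val, hEL, hER, hLval, hRval]
    exact corner (Wl.1 n)
  have hcard : ∀ n, (Fintype.card (Fin (l n) ⊕ (Fin (N n) × Fin (a n))) : ℝ) =
      l n + N n * a n := by
    intro n
    simp
  -- (L1)
  have L1 : Tendsto (fun n => hs ((w n).conjTranspose * w n - 1) / ((l n : ℝ) + N n * a n)) U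
      (𝓝 0) := by
    have h1 : mkM U (star B * B) = mkM U ER := by
      rw [map_mul, ← star_mk, hBW, hW1, hER, ← expd_mk, map_one (mkM U)]
    rw [mk_eq_mk] at h1
    refine h1.congr fun n => ?_
    rw [mul_val, star_val, hBval, hER, hRval, one_val, Matrix.fromBlocks_conjTranspose,
      Matrix.fromBlocks_multiply, blk_sub']
    unfold nn
    rw [hcard]
    simp only [Matrix.conjTranspose_zero, Matrix.mul_zero, Matrix.zero_mul, add_zero, zero_add,
      sub_zero]
    rw [hs_blk22]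
  -- lifts of c
  have hNc : ∀ k, NB 1 (c k) := fun k => hNB1 _ U (c k) (by rw [hc k]; exact Pj.one)
  choose z hz1 hz2 using hNc
  -- (L2)
  have L2 : ∀ k, Tendsto (fun n => hr (π n k * w n - w n * inr (Fin (N n)) ((z k).1 n)) /
      ((l n : ℝ) + N n * a n)) U (𝓝 0) := by
    intro k
    have h1 : mkM U (expB (JL (fun n => Fin (l n)) (fun n => Fin (N n) × Fin (a n))) (y k) * B) =
        mkM U (B * expB (JR (fun n => Fin (l n)) (fun n => Fin (N n) × Fin (a n)))
          (jb (fun n => Fin (N n)) (z k))) := by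
      rw [map_mul, map_mul, hBW, ← expd_mk, ← expd_mk, hL.cls, ← jm_mk, hz1]
      exact hW3 k
    rw [mk_eq_mk] at h1
    refine h1.congr fun n => ?_
    rw [mul_val, mul_val, hBval, hLval, hRval, hL.val, jb_val, Matrix.fromBlocks_multiply,
      Matrix.fromBlocks_multiply, blk_sub']
    unfold nn
    rw [hcard]
    simp only [Matrix.mul_zero, Matrix.zero_mul, add_zero, zero_add, sub_zero]
    rw [hs_blk12]
  -- (L3)
  have L3 : ∀ k, Tendsto (fun n => nn (1 - (z k).1 n * ((z k).1 n).conjTranspose)) U (𝓝 0) := by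
    intro k
    have h1 : mkM U (1 : BSeq (fun n => Fin (a n))) = mkM U (z k * star (z k)) := by
      rw [map_mul, ← star_mk, hz1, mul_star_of_unit (hc k), map_one]
    rw [mk_eq_mk] at h1
    exact h1
  -- constants
  set η₁ : ℝ := (Real.sqrt (1 - ε / 2) - Real.sqrt (1 - ε)) ^ 2 / 2 with hη₁
  have hsq : Real.sqrt (1 - ε) < Real.sqrt (1 - ε / 2) :=
    Real.sqrt_lt_sqrt (by linarith) (by linarith)
  have hη₁0 : 0 < η₁ := by
    have : 0 < Real.sqrt (1 - ε / 2) - Real.sqrt (1 - ε) := by linarith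
    positivity
  set η : ℝ := ε / (16 * (Fintype.card I + 1)) with hη
  have hη0 : 0 < η := by positivity
  have E1 := (tendsto_order.1 L1).2 η₁ hη₁0
  have E2 : ∀ᶠ n in (U : Filter ℕ), ∀ i : I,
      hr (π n (x i) * w n - w n * inr (Fin (N n)) ((z (x i)).1 n)) /
      ((l n : ℝ) + N n * a n) < η := by
    rw [Filter.eventually_all]
    exact fun i => (tendsto_order.1 (L2 (x i))).2 η hη0
  have E3 : ∀ᶠ n in (U : Filter ℕ), ∀ i : I,
      nn (1 - (z (x i)).1 n * ((z (x i)).1 n).conjTranspose) < η := by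
    rw [Filter.eventually_all]
    exact fun i => (tendsto_order.1 (L3 (x i))).2 η hη0
  filter_upwards [hl, hev, E1, E2, E3] with n h0 h1 h2 h3 h4
  obtain ⟨hN, ha, hlow, hup⟩ := h1
  have hN' : 0 < Fintype.card (Fin (N n)) := by simpa using hN
  have hl' : (0 : ℝ) < l n := by exact_mod_cast h0
  have hup' : (N n : ℝ) * a n ≤ l n := by exact_mod_cast hup
  have hNa : (0 : ℝ) < (N n : ℝ) * a n := by positivity
  have hden : (0 : ℝ) < (l n : ℝ) + N n * a n := by positivity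
  refine ⟨hN, XX (w n), XX_nonneg _, XX_le_one hN' (hwn n), ?_, ?_, ?_⟩
  · have := ptr_XX_le hN' (hwn n)
    rwa [Fintype.card_fin] at this
  · rw [Fintype.card_fin]
    have k1 := hs_XX_low hN' (w n)
    rw [Fintype.card_fin, Fintype.card_fin] at k1
    have k2 : hs ((w n).conjTranspose * w n - 1) ≤ η₁ * (2 * l n) := by
      rw [div_lt_iff₀ hden] at h2
      nlinarith
    have k3 : Real.sqrt (hs ((w n).conjTranspose * w n - 1)) ≤
        (Real.sqrt (1 - ε / 2) - Real.sqrt (1 - ε)) * Real.sqrt (l n) := by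
      have : 0 ≤ Real.sqrt (1 - ε / 2) - Real.sqrt (1 - ε) := by linarith
      rw [Real.sqrt_le_left (by positivity)]
      refine k2.trans (le_of_eq ?_)
      rw [mul_pow, Real.sq_sqrt hl'.le, hη₁]
      ring
    have k4 : Real.sqrt (1 - ε / 2) * Real.sqrt (l n) ≤ Real.sqrt (N n * a n) := by
      rw [← Real.sqrt_mul (by linarith)]
      exact Real.sqrt_le_sqrt hlow
    have k5 : Real.sqrt ((1 - ε) * l n) ≤ Real.sqrt (N n * hs (XX (w n))) := by
      rw [Real.sqrt_mul (by linarith)]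
      nlinarith
    have k6 := (Real.sqrt_le_sqrt_iff (mul_nonneg (by positivity) (hs_nonneg _))).1 k5
    exact k6
  · rw [Fintype.card_fin, Finset.mul_sum]
    have k1 : ∀ i ∈ (Finset.univ : Finset I), (N n : ℝ) *
        hs (inr (Fin (N n)) (π n (x i)) * XX (w n) - XX (w n) * inr (Fin (N n)) (π n (x i))) ≤
        16 * η * l n := by
      intro i _
      have q1 := comm_XX hN' (hwn n) (hL.unit n (x i)) (hz2 (x i) n)
      rw [Fintype.card_fin] at q1
      have q2 := h3 i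
      rw [div_lt_iff₀ hden] at q2
      have q3 := h4 i
      unfold nn at q3
      have ha' : (0 : ℝ) < a n := by exact_mod_cast ha
      rw [Fintype.card_fin, div_lt_iff₀ ha'] at q3
      have hN0 : (0 : ℝ) < N n := by exact_mod_cast hN
      have q4 : (N n : ℝ) * hs (1 - (z (x i)).1 n * ((z (x i)).1 n).conjTranspose) ≤
          η * l n := by
        calc (N n : ℝ) * hs (1 - (z (x i)).1 n * ((z (x i)).1 n).conjTranspose) ≤
            N n * (η * a n) := mul_le_mul_of_nonneg_left q3.le hN0.le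
          _ = η * (N n * a n) := by ring
          _ ≤ η * l n := mul_le_mul_of_nonneg_left hup' hη0.le
      nlinarith
    refine (Finset.sum_le_sum k1).trans ?_
    rw [Finset.sum_const, Finset.card_univ, nsmul_eq_mul]
    have q5 : (Fintype.card I : ℝ) * (16 * η) ≤ ε := by
      rw [hη]
      have : (0 : ℝ) < Fintype.card I + 1 := by positivity
      rw [show (Fintype.card I : ℝ) * (16 * (ε / (16 * (Fintype.card I + 1)))) =
        ε * (Fintype.card I / (Fintype.card I + 1)) by field_simp]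
      have q6 : (Fintype.card I : ℝ) / (Fintype.card I + 1) ≤ 1 := by
        rw [div_le_one this]; linarith
      nlinarith
    nlinarith

end Helper53.NG
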