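import Pool.Agent.Helper53.NG.StT

/-!
# Project NG: the lemma CB
-/

namespace Helper53.NG.CB

open Helper51.MU Matrix
open scoped Matrix.Norms.L2Operator ComplexOrder

set_option linter.unusedSectionVars false

variable {α : Type} [Fintype α] [DecidableEq α]

/-- the real part of the trace form -/
noncomputable def ip (A B : Matrix α α ℂ) : ℝ := (Matrix.trace (Aᴴ * B)).re

lemma hs_eq_ip (A : Matrix α α ℂ) : hs A = ip A A := by
  unfold hs ip
  rw [Matrix.trace, Complex.re_sum, Finset.sum_comm]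
  refine Finset.sum_congr rfl fun j _ => ?_
  rw [Matrix.diag_apply, Matrix.mul_apply, Complex.re_sum]
  refine Finset.sum_congr rfl fun i _ => ?_
  rw [Matrix.conjTranspose_apply]
  have : star (A i j) * A i j = ((‖A i j‖ ^ 2 : ℝ) : ℂ) := by
    rw [Complex.star_def, mul_comm, Complex.mul_conj, Complex.normSq_eq_norm_sq]
  rw [this, Complex.ofReal_re]

lemma ip_add_right (A B C : Matrix α α ℂ) : ip A (B + C) = ip A B + ip A C := by
  unfold ip
  rw [mul_add, Matrix.trace_add, Complex.add_re]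

lemma ip_comm (A B : Matrix α α ℂ) : ip A B = ip B A := by
  unfold ip
  have h : Matrix.trace (Aᴴ * B) = star (Matrix.trace (Bᴴ * A)) := by
    rw [← Matrix.trace_conjTranspose, Matrix.conjTranspose_mul, Matrix.conjTranspose_conjTranspose]
  rw [h, Complex.star_def, Complex.conj_re]

lemma ip_add_left (A B C : Matrix α α ℂ) : ip (A + B) C = ip A C + ip B C := by
  rw [ip_comm, ip_add_right, ip_comm C A, ip_comm C B]

lemma hs_add (A B : Matrix α α ℂ) : hs (A + B) = hs A + 2 * ip A B + hs B := by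
  rw [hs_eq_ip, hs_eq_ip, hs_eq_ip, ip_add_left, ip_add_right, ip_add_right, ip_comm B A]
  ring

lemma ip_neg_right (A B : Matrix α α ℂ) : ip A (-B) = -ip A B := by
  unfold ip
  rw [mul_neg, Matrix.trace_neg, Complex.neg_re]

lemma hs_sub (A B : Matrix α α ℂ) : hs (A - B) = hs A - 2 * ip A B + hs B := by
  rw [sub_eq_add_neg, hs_add, ip_neg_right, hs_neg]
  ring

lemma hs_ct_mul (Z x : Matrix α α ℂ) : hs (Zᴴ * x) = ip (Z * Zᴴ) (x * xᴴ) := by
  rw [hs_eq_ip]
  unfold ip
  rw [Matrix.conjTranspose_mul, Matrix.conjTranspose_mul, Matrix.conjTranspose_conjTranspose]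
  congr 1
  have h1 : xᴴ * Z * (Zᴴ * x) = xᴴ * (Z * Zᴴ * x) := by simp only [Matrix.mul_assoc]
  have h2 : Z * Zᴴ * (x * xᴴ) = Z * Zᴴ * x * xᴴ := by simp only [Matrix.mul_assoc]
  rw [h1, h2, Matrix.trace_mul_comm]

/-- the fourth power functional -/
noncomputable def FF (Z : Matrix α α ℂ) : ℝ := hs (Zᴴ * Z)

lemma FF_avg (Z x : Matrix α α ℂ) : (FF (Z + x) + FF (Z - x)) / 2 ≤
    FF Z + FF x + 2 * ip (Zᴴ * Z) (xᴴ * x) + 4 * ip (Z * Zᴴ) (x * xᴴ) := by
  have e1 : (Z + x)ᴴ * (Z + x) = (Zᴴ * Z + xᴴ * x) + (Zᴴ * x + xᴴ * Z) := by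
    rw [Matrix.conjTranspose_add]
    noncomm_ring
  have e2 : (Z - x)ᴴ * (Z - x) = (Zᴴ * Z + xᴴ * x) - (Zᴴ * x + xᴴ * Z) := by
    rw [Matrix.conjTranspose_sub]
    noncomm_ring
  have e3 : hs (xᴴ * Z) = hs (Zᴴ * x) := by
    rw [← hs_conjTranspose, Matrix.conjTranspose_mul, Matrix.conjTranspose_conjTranspose]
  have e4 := hs_add_le (Zᴴ * x) (xᴴ * Z)
  rw [e3, hs_ct_mul] at e4
  unfold FF
  rw [e1, e2, hs_add (Zᴴ * Z + xᴴ * x), hs_sub (Zᴴ * Z + xᴴ * x), hs_add (Zᴴ * Z)]
  linarith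

lemma FF_eq (x : Matrix α α ℂ) : hs (x * xᴴ) = FF x := by
  unfold FF
  have : hs (xᴴ * x) = ip (x * xᴴ) (x * xᴴ) := hs_ct_mul x x
  rw [this, hs_eq_ip]

/-- the average over the signs -/
noncomputable def Ex (G : Matrix α α ℂ → ℝ) : List (Matrix α α ℂ) → Matrix α α ℂ → ℝ
  | [], Z => G Z
  | x :: l, Z => (Ex G l (Z + x) + Ex G l (Z - x)) / 2

lemma Ex_mono {G G' : Matrix α α ℂ → ℝ} (h : ∀ Z, G Z ≤ G' Z) (l : List (Matrix α α ℂ)) :
    ∀ Z, Ex G l Z ≤ Ex G' l Z := by
  induction l with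
  | nil => intro Z; exact h Z
  | cons x l ih =>
    intro Z
    change (Ex G l (Z + x) + Ex G l (Z - x)) / 2 ≤ (Ex G' l (Z + x) + Ex G' l (Z - x)) / 2
    linarith [ih (Z + x), ih (Z - x)]

lemma Ex_affine (G : Matrix α α ℂ → ℝ) (c M : ℝ) (l : List (Matrix α α ℂ)) :
    ∀ Z, Ex (fun Z => c * G Z + M) l Z = c * Ex G l Z + M := by
  induction l with
  | nil => intro Z; rfl
  | cons x l ih =>
    intro Z
    change (Ex (fun Z => c * G Z + M) l (Z + x) + Ex (fun Z => c * G Z + M) l (Z - x)) / 2 =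
      c * ((Ex G l (Z + x) + Ex G l (Z - x)) / 2) + M
    rw [ih, ih]
    ring

lemma Ex_quad (Φ : Matrix α α ℂ →ₗ[ℂ] Matrix α α ℂ) (l : List (Matrix α α ℂ)) :
    ∀ Z, Ex (fun Z => hs (Φ Z)) l Z = hs (Φ Z) + (l.map fun x => hs (Φ x)).sum := by
  induction l with
  | nil => intro Z; simp [Ex]
  | cons x l ih =>
    intro Z
    change (Ex (fun Z => hs (Φ Z)) l (Z + x) + Ex (fun Z => hs (Φ Z)) l (Z - x)) / 2 = _
    rw [ih, ih, map_add, map_sub, hs_add, hs_sub, List.map_cons, List.sum_cons]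
    ring

lemma Ex_FF (l : List (Matrix α α ℂ)) : ∀ Z, Ex FF l Z ≤ FF Z +
    2 * ip (Zᴴ * Z) (l.map fun x => xᴴ * x).sum + 4 * ip (Z * Zᴴ) (l.map fun x => x * xᴴ).sum +
    hs (l.map fun x => xᴴ * x).sum + 2 * hs (l.map fun x => x * xᴴ).sum := by
  induction l with
  | nil =>
    intro Z
    have h0 : ∀ A : Matrix α α ℂ, ip A 0 = 0 := by
      intro A
      unfold ip
      rw [mul_zero, Matrix.trace_zero, Complex.zero_re]
    change FF Z ≤ FF Z + 2 * ip (Zᴴ * Z) 0 + 4 * ip (Z * Zᴴ) 0 + hs (0 : Matrix α α ℂ) +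
      2 * hs (0 : Matrix α α ℂ)
    rw [h0, h0, hs_zero]
    linarith
  | cons x l ih =>
    intro Z
    rw [List.map_cons, List.sum_cons, List.map_cons, List.sum_cons]
    set S := (l.map fun x => xᴴ * x).sum with hS
    set T := (l.map fun x => x * xᴴ).sum with hT
    change (Ex FF l (Z + x) + Ex FF l (Z - x)) / 2 ≤ _
    have i1 := ih (Z + x)
    have i2 := ih (Z - x)
    have i3 := FF_avg Z x
    have e1 : ip ((Z + x)ᴴ * (Z + x)) S + ip ((Z - x)ᴴ * (Z - x)) S =
        2 * ip (Zᴴ * Z) S + 2 * ip (xᴴ * x) S := by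
      have : (Z + x)ᴴ * (Z + x) + (Z - x)ᴴ * (Z - x) =
          (Zᴴ * Z + Zᴴ * Z) + (xᴴ * x + xᴴ * x) := by
        rw [Matrix.conjTranspose_sub, Matrix.conjTranspose_add]
        noncomm_ring
      rw [← ip_add_left, this, ip_add_left, ip_add_left, ip_add_left]
      ring
    have e2 : ip ((Z + x) * (Z + x)ᴴ) T + ip ((Z - x) * (Z - x)ᴴ) T =
        2 * ip (Z * Zᴴ) T + 2 * ip (x * xᴴ) T := by
      have : (Z + x) * (Z + x)ᴴ + (Z - x) * (Z - x)ᴴ =
          (Z * Zᴴ + Z * Zᴴ) + (x * xᴴ + x * xᴴ) := by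
        rw [Matrix.conjTranspose_sub, Matrix.conjTranspose_add]
        noncomm_ring
      rw [← ip_add_left, this, ip_add_left, ip_add_left, ip_add_left]
      ring
    have e3 : hs (xᴴ * x + S) = FF x + 2 * ip (xᴴ * x) S + hs S := by
      rw [hs_add]; rfl
    have e4 : hs (x * xᴴ + T) = FF x + 2 * ip (x * xᴴ) T + hs T := by
      rw [hs_add, FF_eq]
    rw [e3, e4, ip_add_right, ip_add_right]
    have e5 : 0 ≤ FF x := hs_nonneg _
    linarith

/-- the truncation -/
lemma trunc (Z : Matrix α α ℂ) (r : ℝ) (hr : 0 < r) : ∃ W : Matrix α α ℂ,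
    ‖W‖ ^ 2 ≤ r / 4 ∧ hs (Z - W) ≤ hs (Zᴴ * Z) / (4 * r) := by
  have hP : (Zᴴ * Z).PosSemidef := Matrix.posSemidef_conjTranspose_mul_self Z
  have hH : (Zᴴ * Z).IsHermitian := hP.1
  let U : Matrix.unitaryGroup α ℂ := hH.eigenvectorUnitary
  let d : α → ℝ := hH.eigenvalues
  have hd : ∀ i, 0 ≤ d i := fun i => hP.eigenvalues_nonneg i
  have hspec : Zᴴ * Z = (U : Matrix α α ℂ) * diagonal (fun i => (d i : ℂ)) *
      (U : Matrix α α ℂ)ᴴ := by
    have h := hH.spectral_theorem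
    rw [Unitary.conjStarAlgAut_apply] at h
    exact h
  have hUU : (U : Matrix α α ℂ)ᴴ * (U : Matrix α α ℂ) = 1 := Unitary.coe_star_mul_self U
  -- products
  have hmul : ∀ f g : α → ℂ, ((U : Matrix α α ℂ) * diagonal f * (U : Matrix α α ℂ)ᴴ) *
      ((U : Matrix α α ℂ) * diagonal g * (U : Matrix α α ℂ)ᴴ) =
      (U : Matrix α α ℂ) * diagonal (fun i => f i * g i) * (U : Matrix α α ℂ)ᴴ := by
    intro f g
    calc _ = (U : Matrix α α ℂ) * diagonal f * ((U : Matrix α α ℂ)ᴴ * (U : Matrix α α ℂ)) *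
        diagonal g * (U : Matrix α α ℂ)ᴴ := by simp only [Matrix.mul_assoc]
      _ = _ := by
        rw [hUU, Matrix.mul_one, Matrix.mul_assoc (U : Matrix α α ℂ), Matrix.diagonal_mul_diagonal]
  have hct : ∀ f : α → ℝ, ((U : Matrix α α ℂ) * diagonal (fun i => (f i : ℂ)) *
      (U : Matrix α α ℂ)ᴴ)ᴴ = (U : Matrix α α ℂ) * diagonal (fun i => (f i : ℂ)) *
      (U : Matrix α α ℂ)ᴴ := by
    intro f
    rw [Matrix.conjTranspose_mul, Matrix.conjTranspose_mul, Matrix.conjTranspose_conjTranspose,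
      Matrix.diagonal_conjTranspose, Matrix.mul_assoc]
    congr 3
    ext i
    simp
  have htr : ∀ f : α → ℂ, Matrix.trace ((U : Matrix α α ℂ) * diagonal f *
      (U : Matrix α α ℂ)ᴴ) = ∑ i, f i := by
    intro f
    rw [Matrix.trace_mul_comm, ← Matrix.mul_assoc, hUU, Matrix.one_mul, Matrix.trace_diagonal]
  let g : α → ℝ := fun i => r / (r + d i)
  let R : Matrix α α ℂ := (U : Matrix α α ℂ) * diagonal (fun i => (g i : ℂ)) *
    (U : Matrix α α ℂ)ᴴ
  have hone : (1 : Matrix α α ℂ) = (U : Matrix α α ℂ) * diagonal (fun i => ((1 : ℝ) : ℂ)) *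
      (U : Matrix α α ℂ)ᴴ := by
    have : diagonal (fun _ : α => ((1 : ℝ) : ℂ)) = 1 := by simp
    rw [this, Matrix.mul_one]
    exact (Unitary.coe_mul_star_self U).symm
  refine ⟨Z * R, ?_, ?_⟩
  · have h1 : ‖Z * R‖ * ‖Z * R‖ = ‖(Z * R)ᴴ * (Z * R)‖ :=
      (Matrix.l2_opNorm_conjTranspose_mul_self (Z * R)).symm
    have h2 : (Z * R)ᴴ * (Z * R) = (U : Matrix α α ℂ) *
        diagonal (fun i => ((g i * d i * g i : ℝ) : ℂ)) * (U : Matrix α α ℂ)ᴴ := by
      have hR : Rᴴ = R := hct g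
      calc (Z * R)ᴴ * (Z * R) = Rᴴ * (Zᴴ * Z) * R := by
            rw [Matrix.conjTranspose_mul]; simp only [Matrix.mul_assoc]
        _ = _ := by
          rw [hR, hspec, hmul, hmul]
          congr 3
          ext i
          push_cast
          ring
    have h3 : ‖(U : Matrix α α ℂ) * diagonal (fun i => ((g i * d i * g i : ℝ) : ℂ)) *
        (U : Matrix α α ℂ)ᴴ‖ ≤ r / 4 := by
      have e : (U : Matrix α α ℂ)ᴴ = ((star U : Matrix.unitaryGroup α ℂ) : Matrix α α ℂ) := rfl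
      rw [e, CStarRing.norm_mul_coe_unitary, CStarRing.norm_coe_unitary_mul,
        Matrix.l2_opNorm_diagonal, pi_norm_le_iff_of_nonneg (by positivity)]
      intro i
      have hg : 0 ≤ g i := by
        have := hd i
        positivity
      rw [Complex.norm_real, Real.norm_eq_abs,
        abs_of_nonneg (mul_nonneg (mul_nonneg hg (hd i)) hg)]
      have hpos : 0 < r + d i := by linarith [hd i]
      have : g i * d i * g i = r ^ 2 * d i / (r + d i) ^ 2 := by
        change r / (r + d i) * d i * (r / (r + d i)) = _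
        field_simp
      rw [this, div_le_div_iff₀ (by positivity) (by norm_num)]
      nlinarith [sq_nonneg (r - d i), hr]
    rw [pow_two, h1, h2]
    exact h3
  · have h1 : Z - Z * R = Z * (1 - R) := by rw [Matrix.mul_sub, Matrix.mul_one]
    let e : α → ℝ := fun i => 1 - g i
    have hR1 : 1 - R = (U : Matrix α α ℂ) * diagonal (fun i => (e i : ℂ)) *
        (U : Matrix α α ℂ)ᴴ := by
      have hde : diagonal (fun i => (e i : ℂ)) =
          diagonal (fun i => ((1 : ℝ) : ℂ)) - diagonal (fun i => (g i : ℂ)) := by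
        rw [Matrix.diagonal_sub]
        congr 1
        ext i
        change ((1 - g i : ℝ) : ℂ) = _
        push_cast
        rfl
      rw [hde, Matrix.mul_sub, Matrix.sub_mul, ← hone]
    have h2 : (Z * (1 - R))ᴴ * (Z * (1 - R)) = (U : Matrix α α ℂ) *
        diagonal (fun i => ((e i * d i * e i : ℝ) : ℂ)) * (U : Matrix α α ℂ)ᴴ := by
      have hR : (1 - R)ᴴ = 1 - R := by rw [hR1]; exact hct e
      calc (Z * (1 - R))ᴴ * (Z * (1 - R)) = (1 - R)ᴴ * (Zᴴ * Z) * (1 - R) := by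
            rw [Matrix.conjTranspose_mul]; simp only [Matrix.mul_assoc]
        _ = _ := by
          rw [hR, hR1, hspec, hmul, hmul]
          congr 3
          ext i
          push_cast
          ring
    have h3 : (Zᴴ * Z)ᴴ * (Zᴴ * Z) = (U : Matrix α α ℂ) *
        diagonal (fun i => ((d i * d i : ℝ) : ℂ)) * (U : Matrix α α ℂ)ᴴ := by
      rw [hspec, hct, hmul]
      congr 3
      ext i
      push_cast
      ring
    rw [h1, hs_eq_ip, hs_eq_ip]
    unfold ip
    rw [h2, h3, htr, htr, ← Complex.ofReal_sum, ← Complex.ofReal_sum, Complex.ofReal_re,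
      Complex.ofReal_re, Finset.sum_div]
    refine Finset.sum_le_sum fun i _ => ?_
    have hpos : 0 < r + d i := by linarith [hd i]
    have : e i * d i * e i = d i ^ 3 / (r + d i) ^ 2 := by
      change (1 - r / (r + d i)) * d i * (1 - r / (r + d i)) = _
      field_simp
      ring
    rw [this, div_le_div_iff₀ (by positivity) (by positivity)]
    have h4 : 4 * r * d i ≤ (r + d i) ^ 2 := by nlinarith [sq_nonneg (r - d i)]
    have h5 : 0 ≤ d i ^ 2 := by positivity
    calc d i ^ 3 * (4 * r) = d i ^ 2 * (4 * r * d i) := by ring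
      _ ≤ d i ^ 2 * (r + d i) ^ 2 := mul_le_mul_of_nonneg_left h4 h5
      _ = d i * d i * (r + d i) ^ 2 := by ring

/-- a block -/
def blk {β : Type} (x : Matrix (β × α) (β × α) ℂ) (e : β × β) : Matrix α α ℂ :=
  Matrix.of fun s t => x (e.1, s) (e.2, t)

/-- the inclusion of a block -/
def VV (α : Type) [DecidableEq α] {β : Type} [DecidableEq β] (j : β) : Matrix (β × α) α ℂ :=
  Matrix.of fun p t => if p = (j, t) then 1 else 0

lemma norm_one_le : ‖(1 : Matrix α α ℂ)‖ ≤ 1 := by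
  rw [← Matrix.diagonal_one, Matrix.l2_opNorm_diagonal,
    pi_norm_le_iff_of_nonneg (by norm_num)]
  intro i
  simp

lemma VV_norm {β : Type} [Fintype β] [DecidableEq β] (j : β) : ‖VV α j‖ ≤ 1 := by
  have h1 : (VV α j)ᴴ * VV α j = 1 := by
    ext s t
    rw [Matrix.mul_apply]
    have : ∀ p : β × α, (VV α j)ᴴ s p * VV α j p t =
        if p = (j, t) then (if s = t then 1 else 0) else 0 := by
      intro p
      rw [Matrix.conjTranspose_apply]
      unfold VV
      rw [Matrix.of_apply, Matrix.of_apply]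
      by_cases hp : p = (j, t)
      · subst hp
        by_cases hst : s = t
        · subst hst; simp
        · rw [if_neg hst]
          have : ¬ ((j, t) = (j, s)) := by
            intro h
            exact hst (Prod.ext_iff.1 h).2.symm
          rw [if_neg this]; simp
      · rw [if_neg hp, if_neg hp, mul_zero]
    simp only [this]
    rw [Finset.sum_ite_eq' Finset.univ (j, t)]
    simp only [Finset.mem_univ, if_true]
    rw [Matrix.one_apply]
  have h2 := Matrix.l2_opNorm_conjTranspose_mul_self (VV α j)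
  rw [h1] at h2
  have h3 : ‖VV α j‖ * ‖VV α j‖ ≤ 1 := by rw [← h2]; exact norm_one_le
  nlinarith [norm_nonneg (VV α j)]

lemma blk_sum {β : Type} [Fintype β] [DecidableEq β] (x : Matrix (β × α) (β × α) ℂ)
    (hx : ‖x‖ ≤ 1) : ‖∑ e : β × β, (blk x e)ᴴ * blk x e‖ ≤ Fintype.card β := by
  have h1 : ∀ j : β, (x * VV α j)ᴴ * (x * VV α j) = ∑ i : β, (blk x (i, j))ᴴ * blk x (i, j) := by
    intro j
    have e : ∀ p t, (x * VV α j) p t = x p (j, t) := by
      intro p t
      rw [Matrix.mul_apply]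
      have : ∀ q : β × α, x p q * VV α j q t = if q = (j, t) then x p q else 0 := by
        intro q
        unfold VV
        rw [Matrix.of_apply]
        split_ifs <;> simp
      simp only [this]
      rw [Finset.sum_ite_eq' Finset.univ (j, t)]
      simp
    ext s t
    rw [Matrix.mul_apply, Matrix.sum_apply, Fintype.sum_prod_type]
    refine Finset.sum_congr rfl fun i _ => ?_
    rw [Matrix.mul_apply]
    refine Finset.sum_congr rfl fun u _ => ?_
    rw [Matrix.conjTranspose_apply, Matrix.conjTranspose_apply, e, e]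
    rfl
  have h2 : ∀ j : β, ‖∑ i : β, (blk x (i, j))ᴴ * blk x (i, j)‖ ≤ 1 := by
    intro j
    rw [← h1, Matrix.l2_opNorm_conjTranspose_mul_self]
    have h3 : ‖x * VV α j‖ ≤ 1 := by
      calc ‖x * VV α j‖ ≤ ‖x‖ * ‖VV α j‖ := Matrix.l2_opNorm_mul _ _
        _ ≤ 1 * 1 := mul_le_mul hx (VV_norm j) (norm_nonneg _) (by norm_num)
        _ = 1 := by norm_num
    nlinarith [norm_nonneg (x * VV α j)]
  rw [Fintype.sum_prod_type_right]
  calc ‖∑ j : β, ∑ i : β, (blk x (i, j))ᴴ * blk x (i, j)‖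
      ≤ ∑ j : β, ‖∑ i : β, (blk x (i, j))ᴴ * blk x (i, j)‖ := norm_sum_le _ _
    _ ≤ ∑ _j : β, (1 : ℝ) := Finset.sum_le_sum fun j _ => h2 j
    _ = Fintype.card β := by simp

lemma blk_sum_hs {β : Type} [Fintype β] [DecidableEq β] (x : Matrix (β × α) (β × α) ℂ)
    (hx : ‖x‖ ≤ 1) : hs (∑ e : β × β, (blk x e)ᴴ * blk x e) ≤
      Fintype.card α * (Fintype.card β : ℝ) ^ 2 := by
  rcases Nat.eq_zero_or_pos (Fintype.card α) with h | h
  · have : IsEmpty α := Fintype.card_eq_zero_iff.1 h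
    simp [hs]
  have hc : (0 : ℝ) < Fintype.card α := by exact_mod_cast h
  have h1 := nn_le_norm_sq (∑ e : β × β, (blk x e)ᴴ * blk x e)
  unfold nn at h1
  rw [div_le_iff₀ hc] at h1
  have h2 := blk_sum x hx
  have h3 : ‖∑ e : β × β, (blk x e)ᴴ * blk x e‖ ^ 2 ≤ (Fintype.card β : ℝ) ^ 2 := by
    gcongr
  calc _ ≤ ‖∑ e : β × β, (blk x e)ᴴ * blk x e‖ ^ 2 * Fintype.card α := h1
    _ ≤ (Fintype.card β : ℝ) ^ 2 * Fintype.card α := by gcongr
    _ = _ := by ring

lemma blk_sum_hs' {β : Type} [Fintype β] [DecidableEq β] (x : Matrix (β × α) (β × α) ℂ)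
    (hx : ‖x‖ ≤ 1) : hs (∑ e : β × β, blk x e * (blk x e)ᴴ) ≤
      Fintype.card α * (Fintype.card β : ℝ) ^ 2 := by
  have h1 := blk_sum_hs xᴴ (by rw [Matrix.l2_opNorm_conjTranspose]; exact hx)
  have h2 : ∑ e : β × β, (blk xᴴ e)ᴴ * blk xᴴ e = ∑ e : β × β, blk x e * (blk x e)ᴴ := by
    rw [Fintype.sum_prod_type_right, Fintype.sum_prod_type]
    refine Finset.sum_congr rfl fun i _ => Finset.sum_congr rfl fun j _ => ?_
    have : blk xᴴ (j, i) = (blk x (i, j))ᴴ := by
      ext s t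
      rfl
    rw [this, Matrix.conjTranspose_conjTranspose]
  rw [h2] at h1
  exact h1

/-- the pointwise bound -/
lemma pt (Φ : Matrix α α ℂ →ₗ[ℂ] Matrix α α ℂ) (κ δ : ℝ) (hα : 0 < Fintype.card α)
    (h2 : ∀ y, nn (Φ y) ≤ κ ^ 2 * nn y) (hi : ∀ y, ‖y‖ ≤ 1 → nn (Φ y) ≤ δ ^ 2)
    (r : ℝ) (hr : 0 < r) (Z : Matrix α α ℂ) :
    hs (Φ Z) ≤ κ ^ 2 / (2 * r) * FF Z + Fintype.card α * (r * δ ^ 2 / 2) := by
  have hc : (0 : ℝ) < Fintype.card α := by exact_mod_cast hα
  obtain ⟨W, hW1, hW2⟩ := trunc Z r hr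
  have e1 : hs (Φ Z) ≤ 2 * hs (Φ W) + 2 * hs (Φ (Z - W)) := by
    have : Φ Z = Φ W + Φ (Z - W) := by rw [← map_add]; congr 1; abel
    rw [this]
    exact hs_add_le _ _
  have e2 : hs (Φ (Z - W)) ≤ κ ^ 2 * hs (Z - W) := by
    have := h2 (Z - W)
    unfold nn at this
    rw [← mul_div_assoc] at this
    exact (div_le_div_iff_of_pos_right hc).1 this
  have e3 : hs (Φ W) ≤ Fintype.card α * (r / 4 * δ ^ 2) := by
    have hs0 : 0 < Real.sqrt r / 2 := by positivity
    have hW3 : ‖W‖ ≤ Real.sqrt r / 2 := by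
      apply le_of_sq_le_sq _ hs0.le
      rw [div_pow, Real.sq_sqrt hr.le]
      linarith
    let s : ℂ := ((Real.sqrt r / 2 : ℝ) : ℂ)
    have hs1 : s ≠ 0 := by
      change ((Real.sqrt r / 2 : ℝ) : ℂ) ≠ 0
      exact_mod_cast hs0.ne'
    have hns : ‖s‖ = Real.sqrt r / 2 := by
      change ‖((Real.sqrt r / 2 : ℝ) : ℂ)‖ = _
      rw [Complex.norm_real, Real.norm_eq_abs, abs_of_pos hs0]
    have hW' : ‖s⁻¹ • W‖ ≤ 1 := by
      rw [norm_smul, norm_inv, hns, inv_mul_le_iff₀ hs0, mul_one]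
      exact hW3
    have e4 := hi _ hW'
    have e5 : Φ W = s • Φ (s⁻¹ • W) := by
      rw [← map_smul, smul_smul, mul_inv_cancel₀ hs1, one_smul]
    have e6 : nn (Φ W) ≤ r / 4 * δ ^ 2 := by
      rw [e5, nn_smul, hns, div_pow, Real.sq_sqrt hr.le]
      have : r / 2 ^ 2 = r / 4 := by norm_num
      rw [this]
      exact mul_le_mul_of_nonneg_left e4 (by positivity)
    unfold nn at e6
    rw [div_le_iff₀ hc] at e6
    linarith
  have e7 : κ ^ 2 * hs (Z - W) ≤ κ ^ 2 * (FF Z / (4 * r)) :=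
    mul_le_mul_of_nonneg_left hW2 (by positivity)
  have e8 : κ ^ 2 / (2 * r) * FF Z = 2 * (κ ^ 2 * (FF Z / (4 * r))) := by
    field_simp
    ring
  rw [e8]
  linarith

end Helper53.NG.CB

namespace Helper53.NG

open Helper51.MU Matrix CB
open scoped Matrix.Norms.L2Operator

theorem pCB : StCB := by
  intro α β _ _ _ _ Φ κ δ hκ hδ h2 hi x y hx hy
  rcases Nat.eq_zero_or_pos (Fintype.card α) with hα | hα
  · have : IsEmpty α := Fintype.card_eq_zero_iff.1 hα
    have : nn y = 0 := by simp [nn, hs]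
    rw [this]
    positivity
  rcases Nat.eq_zero_or_pos (Fintype.card β) with hβ | hβ
  · have : IsEmpty β := Fintype.card_eq_zero_iff.1 hβ
    have : nn y = 0 := by simp [nn, hs]
    rw [this]
    positivity
  have hca : (0 : ℝ) < Fintype.card α := by exact_mod_cast hα
  have hcb : (0 : ℝ) < Fintype.card β := by exact_mod_cast hβ
  -- the sum over the blocks
  have hsum : hs y = ∑ e : β × β, hs (Φ (blk x e)) := by
    have h1 : ∀ e : β × β, Φ (blk x e) = blk y e := fun e => (hy e.1 e.2).symm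
    simp only [h1]
    calc hs y = ∑ i : β, ∑ s : α, ∑ j : β, ∑ t : α, ‖y (i, s) (j, t)‖ ^ 2 := by
          unfold hs
          rw [Fintype.sum_prod_type]
          exact Finset.sum_congr rfl fun i _ => Finset.sum_congr rfl fun s _ =>
            Fintype.sum_prod_type _
      _ = ∑ i : β, ∑ j : β, ∑ s : α, ∑ t : α, ‖y (i, s) (j, t)‖ ^ 2 :=
          Finset.sum_congr rfl fun i _ => Finset.sum_comm
      _ = ∑ e : β × β, hs (blk y e) := by
          rw [Fintype.sum_prod_type]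
          rfl
  let l : List (Matrix α α ℂ) := (Finset.univ : Finset (β × β)).toList.map (blk x)
  have hl : ∀ {M : Type} [AddCommMonoid M] (f : Matrix α α ℂ → M),
      (l.map f).sum = ∑ e : β × β, f (blk x e) := by
    intro M _ f
    change (((Finset.univ : Finset (β × β)).toList.map (blk x)).map f).sum = _
    rw [List.map_map]
    exact Finset.sum_map_toList _ _
  have hmain : ∀ r : ℝ, 0 < r → nn y ≤ 3 * κ ^ 2 / (2 * r) + r * δ ^ 2 / 2 := by
    intro r hr
    have hrb : 0 < r * Fintype.card β := by positivity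
    have k1 := Ex_mono (pt Φ κ δ hα h2 hi (r * Fintype.card β) hrb) l 0
    rw [Ex_affine, Ex_quad, hl, map_zero, hs_zero, zero_add] at k1
    have k2 := Ex_FF l 0
    rw [hl, hl] at k2
    have z1 : FF (0 : Matrix α α ℂ) = 0 := by
      unfold FF
      rw [Matrix.mul_zero, hs_zero]
    have z2 : ∀ A : Matrix α α ℂ, ip 0 A = 0 := by
      intro A
      unfold ip
      rw [Matrix.conjTranspose_zero, zero_mul, Matrix.trace_zero, Complex.zero_re]
    rw [Matrix.mul_zero, Matrix.zero_mul, z1, z2, z2] at k2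
    have k3 := blk_sum_hs x hx
    have k4 := blk_sum_hs' x hx
    have k5 : Ex FF l 0 ≤ 3 * (Fintype.card α * (Fintype.card β : ℝ) ^ 2) := by linarith
    have k6 : κ ^ 2 / (2 * (r * Fintype.card β)) * Ex FF l 0 ≤
        κ ^ 2 / (2 * (r * Fintype.card β)) *
          (3 * (Fintype.card α * (Fintype.card β : ℝ) ^ 2)) :=
      mul_le_mul_of_nonneg_left k5 (by positivity)
    rw [← hsum] at k1
    unfold nn
    rw [Fintype.card_prod, Nat.cast_mul, div_le_iff₀ (by positivity)]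
    calc hs y ≤ κ ^ 2 / (2 * (r * Fintype.card β)) *
          (3 * (Fintype.card α * (Fintype.card β : ℝ) ^ 2)) +
          Fintype.card α * (r * Fintype.card β * δ ^ 2 / 2) := by linarith
      _ = _ := by
        field_simp
  rcases hκ.eq_or_lt with h0 | hκ0
  · rw [← h0]
    rw [mul_zero, zero_mul]
    apply le_of_forall_pos_le_add
    intro ε hε
    have h := hmain (2 * ε / δ ^ 2) (by positivity)
    rw [← h0] at h
    calc nn y ≤ _ := h
      _ = 0 + ε := by
        have : δ ≠ 0 := hδ.ne'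
        field_simp
        ring
  · have h := hmain (2 * κ / δ) (by positivity)
    have e : 3 * κ ^ 2 / (2 * (2 * κ / δ)) + 2 * κ / δ * δ ^ 2 / 2 = 7 / 4 * (κ * δ) := by
      field_simp
      ring
    rw [e] at h
    have : 0 < κ * δ := by positivity
    linarith

end Helper53.NG
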