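import Pool.Agent.Helper53.NG.StA

/-!
# Project NG, module CBK
-/

set_option linter.unusedSectionVars false

namespace Helper53.NG

open Helper51.MU Helper61.IE Filter Topology
open scoped Matrix.Norms.L2Operator MatrixOrder ComplexOrder

attribute [local irreducible] Helper51.MU.instRingMUlt

namespace CBKm

section fin

variable {n : Type} [Fintype n] [DecidableEq n]

lemma sqrt_nn_add_le (A B : Matrix n n ℂ) :
    Real.sqrt (nn (A + B)) ≤ Real.sqrt (nn A) + Real.sqrt (nn B) := by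
  unfold nn
  rw [Real.sqrt_div (hs_nonneg _), Real.sqrt_div (hs_nonneg _), Real.sqrt_div (hs_nonneg _),
    ← add_div]
  exact div_le_div_of_nonneg_right (sqrt_hs_add_le A B) (Real.sqrt_nonneg _)

lemma nn_zero' : nn (0 : Matrix n n ℂ) = 0 := by
  unfold nn
  rw [hs_zero, zero_div]

lemma sqrt_nn_sum_le {σ : Type} (s : Finset σ) (f : σ → Matrix n n ℂ) :
    Real.sqrt (nn (∑ i ∈ s, f i)) ≤ ∑ i ∈ s, Real.sqrt (nn (f i)) := by
  classical
  induction s using Finset.induction_on with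
  | empty => simp [nn_zero']
  | insert a s ha ih =>
    rw [Finset.sum_insert ha, Finset.sum_insert ha]
    exact (sqrt_nn_add_le _ _).trans (add_le_add le_rfl ih)

/-- the average `(1/mp) ∑ a y b*` -/
noncomputable def Av {I : Type} [Fintype I] (p : ℕ) (a b : I → ℕ → Matrix n n ℂ) :
    Matrix n n ℂ →ₗ[ℂ] Matrix n n ℂ where
  toFun y := ((Fintype.card I : ℂ) * (p : ℂ))⁻¹ •
    ∑ i, ∑ j ∈ Finset.range p, a i j * y * (b i j).conjTranspose
  map_add' y z := by
    rw [← smul_add, ← Finset.sum_add_distrib]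
    congr 1
    refine Finset.sum_congr rfl fun i _ => ?_
    rw [← Finset.sum_add_distrib]
    refine Finset.sum_congr rfl fun j _ => ?_
    rw [mul_add, add_mul]
  map_smul' c y := by
    rw [RingHom.id_apply, smul_comm c]
    congr 1
    rw [Finset.smul_sum]
    refine Finset.sum_congr rfl fun i _ => ?_
    rw [Finset.smul_sum]
    refine Finset.sum_congr rfl fun j _ => ?_
    rw [mul_smul_comm, smul_mul_assoc]

variable {I : Type} [Fintype I]

lemma Av_apply (p : ℕ) (a b : I → ℕ → Matrix n n ℂ) (y : Matrix n n ℂ) :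
    Av p a b y = ((Fintype.card I : ℂ) * (p : ℂ))⁻¹ •
      ∑ i, ∑ j ∈ Finset.range p, a i j * y * (b i j).conjTranspose := rfl

lemma nn_conj_le {u v : Matrix n n ℂ} {C : ℝ} (hu : ‖u‖ ≤ C) (hv : ‖v‖ ≤ C)
    (y : Matrix n n ℂ) : nn (u * y * v) ≤ (C ^ 2) ^ 2 * nn y := by
  have hC : 0 ≤ C := (norm_nonneg _).trans hu
  have h1 := nn_mul_le_right (u * y) v
  have h2 := nn_mul_le_left u y
  have h3 : ‖u‖ ^ 2 ≤ C ^ 2 := pow_le_pow_left₀ (norm_nonneg _) hu 2
  have h4 : ‖v‖ ^ 2 ≤ C ^ 2 := pow_le_pow_left₀ (norm_nonneg _) hv 2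
  calc nn (u * y * v) ≤ ‖v‖ ^ 2 * nn (u * y) := h1
    _ ≤ C ^ 2 * (C ^ 2 * nn y) := by
      refine mul_le_mul h4 (h2.trans ?_) (nn_nonneg _) (by positivity)
      exact mul_le_mul_of_nonneg_right h3 (nn_nonneg _)
    _ = (C ^ 2) ^ 2 * nn y := by ring

lemma nn_Av_le (p : ℕ) {a b : I → ℕ → Matrix n n ℂ} (ha : ∀ i j, ‖a i j‖ ≤ 1)
    (hb : ∀ i j, ‖b i j‖ ≤ 1) (y : Matrix n n ℂ) : nn (Av p a b y) ≤ nn y := by
  have h0 : ∀ i j, nn (a i j * y * (b i j).conjTranspose) ≤ nn y := by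
    intro i j
    have := nn_conj_le (ha i j) (v := (b i j).conjTranspose)
      (by rw [Matrix.l2_opNorm_conjTranspose]; exact hb i j) y
    simpa using this
  have h1 : Real.sqrt (nn (∑ i, ∑ j ∈ Finset.range p, a i j * y * (b i j).conjTranspose)) ≤
      ((Fintype.card I : ℝ) * p) * Real.sqrt (nn y) := by
    refine (sqrt_nn_sum_le _ _).trans ?_
    have h2 : ∀ i ∈ (Finset.univ : Finset I),
        Real.sqrt (nn (∑ j ∈ Finset.range p, a i j * y * (b i j).conjTranspose)) ≤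
        (p : ℝ) * Real.sqrt (nn y) := by
      intro i _
      refine (sqrt_nn_sum_le _ _).trans ?_
      refine (Finset.sum_le_sum fun j _ => Real.sqrt_le_sqrt (h0 i j)).trans ?_
      rw [Finset.sum_const, Finset.card_range, nsmul_eq_mul]
    refine (Finset.sum_le_sum h2).trans ?_
    rw [Finset.sum_const, Finset.card_univ, nsmul_eq_mul, mul_assoc]
  set S := ∑ i, ∑ j ∈ Finset.range p, a i j * y * (b i j).conjTranspose with hS
  have h3 : nn S ≤ ((Fintype.card I : ℝ) * p) ^ 2 * nn y := by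
    have h4 := mul_self_le_mul_self (Real.sqrt_nonneg _) h1
    rw [Real.mul_self_sqrt (nn_nonneg _)] at h4
    have h5 := Real.mul_self_sqrt (nn_nonneg y)
    refine h4.trans (le_of_eq ?_)
    linear_combination ((Fintype.card I : ℝ) * p) ^ 2 * h5
  rw [Av_apply, ← hS, nn_smul, norm_inv, norm_mul, Complex.norm_natCast, Complex.norm_natCast]
  rcases (by positivity : (0 : ℝ) ≤ (Fintype.card I : ℝ) * p).eq_or_lt with h | h
  · rw [← h]
    simpa using nn_nonneg y
  · rw [inv_pow, inv_mul_le_iff₀ (by positivity)]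
    exact h3

lemma nn_Av_pow_le (p : ℕ) {a b : I → ℕ → Matrix n n ℂ} (ha : ∀ i j, ‖a i j‖ ≤ 1)
    (hb : ∀ i j, ‖b i j‖ ≤ 1) (k : ℕ) (y : Matrix n n ℂ) : nn ((Av p a b ^ k) y) ≤ nn y := by
  induction k with
  | zero => simp
  | succ k ih =>
    rw [pow_succ', Module.End.mul_apply]
    exact (nn_Av_le p ha hb _).trans ih

/-- the map `y₁ T^k(y) y₂` -/
noncomputable def Ph (p : ℕ) (a b : I → ℕ → Matrix n n ℂ) (u v : Matrix n n ℂ) (k : ℕ) :
    Matrix n n ℂ →ₗ[ℂ] Matrix n n ℂ where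
  toFun y := u * (Av p a b ^ k) y * v
  map_add' y z := by rw [map_add, mul_add, add_mul]
  map_smul' c y := by rw [map_smul, RingHom.id_apply, mul_smul_comm, smul_mul_assoc]

lemma Ph_apply (p : ℕ) (a b : I → ℕ → Matrix n n ℂ) (u v : Matrix n n ℂ) (k : ℕ)
    (y : Matrix n n ℂ) : Ph p a b u v k y = u * (Av p a b ^ k) y * v := rfl

/-- blocks -/
def bk {m : Type} [Fintype m] (i j : m) :
    Matrix (m × n) (m × n) ℂ →ₗ[ℂ] Matrix n n ℂ where
  toFun x := Matrix.of fun s t => x (i, s) (j, t)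
  map_add' _ _ := rfl
  map_smul' _ _ := rfl

lemma bk_left {m : Type} [Fintype m] [DecidableEq m] (i j : m) (a : Matrix n n ℂ)
    (x : Matrix (m × n) (m × n) ℂ) : bk i j (inr m a * x) = a * bk i j x := by
  ext s t
  show (inr m a * x) (i, s) (j, t) = (a * bk i j x) s t
  rw [Matrix.mul_apply, Matrix.mul_apply, Fintype.sum_prod_type, Finset.sum_eq_single i]
  · refine Finset.sum_congr rfl fun r _ => ?_
    rw [inr_apply, Matrix.one_apply_eq, one_mul]
    rfl
  · intro l _ hl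
    refine Finset.sum_eq_zero fun r _ => ?_
    rw [inr_apply, Matrix.one_apply_ne hl.symm]
    simp
  · simp

lemma bk_right {m : Type} [Fintype m] [DecidableEq m] (i j : m) (a : Matrix n n ℂ)
    (x : Matrix (m × n) (m × n) ℂ) : bk i j (x * inr m a) = bk i j x * a := by
  ext s t
  show (x * inr m a) (i, s) (j, t) = (bk i j x * a) s t
  rw [Matrix.mul_apply, Matrix.mul_apply, Fintype.sum_prod_type, Finset.sum_eq_single j]
  · refine Finset.sum_congr rfl fun r _ => ?_
    rw [inr_apply, Matrix.one_apply_eq, one_mul]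
    rfl
  · intro l _ hl
    refine Finset.sum_eq_zero fun r _ => ?_
    rw [inr_apply, Matrix.one_apply_ne hl]
    simp
  · simp

lemma inr_conjTranspose {m : Type} [Fintype m] [DecidableEq m] (a : Matrix n n ℂ) :
    (inr m a).conjTranspose = inr m a.conjTranspose := (map_star (inr m) a).symm

lemma bk_Av {m : Type} [Fintype m] [DecidableEq m] (i j : m) (p : ℕ)
    (a b : I → ℕ → Matrix n n ℂ) (x : Matrix (m × n) (m × n) ℂ) :
    bk i j (Av p (fun r s => inr m (a r s)) (fun r s => inr m (b r s)) x) =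
      Av p a b (bk i j x) := by
  rw [Av_apply, Av_apply, map_smul, map_sum]
  congr 1
  refine Finset.sum_congr rfl fun r _ => ?_
  rw [map_sum]
  refine Finset.sum_congr rfl fun s _ => ?_
  rw [inr_conjTranspose, bk_right, bk_left]

lemma bk_Av_pow {m : Type} [Fintype m] [DecidableEq m] (i j : m) (p : ℕ)
    (a b : I → ℕ → Matrix n n ℂ) (k : ℕ) (x : Matrix (m × n) (m × n) ℂ) :
    bk i j ((Av p (fun r s => inr m (a r s)) (fun r s => inr m (b r s)) ^ k) x) =
      (Av p a b ^ k) (bk i j x) := by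
  induction k with
  | zero => simp
  | succ k ih =>
    rw [pow_succ', pow_succ', Module.End.mul_apply, Module.End.mul_apply, bk_Av, ih]

lemma bk_Ph {m : Type} [Fintype m] [DecidableEq m] (i j : m) (p : ℕ)
    (a b : I → ℕ → Matrix n n ℂ) (u v : Matrix n n ℂ) (k : ℕ) (x : Matrix (m × n) (m × n) ℂ) :
    bk i j (Ph p (fun r s => inr m (a r s)) (fun r s => inr m (b r s)) (inr m u) (inr m v) k x) =
      Ph p a b u v k (bk i j x) := by
  rw [Ph_apply, Ph_apply, bk_right, bk_left, bk_Av_pow]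

end fin

section seq

variable {ι : ℕ → Type} [∀ n, Fintype (ι n)] [∀ n, DecidableEq (ι n)] {U : Ultrafilter ℕ}
  {I : Type} [Fintype I]

lemma sum_val {σ : Type} (s : Finset σ) (f : σ → BSeq ι) (n : ℕ) :
    (∑ i ∈ s, f i).1 n = ∑ i ∈ s, (f i).1 n := by
  classical
  induction s using Finset.induction_on with
  | empty => rfl
  | insert a s ha ih => rw [Finset.sum_insert ha, Finset.sum_insert ha, add_val, ih]

/-- the average on bounded sequences -/
noncomputable def AvB (p : ℕ) (a b : I → ℕ → BSeq ι) (Y : BSeq ι) : BSeq ι :=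
  ((Fintype.card I : ℂ) * (p : ℂ))⁻¹ • ∑ i, ∑ j ∈ Finset.range p, a i j * Y * star (b i j)

lemma AvB_val (p : ℕ) (a b : I → ℕ → BSeq ι) (Y : BSeq ι) (n : ℕ) :
    (AvB p a b Y).1 n = Av p (fun i j => (a i j).1 n) (fun i j => (b i j).1 n) (Y.1 n) := by
  unfold AvB
  rw [smul_val, sum_val, Av_apply]
  congr 1
  refine Finset.sum_congr rfl fun i _ => ?_
  rw [sum_val]
  rfl

lemma AvB_iter_val (p : ℕ) (a b : I → ℕ → BSeq ι) (k : ℕ) (Y : BSeq ι) (n : ℕ) :
    ((AvB p a b)^[k] Y).1 n =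
      (Av p (fun i j => (a i j).1 n) (fun i j => (b i j).1 n) ^ k) (Y.1 n) := by
  induction k with
  | zero => rfl
  | succ k ih =>
    rw [Function.iterate_succ_apply', AvB_val, ih, pow_succ', Module.End.mul_apply]

lemma mk_AvB (p : ℕ) (a b : I → ℕ → BSeq ι) (Y : BSeq ι) :
    mkM U (AvB p a b Y) = ((Fintype.card I : ℂ) * (p : ℂ))⁻¹ •
      ∑ i, ∑ j ∈ Finset.range p, mkM U (a i j) * mkM U Y * star (mkM U (b i j)) := by
  unfold AvB
  rw [mkM_smul, map_sum]
  congr 1
  refine Finset.sum_congr rfl fun i _ => ?_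
  rw [map_sum]
  refine Finset.sum_congr rfl fun j _ => ?_
  rw [map_mul, map_mul, star_mk]

end seq

end CBKm

open CBKm

theorem pCBK : StCBK := by
  intro hCNJ hCB hNB1 K I _ _ _ p x N κ _ _ U hU hT hI α β hα hβ y₁ y₂ hy b X hX
  obtain ⟨hc0, hc1, -, -, hconv⟩ := hCNJ K I p x N κ U hU hT hI α β hα hβ
  set c : ℝ := cT p (Fintype.card I) with hc
  -- lifts
  have hNα : ∀ k, NB 1 (α k) := fun k => hNB1 κ U (α k) (by rw [hα k]; exact Pj.one)
  have hNβ : ∀ k, NB 1 (β k) := fun k => hNB1 κ U (β k) (by rw [hβ k]; exact Pj.one)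
  choose a ha1 ha2 using fun (i : I) (j : ℕ) => hNα (x i ^ j)
  choose d hd1 hd2 using fun (i : I) (j : ℕ) => hNβ (x i ^ j)
  obtain ⟨C₁, hC₁, u, hu1, hu2⟩ := exists_NB y₁
  obtain ⟨C₂, hC₂, v, hv1, hv2⟩ := exists_NB y₂
  obtain ⟨D, hD, Z, hZ1, hZ2⟩ := exists_NB X
  set C : ℝ := max C₁ C₂ with hC
  have hC0 : 0 < C := lt_max_of_lt_left hC₁
  have huC : ∀ n, ‖u.1 n‖ ≤ C := fun n => (hu2 n).trans (le_max_left _ _)
  have hvC : ∀ n, ‖v.1 n‖ ≤ C := fun n => (hv2 n).trans (le_max_right _ _)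
  set T := TAv p x (cnj (fun k => α k) (fun k => β k)) with hTd
  -- class of the average
  have hmk : ∀ Y : BSeq κ, mkM U (AvB p a d Y) = T (mkM U Y) := by
    intro Y
    rw [mk_AvB, hTd]
    unfold TAv
    rw [LinearMap.smul_apply, LinearMap.sum_apply]
    congr 1
    refine Finset.sum_congr rfl fun i _ => ?_
    rw [LinearMap.sum_apply]
    refine Finset.sum_congr rfl fun j _ => ?_
    rw [ha1, hd1]
    rfl
  have hmkk : ∀ (k : ℕ) (Y : BSeq κ), mkM U ((AvB p a d)^[k] Y) = (T ^ k) (mkM U Y) := by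
    intro k Y
    induction k with
    | zero => rfl
    | succ k ih =>
      rw [Function.iterate_succ_apply', hmk, ih, pow_succ', Module.End.mul_apply]
  -- the maps
  let Φ : ℕ → ∀ n, Matrix (κ n) (κ n) ℂ →ₗ[ℂ] Matrix (κ n) (κ n) ℂ := fun k n =>
    Ph p (fun i j => (a i j).1 n) (fun i j => (d i j).1 n) (u.1 n) (v.1 n) k
  have hΦ1 : ∀ k n y, nn (Φ k n y) ≤ (C ^ 2) ^ 2 * nn y := by
    intro k n y
    refine (nn_conj_le (huC n) (hvC n) _).trans ?_
    refine mul_le_mul_of_nonneg_left ?_ (by positivity)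
    exact nn_Av_pow_le p (fun i j => ha2 i j n) (fun i j => hd2 i j n) k y
  -- small on the ball
  have hΦ2 : ∀ δ : ℝ, 0 < δ → ∃ k, ∀ᶠ n in (U : Filter ℕ), ∀ y : Matrix (κ n) (κ n) ℂ,
      ‖y‖ ≤ 1 → nn (Φ k n y) ≤ δ ^ 2 := by
    intro δ hδ
    have h1c : 0 ≤ 1 - c := by linarith
    have h1c' : (1 - c) ^ 2 < 1 := by nlinarith
    have hlim : Tendsto (fun k : ℕ => (C ^ 2) ^ 2 * (4 / c) * ((1 - c) ^ 2) ^ k) atTop
        (𝓝 ((C ^ 2) ^ 2 * (4 / c) * 0)) :=
      (tendsto_pow_atTop_nhds_zero_of_lt_one (by positivity) h1c').const_mul _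
    rw [mul_zero] at hlim
    obtain ⟨k, hk⟩ := ((tendsto_order.1 hlim).2 (δ ^ 2) (by positivity)).exists
    refine ⟨k, ?_⟩
    by_contra hcon
    have hcon' := Ultrafilter.eventually_not.2 hcon
    classical
    let y : ∀ n, Matrix (κ n) (κ n) ℂ := fun n =>
      if h : ∃ y : Matrix (κ n) (κ n) ℂ, ‖y‖ ≤ 1 ∧ δ ^ 2 < nn (Φ k n y) then h.choose else 0
    have hy1 : ∀ n, ‖y n‖ ≤ 1 := by
      intro n
      by_cases h : ∃ y : Matrix (κ n) (κ n) ℂ, ‖y‖ ≤ 1 ∧ δ ^ 2 < nn (Φ k n y)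
      · have e : y n = h.choose := dif_pos h
        rw [e]; exact h.choose_spec.1
      · have e : y n = 0 := dif_neg h
        rw [e, norm_zero]; exact zero_le_one
    have hy2 : ∀ᶠ n in (U : Filter ℕ), δ ^ 2 ≤ nn (Φ k n (y n)) := by
      filter_upwards [hcon'] with n hn
      push Not at hn
      have e : y n = hn.choose := dif_pos hn
      rw [e]; exact hn.choose_spec.2.le
    let Y : BSeq κ := ⟨y, 1, hy1⟩
    have hYN : NB 1 (mkM U Y) := ⟨Y, rfl, hy1⟩
    have hval : ∀ n, (u * (AvB p a d)^[k] Y * v).1 n = Φ k n (y n) := by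
      intro n
      rw [mul_val, mul_val, AvB_iter_val]
      rfl
    have hlow : δ ^ 2 ≤ nrm (y₁ * (T ^ k) (mkM U Y) * y₂) := by
      rw [← hu1, ← hv1, ← hmkk, ← map_mul, ← map_mul]
      refine ge_of_tendsto (tendsto_nn _) ?_
      filter_upwards [hy2] with n hn
      rw [hval]; exact hn
    obtain ⟨y', -, hy'1, hy'2⟩ := hconv (mkM U Y) 1 hYN
    have hdiff : y₁ * (T ^ k) (mkM U Y) * y₂ = y₁ * ((T ^ k) (mkM U Y) - y') * y₂ := by
      rw [mul_sub, sub_mul, hy y' hy'1, sub_zero]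
    have hN1 : NB C y₁ := ⟨u, hu1, huC⟩
    have hN2 : NB C y₂ := ⟨v, hv1, hvC⟩
    have hup : nrm (y₁ * (T ^ k) (mkM U Y) * y₂) ≤
        C ^ 2 * (C ^ 2 * (4 / c * (1 - c) ^ (2 * k) * 1)) := by
      rw [hdiff]
      refine (nrm_mul_le' hN2 _).trans (mul_le_mul_of_nonneg_left ?_ (by positivity))
      refine (nrm_mul_le hN1 _).trans (mul_le_mul_of_nonneg_left ?_ (by positivity))
      refine (hy'2 k).trans (mul_le_mul_of_nonneg_left ?_ (by positivity))
      simpa using nrm_le_of_NB hYN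
    have e : C ^ 2 * (C ^ 2 * (4 / c * (1 - c) ^ (2 * k) * 1)) =
        (C ^ 2) ^ 2 * (4 / c) * ((1 - c) ^ 2) ^ k := by
      rw [pow_mul]; ring
    rw [e] at hup
    linarith
  -- the amplified average fixes `X`
  have hαX : ∀ k, amp b (α k) * X * star (amp b (β k)) = X := by
    intro k
    rw [hX k, mul_assoc, ← amp_star, ← map_mul, mul_star_of_unit (hβ k), map_one, mul_one]
  have hp : (p : ℂ) ≠ 0 := by exact_mod_cast hT.prime.ne_zero
  have hcard : (Fintype.card I : ℂ) ≠ 0 := by exact_mod_cast Fintype.card_ne_zero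
  have hfix : ∀ Y : BSeq (fun n => Fin (b n) × κ n), mkM U Y = X →
      mkM U (AvB p (fun i j => jb (fun n => Fin (b n)) (a i j))
        (fun i j => jb (fun n => Fin (b n)) (d i j)) Y) = X := by
    intro Y hY
    rw [mk_AvB, hY]
    have h1 : ∀ i ∈ (Finset.univ : Finset I), ∑ j ∈ Finset.range p,
        mkM U (jb (fun n => Fin (b n)) (a i j)) * X *
          star (mkM U (jb (fun n => Fin (b n)) (d i j))) = (p : ℂ) • X := by
      intro i _
      have h2 : ∀ j ∈ Finset.range p, mkM U (jb (fun n => Fin (b n)) (a i j)) * X *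
          star (mkM U (jb (fun n => Fin (b n)) (d i j))) = X := by
        intro j _
        have := hαX (x i ^ j)
        rwa [← ha1, ← hd1] at this
      rw [Finset.sum_congr rfl h2, Finset.sum_const, Finset.card_range, ← Nat.cast_smul_eq_nsmul ℂ]
    rw [Finset.sum_congr rfl h1, Finset.sum_const, Finset.card_univ, ← Nat.cast_smul_eq_nsmul ℂ,
      smul_smul, smul_smul, mul_assoc, inv_mul_cancel₀ (mul_ne_zero hcard hp), one_smul]
  have hfixk : ∀ k : ℕ, mkM U ((AvB p (fun i j => jb (fun n => Fin (b n)) (a i j))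
        (fun i j => jb (fun n => Fin (b n)) (d i j)))^[k] Z) = X := by
    intro k
    induction k with
    | zero => exact hZ1
    | succ k ih =>
      rw [Function.iterate_succ_apply']
      exact hfix _ ih
  -- the bound
  have hbound : ∀ δ : ℝ, 0 < δ → nrm (amp b y₁ * X * amp b y₂) ≤ D ^ 2 * (4 * C ^ 2 * δ) := by
    intro δ hδ
    obtain ⟨k, hk⟩ := hΦ2 δ hδ
    rw [← hfixk k, ← hu1, ← hv1, jm_mk, jm_mk, ← map_mul, ← map_mul]
    refine le_of_tendsto (tendsto_nn _) ?_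
    filter_upwards [hk] with n hn
    rw [mul_val, mul_val, AvB_iter_val, jb_val, jb_val]
    have hZn := hZ2 n
    set W : Matrix (Fin (b n) × κ n) (Fin (b n) × κ n) ℂ := (D : ℂ)⁻¹ • Z.1 n with hW
    have hDc : (D : ℂ) ≠ 0 := by exact_mod_cast hD.ne'
    have hZW : Z.1 n = (D : ℂ) • W := by rw [hW, smul_smul, mul_inv_cancel₀ hDc, one_smul]
    have hWn : ‖W‖ ≤ 1 := by
      rw [hW, norm_smul, norm_inv, Complex.norm_real, Real.norm_of_nonneg hD.le,
        inv_mul_le_iff₀ hD, mul_one]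
      exact hZn
    have h1 := hCB (κ n) (Fin (b n)) (Φ k n) (C ^ 2) δ (by positivity) hδ (hΦ1 k n) hn W
      (Ph p (fun i j => inr (Fin (b n)) ((a i j).1 n)) (fun i j => inr (Fin (b n)) ((d i j).1 n))
        (inr (Fin (b n)) (u.1 n)) (inr (Fin (b n)) (v.1 n)) k W) hWn
      (fun i j => bk_Ph i j p _ _ _ _ k W)
    rw [hZW]
    have h2 := nn_smul (D : ℂ) (Ph p (fun i j => inr (Fin (b n)) ((a i j).1 n))
      (fun i j => inr (Fin (b n)) ((d i j).1 n))
        (inr (Fin (b n)) (u.1 n)) (inr (Fin (b n)) (v.1 n)) k W)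
    rw [← map_smul, Complex.norm_real, Real.norm_of_nonneg hD.le] at h2
    refine (le_of_eq h2).trans ?_
    exact mul_le_mul_of_nonneg_left h1 (by positivity)
  refine nrm_eq_zero.1 (le_antisymm ?_ (nrm_nonneg _))
  refine le_of_forall_pos_le_add fun ε hε => ?_
  have := hbound (ε / (D ^ 2 * (4 * C ^ 2))) (by positivity)
  refine this.trans (le_of_eq ?_)
  field_simp
  ring

end Helper53.NG
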