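import Pool.Agent.Helper53.NG.StB

/-!
# Project NG, module CE: from matrix representations to a homomorphism into the ultraproduct
-/

set_option linter.unusedSectionVars false

namespace Helper53.NG

open Helper51.MU Helper61.IE Filter Topology
open scoped Matrix.Norms.L2Operator MatrixOrder ComplexOrder

attribute [local irreducible] Helper51.MU.instRingMUlt

namespace CE

section blk

variable {d : ℕ} (m r : ℕ)

/-- `m` copies of `A` and the identity of size `r` -/
noncomputable def blk (A : Matrix (Fin d) (Fin d) ℂ) :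
    Matrix ((Fin d × Fin m) ⊕ Fin r) ((Fin d × Fin m) ⊕ Fin r) ℂ :=
  Matrix.fromBlocks (Matrix.blockDiagonal fun _ : Fin m => A) 0 0 1

lemma blk_mul (A B : Matrix (Fin d) (Fin d) ℂ) : blk m r A * blk m r B = blk m r (A * B) := by
  unfold blk
  rw [Matrix.fromBlocks_multiply, Matrix.blockDiagonal_mul]
  simp

lemma blk_one : blk m r (1 : Matrix (Fin d) (Fin d) ℂ) = 1 := by
  unfold blk
  have h : (Matrix.blockDiagonal fun _ : Fin m => (1 : Matrix (Fin d) (Fin d) ℂ)) = 1 :=
    Matrix.blockDiagonal_one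
  rw [h, Matrix.fromBlocks_one]

lemma blk_star (A : Matrix (Fin d) (Fin d) ℂ) :
    (blk m r A).conjTranspose = blk m r A.conjTranspose := by
  unfold blk
  rw [Matrix.fromBlocks_conjTranspose, Matrix.blockDiagonal_conjTranspose]
  simp

lemma blk_trace (A : Matrix (Fin d) (Fin d) ℂ) :
    Matrix.trace (blk m r A) = m * Matrix.trace A + r := by
  have h1 : Matrix.trace (blk m r A) =
      Matrix.trace (Matrix.blockDiagonal fun _ : Fin m => A) +
        Matrix.trace (1 : Matrix (Fin r) (Fin r) ℂ) := by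
    unfold Matrix.trace
    rw [Fintype.sum_sum_type]
    rfl
  rw [h1, Matrix.trace_blockDiagonal, Matrix.trace_one, Fintype.card_fin, Finset.sum_const,
    Finset.card_univ, Fintype.card_fin, nsmul_eq_mul]

/-- the block matrix of a unitary matrix is unitary -/
noncomputable def blkU (A : Matrix.unitaryGroup (Fin d) ℂ) :
    Matrix.unitaryGroup ((Fin d × Fin m) ⊕ Fin r) ℂ :=
  ⟨blk m r A.1, by
    rw [Matrix.mem_unitaryGroup_iff, Matrix.star_eq_conjTranspose, blk_star, blk_mul,
      ← Matrix.star_eq_conjTranspose, Matrix.mem_unitaryGroup_iff.1 A.2, blk_one]⟩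

lemma blkU_mul (A B : Matrix.unitaryGroup (Fin d) ℂ) :
    blkU m r (A * B) = blkU m r A * blkU m r B := by
  apply Subtype.ext
  show blk m r (A.1 * B.1) = blk m r A.1 * blk m r B.1
  rw [blk_mul]

end blk

/-- the index sets -/
noncomputable def eqv (d n : ℕ) : (Fin d × Fin (n / d)) ⊕ Fin (n % d) ≃ Fin n :=
  Fintype.equivOfCardEq (by
    rw [Fintype.card_sum, Fintype.card_prod, Fintype.card_fin, Fintype.card_fin,
      Fintype.card_fin, Fintype.card_fin]
    exact Nat.div_add_mod n d)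

/-- the representation of size `n` -/
noncomputable def rho {d : ℕ} (n : ℕ) (A : Matrix.unitaryGroup (Fin d) ℂ) :
    Matrix.unitaryGroup (Fin n) ℂ :=
  reU (eqv d n) (blkU (n / d) (n % d) A)

lemma rho_mul {d : ℕ} (n : ℕ) (A B : Matrix.unitaryGroup (Fin d) ℂ) :
    rho n (A * B) = rho n A * rho n B := by
  unfold rho
  rw [blkU_mul, reU_mul]

lemma ntr_rho {d : ℕ} (n : ℕ) (A : Matrix.unitaryGroup (Fin d) ℂ) :
    ntr (rho n A : Matrix (Fin n) (Fin n) ℂ) =
      ((n / d : ℕ) * Matrix.trace (A : Matrix (Fin d) (Fin d) ℂ) + (n % d : ℕ)) / (n : ℂ) := by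
  have h1 : ntr (rho n A : Matrix (Fin n) (Fin n) ℂ) = ntr (blk (n / d) (n % d) A.1) :=
    ntr_submatrix (eqv d n) _
  have h2 : ntr (blk (n / d) (n % d) A.1) = Matrix.trace (blk (n / d) (n % d) A.1) /
      (Fintype.card ((Fin d × Fin (n / d)) ⊕ Fin (n % d)) : ℂ) := rfl
  rw [h1, h2, blk_trace, Fintype.card_congr (eqv d n), Fintype.card_fin]

/-- the error of the trace -/
lemma err {d : ℕ} (hd : 0 < d) {n : ℕ} (hn : 0 < n) (A : Matrix.unitaryGroup (Fin d) ℂ) :
    ‖ntr (rho n A : Matrix (Fin n) (Fin n) ℂ) - ntr (A : Matrix (Fin d) (Fin d) ℂ)‖ ≤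
      2 * d / n := by
  set τ : ℂ := ntr (A : Matrix (Fin d) (Fin d) ℂ) with hτ
  have hτ1 : ‖τ‖ ≤ 1 := by
    have h1 := norm_ntr_sq_le (A : Matrix (Fin d) (Fin d) ℂ)
    have h2 := nn_le_norm_sq (A : Matrix (Fin d) (Fin d) ℂ)
    have h3 := norm_unitary_le (A : Matrix (Fin d) (Fin d) ℂ) A.2
    have h4 : ‖(A : Matrix (Fin d) (Fin d) ℂ)‖ ^ 2 ≤ 1 := by
      nlinarith [norm_nonneg (A : Matrix (Fin d) (Fin d) ℂ)]
    have h5 : ‖τ‖ ^ 2 ≤ 1 := by linarith
    nlinarith [norm_nonneg τ]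
  have hd' : (d : ℂ) ≠ 0 := by exact_mod_cast hd.ne'
  have hn' : (n : ℂ) ≠ 0 := by exact_mod_cast hn.ne'
  have htr : Matrix.trace (A : Matrix (Fin d) (Fin d) ℂ) = d * τ := by
    have h1 : τ = Matrix.trace (A : Matrix (Fin d) (Fin d) ℂ) / (Fintype.card (Fin d) : ℂ) := rfl
    rw [h1, Fintype.card_fin]
    field_simp
  have hdm : (n : ℂ) = d * (n / d : ℕ) + (n % d : ℕ) := by
    exact_mod_cast (Nat.div_add_mod n d).symm
  have e : ntr (rho n A : Matrix (Fin n) (Fin n) ℂ) - τ = ((n % d : ℕ) : ℂ) * (1 - τ) / n := by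
    rw [ntr_rho, htr, eq_div_iff hn', sub_mul, div_mul_cancel₀ _ hn']
    linear_combination (-τ) * hdm
  rw [e, norm_div, norm_mul, Complex.norm_natCast, Complex.norm_natCast]
  refine div_le_div_of_nonneg_right ?_ (by positivity)
  have h1 : ‖1 - τ‖ ≤ 2 := by
    refine (norm_sub_le _ _).trans ?_
    rw [norm_one]
    linarith
  have h2 : ((n % d : ℕ) : ℝ) ≤ d := by exact_mod_cast (Nat.mod_lt n hd).le
  calc ((n % d : ℕ) : ℝ) * ‖1 - τ‖ ≤ d * 2 :=
        mul_le_mul h2 h1 (norm_nonneg _) (by positivity)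
    _ = 2 * d := by ring

/-- the choice of the representation for the size `n` -/
noncomputable def kk (d : ℕ → ℕ) (n : ℕ) : ℕ :=
  Nat.findGreatest (fun k => (k + 1) * d k ≤ n) n

lemma kk_tendsto (d : ℕ → ℕ) : Tendsto (kk d) atTop atTop := by
  rw [tendsto_atTop]
  intro K
  filter_upwards [eventually_ge_atTop (max K ((K + 1) * d K))] with n hn
  exact Nat.le_findGreatest ((le_max_left _ _).trans hn) ((le_max_right _ _).trans hn)

lemma kk_spec (d : ℕ → ℕ) : ∀ᶠ n in atTop, (kk d n + 1) * d (kk d n) ≤ n := by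
  filter_upwards [eventually_ge_atTop ((0 + 1) * d 0)] with n hn
  exact Nat.findGreatest_spec (P := fun k => (k + 1) * d k ≤ n) (Nat.zero_le n) hn

end CE

open CE in
theorem pCE : StCE := by
  intro G _ χ d π hd hχ U hU
  let w : ∀ n, G → Matrix.unitaryGroup (Fin n) ℂ := fun n g => rho n (π (kk d n) g)
  have hw : ∀ g h, ∀ᶠ n in (U : Filter ℕ), w n (g * h) = w n g * w n h := by
    intro g h
    refine Filter.Eventually.of_forall fun n => ?_
    show rho n (π (kk d n) (g * h)) = rho n (π (kk d n) g) * rho n (π (kk d n) h)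
    rw [map_mul, rho_mul]
  refine ⟨uhom w hw, fun g => ?_, fun g => ?_⟩
  · show star (mkM U (useq fun n => w n g)) * mkM U (useq fun n => w n g) = 1
    rw [star_mk, ← map_mul, useq_star_mul, map_one]
  · show tr (mkM U (useq fun n => w n g)) = χ g
    refine tr_mk_eq ?_
    refine Tendsto.mono_left ?_ hU.le_atTop
    have h1 : Tendsto (fun n => ntr ((π (kk d n) g : Matrix.unitaryGroup (Fin (d (kk d n))) ℂ) :
        Matrix (Fin (d (kk d n))) (Fin (d (kk d n))) ℂ)) atTop (𝓝 (χ g)) :=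
      (hχ g).comp (kk_tendsto d)
    have h2 : Tendsto (fun n => ntr (w n g : Matrix (Fin n) (Fin n) ℂ) -
        ntr ((π (kk d n) g : Matrix.unitaryGroup (Fin (d (kk d n))) ℂ) :
        Matrix (Fin (d (kk d n))) (Fin (d (kk d n))) ℂ)) atTop (𝓝 0) := by
      rw [tendsto_zero_iff_norm_tendsto_zero]
      have h3 : Tendsto (fun n => 2 / ((kk d n : ℝ) + 1)) atTop (𝓝 0) := by
        have h4 : Tendsto (fun k : ℕ => 2 / ((k : ℝ) + 1)) atTop (𝓝 0) :=
          tendsto_const_div_atTop_nhds_zero_nat 2 |>.comp (tendsto_add_atTop_nat 1) |>.congr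
            fun k => by simp
        exact h4.comp (kk_tendsto d)
      refine squeeze_zero' (Filter.Eventually.of_forall fun n => norm_nonneg _) ?_ h3
      filter_upwards [kk_spec d, eventually_gt_atTop 0] with n hn hn0
      refine (err (hd _) hn0 (π (kk d n) g)).trans ?_
      rw [div_le_div_iff₀ (by positivity) (by positivity)]
      have h5 : (((kk d n : ℕ) : ℝ) + 1) * (d (kk d n) : ℝ) ≤ n := by exact_mod_cast hn
      linarith
    have h6 := h2.add h1
    rw [zero_add] at h6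
    refine h6.congr fun n => ?_
    rw [sub_add_cancel]
    rfl

end Helper53.NG
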