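import Pool.Agent.Helper53.NG.StA

/-!
# Project NG: closure under the continuous functional calculus
-/

namespace Helper53.NG

open Helper51.MU Helper61.IE Filter Topology Polynomial
open scoped Matrix.Norms.L2Operator MatrixOrder ComplexOrder

attribute [local irreducible] Helper51.MU.instRingMUlt

namespace CFC

variable {ι : ℕ → Type} [∀ n, Fintype (ι n)] [∀ n, DecidableEq (ι n)] {U : Ultrafilter ℕ}

theorem pow_mem {D : Set (MUlt ι U)} (hD : IsVN D) (α : BSeq ι) (h : mkM U α ∈ D) (k : ℕ) :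
    ∃ γ : BSeq ι, mkM U γ ∈ D ∧ ∀ n, γ.1 n = α.1 n ^ k := by
  induction k with
  | zero => exact ⟨1, by rw [map_one]; exact hD.one, fun n => by rw [one_val, pow_zero]⟩
  | succ k ih =>
    obtain ⟨γ, h1, h2⟩ := ih
    refine ⟨γ * α, by rw [map_mul]; exact hD.mul _ h1 _ h, fun n => ?_⟩
    rw [mul_val, h2, pow_succ]

theorem poly_mem {D : Set (MUlt ι U)} (hD : IsVN D) (α : BSeq ι) (h : mkM U α ∈ D) (p : ℝ[X]) :
    ∃ γ : BSeq ι, mkM U γ ∈ D ∧ ∀ n, γ.1 n = aeval (α.1 n) p := by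
  induction p using Polynomial.induction_on' with
  | add p q hp hq =>
    obtain ⟨γ, h1, h2⟩ := hp
    obtain ⟨δ, h3, h4⟩ := hq
    refine ⟨γ + δ, by rw [map_add]; exact hD.add _ h1 _ h3, fun n => ?_⟩
    rw [add_val, h2, h4, map_add]
  | monomial k a =>
    obtain ⟨γ, h1, h2⟩ := pow_mem hD α h k
    refine ⟨(a : ℂ) • γ, by rw [mkM_smul]; exact hD.smul _ _ h1, fun n => ?_⟩
    rw [smul_val, h2, aeval_monomial, Algebra.algebraMap_eq_smul_one, smul_mul_assoc, one_mul]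
    exact Complex.coe_smul a _

end CFC

theorem pCFC : StCfc := by
  intro ι _ _ U D hD α β g hg hα hαD hβ
  apply hD.closed
  intro ε hε
  obtain ⟨C, hC⟩ := α.2
  have hC0 : 0 ≤ C := (norm_nonneg _).trans (hC 0)
  obtain ⟨δ, hδ0, hδ1, hδ2⟩ : ∃ δ : ℝ, 0 < δ ∧ δ ≤ 1 ∧ δ ≤ ε / 2 :=
    ⟨min 1 (ε / 2), lt_min one_pos (by positivity), min_le_left _ _, min_le_right _ _⟩
  obtain ⟨p, hp⟩ := exists_polynomial_near_of_continuousOn (-C) C g hg.continuousOn δ hδ0
  obtain ⟨γ, h1, h2⟩ := CFC.poly_mem hD α hαD p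
  refine ⟨mkM U γ, h1, ?_⟩
  have hNB : NB δ (mkM U β - mkM U γ) := by
    refine ⟨β - γ, map_sub _ _ _, fun n => ?_⟩
    rw [sub_val, hβ, h2]
    have hsa := hα n
    rw [← cfc_polynomial (R := ℝ) (p := IsSelfAdjoint) p (α.1 n) hsa,
      ← cfc_sub (R := ℝ) (p := IsSelfAdjoint) g p.eval (α.1 n) hg.continuousOn
        p.continuous.continuousOn]
    refine norm_cfc_le hδ0.le fun x hx => ?_
    have h3 : ‖x‖ ≤ C := by
      refine le_trans ?_ (hC n)
      have h6 := spectrum.norm_le_norm_mul_of_mem hx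
      rcases isEmpty_or_nonempty (ι n) with h | h
      · have h7 : ‖(1 : Matrix (ι n) (ι n) ℂ)‖ = 0 := by
          have : (1 : Matrix (ι n) (ι n) ℂ) = 0 := Subsingleton.elim _ _
          rw [this, norm_zero]
        rw [h7, mul_zero] at h6
        exact h6.trans (norm_nonneg _)
      · have h7 : ‖(1 : Matrix (ι n) (ι n) ℂ)‖ = 1 := CStarRing.norm_one
        rwa [h7, mul_one] at h6
    have h4 := hp x (abs_le.1 h3)
    rw [Real.norm_eq_abs, abs_sub_comm]
    exact h4.le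
  have h5 := nrm_le_of_NB hNB
  nlinarith
end Helper53.NG
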