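import Pool.Agent.Helper53.NG.StG

namespace Helper53.NG

open Polynomial

namespace CHI

variable (p : ℕ) [Fact p.Prime]

theorem lam_add (f g : (ZMod p)[X]) : lam p (f + g) = lam p f + lam p g := by
  unfold lam
  rw [Polynomial.sum_add_index]
  · intro i; split_ifs <;> rfl
  · intro i a b; split_ifs <;> simp

theorem lam_zero : lam p (0 : (ZMod p)[X]) = 0 := by
  unfold lam
  simp

theorem lam_neg (f : (ZMod p)[X]) : lam p (-f) = - lam p f := by
  have h := lam_add p f (-f)
  rw [add_neg_cancel, lam_zero] at h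
  exact (neg_eq_of_add_eq_zero_right h.symm).symm

theorem lam_sub (f g : (ZMod p)[X]) : lam p (f - g) = lam p f - lam p g := by
  rw [sub_eq_add_neg, lam_add, lam_neg, sub_eq_add_neg]

theorem chi_eq_one (f : (ZMod p)[X]) : chi p f = 1 ↔ lam p f = 0 := by
  unfold chi
  rw [← AddChar.map_zero_eq_one (ZMod.stdAddChar (N := p)), ZMod.injective_stdAddChar.eq_iff]

theorem lam_shift (g : (ZMod p)[X]) :
    lam p (g * X ^ (2 ^ (g.natDegree + 1) - g.natDegree)) = g.leadingCoeff := by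
  classical
  set d := g.natDegree with hd
  have hlt : d < 2 ^ d := Nat.lt_two_pow_self
  have h2 : 2 ^ (d + 1) = 2 ^ d + 2 ^ d := by rw [pow_succ]; ring
  unfold lam
  rw [Polynomial.sum_def, Finset.sum_eq_single (2 ^ (d + 1))]
  · rw [if_pos ⟨_, rfl⟩, Polynomial.coeff_mul_X_pow', if_pos (by omega)]
    have : 2 ^ (d + 1) - (2 ^ (d + 1) - d) = d := by omega
    rw [this]
    rfl
  · intro i hi hne
    rw [if_neg]
    rintro ⟨k, rfl⟩
    rw [Polynomial.mem_support_iff, Polynomial.coeff_mul_X_pow'] at hi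
    split_ifs at hi with hle
    · have hk : k ≤ d + 1 := by
        by_contra hk
        have : 2 ^ (d + 2) ≤ 2 ^ k := Nat.pow_le_pow_right (by norm_num) (by omega)
        have e3 : 2 ^ (d + 2) = 2 ^ (d + 1) + 2 ^ (d + 1) := by rw [pow_succ 2 (d + 1)]; ring
        apply hi
        apply Polynomial.coeff_eq_zero_of_natDegree_lt
        omega
      have hk' : k ≠ d + 1 := fun h => hne (by rw [h])
      have : 2 ^ k ≤ 2 ^ d := Nat.pow_le_pow_right (by norm_num) (by omega)
      omega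
    · exact hi rfl
  · intro h
    rw [Polynomial.notMem_support_iff] at h
    rw [h]
    simp

theorem nondeg (g : (ZMod p)[X]) (hg : g ≠ 0) : ∃ c, chi p (g * c) ≠ 1 := by
  refine ⟨X ^ (2 ^ (g.natDegree + 1) - g.natDegree), ?_⟩
  rw [Ne, chi_eq_one, lam_shift]
  exact Polynomial.leadingCoeff_ne_zero.2 hg

theorem infinite_sub {G : Type} [AddGroup G] [Infinite G] (A : AddSubgroup G)
    (hA : A.FiniteIndex) : Infinite A := by
  rw [← not_finite_iff_infinite]
  intro hfin
  have := AddSubgroup.finite_quotient_of_finiteIndex (H := A)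
  exact not_finite_iff_infinite.2 ‹Infinite G›
    (Finite.of_equiv _ (AddSubgroup.addGroupEquivQuotientProdAddSubgroup (s := A)).symm)

theorem triple (A₁ A₂ A₃ : AddSubgroup (ZMod p)[X]) (h₁ : A₁.FiniteIndex) (h₂ : A₂.FiniteIndex)
    (h₃ : A₃.FiniteIndex) : ∃ a ∈ A₁, ∃ b ∈ A₂, ∃ c ∈ A₃, chi p (a * b * c) ≠ 1 := by
  by_contra hcon
  push Not at hcon
  have i₁ := infinite_sub A₁ h₁
  have i₂ := infinite_sub A₂ h₂
  have i₃ := AddSubgroup.finite_quotient_of_finiteIndex (H := A₃)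
  obtain ⟨b, hb⟩ := exists_ne (0 : A₂)
  let F : A₁ → ((ZMod p)[X] ⧸ A₃ → ZMod p) := fun a q => lam p (a * b * q.out)
  obtain ⟨a, a', hne, hF⟩ := Finite.exists_ne_map_eq_of_infinite F
  have hab : ((a : (ZMod p)[X]) - a') * b ≠ 0 := by
    apply mul_ne_zero
    · rw [Ne, sub_eq_zero]
      exact fun h => hne (Subtype.ext h)
    · exact fun h => hb (Subtype.ext h)
  obtain ⟨c, hc⟩ := nondeg p _ hab
  apply hc
  have key : ∀ a : A₁, lam p ((a : (ZMod p)[X]) * b * c) = F a (c : (ZMod p)[X] ⧸ A₃) := by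
    intro a
    have hmem : -((c : (ZMod p)[X] ⧸ A₃).out) + c ∈ A₃ := by
      rw [← QuotientAddGroup.eq]
      exact QuotientAddGroup.out_eq' _
    have h1 := hcon a a.2 b b.2 _ hmem
    rw [chi_eq_one] at h1
    have e : (a : (ZMod p)[X]) * b * c =
        a * b * (-((c : (ZMod p)[X] ⧸ A₃).out) + c) + a * b * (c : (ZMod p)[X] ⧸ A₃).out := by ring
    rw [e, lam_add, h1, zero_add]
  rw [chi_eq_one, sub_mul, sub_mul, lam_sub, key, key, hF, sub_self]

end CHI

/-- CHI: the additive character of `F_p[t]`. -/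
theorem pCHI : StChi := by
  intro p _
  refine ⟨fun f g => ?_, ?_, fun f => ?_, fun f => ?_, fun g hg => CHI.nondeg p g hg,
    fun A₁ A₂ A₃ h₁ h₂ h₃ => CHI.triple p A₁ A₂ A₃ h₁ h₂ h₃⟩
  · unfold chi
    rw [CHI.lam_add, AddChar.map_add_eq_mul]
  · rw [CHI.chi_eq_one, CHI.lam_zero]
  · unfold chi
    exact AddChar.norm_apply _ _
  · unfold chi
    rw [CHI.lam_neg, AddChar.map_neg_eq_conj]
    rfl

end Helper53.NG
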