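import Pool.Agent.Helper53.NG.StG

/-!
# Project NG: module CHN
-/

namespace Helper53.NG

open Polynomial

namespace CHN

variable (p : ℕ) [Fact p.Prime]

/-- Membership in `PG` of the elements of `GP`. -/
lemma mem_P (g : GP p) : (g : (Matrix Ix Ix (ZMod p)[X])ˣ × (Matrix Ix Ix (ZMod p)[X])ˣ).1 ∈ PG (SS p) :=
  g.2.1

/-- The first, second and third coordinates. -/
noncomputable def c1 (g : GP p) : (ZMod p)[X] := t1 (g : (Matrix Ix Ix (ZMod p)[X])ˣ × (Matrix Ix Ix (ZMod p)[X])ˣ).1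
noncomputable def c2 (g : GP p) : (ZMod p)[X] := t2 (g : (Matrix Ix Ix (ZMod p)[X])ˣ × (Matrix Ix Ix (ZMod p)[X])ˣ).1
noncomputable def c3 (g : GP p) : (ZMod p)[X] := t3 (g : (Matrix Ix Ix (ZMod p)[X])ˣ × (Matrix Ix Ix (ZMod p)[X])ˣ).1

lemma c1_mul (g h : GP p) : c1 p (g * h) = c1 p g + c1 p h := t1_mul (SS_le p) (mem_P p g) (mem_P p h)
lemma c2_mul (g h : GP p) : c2 p (g * h) = c2 p g + c2 p h := t2_mul (SS_le p) (mem_P p g) (mem_P p h)
lemma c3_mul (g h : GP p) : c3 p (g * h) = c3 p g + c3 p h := t3_mul (SS_le p) (mem_P p g) (mem_P p h)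
lemma c1_inv (g : GP p) : c1 p g⁻¹ = -c1 p g := (t_inv (SS_le p) (mem_P p g)).1
lemma c2_inv (g : GP p) : c2 p g⁻¹ = -c2 p g := (t_inv (SS_le p) (mem_P p g)).2.1
lemma c3_inv (g : GP p) : c3 p g⁻¹ = -c3 p g := (t_inv (SS_le p) (mem_P p g)).2.2.1
lemma c1_one : c1 p 1 = 0 := (t_one (A := (ZMod p)[X])).1
lemma c2_one : c2 p 1 = 0 := (t_one (A := (ZMod p)[X])).2.1
lemma c3_one : c3 p 1 = 0 := (t_one (A := (ZMod p)[X])).2.2.1

/-- The chain of subgroups. -/
def Gj (j : ℕ) : Subgroup (GP p) where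
  carrier := {g | c1 p g ∈ degreeLT (ZMod p) j ∧ c2 p g ∈ degreeLT (ZMod p) j ∧
    c3 p g ∈ degreeLT (ZMod p) j}
  mul_mem' := by
    rintro g h ⟨g1, g2, g3⟩ ⟨h1, h2, h3⟩
    refine ⟨?_, ?_, ?_⟩
    · rw [c1_mul]; exact Submodule.add_mem _ g1 h1
    · rw [c2_mul]; exact Submodule.add_mem _ g2 h2
    · rw [c3_mul]; exact Submodule.add_mem _ g3 h3
  one_mem' := by
    refine ⟨?_, ?_, ?_⟩
    · rw [c1_one]; exact Submodule.zero_mem _
    · rw [c2_one]; exact Submodule.zero_mem _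
    · rw [c3_one]; exact Submodule.zero_mem _
  inv_mem' := by
    rintro g ⟨g1, g2, g3⟩
    refine ⟨?_, ?_, ?_⟩
    · rw [c1_inv]; exact Submodule.neg_mem _ g1
    · rw [c2_inv]; exact Submodule.neg_mem _ g2
    · rw [c3_inv]; exact Submodule.neg_mem _ g3

lemma mem_Gj {j : ℕ} {g : GP p} : g ∈ Gj p j ↔ c1 p g ∈ degreeLT (ZMod p) j ∧
    c2 p g ∈ degreeLT (ZMod p) j ∧ c3 p g ∈ degreeLT (ZMod p) j := Iff.rfl

/-- The coefficients at `j`. -/
noncomputable def cf (j : ℕ) (g : GP p) : ZMod p × ZMod p × ZMod p :=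
  ((c1 p g).coeff j, (c2 p g).coeff j, (c3 p g).coeff j)

lemma lt_of_coeff {j : ℕ} {f : (ZMod p)[X]} (h : f ∈ degreeLT (ZMod p) (j + 1)) (h0 : f.coeff j = 0) :
    f ∈ degreeLT (ZMod p) j := by
  rw [mem_degreeLT] at h ⊢
  rw [Polynomial.degree_lt_iff_coeff_zero] at h ⊢
  intro m hm
  rcases Nat.eq_or_lt_of_le hm with rfl | h1
  · exact h0
  · exact h m h1

lemma mem_of_nat (f : (ZMod p)[X]) {n : ℕ} (h : f.natDegree < n) : f ∈ degreeLT (ZMod p) n := by
  rw [mem_degreeLT]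
  exact lt_of_le_of_lt degree_le_natDegree (by exact_mod_cast h)

lemma zero_of {f : (ZMod p)[X]} (h : f ∈ degreeLT (ZMod p) 0) : f = 0 := by
  rw [mem_degreeLT] at h
  by_contra h0
  have := zero_le_degree_iff.2 h0
  exact absurd h (not_lt.2 (by simpa using this))

lemma el_mem (d : (ZMod p)[X]) : el (.v 3) (.w 3) (by decide) d ∈ PG (SS p) := by
  have key : ∀ e : (ZMod p)[X], BF (SS p) (Matrix.transvection (Ix.v 3) (Ix.w 3) e) := by
    intro e
    refine ⟨1, (SS p).one_mem, fun i j hij => ?_⟩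
    rw [Units.val_one, dg_one, Matrix.transvection, Matrix.add_apply, Matrix.single_apply]
    rw [if_neg, add_zero]
    rintro ⟨rfl, rfl⟩
    simp [lvl] at hij
  exact ⟨key d, key (-d)⟩

lemma el_t (d : (ZMod p)[X]) : t1 (el (.v 3) (.w 3) (by decide) d) = 0 ∧
    t2 (el (.v 3) (.w 3) (by decide) d) = 0 ∧ t3 (el (.v 3) (.w 3) (by decide) d) = 0 ∧
    t4 (el (.v 3) (.w 3) (by decide) d) = d := by
  refine ⟨?_, ?_, ?_, ?_⟩
  · show Matrix.transvection (Ix.v 3) (Ix.w 3) d .q (.w 3) = 0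
    simp [Matrix.transvection]
  · show Matrix.transvection (Ix.v 3) (Ix.w 3) d .o (.v 3) = 0
    simp [Matrix.transvection]
  · show Matrix.transvection (Ix.v 3) (Ix.w 3) d (.v 3) .q = 0
    simp [Matrix.transvection]
  · show Matrix.transvection (Ix.v 3) (Ix.w 3) d (.v 3) (.w 3) = d
    simp [Matrix.transvection]

/-- An element of `P` with vanishing `t₁, t₂, t₃` is an element of `K'` times `τ₄(t₄)`. -/
lemma fac {g : (Matrix Ix Ix (ZMod p)[X])ˣ} (hg : g ∈ PG (SS p)) (h1 : t1 g = 0) (h2 : t2 g = 0)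
    (h3 : t3 g = 0) : g * (el (.v 3) (.w 3) (by decide) (t4 g))⁻¹ ∈ KK p := by
  have hS := SS_le p
  have he := el_mem p (t4 g)
  obtain ⟨e1, e2, e3, e4⟩ := el_t p (t4 g)
  have hi := (PG (SS p)).inv_mem he
  obtain ⟨i1, i2, i3, i4⟩ := t_inv hS he
  refine ⟨(PG (SS p)).mul_mem hg hi, ?_, ?_, ?_, ?_⟩
  · rw [t1_mul hS hg hi, i1, e1, h1]; simp
  · rw [t2_mul hS hg hi, i2, e2, h2]; simp
  · rw [t3_mul hS hg hi, i3, e3, h3]; simp
  · rw [t4_mul hS hg hi, i4, e4, e3, h3]; simp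

end CHN

open CHN in
theorem pCHN : StChn := by
  classical
  intro p hp
  refine ⟨Gj p, Fintype.card (ZMod p × ZMod p × ZMod p), ?_, ?_, ?_, ?_⟩
  · intro i j hij g hg
    exact ⟨degreeLT_mono hij hg.1, degreeLT_mono hij hg.2.1, degreeLT_mono hij hg.2.2⟩
  · intro g
    refine ⟨(c1 p g).natDegree + (c2 p g).natDegree + (c3 p g).natDegree + 1, ?_, ?_, ?_⟩
    · exact mem_of_nat p _ (by omega)
    · exact mem_of_nat p _ (by omega)
    · exact mem_of_nat p _ (by omega)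
  · intro j
    let f : ZMod p × ZMod p × ZMod p → GP p := fun v =>
      if h : ∃ g ∈ Gj p (j + 1), cf p j g = v then h.choose else 1
    have hf : ∀ v, f v ∈ Gj p (j + 1) := by
      intro v
      by_cases h : ∃ g ∈ Gj p (j + 1), cf p j g = v
      · simp only [f, dif_pos h]
        exact h.choose_spec.1
      · simp only [f, dif_neg h]
        exact (Gj p (j + 1)).one_mem
    refine ⟨Finset.univ.image f, ?_, ?_, ?_⟩
    · exact Finset.card_image_le.trans (le_of_eq Finset.card_univ)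
    · intro g hg
      obtain ⟨v, -, rfl⟩ := Finset.mem_image.1 hg
      exact hf v
    · intro g hg
      refine ⟨f (cf p j g), Finset.mem_image_of_mem _ (Finset.mem_univ _), ?_⟩
      have hex : ∃ g' ∈ Gj p (j + 1), cf p j g' = cf p j g := ⟨g, hg, rfl⟩
      have h1 : cf p j (f (cf p j g)) = cf p j g := by
        simp only [f, dif_pos hex]
        exact hex.choose_spec.2
      have h2 : (f (cf p j g))⁻¹ * g ∈ Gj p (j + 1) :=
        (Gj p (j + 1)).mul_mem ((Gj p (j + 1)).inv_mem (hf _)) hg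
      simp only [cf, Prod.mk.injEq] at h1
      refine ⟨lt_of_coeff p h2.1 ?_, lt_of_coeff p h2.2.1 ?_, lt_of_coeff p h2.2.2 ?_⟩
      · rw [c1_mul, c1_inv, coeff_add, coeff_neg]
        exact (neg_add_eq_zero).2 h1.1
      · rw [c2_mul, c2_inv, coeff_add, coeff_neg]
        exact (neg_add_eq_zero).2 h1.2.1
      · rw [c3_mul, c3_inv, coeff_add, coeff_neg]
        exact (neg_add_eq_zero).2 h1.2.2
  · rintro ⟨⟨g, g'⟩, hg⟩ ⟨h1, h2, h3⟩
    obtain ⟨g0, g0', e1, e2, e3, e4⟩ := hg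
    have z1 : t1 g = 0 := zero_of p h1
    have z2 : t2 g = 0 := zero_of p h2
    have z3 : t3 g = 0 := zero_of p h3
    simp only at e1 e2 e3 e4 g0 g0'
    have z1' : t1 g' = 0 := e1 ▸ z1
    have z2' : t2 g' = 0 := e2 ▸ z2
    have z3' : t3 g' = 0 := e3 ▸ z3
    have k := fac p g0 z1 z2 z3
    have k' := fac p g0' z1' z2' z3'
    rw [← e4] at k'
    refine ⟨⟨_, k⟩, ⟨_, k'⟩, t4 g, ?_⟩
    simp only [inv_mul_cancel_right]

end Helper53.NG
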