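import Pool.Agent.Helper53.NG.StA

/-!
# Project NG, module CMP: comparison of projections in a prime algebra
-/

set_option autoImplicit false

namespace Helper53.NG

open Helper51.MU Helper61.IE Filter Topology
open scoped Matrix.Norms.L2Operator MatrixOrder ComplexOrder

attribute [local irreducible] Helper51.MU.instRingMUlt

namespace CMP

/-! ## an exhaustion principle -/

lemma exhaust {α : Type*} (S : α → Prop) (r : α → α → Prop) (t : α → ℝ) (B : ℝ) (x0 : α)
    (h0 : S x0) (hB : ∀ x, S x → t x ≤ B) (hrefl : ∀ x, S x → r x x)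
    (htrans : ∀ x y z, S x → S y → S z → r x y → r y z → r x z)
    (hmono : ∀ x y, S x → S y → r x y → t x ≤ t y)
    (hsup : ∀ x : ℕ → α, (∀ k, S (x k)) → (∀ k, r (x k) (x (k + 1))) →
      (∀ k, t (x (k + 1)) - t (x k) ≤ (1 / 16) ^ k) → ∃ y, S y ∧ ∀ k, r (x k) y) :
    ∃ m, S m ∧ ∀ y, S y → r m y → t y ≤ t m := by
  have step : ∀ (k : ℕ) (x : {x // S x}), ∃ y : {x // S x}, r x.1 y.1 ∧
      ∀ z, S z → r x.1 z → t z ≤ t y.1 + (1 / 16) ^ k := by
    rintro k ⟨x, hx⟩
    let A : Set ℝ := {s | ∃ z, S z ∧ r x z ∧ t z = s}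
    have hne : A.Nonempty := ⟨t x, x, hx, hrefl x hx, rfl⟩
    have hbd : BddAbove A := ⟨B, by rintro s ⟨z, hz, -, rfl⟩; exact hB z hz⟩
    have hpos : (0 : ℝ) < (1 / 16) ^ k := by positivity
    obtain ⟨s, ⟨y, hy, hxy, rfl⟩, hs⟩ := exists_lt_of_lt_csSup hne
      (show sSup A - (1 / 16) ^ k < sSup A by linarith)
    refine ⟨⟨y, hy⟩, hxy, fun z hz hxz => ?_⟩
    have := le_csSup hbd (show t z ∈ A from ⟨z, hz, hxz, rfl⟩)
    show t z ≤ t y + (1 / 16) ^ k
    linarith
  choose F hF1 hF2 using step
  let X : ℕ → {x // S x} := fun n => Nat.rec (F 0 ⟨x0, h0⟩) (fun k x => F (k + 1) x) n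
  have hX : ∀ k, r (X k).1 (X (k + 1)).1 := fun k => hF1 (k + 1) (X k)
  have hP : ∀ k, ∃ w, S w ∧ r w (X k).1 ∧ ∀ z, S z → r w z → t z ≤ t (X k).1 + (1 / 16) ^ k := by
    intro k
    cases k with
    | zero => exact ⟨x0, h0, hF1 0 ⟨x0, h0⟩, hF2 0 ⟨x0, h0⟩⟩
    | succ k => exact ⟨(X k).1, (X k).2, hF1 (k + 1) (X k), hF2 (k + 1) (X k)⟩
  obtain ⟨y, hy, hXy⟩ := hsup (fun k => (X k).1) (fun k => (X k).2) hX (fun k => by
    obtain ⟨w, hw, hwX, h⟩ := hP k
    have := h _ (X (k + 1)).2 (htrans w _ _ hw (X k).2 (X (k + 1)).2 hwX (hX k))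
    linarith)
  refine ⟨y, hy, fun z hz hyz => ?_⟩
  have h1 : ∀ k : ℕ, t z ≤ t y + (1 / 16) ^ k := by
    intro k
    obtain ⟨w, hw, hwX, h⟩ := hP k
    have h2 := h z hz (htrans w _ _ hw (X k).2 hz hwX
      (htrans _ y _ (X k).2 hy hz (hXy k) hyz))
    have h3 := hmono _ _ (X k).2 hy (hXy k)
    linarith
  have h2 : Tendsto (fun k : ℕ => t y + (1 / 16 : ℝ) ^ k) atTop (𝓝 (t y + 0)) :=
    (tendsto_pow_atTop_nhds_zero_of_lt_one (by norm_num) (by norm_num)).const_add _
  rw [add_zero] at h2
  exact ge_of_tendsto' h2 h1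

section

variable {ι : ℕ → Type} [∀ n, Fintype (ι n)] [∀ n, DecidableEq (ι n)] {U : Ultrafilter ℕ}

/-! ## limits in the 2-norm -/

/-- convergence in the 2-norm -/
def Lim (a : ℕ → MUlt ι U) (a0 : MUlt ι U) : Prop :=
  Tendsto (fun k => Helper61.IE.nrm (a k - a0)) atTop (𝓝 0)

lemma Lim.unique {a : ℕ → MUlt ι U} {b c : MUlt ι U} (h1 : Lim a b) (h2 : Lim a c) : b = c := by
  have h3 : Tendsto (fun k => 2 * Helper61.IE.nrm (a k - b) + 2 * Helper61.IE.nrm (a k - c)) atTop
      (𝓝 (2 * 0 + 2 * 0)) := (h1.const_mul 2).add (h2.const_mul 2)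
  rw [mul_zero, add_zero] at h3
  have h4 : Helper61.IE.nrm (b - c) ≤ 0 := by
    refine ge_of_tendsto' h3 fun k => ?_
    have e : b - c = (a k - c) - (a k - b) := by abel
    rw [e]
    have := nrm_sub_le (a k - c) (a k - b)
    linarith
  exact sub_eq_zero.1 (nrm_eq_zero.1 (le_antisymm h4 (nrm_nonneg _)))

lemma Lim.of_le {a : ℕ → MUlt ι U} {b : MUlt ι U} {s : ℕ → ℝ} (hs : Tendsto s atTop (𝓝 0))
    (h : ∀ k, Helper61.IE.nrm (a k - b) ≤ s k) : Lim a b :=
  squeeze_zero (fun _ => nrm_nonneg _) h hs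

lemma Lim.mul_right {a : ℕ → MUlt ι U} {b : MUlt ι U} (h : Lim a b) (c : MUlt ι U) :
    Lim (fun k => a k * c) (b * c) := by
  obtain ⟨C, -, hc⟩ := exists_NB c
  refine Lim.of_le (s := fun k => C ^ 2 * Helper61.IE.nrm (a k - b)) ?_ fun k => ?_
  · have := Filter.Tendsto.const_mul (C ^ 2) h
    rwa [mul_zero] at this
  · rw [← sub_mul]
    exact nrm_mul_le' hc _

lemma Lim.mul_left {a : ℕ → MUlt ι U} {b : MUlt ι U} (h : Lim a b) (c : MUlt ι U) :
    Lim (fun k => c * a k) (c * b) := by
  obtain ⟨C, -, hc⟩ := exists_NB c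
  refine Lim.of_le (s := fun k => C ^ 2 * Helper61.IE.nrm (a k - b)) ?_ fun k => ?_
  · have := Filter.Tendsto.const_mul (C ^ 2) h
    rwa [mul_zero] at this
  · rw [← mul_sub]
    exact nrm_mul_le hc _

lemma Lim.star {a : ℕ → MUlt ι U} {b : MUlt ι U} (h : Lim a b) :
    Lim (fun k => Star.star (a k)) (Star.star b) := by
  refine Lim.of_le h fun k => ?_
  rw [← star_sub, nrm_star]

lemma Lim.mul {a a' : ℕ → MUlt ι U} {b b' : MUlt ι U} {C : ℝ} (h : Lim a b) (h' : Lim a' b')
    (hC : ∀ k, NB C (a k)) : Lim (fun k => a k * a' k) (b * b') := by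
  obtain ⟨C', -, hb⟩ := exists_NB b'
  refine Lim.of_le (s := fun k => 2 * (C ^ 2 * Helper61.IE.nrm (a' k - b')) +
    2 * (C' ^ 2 * Helper61.IE.nrm (a k - b))) ?_ fun k => ?_
  · have h1 := Filter.Tendsto.const_mul 2 (Filter.Tendsto.const_mul (C ^ 2) h')
    have h2 := Filter.Tendsto.const_mul 2 (Filter.Tendsto.const_mul (C' ^ 2) h)
    have h3 := h1.add h2
    rwa [mul_zero, mul_zero, mul_zero, mul_zero, add_zero] at h3
  · have e : a k * a' k - b * b' = a k * (a' k - b') + (a k - b) * b' := by
      rw [mul_sub, sub_mul]; abel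
    rw [e]
    refine (nrm_add_le _ _).trans ?_
    have h1 := nrm_mul_le (hC k) (a' k - b')
    have h2 := nrm_mul_le' hb (a k - b)
    linarith

lemma Lim.const (b : MUlt ι U) : Lim (fun _ => b) b := by
  unfold Lim
  simp only [sub_self, nrm_zero]
  exact tendsto_const_nhds

lemma Lim.congr' {a a' : ℕ → MUlt ι U} {b : MUlt ι U} (h : Lim a b) (N : ℕ)
    (he : ∀ k, N ≤ k → a k = a' k) : Lim a' b := by
  refine Filter.Tendsto.congr' ?_ h
  filter_upwards [eventually_ge_atTop N] with k hk
  rw [he k hk]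

lemma Lim.mem {D : Set (MUlt ι U)} (hD : IsVN D) {a : ℕ → MUlt ι U} {b : MUlt ι U} (h : Lim a b)
    (ha : ∀ k, a k ∈ D) : b ∈ D := by
  refine hD.closed b fun ε hε => ?_
  have := (Filter.Tendsto.eventually_lt_const hε h).exists
  obtain ⟨k, hk⟩ := this
  exact ⟨a k, ha k, by rw [nrm_sub_comm]; exact hk⟩

/-! ## partial isometries -/

lemma mul_proj {W : MUlt ι U} (h : Pj (star W * W)) : W * (star W * W) = W := by
  obtain ⟨h1, h2⟩ := h
  have h3 : Helper61.IE.nrm (W * (star W * W) - W) = 0 := by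
    unfold Helper61.IE.nrm
    have e : star (W * (star W * W) - W) * (W * (star W * W) - W) = 0 := by
      rw [star_sub, star_mul, h1]
      have e1 : (star W * W * star W - star W) * (W * (star W * W) - W) =
          (star W * W) * (star W * W) * (star W * W) - (star W * W) * (star W * W) -
            (star W * W) * (star W * W) + star W * W := by noncomm_ring
      rw [e1, h2, h2]
      abel
    rw [e, tr_zero, Complex.zero_re]
  exact sub_eq_zero.1 (nrm_eq_zero.1 h3)

/-- the order of partial isometries -/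
def Le (W W' : MUlt ι U) : Prop := W' * (star W * W) = W

lemma Le.proj {W W' : MUlt ι U} (h : Pj (star W * W)) (h' : Pj (star W' * W')) (hle : Le W W') :
    (star W * W) * (star W' * W') * (star W * W) = star W * W ∧
      star W' * W' * (star W * W) = star W * W := by
  obtain ⟨h1, h2⟩ := h
  obtain ⟨h1', h2'⟩ := h'
  unfold Le at hle
  have e1 : (star W * W) * (star W' * W') * (star W * W) = star W * W := by
    have e2 : star (W' * (star W * W)) * (W' * (star W * W)) = star W * W := by rw [hle]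
    rw [star_mul, h1] at e2
    calc (star W * W) * (star W' * W') * (star W * W) =
        star W * W * star W' * (W' * (star W * W)) := by noncomm_ring
      _ = star W * W := e2
  refine ⟨e1, ?_⟩
  have h3 : Helper61.IE.nrm (star W' * W' * (star W * W) - star W * W) = 0 := by
    unfold Helper61.IE.nrm
    have e : star (star W' * W' * (star W * W) - star W * W) *
        (star W' * W' * (star W * W) - star W * W) = 0 := by
      rw [star_sub, star_mul, h1, h1']
      generalize star W * W = e at *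
      generalize star W' * W' = e' at *
      have e3 : (e * e' - e) * (e' * e - e) = e * (e' * e') * e - e * e' * e - e * e' * e +
          e * e := by noncomm_ring
      rw [e3, h2', h2, e1]
      rw [sub_self, zero_sub, neg_add_cancel]
    rw [e, tr_zero, Complex.zero_re]
  exact sub_eq_zero.1 (nrm_eq_zero.1 h3)

lemma Le.trans {W W' W'' : MUlt ι U} (h : Pj (star W * W)) (h' : Pj (star W' * W'))
    (h1 : Le W W') (h2 : Le W' W'') : Le W W'' := by
  have h3 := (h1.proj h h').2
  unfold Le at *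
  calc W'' * (star W * W) = W'' * (star W' * W' * (star W * W)) := by rw [h3]
    _ = (W'' * (star W' * W')) * (star W * W) := by noncomm_ring
    _ = W := by rw [h2, h1]

lemma Le.nrm_sub {W W' : MUlt ι U} (h : Pj (star W * W)) (h' : Pj (star W' * W'))
    (hle : Le W W') :
    Helper61.IE.nrm (W' - W) = Helper61.IE.nrm W' - Helper61.IE.nrm W := by
  have h3 := (hle.proj h h').2
  have h4 : star W' * W = star W * W := by
    have e : star W' * (W' * (star W * W)) = star W' * W := by rw [hle]
    rw [← e, ← mul_assoc, h3]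
  have h5 : star W * W' = star W * W := by
    have := congrArg star h4
    rw [star_mul, star_mul, star_star, star_star] at this
    exact this
  unfold Helper61.IE.nrm
  have e : star (W' - W) * (W' - W) = star W' * W' - star W * W := by
    rw [star_sub, sub_mul, mul_sub, mul_sub, h4, h5]
    abel
  rw [e, tr_sub, Complex.sub_re]

/-- the set of partial isometries of `D` from `q` to `p` -/
structure IsS (D : Set (MUlt ι U)) (p q W : MUlt ι U) : Prop where
  mem : W ∈ D
  pj : Pj (star W * W)
  wq : W * q = W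
  pw : p * W = W

lemma exists_max (hNB1 : StNB1) (hCom : StCom) (hU : Nonprincipal U) {D : Set (MUlt ι U)}
    (hD : IsVN D) (p q : MUlt ι U) :
    ∃ W, IsS D p q W ∧ ∀ W', IsS D p q W' → Le W W' → Helper61.IE.nrm W' ≤
      Helper61.IE.nrm W := by
  have hS1 : ∀ W, IsS D p q W → NB 1 W := fun W hW => hNB1 ι U W hW.pj
  refine exhaust (IsS D p q) Le (fun W => Helper61.IE.nrm W) 1 0 ?_ ?_ ?_ ?_ ?_ ?_
  · refine ⟨hD.zero, ⟨?_, ?_⟩, zero_mul q, mul_zero p⟩
    · rw [mul_zero, star_zero]
    · rw [mul_zero, mul_zero]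
  · intro W hW
    have := nrm_le_of_NB (hS1 W hW)
    rwa [one_pow] at this
  · intro W hW
    exact mul_proj hW.pj
  · intro W W' W'' hW hW' _ h1 h2
    exact h1.trans hW.pj hW'.pj h2
  · intro W W' hW hW' h
    have h1 := h.nrm_sub hW.pj hW'.pj
    have h2 := nrm_nonneg (W' - W)
    linarith
  · intro x hx hr ht
    obtain ⟨y, hy1, hy⟩ := hCom ι U hU x 1 (fun k => hS1 _ (hx k)) (fun k => by
      rw [(hr k).nrm_sub (hx k).pj (hx (k + 1)).pj]
      exact ht k)
    have hL : Lim x y := hy
    have hle : ∀ k j, k ≤ j → Le (x k) (x j) := by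
      intro k j hkj
      induction j, hkj using Nat.le_induction with
      | base => exact mul_proj (hx k).pj
      | succ j _ ih => exact ih.trans (hx k).pj (hx j).pj (hr j)
    have hyy : y * (star y * y) = y := by
      have h1 : Lim (fun k => x k * (star (x k) * x k)) (y * (star y * y)) := by
        refine Lim.mul hL (Lim.mul hL.star hL fun k => (hS1 _ (hx k)).star) fun k => hS1 _ (hx k)
      have h2 : Lim x (y * (star y * y)) := h1.congr' 0 fun k _ => mul_proj (hx k).pj
      exact h2.unique hL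
    refine ⟨y, ⟨hL.mem hD fun k => (hx k).mem, ⟨?_, ?_⟩, ?_, ?_⟩, fun k => ?_⟩
    · rw [star_mul, star_star]
    · calc star y * y * (star y * y) = star y * (y * (star y * y)) := by noncomm_ring
        _ = star y * y := by rw [hyy]
    · exact ((hL.mul_right q).congr' 0 fun k _ => (hx k).wq).unique hL
    · exact ((hL.mul_left p).congr' 0 fun k _ => (hx k).pw).unique hL
    · have h1 := (hL.mul_right (star (x k) * x k)).congr' (a' := fun _ => x k) k
        fun j hj => hle k j hj
      exact h1.unique (Lim.const (x k))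

end

end CMP

open CMP in
theorem pCMP : StCMP := by
  intro hNB1 hCom hPOL ι _ _ U hU D hD hPr p hp q hq hpP hqP hpq
  obtain ⟨W, hW, hmax⟩ := exists_max hNB1 hCom hU hD p q
  obtain ⟨hWD, hWP, hWq, hpW⟩ := hW
  refine ⟨W, hWD, ?_, hpW⟩
  by_contra hne
  have hWe := mul_proj hWP
  have hsD := hD.star W hWD
  -- e = W* W, r = W W*
  have hqe : q * (star W * W) = star W * W := by
    have h1 := congrArg star hWq
    rw [star_mul, hqP.1] at h1
    rw [← mul_assoc, h1]
  have heq : (star W * W) * q = star W * W := by rw [mul_assoc, hWq]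
  have hr1 : star (W * star W) = W * star W := by rw [star_mul, star_star]
  have hr2 : (W * star W) * (W * star W) = W * star W := by
    calc (W * star W) * (W * star W) = W * (star W * W) * star W := by noncomm_ring
      _ = W * star W := by rw [hWe]
  have hpr : p * (W * star W) = W * star W := by rw [← mul_assoc, hpW]
  have hrp : (W * star W) * p = W * star W := by
    have h1 := congrArg star hpr
    rwa [star_mul, hr1, hpP.1] at h1
  set q' := q - star W * W with hq'
  set p' := p - W * star W with hp'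
  have hq'P : Pj q' := by
    refine ⟨by rw [hq', star_sub, hqP.1, hWP.1], ?_⟩
    rw [hq', sub_mul, mul_sub, mul_sub, hqP.2, hqe, heq, hWP.2]
    abel
  have hp'P : Pj p' := by
    refine ⟨by rw [hp', star_sub, hpP.1, hr1], ?_⟩
    rw [hp', sub_mul, mul_sub, mul_sub, hpP.2, hpr, hrp, hr2]
    abel
  have hq'0 : q' ≠ 0 := fun h => hne (sub_eq_zero.1 h).symm
  have hτ : (tr q').re ≤ (tr p').re := by
    rw [hq', hp', tr_sub, tr_sub, tr_mul_comm W, Complex.sub_re, Complex.sub_re]
    linarith
  have hp'0 : p' ≠ 0 := by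
    intro h
    have h1 := hq'P.tr_pos hq'0
    rw [h, tr_zero, Complex.zero_re] at hτ
    linarith
  have hq'D : q' ∈ D := hD.sub hq (hD.mul _ hsD _ hWD)
  have hp'D : p' ∈ D := hD.sub hp (hD.mul _ hWD _ hsD)
  obtain ⟨d, hd, hy0⟩ : ∃ d ∈ D, p' * d * q' ≠ 0 := by
    by_contra hcon
    push Not at hcon
    rcases hPr p' hp'D q' hq'D hcon with h | h
    · exact hp'0 h
    · exact hq'0 h
  set y := p' * d * q' with hy
  have hyD : y ∈ D := hD.mul _ (hD.mul _ hp'D _ hd) _ hq'D
  obtain ⟨g, hg, h, hh, hwP, hw0, hf1, hf2⟩ := hPOL ι U hU D hD y hyD hy0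
  set w := y * g with hw
  have hwD : w ∈ D := hD.mul _ hyD _ hg
  have hp'y : p' * y = y := by
    rw [hy, ← mul_assoc, ← mul_assoc, hp'P.2]
  have hyq' : y * q' = y := by rw [hy, mul_assoc, hq'P.2]
  have hq'y : q' * star y = star y := by
    have h1 := congrArg star hyq'
    rwa [star_mul, hq'P.1] at h1
  have hp'w : p' * w = w := by rw [hw, ← mul_assoc, hp'y]
  have hq'f : q' * (star w * w) = star w * w := by
    rw [hf2, ← mul_assoc, ← mul_assoc, hq'y]
  have hfq' : (star w * w) * q' = star w * w := by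
    have h1 := congrArg star hq'f
    rwa [star_mul, hwP.1, hq'P.1] at h1
  have hwf := mul_proj hwP
  have hwq' : w * q' = w := by
    calc w * q' = (w * (star w * w)) * q' := by rw [hwf]
      _ = w * ((star w * w) * q') := by noncomm_ring
      _ = w := by rw [hfq', hwf]
  have hq'q : q' * q = q' := by rw [hq', sub_mul, hqP.2, heq]
  have hq'e : q' * (star W * W) = 0 := by
    rw [hq', sub_mul, hqe, hWP.2, sub_self]
  have heq' : (star W * W) * q' = 0 := by
    have h1 := congrArg star hq'e
    rwa [star_mul, hWP.1, hq'P.1, star_zero] at h1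
  have hpp' : p * p' = p' := by rw [hp', mul_sub, hpP.2, hpr]
  have hwe : w * (star W * W) = 0 := by
    calc w * (star W * W) = (w * q') * (star W * W) := by rw [hwq']
      _ = w * (q' * (star W * W)) := by noncomm_ring
      _ = 0 := by rw [hq'e, mul_zero]
  have hp'W : p' * W = 0 := by
    rw [hp', sub_mul, hpW]
    have : W * star W * W = W := by rw [mul_assoc, hWe]
    rw [this, sub_self]
  have hsWp' : star W * p' = 0 := by
    have h1 := congrArg star hp'W
    rwa [star_mul, hp'P.1, star_zero] at h1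
  have hsWw : star W * w = 0 := by
    calc star W * w = star W * (p' * w) := by rw [hp'w]
      _ = (star W * p') * w := by noncomm_ring
      _ = 0 := by rw [hsWp', zero_mul]
  have hswW : star w * W = 0 := by
    have h1 := congrArg star hsWw
    rwa [star_mul, star_star, star_zero] at h1
  have hsum : star (W + w) * (W + w) = star W * W + star w * w := by
    rw [star_add, add_mul, mul_add, mul_add, hsWw, hswW]
    abel
  have hef : (star W * W) * (star w * w) = 0 := by
    calc (star W * W) * (star w * w) = (star W * W) * (q' * (star w * w)) := by rw [hq'f]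
      _ = ((star W * W) * q') * (star w * w) := by noncomm_ring
      _ = 0 := by rw [heq', zero_mul]
  have hfe : (star w * w) * (star W * W) = 0 := by
    rw [mul_assoc, hwe, mul_zero]
  have hS' : IsS D p q (W + w) := by
    refine ⟨hD.add _ hWD _ hwD, ?_, ?_, ?_⟩
    · rw [hsum]
      refine ⟨by rw [star_add, hWP.1, hwP.1], ?_⟩
      rw [add_mul, mul_add, mul_add, hWP.2, hwP.2, hef, hfe]
      abel
    · rw [add_mul, hWq]
      congr 1
      calc w * q = (w * q') * q := by rw [hwq']
        _ = w * (q' * q) := by noncomm_ring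
        _ = w := by rw [hq'q, hwq']
    · rw [mul_add, hpW]
      congr 1
      calc p * w = p * (p' * w) := by rw [hp'w]
        _ = (p * p') * w := by noncomm_ring
        _ = w := by rw [hpp', hp'w]
  have hle : Le W (W + w) := by
    unfold Le
    rw [add_mul, hWe, hwe, add_zero]
  have h1 := hmax _ hS' hle
  have h2 : Helper61.IE.nrm (W + w) = Helper61.IE.nrm W + (tr (star w * w)).re := by
    unfold Helper61.IE.nrm
    rw [hsum, tr_add, Complex.add_re]
  have h3 := hwP.tr_pos hw0
  linarith

end Helper53.NG
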