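import Pool.Agent.Helper53.NG.StA

/-!
# Project NG, module CNJ: conjugation type representations on the matrix ultraproduct
-/

namespace Helper53.NG

open Helper51.MU Helper61.IE Filter Topology
open scoped Matrix.Norms.L2Operator MatrixOrder ComplexOrder

attribute [local irreducible] Helper51.MU.instRingMUlt

namespace CNJ

variable {ι : ℕ → Type} [∀ n, Fintype (ι n)] [∀ n, DecidableEq (ι n)] {U : Ultrafilter ℕ}

lemma cnj_apply {K : Type} (α β : K → MUlt ι U) (k : K) (y : MUlt ι U) :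
    cnj α β k y = α k * y * star (β k) := rfl

lemma nrm_conj {a b : MUlt ι U} (ha : star a * a = 1) (hb : star b * b = 1) (y : MUlt ι U) :
    nrm (a * y * star b) = nrm y := by
  unfold nrm
  have e : star (a * y * star b) * (a * y * star b) = b * (star y * y * star b) := by
    rw [star_mul, star_mul, star_star]
    calc b * (star y * star a) * (a * y * star b) =
        b * (star y * (star a * a) * y * star b) := by simp only [mul_assoc]
      _ = b * (star y * y * star b) := by rw [ha, mul_one]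
  rw [e, tr_mul_comm, mul_assoc, hb, mul_one]

lemma form_eq (y : MUlt ι U) : (tr (star y * y)).re = nrm y := rfl

lemma wrep {K : Type} [Group K] (α β : K →* MUlt ι U) (hα : ∀ k, star (α k) * α k = 1)
    (hβ : ∀ k, star (β k) * β k = 1) :
    WRep (fun x y : MUlt ι U => tr (star x * y)) (cnj (fun k => α k) (fun k => β k)) where
  form := pform
  iso k v := by
    change nrm (α k * v * star (β k)) = nrm v
    exact nrm_conj (hα k) (hβ k) v
  mul k k' v := by
    have e : cnj (fun k => α k) (fun k => β k) k (cnj (fun k => α k) (fun k => β k) k' v) -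
        cnj (fun k => α k) (fun k => β k) (k * k') v = 0 := by
      rw [cnj_apply, cnj_apply, cnj_apply, map_mul, map_mul, star_mul]
      simp only [mul_assoc, sub_self]
    rw [e]
    exact nrm_zero
  one v := by
    have e : cnj (fun k => α k) (fun k => β k) 1 v - v = 0 := by
      rw [cnj_apply, map_one, map_one, star_one, mul_one, one_mul, sub_self]
    rw [e]
    exact nrm_zero

lemma NB_zero : NB 0 (0 : MUlt ι U) := by
  refine ⟨0, map_zero _, fun n => ?_⟩
  rw [zero_val, norm_zero]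

lemma NB_sum {J : Type} (s : Finset J) (f : J → MUlt ι U) (C : ℝ) (h : ∀ i ∈ s, NB C (f i)) :
    NB (s.card * C) (∑ i ∈ s, f i) := by
  classical
  induction s using Finset.induction_on with
  | empty => simpa using NB_zero
  | insert a s ha ih =>
    rw [Finset.sum_insert ha, Finset.card_insert_of_notMem ha]
    have h1 := (h a (Finset.mem_insert_self a s)).add
      (ih fun i hi => h i (Finset.mem_insert_of_mem hi))
    refine h1.mono (le_of_eq ?_)
    push_cast
    ring

lemma NB_T {K I : Type} [Group K] [Fintype I] [Nonempty I] {p : ℕ} (hp : 0 < p) (x : I → K)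
    (α β : K →* MUlt ι U) (hα : ∀ k, NB 1 (α k)) (hβ : ∀ k, NB 1 (β k)) {C : ℝ} {y : MUlt ι U}
    (hy : NB C y) : NB C (TAv p x (cnj (fun k => α k) (fun k => β k)) y) := by
  have hm : 0 < Fintype.card I := Fintype.card_pos
  have e : TAv p x (cnj (fun k => α k) (fun k => β k)) y =
      ((Fintype.card I : ℂ) * (p : ℂ))⁻¹ • ∑ i, ∑ j ∈ Finset.range p,
        cnj (fun k => α k) (fun k => β k) (x i ^ j) y := by
    unfold TAv
    rw [LinearMap.smul_apply, LinearMap.sum_apply]
    congr 1
    refine Finset.sum_congr rfl fun i _ => ?_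
    rw [LinearMap.sum_apply]
  rw [e]
  have h1 : NB (Fintype.card I * (p * C)) (∑ i, ∑ j ∈ Finset.range p,
      cnj (fun k => α k) (fun k => β k) (x i ^ j) y) := by
    refine NB_sum Finset.univ _ (p * C) fun i _ => ?_
    have h2 := NB_sum (Finset.range p) (fun j => cnj (fun k => α k) (fun k => β k) (x i ^ j) y) C
      (fun j _ => by
        have h3 := ((hα (x i ^ j)).mul hy).mul (hβ (x i ^ j)).star
        rw [one_mul, mul_one] at h3
        exact h3)
    rwa [Finset.card_range] at h2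
  have h4 := h1.smul ((Fintype.card I : ℂ) * (p : ℂ))⁻¹
  refine h4.mono (le_of_eq ?_)
  rw [norm_inv, norm_mul, Complex.norm_natCast, Complex.norm_natCast]
  have hm' : (Fintype.card I : ℝ) ≠ 0 := by exact_mod_cast hm.ne'
  have hp' : (p : ℝ) ≠ 0 := by exact_mod_cast hp.ne'
  field_simp

lemma NB_Tk {K I : Type} [Group K] [Fintype I] [Nonempty I] {p : ℕ} (hp : 0 < p) (x : I → K)
    (α β : K →* MUlt ι U) (hα : ∀ k, NB 1 (α k)) (hβ : ∀ k, NB 1 (β k)) {C : ℝ} {y : MUlt ι U}
    (hy : NB C y) (k : ℕ) : NB C ((TAv p x (cnj (fun k => α k) (fun k => β k)) ^ k) y) := by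
  induction k with
  | zero => simpa using hy
  | succ k ih =>
    rw [pow_succ', Module.End.mul_apply]
    exact NB_T hp x α β hα hβ ih

lemma Qf_le {K I : Type} [Group K] [Fintype I] {p : ℕ} {x : I → K}
    {ρ : K → MUlt ι U →ₗ[ℂ] MUlt ι U} {c : ℝ}
    (hT : TConcl p x (fun x y : MUlt ι U => tr (star x * y)) ρ c) (y : MUlt ι U) :
    Qf (fun x y : MUlt ι U => tr (star x * y)) (TAv p x ρ) y ≤ 2 * nrm y := by
  have h1 : nrm (TAv p x ρ y) ≤ nrm y := hT.contr y
  have h2 := norm_tr_mul_le (TAv p x ρ y) y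
  have h3 : ‖tr (star (TAv p x ρ y) * y)‖ ≤ nrm y := by
    have h4 : ‖tr (star (TAv p x ρ y) * y)‖ ^ 2 ≤ nrm y ^ 2 := by
      refine h2.trans ?_
      rw [sq]
      exact mul_le_mul_of_nonneg_right h1 (nrm_nonneg y)
    exact (pow_le_pow_iff_left₀ (norm_nonneg _) (nrm_nonneg y) two_ne_zero).1 h4
  have h5 : -(tr (star (TAv p x ρ y) * y)).re ≤ ‖tr (star (TAv p x ρ y) * y)‖ :=
    (neg_le_abs _).trans (Complex.abs_re_le_norm _)
  unfold Qf
  change nrm y - (tr (star (TAv p x ρ y) * y)).re ≤ 2 * nrm y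
  linarith

lemma fixed_all {K I : Type} [Group K] (x : I → K) (hgen : Subgroup.closure (Set.range x) = ⊤)
    (α β : K →* MUlt ι U) (y : MUlt ι U) (h : ∀ i, α (x i) * y = y * β (x i)) :
    ∀ k, α k * y = y * β k := by
  let H : Subgroup K :=
    { carrier := {k | α k * y = y * β k}
      mul_mem' := by
        intro a b ha hb
        change α (a * b) * y = y * β (a * b)
        have ha' : α a * y = y * β a := ha
        have hb' : α b * y = y * β b := hb
        rw [map_mul, map_mul, mul_assoc, hb', ← mul_assoc, ha', mul_assoc]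
      one_mem' := by
        change α 1 * y = y * β 1
        rw [map_one, map_one, one_mul, mul_one]
      inv_mem' := by
        intro a ha
        change α a⁻¹ * y = y * β a⁻¹
        have ha' : α a * y = y * β a := ha
        have h1 : α a⁻¹ * α a = 1 := by rw [← map_mul, inv_mul_cancel, map_one]
        have h2 : β a * β a⁻¹ = 1 := by rw [← map_mul, mul_inv_cancel, map_one]
        calc α a⁻¹ * y = α a⁻¹ * y * (β a * β a⁻¹) := by rw [h2, mul_one]
          _ = α a⁻¹ * (y * β a) * β a⁻¹ := by simp only [mul_assoc]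
          _ = α a⁻¹ * (α a * y) * β a⁻¹ := by rw [ha']
          _ = (α a⁻¹ * α a) * y * β a⁻¹ := by simp only [mul_assoc]
          _ = y * β a⁻¹ := by rw [h1, one_mul] }
  have hH : H = ⊤ := by
    rw [eq_top_iff, ← hgen, Subgroup.closure_le]
    rintro _ ⟨i, rfl⟩
    exact h i
  intro k
  have : k ∈ H := by rw [hH]; trivial
  exact this

end CNJ

open CNJ in
theorem pCNJ : StCNJ := by
  intro hT4 hNB1 hCom K I _ _ _ p x N ι _ _ U hU hD hI α β hα hβ
  have hW := wrep α β hα hβ
  obtain ⟨hc0, hc1, hT⟩ := hT4 K (MUlt ι U) I p x N _ _ hD hI hW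
  refine ⟨hc0, hc1, hW, hT, fun y C hy => ?_⟩
  have hp : 0 < p := hD.prime.pos
  have hNα : ∀ k, NB 1 (α k) := fun k => hNB1 ι U (α k) (by rw [hα k]; exact Pj.one)
  have hNβ : ∀ k, NB 1 (β k) := fun k => hNB1 ι U (β k) (by rw [hβ k]; exact Pj.one)
  set c := cT p (Fintype.card I) with hcdef
  set ρ := cnj (fun k => α k) (fun k => β k) with hρ
  set T := TAv p x ρ with hTdef
  set B : MUlt ι U → MUlt ι U → ℂ := fun x y => tr (star x * y) with hB
  have hQ0 : ∀ v, 0 ≤ Qf B T v := hT.nonneg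
  have hQ2 : Qf B T y ≤ 2 * nrm y := Qf_le hT y
  -- differences
  have hdist : ∀ k j : ℕ, nrm ((T ^ (k + j)) y - (T ^ k) y) ≤ 1 / c * ((1 - c) ^ (2 * k) * Qf B T y) := by
    intro k j
    have h1 : nrm ((T ^ j) ((T ^ k) y) - (T ^ k) y) ≤ 1 / c * Qf B T ((T ^ k) y) :=
      hT.dist j ((T ^ k) y)
    have h2 : Qf B T ((T ^ k) y) ≤ (1 - c) ^ (2 * k) * Qf B T y := hT.energy k y
    have e : (T ^ (k + j)) y = (T ^ j) ((T ^ k) y) := by
      rw [add_comm, pow_add, Module.End.mul_apply]
    rw [e]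
    exact h1.trans (mul_le_mul_of_nonneg_left h2 (by positivity))
  have hr0 : 0 ≤ 1 - c := by linarith
  have hr1 : 1 - c < 1 := by linarith
  -- the subsequence
  obtain ⟨N0, hN0⟩ := exists_pow_lt_of_lt_one (show (0 : ℝ) < 1 / 16 by norm_num) hr1
  have hQc : 0 < 1 / c * Qf B T y + 1 := by
    have := mul_nonneg (show (0 : ℝ) ≤ 1 / c by positivity) (hQ0 y)
    linarith
  obtain ⟨N1, hN1⟩ := exists_pow_lt_of_lt_one (show (0 : ℝ) < 1 / (1 / c * Qf B T y + 1) by positivity) hr1
  let nk : ℕ → ℕ := fun k => N1 + N0 * k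
  have hsub : ∀ k, nrm ((T ^ nk (k + 1)) y - (T ^ nk k) y) ≤ (1 / 16) ^ k := by
    intro k
    have e : nk (k + 1) = nk k + N0 := by simp only [nk]; ring
    rw [e]
    refine (hdist (nk k) N0).trans ?_
    have h1 : (1 - c) ^ (2 * nk k) ≤ (1 - c) ^ (nk k) :=
      pow_le_pow_of_le_one hr0 hr1.le (by omega)
    have h2 : (1 - c) ^ (nk k) ≤ (1 / (1 / c * Qf B T y + 1)) * (1 / 16) ^ k := by
      simp only [nk]
      rw [pow_add, pow_mul]
      exact mul_le_mul hN1.le (pow_le_pow_left₀ (pow_nonneg hr0 _) hN0.le k)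
        (pow_nonneg (pow_nonneg hr0 _) _) (by positivity)
    have h3 : 1 / c * Qf B T y ≤ 1 / c * Qf B T y + 1 := by linarith
    have h4 : 0 ≤ 1 / c * Qf B T y := mul_nonneg (by positivity) (hQ0 y)
    calc 1 / c * ((1 - c) ^ (2 * nk k) * Qf B T y) =
        (1 / c * Qf B T y) * (1 - c) ^ (2 * nk k) := by ring
      _ ≤ (1 / c * Qf B T y + 1) * ((1 / (1 / c * Qf B T y + 1)) * (1 / 16) ^ k) :=
        mul_le_mul h3 (h1.trans h2) (pow_nonneg hr0 _) hQc.le
      _ = (1 / 16) ^ k := by
        rw [← mul_assoc, mul_one_div_cancel hQc.ne', one_mul]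
  obtain ⟨y', hy'NB, hy'⟩ := hCom ι U hU (fun k => (T ^ nk k) y) C
    (fun k => NB_Tk hp x α β hNα hNβ hy (nk k)) hsub
  -- the rate
  have hrate : ∀ k : ℕ, nrm ((T ^ k) y - y') ≤ 4 / c * (1 - c) ^ (2 * k) * nrm y := by
    intro k
    have h1 : ∀ᶠ j in atTop, nrm ((T ^ k) y - y') ≤
        2 * (1 / c * ((1 - c) ^ (2 * k) * Qf B T y)) + 2 * nrm ((T ^ nk j) y - y') := by
      by_cases hN00 : N0 = 0
      · -- then (1 - c)^0 < 1/16 is impossible
        rw [hN00, pow_zero] at hN0
        norm_num at hN0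
      · filter_upwards [eventually_ge_atTop k] with j hj
        have hkj : k ≤ nk j := by
          simp only [nk]
          have : 1 * j ≤ N0 * j := Nat.mul_le_mul_right j (by omega)
          omega
        obtain ⟨i, hi⟩ := Nat.exists_eq_add_of_le hkj
        have h2 := nrm_add_le ((T ^ k) y - (T ^ nk j) y) ((T ^ nk j) y - y')
        rw [sub_add_sub_cancel] at h2
        have h3 := hdist k i
        rw [← hi, nrm_sub_comm] at h3
        linarith
    have h2 : Tendsto (fun j => 2 * (1 / c * ((1 - c) ^ (2 * k) * Qf B T y)) +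
        2 * nrm ((T ^ nk j) y - y')) atTop
        (𝓝 (2 * (1 / c * ((1 - c) ^ (2 * k) * Qf B T y)) + 2 * 0)) :=
      tendsto_const_nhds.add (hy'.const_mul 2)
    have h3 := ge_of_tendsto h2 h1
    have h4 : 1 / c * ((1 - c) ^ (2 * k) * Qf B T y) ≤ 1 / c * ((1 - c) ^ (2 * k) * (2 * nrm y)) :=
      mul_le_mul_of_nonneg_left (mul_le_mul_of_nonneg_left hQ2 (pow_nonneg hr0 _)) (by positivity)
    have h5 : 4 / c * (1 - c) ^ (2 * k) * nrm y =
        2 * (1 / c * ((1 - c) ^ (2 * k) * (2 * nrm y))) := by ring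
    rw [h5]
    linarith
  refine ⟨y', hy'NB, ?_, hrate⟩
  -- fixed points
  have hlim : Tendsto (fun k : ℕ => nrm ((T ^ k) y - y')) atTop (𝓝 0) := by
    have h1 : Tendsto (fun k : ℕ => 4 / c * (1 - c) ^ (2 * k) * nrm y) atTop (𝓝 0) := by
      have h2 : Tendsto (fun k : ℕ => ((1 - c) ^ 2) ^ k) atTop (𝓝 0) :=
        tendsto_pow_atTop_nhds_zero_of_lt_one (by positivity) (by nlinarith)
      have h3 := (h2.const_mul (4 / c)).mul_const (nrm y)
      rw [mul_zero, zero_mul] at h3
      refine h3.congr fun k => ?_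
      rw [pow_mul]
    exact squeeze_zero (fun k => nrm_nonneg _) hrate h1
  have hQlim : Tendsto (fun k : ℕ => Qf B T ((T ^ k) y)) atTop (𝓝 0) := by
    have h2 : Tendsto (fun k : ℕ => ((1 - c) ^ 2) ^ k) atTop (𝓝 0) :=
      tendsto_pow_atTop_nhds_zero_of_lt_one (by positivity) (by nlinarith)
    have h3 := h2.mul_const (Qf B T y)
    rw [zero_mul] at h3
    refine squeeze_zero (fun k => hQ0 _) (fun k => ?_) h3
    have := hT.energy k y
    rwa [pow_mul] at this
  refine fixed_all x hD.gen α β y' fun i => ?_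
  have hzero : nrm (ρ (x i) y' - y') = 0 := by
    refine le_antisymm ?_ (nrm_nonneg _)
    have hb : ∀ k : ℕ, nrm (ρ (x i) y' - y') ≤
        4 * nrm ((T ^ k) y - y') + 4 * (4 * Fintype.card I * Qf B T ((T ^ k) y)) +
          2 * nrm ((T ^ k) y - y') := by
      intro k
      set z := (T ^ k) y with hz
      have h1 : nrm (ρ (x i) (y' - z)) = nrm (z - y') := by
        rw [nrm_sub_comm z y']
        exact hW.iso (x i) (y' - z)
      have h2 : nrm (ρ (x i) z - z) ≤ 4 * Fintype.card I * Qf B T z := hT.gen i z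
      have e : ρ (x i) y' - y' = (ρ (x i) (y' - z) + (ρ (x i) z - z)) + (z - y') := by
        rw [map_sub]
        abel
      have h3 := nrm_add_le (ρ (x i) (y' - z) + (ρ (x i) z - z)) (z - y')
      have h4 := nrm_add_le (ρ (x i) (y' - z)) (ρ (x i) z - z)
      rw [e]
      linarith
    have hl : Tendsto (fun k : ℕ => 4 * nrm ((T ^ k) y - y') +
        4 * (4 * Fintype.card I * Qf B T ((T ^ k) y)) + 2 * nrm ((T ^ k) y - y')) atTop
        (𝓝 (4 * 0 + 4 * (4 * Fintype.card I * 0) + 2 * 0)) :=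
      ((hlim.const_mul 4).add ((hQlim.const_mul _).const_mul 4)).add (hlim.const_mul 2)
    have := ge_of_tendsto' hl hb
    simpa using this
  have h1 : ρ (x i) y' - y' = 0 := nrm_eq_zero.1 hzero
  have h2 : α (x i) * y' * star (β (x i)) = y' := sub_eq_zero.1 h1
  calc α (x i) * y' = α (x i) * y' * (star (β (x i)) * β (x i)) := by rw [hβ, mul_one]
    _ = (α (x i) * y' * star (β (x i))) * β (x i) := by simp only [mul_assoc]
    _ = y' * β (x i) := by rw [h2]

end Helper53.NG
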