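import Pool.Agent.Helper53.NG.StG

namespace Helper53.NG

open Polynomial

namespace CNT

private theorem countable_poly (p : ℕ) [Fact p.Prime] : Countable (ZMod p)[X] := by
  haveI : Countable (ZMod p) := Finite.to_countable
  have h : Function.Injective (fun f : (ZMod p)[X] => fun n : ℕ => f.coeff n) := by
    intro f g hfg
    exact Polynomial.ext fun n => congrFun hfg n
  have h2 : Function.Injective (fun f : (ZMod p)[X] =>
      (⟨f.natDegree, fun i : Fin (f.natDegree + 1) => f.coeff i⟩ :
        Σ n : ℕ, Fin (n + 1) → ZMod p)) := by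
    intro f g hfg
    have hd : f.natDegree = g.natDegree := congrArg Sigma.fst hfg
    apply Polynomial.ext
    intro n
    by_cases hn : n ≤ f.natDegree
    · have key : ∀ (a b : Σ n : ℕ, Fin (n + 1) → ZMod p), a = b →
          ∀ (ha : n < a.1 + 1) (hb : n < b.1 + 1), a.2 ⟨n, ha⟩ = b.2 ⟨n, hb⟩ := by
        rintro a b rfl ha hb
        rfl
      exact key _ _ hfg (by simpa using Nat.lt_succ_of_le hn)
        (by simpa using Nat.lt_succ_of_le (hd ▸ hn))
    · rw [Polynomial.coeff_eq_zero_of_natDegree_lt (by omega),
        Polynomial.coeff_eq_zero_of_natDegree_lt (by omega)]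
  exact h2.countable

end CNT

theorem pCNT : StCnt := by
  intro p _
  haveI : Countable (ZMod p)[X] := CNT.countable_poly p
  haveI : Countable (Matrix Ix Ix (ZMod p)[X]) :=
    inferInstanceAs (Countable (Ix → Ix → (ZMod p)[X]))
  haveI : Countable (Matrix Ix Ix (ZMod p)[X])ˣ := Units.val_injective.countable
  infer_instance

end Helper53.NG
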