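import Pool.Agent.Helper53.NG.StA
import Pool.Agent.Helper61.IE.PDiag

/-!
# Project NG: module COM (completeness of the balls of the matrix ultraproduct)
-/

namespace Helper53.NG

open Helper51.MU Helper61.IE Filter Topology
open scoped Matrix.Norms.L2Operator MatrixOrder ComplexOrder

attribute [local irreducible] Helper51.MU.instRingMUlt

namespace COM

variable {ι : ℕ → Type} [∀ n, Fintype (ι n)] [∀ n, DecidableEq (ι n)] {U : Ultrafilter ℕ}

lemma cauchy (x : ℕ → MUlt ι U) (hx : ∀ k, nrm (x (k + 1) - x k) ≤ (1 / 16) ^ k) :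
    ∀ j i : ℕ, nrm (x (i + j) - x i) ≤ 3 * (1 / 16) ^ i := by
  intro j
  induction j with
  | zero =>
    intro i
    rw [add_zero, sub_self, nrm_zero]
    positivity
  | succ j ih =>
    intro i
    have e : x (i + (j + 1)) - x i = (x (i + 1 + j) - x (i + 1)) + (x (i + 1) - x i) := by
      have : i + (j + 1) = i + 1 + j := by omega
      rw [this]
      abel
    rw [e]
    have h1 := nrm_add_le (x (i + 1 + j) - x (i + 1)) (x (i + 1) - x i)
    have h2 := ih (i + 1)
    have h3 := hx i
    have h4 : (0 : ℝ) < (1 / 16) ^ i := by positivity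
    have h5 : ((1 : ℝ) / 16) ^ (i + 1) = (1 / 16) ^ i * (1 / 16) := pow_succ _ _
    rw [h5] at h2
    linarith

lemma nn_sub_comm {n : Type} [Fintype n] [DecidableEq n] (a b : Matrix n n ℂ) :
    nn (a - b) = nn (b - a) := by
  rw [← nn_neg, neg_sub]

end COM

open COM in
theorem pCOM : StCom := by
  intro ι _ _ U hU x C hC hx
  choose a ha haC using hC
  have hA : ∀ m, ∀ᶠ j in (U : Filter ℕ), ∀ i ∈ Finset.range (m + 1),
      nn ((a m).1 j - (a i).1 j) ≤ 4 * (1 / 16) ^ i := by
    intro m
    rw [Filter.eventually_all_finset]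
    intro i hi
    have him : i ≤ m := by
      have := Finset.mem_range.1 hi
      omega
    have h1 : nrm (x m - x i) ≤ 3 * (1 / 16) ^ i := by
      have := cauchy x hx (m - i) i
      rwa [Nat.add_sub_cancel' him] at this
    have h2 : Tendsto (fun j => nn ((a m).1 j - (a i).1 j)) U (𝓝 (nrm (x m - x i))) := by
      have := tendsto_nn (U := U) (a m - a i)
      rw [map_sub, ha, ha] at this
      exact this
    have h3 : nrm (x m - x i) < 4 * (1 / 16) ^ i := by
      have : (0 : ℝ) < (1 / 16) ^ i := by positivity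
      linarith
    exact (h2.eventually (gt_mem_nhds h3)).mono fun j hj => le_of_lt hj
  obtain ⟨m, hm, hmA⟩ := pDiag U hU
    (fun m j => ∀ i ∈ Finset.range (m + 1), nn ((a m).1 j - (a i).1 j) ≤ 4 * (1 / 16) ^ i) hA
  let y : BSeq ι := ⟨fun j => (a (m j)).1 j, ⟨C, fun j => haC (m j) j⟩⟩
  refine ⟨mkM U y, ⟨y, rfl, fun j => haC (m j) j⟩, ?_⟩
  have hle : ∀ k, nrm (x k - mkM U y) ≤ 4 * (1 / 16) ^ k := by
    intro k
    have h2 : Tendsto (fun j => nn ((a k).1 j - (a (m j)).1 j)) U (𝓝 (nrm (x k - mkM U y))) := by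
      have := tendsto_nn (U := U) (a k - y)
      rw [map_sub, ha] at this
      exact this
    refine le_of_tendsto h2 ?_
    filter_upwards [hmA, hm.eventually_ge_atTop k] with j h3 h4
    rw [nn_sub_comm]
    exact h3 k (Finset.mem_range.2 (by omega))
  refine squeeze_zero (fun k => nrm_nonneg _) hle ?_
  have h := tendsto_pow_atTop_nhds_zero_of_lt_one (r := (1 / 16 : ℝ)) (by norm_num) (by norm_num)
  simpa using h.const_mul 4

end Helper53.NG
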