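import Pool.Agent.Helper53.NG.StB

set_option autoImplicit false
set_option linter.unusedSectionVars false

/-!
# DDP: the commutant of `u ⊕ 1 ⊗ c` is prime
-/

namespace Helper53.NG

open Helper51.MU Helper61.IE Filter Topology
open scoped Matrix.Norms.L2Operator MatrixOrder ComplexOrder

attribute [local irreducible] Helper51.MU.instRingMUlt

namespace DDP

variable {ι κ : ℕ → Type} [∀ n, Fintype (ι n)] [∀ n, DecidableEq (ι n)]
  [∀ n, Fintype (κ n)] [∀ n, DecidableEq (κ n)] {U : Ultrafilter ℕ}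

lemma sum_mul (x x' : MUlt ι U) (y y' : MUlt κ U) :
    (inlM κ x + inrM ι y) * (inlM κ x' + inrM ι y') = inlM κ (x * x') + inrM ι (y * y') := by
  rw [add_mul, mul_add, mul_add, inl_mul_inr, inr_mul_inl, map_mul, map_mul]
  abel

lemma inl_eq (x : MUlt ι U) : inlM κ x = inlM κ x + inrM ι (0 : MUlt κ U) := by
  rw [map_zero, add_zero]

lemma inr_eq (y : MUlt κ U) : inrM ι y = inlM κ (0 : MUlt ι U) + inrM ι y := by
  rw [map_zero, zero_add]

lemma sum_inj (hL : Function.Injective (inlM κ : MUlt ι U → MUlt (fun n => ι n ⊕ κ n) U))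
    (hR : Function.Injective (inrM ι : MUlt κ U → MUlt (fun n => ι n ⊕ κ n) U))
    {x x' : MUlt ι U} {y y' : MUlt κ U}
    (h : inlM κ x + inrM ι y = inlM κ x' + inrM ι y') : x = x' ∧ y = y' := by
  constructor
  · apply hL
    have h1 := congrArg (fun t => inlM κ (1 : MUlt ι U) * t) h
    simp only [mul_add, inl_mul_inr, add_zero] at h1
    rw [← map_mul, ← map_mul, one_mul, one_mul] at h1
    exact h1
  · apply hR
    have h1 := congrArg (fun t => inrM ι (1 : MUlt κ U) * t) h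
    simp only [mul_add, inr_mul_inl, zero_add] at h1
    rw [← map_mul, ← map_mul, one_mul, one_mul] at h1
    exact h1

lemma decomp (hcL : Cmp ι (fun n => ι n ⊕ κ n) U) (hcR : Cmp κ (fun n => ι n ⊕ κ n) U)
    (Z : MUlt (fun n => ι n ⊕ κ n) U)
    (h1 : Z * inlM κ (1 : MUlt ι U) = inlM κ (1 : MUlt ι U) * Z)
    (h2 : Z * inrM ι (1 : MUlt κ U) = inrM ι (1 : MUlt κ U) * Z) :
    ∃ (x : MUlt ι U) (y : MUlt κ U), Z = inlM κ x + inrM ι y := by
  have e1 : inlM κ (1 : MUlt ι U) * inlM κ (1 : MUlt ι U) = inlM κ (1 : MUlt ι U) := by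
    rw [← map_mul, one_mul]
  have e2 : inrM ι (1 : MUlt κ U) * inrM ι (1 : MUlt κ U) = inrM ι (1 : MUlt κ U) := by
    rw [← map_mul, one_mul]
  obtain ⟨x, hx⟩ := expd_range (JL ι κ) hcL (inlM κ (1 : MUlt ι U) * Z) (by
    have : expd (JL ι κ) U 1 = inlM κ (1 : MUlt ι U) := rfl
    rw [this, ← mul_assoc, e1, mul_assoc, h1, ← mul_assoc, e1])
  obtain ⟨y, hy⟩ := expd_range (JR ι κ) hcR (inrM ι (1 : MUlt κ U) * Z) (by
    have : expd (JR ι κ) U 1 = inrM ι (1 : MUlt κ U) := rfl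
    rw [this, ← mul_assoc, e2, mul_assoc, h2, ← mul_assoc, e2])
  refine ⟨x, y, ?_⟩
  have hx' : inlM κ x = inlM κ (1 : MUlt ι U) * Z := hx
  have hy' : inrM ι y = inrM ι (1 : MUlt κ U) * Z := hy
  rw [hx', hy', ← add_mul, inl_add_inr, one_mul]

end DDP

open DDP in
theorem pDDP : StDDP := by
  intro hIDL hPOS hPR1 hPR2 hTNS K _ l U hU hl u hu hprime a b c V hI hcen
  set κ : ℕ → Type := fun n => Fin (b n) × Fin (a n) with hκ
  set ι : ℕ → Type := fun n => Fin (l n) with hι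
  have hnl : ∀ᶠ n in (U : Filter ℕ), Nonempty (ι n) := by
    filter_upwards [hl] with n hn
    exact ⟨⟨0, hn⟩⟩
  have hcL : Cmp ι (fun n => ι n ⊕ κ n) U := by
    obtain ⟨C, hC⟩ := hI.cmp
    refine ⟨1 + C, ?_⟩
    filter_upwards [hC] with n hn
    have h1 : (Fintype.card (ι n ⊕ κ n) : ℝ) = l n + b n * a n := by
      show (Fintype.card (Fin (l n) ⊕ (Fin (b n) × Fin (a n))) : ℝ) = l n + b n * a n
      simp
    have h2 : (Fintype.card (ι n) : ℝ) = l n := by
      show (Fintype.card (Fin (l n)) : ℝ) = l n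
      simp
    rw [h1, h2]
    linarith [hn.2]
  have hcR : Cmp κ (fun n => ι n ⊕ κ n) U := by
    obtain ⟨C, hC⟩ := hI.cmp
    refine ⟨1 + C, ?_⟩
    filter_upwards [hC] with n hn
    have h1 : (Fintype.card (ι n ⊕ κ n) : ℝ) = l n + b n * a n := by
      show (Fintype.card (Fin (l n) ⊕ (Fin (b n) × Fin (a n))) : ℝ) = l n + b n * a n
      simp
    have h2 : (Fintype.card (κ n) : ℝ) = b n * a n := by
      show (Fintype.card (Fin (b n) × Fin (a n)) : ℝ) = b n * a n
      simp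
    rw [h1, h2]
    linarith [hn.1]
  have iL : Function.Injective (inlM κ : MUlt ι U → MUlt (fun n => ι n ⊕ κ n) U) :=
    expd_injective (JL ι κ) hcL
  have iR : Function.Injective (inrM ι : MUlt κ U → MUlt (fun n => ι n ⊕ κ n) U) :=
    expd_injective (JR ι κ) hcR
  have hVN : IsVN (Cmt fun k => inlM κ (u k) + inrM ι (amp b (c k))) := by
    refine isVN_cmt _ fun k => ⟨k⁻¹, ?_⟩
    rw [hom_inv u hu, hom_inv c hI.unit, amp_star, map_star, map_star, star_add]
  refine ⟨hVN, ?_⟩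
  refine hPR1 hIDL _ U hU _ hVN ?_
  intro Z hZ
  obtain ⟨hZ1, hZ2⟩ := hZ
  -- elements of the commutant
  have mem : ∀ (x : MUlt ι U) (y : MUlt κ U), (∀ k, x * u k = u k * x) →
      (∀ k, y * amp b (c k) = amp b (c k) * y) →
      inlM κ x + inrM ι y ∈ (Cmt fun k => inlM κ (u k) + inrM ι (amp b (c k))) := by
    intro x y hx hy k
    rw [sum_mul, sum_mul, hx, hy]
  have memL : inlM κ (1 : MUlt ι U) ∈ (Cmt fun k => inlM κ (u k) + inrM ι (amp b (c k))) := by
    rw [inl_eq]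
    exact mem 1 0 (fun k => by rw [one_mul, mul_one]) (fun k => by rw [zero_mul, mul_zero])
  have memR : inrM ι (1 : MUlt κ U) ∈ (Cmt fun k => inlM κ (u k) + inrM ι (amp b (c k))) := by
    rw [inr_eq]
    exact mem 0 1 (fun k => by rw [zero_mul, mul_zero]) (fun k => by rw [one_mul, mul_one])
  obtain ⟨z₁, z₂, hz⟩ := decomp hcL hcR Z (hZ2 _ memL) (hZ2 _ memR)
  -- the commutation relations
  have hcomm : ∀ (x : MUlt ι U) (y : MUlt κ U), (∀ k, x * u k = u k * x) →
      (∀ k, y * amp b (c k) = amp b (c k) * y) → z₁ * x = x * z₁ ∧ z₂ * y = y * z₂ := by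
    intro x y hx hy
    have h1 := hZ2 _ (mem x y hx hy)
    rw [hz, sum_mul, sum_mul] at h1
    exact sum_inj iL iR h1
  have hg : ∀ k, z₁ * u k = u k * z₁ ∧ z₂ * amp b (c k) = amp b (c k) * z₂ := by
    intro k
    have h1 : Z * (inlM κ (u k) + inrM ι (amp b (c k))) =
      (inlM κ (u k) + inrM ι (amp b (c k))) * Z := hZ1 k
    rw [hz, sum_mul, sum_mul] at h1
    exact sum_inj iL iR h1
  -- the first component is a scalar
  obtain ⟨t, ht⟩ := hPR2 hPOS ι U hnl _ (isVN_cmt_hom u hu) hprime z₁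
    ⟨fun k => (hg k).1, fun d hd => (hcomm d 0 hd (fun k => by rw [zero_mul, mul_zero])).1⟩
  -- the second component
  obtain ⟨z, hz2⟩ := hTNS (fun n => Fin (a n)) b U z₂ (by
    intro w
    refine (hcomm 0 _ (fun k => by rw [zero_mul, mul_zero]) (fun k => ?_)).2
    obtain ⟨x, hx⟩ := mkM_surjective (c k)
    rw [← hx, jm_mk, ← map_mul, ← map_mul]
    congr 1
    exact Subtype.ext (funext fun n => uinl_commute (w n) (x.1 n)))
  have iA : Function.Injective (amp b : MUlt (fun n => Fin (a n)) U → _) :=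
    amp_injective b hI.posb
  obtain ⟨t', ht'⟩ := hcen z ⟨fun k => iA (by rw [map_mul, map_mul, ← hz2]; exact (hg k).2),
    fun d hd => iA (by
      rw [map_mul, map_mul, ← hz2]
      refine (hcomm 0 _ (fun k => by rw [zero_mul, mul_zero]) (fun k => ?_)).2
      rw [← map_mul, ← map_mul, hd k])⟩
  have hz2' : z₂ = t' • (1 : MUlt κ U) := by
    rw [hz2, ht', amp_smul, map_one]
  have hZ' : Z = t • inlM κ (1 : MUlt ι U) + t' • inrM ι (1 : MUlt κ U) := by
    rw [hz, ht, hz2', map_smul, map_smul]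
  -- the intertwiner
  have hL1 : inlM κ (1 : MUlt ι U) * V = V := hI.corl
  have hR1 : V * inrM ι (1 : MUlt κ U) = V := hI.corr
  have hRV : ∀ y : MUlt κ U, inrM ι y * V = 0 := by
    intro y
    rw [← hL1, ← mul_assoc, inr_mul_inl, zero_mul]
  have hVL : ∀ x : MUlt ι U, V * inlM κ x = 0 := by
    intro x
    rw [← hR1, mul_assoc, inr_mul_inl, mul_zero]
  have hV : V ∈ (Cmt fun k => inlM κ (u k) + inrM ι (amp b (c k))) := by
    intro k
    rw [mul_add, add_mul, hRV, hVL, zero_add, add_zero]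
    exact (hI.itw k).symm
  have hZV := hZ2 V hV
  rw [hZ', add_mul, mul_add, smul_mul_assoc, smul_mul_assoc, mul_smul_comm, mul_smul_comm, hL1,
    hR1, hRV, hVL, smul_zero, smul_zero, add_zero, zero_add] at hZV
  have htt : t = t' := by
    have h1 : (t - t') • V = 0 := by rw [sub_smul, hZV, sub_self]
    rcases smul_eq_zero.1 h1 with h2 | h2
    · exact sub_eq_zero.1 h2
    · exact absurd h2 hI.ne
  refine ⟨t, ?_⟩
  rw [hZ', ← htt, ← smul_add, inl_add_inr]

end Helper53.NG
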