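import Pool.Agent.Helper53.NG.StB

/-!
# Project NG: module FIX
-/

namespace Helper53.NG

open Helper51.MU Helper61.IE Filter Topology
open scoped Matrix.Norms.L2Operator MatrixOrder ComplexOrder

attribute [local irreducible] Helper51.MU.instRingMUlt

namespace FIX

variable {G K : Type} [Group G] [Group K] {ι : ℕ → Type} [∀ n, Fintype (ι n)]
  [∀ n, DecidableEq (ι n)] {U : Ultrafilter ℕ} (u : G →* MUlt ι U)

/-- conjugation -/
noncomputable def S (g : G) (x : MUlt ι U) : MUlt ι U := u g * x * star (u g)

lemma S_mul (hu : ∀ g, star (u g) * u g = 1) (g : G) (x y : MUlt ι U) :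
    S u g (x * y) = S u g x * S u g y := by
  unfold S
  have e : u g * x * star (u g) * (u g * y * star (u g)) =
      u g * x * (star (u g) * u g) * y * star (u g) := by noncomm_ring
  rw [e, hu, mul_one]
  noncomm_ring

lemma S_S (g h : G) (x : MUlt ι U) : S u (g * h) x = S u g (S u h x) := by
  unfold S
  rw [map_mul, star_mul]
  noncomm_ring

lemma S_one (x : MUlt ι U) : S u 1 x = x := by
  unfold S
  rw [map_one, star_one, one_mul, mul_one]

lemma S_star (g : G) (x : MUlt ι U) : star (S u g x) = S u g (star x) := by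
  unfold S
  rw [star_mul, star_mul, star_star, mul_assoc]

lemma S_zero (g : G) : S u g (0 : MUlt ι U) = 0 := by
  unfold S
  rw [mul_zero, zero_mul]

lemma S_tr (hu : ∀ g, star (u g) * u g = 1) (g : G) (x : MUlt ι U) : tr (S u g x) = tr x := by
  unfold S
  rw [tr_mul_comm, ← mul_assoc, hu, one_mul]

lemma S_pj (hu : ∀ g, star (u g) * u g = 1) (g : G) {e : MUlt ι U} (he : Pj e) :
    Pj (S u g e) := by
  refine ⟨by rw [S_star, he.1], ?_⟩
  rw [← S_mul u hu, he.2]

lemma S_fix (hu : ∀ g, star (u g) * u g = 1) (g : G) {e : MUlt ι U} (h : S u g e = e) :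
    e * u g = u g * e := by
  calc e * u g = S u g e * u g := by rw [h]
    _ = u g * e * (star (u g) * u g) := by unfold S; rw [mul_assoc]
    _ = u g * e := by rw [hu, mul_one]

lemma S_mem (hu : ∀ g, star (u g) * u g = 1) (i : K →* G)
    (hi : ∀ g k, ∃ k', g * i k * g⁻¹ = i k') (g : G) {y : MUlt ι U}
    (hy : y ∈ Cmt fun k => u (i k)) : S u g y ∈ Cmt fun k => u (i k) := by
  intro k
  obtain ⟨k', hk'⟩ := hi g⁻¹ k
  rw [inv_inv] at hk'
  have h1 : i k * g = g * i k' := by rw [← hk']; group
  have h2 : u (i k) * u g = u g * u (i k') := by rw [← map_mul, h1, map_mul]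
  have h3 : star (u g) * u (i k) = u (i k') * star (u g) := by
    have e1 := mul_star_of_unit (hu g)
    calc star (u g) * u (i k) = star (u g) * u (i k) * (u g * star (u g)) := by rw [e1, mul_one]
      _ = star (u g) * (u (i k) * u g) * star (u g) := by noncomm_ring
      _ = (star (u g) * u g) * u (i k') * star (u g) := by rw [h2]; noncomm_ring
      _ = u (i k') * star (u g) := by rw [hu, one_mul]
  show u g * y * star (u g) * u (i k) = u (i k) * (u g * y * star (u g))
  have h4 : y * u (i k') = u (i k') * y := hy k'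
  calc u g * y * star (u g) * u (i k) = u g * y * (star (u g) * u (i k)) := by noncomm_ring
    _ = u g * (y * u (i k')) * star (u g) := by rw [h3]; noncomm_ring
    _ = (u g * u (i k')) * y * star (u g) := by rw [h4]; noncomm_ring
    _ = u (i k) * (u g * y * star (u g)) := by rw [← h2]; noncomm_ring

lemma S_zc (hu : ∀ g, star (u g) * u g = 1) (i : K →* G)
    (hi : ∀ g k, ∃ k', g * i k * g⁻¹ = i k') (g : G) {z : MUlt ι U}
    (hz : z ∈ Zc (Cmt fun k => u (i k))) : S u g z ∈ Zc (Cmt fun k => u (i k)) := by
  refine ⟨S_mem u hu i hi g hz.1, fun d hd => ?_⟩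
  have h1 : d = S u g (S u g⁻¹ d) := by rw [← S_S, mul_inv_cancel, S_one]
  rw [h1, ← S_mul u hu, ← S_mul u hu, hz.2 _ (S_mem u hu i hi g⁻¹ hd)]

lemma orth (e f : MUlt ι U) (he : Pj e) (hf : Pj f) (hne : e ≠ 0) (hc : e * f = f * e)
    (ht : tr e = tr f) (t : ℂ) (h : e * f * e = t • e) : f = e ∨ e * f = 0 := by
  have h1 : e * f = t • e := by
    rw [← h, mul_assoc, ← hc, ← mul_assoc, he.2]
  have h2 : (e * f) * (e * f) = e * f := by
    calc (e * f) * (e * f) = e * (f * e) * f := by noncomm_ring
      _ = e * (e * f) * f := by rw [hc]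
      _ = (e * e) * (f * f) := by noncomm_ring
      _ = e * f := by rw [he.2, hf.2]
  rw [h1, smul_mul_smul_comm, he.2] at h2
  have h3 : (t * t - t) • e = 0 := by rw [sub_smul, h2, sub_self]
  have h4 : t * t - t = 0 := by
    rcases smul_eq_zero.1 h3 with h5 | h5
    · exact h5
    · exact absurd h5 hne
  have h5 : t * (t - 1) = 0 := by linear_combination h4
  rcases mul_eq_zero.1 h5 with h6 | h6
  · right
    rw [h1, h6, zero_smul]
  · left
    have h7 : t = 1 := by linear_combination h6
    rw [h7, one_smul] at h1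
    have h8 : f * e = e := by rw [← hc]; exact h1
    have hp : Pj (f - e) := by
      refine ⟨by rw [star_sub, he.1, hf.1], ?_⟩
      rw [sub_mul, mul_sub, mul_sub, hf.2, h8, h1, he.2]
      abel
    by_contra hcon
    have h9 := hp.tr_pos (sub_ne_zero.2 hcon)
    rw [tr_sub, ht, sub_self, Complex.zero_re] at h9
    exact lt_irrefl _ h9

lemma pj_sum {α : Type} [DecidableEq α] (s : Finset α) (f : α → MUlt ι U) (h1 : ∀ a, Pj (f a))
    (h2 : ∀ a b, a ≠ b → f a * f b = 0) : Pj (∑ a ∈ s, f a) := by
  refine ⟨by rw [star_sum]; exact Finset.sum_congr rfl fun a _ => (h1 a).1, ?_⟩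
  rw [Finset.sum_mul]
  refine Finset.sum_congr rfl fun a ha => ?_
  rw [Finset.mul_sum, Finset.sum_eq_single a, (h1 a).2]
  · intro b _ hb
    exact h2 a b hb.symm
  · intro h
    exact absurd ha h

end FIX

open FIX in
theorem pFIX : StFIX := by
  classical
  intro G K _ _ ι _ _ U hne u hu i hi e he hpe he0 hmin
  let H : Subgroup G :=
    { carrier := {g | e * u g = u g * e}
      one_mem' := by
        show e * u 1 = u 1 * e
        rw [map_one, one_mul, mul_one]
      mul_mem' := by
        intro a b ha hb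
        show e * u (a * b) = u (a * b) * e
        rw [map_mul, ← mul_assoc, show e * u a = u a * e from ha, mul_assoc,
          show e * u b = u b * e from hb, ← mul_assoc]
      inv_mem' := by
        intro a ha
        show e * u a⁻¹ = u a⁻¹ * e
        have h1 := congrArg star (show e * u a = u a * e from ha)
        rw [star_mul, star_mul, hpe.1] at h1
        rw [hom_inv u hu, h1] }
  refine ⟨H, ?_, fun g hg => hg⟩
  have hfin : Finite (G ⧸ H) := by
    by_contra hinf
    rw [not_finite_iff_infinite] at hinf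
    have hpos := hpe.tr_pos he0
    obtain ⟨m, hm⟩ := exists_nat_gt (1 / (tr e).re)
    obtain ⟨s, hs⟩ := Infinite.exists_subset_card_eq (G ⧸ H) m
    have h2 : ∀ a b : G ⧸ H, a ≠ b → S u a.out e * S u b.out e = 0 := by
      intro a b hab
      have h3 : a.out⁻¹ * b.out ∉ H := by
        intro h
        apply hab
        have := QuotientGroup.eq.2 h
        rwa [QuotientGroup.out_eq', QuotientGroup.out_eq'] at this
      have h4 : S u b.out e = S u a.out (S u (a.out⁻¹ * b.out) e) := by
        rw [← S_S]
        congr 1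
        group
      rw [h4, ← S_mul u hu]
      have h5 := S_zc u hu i hi (a.out⁻¹ * b.out) he
      obtain ⟨t, ht⟩ := hmin _ h5
      rcases orth e _ hpe (S_pj u hu _ hpe) he0 (he.2 _ h5.1) (S_tr u hu _ _).symm t ht with h6 | h6
      · exact absurd (S_fix u hu _ h6) h3
      · rw [h6, S_zero]
    have hP := pj_sum s (fun a : G ⧸ H => S u a.out e) (fun a => S_pj u hu _ hpe) h2
    have h7 := hP.one_sub.tr_nonneg
    rw [tr_sub, tr_one hne, tr_sum] at h7
    simp only [S_tr u hu] at h7
    rw [Finset.sum_const, hs, nsmul_eq_mul] at h7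
    simp only [Complex.sub_re, Complex.one_re, Complex.mul_re, Complex.natCast_re,
      Complex.natCast_im, zero_mul, sub_zero] at h7
    rw [div_lt_iff₀ hpos] at hm
    linarith
  exact Subgroup.finiteIndex_of_finite_quotient

end Helper53.NG
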