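import Pool.Agent.Helper53.NG.StG

/-!
# Project NG, module GEN: the eight generators of `K'`
-/

namespace Helper53.NG

namespace GEN

open Polynomial

section Gen

variable {A : Type} [CommRing A] {n : Type} [Fintype n] [DecidableEq n]

lemma el_val (i j : n) (h : i ≠ j) (r : A) :
    ((el i j h r : (Matrix n n A)ˣ) : Matrix n n A) = Matrix.transvection i j r := rfl

lemma el_inv (i j : n) (h : i ≠ j) (r : A) : (el i j h r)⁻¹ = el i j h (-r) := by
  ext1
  rfl

lemma el_add (i j : n) (h : i ≠ j) (r s : A) :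
    el i j h (r + s) = el i j h r * el i j h s := by
  ext1
  rw [Units.val_mul, el_val, el_val, el_val, Matrix.transvection_mul_transvection_same i j h]

lemma el_zero (i j : n) (h : i ≠ j) : el i j h (0 : A) = 1 := by
  ext1
  rw [el_val, Units.val_one, Matrix.transvection_zero]

lemma el_nat (i j : n) (h : i ≠ j) (m : ℕ) : el i j h (m : A) = el i j h 1 ^ m := by
  induction m with
  | zero => rw [Nat.cast_zero, el_zero, pow_zero]
  | succ m ih => rw [Nat.cast_succ, el_add, ih, pow_succ]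

lemma comm1 {i j k : n} (hij : i ≠ j) (hjk : j ≠ k) (hik : i ≠ k) (r s : A) :
    (el i j hij r * el j k hjk s : (Matrix n n A)ˣ) =
      el i k hik (r * s) * (el j k hjk s * el i j hij r) := by
  ext1
  simp only [Units.val_mul, el_val, Matrix.transvection]
  simp only [mul_add, add_mul, one_mul, mul_one, Matrix.single_mul_single_same,
    Matrix.single_mul_single_of_ne _ _ _ _ hik.symm,
    Matrix.single_mul_single_of_ne _ _ _ _ hjk.symm, add_zero]
  abel

lemma comm0 {i j k l : n} (hij : i ≠ j) (hkl : k ≠ l) (hjk : j ≠ k) (hli : l ≠ i) (r s : A) :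
    (el i j hij r * el k l hkl s : (Matrix n n A)ˣ) = el k l hkl s * el i j hij r := by
  ext1
  simp only [Units.val_mul, el_val, Matrix.transvection]
  simp only [mul_add, add_mul, one_mul, mul_one,
    Matrix.single_mul_single_of_ne _ _ _ _ hjk,
    Matrix.single_mul_single_of_ne _ _ _ _ hli, add_zero]
  abel

end Gen

section Gen2

variable {A : Type} [CommRing A]

lemma dgU_el (i j : Fin 4) (h : i ≠ j) (r : A) :
    dgU (el i j h r) = el (.v i) (.v j) (by simpa using h) r *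
      el (.w i) (.w j) (by simpa using h) r := by
  ext1
  rw [Units.val_mul, el_val, el_val]
  show dg (Matrix.transvection i j r) = _
  simp only [Matrix.transvection, mul_add, add_mul, one_mul, mul_one]
  rw [Matrix.single_mul_single_of_ne _ _ _ _ (by simp)]
  ext a b
  cases a <;> cases b <;> simp [dg, Matrix.one_apply, Matrix.single_apply]

lemma el_mul_apply {n : Type} [Fintype n] [DecidableEq n] (u : Matrix n n A) (i j : n) (h : i ≠ j)
    (r : A) (hu : ∀ k, u k i = if k = i then 1 else 0) (k l : n) :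
    (u * (el i j h r : (Matrix n n A)ˣ)) k l = u k l + if k = i ∧ l = j then r else 0 := by
  rw [el_val, Matrix.transvection, mul_add, mul_one, Matrix.add_apply, Matrix.mul_apply]
  congr 1
  rw [Finset.sum_eq_single i]
  · rw [hu k, Matrix.single_apply]
    by_cases hk : k = i <;> by_cases hl : l = j
    · subst hk; subst hl; simp
    · simp [hl, hk, Ne.symm hl]
    · simp [hk]
    · simp [hk]
  · intro b _ hb
    rw [Matrix.single_apply]
    simp [Ne.symm hb]
  · simp

/-- Clearing a row. -/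
lemma clear {n : Type} [Fintype n] [DecidableEq n] (H : Subgroup (Matrix n n A)ˣ)
    (u : (Matrix n n A)ˣ) (i : n) (hu : ∀ k, (u : Matrix n n A) k i = if k = i then 1 else 0)
    (s : Finset n) (hi : i ∉ s)
    (hs : ∀ j ∈ s, ∀ h : i ≠ j, (u : Matrix n n A) i j = 0 ∨
      ∀ r : A, el i j h r ∈ H) :
    ∃ h ∈ H, ∀ k l, ((u * h : (Matrix n n A)ˣ) : Matrix n n A) k l =
      if k = i ∧ l ∈ s then 0 else (u : Matrix n n A) k l := by
  induction s using Finset.induction_on with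
  | empty =>
    refine ⟨1, H.one_mem, fun k l => ?_⟩
    simp
  | insert j s hj ih =>
    obtain ⟨h, hh, e⟩ := ih (fun h => hi (Finset.mem_insert_of_mem h))
      (fun j' hj' => hs j' (Finset.mem_insert_of_mem hj'))
    have hij : i ≠ j := by
      rintro rfl
      exact hi (Finset.mem_insert_self _ _)
    have hc : ∀ k, ((u * h : (Matrix n n A)ˣ) : Matrix n n A) k i = if k = i then 1 else 0 := by
      intro k
      rw [e k i]
      rw [if_neg (fun hh => hi (Finset.mem_insert_of_mem hh.2)), hu k]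
    refine ⟨h * el i j hij (-(u : Matrix n n A) i j), H.mul_mem hh ?_, fun k l => ?_⟩
    · rcases hs j (Finset.mem_insert_self _ _) hij with h0 | h0
      · rw [h0, neg_zero, el_zero]
        exact H.one_mem
      · exact h0 _
    · rw [← mul_assoc, Units.val_mul (u * h), el_mul_apply _ i j hij _ hc k l, e k l]
      by_cases hk : k = i
      · by_cases hl : l = j
        · subst hk; subst hl
          simp [hj]
        · simp [hk, hl, Finset.mem_insert]
      · simp [hk]

end Gen2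

section P

variable (p : ℕ) [Fact p.Prime]

/-- The closure. -/
noncomputable abbrev HH : Subgroup (Matrix Ix Ix (ZMod p)[X])ˣ :=
  Subgroup.closure (Set.range (gen p))

lemma gen_mem (i : Fin 8) : gen p i ∈ HH p := Subgroup.subset_closure ⟨i, rfl⟩

lemma dgU_mem (σ : (Matrix (Fin 4) (Fin 4) (ZMod p)[X])ˣ) (hσ : σ ∈ SS p) : dgU σ ∈ HH p := by
  have : (SS p).map dgU ≤ HH p := by
    rw [SS, MonoidHom.map_closure, Subgroup.closure_le]
    rintro g ⟨x, hx, rfl⟩
    simp only [Set.mem_insert_iff, Set.mem_singleton_iff] at hx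
    rcases hx with rfl | rfl | rfl
    · exact gen_mem p 0
    · exact gen_mem p 1
    · exact gen_mem p 2
  exact this ⟨σ, hσ, rfl⟩

lemma full (H : Subgroup (Matrix Ix Ix (ZMod p)[X])ˣ) (i j : Ix) (h : i ≠ j)
    (h1 : el i j h 1 ∈ H) (hX : ∀ r : (ZMod p)[X], el i j h (X * r) ∈ H) (r : (ZMod p)[X]) :
    el i j h r ∈ H := by
  have e : r = X * divX r + (((r.coeff 0).val : ℕ) : (ZMod p)[X]) := by
    conv_lhs => rw [← X_mul_divX_add r]
    congr 1
    rw [← Polynomial.C_eq_natCast]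
    congr 1
    simp
  rw [e, el_add, el_nat]
  exact H.mul_mem (hX _) (H.pow_mem h1 _)

lemma ofComm {G : Type} [Group G] (H : Subgroup G) {a b c : G} (ha : a ∈ H) (hb : b ∈ H)
    (h : a * b = c * (b * a)) : c ∈ H := by
  have : c = a * b * (b * a)⁻¹ := by rw [h]; group
  rw [this]
  exact H.mul_mem (H.mul_mem ha hb) (H.inv_mem (H.mul_mem hb ha))

/-- Right action of the block diagonal part on a row. -/
lemma rowV (H : Subgroup (Matrix Ix Ix (ZMod p)[X])ˣ) (x : Ix) (i j : Fin 4) (h : i ≠ j)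
    (hxi : x ≠ .v i) (hxj : x ≠ .v j) (hx : ∀ k, x ≠ .w k) (r s : (ZMod p)[X])
    (h1 : el x (.v i) hxi r ∈ H) (h2 : dgU (el i j h s) ∈ H) : el x (.v j) hxj (r * s) ∈ H := by
  refine ofComm H h1 h2 ?_
  rw [dgU_el, ← mul_assoc, comm1 hxi (by simpa using h) hxj, mul_assoc, mul_assoc,
    comm0 hxi (by simpa using h) (by simp) (hx j).symm, mul_assoc]

lemma rowW (H : Subgroup (Matrix Ix Ix (ZMod p)[X])ˣ) (x : Ix) (i j : Fin 4) (h : i ≠ j)
    (hxi : x ≠ .w i) (hxj : x ≠ .w j) (hx : x ≠ .v j) (r s : (ZMod p)[X])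
    (h1 : el x (.w i) hxi r ∈ H) (h2 : dgU (el i j h s) ∈ H) : el x (.w j) hxj (r * s) ∈ H := by
  refine ofComm H h1 h2 ?_
  rw [dgU_el, ← mul_assoc, comm0 hxi (by simpa using h) (by simp) hx.symm, mul_assoc,
    comm1 hxi (by simpa using h) hxj]
  rw [← mul_assoc, ← mul_assoc, ← mul_assoc, ← mul_assoc, ← comm0 hxj (by simpa using h) (by simp) hx.symm]

lemma colV (H : Subgroup (Matrix Ix Ix (ZMod p)[X])ˣ) (x : Ix) (i j : Fin 4) (h : i ≠ j)
    (hxi : .v i ≠ x) (hxj : .v j ≠ x) (hx : .w i ≠ x) (r s : (ZMod p)[X])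
    (h1 : el (.v j) x hxj r ∈ H) (h2 : dgU (el i j h s) ∈ H) : el (.v i) x hxi (s * r) ∈ H := by
  refine ofComm H h2 h1 ?_
  rw [dgU_el, mul_assoc, comm0 (by simpa using h) hxj (by simp) hx.symm, ← mul_assoc,
    comm1 (by simpa using h) hxj hxi]
  simp only [mul_assoc]


lemma dgEl (hSS : StSS) (i j : Fin 4) (h : i ≠ j) (hi : i ≠ 3) (hj : j ≠ 3) :
    (∀ r : (ZMod p)[X], dgU (el i j h (X * r)) ∈ HH p) ∧
    (i < j → ∀ r : (ZMod p)[X], dgU (el i j h r) ∈ HH p) :=
  ⟨fun r => dgU_mem p _ (hSS p i j h hi hj r).1,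
    fun hij r => dgU_mem p _ ((hSS p i j h hi hj r).2 hij)⟩

/-- Root subgroup contained in the closure. -/
def InR (i j : Ix) : Prop := ∀ (h : i ≠ j) (r : (ZMod p)[X]), el i j h r ∈ HH p

lemma InR_trans {i j k : Ix} (hij : i ≠ j) (hjk : j ≠ k) (h1 : InR p i j) (h2 : InR p j k) :
    InR p i k := by
  intro h r
  have := ofComm (HH p) (h1 hij r) (h2 hjk 1) (comm1 hij hjk h r 1)
  rwa [mul_one] at this

lemma r_o_v (hSS : StSS) (j : Fin 4) (hj : j ≠ 3) : InR p .o (.v j) := by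
  have g3 : el (.o : Ix) (.v 0) (by decide) (1 : (ZMod p)[X]) ∈ HH p := gen_mem p 3
  have a1 : ∀ r : (ZMod p)[X], el (.o : Ix) (.v 1) (by decide) r ∈ HH p := fun r => by
    have := rowV p (HH p) .o 0 1 (by decide) (by decide) (by decide) (by intro k; simp) 1 r g3
      ((dgEl p hSS 0 1 (by decide) (by decide) (by decide)).2 (by decide) r)
    rwa [one_mul] at this
  have a2 : ∀ r : (ZMod p)[X], el (.o : Ix) (.v 2) (by decide) r ∈ HH p := fun r => by
    have := rowV p (HH p) .o 0 2 (by decide) (by decide) (by decide) (by intro k; simp) 1 r g3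
      ((dgEl p hSS 0 2 (by decide) (by decide) (by decide)).2 (by decide) r)
    rwa [one_mul] at this
  have a0 : ∀ r : (ZMod p)[X], el (.o : Ix) (.v 0) (by decide) r ∈ HH p := by
    refine full p (HH p) _ _ _ g3 fun r => ?_
    have := rowV p (HH p) .o 1 0 (by decide) (by decide) (by decide) (by intro k; simp) 1 (X * r)
      (a1 1) ((dgEl p hSS 1 0 (by decide) (by decide) (by decide)).1 r)
    rwa [one_mul] at this
  intro h r
  fin_cases j
  · exact a0 r
  · exact a1 r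
  · exact a2 r
  · exact absurd rfl hj

lemma r_w (hSS : StSS) (x : Ix) (hx : ∀ k, x ≠ .w k) (hx' : ∀ k : Fin 4, k ≠ 3 → x ≠ .v k)
    (g3 : el x (.w 0) (hx 0) (1 : (ZMod p)[X]) ∈ HH p) (j : Fin 4) (hj : j ≠ 3) :
    InR p x (.w j) := by
  have a1 : ∀ r : (ZMod p)[X], el x (.w 1) (hx 1) r ∈ HH p := fun r => by
    have := rowW p (HH p) x 0 1 (by decide) (hx 0) (hx 1) (hx' 1 (by decide)) 1 r g3
      ((dgEl p hSS 0 1 (by decide) (by decide) (by decide)).2 (by decide) r)
    rwa [one_mul] at this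
  have a2 : ∀ r : (ZMod p)[X], el x (.w 2) (hx 2) r ∈ HH p := fun r => by
    have := rowW p (HH p) x 0 2 (by decide) (hx 0) (hx 2) (hx' 2 (by decide)) 1 r g3
      ((dgEl p hSS 0 2 (by decide) (by decide) (by decide)).2 (by decide) r)
    rwa [one_mul] at this
  have a0 : ∀ r : (ZMod p)[X], el x (.w 0) (hx 0) r ∈ HH p := by
    refine full p (HH p) _ _ _ g3 fun r => ?_
    have := rowW p (HH p) x 1 0 (by decide) (hx 1) (hx 0) (hx' 0 (by decide)) 1 (X * r)
      (a1 1) ((dgEl p hSS 1 0 (by decide) (by decide) (by decide)).1 r)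
    rwa [one_mul] at this
  intro h r
  fin_cases j
  · exact a0 r
  · exact a1 r
  · exact a2 r
  · exact absurd rfl hj

lemma r_v (hSS : StSS) (x : Ix) (hx : ∀ k, .v k ≠ x) (hx' : ∀ k : Fin 4, k ≠ 3 → .w k ≠ x)
    (g3 : el (.v 2) x (hx 2) (1 : (ZMod p)[X]) ∈ HH p) (j : Fin 4) (hj : j ≠ 3) :
    InR p (.v j) x := by
  have a1 : ∀ r : (ZMod p)[X], el (.v 1) x (hx 1) r ∈ HH p := fun r => by
    have := colV p (HH p) x 1 2 (by decide) (hx 1) (hx 2) (hx' 1 (by decide)) 1 r g3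
      ((dgEl p hSS 1 2 (by decide) (by decide) (by decide)).2 (by decide) r)
    rwa [mul_one] at this
  have a0 : ∀ r : (ZMod p)[X], el (.v 0) x (hx 0) r ∈ HH p := fun r => by
    have := colV p (HH p) x 0 2 (by decide) (hx 0) (hx 2) (hx' 0 (by decide)) 1 r g3
      ((dgEl p hSS 0 2 (by decide) (by decide) (by decide)).2 (by decide) r)
    rwa [mul_one] at this
  have a2 : ∀ r : (ZMod p)[X], el (.v 2) x (hx 2) r ∈ HH p := by
    refine full p (HH p) _ _ _ g3 fun r => ?_
    have := colV p (HH p) x 2 0 (by decide) (hx 2) (hx 0) (hx' 2 (by decide)) 1 (X * r)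
      (a0 1) ((dgEl p hSS 2 0 (by decide) (by decide) (by decide)).1 r)
    rwa [mul_one] at this
  intro h r
  fin_cases j
  · exact a0 r
  · exact a1 r
  · exact a2 r
  · exact absurd rfl hj

/-- All root subgroups. -/
lemma roots (hSS : StSS) (i j : Ix) (hl : lvl i < lvl j)
    (h1 : ¬ (i = .q ∧ j = .w 3)) (h2 : ¬ (i = .o ∧ j = .v 3)) (h3 : ¬ (i = .v 3 ∧ j = .q))
    (h4 : ¬ (i = .v 3 ∧ j = .w 3)) : InR p i j := by
  have vq : ∀ k : Fin 4, k ≠ 3 → InR p (.v k) .q := fun k hk =>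
    r_v p hSS .q (by intro k; simp) (by intro k _; simp) (gen_mem p 4) k hk
  have vw3 : ∀ k : Fin 4, k ≠ 3 → InR p (.v k) (.w 3) := fun k hk =>
    r_v p hSS (.w 3) (by intro k; simp) (by intro k hk; simpa using hk) (gen_mem p 5) k hk
  have qw : ∀ k : Fin 4, k ≠ 3 → InR p .q (.w k) := fun k hk =>
    r_w p hSS .q (by intro k; simp) (by intro k _; simp) (gen_mem p 6) k hk
  have v3w : ∀ k : Fin 4, k ≠ 3 → InR p (.v 3) (.w k) := fun k hk =>
    r_w p hSS (.v 3) (by intro k; simp) (by intro k hk; simpa using hk.symm) (gen_mem p 7) k hk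
  have ov := r_o_v p hSS
  have oq : InR p .o .q := InR_trans p (by simp) (by simp) (ov 0 (by decide)) (vq 0 (by decide))
  cases i with
  | o =>
    cases j with
    | o => simp [lvl] at hl
    | v k => exact ov k (by rintro rfl; exact h2 ⟨rfl, rfl⟩)
    | q => exact oq
    | w k =>
      by_cases hk : k = 3
      · subst hk
        exact InR_trans p (by simp) (by simp) (ov 0 (by decide)) (vw3 0 (by decide))
      · exact InR_trans p (by simp) (by simp) oq (qw k hk)
  | v i =>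
    cases j with
    | o => simp [lvl] at hl
    | v k => simp [lvl] at hl
    | q => exact vq i (by rintro rfl; exact h3 ⟨rfl, rfl⟩)
    | w k =>
      by_cases hi : i = 3
      · subst hi
        exact v3w k (by rintro rfl; exact h4 ⟨rfl, rfl⟩)
      · by_cases hk : k = 3
        · subst hk
          exact vw3 i hi
        · exact InR_trans p (by simp) (by simp) (vq i hi) (qw k hk)
  | q =>
    cases j with
    | o => simp [lvl] at hl
    | v k => simp [lvl] at hl
    | q => simp [lvl] at hl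
    | w k => exact qw k (by rintro rfl; exact h1 ⟨rfl, rfl⟩)
  | w i => cases j <;> simp [lvl] at hl

end P

section Sub

variable {A : Type} [CommRing A] (S : Subgroup (Matrix (Fin 4) (Fin 4) A)ˣ) (hS : S ≤ S3 A)

lemma dgU_KG (σ : (Matrix (Fin 4) (Fin 4) A)ˣ) (hσ : σ ∈ S) : dgU σ ∈ KG S hS := by
  refine ⟨⟨⟨σ, hσ, fun i j _ => rfl⟩, ⟨σ⁻¹, S.inv_mem hσ, fun i j _ => rfl⟩⟩, ?_, ?_, ?_, ?_⟩
  · rfl
  · rfl
  · rfl
  · rfl

lemma el_BF (i j : Ix) (hl : lvl i < lvl j) (r : A) :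
    BF S (Matrix.transvection i j r) := by
  refine ⟨1, S.one_mem, fun k l hkl => ?_⟩
  rw [Units.val_one, dg_one, Matrix.transvection, Matrix.add_apply, Matrix.single_apply]
  rw [if_neg, add_zero]
  rintro ⟨rfl, rfl⟩
  omega

lemma el_KG (i j : Ix) (h : i ≠ j) (hl : lvl i < lvl j) (r : A)
    (h1 : ¬ (i = .q ∧ j = .w 3)) (h2 : ¬ (i = .o ∧ j = .v 3)) (h3 : ¬ (i = .v 3 ∧ j = .q))
    (h4 : ¬ (i = .v 3 ∧ j = .w 3)) : el i j h r ∈ KG S hS := by
  refine ⟨⟨el_BF S i j hl r, el_BF S i j hl (-r)⟩, ?_, ?_, ?_, ?_⟩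
  · show Matrix.transvection i j r .q (.w 3) = 0
    rw [Matrix.transvection, Matrix.add_apply, Matrix.single_apply, if_neg h1]
    simp
  · show Matrix.transvection i j r .o (.v 3) = 0
    rw [Matrix.transvection, Matrix.add_apply, Matrix.single_apply, if_neg h2]
    simp
  · show Matrix.transvection i j r (.v 3) .q = 0
    rw [Matrix.transvection, Matrix.add_apply, Matrix.single_apply, if_neg h3]
    simp
  · show Matrix.transvection i j r (.v 3) (.w 3) = 0
    rw [Matrix.transvection, Matrix.add_apply, Matrix.single_apply, if_neg h4]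
    simp

end Sub

section Main

variable (p : ℕ) [Fact p.Prime]

lemma le1 : HH p ≤ KK p := by
  rw [HH, Subgroup.closure_le]
  rintro _ ⟨i, rfl⟩
  have hs : ∀ σ ∈ ({el 0 1 (by decide) 1, el 1 2 (by decide) 1, el 2 0 (by decide) X} :
      Set (Matrix (Fin 4) (Fin 4) (ZMod p)[X])ˣ), dgU σ ∈ KK p := fun σ hσ =>
    dgU_KG _ _ _ (Subgroup.subset_closure hσ)
  fin_cases i
  · exact hs _ (by simp)
  · exact hs _ (by simp)
  · exact hs _ (by simp)
  · exact el_KG _ _ _ _ (by decide) (by decide) _ (by decide) (by decide) (by decide) (by decide)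
  · exact el_KG _ _ _ _ (by decide) (by decide) _ (by decide) (by decide) (by decide) (by decide)
  · exact el_KG _ _ _ _ (by decide) (by decide) _ (by decide) (by decide) (by decide) (by decide)
  · exact el_KG _ _ _ _ (by decide) (by decide) _ (by decide) (by decide) (by decide) (by decide)
  · exact el_KG _ _ _ _ (by decide) (by decide) _ (by decide) (by decide) (by decide) (by decide)

/-- Clearing row `i` when the rows above are clear. -/
lemma step (hSS : StSS) (u : (Matrix Ix Ix (ZMod p)[X])ˣ)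
    (hu : ∀ k l, lvl l ≤ lvl k → (u : Matrix Ix Ix (ZMod p)[X]) k l = if k = l then 1 else 0)
    (h1 : (u : Matrix Ix Ix (ZMod p)[X]) .q (.w 3) = 0)
    (h2 : (u : Matrix Ix Ix (ZMod p)[X]) .o (.v 3) = 0)
    (h3 : (u : Matrix Ix Ix (ZMod p)[X]) (.v 3) .q = 0)
    (h4 : (u : Matrix Ix Ix (ZMod p)[X]) (.v 3) (.w 3) = 0)
    (T : List Ix) (i : Ix) (hT : ∀ k l, k ∈ T → (u : Matrix Ix Ix (ZMod p)[X]) k l =
      if k = l then 1 else 0)
    (hi : ∀ k, lvl k < lvl i → k ∈ T) :
    ∃ h ∈ HH p, (∀ k l, lvl l ≤ lvl k → ((u * h : (Matrix Ix Ix (ZMod p)[X])ˣ) :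
        Matrix Ix Ix (ZMod p)[X]) k l = if k = l then 1 else 0) ∧
      ((u * h : (Matrix Ix Ix (ZMod p)[X])ˣ) : Matrix Ix Ix (ZMod p)[X]) .q (.w 3) = 0 ∧
      ((u * h : (Matrix Ix Ix (ZMod p)[X])ˣ) : Matrix Ix Ix (ZMod p)[X]) .o (.v 3) = 0 ∧
      ((u * h : (Matrix Ix Ix (ZMod p)[X])ˣ) : Matrix Ix Ix (ZMod p)[X]) (.v 3) .q = 0 ∧
      ((u * h : (Matrix Ix Ix (ZMod p)[X])ˣ) : Matrix Ix Ix (ZMod p)[X]) (.v 3) (.w 3) = 0 ∧
      (∀ k l, k ∈ i :: T → ((u * h : (Matrix Ix Ix (ZMod p)[X])ˣ) :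
        Matrix Ix Ix (ZMod p)[X]) k l = if k = l then 1 else 0) := by
  have hc : ∀ k, (u : Matrix Ix Ix (ZMod p)[X]) k i = if k = i then 1 else 0 := by
    intro k
    by_cases hk : lvl k < lvl i
    · exact hT k i (hi k hk)
    · exact hu k i (by omega)
  have hs : ∀ j ∈ Finset.univ.filter fun j => lvl i < lvl j, ∀ h : i ≠ j,
      (u : Matrix Ix Ix (ZMod p)[X]) i j = 0 ∨ ∀ r : (ZMod p)[X], el i j h r ∈ HH p := by
    intro j hj hij
    simp only [Finset.mem_filter, Finset.mem_univ, true_and] at hj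
    by_cases c1 : i = .q ∧ j = .w 3
    · left; rw [c1.1, c1.2, h1]
    by_cases c2 : i = .o ∧ j = .v 3
    · left; rw [c2.1, c2.2, h2]
    by_cases c3 : i = .v 3 ∧ j = .q
    · left; rw [c3.1, c3.2, h3]
    by_cases c4 : i = .v 3 ∧ j = .w 3
    · left; rw [c4.1, c4.2, h4]
    right
    exact roots p hSS i j hj c1 c2 c3 c4 hij
  obtain ⟨h, hh, e⟩ := clear (HH p) u i hc
    (Finset.univ.filter fun j => lvl i < lvl j) (by simp) hs
  refine ⟨h, hh, fun k l hkl => ?_, ?_, ?_, ?_, ?_, fun k l hk => ?_⟩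
  · rw [e k l, hu k l hkl]
    rw [if_neg]
    rintro ⟨rfl, hl⟩
    simp only [Finset.mem_filter, Finset.mem_univ, true_and] at hl
    omega
  · rw [e, h1]; simp
  · rw [e, h2]; simp
  · rw [e, h3]; simp
  · rw [e, h4]; simp
  · rw [e k l]
    by_cases hki : k = i
    · subst hki
      by_cases hkl : lvl k < lvl l
      · rw [if_pos ⟨rfl, by simpa using hkl⟩, if_neg]
        rintro rfl
        omega
      · rw [if_neg (by simp only [Finset.mem_filter, Finset.mem_univ, true_and]; tauto)]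
        exact hu k l (by omega)
    · rw [if_neg (by tauto)]
      rcases List.mem_cons.1 hk with h | h
      · exact absurd h hki
      · exact hT k l h

lemma unip (hSS : StSS) (u : (Matrix Ix Ix (ZMod p)[X])ˣ)
    (hu : ∀ k l, lvl l ≤ lvl k → (u : Matrix Ix Ix (ZMod p)[X]) k l = if k = l then 1 else 0)
    (h1 : (u : Matrix Ix Ix (ZMod p)[X]) .q (.w 3) = 0)
    (h2 : (u : Matrix Ix Ix (ZMod p)[X]) .o (.v 3) = 0)
    (h3 : (u : Matrix Ix Ix (ZMod p)[X]) (.v 3) .q = 0)
    (h4 : (u : Matrix Ix Ix (ZMod p)[X]) (.v 3) (.w 3) = 0) : u ∈ HH p := by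
  obtain ⟨g0, m0, u0, a1, a2, a3, a4, t0⟩ := step p hSS u hu h1 h2 h3 h4 [] .o
    (by simp) (by intro k hk; simp [lvl] at hk)
  obtain ⟨g1, m1, u1, b1, b2, b3, b4, t1⟩ := step p hSS _ u0 a1 a2 a3 a4 [.o] (.v 0) t0
    (by intro k hk; cases k <;> simp_all [lvl])
  obtain ⟨g2, m2, u2, c1, c2, c3, c4, t2⟩ := step p hSS _ u1 b1 b2 b3 b4 _ (.v 1) t1
    (by intro k hk; cases k <;> simp_all [lvl])
  obtain ⟨g3, m3, u3, d1, d2, d3, d4, t3⟩ := step p hSS _ u2 c1 c2 c3 c4 _ (.v 2) t2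
    (by intro k hk; cases k <;> simp_all [lvl])
  obtain ⟨g4, m4, u4, e1, e2, e3, e4, t4⟩ := step p hSS _ u3 d1 d2 d3 d4 _ (.v 3) t3
    (by intro k hk; cases k <;> simp_all [lvl])
  obtain ⟨g5, m5, u5, -, -, -, -, t5⟩ := step p hSS _ u4 e1 e2 e3 e4 _ .q t4
    (by
      intro k hk
      cases k with
      | o => simp
      | v i => fin_cases i <;> simp
      | q => simp [lvl] at hk
      | w i => simp [lvl] at hk)
  have : u * g0 * g1 * g2 * g3 * g4 * g5 = 1 := by
    ext1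
    ext1 k l
    rw [Units.val_one, Matrix.one_apply]
    cases k with
    | o => exact t5 _ _ (by simp)
    | v i => exact t5 _ _ (by fin_cases i <;> simp)
    | q => exact t5 _ _ (by simp)
    | w i => exact u5 _ _ (by cases l <;> simp [lvl])
  have h5 : u = (g0 * g1 * g2 * g3 * g4 * g5)⁻¹ := by
    rw [eq_inv_iff_mul_eq_one, ← this]
    group
  rw [h5]
  exact (HH p).inv_mem ((HH p).mul_mem ((HH p).mul_mem ((HH p).mul_mem ((HH p).mul_mem
    ((HH p).mul_mem m0 m1) m2) m3) m4) m5)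

lemma le2 (hSS : StSS) : KK p ≤ HH p := by
  intro g hg
  obtain ⟨⟨σ, hσ, e⟩, -⟩ := hg.1
  have hd := dgU_KG (SS p) (SS_le p) σ⁻¹ ((SS p).inv_mem hσ)
  have hn : dgU σ⁻¹ * g ∈ KK p := (KK p).mul_mem hd hg
  have hu : dgU σ⁻¹ * g ∈ HH p := by
    refine unip p hSS _ (fun k l hkl => ?_) hn.2.1 hn.2.2.1 hn.2.2.2.1 hn.2.2.2.2
    have : (1 : Matrix Ix Ix (ZMod p)[X]) k l = if k = l then 1 else 0 := Matrix.one_apply
    have e2 : (1 : Matrix Ix Ix (ZMod p)[X]) =
        dg ((σ⁻¹ : (Matrix (Fin 4) (Fin 4) (ZMod p)[X])ˣ) : Matrix (Fin 4) (Fin 4) (ZMod p)[X]) *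
          dg (σ : Matrix (Fin 4) (Fin 4) (ZMod p)[X]) := by
      rw [← dg_mul, ← Units.val_mul, inv_mul_cancel, Units.val_one, dg_one]
    rw [← this, e2, Units.val_mul, Matrix.mul_apply, Matrix.mul_apply]
    refine Finset.sum_congr rfl fun m _ => ?_
    show dg _ k m * _ = _
    rcases le_or_gt (lvl l) (lvl m) with hm | hm
    · rw [e m l hm]
    · rw [dg_zero_of_lvl (i := k) (j := m) (by omega)]
      simp
  have : g = dgU σ * (dgU σ⁻¹ * g) := by
    rw [← mul_assoc, ← map_mul, mul_inv_cancel, map_one, one_mul]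
  rw [this]
  exact (HH p).mul_mem (dgU_mem p σ hσ) hu

end Main

end GEN

theorem pGEN : StGen := fun hSS p _ => le_antisymm (GEN.le1 p) (GEN.le2 p hSS)

end Helper53.NG
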