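import Pool.Agent.Helper53.NG.StB

/-!
# Project NG, module GPN (5.2 of the text)
-/

set_option autoImplicit false

namespace Helper53.NG

open Helper51.MU Helper61.IE Filter Topology
open scoped Matrix.Norms.L2Operator MatrixOrder ComplexOrder

attribute [local irreducible] Helper51.MU.instRingMUlt

namespace GPN

variable {ι : ℕ → Type} [∀ n, Fintype (ι n)] [∀ n, DecidableEq (ι n)] {U : Ultrafilter ℕ}

lemma tr_conj {v : MUlt ι U} (hv : star v * v = 1) (y : MUlt ι U) :
    tr (v * y * star v) = tr y := by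
  rw [tr_mul_comm, ← mul_assoc, hv, one_mul]

lemma nrm_mul_unit {v : MUlt ι U} (hv : star v * v = 1) (y : MUlt ι U) :
    Helper61.IE.nrm (y * v) = Helper61.IE.nrm y := by
  have h : tr (star (y * v) * (y * v)) = tr (star y * y) := by
    rw [tr_mul_comm, star_mul, mul_assoc, ← mul_assoc v, mul_star_of_unit hv, one_mul,
      tr_mul_comm]
  rw [tr_star_mul, tr_star_mul] at h
  exact_mod_cast h

lemma bessel {m : ℕ} (h : Fin m → MUlt ι U)
    (hh : ∀ s t, tr (star (h s) * h t) = if s = t then 1 else 0)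
    (x : MUlt ι U) (a : ℂ) (ha : ∀ s, tr (star x * h s) = a) :
    (m : ℝ) * ‖a‖ ^ 2 ≤ Helper61.IE.nrm x := by
  rcases Nat.eq_zero_or_pos m with hm | hm
  · subst hm
    simp [nrm_nonneg]
  have h1 : tr (star x * ∑ s, h s) = m * a := by
    rw [Finset.mul_sum, tr_sum, Finset.sum_congr rfl fun s _ => ha s]
    simp
  have h2 : Helper61.IE.nrm (∑ s, h s) = m := by
    have h3 := tr_star_mul (∑ s, h s)
    rw [star_sum, Finset.sum_mul_sum, tr_sum] at h3
    have h4 : ∀ s, tr (∑ t, star (h s) * h t) = 1 := by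
      intro s
      rw [tr_sum, Finset.sum_congr rfl fun t _ => hh s t]
      simp
    rw [Finset.sum_congr rfl fun s _ => h4 s] at h3
    simp only [Finset.sum_const, Finset.card_univ, Fintype.card_fin, nsmul_eq_mul, mul_one] at h3
    exact_mod_cast h3.symm
  have h5 := norm_tr_mul_le x (∑ s, h s)
  rw [h1, h2, norm_mul, mul_pow, Complex.norm_natCast] at h5
  have hm' : (0 : ℝ) < m := by exact_mod_cast hm
  have h6 : (m : ℝ) * ((m : ℝ) * ‖a‖ ^ 2) ≤ m * Helper61.IE.nrm x := by nlinarith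
  exact le_of_mul_le_mul_left h6 hm'

lemma eq_zero_of_bessel {a : ℂ} {C : ℝ} (h : ∀ m : ℕ, (m : ℝ) * ‖a‖ ^ 2 ≤ C) : a = 0 := by
  by_contra ha
  have h1 : 0 < ‖a‖ ^ 2 := by positivity
  obtain ⟨m, hm⟩ := exists_nat_gt (C / ‖a‖ ^ 2)
  have h2 := h m
  rw [div_lt_iff₀ h1] at hm
  linarith

lemma sub_tr_star_mul (w z : MUlt ι U) :
    tr (star (w - tr w • (1 : MUlt ι U)) * z) = tr (star w * z) - star (tr w) * tr z := by
  rw [star_sub, star_smul', star_one, sub_mul, tr_sub, smul_mul_assoc, one_mul, tr_smul]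
  rfl

lemma closure_zero (S : Submodule ℂ (MUlt ι U)) (w z : MUlt ι U)
    (hS : ∀ y ∈ S, tr (star w * y) = 0)
    (hz : ∀ ε > 0, ∃ y' ∈ S, Helper61.IE.nrm (z - y') < ε) : tr (star w * z) = 0 := by
  by_contra hne
  have h1 : 0 < ‖tr (star w * z)‖ ^ 2 := by positivity
  obtain ⟨y', hy', hlt⟩ := hz (‖tr (star w * z)‖ ^ 2 / (Helper61.IE.nrm w + 1))
    (div_pos h1 (by linarith [nrm_nonneg w]))
  have h2 : tr (star w * z) = tr (star w * (z - y')) := by
    rw [mul_sub, tr_sub, hS y' hy', sub_zero]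
  have h3 := norm_tr_mul_le w (z - y')
  rw [← h2] at h3
  have h4 : (0 : ℝ) < Helper61.IE.nrm w + 1 := by linarith [nrm_nonneg w]
  rw [lt_div_iff₀ h4] at hlt
  nlinarith [nrm_nonneg (z - y'), nrm_nonneg w]

lemma nrm_sub_tr (h0 : ∀ᶠ n in (U : Filter ℕ), Nonempty (ι n)) (y : MUlt ι U) :
    Helper61.IE.nrm (y - tr y • (1 : MUlt ι U)) = Helper61.IE.nrm y - ‖tr y‖ ^ 2 := by
  have h1 := tr_star_mul (y - tr y • (1 : MUlt ι U))
  rw [sub_tr_star_mul, mul_sub, tr_sub, tr_sub, mul_smul_comm, mul_one, tr_smul, tr_smul,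
    tr_one h0, tr_star, tr_star_mul] at h1
  have h2 := congrArg Complex.re h1
  rw [Complex.ofReal_re] at h2
  rw [← h2]
  have h3 : tr y * star (tr y) = ((‖tr y‖ ^ 2 : ℝ) : ℂ) := by
    rw [RCLike.star_def, Complex.mul_conj', Complex.ofReal_pow]
  rw [mul_one, sub_self, mul_zero, sub_zero, h3, ← Complex.ofReal_sub, Complex.ofReal_re]

lemma tr_TAv {K I : Type} [Group K] [Fintype I] (p : ℕ) (x : I → K) (hp : 0 < p)
    (hI : Nonempty I) (α : K → MUlt ι U) (hα : ∀ k, star (α k) * α k = 1) (y : MUlt ι U) :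
    tr (TAv p x (cnj α α) y) = tr y := by
  have h1 : TAv p x (cnj α α) y = ((Fintype.card I : ℂ) * (p : ℂ))⁻¹ •
      ∑ i, ∑ j ∈ Finset.range p, α (x i ^ j) * y * star (α (x i ^ j)) := by
    simp only [TAv, LinearMap.smul_apply, LinearMap.sum_apply]
    rfl
  rw [h1, tr_smul, tr_sum]
  have h2 : ∀ i, tr (∑ j ∈ Finset.range p, α (x i ^ j) * y * star (α (x i ^ j))) = p * tr y := by
    intro i
    rw [tr_sum, Finset.sum_congr rfl fun j _ => tr_conj (hα _) y]
    simp
  rw [Finset.sum_congr rfl fun i _ => h2 i]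
  have h3 : (Fintype.card I : ℂ) ≠ 0 := by
    exact_mod_cast Fintype.card_ne_zero
  have h4 : (p : ℂ) ≠ 0 := by exact_mod_cast hp.ne'
  simp only [Finset.sum_const, Finset.card_univ, nsmul_eq_mul]
  field_simp

lemma tr_TAv_pow {K I : Type} [Group K] [Fintype I] (p : ℕ) (x : I → K) (hp : 0 < p)
    (hI : Nonempty I) (α : K → MUlt ι U) (hα : ∀ k, star (α k) * α k = 1) (k : ℕ)
    (y : MUlt ι U) : tr ((TAv p x (cnj α α) ^ k) y) = tr y := by
  induction k with
  | zero => rfl
  | succ k ih =>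
    rw [pow_succ', Module.End.mul_apply, tr_TAv p x hp hI α hα, ih]

end GPN

open GPN

theorem pGPN : StGPN := by
  intro hCNJ G K I _ _ _ _ p x N ι _ _ U hU hne hT hI i φ C hC1 hC0 hφ hconj u hu hφu y hy
  obtain ⟨hc0, hc1, -, hTC, hlim⟩ := hCNJ K I p x N ι U hU hT hI (u.comp i) (u.comp i)
    (fun k => hu (i k)) (fun k => hu (i k))
  obtain ⟨Cb, -, hNB⟩ := exists_NB y
  obtain ⟨y', -, hcom, hTk⟩ := hlim y Cb hNB
  set c := cT p (Fintype.card I) with hc
  set T := TAv p x (cnj (fun k => (u.comp i) k) fun k => (u.comp i) k) with hTdef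
  have hp : 0 < p := hT.prime.pos
  -- convergence
  have hconv : Tendsto (fun k : ℕ => Helper61.IE.nrm ((T ^ k) y - y')) atTop (𝓝 0) := by
    have h1 : Tendsto (fun k : ℕ => 4 / c * (1 - c) ^ (2 * k) * Helper61.IE.nrm y) atTop
        (𝓝 (4 / c * 0 * Helper61.IE.nrm y)) := by
      refine (Tendsto.const_mul _ ?_).mul_const _
      have h2 : ∀ k : ℕ, (1 - c) ^ (2 * k) = ((1 - c) ^ 2) ^ k := fun k => pow_mul _ _ _
      simp only [h2]
      apply tendsto_pow_atTop_nhds_zero_of_lt_one (by positivity)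
      nlinarith
    rw [mul_zero, zero_mul] at h1
    exact squeeze_zero (fun k => nrm_nonneg _) hTk h1
  -- continuity of the form
  have hform : ∀ z : MUlt ι U, Tendsto (fun k : ℕ => tr (star ((T ^ k) y) * z)) atTop
      (𝓝 (tr (star y' * z))) := by
    intro z
    rw [tendsto_iff_norm_sub_tendsto_zero]
    have h1 : ∀ k : ℕ, ‖tr (star ((T ^ k) y) * z) - tr (star y' * z)‖ ≤
        Real.sqrt (Helper61.IE.nrm ((T ^ k) y - y') * Helper61.IE.nrm z) := by
      intro k
      apply Real.le_sqrt_of_sq_le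
      have h2 := norm_tr_mul_le ((T ^ k) y - y') z
      rwa [star_sub, sub_mul, tr_sub] at h2
    have h3 : Tendsto (fun k : ℕ => Real.sqrt (Helper61.IE.nrm ((T ^ k) y - y') *
        Helper61.IE.nrm z)) atTop (𝓝 (Real.sqrt (0 * Helper61.IE.nrm z))) :=
      (Real.continuous_sqrt.tendsto _).comp (hconv.mul_const _)
    rw [zero_mul, Real.sqrt_zero] at h3
    exact squeeze_zero (fun k => norm_nonneg _) h1 h3
  -- the trace of the limit
  have htr : tr y' = tr y := by
    have h1 := hform 1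
    have h2 : ∀ k : ℕ, tr (star ((T ^ k) y) * 1) = star (tr y) := by
      intro k
      have h3 : tr ((T ^ k) y) = tr y :=
        tr_TAv_pow p x hp hI (fun k => (u.comp i) k) (fun k => hu (i k)) k y
      rw [mul_one, tr_star, h3]
    simp only [h2] at h1
    have h3 := tendsto_nhds_unique h1 tendsto_const_nhds
    rw [mul_one, tr_star] at h3
    exact star_injective h3
  -- commutation
  have hcom' : ∀ k, star (u (i k)) * star y' * u (i k) = star y' := by
    intro k
    have h1 : u (i k) * y' = y' * u (i k) := hcom k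
    have h2 := congrArg star h1
    rw [star_mul, star_mul] at h2
    rw [← h2, mul_assoc, hu, mul_one]
  have hinv : ∀ g h, tr (star (u g) * u h) = φ (g⁻¹ * h) := by
    intro g h
    rw [← hom_inv u hu, ← map_mul, hφu]
  have hφ1 : φ 1 = 1 := by rw [← hφu, map_one, tr_one hne]
  -- the main claim
  have hmain : ∀ g, tr (star y' * u g) = star (tr y') * tr (u g) := by
    intro g
    by_cases hg : g ∈ C
    · have h1 := unit_eq_smul hne (hu g) (by rw [hφu]; exact hC1 g hg)
      conv_lhs => rw [h1]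
      rw [mul_smul_comm, mul_one, tr_smul, tr_star, mul_comm]
    · rw [hφu, hC0 g hg, mul_zero]
      apply eq_zero_of_bessel (C := Helper61.IE.nrm y')
      intro m
      obtain ⟨k, hk⟩ := hconj g hg m
      refine bessel (fun s => u (i (k s) * g * (i (k s))⁻¹)) ?_ y' _ ?_
      · intro s t
        rw [hinv]
        split_ifs with hst
        · subst hst
          rw [inv_mul_cancel, hφ1]
        · rw [← hφ (i (k s) * g * (i (k s))⁻¹), ← mul_assoc, mul_inv_cancel, one_mul]
          exact hC0 _ (hk t s (Ne.symm hst))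
      · intro s
        rw [map_mul, map_mul, hom_inv u hu, ← mul_assoc, ← mul_assoc, tr_mul_comm, ← mul_assoc,
          ← mul_assoc, hcom']
  have hspan : ∀ z ∈ Submodule.span ℂ (Set.range u),
      tr (star (y' - tr y' • (1 : MUlt ι U)) * z) = 0 := by
    intro z hz
    induction hz using Submodule.span_induction with
    | mem z hz =>
      obtain ⟨g, rfl⟩ := hz
      rw [sub_tr_star_mul, hmain, sub_self]
    | zero => rw [mul_zero, tr_zero]
    | add a b _ _ ha hb => rw [mul_add, tr_add, ha, hb, add_zero]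
    | smul t a _ ha => rw [mul_smul_comm, tr_smul, ha, mul_zero]
  have hy0 := closure_zero _ _ y hspan hy
  rw [sub_tr_star_mul, htr, sub_eq_zero] at hy0
  -- the lower bound
  have hlow : Helper61.IE.nrm y - (tr (star y' * y)).re ≤
      1 / c * Qf (fun x y : MUlt ι U => tr (star x * y)) T y := by
    have h1 : Tendsto (fun k : ℕ => Helper61.IE.nrm y - (tr (star ((T ^ k) y) * y)).re) atTop
        (𝓝 (Helper61.IE.nrm y - (tr (star y' * y)).re)) :=
      tendsto_const_nhds.sub ((Complex.continuous_re.tendsto _).comp (hform y))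
    exact le_of_tendsto' h1 fun k => hTC.low k y
  have hconv2 := hTC.conv y
  have hgen : ∀ s, (tr (star (cnj (fun k => (u.comp i) k) (fun k => (u.comp i) k) (x s) y - y) *
      (cnj (fun k => (u.comp i) k) (fun k => (u.comp i) k) (x s) y - y))).re =
      Helper61.IE.nrm (u (i (x s)) * y - y * u (i (x s))) := by
    intro s
    have h1 : cnj (fun k => (u.comp i) k) (fun k => (u.comp i) k) (x s) y - y =
        (u (i (x s)) * y - y * u (i (x s))) * star (u (i (x s))) := by
      rw [sub_mul, mul_assoc y, mul_star_of_unit (hu _), mul_one]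
      rfl
    rw [h1]
    have h2 : star (star (u (i (x s)))) * star (u (i (x s))) = 1 := by
      rw [star_star]; exact mul_star_of_unit (hu _)
    exact nrm_mul_unit h2 _
  simp only [hgen] at hconv2
  rw [nrm_sub_tr hne]
  have h9 : (tr (star y' * y)).re = ‖tr y‖ ^ 2 := by
    rw [hy0, RCLike.star_def, Complex.conj_mul', ← Complex.ofReal_pow, Complex.ofReal_re]
  rw [h9] at hlow
  calc Helper61.IE.nrm y - ‖tr y‖ ^ 2 ≤ 1 / c * Qf (fun x y : MUlt ι U => tr (star x * y)) T y :=
        hlow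
    _ ≤ 1 / c * ((p : ℝ) ^ 2 * ∑ s, Helper61.IE.nrm (u (i (x s)) * y - y * u (i (x s)))) :=
        mul_le_mul_of_nonneg_left hconv2 (by positivity)
    _ = _ := by ring

end Helper53.NG

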