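import Pool.Agent.Helper53.NG.StA

set_option autoImplicit false
set_option linter.unusedSectionVars false

/-!
# Project NG, module IDL: 2-norm closed two-sided ideals
-/

namespace Helper53.NG

open Helper51.MU Helper61.IE Filter Topology
open scoped Matrix.Norms.L2Operator MatrixOrder ComplexOrder

attribute [local irreducible] Helper51.MU.instRingMUlt

namespace IDL

variable {ι : ℕ → Type} [∀ n, Fintype (ι n)] [∀ n, DecidableEq (ι n)] {U : Ultrafilter ℕ}

lemma pj_zero : Pj (0 : MUlt ι U) := ⟨star_zero _, mul_zero 0⟩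

/-- `e ≤ f`. -/
lemma le_star {e f : MUlt ι U} (he : Pj e) (hf : Pj f) (h : f * e = e) : e * f = e := by
  have := congrArg star h
  rw [star_mul, he.1, hf.1] at this
  exact this

lemma sub_pj {e f : MUlt ι U} (he : Pj e) (hf : Pj f) (h : f * e = e) : Pj (f - e) := by
  refine ⟨by rw [star_sub, he.1, hf.1], ?_⟩
  rw [sub_mul, mul_sub, mul_sub, hf.2, h, le_star he hf h, he.2, sub_self, sub_zero]

lemma nrm_sub_eq {e f : MUlt ι U} (he : Pj e) (hf : Pj f) (h : f * e = e) :
    nrm (f - e) = (tr f).re - (tr e).re := by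
  rw [(sub_pj he hf h).nrm, tr_sub, Complex.sub_re]

lemma tr_mono {e f : MUlt ι U} (he : Pj e) (hf : Pj f) (h : f * e = e) :
    (tr e).re ≤ (tr f).re := by
  have := nrm_sub_eq he hf h
  have h1 := nrm_nonneg (f - e)
  linarith

lemma lim_unique {x : ℕ → MUlt ι U} {a b : MUlt ι U}
    (ha : Tendsto (fun k => nrm (x k - a)) atTop (𝓝 0))
    (hb : Tendsto (fun k => nrm (x k - b)) atTop (𝓝 0)) : a = b := by
  have h1 : ∀ k, nrm (a - b) ≤ 2 * nrm (x k - a) + 2 * nrm (x k - b) := by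
    intro k
    have h2 := nrm_add_le (a - x k) (x k - b)
    rw [sub_add_sub_cancel, nrm_sub_comm a (x k)] at h2
    exact h2
  have h2 : Tendsto (fun k => 2 * nrm (x k - a) + 2 * nrm (x k - b)) atTop (𝓝 0) := by
    have := (ha.const_mul 2).add (hb.const_mul 2)
    simpa using this
  have h3 : nrm (a - b) ≤ 0 := ge_of_tendsto' h2 h1
  exact sub_eq_zero.1 (nrm_eq_zero.1 (le_antisymm h3 (nrm_nonneg _)))

lemma lim_star {x : ℕ → MUlt ι U} {a : MUlt ι U}
    (ha : Tendsto (fun k => nrm (x k - a)) atTop (𝓝 0)) :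
    Tendsto (fun k => nrm (star (x k) - star a)) atTop (𝓝 0) := by
  refine ha.congr fun k => ?_
  rw [← star_sub, nrm_star]

lemma lim_mul_right {x : ℕ → MUlt ι U} {a : MUlt ι U} (z : MUlt ι U)
    (ha : Tendsto (fun k => nrm (x k - a)) atTop (𝓝 0)) :
    Tendsto (fun k => nrm (x k * z - a * z)) atTop (𝓝 0) := by
  obtain ⟨C, _, hC⟩ := exists_NB z
  have h1 : Tendsto (fun k => C ^ 2 * nrm (x k - a)) atTop (𝓝 0) := by
    simpa using ha.const_mul (C ^ 2)
  refine squeeze_zero (fun k => nrm_nonneg _) (fun k => ?_) h1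
  rw [← sub_mul]
  exact nrm_mul_le' hC _

lemma lim_mul {x y : ℕ → MUlt ι U} {a b : MUlt ι U} {C : ℝ} (hx : ∀ k, NB C (x k))
    (ha : Tendsto (fun k => nrm (x k - a)) atTop (𝓝 0))
    (hb : Tendsto (fun k => nrm (y k - b)) atTop (𝓝 0)) :
    Tendsto (fun k => nrm (x k * y k - a * b)) atTop (𝓝 0) := by
  have h1 : Tendsto (fun k => 2 * (C ^ 2 * nrm (y k - b)) + 2 * nrm (x k * b - a * b)) atTop
      (𝓝 0) := by
    have := ((hb.const_mul (C ^ 2)).const_mul 2).add ((lim_mul_right b ha).const_mul 2)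
    simpa using this
  refine squeeze_zero (fun k => nrm_nonneg _) (fun k => ?_) h1
  have h2 : x k * y k - a * b = x k * (y k - b) + (x k * b - a * b) := by
    rw [mul_sub]; abel
  rw [h2]
  refine (nrm_add_le _ _).trans ?_
  have h3 := nrm_mul_le (hx k) (y k - b)
  linarith

lemma pj_NB (hNB : StNB1) {e : MUlt ι U} (he : Pj e) : NB 1 e := by
  apply hNB ι U e
  rw [he.1, he.2]
  exact he

lemma tr_le_one (hNB : StNB1) {e : MUlt ι U} (he : Pj e) : (tr e).re ≤ 1 := by
  have h1 := nrm_le_of_NB (pj_NB hNB he)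
  rw [he.nrm] at h1
  simpa using h1

/-- Maximal projections exist in 2-norm closed sets of projections. -/
lemma exists_max (hNB : StNB1) (hCom : StCom) (hU : Nonprincipal U) (P : Set (MUlt ι U))
    (hP : ∀ e ∈ P, Pj e) (h0 : (0 : MUlt ι U) ∈ P)
    (hcl : ∀ x, Pj x → (∀ ε > 0, ∃ y ∈ P, nrm (x - y) < ε) → x ∈ P) :
    ∃ q ∈ P, ∀ f ∈ P, f * q = q → f = q := by
  have hstep : ∀ (k : ℕ) (e : MUlt ι U), e ∈ P → ∃ e' ∈ P, e' * e = e ∧
      ∀ f ∈ P, f * e = e → (tr f).re ≤ (tr e').re + (1 / 16) ^ k := by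
    intro k e he
    set T : Set ℝ := {t | ∃ f ∈ P, f * e = e ∧ t = (tr f).re} with hT
    have hne : T.Nonempty := ⟨_, e, he, (hP e he).2, rfl⟩
    have hbd : BddAbove T := by
      refine ⟨1, ?_⟩
      rintro t ⟨f, hf, _, rfl⟩
      exact tr_le_one hNB (hP f hf)
    have hpos : (0 : ℝ) < (1 / 16) ^ k := by positivity
    obtain ⟨t, ⟨f, hf, hfe, rfl⟩, ht⟩ := exists_lt_of_lt_csSup hne
      (show sSup T - (1 / 16) ^ k < sSup T by linarith)
    refine ⟨f, hf, hfe, fun f' hf' hfe' => ?_⟩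
    have := le_csSup hbd ⟨f', hf', hfe', rfl⟩
    linarith
  choose! F hF1 hF2 hF3 using hstep
  let E : ℕ → MUlt ι U := fun k => Nat.rec 0 (fun k e => F k e) k
  have hE : ∀ k, E k ∈ P := by
    intro k
    induction k with
    | zero => exact h0
    | succ k ih => exact hF1 k _ ih
  have hE1 : ∀ k, E (k + 1) * E k = E k := fun k => hF2 k _ (hE k)
  have hE2 : ∀ k, ∀ f ∈ P, f * E k = E k → (tr f).re ≤ (tr (E (k + 1))).re + (1 / 16) ^ k :=
    fun k => hF3 k _ (hE k)
  have hle : ∀ m k, E (m + k) * E m = E m := by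
    intro m k
    induction k with
    | zero => exact (hP _ (hE m)).2
    | succ k ih =>
      have h1 := hE1 (m + k)
      calc E (m + (k + 1)) * E m = E (m + k + 1) * (E (m + k) * E m) := by rw [ih]; rfl
        _ = E m := by rw [← mul_assoc, h1, ih]
  have hnb : ∀ k, NB 1 (E k) := fun k => pj_NB hNB (hP _ (hE k))
  obtain ⟨q, hq1, hq2⟩ := hCom ι U hU (fun k => E (k + 1)) 1 (fun k => hnb (k + 1)) (by
    intro k
    have h1 := hP _ (hE (k + 1))
    have h2 := hP _ (hE (k + 1 + 1))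
    rw [nrm_sub_eq h1 h2 (hE1 (k + 1))]
    have h3 := hE2 k (E (k + 1 + 1)) (hE (k + 1 + 1)) (hle k 2)
    linarith)
  have hqs : star q = q := by
    refine lim_unique (x := fun k => E (k + 1)) ?_ hq2
    refine (lim_star hq2).congr fun k => ?_
    rw [(hP _ (hE (k + 1))).1]
  have hqq : q * q = q := by
    refine lim_unique (x := fun k => E (k + 1)) ?_ hq2
    refine (lim_mul (fun k => hnb (k + 1)) hq2 hq2).congr fun k => ?_
    rw [(hP _ (hE (k + 1))).2]
  have hqP : q ∈ P := by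
    refine hcl q ⟨hqs, hqq⟩ fun ε hε => ?_
    obtain ⟨k, hk⟩ := ((tendsto_order.1 hq2).2 ε hε).exists
    exact ⟨E (k + 1), hE (k + 1), by rw [nrm_sub_comm]; exact hk⟩
  have hqE : ∀ m, q * E m = E m := by
    intro m
    refine lim_unique (x := fun k => E (k + 1) * E m) (lim_mul_right _ hq2) ?_
    refine tendsto_const_nhds.congr' ?_
    filter_upwards [eventually_ge_atTop m] with k hk
    obtain ⟨j, rfl⟩ := Nat.exists_eq_add_of_le hk
    rw [show m + j + 1 = m + (j + 1) from rfl, hle m (j + 1), sub_self, nrm_zero]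
  refine ⟨q, hqP, fun f hf hfq => ?_⟩
  have h1 : ∀ k, (tr f).re ≤ (tr q).re + (1 / 16) ^ k := by
    intro k
    have h2 : f * E k = E k := by
      rw [← hqE k, ← mul_assoc, hfq]
    have h3 := hE2 k f hf h2
    have h4 := tr_mono (hP _ (hE (k + 1))) ⟨hqs, hqq⟩ (hqE (k + 1))
    linarith
  have h2 : (tr f).re ≤ (tr q).re := by
    have h3 : Tendsto (fun k : ℕ => (tr q).re + (1 / 16 : ℝ) ^ k) atTop (𝓝 ((tr q).re + 0)) :=
      tendsto_const_nhds.add (tendsto_pow_atTop_nhds_zero_of_lt_one (by norm_num) (by norm_num))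
    rw [add_zero] at h3
    exact ge_of_tendsto' h3 h1
  have h3 := nrm_sub_eq (⟨hqs, hqq⟩ : Pj q) (hP f hf) hfq
  have h4 := nrm_nonneg (f - q)
  exact sub_eq_zero.1 (nrm_eq_zero.1 (by linarith))

end IDL

open IDL in
theorem pIDL : StIdl := by
  intro hNB hCom hPol ι _ _ U hU D I hD hID hI0 hIadd hIid hIcl
  have hIneg : ∀ x ∈ I, -x ∈ I := by
    intro x hx
    have h1 := (hIid x hx (-1) (hD.neg hD.one)).1
    rwa [neg_one_mul] at h1
  have hIsub : ∀ x ∈ I, ∀ y ∈ I, x - y ∈ I := by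
    intro x hx y hy
    rw [sub_eq_add_neg]
    exact hIadd x hx _ (hIneg y hy)
  obtain ⟨q, ⟨hqI, hq⟩, hmax⟩ := exists_max hNB hCom hU {e | e ∈ I ∧ Pj e} (fun e he => he.2)
    ⟨hI0, pj_zero⟩ (by
      intro x hx h1
      refine ⟨?_, hx⟩
      apply hIcl x
      · apply hD.closed x
        intro ε hε
        obtain ⟨y, hy, h2⟩ := h1 ε hε
        exact ⟨y, hID hy.1, h2⟩
      · intro ε hε
        obtain ⟨y, hy, h2⟩ := h1 ε hε
        exact ⟨y, hy.1, h2⟩)
  have s2 : ∀ y ∈ I, y * q = y := by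
    intro y hy
    by_contra hne
    set a : MUlt ι U := y - y * q with ha
    have ha0 : a ≠ 0 := fun h => hne (sub_eq_zero.1 h).symm
    have haI : a ∈ I := hIsub y hy _ (hIid y hy q (hID hqI)).2
    have haq : a * q = 0 := by
      rw [ha, sub_mul, mul_assoc, hq.2, sub_self]
    obtain ⟨g, _, h, hh, hf, hf0, hf1, _⟩ := hPol ι U hU D hD a (hID haI) ha0
    set f : MUlt ι U := star (a * g) * (a * g) with hfdef
    have hfI : f ∈ I := by
      rw [hf1]
      exact (hIid _ (hIid a haI (star a) (hD.star a (hID haI))).1 h hh).1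
    have hfq : f * q = 0 := by
      rw [hf1, mul_assoc, mul_assoc, haq, mul_zero, mul_zero]
    have hqf : q * f = 0 := by
      have h1 := congrArg star hfq
      rw [star_mul, star_zero, hq.1, hf.1] at h1
      exact h1
    have h1 : q + f = q := by
      apply hmax
      · refine ⟨hIadd q hqI f hfI, ?_, ?_⟩
        · rw [star_add, hq.1, hf.1]
        · rw [add_mul, mul_add, mul_add, hq.2, hf.2, hqf, hfq, add_zero, zero_add]
      · rw [add_mul, hq.2, hfq, add_zero]
    exact hf0 (by simpa using h1)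
  have s3 : ∀ y ∈ I, q * y = y := by
    intro y hy
    set a : MUlt ι U := y - q * y with ha
    have haI : a ∈ I := hIsub y hy _ (hIid y hy q (hID hqI)).1
    have hqa : q * a = 0 := by
      rw [ha, mul_sub, ← mul_assoc, hq.2, sub_self]
    have h1 := s2 (a * star a) (hIid a haI (star a) (hD.star a (hID haI))).2
    have h2 := congrArg star h1
    rw [star_mul, star_mul, star_star, hq.1, ← mul_assoc, hqa, zero_mul] at h2
    have h3 : nrm (star a) = 0 := by
      unfold Helper61.IE.nrm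
      rw [star_star, ← h2, tr_zero, Complex.zero_re]
    rw [nrm_star] at h3
    exact (sub_eq_zero.1 (nrm_eq_zero.1 h3)).symm
  refine ⟨q, hqI, hq, ⟨hID hqI, fun d hd => ?_⟩, s2⟩
  have h1 := s2 (q * d) (hIid q hqI d hd).2
  have h2 := s3 (d * q) (hIid q hqI d hd).1
  rw [← h1, mul_assoc, h2]

end Helper53.NG
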