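import Pool.Agent.Helper53.NG.StB
import Pool.Agent.Helper61.IE.Lib
import Pool.Agent.Helper61.IE.PDiag

/-!
# Project NG: module IMA, improvement by the powers of the averaging operator
-/

set_option linter.unusedSectionVars false

namespace Helper53.NG

open Helper51.MU Helper61.IE Filter Topology
open scoped Matrix.Norms.L2Operator MatrixOrder ComplexOrder

attribute [local irreducible] Helper51.MU.instRingMUlt

namespace IMA

/-! ## finite dimensional facts -/

section fin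

variable {κ : Type} [Fintype κ] [DecidableEq κ] {b : ℕ}

lemma ptr_apply (W : Matrix (Fin b × κ) (Fin b × κ) ℂ) (s t : κ) :
    ptr W s t = (∑ i, W (i, s) (i, t)) / (b : ℂ) := by
  unfold ptr ntr blk
  rw [Fintype.card_fin]

lemma real_smul_apply (c : ℝ) (A : Matrix κ κ ℂ) (s t : κ) :
    (c • A) s t = (c : ℂ) * A s t := by
  rw [Matrix.smul_apply, Complex.real_smul]

lemma ptr_eq (W : Matrix (Fin b × κ) (Fin b × κ) ℂ) :
    ptr W = ((b : ℝ)⁻¹) • ∑ i : Fin b, (viso κ i).conjTranspose * W * viso κ i := by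
  ext s t
  rw [real_smul_apply, Matrix.sum_apply, ptr_apply]
  simp only [viso_compress]
  push_cast
  rw [div_eq_inv_mul]

lemma ptr_add (A B : Matrix (Fin b × κ) (Fin b × κ) ℂ) : ptr (A + B) = ptr A + ptr B := by
  rw [ptr_eq, ptr_eq A, ptr_eq B, ← smul_add, ← Finset.sum_add_distrib]
  simp only [Matrix.mul_add, Matrix.add_mul]

lemma ptr_zero : ptr (0 : Matrix (Fin b × κ) (Fin b × κ) ℂ) = 0 := by
  rw [ptr_eq]; simp

lemma ptr_smul (c : ℝ) (A : Matrix (Fin b × κ) (Fin b × κ) ℂ) : ptr (c • A) = c • ptr A := by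
  rw [ptr_eq, ptr_eq A, smul_comm c, Finset.smul_sum (r := c)]
  simp only [Matrix.mul_smul, Matrix.smul_mul]

lemma ptr_sum {α : Type} (s : Finset α) (f : α → Matrix (Fin b × κ) (Fin b × κ) ℂ) :
    ptr (∑ i ∈ s, f i) = ∑ i ∈ s, ptr (f i) := by
  classical
  induction s using Finset.induction_on with
  | empty => simp [ptr_zero]
  | insert a s ha ih => rw [Finset.sum_insert ha, Finset.sum_insert ha, ptr_add, ih]

lemma ptr_nonneg {A : Matrix (Fin b × κ) (Fin b × κ) ℂ} (h : 0 ≤ A) : 0 ≤ ptr A := by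
  rw [ptr_eq]
  refine smul_nonneg_real (by positivity) (Finset.sum_nonneg fun i _ => ?_)
  exact ((psd h).conjTranspose_mul_mul_same (viso κ i)).nonneg

lemma ptr_mono {A B : Matrix (Fin b × κ) (Fin b × κ) ℂ} (h : A ≤ B) : ptr A ≤ ptr B := by
  have h1 := ptr_nonneg (sub_nonneg.2 h)
  have h2 : ptr (B - A) + ptr A = ptr B := by rw [← ptr_add, sub_add_cancel]
  rw [← h2]
  exact le_add_of_nonneg_left h1

lemma inr_mul_viso (v : Matrix κ κ ℂ) (i : Fin b) :
    inr (Fin b) v * viso κ i = viso κ i * v := by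
  ext ⟨j, s⟩ t
  rw [Matrix.mul_apply, Matrix.mul_apply, Finset.sum_eq_single (i, t), Finset.sum_eq_single s]
  · rw [inr_apply]
    by_cases h : j = i
    · subst h
      simp [viso]
    · simp [viso, Matrix.one_apply_ne h, h]
  · intro r _ hr
    have : (j, s) ≠ (i, r) := fun h => hr (Prod.ext_iff.1 h).2.symm
    simp [viso, this]
  · simp
  · intro q _ hq
    simp [viso, hq]
  · simp

lemma viso_mul_inr (v : Matrix κ κ ℂ) (i : Fin b) :
    (viso κ i).conjTranspose * inr (Fin b) v = v * (viso κ i).conjTranspose := by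
  have h := congrArg Matrix.conjTranspose (inr_mul_viso v.conjTranspose i)
  rw [Matrix.conjTranspose_mul, Matrix.conjTranspose_mul, Matrix.conjTranspose_conjTranspose] at h
  rw [← h]
  congr 1
  rw [← Matrix.star_eq_conjTranspose, ← Matrix.star_eq_conjTranspose, ← map_star, star_star]

lemma inr_star (v : Matrix κ κ ℂ) :
    (inr (Fin b) v).conjTranspose = inr (Fin b) v.conjTranspose := by
  rw [← Matrix.star_eq_conjTranspose, ← Matrix.star_eq_conjTranspose, map_star]

lemma ptr_conj (v : Matrix κ κ ℂ) (W : Matrix (Fin b × κ) (Fin b × κ) ℂ) :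
    ptr (inr (Fin b) v * W * (inr (Fin b) v).conjTranspose) = v * ptr W * v.conjTranspose := by
  rw [ptr_eq, ptr_eq W, mul_smul_comm, smul_mul_assoc, Finset.mul_sum, Finset.sum_mul]
  congr 1
  refine Finset.sum_congr rfl fun i _ => ?_
  calc (viso κ i).conjTranspose * (inr (Fin b) v * W * (inr (Fin b) v).conjTranspose) * viso κ i
      = ((viso κ i).conjTranspose * inr (Fin b) v) * W *
        ((inr (Fin b) v).conjTranspose * viso κ i) := by simp only [Matrix.mul_assoc]
    _ = (v * (viso κ i).conjTranspose) * W * (viso κ i * v.conjTranspose) := by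
        rw [viso_mul_inr, inr_star, inr_mul_viso]
    _ = _ := by simp only [Matrix.mul_assoc]

lemma trace_eq_viso (A : Matrix (Fin b × κ) (Fin b × κ) ℂ) :
    rt A = ∑ i : Fin b, rt ((viso κ i).conjTranspose * A * viso κ i) := by
  unfold rt Matrix.trace
  simp only [Matrix.diag_apply, viso_compress]
  rw [Fintype.sum_prod_type, Complex.re_sum]

lemma rt_inr_mul (z : Matrix κ κ ℂ) (W : Matrix (Fin b × κ) (Fin b × κ) ℂ) :
    rt (inr (Fin b) z * W) = b * rt (z * ptr W) := by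
  rw [trace_eq_viso, ptr_eq, mul_smul_comm, rt_smul, Finset.mul_sum, rt_sum]
  have h : ∀ i : Fin b, rt ((viso κ i).conjTranspose * (inr (Fin b) z * W) * viso κ i) =
      rt (z * ((viso κ i).conjTranspose * W * viso κ i)) := by
    intro i
    congr 1
    rw [← Matrix.mul_assoc, viso_mul_inr]
    simp only [Matrix.mul_assoc]
  simp only [h]
  rcases Nat.eq_zero_or_pos b with h0 | h0
  · subst h0; simp
  · have : (b : ℝ) ≠ 0 := by exact_mod_cast h0.ne'
    rw [← mul_assoc, mul_inv_cancel₀ this, one_mul]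

lemma hs_inr_mul_le {W : Matrix (Fin b × κ) (Fin b × κ) ℂ}
    (hW : ((b : ℝ) ^ 2) • ptr (W * W.conjTranspose) ≤ 1) (a : Matrix κ κ ℂ) :
    (b : ℝ) * hs (inr (Fin b) a * W) ≤ hs a := by
  have h1 : hs (inr (Fin b) a * W) =
      rt (inr (Fin b) (a.conjTranspose * a) * (W * W.conjTranspose)) := by
    rw [hs_eq_rt, rt_mul_comm, Matrix.conjTranspose_mul]
    have e : inr (Fin b) a * W * (W.conjTranspose * (inr (Fin b) a).conjTranspose) =
        inr (Fin b) a * (W * W.conjTranspose) * (inr (Fin b) a).conjTranspose := by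
      simp only [Matrix.mul_assoc]
    rw [e, rt_cycle, inr_star, ← map_mul]
  rw [h1, rt_inr_mul]
  have h2 := rt_mul_mono' hW (nonneg_star_mul a)
  rw [mul_smul_comm, rt_smul, mul_one, ← hs_eq_rt] at h2
  calc (b : ℝ) * (b * rt (a.conjTranspose * a * ptr (W * W.conjTranspose)))
      = (b : ℝ) ^ 2 * rt (a.conjTranspose * a * ptr (W * W.conjTranspose)) := by ring
    _ ≤ hs a := h2

/-- the convex set of the admissible matrices -/
def Gd (W : Matrix (Fin b × κ) (Fin b × κ) ℂ) : Prop :=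
  0 ≤ W ∧ W ≤ 1 ∧ ((b : ℝ) ^ 2) • ptr W ≤ 1

lemma Gd.left {W : Matrix (Fin b × κ) (Fin b × κ) ℂ} (hW : Gd W) (a : Matrix κ κ ℂ) :
    (b : ℝ) * hs (inr (Fin b) a * W) ≤ hs a := by
  refine hs_inr_mul_le ?_ a
  rw [herm_of_nonneg hW.1]
  exact (smul_mono_real (by positivity) (ptr_mono (le_mul_self_of_le_one hW.1 hW.2.1))).trans
    hW.2.2

lemma Gd.right {W : Matrix (Fin b × κ) (Fin b × κ) ℂ} (hW : Gd W) (a : Matrix κ κ ℂ) :
    (b : ℝ) * hs (W * inr (Fin b) a) ≤ hs a := by
  rw [← hs_conjTranspose, Matrix.conjTranspose_mul, herm_of_nonneg hW.1, inr_star]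
  exact (hW.left _).trans (le_of_eq (hs_conjTranspose a))

lemma Gd.zero : Gd (0 : Matrix (Fin b × κ) (Fin b × κ) ℂ) :=
  ⟨le_rfl, zero_le_one, by rw [ptr_zero, smul_zero]; exact zero_le_one⟩

lemma Gd.conj {W : Matrix (Fin b × κ) (Fin b × κ) ℂ} (hW : Gd W) {v : Matrix κ κ ℂ}
    (hv : v.conjTranspose * v = 1) :
    Gd (inr (Fin b) v * W * (inr (Fin b) v).conjTranspose) := by
  have hv' : v * v.conjTranspose = 1 := unit_comm hv
  have hiv : inr (Fin b) v * (inr (Fin b) v).conjTranspose = 1 := by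
    rw [inr_star, ← map_mul, hv', map_one]
  refine ⟨conj_nonneg hW.1 _, ?_, ?_⟩
  · have h := conj_mono hW.2.1 (inr (Fin b) v)
    rwa [mul_one, hiv] at h
  · rw [ptr_conj]
    have h := conj_mono hW.2.2 v
    rw [mul_one, hv', mul_smul_comm, smul_mul_assoc] at h
    exact h

lemma avg_le {μ : Type} [Fintype μ] [DecidableEq μ] {I : Type} [Fintype I] [Nonempty I] {p : ℕ}
    (hp : 0 < p) (S : I → ℕ → Matrix μ μ ℂ) (h : ∀ i j, S i j ≤ 1) :
    (((Fintype.card I : ℝ) * p)⁻¹) • ∑ i, ∑ j ∈ Finset.range p, S i j ≤ 1 := by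
  have hc : (0 : ℝ) < (Fintype.card I : ℝ) * p := by
    have h1 : (0 : ℝ) < Fintype.card I := by exact_mod_cast Fintype.card_pos
    have h2 : (0 : ℝ) < p := by exact_mod_cast hp
    positivity
  have h1 : ∑ i, ∑ j ∈ Finset.range p, S i j ≤ ∑ _i : I, ∑ _j ∈ Finset.range p, (1 : Matrix μ μ ℂ) :=
    Finset.sum_le_sum fun i _ => Finset.sum_le_sum fun j _ => h i j
  have h2 := smul_mono_real (c := ((Fintype.card I : ℝ) * p)⁻¹) (by positivity) h1
  refine h2.trans (le_of_eq ?_)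
  rw [Finset.sum_const, Finset.sum_const, Finset.card_range, Finset.card_univ,
    ← Nat.cast_smul_eq_nsmul ℝ, ← Nat.cast_smul_eq_nsmul ℝ, smul_smul, smul_smul, mul_assoc,
    inv_mul_cancel₀ hc.ne', one_smul]

lemma Gd.avg {I : Type} [Fintype I] [Nonempty I] {p : ℕ} (hp : 0 < p)
    (S : I → ℕ → Matrix (Fin b × κ) (Fin b × κ) ℂ) (h : ∀ i j, Gd (S i j)) :
    Gd ((((Fintype.card I : ℝ) * p)⁻¹) • ∑ i, ∑ j ∈ Finset.range p, S i j) := by
  refine ⟨?_, ?_, ?_⟩
  · exact smul_nonneg_real (by positivity)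
      (Finset.sum_nonneg fun i _ => Finset.sum_nonneg fun j _ => (h i j).1)
  · exact avg_le hp S fun i j => (h i j).2.1
  · have h1 := avg_le hp (fun i j => ((b : ℝ) ^ 2) • ptr (S i j)) fun i j => (h i j).2.2
    rw [ptr_smul, ptr_sum]
    simp only [ptr_sum]
    rw [smul_comm]
    simp only [Finset.smul_sum] at h1 ⊢
    exact h1

end fin

/-! ## the space of sequences -/

section seq

variable {l b : ℕ → ℕ} {U : Ultrafilter ℕ}

/-- sequences of matrices over `Fin (b n) × Fin (l n)` -/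
abbrev Sq (l b : ℕ → ℕ) : Type := ∀ n, Matrix (Fin (b n) × Fin (l n)) (Fin (b n) × Fin (l n)) ℂ

/-- the sequences with bounded marginals -/
noncomputable def ES (l b : ℕ → ℕ) : Submodule ℂ (Sq l b) where
  carrier := {ξ | ∃ C : ℝ, 0 ≤ C ∧ ∀ n (a : Matrix (Fin (l n)) (Fin (l n)) ℂ),
    (b n : ℝ) * hs (inr (Fin (b n)) a * ξ n) ≤ C * hs a ∧
    (b n : ℝ) * hs (ξ n * inr (Fin (b n)) a) ≤ C * hs a}
  add_mem' := by
    rintro ξ η ⟨C, hC, h⟩ ⟨D, hD, k⟩
    refine ⟨2 * C + 2 * D, by positivity, fun n a => ⟨?_, ?_⟩⟩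
    · rw [Pi.add_apply, mul_add]
      have h1 := mul_le_mul_of_nonneg_left (hs_add_le (inr (Fin (b n)) a * ξ n)
        (inr (Fin (b n)) a * η n)) (Nat.cast_nonneg (α := ℝ) (b n))
      have h2 := (h n a).1
      have h3 := (k n a).1
      linarith
    · rw [Pi.add_apply, add_mul]
      have h1 := mul_le_mul_of_nonneg_left (hs_add_le (ξ n * inr (Fin (b n)) a)
        (η n * inr (Fin (b n)) a)) (Nat.cast_nonneg (α := ℝ) (b n))
      have h2 := (h n a).2
      have h3 := (k n a).2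
      linarith
  zero_mem' := by
    refine ⟨0, le_rfl, fun n a => ⟨?_, ?_⟩⟩
    · show (b n : ℝ) * hs (inr (Fin (b n)) a *
        (0 : Matrix (Fin (b n) × Fin (l n)) (Fin (b n) × Fin (l n)) ℂ)) ≤ 0 * hs a
      rw [mul_zero, hs_zero, mul_zero, zero_mul]
    · show (b n : ℝ) * hs ((0 : Matrix (Fin (b n) × Fin (l n)) (Fin (b n) × Fin (l n)) ℂ) *
        inr (Fin (b n)) a) ≤ 0 * hs a
      rw [zero_mul, hs_zero, mul_zero, zero_mul]
  smul_mem' := by
    rintro c ξ ⟨C, hC, h⟩
    refine ⟨‖c‖ ^ 2 * C, by positivity, fun n a => ⟨?_, ?_⟩⟩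
    · rw [Pi.smul_apply, mul_smul_comm, hs_smul]
      have h1 := mul_le_mul_of_nonneg_left (h n a).1 (sq_nonneg ‖c‖)
      linarith
    · rw [Pi.smul_apply, smul_mul_assoc, hs_smul]
      have h1 := mul_le_mul_of_nonneg_left (h n a).2 (sq_nonneg ‖c‖)
      linarith

/-- conjugation by `1 ⊗ w` -/
noncomputable def rh (w : ∀ n, Matrix (Fin (l n)) (Fin (l n)) ℂ)
    (hw : ∀ n, (w n).conjTranspose * w n = 1) : ES l b →ₗ[ℂ] ES l b where
  toFun ξ := ⟨fun n => inr (Fin (b n)) (w n) * ξ.1 n * (inr (Fin (b n)) (w n)).conjTranspose, by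
    obtain ⟨ξ, C, hC, h⟩ := ξ
    refine ⟨C, hC, fun n a => ⟨?_, ?_⟩⟩
    · have hu : ((w n).conjTranspose).conjTranspose * (w n).conjTranspose = 1 := by
        rw [Matrix.conjTranspose_conjTranspose]; exact unit_comm (hw n)
      have hiu : ((inr (Fin (b n)) (w n).conjTranspose)).conjTranspose *
          (inr (Fin (b n)) (w n).conjTranspose) = 1 := by
        rw [inr_star, ← map_mul, hu, map_one]
      have e : inr (Fin (b n)) a * (inr (Fin (b n)) (w n) * ξ n *
          (inr (Fin (b n)) (w n)).conjTranspose) =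
          (inr (Fin (b n)) (a * w n) * ξ n) * inr (Fin (b n)) (w n).conjTranspose := by
        rw [map_mul, inr_star]; simp only [Matrix.mul_assoc]
      rw [e, hs_mul_unit hiu]
      have h1 := (h n (a * w n)).1
      rwa [hs_mul_unit (hw n)] at h1
    · have hiu : (inr (Fin (b n)) (w n)).conjTranspose * (inr (Fin (b n)) (w n)) = 1 := by
        rw [inr_star, ← map_mul, hw n, map_one]
      have hu : ((w n).conjTranspose).conjTranspose * (w n).conjTranspose = 1 := by
        rw [Matrix.conjTranspose_conjTranspose]; exact unit_comm (hw n)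
      have e : (inr (Fin (b n)) (w n) * ξ n * (inr (Fin (b n)) (w n)).conjTranspose) *
          inr (Fin (b n)) a =
          inr (Fin (b n)) (w n) * (ξ n * inr (Fin (b n)) ((w n).conjTranspose * a)) := by
        rw [map_mul, inr_star]; simp only [Matrix.mul_assoc]
      rw [e, hs_unit_mul hiu]
      have h1 := (h n ((w n).conjTranspose * a)).2
      rwa [hs_unit_mul hu] at h1⟩
  map_add' ξ η := by
    refine Subtype.ext (funext fun n => ?_)
    show inr (Fin (b n)) (w n) * (ξ.1 n + η.1 n) * _ = _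
    rw [mul_add, add_mul]
    rfl
  map_smul' c ξ := by
    refine Subtype.ext (funext fun n => ?_)
    show inr (Fin (b n)) (w n) * (c • ξ.1 n) * _ = _
    rw [mul_smul_comm, smul_mul_assoc]
    rfl

/-- the form -/
noncomputable def BB (U : Ultrafilter ℕ) (ξ η : ES l b) : ℂ :=
  limUnder (U : Filter ℕ) fun n => ((b n : ℂ) / (l n : ℂ)) *
    Matrix.trace ((ξ.1 n).conjTranspose * η.1 n)

lemma hs_bound {ξ : ES l b} : ∃ C : ℝ, 0 ≤ C ∧ ∀ n, (b n : ℝ) * hs (ξ.1 n) ≤ C * l n := by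
  obtain ⟨ξ, C, hC, h⟩ := ξ
  refine ⟨C, hC, fun n => ?_⟩
  have h1 := (h n 1).1
  rw [map_one, one_mul] at h1
  have h2 : hs (1 : Matrix (Fin (l n)) (Fin (l n)) ℂ) = l n := by
    unfold hs
    rw [sum_one_sq, Fintype.card_fin]
  rwa [h2] at h1

lemma tendsto_BB (ξ η : ES l b) : Tendsto (fun n => ((b n : ℂ) / (l n : ℂ)) *
    Matrix.trace ((ξ.1 n).conjTranspose * η.1 n)) U (𝓝 (BB U ξ η)) := by
  obtain ⟨C, hC, h⟩ := hs_bound (ξ := ξ)
  obtain ⟨D, hD, k⟩ := hs_bound (ξ := η)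
  refine tendsto_nhds_limUnder (exists_lim ⟨C + D, fun n => ?_⟩)
  rw [norm_mul, norm_div, Complex.norm_natCast, Complex.norm_natCast]
  have h1 := norm_trace_mul_le (ξ.1 n).conjTranspose (η.1 n)
  rw [hs_conjTranspose] at h1
  have h2 : Real.sqrt (hs (ξ.1 n)) * Real.sqrt (hs (η.1 n)) ≤ hs (ξ.1 n) + hs (η.1 n) := by
    have e1 := Real.sq_sqrt (hs_nonneg (ξ.1 n))
    have e2 := Real.sq_sqrt (hs_nonneg (η.1 n))
    nlinarith [sq_nonneg (Real.sqrt (hs (ξ.1 n)) - Real.sqrt (hs (η.1 n))),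
      sq_nonneg (Real.sqrt (hs (ξ.1 n)) + Real.sqrt (hs (η.1 n)))]
  rcases Nat.eq_zero_or_pos (l n) with h0 | h0
  · have h0' : (l n : ℝ) = 0 := by rw [h0, Nat.cast_zero]
    rw [h0', div_zero, zero_mul]
    positivity
  · have h0' : (0 : ℝ) < l n := by exact_mod_cast h0
    have hb : (0 : ℝ) ≤ b n := Nat.cast_nonneg _
    rw [div_mul_eq_mul_div, div_le_iff₀ h0']
    calc (b n : ℝ) * ‖Matrix.trace ((ξ.1 n).conjTranspose * η.1 n)‖
        ≤ b n * (hs (ξ.1 n) + hs (η.1 n)) := mul_le_mul_of_nonneg_left (h1.trans h2) hb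
      _ ≤ _ := by have := h n; have := k n; linarith

lemma BB_eq {ξ η : ES l b} {a : ℂ} (h : Tendsto (fun n => ((b n : ℂ) / (l n : ℂ)) *
    Matrix.trace ((ξ.1 n).conjTranspose * η.1 n)) U (𝓝 a)) : BB U ξ η = a :=
  tendsto_nhds_unique (tendsto_BB ξ η) h

lemma tendsto_hs (ξ : ES l b) : Tendsto (fun n => (b n : ℝ) * hs (ξ.1 n) / l n) U
    (𝓝 (BB U ξ ξ).re) := by
  refine ((Complex.continuous_re.tendsto _).comp (tendsto_BB ξ ξ)).congr fun n => ?_
  show (((b n : ℂ) / (l n : ℂ)) * Matrix.trace ((ξ.1 n).conjTranspose * ξ.1 n)).re = _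
  have h1 : ((b n : ℂ) / (l n : ℂ)) = (((b n : ℝ) / (l n : ℝ) : ℝ) : ℂ) := by push_cast; rfl
  rw [h1, Complex.re_ofReal_mul, hs_eq_rt]
  unfold rt
  rw [div_mul_eq_mul_div]

lemma pform_BB : PForm (BB (l := l) (b := b) U) where
  add v w w' := by
    refine BB_eq (((tendsto_BB v w).add (tendsto_BB v w')).congr fun n => ?_)
    rw [← mul_add]
    congr 1
    show _ = Matrix.trace ((v.1 n).conjTranspose * (w.1 n + w'.1 n))
    rw [mul_add, Matrix.trace_add]
  smul c v w := by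
    refine BB_eq (((tendsto_BB v w).const_mul c).congr fun n => ?_)
    show _ = _ * Matrix.trace ((v.1 n).conjTranspose * (c • w.1 n))
    rw [mul_smul_comm, Matrix.trace_smul, smul_eq_mul]
    ring
  symm v w := by
    refine BB_eq (((Complex.continuous_conj.tendsto _).comp (tendsto_BB v w)).congr fun n => ?_)
    show starRingEnd ℂ (((b n : ℂ) / (l n : ℂ)) *
      Matrix.trace ((v.1 n).conjTranspose * w.1 n)) = _
    rw [map_mul, map_div₀, Complex.conj_natCast, Complex.conj_natCast]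
    congr 1
    have := Matrix.trace_conjTranspose ((v.1 n).conjTranspose * w.1 n)
    rw [Matrix.conjTranspose_mul, Matrix.conjTranspose_conjTranspose] at this
    rw [this]
    rfl
  nonneg v := ge_of_tendsto' (tendsto_hs (U := U) v) fun n =>
    div_nonneg (mul_nonneg (Nat.cast_nonneg _) (hs_nonneg _)) (Nat.cast_nonneg _)

lemma rh_iso (w : ∀ n, Matrix (Fin (l n)) (Fin (l n)) ℂ)
    (hw : ∀ n, (w n).conjTranspose * w n = 1) (v : ES l b) :
    (BB U (rh w hw v) (rh w hw v)).re = (BB U v v).re := by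
  refine tendsto_nhds_unique (tendsto_hs (U := U) (rh w hw v)) ?_
  refine (tendsto_hs (U := U) v).congr fun n => ?_
  congr 2
  show hs (v.1 n) = hs (inr (Fin (b n)) (w n) * v.1 n * (inr (Fin (b n)) (w n)).conjTranspose)
  have hiu : (inr (Fin (b n)) (w n)).conjTranspose * (inr (Fin (b n)) (w n)) = 1 := by
    rw [inr_star, ← map_mul, hw n, map_one]
  have hiu' : ((inr (Fin (b n)) (w n)).conjTranspose).conjTranspose *
      (inr (Fin (b n)) (w n)).conjTranspose = 1 := by
    rw [Matrix.conjTranspose_conjTranspose]; exact unit_comm hiu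
  rw [hs_mul_unit hiu', hs_unit_mul hiu]

/-- two almost equal conjugations agree up to null vectors -/
lemma null_of_close (v η : ES l b) (s t : ∀ n, Matrix (Fin (l n)) (Fin (l n)) ℂ)
    (hs' : ∀ n, (s n).conjTranspose * s n = 1) (ht : ∀ n, (t n).conjTranspose * t n = 1)
    (hη : ∀ n, η.1 n = inr (Fin (b n)) (s n) * v.1 n * (inr (Fin (b n)) (s n)).conjTranspose -
      inr (Fin (b n)) (t n) * v.1 n * (inr (Fin (b n)) (t n)).conjTranspose)
    (hst : Tendsto (fun n => nn (s n - t n)) U (𝓝 0)) : (BB U η η).re = 0 := by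
  obtain ⟨C, hC, h⟩ := v.2
  have h1 : Tendsto (fun n => 4 * C * nn (s n - t n)) U (𝓝 0) := by
    simpa using hst.const_mul (4 * C)
  refine tendsto_nhds_unique (tendsto_hs (U := U) η) (squeeze_zero (fun n =>
    div_nonneg (mul_nonneg (Nat.cast_nonneg _) (hs_nonneg _)) (Nat.cast_nonneg _)) (fun n => ?_) h1)
  have e : η.1 n = (inr (Fin (b n)) (s n - t n) * v.1 n) * (inr (Fin (b n)) (s n)).conjTranspose +
      inr (Fin (b n)) (t n) * (v.1 n * inr (Fin (b n)) (s n - t n).conjTranspose) := by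
    rw [hη, map_sub, ← inr_star, map_sub, Matrix.conjTranspose_sub]
    noncomm_ring
  have hiu : ((inr (Fin (b n)) (s n)).conjTranspose).conjTranspose *
      (inr (Fin (b n)) (s n)).conjTranspose = 1 := by
    rw [Matrix.conjTranspose_conjTranspose]
    refine unit_comm ?_
    rw [inr_star, ← map_mul, hs' n, map_one]
  have hit : (inr (Fin (b n)) (t n)).conjTranspose * (inr (Fin (b n)) (t n)) = 1 := by
    rw [inr_star, ← map_mul, ht n, map_one]
  have h2 := hs_add_le ((inr (Fin (b n)) (s n - t n) * v.1 n) *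
    (inr (Fin (b n)) (s n)).conjTranspose)
    (inr (Fin (b n)) (t n) * (v.1 n * inr (Fin (b n)) (s n - t n).conjTranspose))
  rw [← e, hs_mul_unit hiu, hs_unit_mul hit] at h2
  have h3 := (h n (s n - t n)).1
  have h4 := (h n (s n - t n).conjTranspose).2
  rw [hs_conjTranspose] at h4
  have hb : (0 : ℝ) ≤ b n := Nat.cast_nonneg _
  have h5 : (b n : ℝ) * hs (η.1 n) ≤ 4 * C * hs (s n - t n) := by
    have := mul_le_mul_of_nonneg_left h2 hb
    linarith
  have h6 : nn (s n - t n) = hs (s n - t n) / l n := by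
    unfold nn; rw [Fintype.card_fin]
  rw [h6, ← mul_div_assoc]
  exact div_le_div_of_nonneg_right h5 (Nat.cast_nonneg _)

end seq

/-! ## the averaging operator -/

section main

variable {l b : ℕ → ℕ} {U : Ultrafilter ℕ}

lemma tav_val {K I : Type} [Group K] [Fintype I] (p : ℕ) (x : I → K)
    (π : ∀ n, K → Matrix (Fin (l n)) (Fin (l n)) ℂ)
    (hπ : ∀ k n, (π n k).conjTranspose * π n k = 1) (v : ES l b) (n : ℕ) :
    (TAv p x (fun k => rh (b := b) (fun n => π n k) (hπ k)) v).1 n =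
      (((Fintype.card I : ℝ) * p)⁻¹) • ∑ i, ∑ j ∈ Finset.range p,
        (inr (Fin (b n)) (π n (x i ^ j)) * v.1 n *
          (inr (Fin (b n)) (π n (x i ^ j))).conjTranspose) := by
  have h1 : ∀ (s : Finset ℕ) (f : ℕ → ES l b), (∑ j ∈ s, f j).1 n = ∑ j ∈ s, (f j).1 n := by
    intro s f
    rw [AddSubmonoidClass.coe_finsetSum, Finset.sum_apply]
  have h2 : ∀ (f : I → ES l b), (∑ j, f j).1 n = ∑ j, (f j).1 n := by
    intro f
    rw [AddSubmonoidClass.coe_finsetSum, Finset.sum_apply]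
  unfold TAv
  rw [LinearMap.smul_apply, LinearMap.sum_apply]
  have h3 : ∀ (c : ℂ) (w : ES l b), (c • w).1 n = c • w.1 n := fun _ _ => rfl
  rw [h3, h2]
  have h4 : ((Fintype.card I : ℂ) * (p : ℂ))⁻¹ = ((((Fintype.card I : ℝ) * p)⁻¹ : ℝ) : ℂ) := by
    push_cast; rfl
  have h5 : ∀ (c : ℝ) (A : Matrix (Fin (b n) × Fin (l n)) (Fin (b n) × Fin (l n)) ℂ),
      (c : ℂ) • A = c • A := by
    intro c A
    ext s t
    rw [real_smul_apply, Matrix.smul_apply, smul_eq_mul]
  rw [h4, h5]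
  congr 1
  refine Finset.sum_congr rfl fun i _ => ?_
  rw [LinearMap.sum_apply, h1]
  rfl

lemma gd_pow {K I : Type} [Group K] [Fintype I] [Nonempty I] {p : ℕ} (hp : 0 < p) (x : I → K)
    (π : ∀ n, K → Matrix (Fin (l n)) (Fin (l n)) ℂ)
    (hπ : ∀ k n, (π n k).conjTranspose * π n k = 1) (v : ES l b) (hv : ∀ n, Gd (v.1 n)) (k : ℕ)
    (n : ℕ) : Gd (((TAv p x (fun k => rh (b := b) (fun n => π n k) (hπ k)) ^ k) v).1 n) := by
  induction k with
  | zero => exact hv n
  | succ k ih =>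
    rw [pow_succ', Module.End.mul_apply, tav_val]
    exact Gd.avg hp _ fun i j => ih.conj (hπ _ n)

end main

end IMA

theorem pIMA : StIMA := by
  intro hT4 K I _ _ _ p x N l U hU hTD hne u π y hL b ε hε hεc hXi
  classical
  have hp : 0 < p := hTD.prime.pos
  have hπ : ∀ k n, (π n k).conjTranspose * π n k = 1 := fun k n => hL.unit n k
  -- closeness
  have hmulc : ∀ k k', Tendsto (fun n => nn (π n k * π n k' - π n (k * k'))) U (𝓝 0) := by
    intro k k'
    have h1 : mkM U (y k * y k') = mkM U (y (k * k')) := by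
      rw [map_mul, hL.cls, hL.cls, hL.cls, map_mul]
    rw [mk_eq_mk] at h1
    refine h1.congr fun n => ?_
    show nn ((y k).1 n * (y k').1 n - (y (k * k')).1 n) = _
    rw [hL.val, hL.val, hL.val]
  have honec : Tendsto (fun n => nn (π n 1 - 1)) U (𝓝 0) := by
    have h1 : mkM U (y 1) = mkM U 1 := by
      rw [hL.cls, map_one, map_one]
    rw [mk_eq_mk] at h1
    refine h1.congr fun n => ?_
    show nn ((y 1).1 n - 1) = _
    rw [hL.val]
  set ρ : K → IMA.ES l b →ₗ[ℂ] IMA.ES l b := fun k => IMA.rh (fun n => π n k) (hπ k) with hρ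
  have hW : WRep (IMA.BB (l := l) (b := b) U) ρ := by
    refine ⟨IMA.pform_BB, fun k v => IMA.rh_iso _ _ v, fun k k' v => ?_, fun v => ?_⟩
    · refine IMA.null_of_close v _ (fun n => π n k * π n k') (fun n => π n (k * k')) (fun n => ?_)
        (fun n => hπ _ n) (fun n => ?_) (hmulc k k')
      · rw [Matrix.conjTranspose_mul]
        calc (π n k').conjTranspose * (π n k).conjTranspose * (π n k * π n k') =
            (π n k').conjTranspose * ((π n k).conjTranspose * π n k) * π n k' := by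
              simp only [Matrix.mul_assoc]
          _ = 1 := by rw [hπ, mul_one, hπ]
      · show (inr (Fin (b n)) (π n k) * (inr (Fin (b n)) (π n k') * v.1 n *
          (inr (Fin (b n)) (π n k')).conjTranspose) * (inr (Fin (b n)) (π n k)).conjTranspose) -
          (inr (Fin (b n)) (π n (k * k')) * v.1 n *
            (inr (Fin (b n)) (π n (k * k'))).conjTranspose) = _
        rw [map_mul, Matrix.conjTranspose_mul]
        simp only [Matrix.mul_assoc]
    · refine IMA.null_of_close v _ (fun n => π n 1) (fun n => 1) (fun n => hπ _ n)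
        (fun n => by rw [Matrix.conjTranspose_one, mul_one]) (fun n => ?_) honec
      rw [map_one, Matrix.conjTranspose_one, mul_one, one_mul]
      rfl
  obtain ⟨hc0, hc1, hC⟩ := hT4 K (IMA.ES l b) I p x N (IMA.BB (l := l) (b := b) U) ρ hTD hne hW
  set c : ℝ := cT p (Fintype.card I) with hcdef
  -- the matrices `X n`
  have hX0 : ∀ n, ∃ X : Matrix (Fin (b n) × Fin (l n)) (Fin (b n) × Fin (l n)) ℂ, IMA.Gd X ∧
      (0 < l n ∧ Xi (fun i => π n (x i)) ε (b n) → (1 - ε) * (l n : ℝ) ≤ b n * hs X ∧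
        b n * ∑ i, hs (inr (Fin (b n)) (π n (x i)) * X - X * inr (Fin (b n)) (π n (x i))) ≤
          ε * l n) := by
    intro n
    by_cases h : 0 < l n ∧ Xi (fun i => π n (x i)) ε (b n)
    · obtain ⟨-, -, X, h1, h2, h3, h4, h5⟩ := h
      rw [Fintype.card_fin] at h4 h5
      exact ⟨X, ⟨h1, h2, h3⟩, fun _ => ⟨h4, h5⟩⟩
    · exact ⟨0, IMA.Gd.zero, fun h' => absurd h' h⟩
  choose X hXG hXP using hX0
  let v : IMA.ES l b := ⟨X, 1, zero_le_one, fun n a => by
    rw [one_mul]
    exact ⟨(hXG n).left a, (hXG n).right a⟩⟩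
  have hv : ∀ n, v.1 n = X n := fun n => rfl
  -- norms of `v`
  have hv1 : (IMA.BB U v v).re ≤ 1 := by
    refine le_of_tendsto' (IMA.tendsto_hs (U := U) v) fun n => ?_
    have h1 := (hXG n).left 1
    rw [map_one, one_mul] at h1
    have h2 : hs (1 : Matrix (Fin (l n)) (Fin (l n)) ℂ) = l n := by
      unfold hs
      rw [sum_one_sq, Fintype.card_fin]
    rw [h2] at h1
    exact div_le_one_of_le₀ h1 (Nat.cast_nonneg _)
  have hv2 : 1 - ε ≤ (IMA.BB U v v).re := by
    refine ge_of_tendsto (IMA.tendsto_hs (U := U) v) ?_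
    filter_upwards [hXi] with n hn
    have h1 := (hXP n hn).1
    have h0 : (0 : ℝ) < l n := by exact_mod_cast hn.1
    rw [le_div_iff₀ h0]
    exact h1
  -- commutators
  have hcomm : ∀ (w : IMA.ES l b) (i : I), Tendsto (fun n => (b n : ℝ) *
      hs (inr (Fin (b n)) (π n (x i)) * w.1 n - w.1 n * inr (Fin (b n)) (π n (x i))) / l n) U
      (𝓝 (IMA.BB U (ρ (x i) w - w) (ρ (x i) w - w)).re) := by
    intro w i
    refine (IMA.tendsto_hs (U := U) (ρ (x i) w - w)).congr fun n => ?_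
    congr 2
    have hiu : (inr (Fin (b n)) (π n (x i))).conjTranspose * (inr (Fin (b n)) (π n (x i))) = 1 := by
      rw [IMA.inr_star, ← map_mul, hπ, map_one]
    rw [hs_comm_unit hiu, hs_sub_comm]
    rfl
  have hQ : Qf (IMA.BB U) (TAv p x ρ) v ≤ c / 400 := by
    refine (hC.conv v).trans ?_
    have h1 : ∑ i, (IMA.BB U (ρ (x i) v - v) (ρ (x i) v - v)).re ≤ ε := by
      have h2 := tendsto_finsetSum (Finset.univ : Finset I) fun i _ => hcomm v i
      refine le_of_tendsto h2 ?_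
      filter_upwards [hXi] with n hn
      have h3 := (hXP n hn).2
      have h0 : (0 : ℝ) < l n := by exact_mod_cast hn.1
      rw [← Finset.sum_div, ← Finset.mul_sum, div_le_iff₀ h0]
      exact h3
    have hp0 : (0 : ℝ) < (p : ℝ) ^ 2 := by
      have : (0 : ℝ) < p := by exact_mod_cast hp
      positivity
    calc (p : ℝ) ^ 2 * ∑ i, (IMA.BB U (ρ (x i) v - v) (ρ (x i) v - v)).re
        ≤ (p : ℝ) ^ 2 * (c / (400 * (p : ℝ) ^ 2)) :=
          mul_le_mul_of_nonneg_left (h1.trans hεc) hp0.le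
      _ = c / 400 := by field_simp
  -- `ε` is small
  have hεs : ε ≤ 1 / 400 := by
    refine hεc.trans ?_
    have hp1 : (1 : ℝ) ≤ (p : ℝ) ^ 2 := by
      have : (1 : ℝ) ≤ p := by exact_mod_cast hp
      nlinarith
    rw [div_le_div_iff₀ (by positivity) (by norm_num)]
    nlinarith
  -- the size of the powers
  have hbig : ∀ k : ℕ, (9 : ℝ) / 10 ≤ (IMA.BB U ((TAv p x ρ ^ k) v) ((TAv p x ρ ^ k) v)).re := by
    intro k
    have h1 := hC.low k v
    have h2 : 1 / c * Qf (IMA.BB U) (TAv p x ρ) v ≤ 1 / 400 := by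
      have := mul_le_mul_of_nonneg_left hQ (by positivity : (0 : ℝ) ≤ 1 / c)
      refine this.trans (le_of_eq ?_)
      field_simp
    set w := (TAv p x ρ ^ k) v with hw
    have hF := IMA.pform_BB (l := l) (b := b) (U := U)
    have h3 := hF.nonneg (w + (-1 : ℂ) • v)
    have hsym : ∀ s t : IMA.ES l b, (IMA.BB U s t).re = (IMA.BB U t s).re := by
      intro s t
      rw [hF.symm t s]
      rfl
    have h4 : (IMA.BB U (w + (-1 : ℂ) • v) (w + (-1 : ℂ) • v)).re =
        (IMA.BB U w w).re - 2 * (IMA.BB U w v).re + (IMA.BB U v v).re := by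
      have e1 : ∀ s : IMA.ES l b, (IMA.BB U s (w + (-1 : ℂ) • v)).re =
          (IMA.BB U s w).re - (IMA.BB U s v).re := by
        intro s
        rw [hF.add, hF.smul, Complex.add_re]
        simp
        ring
      rw [e1, hsym _ w, hsym _ v, e1, e1, hsym v w]
      ring
    rw [h4] at h3
    linarith
  -- the energy of the powers
  set δ : ℕ → ℝ := fun k => 4 * Fintype.card I * ((1 - c) ^ (2 * k) * (c / 400)) with hδ
  have hδ0 : Tendsto δ atTop (𝓝 0) := by
    have h1 : Tendsto (fun k : ℕ => ((1 - c) ^ 2) ^ k) atTop (𝓝 0) := by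
      refine tendsto_pow_atTop_nhds_zero_of_lt_one (by positivity) ?_
      nlinarith
    have h2 : Tendsto (fun k : ℕ => 4 * (Fintype.card I : ℝ) * (((1 - c) ^ 2) ^ k * (c / 400)))
        atTop (𝓝 0) := by
      simpa using (h1.mul_const (c / 400)).const_mul (4 * (Fintype.card I : ℝ))
    refine h2.congr fun k => ?_
    show _ = 4 * (Fintype.card I : ℝ) * ((1 - c) ^ (2 * k) * (c / 400))
    rw [pow_mul]
  have hen : ∀ (k : ℕ) i, (IMA.BB U (ρ (x i) ((TAv p x ρ ^ k) v) - (TAv p x ρ ^ k) v)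
      (ρ (x i) ((TAv p x ρ ^ k) v) - (TAv p x ρ ^ k) v)).re ≤ δ k := by
    intro k i
    refine (hC.gen i _).trans ?_
    have h1 := (hC.energy k v).trans (mul_le_mul_of_nonneg_left hQ (by positivity))
    exact mul_le_mul_of_nonneg_left h1 (by positivity)
  -- diagonal sequence
  let Z : ℕ → ∀ n, Matrix (Fin (b n) × Fin (l n)) (Fin (b n) × Fin (l n)) ℂ :=
    fun k => ((TAv p x ρ ^ k) v).1
  have hZG : ∀ k n, IMA.Gd (Z k n) := fun k n => IMA.gd_pow hp x π hπ v hXG k n
  let A : ℕ → ℕ → Prop := fun m j => 4 / 5 * (l j : ℝ) ≤ b j * hs (Z m j) ∧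
    ∀ i, (b j : ℝ) * hs (inr (Fin (b j)) (π j (x i)) * Z m j -
      Z m j * inr (Fin (b j)) (π j (x i))) / l j ≤ δ m + 1 / ((m : ℝ) + 1)
  have hA : ∀ m, ∀ᶠ j in (U : Filter ℕ), A m j := by
    intro m
    have h1 : ∀ᶠ j in (U : Filter ℕ), (4 : ℝ) / 5 < (b j : ℝ) * hs (Z m j) / l j :=
      (IMA.tendsto_hs (U := U) ((TAv p x ρ ^ m) v)).eventually
        (lt_mem_nhds (by have := hbig m; linarith))
    have h2 : ∀ᶠ j in (U : Filter ℕ), ∀ i, (b j : ℝ) * hs (inr (Fin (b j)) (π j (x i)) * Z m j -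
        Z m j * inr (Fin (b j)) (π j (x i))) / l j < δ m + 1 / ((m : ℝ) + 1) := by
      rw [eventually_all]
      intro i
      refine (hcomm ((TAv p x ρ ^ m) v) i).eventually (gt_mem_nhds ?_)
      have h3 := hen m i
      have h4 : (0 : ℝ) < 1 / ((m : ℝ) + 1) := by positivity
      linarith
    filter_upwards [h1, h2, hXi] with j h1 h2 h3
    have h0 : (0 : ℝ) < l j := by exact_mod_cast h3.1
    refine ⟨?_, fun i => (h2 i).le⟩
    rw [lt_div_iff₀ h0] at h1
    exact h1.le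
  obtain ⟨m, hm, hmA⟩ := pDiag U hU A hA
  refine ⟨fun n => Z (m n) n, ?_, fun i => ?_⟩
  · filter_upwards [hmA] with n hn
    exact ⟨(hZG _ n).1, (hZG _ n).2.1, (hZG _ n).2.2, hn.1⟩
  · have h1 : Tendsto (fun n => δ (m n) + 1 / ((m n : ℝ) + 1)) U (𝓝 0) := by
      have h2 := hδ0.comp hm
      have h3 := (tendsto_one_div_add_atTop_nhds_zero_nat (𝕜 := ℝ)).comp hm
      simpa using h2.add h3
    refine squeeze_zero' (Eventually.of_forall fun n =>
      div_nonneg (mul_nonneg (Nat.cast_nonneg _) (hs_nonneg _)) (Nat.cast_nonneg _)) ?_ h1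
    filter_upwards [hmA] with n hn
    exact hn.2 i

end Helper53.NG
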