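import Pool.Agent.Helper53.NG.StB
import Pool.Agent.Helper61.IE.Lib

/-!
# Project NG, module IMB: rounding of the almost invariant positive matrices to projections
-/

set_option linter.unusedSectionVars false

namespace Helper53.NG

attribute [local irreducible] Helper51.MU.instRingMUlt

open Helper51.MU Helper61.IE Filter Topology
open scoped Matrix.Norms.L2Operator MatrixOrder ComplexOrder

namespace IMB

variable {ι κ : Type} [Fintype ι] [DecidableEq ι] [Fintype κ] [DecidableEq κ]

lemma ptr_eq (y : Matrix (ι × κ) (ι × κ) ℂ) : ptr y = (Fintype.card ι : ℂ)⁻¹ •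
    ∑ i : ι, ((viso κ i).conjTranspose * y * viso κ i) := by
  ext a b
  rw [Matrix.smul_apply, Matrix.sum_apply]
  simp only [viso_compress]
  show ntr (blk y a b) = _
  unfold ntr blk
  rw [smul_eq_mul, inv_mul_eq_div]

lemma ptr_eq' (y : Matrix (ι × κ) (ι × κ) ℂ) : ptr y = ((Fintype.card ι : ℝ)⁻¹) •
    ∑ i : ι, ((viso κ i).conjTranspose * y * viso κ i) := by
  rw [ptr_eq]
  ext a b
  rw [Matrix.smul_apply, Matrix.smul_apply, Complex.real_smul, smul_eq_mul]
  push_cast
  rfl

lemma ptr_nonneg {y : Matrix (ι × κ) (ι × κ) ℂ} (hy : 0 ≤ y) : 0 ≤ ptr y := by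
  rw [ptr_eq']
  refine smul_nonneg_real (by positivity) (Finset.sum_nonneg fun i _ => ?_)
  exact Matrix.nonneg_iff_posSemidef.2 ((psd hy).conjTranspose_mul_mul_same _)

lemma ptr_sub (x y : Matrix (ι × κ) (ι × κ) ℂ) : ptr (x - y) = ptr x - ptr y := by
  simp only [ptr_eq', Matrix.mul_sub, Matrix.sub_mul, Finset.sum_sub_distrib, smul_sub]

lemma ptr_smul (c : ℝ) (y : Matrix (ι × κ) (ι × κ) ℂ) : ptr (c • y) = c • ptr y := by
  simp only [ptr_eq', Matrix.mul_smul, Matrix.smul_mul, ← Finset.smul_sum]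
  rw [smul_comm]

lemma ptr_mono {x y : Matrix (ι × κ) (ι × κ) ℂ} (h : x ≤ y) : ptr x ≤ ptr y := by
  rw [← sub_nonneg, ← ptr_sub]
  exact ptr_nonneg (sub_nonneg.2 h)

lemma rt_ptr (h : 0 < Fintype.card ι) (y : Matrix (ι × κ) (ι × κ) ℂ) :
    (Fintype.card ι : ℝ) * rt (ptr y) = rt y := by
  have h0 : (Fintype.card ι : ℂ) ≠ 0 := by exact_mod_cast h.ne'
  have h1 : (Fintype.card ι : ℂ) * Matrix.trace (ptr y) = Matrix.trace y := by
    unfold Matrix.trace
    rw [Fintype.sum_prod_type, Finset.sum_comm, Finset.mul_sum]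
    refine Finset.sum_congr rfl fun a _ => ?_
    show (Fintype.card ι : ℂ) * ntr (blk y a a) = _
    unfold ntr blk
    rw [mul_div_cancel₀ _ h0]
    rfl
  unfold rt
  rw [← h1, ← Complex.ofReal_natCast, Complex.re_ofReal_mul]

lemma rt_one' : rt (1 : Matrix κ κ ℂ) = Fintype.card κ := by
  unfold rt
  rw [Matrix.trace_one]
  simp

lemma inr_unit {x : Matrix κ κ ℂ} (hx : x.conjTranspose * x = 1) :
    (inr ι x).conjTranspose * inr ι x = 1 := by
  have h1 : (inr ι x).conjTranspose = inr ι x.conjTranspose := by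
    have := map_star (inr ι : Matrix κ κ ℂ →⋆ₐ[ℂ] Matrix (ι × κ) (ι × κ) ℂ) x
    rw [Matrix.star_eq_conjTranspose, Matrix.star_eq_conjTranspose] at this
    exact this.symm
  rw [h1, ← map_mul, hx, map_one]

end IMB

open IMB in
/-- IMB -/
theorem pIMB : StIMB := by
  intro hRND I _ l b U w hw hpos Y hY hcomm
  classical
  have hR : ∀ n, ∃ p : Matrix (Fin (b n) × Fin (l n)) (Fin (b n) × Fin (l n)) ℂ, Pr p ∧
      (0 ≤ Y n → Y n ≤ 1 → p ≤ (4 : ℝ) • Y n ∧
        En Finset.univ (fun i => inr (Fin (b n)) (w n i)) p ≤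
          4 * Real.sqrt (8 * (Finset.univ : Finset I).card *
            En Finset.univ (fun i => inr (Fin (b n)) (w n i)) (Y n) * rt (Y n)) ∧
        hs (Y n) - 1 / 2 * rt (Y n) ≤ rt p) := by
    intro n
    by_cases h : 0 ≤ Y n ∧ Y n ≤ 1
    · obtain ⟨p, h1, h2, h3, h4⟩ := hRND (Fin (b n) × Fin (l n)) I Finset.univ
        (fun i => inr (Fin (b n)) (w n i)) (Y n) (fun i => inr_unit (hw n i)) h.1 h.2
      exact ⟨p, h1, fun _ _ => ⟨h2, h3, h4⟩⟩
    · exact ⟨0, Pr.zero, fun h1 h2 => absurd ⟨h1, h2⟩ h⟩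
  choose f hf hfY using hR
  have hrt : ∀ᶠ n in (U : Filter ℕ), (b n : ℝ) * rt (Y n) ≤ l n := by
    filter_upwards [hpos, hY] with n hn hYn
    have hb : 0 < Fintype.card (Fin (b n)) := by rw [Fintype.card_fin]; exact hn.2
    have h1 := rt_ptr hb (Y n)
    rw [Fintype.card_fin] at h1
    have h2 := rt_mono hYn.2.2.1
    rw [rt_smul, rt_one', Fintype.card_fin] at h2
    rw [← h1]
    calc (b n : ℝ) * (b n * rt (ptr (Y n))) = (b n : ℝ) ^ 2 * rt (ptr (Y n)) := by ring
      _ ≤ l n := h2
  refine ⟨f, hf, ?_, ?_⟩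
  · filter_upwards [hpos, hY, hrt] with n hn hYn hr
    obtain ⟨hY0, hY1, hYp, hYh⟩ := hYn
    obtain ⟨h1, -, h3⟩ := hfY n hY0 hY1
    constructor
    · have h4 : ((b n : ℝ) ^ 2) • ptr (f n) ≤ ((b n : ℝ) ^ 2) • ptr ((4 : ℝ) • Y n) :=
        smul_mono_real (by positivity) (ptr_mono h1)
      refine h4.trans ?_
      rw [ptr_smul, smul_comm]
      exact smul_mono_real (by norm_num) hYp
    · have hb : (0 : ℝ) ≤ b n := by positivity
      have h5 : (b n : ℝ) * (hs (Y n) - 1 / 2 * rt (Y n)) ≤ b n * rt (f n) :=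
        mul_le_mul_of_nonneg_left h3 hb
      linarith
  · intro i
    set E : ℕ → ℝ := fun n => ∑ j, ((b n : ℝ) * hs (inr (Fin (b n)) (w n j) * Y n -
      Y n * inr (Fin (b n)) (w n j)) / l n) with hE
    have hE0 : Tendsto E U (𝓝 0) := by
      have := tendsto_finsetSum (Finset.univ : Finset I) (fun j _ => hcomm j)
      simpa using this
    have hS : Tendsto (fun n => 4 * Real.sqrt (8 * (Finset.univ : Finset I).card * E n)) U
        (𝓝 0) := by
      have h1 : Tendsto (fun n => 8 * ((Finset.univ : Finset I).card : ℝ) * E n) U (𝓝 0) := by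
        simpa using hE0.const_mul (8 * ((Finset.univ : Finset I).card : ℝ))
      have h2 := (Real.continuous_sqrt.tendsto 0).comp h1
      rw [Real.sqrt_zero] at h2
      simpa using h2.const_mul 4
    refine squeeze_zero' (Eventually.of_forall fun n => ?_) ?_ hS
    · exact div_nonneg (mul_nonneg (by positivity) (hs_nonneg _)) (by positivity)
    · filter_upwards [hpos, hY, hrt] with n hn hYn hr
      obtain ⟨hY0, hY1, hYp, hYh⟩ := hYn
      obtain ⟨-, h2, -⟩ := hfY n hY0 hY1
      have hl : (0 : ℝ) < l n := by exact_mod_cast hn.1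
      have hb : (0 : ℝ) < b n := by exact_mod_cast hn.2
      have hsing : hs (inr (Fin (b n)) (w n i) * f n - f n * inr (Fin (b n)) (w n i)) ≤
          En Finset.univ (fun i => inr (Fin (b n)) (w n i)) (f n) := by
        unfold En
        exact Finset.single_le_sum (f := fun s => hs (inr (Fin (b n)) (w n s) * f n -
          f n * inr (Fin (b n)) (w n s))) (fun s _ => hs_nonneg _) (Finset.mem_univ i)
      have hEn : E n = (b n : ℝ) / l n *
          En Finset.univ (fun i => inr (Fin (b n)) (w n i)) (Y n) := by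
        rw [hE]
        unfold En
        rw [Finset.mul_sum]
        refine Finset.sum_congr rfl fun j _ => ?_
        ring
      have hEn0 : 0 ≤ En Finset.univ (fun i => inr (Fin (b n)) (w n i)) (Y n) :=
        Finset.sum_nonneg fun _ _ => hs_nonneg _
      have hq : (b n : ℝ) / l n * rt (Y n) ≤ 1 := by
        rw [div_mul_eq_mul_div, div_le_one hl]
        exact hr
      have hk : (0 : ℝ) ≤ b n / l n := by positivity
      calc (b n : ℝ) * hs (inr (Fin (b n)) (w n i) * f n - f n * inr (Fin (b n)) (w n i)) / l n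
          = (b n : ℝ) / l n *
            hs (inr (Fin (b n)) (w n i) * f n - f n * inr (Fin (b n)) (w n i)) := by ring
        _ ≤ (b n : ℝ) / l n * (4 * Real.sqrt (8 * (Finset.univ : Finset I).card *
            En Finset.univ (fun i => inr (Fin (b n)) (w n i)) (Y n) * rt (Y n))) :=
            mul_le_mul_of_nonneg_left (hsing.trans h2) hk
        _ = 4 * ((b n : ℝ) / l n * Real.sqrt (8 * (Finset.univ : Finset I).card *
            En Finset.univ (fun i => inr (Fin (b n)) (w n i)) (Y n) * rt (Y n))) := by ring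
        _ ≤ 4 * Real.sqrt (8 * (Finset.univ : Finset I).card * E n) := by
            refine mul_le_mul_of_nonneg_left ?_ (by norm_num)
            rw [← Real.sqrt_sq hk, ← Real.sqrt_mul (by positivity), hEn]
            refine Real.sqrt_le_sqrt ?_
            have hc : (0 : ℝ) ≤ 8 * ((Finset.univ : Finset I).card : ℝ) *
                ((b n : ℝ) / l n * En Finset.univ (fun i => inr (Fin (b n)) (w n i)) (Y n)) := by
              positivity
            nlinarith [mul_le_mul_of_nonneg_left hq hc]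

end Helper53.NG
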