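import Pool.Agent.Helper53.NG.StB

/-!
# Project NG, module IMC: compression to an almost invariant projection
-/

set_option linter.unusedSectionVars false

namespace Helper53.NG

open Helper51.MU Helper61.IE Filter Topology
open scoped Matrix.Norms.L2Operator MatrixOrder ComplexOrder

attribute [local irreducible] Helper51.MU.instRingMUlt

namespace IMC

/-! ## rectangular matrices -/

section rect

variable {a b c : Type} [Fintype a] [DecidableEq a] [Fintype b] [DecidableEq b]
  [Fintype c] [DecidableEq c]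

/-- The square of the Hilbert-Schmidt norm of a rectangular matrix. -/
noncomputable def hsR (M : Matrix a b ℂ) : ℝ := ∑ i, ∑ j, ‖M i j‖ ^ 2

lemma hsR_eq (M : Matrix a b ℂ) : hsR M = rt (M.conjTranspose * M) := by
  unfold hsR rt Matrix.trace
  simp only [Matrix.diag_apply, Matrix.mul_apply, Matrix.conjTranspose_apply]
  rw [Complex.re_sum, Finset.sum_comm]
  refine Finset.sum_congr rfl fun i _ => ?_
  rw [Complex.re_sum]
  refine Finset.sum_congr rfl fun j _ => ?_
  rw [RCLike.star_def, Complex.conj_mul', ← Complex.ofReal_pow, Complex.ofReal_re]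

lemma hsR_smul (t : ℂ) (M : Matrix a b ℂ) : hsR (t • M) = ‖t‖ ^ 2 * hsR M := by
  unfold hsR
  simp [mul_pow, Finset.mul_sum]

/-- Isometries on both sides. -/
lemma hs_iso {d : Type} [Fintype d] [DecidableEq d] {P : Matrix d a ℂ} {Q : Matrix d b ℂ}
    (hP : P.conjTranspose * P = 1) (hQ : Q.conjTranspose * Q = 1) (M : Matrix a b ℂ) :
    hs (P * M * Q.conjTranspose) = hsR M := by
  rw [hs_eq_rt, hsR_eq]
  unfold rt
  congr 1
  rw [Matrix.conjTranspose_mul, Matrix.conjTranspose_mul, Matrix.conjTranspose_conjTranspose]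
  have e : Q * (M.conjTranspose * P.conjTranspose) * (P * M * Q.conjTranspose) =
      Q * (M.conjTranspose * M * Q.conjTranspose) := by
    calc Q * (M.conjTranspose * P.conjTranspose) * (P * M * Q.conjTranspose) =
        Q * (M.conjTranspose * (P.conjTranspose * P) * M * Q.conjTranspose) := by
          simp only [Matrix.mul_assoc]
      _ = _ := by rw [hP, Matrix.mul_one]
  rw [e, Matrix.trace_mul_comm, Matrix.mul_assoc, hQ, Matrix.mul_one]

/-- An isometry on the right. -/
lemma hs_mul_iso {Q : Matrix a b ℂ} (hQ : Q.conjTranspose * Q = 1) (M : Matrix a b ℂ) :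
    hs (M * Q.conjTranspose) = hsR M := by
  have := hs_iso (P := (1 : Matrix a a ℂ)) (by simp) hQ M
  rwa [Matrix.one_mul] at this

lemma nonneg_mul_star' (M : Matrix a b ℂ) : 0 ≤ M * M.conjTranspose :=
  (Matrix.posSemidef_self_mul_conjTranspose M).nonneg

lemma iso_l {d : Type} [Fintype d] [DecidableEq d] {P : Matrix d a ℂ}
    (hP : P.conjTranspose * P = 1) (Q : Matrix d b ℂ) (A : Matrix a a ℂ) (M : Matrix a b ℂ) :
    P * A * P.conjTranspose * (P * M * Q.conjTranspose) = P * (A * M) * Q.conjTranspose := by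
  calc P * A * P.conjTranspose * (P * M * Q.conjTranspose) =
      P * (A * ((P.conjTranspose * P) * M)) * Q.conjTranspose := by simp only [Matrix.mul_assoc]
    _ = _ := by rw [hP, Matrix.one_mul]

lemma iso_r {d : Type} [Fintype d] [DecidableEq d] {Q : Matrix d b ℂ}
    (hQ : Q.conjTranspose * Q = 1) (P : Matrix d a ℂ) (B : Matrix b b ℂ) (M : Matrix a b ℂ) :
    P * M * Q.conjTranspose * (Q * B * Q.conjTranspose) = P * (M * B) * Q.conjTranspose := by
  calc P * M * Q.conjTranspose * (Q * B * Q.conjTranspose) =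
      P * (M * ((Q.conjTranspose * Q) * B)) * Q.conjTranspose := by simp only [Matrix.mul_assoc]
    _ = _ := by rw [hQ, Matrix.one_mul]

/-- The compression identities. -/
lemma cmp_star {J : Matrix a b ℂ} (A : Matrix a a ℂ) :
    (J.conjTranspose * A * J).conjTranspose = J.conjTranspose * A.conjTranspose * J := by
  rw [Matrix.conjTranspose_mul, Matrix.conjTranspose_mul, Matrix.conjTranspose_conjTranspose,
    Matrix.mul_assoc]

lemma cmp_mul (J : Matrix a b ℂ) (A B : Matrix a a ℂ) :
    J.conjTranspose * A * J * (J.conjTranspose * B * J) =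
      J.conjTranspose * (A * (J * J.conjTranspose) * B) * J := by
  simp only [Matrix.mul_assoc]

lemma cmp_conj (J : Matrix a b ℂ) (A : Matrix a a ℂ) :
    J * (J.conjTranspose * A * J) * J.conjTranspose =
      (J * J.conjTranspose) * A * (J * J.conjTranspose) := by
  simp only [Matrix.mul_assoc]

end rect

/-! ## reshaping and partial trace -/

section single

variable {κ n r : Type} [Fintype κ] [DecidableEq κ] [Fintype n] [DecidableEq n]
  [Fintype r] [DecidableEq r]

/-- Reshaping. -/
def rs (M : Matrix (κ × n) r ℂ) : Matrix n (κ × r) ℂ := fun i p => M (p.1, i) p.2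

lemma rs_apply (M : Matrix (κ × n) r ℂ) (i : n) (p : κ × r) : rs M i p = M (p.1, i) p.2 := rfl

lemma rs_sub (M N : Matrix (κ × n) r ℂ) : rs (M - N) = rs M - rs N := rfl

lemma hsR_rs (M : Matrix (κ × n) r ℂ) : hsR (rs M) = hsR M := by
  unfold hsR
  simp only [rs_apply, Fintype.sum_prod_type]
  exact Finset.sum_comm

lemma mul_rs (A : Matrix n n ℂ) (M : Matrix (κ × n) r ℂ) : A * rs M = rs (inr κ A * M) := by
  ext i ⟨k, s⟩
  rw [Matrix.mul_apply, rs_apply, Matrix.mul_apply, Fintype.sum_prod_type]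
  simp only [inr_apply, rs_apply]
  rw [Finset.sum_eq_single k]
  · simp
  · intro k' _ hk
    simp [Matrix.one_apply_ne (Ne.symm hk)]
  · simp

lemma rs_mul (M : Matrix (κ × n) r ℂ) (A : Matrix r r ℂ) : rs M * inr κ A = rs (M * A) := by
  ext i ⟨k, s⟩
  rw [Matrix.mul_apply, rs_apply, Matrix.mul_apply, Fintype.sum_prod_type]
  simp only [inr_apply, rs_apply]
  rw [Finset.sum_eq_single k]
  · simp
  · intro k' _ hk
    simp [Matrix.one_apply_ne hk]
  · simp

lemma card_mul_ptr (f : Matrix (κ × n) (κ × n) ℂ) (i j : n) :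
    (Fintype.card κ : ℂ) * ptr f i j = ∑ k, f (k, i) (k, j) := by
  unfold ptr ntr blk
  rcases Nat.eq_zero_or_pos (Fintype.card κ) with h | h
  · have : IsEmpty κ := Fintype.card_eq_zero_iff.1 h
    simp
  · have hc : (Fintype.card κ : ℂ) ≠ 0 := by exact_mod_cast h.ne'
    field_simp

lemma rs_mul_star (M : Matrix (κ × n) r ℂ) :
    rs M * (rs M).conjTranspose = (Fintype.card κ : ℝ) • ptr (M * M.conjTranspose) := by
  ext i j
  rw [Matrix.smul_apply, Complex.real_smul, Complex.ofReal_natCast, card_mul_ptr,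
    Matrix.mul_apply, Fintype.sum_prod_type]
  refine Finset.sum_congr rfl fun k _ => ?_
  rw [Matrix.mul_apply]
  rfl

lemma rt_inr_mul (A : Matrix n n ℂ) (f : Matrix (κ × n) (κ × n) ℂ) :
    rt (inr κ A * f) = Fintype.card κ * rt (A * ptr f) := by
  unfold rt
  have h : Matrix.trace (inr κ A * f) = (Fintype.card κ : ℂ) * Matrix.trace (A * ptr f) := by
    unfold Matrix.trace
    simp only [Matrix.diag_apply, Matrix.mul_apply, Finset.mul_sum]
    rw [Fintype.sum_prod_type, Finset.sum_comm]
    refine Finset.sum_congr rfl fun i _ => ?_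
    have e1 : ∀ k, ∑ q : κ × n, inr κ A (k, i) q * f q (k, i) = ∑ j, A i j * f (k, j) (k, i) := by
      intro k
      rw [Fintype.sum_prod_type, Finset.sum_eq_single k]
      · simp [inr_apply]
      · intro k' _ hk
        simp [inr_apply, Matrix.one_apply_ne (Ne.symm hk)]
      · simp
    simp only [e1]
    rw [Finset.sum_comm]
    refine Finset.sum_congr rfl fun j _ => ?_
    rw [← Finset.mul_sum, ← card_mul_ptr]
    ring
  rw [h, ← Complex.ofReal_natCast, Complex.re_ofReal_mul]

/-- The marginal bound. -/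
lemma marg {f : Matrix (κ × n) (κ × n) ℂ} (hf : Pr f)
    (h : ((Fintype.card κ : ℝ) ^ 2) • ptr f ≤ (4 : ℝ) • (1 : Matrix n n ℂ)) (A : Matrix n n ℂ) :
    Fintype.card κ * hs (inr κ A * f) ≤ 4 * hs A := by
  have h1 : hs (inr κ A * f) = rt (inr κ (A.conjTranspose * A) * f) := by
    rw [hs_eq_rt, Matrix.conjTranspose_mul, hf.1, rt_mul_comm]
    have e : inr κ A * f * (f * (inr κ A).conjTranspose) = inr κ A * f * (inr κ A).conjTranspose := by
      calc inr κ A * f * (f * (inr κ A).conjTranspose) =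
          inr κ A * (f * f) * (inr κ A).conjTranspose := by simp only [Matrix.mul_assoc]
        _ = _ := by rw [hf.2]
    rw [e, rt_cycle]
    congr 2
    have : (inr κ A).conjTranspose = inr κ A.conjTranspose :=
      (map_star (inr κ) A).symm
    rw [this, ← map_mul]
  rw [h1, rt_inr_mul]
  have h2 := rt_mul_mono' h (nonneg_star_mul A)
  rw [Matrix.mul_smul, rt_smul, Matrix.mul_smul, rt_smul, Matrix.mul_one, ← hs_eq_rt] at h2
  calc (Fintype.card κ : ℝ) * (Fintype.card κ * rt (A.conjTranspose * A * ptr f)) =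
      (Fintype.card κ : ℝ) ^ 2 * rt (A.conjTranspose * A * ptr f) := by ring
    _ ≤ _ := h2

lemma inr_star (A : Matrix n n ℂ) : inr κ A.conjTranspose = (inr κ A).conjTranspose :=
  map_star (inr κ) A

lemma marg' {f : Matrix (κ × n) (κ × n) ℂ} (hf : Pr f)
    (h : ((Fintype.card κ : ℝ) ^ 2) • ptr f ≤ (4 : ℝ) • (1 : Matrix n n ℂ)) (A : Matrix n n ℂ) :
    Fintype.card κ * hs (f * inr κ A) ≤ 4 * hs A := by
  have h1 := marg hf h A.conjTranspose
  rw [hs_conjTranspose, inr_star] at h1
  have h2 : hs (f * inr κ A) = hs ((inr κ A).conjTranspose * f) := by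
    rw [← hs_conjTranspose, Matrix.conjTranspose_mul, hf.1]
  rw [h2]
  exact h1

/-- The commutator energy with `1 ⊗ A`. -/
noncomputable def cm (f : Matrix (κ × n) (κ × n) ℂ) (A : Matrix n n ℂ) : ℝ :=
  hs (inr κ A * f - f * inr κ A)

lemma hs_sub_le' (x y : Matrix n n ℂ) : hs (x - y) ≤ 2 * hs x + 2 * hs y := by
  have := hs_add_le x (-y)
  rwa [hs_neg, ← sub_eq_add_neg] at this

lemma cm_nonneg (f : Matrix (κ × n) (κ × n) ℂ) (A : Matrix n n ℂ) : 0 ≤ cm f A := hs_nonneg _

lemma cm_add (f : Matrix (κ × n) (κ × n) ℂ) (A B : Matrix n n ℂ) :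
    cm f (A + B) ≤ 2 * cm f A + 2 * cm f B := by
  unfold cm
  have e : inr κ (A + B) * f - f * inr κ (A + B) =
      (inr κ A * f - f * inr κ A) + (inr κ B * f - f * inr κ B) := by
    rw [map_add, add_mul, mul_add]; abel
  rw [e]
  exact hs_add_le _ _

lemma cm_one (f : Matrix (κ × n) (κ × n) ℂ) : cm f 1 = 0 := by
  unfold cm
  rw [map_one, one_mul, mul_one, sub_self, hs_zero]

lemma cm_star {f : Matrix (κ × n) (κ × n) ℂ} (hf : Pr f) (A : Matrix n n ℂ) :
    cm f A.conjTranspose = cm f A := by
  unfold cm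
  rw [← hs_conjTranspose, Matrix.conjTranspose_sub, Matrix.conjTranspose_mul,
    Matrix.conjTranspose_mul, hf.1, inr_star, Matrix.conjTranspose_conjTranspose, hs_sub_comm]

lemma cm_mul {f : Matrix (κ × n) (κ × n) ℂ} {A B : Matrix n n ℂ} (hA : ‖A‖ ≤ 1) (hB : ‖B‖ ≤ 1) :
    cm f (A * B) ≤ 2 * cm f A + 2 * cm f B := by
  unfold cm
  have e : inr κ (A * B) * f - f * inr κ (A * B) =
      (inr κ A * f - f * inr κ A) * inr κ B + inr κ A * (inr κ B * f - f * inr κ B) := by
    rw [map_mul]; noncomm_ring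
  rw [e]
  refine (hs_add_le _ _).trans ?_
  have h1 := hs_mul_right_le (A := inr κ A * f - f * inr κ A) ((norm_inr_le B).trans hB)
  have h2 := hs_mul_left_le (A := inr κ B * f - f * inr κ B) ((norm_inr_le A).trans hA)
  linarith

lemma cm_le {f : Matrix (κ × n) (κ × n) ℂ} (hf : Pr f)
    (h : ((Fintype.card κ : ℝ) ^ 2) • ptr f ≤ (4 : ℝ) • (1 : Matrix n n ℂ)) (A : Matrix n n ℂ) :
    Fintype.card κ * cm f A ≤ 16 * hs A := by
  unfold cm
  have h1 := marg hf h A
  have h2 := marg' hf h A
  have h3 := hs_sub_le' (inr κ A * f) (f * inr κ A)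
  have h4 : (0 : ℝ) ≤ Fintype.card κ := by positivity
  nlinarith

/-- `(1 - f) (1 ⊗ A) f` is controlled by the commutator. -/
lemma off_le {f : Matrix (κ × n) (κ × n) ℂ} (hf : Pr f) (A : Matrix n n ℂ) :
    hs ((1 - f) * (inr κ A * f)) ≤ cm f A := by
  have e : (1 - f) * (inr κ A * f) = (1 - f) * (inr κ A * f - f * inr κ A) := by
    rw [mul_sub, ← mul_assoc (1 - f) f, sub_mul (1 : Matrix (κ × n) (κ × n) ℂ) f f, one_mul, hf.2,
      sub_self, zero_mul, sub_zero]
  rw [e]
  exact hs_mul_left_le hf.one_sub.norm_le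

/-- The defect of the intertwiner. -/
lemma def_le {f : Matrix (κ × n) (κ × n) ℂ} (hf : Pr f) {J : Matrix (κ × n) r ℂ}
    (hJ : J.conjTranspose * J = 1) (hJf : J * J.conjTranspose = f) (A : Matrix n n ℂ) (b : ℕ) :
    hsR (A * (((Real.sqrt b : ℝ) : ℂ) • rs J) - (((Real.sqrt b : ℝ) : ℂ) • rs J) *
      inr κ (J.conjTranspose * inr κ A * J)) ≤ b * cm f A := by
  have e3 : A * (((Real.sqrt b : ℝ) : ℂ) • rs J) - (((Real.sqrt b : ℝ) : ℂ) • rs J) *
      inr κ (J.conjTranspose * inr κ A * J) =
      ((Real.sqrt b : ℝ) : ℂ) • rs ((1 - f) * (inr κ A * J)) := by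
    rw [Matrix.mul_smul, Matrix.smul_mul, mul_rs, rs_mul, ← smul_sub, ← rs_sub,
      Matrix.sub_mul, Matrix.one_mul]
    congr 3
    rw [← hJf]; simp only [Matrix.mul_assoc]
  rw [e3, hsR_smul, hsR_rs, Complex.norm_real, Real.norm_eq_abs, sq_abs,
    Real.sq_sqrt (by positivity), ← hs_mul_iso hJ]
  refine mul_le_mul_of_nonneg_left ?_ (by positivity)
  have e4 : (1 - f) * (inr κ A * J) * J.conjTranspose = (1 - f) * (inr κ A * f) := by
    rw [← hJf]; simp only [Matrix.mul_assoc]
  rw [e4]
  exact off_le hf _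

end single

/-! ## sequences -/

section seq

variable {l b : ℕ → ℕ} {U : Ultrafilter ℕ}
  {f : ∀ n, Matrix (Fin (b n) × Fin (l n)) (Fin (b n) × Fin (l n)) ℂ}

/-- The commutators with `1 ⊗ w n` are null. -/
def Nl (U : Ultrafilter ℕ) (f : ∀ n, Matrix (Fin (b n) × Fin (l n)) (Fin (b n) × Fin (l n)) ℂ)
    (w : ∀ n, Matrix (Fin (l n)) (Fin (l n)) ℂ) : Prop :=
  Tendsto (fun n => (b n : ℝ) * cm (f n) (w n) / l n) U (𝓝 0)

lemma Nl.pert (hf : ∀ n, Pr (f n))
    (hp : ∀ᶠ n in (U : Filter ℕ), ((b n : ℝ) ^ 2) • ptr (f n) ≤ (4 : ℝ) • (1 : Matrix _ _ ℂ))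
    {w w' : ∀ n, Matrix (Fin (l n)) (Fin (l n)) ℂ} (h : Nl U f w')
    (hw : Tendsto (fun n => nn (w n - w' n)) U (𝓝 0)) : Nl U f w := by
  have h1 : Tendsto (fun n => 32 * nn (w n - w' n) + 2 * ((b n : ℝ) * cm (f n) (w' n) / l n)) U
      (𝓝 0) := by
    have := (hw.const_mul 32).add (Tendsto.const_mul 2 h)
    simpa using this
  refine squeeze_zero' (Filter.Eventually.of_forall fun n =>
    div_nonneg (mul_nonneg (by positivity) (cm_nonneg _ _)) (by positivity)) ?_ h1
  filter_upwards [hp] with n hn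
  have e : w n = (w n - w' n) + w' n := by abel
  have h2 := cm_add (f n) (w n - w' n) (w' n)
  rw [← e] at h2
  have h3 := cm_le (hf n) (by rwa [Fintype.card_fin]) (w n - w' n)
  rw [Fintype.card_fin] at h3
  have h4 : nn (w n - w' n) = hs (w n - w' n) / l n := by
    unfold nn
    rw [Fintype.card_fin]
  rw [h4, ← mul_div_assoc, ← mul_div_assoc, ← add_div]
  refine div_le_div_of_nonneg_right ?_ (by positivity)
  have h5 : (0 : ℝ) ≤ b n := by positivity
  nlinarith

lemma Nl.star (hf : ∀ n, Pr (f n)) {w : ∀ n, Matrix (Fin (l n)) (Fin (l n)) ℂ} (h : Nl U f w) :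
    Nl U f (fun n => (w n).conjTranspose) := by
  refine h.congr fun n => ?_
  rw [cm_star (hf n)]

lemma Nl.mul {w w' : ∀ n, Matrix (Fin (l n)) (Fin (l n)) ℂ} (hw : ∀ n, ‖w n‖ ≤ 1)
    (hw' : ∀ n, ‖w' n‖ ≤ 1) (h : Nl U f w) (h' : Nl U f w') : Nl U f (fun n => w n * w' n) := by
  have h1 : Tendsto (fun n => 2 * ((b n : ℝ) * cm (f n) (w n) / l n) +
      2 * ((b n : ℝ) * cm (f n) (w' n) / l n)) U (𝓝 0) := by
    have := (Tendsto.const_mul 2 h).add (Tendsto.const_mul 2 h')
    simpa using this
  refine squeeze_zero (fun n =>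
    div_nonneg (mul_nonneg (by positivity) (cm_nonneg _ _)) (by positivity)) (fun n => ?_) h1
  rw [← mul_div_assoc, ← mul_div_assoc, ← add_div]
  refine div_le_div_of_nonneg_right ?_ (by positivity)
  have h2 := cm_mul (f := f n) (hw n) (hw' n)
  have h5 : (0 : ℝ) ≤ b n := by positivity
  nlinarith

lemma Nl.one : Nl U f (fun _ => 1) := by
  unfold Nl
  simp only [cm_one, mul_zero, zero_div]
  exact tendsto_const_nhds

end seq

end IMC

open IMC

theorem pIMC : StIMC := by
  intro hRK K I _ _ x l b U hgen u π y hL hpos f hf hev hcom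
  have hRK' := fun n => hRK (Fin (b n) × Fin (l n)) (f n) (hf n)
  choose r J hJ hJf hr using hRK'
  -- unitarity
  have hy : ∀ k, star (y k) * y k = 1 := fun k =>
    Subtype.ext (funext fun n => by
      rw [mul_val, star_val, hL.val, one_val]
      exact hL.unit n k)
  have hu : ∀ k, star (u k) * u k = 1 := fun k => by
    rw [← hL.cls, star_mk, ← map_mul, hy, map_one]
  have hπ : ∀ n k, ‖π n k‖ ≤ 1 := fun n k => norm_unit_le (hL.unit n k)
  have hp : ∀ᶠ n in (U : Filter ℕ), ((b n : ℝ) ^ 2) • ptr (f n) ≤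
      (4 : ℝ) • (1 : Matrix _ _ ℂ) := hev.mono fun n h => h.1
  -- all of K commutes with f approximately
  have hall : ∀ k, Nl U f (fun n => π n k) := by
    intro k
    have hk : k ∈ Subgroup.closure (Set.range x) := by rw [hgen]; trivial
    induction hk using Subgroup.closure_induction with
    | mem k hk =>
      obtain ⟨i, rfl⟩ := hk
      exact hcom i
    | one =>
      refine Nl.one.pert hf hp ?_
      have h : mkM U (y 1) = mkM U 1 := by rw [hL.cls, map_one, map_one]
      rw [mk_eq_mk] at h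
      refine h.congr fun n => ?_
      rw [hL.val, one_val]
    | mul k k' _ _ h h' =>
      refine (h.mul (fun n => hπ n k) (fun n => hπ n k') h').pert hf hp ?_
      have h : mkM U (y (k * k')) = mkM U (y k * y k') := by
        rw [hL.cls, map_mul, map_mul, hL.cls, hL.cls]
      rw [mk_eq_mk] at h
      refine h.congr fun n => ?_
      rw [hL.val, mul_val, hL.val, hL.val]
    | inv k _ h =>
      refine (h.star hf).pert hf hp ?_
      have h : mkM U (y k⁻¹) = mkM U (star (y k)) := by
        rw [hL.cls, hom_inv u hu, ← star_mk, hL.cls]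
      rw [mk_eq_mk] at h
      refine h.congr fun n => ?_
      rw [hL.val, star_val, hL.val]
  -- sizes
  have hsize : ∀ᶠ n in (U : Filter ℕ), 3 / 10 * (l n : ℝ) ≤ b n * r n := by
    filter_upwards [hev] with n hn
    rw [hr]; exact hn.2
  have hsize' : ∀ᶠ n in (U : Filter ℕ), (b n : ℝ) * r n ≤ 4 * l n := by
    filter_upwards [hp] with n hn
    have h1 := marg (hf n) (by rwa [Fintype.card_fin]) (1 : Matrix (Fin (l n)) (Fin (l n)) ℂ)
    have h2 : hs (1 : Matrix (Fin (l n)) (Fin (l n)) ℂ) = l n := by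
      have := sum_one_sq (Fin (l n))
      rw [Fintype.card_fin] at this
      exact this
    rw [map_one, one_mul, (hf n).hs, h2, Fintype.card_fin, ← hr] at h1
    exact h1
  -- null sequences in the corner
  have hnull : ∀ X : ∀ n, Matrix (Fin (r n)) (Fin (r n)) ℂ,
      Tendsto (fun n => (b n : ℝ) * hs (J n * X n * (J n).conjTranspose) / l n) U (𝓝 0) →
      Tendsto (fun n => nn (X n)) U (𝓝 0) := by
    intro X hX
    have h1 := hX.const_mul (10 / 3)
    rw [mul_zero] at h1
    refine squeeze_zero' (Filter.Eventually.of_forall fun n => nn_nonneg _) ?_ h1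
    filter_upwards [hsize, hpos] with n hn hpn
    rw [hs_conj (hJ n)]
    unfold nn
    rw [Fintype.card_fin]
    have hl : (0 : ℝ) < l n := by exact_mod_cast hpn.1
    have hb : (0 : ℝ) < b n := by exact_mod_cast hpn.2
    have hr0 : (0 : ℝ) < r n := by
      by_contra h
      have : (r n : ℝ) ≤ 0 := not_lt.1 h
      nlinarith
    rw [← mul_div_assoc, div_le_div_iff₀ hr0 hl]
    have := hs_nonneg (X n)
    nlinarith
  -- the compression
  let cB : K → BSeq (fun n => Fin (r n)) := fun k =>
    ⟨fun n => (J n).conjTranspose * inr (Fin (b n)) (π n k) * J n, 1, fun n =>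
      (norm_conj_le' (hJ n) _).trans ((norm_inr_le _).trans (hπ n k))⟩
  have cB_val : ∀ k n, (cB k).1 n = (J n).conjTranspose * inr (Fin (b n)) (π n k) * J n :=
    fun _ _ => rfl
  have hsand : ∀ n (A : Matrix (Fin (b n) × Fin (l n)) (Fin (b n) × Fin (l n)) ℂ),
      J n * ((J n).conjTranspose * A * J n) * (J n).conjTranspose = f n * A * f n := by
    intro n A
    rw [← hJf n]; simp only [Matrix.mul_assoc]
  -- a general criterion
  have hpert : ∀ A : ∀ n, Matrix (Fin (l n)) (Fin (l n)) ℂ, Tendsto (fun n => nn (A n)) U (𝓝 0) →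
      Tendsto (fun n => nn ((J n).conjTranspose * inr (Fin (b n)) (A n) * J n)) U (𝓝 0) := by
    intro A hA
    refine hnull _ ?_
    have h1 := hA.const_mul 4
    rw [mul_zero] at h1
    refine squeeze_zero' (Filter.Eventually.of_forall fun n =>
      div_nonneg (mul_nonneg (by positivity) (hs_nonneg _)) (by positivity)) ?_ h1
    filter_upwards [hp] with n hn
    rw [hsand]
    have h2 := marg (hf n) (by rwa [Fintype.card_fin]) (A n)
    rw [Fintype.card_fin] at h2
    have h3 : hs (f n * inr (Fin (b n)) (A n) * f n) ≤ hs (inr (Fin (b n)) (A n) * f n) := by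
      rw [mul_assoc]
      exact hs_mul_left_le (hf n).norm_le
    unfold nn
    rw [Fintype.card_fin, ← mul_div_assoc]
    refine div_le_div_of_nonneg_right ?_ (by positivity)
    have : (0 : ℝ) ≤ b n := by positivity
    nlinarith
  have hmid : ∀ (A : ∀ n, Matrix (Fin (l n)) (Fin (l n)) ℂ) (k : K), (∀ n, ‖A n‖ ≤ 1) →
      Tendsto (fun n => nn ((J n).conjTranspose * (inr (Fin (b n)) (A n) * (1 - f n) *
        inr (Fin (b n)) (π n k)) * J n)) U (𝓝 0) := by
    intro A k hA
    refine hnull _ ?_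
    refine squeeze_zero (fun n =>
      div_nonneg (mul_nonneg (by positivity) (hs_nonneg _)) (by positivity)) (fun n => ?_) (hall k)
    refine div_le_div_of_nonneg_right ?_ (by positivity)
    refine mul_le_mul_of_nonneg_left ?_ (by positivity)
    rw [hsand]
    have e : f n * (inr (Fin (b n)) (A n) * (1 - f n) * inr (Fin (b n)) (π n k)) * f n =
        f n * (inr (Fin (b n)) (A n) * ((1 - f n) * (inr (Fin (b n)) (π n k) * f n))) := by
      simp only [mul_assoc]
    rw [e]
    refine (hs_mul_left_le (hf n).norm_le).trans ?_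
    refine (hs_mul_left_le ((norm_inr_le _).trans (hA n))).trans ?_
    exact off_le (hf n) _
  have hJJ : ∀ n, (J n).conjTranspose * f n = (J n).conjTranspose := by
    intro n
    rw [← hJf n, ← Matrix.mul_assoc, hJ, Matrix.one_mul]
  let c : K →* MUlt (fun n => Fin (r n)) U :=
    { toFun := fun k => mkM U (cB k)
      map_one' := by
        rw [← map_one (mkM U), mk_eq_mk]
        have h : mkM U (y 1) = mkM U 1 := by rw [hL.cls, map_one, map_one]
        rw [mk_eq_mk] at h
        refine (hpert _ h).congr fun n => ?_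
        rw [cB_val, one_val, one_val, hL.val, map_sub, map_one, Matrix.mul_sub, Matrix.sub_mul,
          Matrix.mul_one, hJ]
      map_mul' := by
        intro k k'
        rw [← map_mul, mk_eq_mk]
        have h : mkM U (y (k * k')) = mkM U (y k * y k') := by
          rw [hL.cls, map_mul, map_mul, hL.cls, hL.cls]
        rw [mk_eq_mk] at h
        have h1 := hpert _ h
        have h2 := hmid (fun n => π n k) k' (fun n => hπ n k)
        have h3 : Tendsto (fun n => 2 * nn ((J n).conjTranspose * inr (Fin (b n))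
            ((y (k * k')).1 n - (y k * y k').1 n) * J n) + 2 * nn ((J n).conjTranspose *
            (inr (Fin (b n)) (π n k) * (1 - f n) * inr (Fin (b n)) (π n k')) * J n)) U (𝓝 0) := by
          have := (h1.const_mul 2).add (h2.const_mul 2)
          simpa using this
        refine squeeze_zero (fun n => nn_nonneg _) (fun n => ?_) h3
        refine le_trans (le_of_eq ?_) (nn_add_le _ _)
        congr 1
        rw [cB_val, mul_val, mul_val, cB_val, cB_val, hL.val, hL.val, hL.val, map_sub, map_mul]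
        have e : (J n).conjTranspose * inr (Fin (b n)) (π n k) * J n *
            ((J n).conjTranspose * inr (Fin (b n)) (π n k') * J n) =
            (J n).conjTranspose * (inr (Fin (b n)) (π n k) * f n *
              inr (Fin (b n)) (π n k')) * J n := by
          rw [← hJf n]; simp only [Matrix.mul_assoc]
        rw [e, ← Matrix.sub_mul, ← Matrix.mul_sub, ← Matrix.add_mul, ← Matrix.mul_add]
        congr 2
        noncomm_ring }
  have hc : ∀ k, c k = mkM U (cB k) := fun _ => rfl
  -- the intertwiner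
  classical
  let good : ℕ → Prop := fun n => ((b n : ℝ) ^ 2) • ptr (f n) ≤ (4 : ℝ) • (1 : Matrix _ _ ℂ)
  let V0 : ∀ n, Matrix (Fin (l n)) (Fin (b n) × Fin (r n)) ℂ := fun n =>
    if good n then ((Real.sqrt (b n) : ℝ) : ℂ) • rs (J n) else 0
  have V0_good : ∀ n, good n → V0 n = ((Real.sqrt (b n) : ℝ) : ℂ) • rs (J n) :=
    fun n h => if_pos h
  have V0_bad : ∀ n, ¬ good n → V0 n = 0 := fun n h => if_neg h
  have hV0 : ∀ n, ‖V0 n‖ ≤ 2 := by
    intro n
    by_cases hg : good n
    · have h1 : V0 n * (V0 n).conjTranspose = ((b n : ℝ) ^ 2) • ptr (f n) := by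
        rw [V0_good n hg, Matrix.conjTranspose_smul, Matrix.smul_mul, Matrix.mul_smul, smul_smul,
          rs_mul_star, hJf, Fintype.card_fin, RCLike.star_def, Complex.conj_ofReal,
          ← Complex.ofReal_mul, Real.mul_self_sqrt (by positivity), Complex.coe_smul, smul_smul,
          sq]
      have h2 : ‖V0 n * (V0 n).conjTranspose‖ ≤ 4 := by
        refine norm_le_of_nonneg (by norm_num) (nonneg_mul_star' _) ?_
        rw [h1]; exact hg
      have h3 := Matrix.l2_opNorm_conjTranspose_mul_self (V0 n).conjTranspose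
      rw [Matrix.conjTranspose_conjTranspose, Matrix.l2_opNorm_conjTranspose] at h3
      rw [h3] at h2
      nlinarith [norm_nonneg (V0 n)]
    · rw [V0_bad n hg, norm_zero]; norm_num
  let P := JL (fun n => Fin (l n)) (fun n => Fin (b n) × Fin (r n))
  let Q := JR (fun n => Fin (l n)) (fun n => Fin (b n) × Fin (r n))
  let VB : BSeq (fun n => Fin (l n) ⊕ (Fin (b n) × Fin (r n))) :=
    ⟨fun n => P.J n * V0 n * (Q.J n).conjTranspose, 2, fun n => by
      have h1 := norm_iso_le (P.iso n)
      have h2 := norm_iso_le (Q.iso n)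
      rw [← Matrix.l2_opNorm_conjTranspose] at h2
      calc ‖P.J n * V0 n * (Q.J n).conjTranspose‖ ≤ ‖P.J n * V0 n‖ * ‖(Q.J n).conjTranspose‖ :=
            Matrix.l2_opNorm_mul _ _
        _ ≤ ‖P.J n * V0 n‖ * 1 := by gcongr
        _ ≤ (‖P.J n‖ * ‖V0 n‖) * 1 := by gcongr; exact Matrix.l2_opNorm_mul _ _
        _ ≤ (1 * 2) * 1 := by gcongr; exact hV0 n
        _ = 2 := by norm_num⟩
  have VB_val : ∀ n, VB.1 n = P.J n * V0 n * (Q.J n).conjTranspose := fun _ => rfl
  have hcard : ∀ n, (Fintype.card (Fin (l n) ⊕ (Fin (b n) × Fin (r n))) : ℝ) =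
      l n + b n * r n := fun n => by simp
  refine ⟨r, c, mkM U VB, ?_, hsize'⟩
  refine ⟨?_, ?_, ?_, ?_, ?_, ?_, ?_, ?_⟩
  · -- unit
    intro k
    rw [hc, star_mk, ← map_mul, ← map_one (mkM U), mk_eq_mk]
    refine (hmid (fun n => (π n k).conjTranspose) k (fun n => by
      rw [Matrix.l2_opNorm_conjTranspose]; exact hπ n k)).congr fun n => ?_
    rw [← nn_neg]
    congr 1
    rw [mul_val, star_val, one_val, cB_val]
    have e1 : ((J n).conjTranspose * inr (Fin (b n)) (π n k) * J n).conjTranspose =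
        (J n).conjTranspose * inr (Fin (b n)) (π n k).conjTranspose * J n := by
      rw [Matrix.conjTranspose_mul, Matrix.conjTranspose_mul, Matrix.conjTranspose_conjTranspose,
        inr_star, Matrix.mul_assoc]
    have e2 : (J n).conjTranspose * inr (Fin (b n)) (π n k).conjTranspose * J n *
        ((J n).conjTranspose * inr (Fin (b n)) (π n k) * J n) =
        (J n).conjTranspose * (inr (Fin (b n)) (π n k).conjTranspose * f n *
          inr (Fin (b n)) (π n k)) * J n := by
      rw [← hJf n]; simp only [Matrix.mul_assoc]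
    have e3 : (J n).conjTranspose * (inr (Fin (b n)) (π n k).conjTranspose *
        inr (Fin (b n)) (π n k)) * J n = 1 := by
      rw [← map_mul, hL.unit, map_one, Matrix.mul_one, hJ]
    rw [e1, e2, mul_sub, sub_mul, mul_one, Matrix.mul_sub, Matrix.sub_mul, e3, neg_sub]
  · -- posa
    filter_upwards [hsize, hpos] with n hn hpn
    have hl : (0 : ℝ) < l n := by exact_mod_cast hpn.1
    by_contra h
    have h0 : r n = 0 := by omega
    rw [h0, Nat.cast_zero, mul_zero] at hn
    linarith
  · exact hpos.mono fun n h => h.2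
  · -- cmp
    refine ⟨4, ?_⟩
    filter_upwards [hsize, hsize'] with n h1 h2
    have hl : (0 : ℝ) ≤ l n := by positivity
    exact ⟨by linarith, h2⟩
  · -- V ≠ 0
    intro h0
    have h1 := tendsto_nn (U := U) VB
    rw [h0, nrm_zero] at h1
    have h2 : ∀ᶠ n in (U : Filter ℕ), (3 / 13 : ℝ) ≤ nn (VB.1 n) := by
      filter_upwards [hsize, hpos, hp] with n hn hpn hg
      have hl : (0 : ℝ) < l n := by exact_mod_cast hpn.1
      have h3 : hs (VB.1 n) = b n * r n := by
        rw [VB_val, hs_iso (P.iso n) (Q.iso n), V0_good n hg, hsR_smul, hsR_rs, hsR_eq, hJ,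
          Complex.norm_real, Real.norm_eq_abs, sq_abs, Real.sq_sqrt (by positivity)]
        congr 1
        unfold rt
        rw [Matrix.trace_one, Fintype.card_fin, Complex.natCast_re]
      unfold nn
      rw [h3, hcard, div_le_div_iff₀ (by norm_num) (by positivity)]
      linarith
    have h3 := ge_of_tendsto h1 h2
    norm_num at h3
  · -- corl
    rw [← map_one (mkM U), expd_mk, ← map_mul]
    congr 1
    refine Subtype.ext (funext fun n => ?_)
    rw [mul_val, expB_val, one_val, VB_val]
    refine (iso_l (P.iso n) (Q.J n) 1 (V0 n)).trans ?_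
    rw [Matrix.one_mul]
  · -- corr
    rw [← map_one (mkM U), expd_mk, ← map_mul]
    congr 1
    refine Subtype.ext (funext fun n => ?_)
    rw [mul_val, expB_val, one_val, VB_val]
    refine (iso_r (Q.iso n) (P.J n) 1 (V0 n)).trans ?_
    rw [Matrix.mul_one]
  · -- itw
    intro k
    rw [← hL.cls k, hc, jm_mk, expd_mk, expd_mk, ← map_mul, ← map_mul, mk_eq_mk]
    refine squeeze_zero' (Filter.Eventually.of_forall fun n => nn_nonneg _) ?_ (hall k)
    filter_upwards [hpos] with n hpn
    have hl : (0 : ℝ) < l n := by exact_mod_cast hpn.1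
    have e0 : nn ((expB P (y k) * VB).1 n - (VB * expB Q (jb (fun n => Fin (b n)) (cB k))).1 n) =
        hsR (π n k * V0 n - V0 n * inr (Fin (b n))
          ((J n).conjTranspose * inr (Fin (b n)) (π n k) * J n)) / (l n + b n * r n) := by
      rw [mul_val, mul_val, expB_val, expB_val, VB_val, jb_val, cB_val, hL.val,
        iso_l (P.iso n), iso_r (Q.iso n), ← Matrix.sub_mul, ← Matrix.mul_sub]
      unfold nn
      rw [hs_iso (P.iso n) (Q.iso n), hcard]
    have key : hsR (π n k * V0 n - V0 n * inr (Fin (b n))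
          ((J n).conjTranspose * inr (Fin (b n)) (π n k) * J n)) ≤ b n * cm (f n) (π n k) := by
      by_cases hg : good n
      · rw [V0_good n hg]
        exact def_le (hf n) (hJ n) (hJf n) (π n k) (b n)
      · rw [V0_bad n hg, Matrix.mul_zero, Matrix.zero_mul, sub_zero]
        have : hsR (0 : Matrix (Fin (l n)) (Fin (b n) × Fin (r n)) ℂ) = 0 := by
          unfold hsR; simp
        rw [this]
        exact mul_nonneg (by positivity) (cm_nonneg _ _)
    refine (le_of_eq e0).trans ?_
    have h5 : (0 : ℝ) ≤ b n * r n := by positivity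
    have h6 : (0 : ℝ) ≤ b n * cm (f n) (π n k) := mul_nonneg (by positivity) (cm_nonneg _ _)
    exact (div_le_div_of_nonneg_right key (by positivity)).trans
      (div_le_div_of_nonneg_left h6 hl (by linarith))

end Helper53.NG

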