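import Pool.Agent.Helper53.NG.StB

/-!
# Project NG: module IMM (assembly of IMA, IMB, IMC)
-/

namespace Helper53.NG

open Helper51.MU Helper61.IE Filter Topology
open scoped Matrix.Norms.L2Operator MatrixOrder ComplexOrder

attribute [local irreducible] Helper51.MU.instRingMUlt

theorem pIMM : StIMM := by
  intro hIMA hIMB hIMC hRND hRK hT4 K I _ _ _ p x N l U hU hTD hne u π y hL b ε hε hε' hev
  have hlb : ∀ᶠ n in (U : Filter ℕ), 0 < l n ∧ 0 < b n := by
    filter_upwards [hev] with n hn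
    exact ⟨hn.1, hn.2.1⟩
  obtain ⟨Y, hY1, hY2⟩ := hIMA hT4 K I p x N l U hU hTD hne u π y hL b ε hε hε' hev
  obtain ⟨f, hf, hf1, hf2⟩ := hIMB hRND I l b U (fun n i => π n (x i))
    (fun n i => hL.unit n (x i)) hlb Y hY1 hY2
  exact hIMC hRK K I x l b U hTD.gen u π y hL hlb f hf hf1 hf2

end Helper53.NG
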