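import Pool.Agent.Helper53.NG.StG

/-!
# Project NG, module IND: induced representations
-/

set_option autoImplicit false

namespace Helper53.NG

namespace IND

theorem exists_section {H : Type} [Group H] [Finite H] (C : Subgroup H) :
    ∃ (d : ℕ) (_ : 0 < d) (s : Fin d → H) (t : H → Fin d),
      ∀ i h, (s i)⁻¹ * h ∈ C ↔ i = t h := by
  classical
  refine ⟨Nat.card (H ⧸ C), Nat.card_pos, fun i => ((Finite.equivFin (H ⧸ C)).symm i).out,
    fun h => Finite.equivFin (H ⧸ C) (h : H ⧸ C), fun i h => ?_⟩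
  rw [← QuotientGroup.eq, QuotientGroup.out_eq', Equiv.symm_apply_eq]

end IND

theorem pIND : StInd := by
  intro H _ _ C f hN h0 h1 hm hc
  classical
  obtain ⟨d, hd, s, t, hst⟩ := IND.exists_section C
  have hf1 : f 1 = 1 := by
    have e1 := hm 1 C.one_mem 1
    rw [one_mul] at e1
    have e2 : f 1 ≠ 0 := by
      intro e3
      have := h1 1 C.one_mem
      rw [e3, norm_zero] at this
      exact zero_ne_one this
    exact (mul_eq_left₀ e2).1 e1.symm
  have hfinv : ∀ g, star (f g) = f g⁻¹ := by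
    intro g
    by_cases hg : g ∈ C
    · have e1 : f g * f g⁻¹ = 1 := by rw [← hm g hg, mul_inv_cancel, hf1]
      have e2 : f g * star (f g) = 1 := by
        have e3 := Complex.mul_conj (f g)
        rw [Complex.normSq_eq_norm_sq, h1 g hg] at e3
        simpa using e3
      have e4 : f g ≠ 0 := left_ne_zero_of_mul_eq_one e1
      exact mul_left_cancel₀ e4 (e2.trans e1.symm)
    · have hg' : g⁻¹ ∉ C := fun h => hg (by simpa using C.inv_mem h)
      rw [h0 g hg, h0 _ hg', star_zero]
  let M : H → Matrix (Fin d) (Fin d) ℂ := fun g i j => f ((s i)⁻¹ * g * s j)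
  have hMone : M 1 = 1 := by
    ext i j
    show f ((s i)⁻¹ * 1 * s j) = _
    rw [mul_one, Matrix.one_apply]
    have htj : t (s j) = j := by
      have := (hst j (s j)).1 (by rw [inv_mul_cancel]; exact C.one_mem)
      exact this.symm
    split_ifs with hij
    · subst hij
      rw [inv_mul_cancel, hf1]
    · apply h0
      rw [hst, htj]
      exact hij
  have hMmul : ∀ g h, M (g * h) = M g * M h := by
    intro g h
    ext i k
    rw [Matrix.mul_apply, Finset.sum_eq_single (t (g⁻¹ * s i))]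
    · show f ((s i)⁻¹ * (g * h) * s k) = f ((s i)⁻¹ * g * s (t (g⁻¹ * s i))) *
        f ((s (t (g⁻¹ * s i)))⁻¹ * h * s k)
      have e1 : (s (t (g⁻¹ * s i)))⁻¹ * (g⁻¹ * s i) ∈ C := (hst _ _).2 rfl
      have e2 : (s i)⁻¹ * g * s (t (g⁻¹ * s i)) ∈ C := by
        have := C.inv_mem e1
        have e3 : ((s (t (g⁻¹ * s i)))⁻¹ * (g⁻¹ * s i))⁻¹ =
          (s i)⁻¹ * g * s (t (g⁻¹ * s i)) := by group
        rwa [e3] at this
      rw [← hm _ e2]
      congr 1
      group
    · intro j _ hj
      show f ((s i)⁻¹ * g * s j) * _ = 0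
      rw [h0, zero_mul]
      intro e1
      apply hj
      rw [← hst]
      have := C.inv_mem e1
      have e3 : ((s i)⁻¹ * g * s j)⁻¹ = (s j)⁻¹ * (g⁻¹ * s i) := by group
      rwa [e3] at this
    · intro h
      exact absurd (Finset.mem_univ _) h
  have hMstar : ∀ g, star (M g) = M g⁻¹ := by
    intro g
    ext i j
    show star (f ((s j)⁻¹ * g * s i)) = f ((s i)⁻¹ * g⁻¹ * s j)
    rw [hfinv]
    congr 1
    group
  have hMU : ∀ g, M g ∈ Matrix.unitaryGroup (Fin d) ℂ := by
    intro g
    rw [Matrix.mem_unitaryGroup_iff, hMstar, ← hMmul, mul_inv_cancel, hMone]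
  refine ⟨d, hd, ⟨⟨fun g => ⟨M g, hMU g⟩, Subtype.ext hMone⟩,
    fun g h => Subtype.ext (hMmul g h)⟩, fun g => ?_⟩
  show Matrix.trace (M g) = d * f g
  rw [Matrix.trace]
  have e1 : ∀ i, Matrix.diag (M g) i = f g := by
    intro i
    show f ((s i)⁻¹ * g * s i) = f g
    have := hc (s i)⁻¹ g
    rwa [inv_inv] at this
  rw [Finset.sum_congr rfl fun i _ => e1 i]
  simp

end Helper53.NG
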