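import Pool.Agent.Helper53.NG.StB

/-!
# Project NG, module JON: finite joins of central projections
-/

set_option autoImplicit false

namespace Helper53.NG

open Helper51.MU Helper61.IE Filter Topology
open scoped Matrix.Norms.L2Operator MatrixOrder ComplexOrder

attribute [local irreducible] Helper51.MU.instRingMUlt

private lemma JON.pj_mul {ι : ℕ → Type} [∀ n, Fintype (ι n)] [∀ n, DecidableEq (ι n)]
    {U : Ultrafilter ℕ} {a b : MUlt ι U} (ha : Pj a) (hb : Pj b) (h : a * b = b * a) :
    Pj (a * b) := by
  refine ⟨by rw [star_mul, ha.1, hb.1, h], ?_⟩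
  calc a * b * (a * b) = a * (b * a) * b := by noncomm_ring
    _ = a * (a * b) * b := by rw [h]
    _ = (a * a) * (b * b) := by noncomm_ring
    _ = a * b := by rw [ha.2, hb.2]

theorem pJON : StJON := by
  intro ι _ _ U D hD A F e he
  classical
  induction F using Finset.induction_on with
  | empty =>
    refine ⟨0, (isVN_zc hD).zero, ⟨star_zero _, mul_zero 0⟩, ?_, ?_, ?_⟩
    · intro a ha
      exact absurd ha (Finset.notMem_empty a)
    · intro Q _ _ _
      rw [mul_zero]
    · rw [tr_zero, Finset.sum_empty, Complex.zero_re]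
  | insert a F haF ih =>
    obtain ⟨J, hJZ, hJP, hJe, hJmin, hJtr⟩ := ih (fun b hb => he b (Finset.mem_insert_of_mem hb))
    obtain ⟨heP, heZ⟩ := he a (Finset.mem_insert_self a F)
    have hc : J * e a = e a * J := hJZ.2 (e a) heZ.1
    have hx : 1 - (1 - J) * (1 - e a) = J + e a - J * e a := by noncomm_ring
    have hc' : (1 - J) * (1 - e a) = (1 - e a) * (1 - J) := by
      have h1 : (1 - J) * (1 - e a) = 1 - J - e a + J * e a := by noncomm_ring
      have h2 : (1 - e a) * (1 - J) = 1 - J - e a + e a * J := by noncomm_ring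
      rw [h1, h2, hc]
    have hP : Pj (J + e a - J * e a) := by
      rw [← hx]
      exact (JON.pj_mul hJP.one_sub heP.one_sub hc').one_sub
    have hZ := isVN_zc hD
    refine ⟨J + e a - J * e a, hZ.sub (hZ.add _ hJZ _ heZ) (hZ.mul _ hJZ _ heZ), hP, ?_, ?_, ?_⟩
    · intro b hb
      rcases Finset.mem_insert.1 hb with rfl | hb
      · have h1 : (J + e b - J * e b) * e b = J * e b + e b * e b - J * (e b * e b) := by
          noncomm_ring
        rw [h1, heP.2]
        abel
      · have h1 : (J + e a - J * e a) * e b = J * e b + e a * e b - (J * e a) * e b := by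
          noncomm_ring
        rw [h1, hc, mul_assoc (e a), hJe b hb]
        abel
    · intro Q hQZ hQP hQ
      have h1 : Q * J = J := hJmin Q hQZ hQP (fun b hb => hQ b (Finset.mem_insert_of_mem hb))
      have h2 : Q * e a = e a := hQ a (Finset.mem_insert_self a F)
      have h3 : Q * (J + e a - J * e a) = Q * J + Q * e a - (Q * J) * e a := by noncomm_ring
      rw [h3, h1, h2]
    · have h1 : 0 ≤ (tr (J * e a)).re := (JON.pj_mul hJP heP hc).tr_nonneg
      rw [tr_sub, tr_add, Complex.sub_re, Complex.add_re, Finset.sum_insert haF]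
      linarith

end Helper53.NG
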