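import Pool.Agent.Helper53.NG.StA
import Pool.Agent.Helper61.IE.Rnd0

/-!
# Project NG, module LP: projections lift to projections
-/

namespace Helper53.NG

open Helper51.MU Helper61.IE Filter Topology
open scoped Matrix.Norms.L2Operator MatrixOrder ComplexOrder

attribute [local irreducible] Helper51.MU.instRingMUlt

namespace LP

open Helper61.IE.Rnd0

variable {n : Type} [Fintype n] [DecidableEq n]

lemma hs_MM {V : Matrix n n ℂ} (hV : V.conjTranspose * V = 1) (f : n → ℝ) :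
    hs (MM V f) = ∑ i, f i ^ 2 := by
  rw [hs_eq_rt, MM_herm, MM_mul hV, rt_MM hV]
  exact Finset.sum_congr rfl fun i _ => (sq _).symm

/-- the rounding of a number -/
noncomputable def rnd (x : ℝ) : ℝ := if 1 / 2 < x then 1 else 0

lemma rnd_or (x : ℝ) : rnd x = 0 ∨ rnd x = 1 := by
  unfold rnd
  split
  · exact Or.inr rfl
  · exact Or.inl rfl

lemma rnd_sq (x : ℝ) : (rnd x - x) ^ 2 ≤ 4 * (x * x - x) ^ 2 := by
  unfold rnd
  split
  · rename_i h
    have e : 4 * (x * x - x) ^ 2 = (4 * x ^ 2) * (1 - x) ^ 2 := by ring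
    rw [e]
    have h1 : 1 ≤ 4 * x ^ 2 := by nlinarith
    exact le_mul_of_one_le_left (sq_nonneg _) h1
  · rename_i h
    rw [not_lt] at h
    have e : 4 * (x * x - x) ^ 2 = (4 * (1 - x) ^ 2) * x ^ 2 := by ring
    rw [e]
    have h1 : 1 ≤ 4 * (1 - x) ^ 2 := by nlinarith
    have h2 := le_mul_of_one_le_left (sq_nonneg x) h1
    calc (0 - x) ^ 2 = x ^ 2 := by ring
      _ ≤ _ := h2

/-- a hermitian matrix is close to a projection -/
lemma exists_pr {a : Matrix n n ℂ} (ha : a.conjTranspose = a) :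
    ∃ p : Matrix n n ℂ, Pr p ∧ nn (p - a) ≤ 4 * nn (a * a - a) := by
  obtain ⟨V, g, hV, rfl⟩ := exists_spec ha
  refine ⟨MM V fun i => rnd (g i), MM_pr hV fun i => rnd_or _, ?_⟩
  unfold nn
  rw [MM_mul hV, MM_sub, MM_sub, hs_MM hV, hs_MM hV, ← mul_div_assoc]
  refine div_le_div_of_nonneg_right ?_ (Nat.cast_nonneg _)
  rw [Finset.mul_sum]
  exact Finset.sum_le_sum fun i _ => rnd_sq (g i)

end LP

theorem pLP : StLP := by
  intro ι _ _ U e he
  obtain ⟨x, rfl⟩ := mkM_surjective e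
  set a : BSeq ι := (1 / 2 : ℂ) • (x + star x) with ha
  have hmk : mkM U a = mkM U x := by
    rw [ha, mkM_smul, map_add, ← star_mk, he.1, ← two_smul ℂ (mkM U x), smul_smul]
    norm_num
  have hherm : ∀ n, (a.1 n).conjTranspose = a.1 n := by
    intro n
    have e1 : a.1 n = (1 / 2 : ℂ) • (x.1 n + (x.1 n).conjTranspose) := rfl
    rw [e1, Matrix.conjTranspose_smul, Matrix.conjTranspose_add, Matrix.conjTranspose_conjTranspose,
      add_comm (x.1 n).conjTranspose]
    congr 1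
    norm_num
  choose p hp hpn using fun n => LP.exists_pr (hherm n)
  refine ⟨⟨p, 1, fun n => (hp n).norm_le⟩, ?_, hp⟩
  rw [← hmk, mk_eq_mk]
  have h1 : Tendsto (fun n => nn ((a * a).1 n - a.1 n)) U (𝓝 0) := by
    rw [← mk_eq_mk, map_mul, hmk]
    exact he.2
  have h2 : Tendsto (fun n => 4 * nn (a.1 n * a.1 n - a.1 n)) U (𝓝 0) := by
    have h3 := h1.const_mul 4
    rw [mul_zero] at h3
    exact h3
  exact squeeze_zero (fun n => nn_nonneg _) hpn h2

end Helper53.NG
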