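import Pool.Agent.Helper53.NG.StA
import Pool.Agent.Helper61.IE.Rnd0

/-!
# Project NG, module NB1: partial isometries have contractive lifts
-/

namespace Helper53.NG

open Helper51.MU Helper61.IE Filter Topology
open scoped Matrix.Norms.L2Operator MatrixOrder ComplexOrder

attribute [local irreducible] Helper51.MU.instRingMUlt

namespace NB1

open Helper61.IE.Rnd0

variable {n : Type} [Fintype n] [DecidableEq n]

/-- the cut-off -/
noncomputable def ph (t : ℝ) : ℝ := (Real.sqrt (max t 1))⁻¹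

lemma ph_sq (t : ℝ) : ph t ^ 2 = (max t 1)⁻¹ := by
  unfold ph
  rw [inv_pow, Real.sq_sqrt (zero_le_one.trans (le_max_right _ _))]

lemma ph_le (t : ℝ) (ht : 0 ≤ t) : ph t * (t * ph t) ≤ 1 := by
  have e : ph t * (t * ph t) = t * ph t ^ 2 := by ring
  rw [e, ph_sq, ← div_eq_mul_inv, div_le_one (lt_max_of_lt_right one_pos)]
  exact le_max_left _ _

lemma ph_nonneg (t : ℝ) (ht : 0 ≤ t) : 0 ≤ ph t * (t * ph t) := by
  have e : ph t * (t * ph t) = t * ph t ^ 2 := by ring
  rw [e]
  positivity

lemma ph_err (t : ℝ) (ht : 0 ≤ t) : (1 - ph t) * (t * (1 - ph t)) ≤ (t * t - t) * (t * t - t) := by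
  rcases le_total t 1 with h | h
  · have : ph t = 1 := by
      unfold ph
      rw [max_eq_right h, Real.sqrt_one, inv_one]
    rw [this, sub_self, zero_mul]
    exact mul_self_nonneg _
  · have hs : ph t * Real.sqrt t = 1 := by
      unfold ph
      rw [max_eq_left h]
      have : Real.sqrt t ≠ 0 := (Real.sqrt_pos.2 (by linarith)).ne'
      exact inv_mul_cancel₀ this
    have h1 : Real.sqrt t * Real.sqrt t = t := Real.mul_self_sqrt ht
    have h2 : 1 ≤ Real.sqrt t := Real.one_le_sqrt.2 h
    set r := Real.sqrt t with hr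
    have e1 : (1 - ph t) * (t * (1 - ph t)) = (r - 1) ^ 2 := by
      linear_combination (-(1 - ph t) ^ 2) * h1 - (2 * r - 1 - r * ph t) * hs
    rw [e1]
    have e2 : (t * t - t) * (t * t - t) = ((r - 1) * ((r + 1) * t)) ^ 2 := by
      rw [← h1]; ring
    rw [e2]
    have h3 : 1 ≤ (r + 1) * t := by nlinarith
    refine pow_le_pow_left₀ (by linarith) ?_ 2
    nlinarith

/-- truncation of a matrix -/
lemma exists_trunc (a : Matrix n n ℂ) : ∃ b : Matrix n n ℂ, ‖b‖ ≤ 1 ∧
    nn (a - b) ≤ nn ((a.conjTranspose * a) * (a.conjTranspose * a) - a.conjTranspose * a) := by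
  have hX : (a.conjTranspose * a).conjTranspose = a.conjTranspose * a := by
    rw [Matrix.conjTranspose_mul, Matrix.conjTranspose_conjTranspose]
  obtain ⟨V, g, hV, hg⟩ := exists_spec hX
  have hg0 : ∀ i, 0 ≤ g i := by
    intro i
    rw [← dg_MM hV g i, ← hg]
    refine dg_nonneg ?_ i
    exact star_mul_self_nonneg a
  have key : ∀ h : n → ℝ, (a * MM V h).conjTranspose * (a * MM V h) =
      MM V (fun i => h i * (g i * h i)) := by
    intro h
    rw [Matrix.conjTranspose_mul, MM_herm]
    calc MM V h * a.conjTranspose * (a * MM V h) = MM V h * ((a.conjTranspose * a) * MM V h) := by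
          simp only [mul_assoc]
      _ = _ := by rw [hg, MM_mul hV, MM_mul hV]
  refine ⟨a * MM V fun i => ph (g i), ?_, ?_⟩
  · have h1 : ‖(a * MM V fun i => ph (g i)).conjTranspose * (a * MM V fun i => ph (g i))‖ ≤ 1 := by
      rw [key]
      refine norm_le_one_of_nonneg (MM_nonneg fun i => ph_nonneg _ (hg0 i)) ?_
      rw [← MM_one hV]
      exact MM_mono fun i => ph_le _ (hg0 i)
    have h2 : ‖(a * MM V fun i => ph (g i)).conjTranspose * (a * MM V fun i => ph (g i))‖ =
        ‖a * MM V fun i => ph (g i)‖ * ‖a * MM V fun i => ph (g i)‖ :=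
      CStarRing.norm_star_mul_self
    rw [h2] at h1
    nlinarith [norm_nonneg (a * MM V fun i => ph (g i))]
  · unfold nn
    refine div_le_div_of_nonneg_right ?_ (Nat.cast_nonneg _)
    have e1 : a - a * MM V (fun i => ph (g i)) = a * MM V (fun i => 1 - ph (g i)) := by
      rw [← MM_sub, MM_one hV, mul_sub, mul_one]
    rw [e1, hs_eq_rt, key, rt_MM hV, hg, MM_mul hV, MM_sub, hs_eq_rt, MM_herm, MM_mul hV, rt_MM hV]
    exact Finset.sum_le_sum fun i _ => ph_err _ (hg0 i)

end NB1

theorem pNB1 : StNB1 := by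
  intro ι _ _ U x hx
  obtain ⟨a, rfl⟩ := mkM_surjective x
  choose b hb1 hb2 using fun n => NB1.exists_trunc (a.1 n)
  refine ⟨⟨b, 1, hb1⟩, ?_, hb1⟩
  rw [eq_comm, mk_eq_mk]
  have h1 : mkM U ((star a * a) * (star a * a)) = mkM U (star a * a) := by
    rw [map_mul, map_mul, ← star_mk]
    exact hx.2
  rw [mk_eq_mk] at h1
  exact squeeze_zero (fun n => nn_nonneg _) (fun n => hb2 n) h1

end Helper53.NG
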