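import Pool.Agent.Helper53.NG.StG

/-!
# Project NG: module ORB
-/

namespace Helper53.NG

namespace ORB

open Polynomial

section General

variable {A : Type} [CommRing A]

/-- The unit `1 + r E` for `E ^ 2 = 0`. -/
def ke (E : Matrix Ix Ix A) (hE : E * E = 0) (r : A) : (Matrix Ix Ix A)ˣ where
  val := 1 + r • E
  inv := 1 - r • E
  val_inv := by
    have h : (r • E) * (r • E) = 0 := by
      rw [Matrix.smul_mul, Matrix.mul_smul, hE, smul_zero, smul_zero]
    rw [add_mul, one_mul, mul_sub, mul_one, h]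
    abel
  inv_val := by
    have h : (r • E) * (r • E) = 0 := by
      rw [Matrix.smul_mul, Matrix.mul_smul, hE, smul_zero, smul_zero]
    rw [sub_mul, one_mul, mul_add, mul_one, h]
    abel

lemma ke_val (E : Matrix Ix Ix A) (hE : E * E = 0) (r : A) :
    (ke E hE r : Matrix Ix Ix A) = 1 + r • E := rfl

lemma ke_inv (E : Matrix Ix Ix A) (hE : E * E = 0) (r : A) :
    ((ke E hE r)⁻¹ : (Matrix Ix Ix A)ˣ) = ke E hE (-r) := by
  ext1
  show 1 - r • E = 1 + (-r) • E
  rw [neg_smul, sub_eq_add_neg]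

/-- `E` commutes with `M` up to the corner entry. -/
def Cen (E M : Matrix Ix Ix A) : Prop :=
  ∀ x y : Ix, ¬ (x = .o ∧ y = .w 3) → (E * M) x y = (M * E) x y

lemma single_mul' (a b : Ix) (M : Matrix Ix Ix A) (x y : Ix) :
    (Matrix.single a b (1 : A) * M) x y = if x = a then M b y else 0 := by
  rw [Matrix.mul_apply]
  by_cases h : x = a
  · subst h
    rw [if_pos rfl, Finset.sum_eq_single b]
    · simp
    · intro c _ hc
      rw [Matrix.single_apply_of_ne _ _ _ _ _ (by tauto), zero_mul]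
    · simp
  · rw [if_neg h]
    refine Finset.sum_eq_zero fun c _ => ?_
    rw [Matrix.single_apply_of_ne _ _ _ _ _ (by tauto), zero_mul]

lemma mul_single' (a b : Ix) (M : Matrix Ix Ix A) (x y : Ix) :
    (M * Matrix.single a b (1 : A)) x y = if y = b then M x a else 0 := by
  rw [Matrix.mul_apply]
  by_cases h : y = b
  · subst h
    rw [if_pos rfl, Finset.sum_eq_single a]
    · simp
    · intro c _ hc
      rw [Matrix.single_apply_of_ne _ _ _ _ _ (by tauto), mul_zero]
    · simp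
  · rw [if_neg h]
    refine Finset.sum_eq_zero fun c _ => ?_
    rw [Matrix.single_apply_of_ne _ _ _ _ _ (by tauto), mul_zero]

lemma single_sq {a b : Ix} (h : a ≠ b) :
    Matrix.single a b (1 : A) * Matrix.single a b (1 : A) = 0 := by
  ext x y
  rw [single_mul']
  split_ifs with hx
  · rw [Matrix.single_apply_of_ne _ _ _ _ _ (by tauto)]; rfl
  · rfl

/-- The matrix of `dgU`-type. -/
def dE (i j : Fin 4) : Matrix Ix Ix A :=
  Matrix.single (.v i) (.v j) 1 + Matrix.single (.w i) (.w j) 1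

lemma dE_sq {i j : Fin 4} (h : i ≠ j) : dE i j * dE i j = (0 : Matrix Ix Ix A) := by
  ext x y
  rw [dE, add_mul, Matrix.add_apply, single_mul', single_mul']
  cases x <;> cases y <;> simp [h]

lemma one_add_dE {i j : Fin 4} (r : A) :
    (1 : Matrix Ix Ix A) + r • dE i j = dg (Matrix.transvection i j r) := by
  ext x y
  cases x <;> cases y <;>
    simp [dE, dg, Matrix.transvection, Matrix.single_apply, Matrix.one_apply]

/-- The unipotent root matrices are in `K'`. -/
lemma ke_mem_single {S : Subgroup (Matrix (Fin 4) (Fin 4) A)ˣ} (hS : S ≤ S3 A) {a b : Ix}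
    (hab : a ≠ b) (hl : lvl a < lvl b) (h1 : ¬ (a = .q ∧ b = .w 3)) (h2 : ¬ (a = .o ∧ b = .v 3))
    (h3 : ¬ (a = .v 3 ∧ b = .q)) (h4 : ¬ (a = .v 3 ∧ b = .w 3)) (r : A) :
    ke (Matrix.single a b 1) (single_sq hab) r ∈ KG S hS := by
  have key : ∀ r : A, BF S (ke (Matrix.single a b 1) (single_sq hab) r : Matrix Ix Ix A) := by
    intro r
    refine ⟨1, S.one_mem, fun i j hij => ?_⟩
    rw [Units.val_one, dg_one, ke_val, Matrix.add_apply, Matrix.smul_apply,
      Matrix.single_apply_of_ne _ _ _ _ _ ?_, smul_zero, add_zero]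
    rintro ⟨rfl, rfl⟩
    omega
  refine ⟨⟨key r, ?_⟩, ?_, ?_, ?_, ?_⟩
  · rw [ke_inv]; exact key (-r)
  · rw [t1, ke_val, Matrix.add_apply, Matrix.smul_apply,
      Matrix.single_apply_of_ne _ _ _ _ _ h1, smul_zero, add_zero]
    simp
  · rw [t2, ke_val, Matrix.add_apply, Matrix.smul_apply,
      Matrix.single_apply_of_ne _ _ _ _ _ h2, smul_zero, add_zero]
    simp
  · rw [t3, ke_val, Matrix.add_apply, Matrix.smul_apply,
      Matrix.single_apply_of_ne _ _ _ _ _ h3, smul_zero, add_zero]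
    simp
  · rw [t4, ke_val, Matrix.add_apply, Matrix.smul_apply,
      Matrix.single_apply_of_ne _ _ _ _ _ h4, smul_zero, add_zero]
    simp

/-- The diagonal elements are in `K'`. -/
lemma ke_mem_dE {S : Subgroup (Matrix (Fin 4) (Fin 4) A)ˣ} (hS : S ≤ S3 A) {i j : Fin 4}
    (hij : i ≠ j) (r : A) (h : el i j hij r ∈ S) :
    ke (dE i j) (dE_sq hij) r ∈ KG S hS := by
  have e1 : (ke (dE i j) (dE_sq hij) r : Matrix Ix Ix A) =
      dg ((el i j hij r : (Matrix (Fin 4) (Fin 4) A)ˣ) : Matrix (Fin 4) (Fin 4) A) := by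
    rw [ke_val, one_add_dE]; rfl
  have e2 : (((ke (dE i j) (dE_sq hij) r)⁻¹ : (Matrix Ix Ix A)ˣ) : Matrix Ix Ix A) =
      dg (((el i j hij r)⁻¹ : (Matrix (Fin 4) (Fin 4) A)ˣ) : Matrix (Fin 4) (Fin 4) A) := by
    rw [ke_inv, ke_val, one_add_dE]; rfl
  refine ⟨⟨⟨_, h, fun x y _ => by rw [e1]⟩, ⟨_, S.inv_mem h, fun x y _ => by rw [e2]⟩⟩, ?_, ?_,
    ?_, ?_⟩
  · rw [t1, e1]; rfl
  · rw [t2, e1]; rfl
  · rw [t3, e1]; rfl
  · rw [t4, e1]; rfl

/-- Multiplication by `z(r) τ₄(0)` on the left. -/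
lemma zt_mul {S : Subgroup (Matrix (Fin 4) (Fin 4) A)ˣ} (hS : S ≤ S3 A)
    {g : (Matrix Ix Ix A)ˣ} (hg : g ∈ PG S) (a : A) :
    zt a 0 * (g : Matrix Ix Ix A) = g + a • Matrix.single Ix.o (Ix.w 3) (1 : A) := by
  have h := (t_mul_aux hS hg).2.1
  have e : zt a 0 = 1 + a • Matrix.single Ix.o (.w 3) (1 : A) := by
    rw [zt, Matrix.single_zero, add_zero, Matrix.smul_single, smul_eq_mul, mul_one]
  rw [e, add_mul, one_mul, Matrix.smul_mul]
  have e2 : Matrix.single Ix.o (.w 3) (1 : A) * (g : Matrix Ix Ix A) =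
      Matrix.single Ix.o (.w 3) (1 : A) := by
    ext x y
    rw [single_mul', Matrix.single_apply, h y]
    by_cases hx : x = .o <;> by_cases hy : y = .w 3 <;> simp [hx, hy, eq_comm]
  rw [e2]

/-- The main computation. -/
lemma key {S : Subgroup (Matrix (Fin 4) (Fin 4) A)ˣ} (hS : S ≤ S3 A)
    {g : (Matrix Ix Ix A)ˣ} (hg : g ∈ PG S) (E : Matrix Ix Ix A) (hE : E * E = 0) (r s a : A)
    (hr : ke E hE r ∈ PG S) (hs : ke E hE s ∈ PG S)
    (h : (ke E hE r : Matrix Ix Ix A) * g * ((ke E hE r)⁻¹ : (Matrix Ix Ix A)ˣ) =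
      zt a 0 * ((ke E hE s : Matrix Ix Ix A) * g * ((ke E hE s)⁻¹ : (Matrix Ix Ix A)ˣ))) (x y : Ix)
    (hxy : ¬ (x = .o ∧ y = .w 3)) :
    (r - s) * ((E * g) x y - ((g : Matrix Ix Ix A) * E) x y) = 0 := by
  have hm : ke E hE s * g * (ke E hE s)⁻¹ ∈ PG S :=
    (PG S).mul_mem ((PG S).mul_mem hs hg) ((PG S).inv_mem hs)
  have h1 := zt_mul hS hm a
  rw [Units.val_mul, Units.val_mul] at h1
  rw [h1] at h
  -- multiply by `(k s)⁻¹` on the left and by `k r` on the right
  have h2 := congrArg (fun M => (((ke E hE s)⁻¹ : (Matrix Ix Ix A)ˣ) : Matrix Ix Ix A) * M *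
    (ke E hE r : Matrix Ix Ix A)) h
  beta_reduce at h2
  have i1 : (((ke E hE r)⁻¹ : (Matrix Ix Ix A)ˣ) : Matrix Ix Ix A) * (ke E hE r : Matrix Ix Ix A)
    = 1 := by rw [← Units.val_mul, inv_mul_cancel, Units.val_one]
  have i2 : (((ke E hE s)⁻¹ : (Matrix Ix Ix A)ˣ) : Matrix Ix Ix A) * (ke E hE s : Matrix Ix Ix A)
    = 1 := by rw [← Units.val_mul, inv_mul_cancel, Units.val_one]
  have i3 : (((ke E hE s)⁻¹ : (Matrix Ix Ix A)ˣ) : Matrix Ix Ix A) * (ke E hE r : Matrix Ix Ix A)
    = 1 + (r - s) • E := by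
    rw [ke_inv, ke_val, ke_val, add_mul, mul_add, mul_add, one_mul, one_mul, mul_one,
      Matrix.smul_mul, Matrix.mul_smul, hE, smul_zero, smul_zero, add_zero, sub_smul, neg_smul]
    abel
  have j1 : (((ke E hE s)⁻¹ : (Matrix Ix Ix A)ˣ) : Matrix Ix Ix A) *
      ((ke E hE r : Matrix Ix Ix A) * g * ((ke E hE r)⁻¹ : (Matrix Ix Ix A)ˣ)) *
      (ke E hE r : Matrix Ix Ix A) = (1 + (r - s) • E) * g := by
    rw [← i3]
    simp only [mul_assoc]
    rw [i1, mul_one]
  have j2 : (((ke E hE s)⁻¹ : (Matrix Ix Ix A)ˣ) : Matrix Ix Ix A) *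
      ((ke E hE s : Matrix Ix Ix A) * g * ((ke E hE s)⁻¹ : (Matrix Ix Ix A)ˣ)) *
      (ke E hE r : Matrix Ix Ix A) = g * (1 + (r - s) • E) := by
    rw [← i3]
    simp only [← mul_assoc]
    rw [i2, one_mul]
  have c1 := (t_mul_aux hS ((PG S).inv_mem hs)).1
  have c2 := (t_mul_aux hS hr).2.1
  have j3 : (((ke E hE s)⁻¹ : (Matrix Ix Ix A)ˣ) : Matrix Ix Ix A) *
      (a • Matrix.single Ix.o (.w 3) (1 : A)) * (ke E hE r : Matrix Ix Ix A) =
      a • Matrix.single Ix.o (.w 3) (1 : A) := by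
    rw [Matrix.mul_smul, Matrix.smul_mul, mul_assoc]
    congr 1
    have : Matrix.single Ix.o (.w 3) (1 : A) * (ke E hE r : Matrix Ix Ix A) =
        Matrix.single Ix.o (.w 3) (1 : A) := by
      ext x y
      rw [single_mul', Matrix.single_apply, c2 y]
      by_cases hx : x = .o <;> by_cases hy : y = .w 3 <;> simp [hx, hy, eq_comm]
    rw [this]
    ext x y
    rw [mul_single', Matrix.single_apply, c1 x]
    by_cases hx : x = .o <;> by_cases hy : y = .w 3 <;> simp [hx, hy, eq_comm]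
  rw [mul_add, add_mul, j1, j2, j3, add_mul, mul_add, one_mul, mul_one, Matrix.smul_mul,
    Matrix.mul_smul] at h2
  have h3 := congrFun (congrFun h2 x) y
  simp only [Matrix.add_apply, Matrix.smul_apply, smul_eq_mul] at h3
  rw [Matrix.single_apply_of_ne _ _ _ _ _ (by tauto)] at h3
  linear_combination h3

/-- The algebra: the elements commuting with all root elements up to the corner entry. -/
lemma alg {S : Subgroup (Matrix (Fin 4) (Fin 4) A)ˣ} (hS : S ≤ S3 A)
    {g : (Matrix Ix Ix A)ˣ} (hg : g ∈ PG S)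
    (h1 : ∀ j : Fin 4, j ≠ 3 → Cen (Matrix.single .q (.w j) 1) (g : Matrix Ix Ix A))
    (h2 : ∀ j : Fin 4, j ≠ 3 → Cen (Matrix.single (.v 3) (.w j) 1) (g : Matrix Ix Ix A))
    (h3 : ∀ j : Fin 4, j ≠ 3 → Cen (Matrix.single (.v j) .q 1) (g : Matrix Ix Ix A))
    (h4 : ∀ j : Fin 4, j ≠ 3 → Cen (Matrix.single .o (.v j) 1) (g : Matrix Ix Ix A))
    (h5 : ∀ i j : Fin 4, i ≠ 3 → j ≠ 3 → i ≠ j → Cen (dE i j) (g : Matrix Ix Ix A)) :
    (g : Matrix Ix Ix A) = zt ((g : Matrix Ix Ix A) .o (.w 3)) (t4 g) := by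
  obtain ⟨a1, a2, a3, a4, a5, a6, a7, a8, a9⟩ := t_mul_aux hS hg
  set M : Matrix Ix Ix A := (g : Matrix Ix Ix A) with hM
  -- rows `w j`
  have b1 : ∀ j : Fin 4, j ≠ 3 → ∀ y, y ≠ .w j → M (.w j) y = 0 := by
    intro j hj y hy
    have := h1 j hj .q y (by simp)
    rw [single_mul', mul_single', if_pos rfl, if_neg hy] at this
    exact this
  have b2 : ∀ j : Fin 4, j ≠ 3 → M (.w j) (.w j) = 1 := by
    intro j hj
    have := h1 j hj .q (.w j) (by simp)
    rw [single_mul', mul_single', if_pos rfl, if_pos rfl, a6] at this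
    exact this
  -- column `q`
  have b3 : ∀ x, x ≠ .q → M x .q = 0 := by
    intro x hx
    have := h1 0 (by decide) x (.w 0) (by simp)
    rw [single_mul', mul_single', if_neg hx, if_pos rfl] at this
    exact this.symm
  -- column `v 3`
  have b4 : ∀ x, x ≠ .v 3 → M x (.v 3) = 0 := by
    intro x hx
    have := h2 0 (by decide) x (.w 0) (by simp)
    rw [single_mul', mul_single', if_neg hx, if_pos rfl] at this
    exact this.symm
  -- row `q`
  have b5 : ∀ y, y ≠ .q → M .q y = 0 := by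
    intro y hy
    have := h3 0 (by decide) (.v 0) y (by simp)
    rw [single_mul', mul_single', if_pos rfl, if_neg hy] at this
    exact this
  -- columns `v j`
  have b6 : ∀ j : Fin 4, j ≠ 3 → ∀ x, x ≠ .v j → M x (.v j) = 0 := by
    intro j hj x hx
    have := h3 j hj x .q (by simp)
    rw [single_mul', mul_single', if_neg hx, if_pos rfl] at this
    exact this.symm
  have b7 : ∀ j : Fin 4, j ≠ 3 → M (.v j) (.v j) = 1 := by
    intro j hj
    have := h3 j hj (.v j) .q (by simp)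
    rw [single_mul', mul_single', if_pos rfl, if_pos rfl, a6] at this
    exact this.symm
  -- rows `v j`
  have b8 : ∀ j : Fin 4, j ≠ 3 → ∀ y, y ≠ .v j → y ≠ .w 3 → M (.v j) y = 0 := by
    intro j hj y hy hy2
    have := h4 j hj .o y (by simp [hy2])
    rw [single_mul', mul_single', if_pos rfl, if_neg hy] at this
    exact this
  -- a second index
  have hex : ∀ j : Fin 4, j ≠ 3 → ∃ i : Fin 4, i ≠ 3 ∧ i ≠ j := by decide
  have b9 : ∀ j : Fin 4, j ≠ 3 → M (.v j) (.w 3) = 0 := by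
    intro j hj
    obtain ⟨i, hi, hij⟩ := hex j hj
    have := h5 i j hi hj hij (.v i) (.w 3) (by simp)
    rw [dE, add_mul, mul_add, Matrix.add_apply, Matrix.add_apply, single_mul', single_mul',
      mul_single', mul_single', if_pos rfl, if_neg (by simp), if_neg (by simp),
      if_neg (by simpa using fun h => hj h.symm)] at this
    simpa using this
  have b10 : ∀ i : Fin 4, i ≠ 3 → M .o (.w i) = 0 := by
    intro i hi
    obtain ⟨j, hj, hij⟩ := hex i hi
    have := h5 i j hi hj hij.symm .o (.w j) (by simp [hj])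
    rw [dE, add_mul, mul_add, Matrix.add_apply, Matrix.add_apply, single_mul', single_mul',
      mul_single', mul_single', if_neg (by simp), if_neg (by simp), if_neg (by simp),
      if_pos rfl] at this
    simpa using this.symm
  have b11 : ∀ i : Fin 4, i ≠ 3 → M (.v 3) (.w i) = 0 := by
    intro i hi
    obtain ⟨j, hj, hij⟩ := hex i hi
    have := h5 i j hi hj hij.symm (.v 3) (.w j) (by simp)
    rw [dE, add_mul, mul_add, Matrix.add_apply, Matrix.add_apply, single_mul', single_mul',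
      mul_single', mul_single', if_neg (by simpa using fun h => hi h.symm), if_neg (by simp),
      if_neg (by simp), if_pos rfl] at this
    simpa using this.symm
  have c1 : ∀ i j : Fin 4, M (.w i) (.w j) = if i = j then 1 else 0 := by
    intro i j
    by_cases hi : i = 3
    · subst hi
      rw [a2]
      by_cases hj : j = 3
      · simp [hj]
      · simp [hj, Ne.symm hj]
    · split_ifs with hij
      · subst hij; exact b2 i hi
      · exact b1 i hi _ (by simpa using fun h => hij h.symm)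
  have c2 : ∀ i j : Fin 4, M (.v i) (.v j) = if i = j then 1 else 0 := by
    intro i j
    by_cases hi : i = 3
    · subst hi
      rw [a4]
      by_cases hj : j = 3
      · simp [hj]
      · simp [hj, Ne.symm hj]
    · split_ifs with hij
      · subst hij; exact b7 i hi
      · exact b8 i hi _ (by simpa using fun h => hij h.symm) (by simp)
  have c3 : ∀ j : Fin 4, M .o (.v j) = 0 := by
    intro j
    by_cases hj : j = 3
    · subst hj; exact b4 _ (by simp)
    · exact b6 j hj _ (by simp)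
  have c4 : ∀ i : Fin 4, M (.v i) .q = 0 := fun i => b3 _ (by simp)
  have c5 : ∀ i : Fin 4, i ≠ 3 → ∀ j, M (.v i) (.w j) = 0 := by
    intro i hi j
    by_cases hj : j = 3
    · subst hj; exact b9 i hi
    · exact b8 i hi _ (by simp) (by simpa using hj)
  ext x y
  have ht4 : t4 g = M (.v 3) (.w 3) := rfl
  rw [ht4]
  simp only [zt, Matrix.add_apply, Matrix.one_apply, Matrix.single_apply]
  cases x with
  | o =>
    cases y with
    | o => simpa using a1 .o
    | v j => simpa using c3 j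
    | q => simpa using b3 .o (by simp)
    | w j =>
      by_cases hj : j = 3
      · subst hj; simp
      · simpa [Ne.symm hj] using b10 j hj
  | v i =>
    cases y with
    | o => simpa using a1 (.v i)
    | v j => simpa using c2 i j
    | q => simpa using c4 i
    | w j =>
      by_cases hi : i = 3
      · subst hi
        by_cases hj : j = 3
        · subst hj; simp
        · simpa [Ne.symm hj] using b11 j hj
      · simpa [Ne.symm hi] using c5 i hi j
  | q =>
    cases y with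
    | o => simpa using a1 .q
    | v j => simpa using a7 j
    | q => simpa using a6
    | w j => simpa using b5 (.w j) (by simp)
  | w i =>
    cases y with
    | o => simpa using a1 (.w i)
    | v j => simpa using a9 i j
    | q => simpa using a8 i
    | w j => simpa using c1 i j

end General

section Poly

variable {p : ℕ} [Fact p.Prime]

lemma ne_aux {i j : ℕ} (hij : i ≠ j) : (X * X ^ i : (ZMod p)[X]) - X * X ^ j ≠ 0 := by
  intro h
  rw [← pow_succ', ← pow_succ', sub_eq_zero] at h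
  have := congrArg natDegree h
  rw [natDegree_X_pow, natDegree_X_pow] at this
  omega

lemma one_zt {A : Type} [CommRing A] (u : (Matrix Ix Ix A)ˣ) (r d : A)
    (h : ((1 * u * 1⁻¹ * (1 * u * 1⁻¹)⁻¹ : (Matrix Ix Ix A)ˣ) : Matrix Ix Ix A) = zt r d) :
    d = 0 := by
  rw [mul_inv_cancel, Units.val_one] at h
  have := congrFun (congrFun h (.v 3)) (.w 3)
  simpa [zt, Matrix.one_apply, Matrix.single_apply] using this.symm

lemma comp (g : (Matrix Ix Ix (ZMod p)[X])ˣ) (hg : g ∈ PG (SS p))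
    (E : Matrix Ix Ix (ZMod p)[X]) (hE : E * E = 0) {i j : ℕ} (hij : i ≠ j)
    (hki : ke E hE (X * X ^ i) ∈ PG (SS p)) (hkj : ke E hE (X * X ^ j) ∈ PG (SS p))
    (r : (ZMod p)[X])
    (h : ((ke E hE (X * X ^ i) * g * (ke E hE (X * X ^ i))⁻¹ *
      (ke E hE (X * X ^ j) * g * (ke E hE (X * X ^ j))⁻¹)⁻¹ : (Matrix Ix Ix (ZMod p)[X])ˣ) :
        Matrix Ix Ix (ZMod p)[X]) = zt r 0) : Cen E (g : Matrix Ix Ix (ZMod p)[X]) := by
  intro x y hxy
  have e3 : (ke E hE (X * X ^ i) : Matrix Ix Ix (ZMod p)[X]) * g *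
      ((ke E hE (X * X ^ i))⁻¹ : (Matrix Ix Ix (ZMod p)[X])ˣ) =
      zt r 0 * ((ke E hE (X * X ^ j) : Matrix Ix Ix (ZMod p)[X]) * g *
      ((ke E hE (X * X ^ j))⁻¹ : (Matrix Ix Ix (ZMod p)[X])ˣ)) := by
    rw [← h, ← Units.val_mul, ← Units.val_mul, ← Units.val_mul, ← Units.val_mul, ← Units.val_mul,
      inv_mul_cancel_right]
  have := key (SS_le p) hg E hE _ _ r hki hkj e3 x y hxy
  rcases mul_eq_zero.1 this with h | h
  · exact absurd h (ne_aux hij)
  · exact sub_eq_zero.1 h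

/-- The elements of `P` commuting with all the families up to the corner are `z(r) τ₄(d)`. -/
lemma hall (hSS : StSS) (u : (Matrix Ix Ix (ZMod p)[X])ˣ) (hu : u ∈ PG (SS p))
    (hf : ∀ (E : Matrix Ix Ix (ZMod p)[X]) (hE : E * E = 0),
      (∀ r, ke E hE (X * r) ∈ KK p) → Cen E (u : Matrix Ix Ix (ZMod p)[X])) :
    (u : Matrix Ix Ix (ZMod p)[X]) = zt ((u : Matrix Ix Ix (ZMod p)[X]) .o (.w 3)) (t4 u) := by
  refine alg (SS_le p) hu ?_ ?_ ?_ ?_ ?_
  · intro j hj
    exact hf _ (single_sq (by simp)) fun r => ke_mem_single (SS_le p) (by simp) (by simp [lvl])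
      (by simp [hj]) (by simp) (by simp) (by simp) _
  · intro j hj
    exact hf _ (single_sq (by simp)) fun r => ke_mem_single (SS_le p) (by simp) (by simp [lvl])
      (by simp) (by simp) (by simp) (by simp [hj]) _
  · intro j hj
    exact hf _ (single_sq (by simp)) fun r => ke_mem_single (SS_le p) (by simp) (by simp [lvl])
      (by simp) (by simp) (by simp [hj]) (by simp) _
  · intro j hj
    exact hf _ (single_sq (by simp)) fun r => ke_mem_single (SS_le p) (by simp) (by simp [lvl])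
      (by simp) (by simp [hj]) (by simp) (by simp) _
  · intro i j hi hj hij
    exact hf _ (dE_sq hij) fun r => ke_mem_dE (SS_le p) hij _ (hSS p i j hij hi hj r).1

end Poly

end ORB

open ORB Polynomial

theorem pORB : StOrb := by
  intro hSS p _ g hg hC m
  by_contra hcon
  push Not at hcon
  obtain ⟨g1, g2⟩ := g
  have hg1 : g1 ∈ PG (SS p) := hg.1
  have hg2 : g2 ∈ PG (SS p) := hg.2.1
  -- first component
  have f1 : ∀ (E : Matrix Ix Ix (ZMod p)[X]) (hE : E * E = 0),
      (∀ r, ke E hE (X * r) ∈ KK p) → Cen E (g1 : Matrix Ix Ix (ZMod p)[X]) := by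
    intro E hE hk
    obtain ⟨i, j, hij, r, r', d, e1, e2⟩ := hcon fun i => (⟨ke E hE (X * X ^ (i : ℕ)), hk _⟩, 1)
    have hd : d = 0 := one_zt g2 r' d e2
    subst hd
    exact comp g1 hg1 E hE (fun h => hij (Fin.ext h)) (hk _).1 (hk _).1 r e1
  have f2 : ∀ (E : Matrix Ix Ix (ZMod p)[X]) (hE : E * E = 0),
      (∀ r, ke E hE (X * r) ∈ KK p) → Cen E (g2 : Matrix Ix Ix (ZMod p)[X]) := by
    intro E hE hk
    obtain ⟨i, j, hij, r', r, d, e2, e1⟩ := hcon fun i => (1, ⟨ke E hE (X * X ^ (i : ℕ)), hk _⟩)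
    have hd : d = 0 := one_zt g1 r' d e2
    subst hd
    exact comp g2 hg2 E hE (fun h => hij (Fin.ext h)) (hk _).1 (hk _).1 r e1
  have r1 := hall hSS g1 hg1 f1
  have r2 := hall hSS g2 hg2 f2
  have h4 : t4 g1 = t4 g2 := hg.2.2.2.2.2
  rw [← h4] at r2
  exact hC ⟨_, _, _, r1, r2⟩

end Helper53.NG
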