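import Pool.Agent.Helper53.NG.StB

/-!
# PAD: enlarging the multiplicity
-/

namespace Helper53.NG

attribute [local irreducible] Helper51.MU.instRingMUlt

open Helper51.MU Helper61.IE Filter Topology
open scoped Matrix.Norms.L2Operator MatrixOrder ComplexOrder

namespace PAD

section fin

variable {L A B M : ℕ}

/-- the injection of the index sets -/
def fj (h : B ≤ M) : Fin L ⊕ (Fin B × Fin A) → Fin L ⊕ (Fin M × Fin A) :=
  Sum.map id (Prod.map (Fin.castLE h) id)

private lemma fj_inj (h : B ≤ M) : Function.Injective (fj (L := L) (A := A) h) := by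
  intro x y hxy
  rcases x with x | ⟨x1, x2⟩ <;> rcases y with y | ⟨y1, y2⟩
  · simpa [fj] using hxy
  · simp [fj] at hxy
  · simp [fj] at hxy
  · simpa [fj, Fin.castLE_inj] using hxy

/-- the isometry -/
noncomputable def JJ (L A : ℕ) {B M : ℕ} (h : B ≤ M) :
    Matrix (Fin L ⊕ (Fin M × Fin A)) (Fin L ⊕ (Fin B × Fin A)) ℂ :=
  fun i j => if i = fj h j then 1 else 0

private lemma mul_JJ (h : B ≤ M) {n : Type} (D : Matrix n (Fin L ⊕ (Fin M × Fin A)) ℂ) (i : n)
    (j : Fin L ⊕ (Fin B × Fin A)) : (D * JJ L A h) i j = D i (fj h j) := by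
  rw [Matrix.mul_apply, Finset.sum_eq_single (fj h j)]
  · simp [JJ]
  · intro k _ hk
    simp [JJ, hk]
  · intro hk
    exact absurd (Finset.mem_univ _) hk

private lemma JJ_iso (h : B ≤ M) :
    (JJ L A h).conjTranspose * JJ L A h = 1 := by
  ext i j
  rw [mul_JJ, Matrix.conjTranspose_apply]
  unfold JJ
  rw [Matrix.one_apply]
  by_cases hij : i = j
  · subst hij
    simp
  · rw [if_neg hij, if_neg (fun h1 => hij (fj_inj h h1).symm)]
    simp

private lemma comm1 (h : B ≤ M)
    (D' : Matrix (Fin L ⊕ (Fin M × Fin A)) (Fin L ⊕ (Fin M × Fin A)) ℂ)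
    (D : Matrix (Fin L ⊕ (Fin B × Fin A)) (Fin L ⊕ (Fin B × Fin A)) ℂ)
    (h1 : ∀ k j, D' (fj h k) (fj h j) = D k j)
    (h2 : ∀ i, (∀ k, i ≠ fj h k) → ∀ j, D' i (fj h j) = 0) : D' * JJ L A h = JJ L A h * D := by
  ext i j
  rw [mul_JJ, Matrix.mul_apply]
  by_cases hi : ∃ k, i = fj h k
  · obtain ⟨k, rfl⟩ := hi
    rw [Finset.sum_eq_single k]
    · simp [JJ, h1]
    · intro b _ hb
      have : fj h k ≠ fj (L := L) (A := A) h b := fun h3 => hb (fj_inj h h3).symm
      simp [JJ, this]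
    · intro hk
      exact absurd (Finset.mem_univ _) hk
  · push Not at hi
    rw [h2 i hi j, Finset.sum_eq_zero]
    intro k _
    simp [JJ, hi k]

private lemma comm2 (h : B ≤ M)
    (D' : Matrix (Fin L ⊕ (Fin M × Fin A)) (Fin L ⊕ (Fin M × Fin A)) ℂ)
    (D : Matrix (Fin L ⊕ (Fin B × Fin A)) (Fin L ⊕ (Fin B × Fin A)) ℂ)
    (h1 : ∀ k j, D' (fj h k) (fj h j) = D k j)
    (h2 : ∀ i, (∀ k, i ≠ fj h k) → ∀ j, D' (fj h j) i = 0) :
    (JJ L A h).conjTranspose * D' = D * (JJ L A h).conjTranspose := by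
  have h3 := comm1 h D'.conjTranspose D.conjTranspose
    (fun k j => by rw [Matrix.conjTranspose_apply, Matrix.conjTranspose_apply, h1])
    (fun i hi j => by rw [Matrix.conjTranspose_apply, h2 i hi j, star_zero])
  have h4 := congrArg Matrix.conjTranspose h3
  rw [Matrix.conjTranspose_mul, Matrix.conjTranspose_mul, Matrix.conjTranspose_conjTranspose,
    Matrix.conjTranspose_conjTranspose] at h4
  exact h4

private lemma blk_l (h : B ≤ M) (x : Matrix (Fin L) (Fin L) ℂ) :
    (Matrix.fromBlocks x 0 0 0 : Matrix (Fin L ⊕ (Fin M × Fin A)) (Fin L ⊕ (Fin M × Fin A)) ℂ) *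
      JJ L A h = JJ L A h * (Matrix.fromBlocks x 0 0 0 :
        Matrix (Fin L ⊕ (Fin B × Fin A)) (Fin L ⊕ (Fin B × Fin A)) ℂ) := by
  apply comm1
  · intro k j
    rcases k with k | k <;> rcases j with j | j <;> simp [fj]
  · intro i hi j
    rcases i with i | i
    · exact absurd rfl (hi (Sum.inl i))
    · rcases j with j | j <;> simp [fj]

private lemma blk_r (h : B ≤ M) (x : Matrix (Fin A) (Fin A) ℂ) :
    (JJ L A h).conjTranspose * Matrix.fromBlocks (0 : Matrix (Fin L) (Fin L) ℂ) 0 0 (inr (Fin M) x) =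
      Matrix.fromBlocks (0 : Matrix (Fin L) (Fin L) ℂ) 0 0 (inr (Fin B) x) *
        (JJ L A h).conjTranspose := by
  have hv : ∀ (M : ℕ) (p q : Fin M × Fin A), inr (Fin M) x p q =
      (if p.1 = q.1 then 1 else 0) * x p.2 q.2 := by
    intro M p q
    show Matrix.kroneckerMap (· * ·) (1 : Matrix (Fin M) (Fin M) ℂ) x p q = _
    rw [Matrix.kroneckerMap_apply, Matrix.one_apply]
  apply comm2
  · intro k j
    rcases k with k | ⟨k1, k2⟩ <;> rcases j with j | ⟨j1, j2⟩
    · simp [fj]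
    · simp [fj]
    · simp [fj]
    · simp [fj, hv, Fin.castLE_inj]
  · intro i hi j
    rcases i with i | ⟨i1, i2⟩
    · exact absurd rfl (hi (Sum.inl i))
    · rcases j with j | ⟨j1, j2⟩
      · simp [fj]
      · have hne : Fin.castLE h j1 ≠ i1 := by
          rintro rfl
          exact hi (Sum.inr (j1, i2)) rfl
        simp [fj, hv, hne]

private lemma inl_blk {α β : Type} [Fintype α] [DecidableEq α] [Fintype β] [DecidableEq β]
    (x : Matrix α α ℂ) : Matrix.fromRows (1 : Matrix α α ℂ) (0 : Matrix β α ℂ) * x *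
      (Matrix.fromRows (1 : Matrix α α ℂ) (0 : Matrix β α ℂ)).conjTranspose =
      Matrix.fromBlocks x 0 0 0 := by
  rw [Matrix.conjTranspose_fromRows_eq_fromCols_conjTranspose, Matrix.fromRows_mul,
    Matrix.fromRows_mul_fromCols]
  simp

private lemma inr_blk {α β : Type} [Fintype α] [DecidableEq α] [Fintype β] [DecidableEq β]
    (x : Matrix β β ℂ) : Matrix.fromRows (0 : Matrix α β ℂ) (1 : Matrix β β ℂ) * x *
      (Matrix.fromRows (0 : Matrix α β ℂ) (1 : Matrix β β ℂ)).conjTranspose =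
      Matrix.fromBlocks 0 0 0 x := by
  rw [Matrix.conjTranspose_fromRows_eq_fromCols_conjTranspose, Matrix.fromRows_mul,
    Matrix.fromRows_mul_fromCols]
  simp

private lemma nn_conj_le {α β : Type} [Fintype α] [DecidableEq α] [Fintype β] [DecidableEq β]
    {J : Matrix β α ℂ} (h : J.conjTranspose * J = 1) (x : Matrix α α ℂ) :
    nn (J * x * J.conjTranspose) ≤ nn x := by
  unfold nn
  rw [hs_conj h]
  rcases Nat.eq_zero_or_pos (Fintype.card α) with h0 | h0
  · have : IsEmpty α := Fintype.card_eq_zero_iff.1 h0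
    have : hs x = 0 := by unfold hs; simp
    rw [this]; simp
  · refine div_le_div_of_nonneg_left (hs_nonneg _) (by exact_mod_cast h0) ?_
    exact_mod_cast card_le_of_iso h

end fin

section seq

variable {ι κ : ℕ → Type} [∀ n, Fintype (ι n)] [∀ n, DecidableEq (ι n)]
  [∀ n, Fintype (κ n)] [∀ n, DecidableEq (κ n)]

/-- extension of sequences -/
noncomputable def ex (J : ∀ n, Matrix (κ n) (ι n) ℂ)
    (hJ : ∀ n, (J n).conjTranspose * J n = 1 ∨ J n = 0) (v : BSeq ι) : BSeq κ :=
  ⟨fun n => J n * v.1 n * (J n).conjTranspose, by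
    obtain ⟨C, hC⟩ := v.2
    refine ⟨C, fun n => ?_⟩
    rcases hJ n with h | h
    · exact (norm_conj_le h _).trans (hC n)
    · dsimp only
      rw [h, Matrix.zero_mul, Matrix.zero_mul, norm_zero]
      exact (norm_nonneg _).trans (hC 0)⟩

private lemma ex_val (J : ∀ n, Matrix (κ n) (ι n) ℂ)
    (hJ : ∀ n, (J n).conjTranspose * J n = 1 ∨ J n = 0) (v : BSeq ι) (n : ℕ) :
    (ex J hJ v).1 n = J n * v.1 n * (J n).conjTranspose := rfl

private lemma key {U : Ultrafilter ℕ} (J : ∀ n, Matrix (κ n) (ι n) ℂ)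
    (hJ : ∀ n, (J n).conjTranspose * J n = 1 ∨ J n = 0)
    (hg : ∀ᶠ n in (U : Filter ℕ), (J n).conjTranspose * J n = 1)
    (P Q v : BSeq ι) (P' Q' : BSeq κ)
    (hP : ∀ n, P'.1 n * J n = J n * P.1 n)
    (hQ : ∀ n, (J n).conjTranspose * Q'.1 n = Q.1 n * (J n).conjTranspose)
    (he : mkM U (P * v) = mkM U (v * Q)) :
    mkM U (P' * ex J hJ v) = mkM U (ex J hJ v * Q') := by
  rw [mk_eq_mk] at he ⊢
  refine squeeze_zero' (Eventually.of_forall fun n => nn_nonneg _) ?_ he
  filter_upwards [hg] with n h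
  rw [mul_val, mul_val, mul_val, mul_val, ex_val J hJ v n]
  have e1 : P'.1 n * (J n * v.1 n * (J n).conjTranspose) -
      J n * v.1 n * (J n).conjTranspose * Q'.1 n =
      J n * (P.1 n * v.1 n - v.1 n * Q.1 n) * (J n).conjTranspose := by
    rw [Matrix.mul_sub, Matrix.sub_mul]
    congr 1
    · rw [← Matrix.mul_assoc, ← Matrix.mul_assoc, hP n]
      simp only [Matrix.mul_assoc]
    · rw [Matrix.mul_assoc (J n * v.1 n), hQ n]
      simp only [Matrix.mul_assoc]
  rw [e1]
  exact nn_conj_le h _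

end seq

end PAD

open PAD in
theorem pPAD : StPAD := by
  intro K _ l U u hl a b c V hV N hbN hNa
  obtain ⟨v, rfl⟩ := mkM_surjective V
  let J : ∀ n, Matrix (Fin (l n) ⊕ (Fin (N n) × Fin (a n)))
      (Fin (l n) ⊕ (Fin (b n) × Fin (a n))) ℂ :=
    fun n => if h : b n ≤ N n then JJ (l n) (a n) h else 0
  have hJp : ∀ n (h : b n ≤ N n), J n = JJ (l n) (a n) h := fun n h => dif_pos h
  have hJn : ∀ n (h : ¬ b n ≤ N n), J n = 0 := fun n h => dif_neg h
  have hJ : ∀ n, (J n).conjTranspose * J n = 1 ∨ J n = 0 := by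
    intro n
    by_cases h : b n ≤ N n
    · left
      rw [hJp n h]
      exact JJ_iso h
    · exact Or.inr (hJn n h)
  have hg : ∀ᶠ n in (U : Filter ℕ), (J n).conjTranspose * J n = 1 := by
    filter_upwards [hbN] with n h
    rw [hJp n h]
    exact JJ_iso h
  have hinl : ∀ (x : BSeq (fun n => Fin (l n))) (n : ℕ),
      (expB (JL (fun n => Fin (l n)) (fun n => Fin (N n) × Fin (a n))) x).1 n * J n =
        J n * (expB (JL (fun n => Fin (l n)) (fun n => Fin (b n) × Fin (a n))) x).1 n := by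
    intro x n
    rw [expB_val, expB_val]
    show Matrix.fromRows 1 0 * x.1 n * (Matrix.fromRows 1 0).conjTranspose * J n =
      J n * (Matrix.fromRows 1 0 * x.1 n * (Matrix.fromRows 1 0).conjTranspose)
    rw [inl_blk, inl_blk]
    by_cases h : b n ≤ N n
    · rw [hJp n h]
      exact blk_l h _
    · rw [hJn n h, Matrix.mul_zero, Matrix.zero_mul]
  have hinr : ∀ (x : BSeq (fun n => Fin (a n))) (n : ℕ),
      (J n).conjTranspose * (expB (JR (fun n => Fin (l n)) (fun n => Fin (N n) × Fin (a n)))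
        (jb (fun n => Fin (N n)) x)).1 n =
        (expB (JR (fun n => Fin (l n)) (fun n => Fin (b n) × Fin (a n)))
          (jb (fun n => Fin (b n)) x)).1 n * (J n).conjTranspose := by
    intro x n
    rw [expB_val, expB_val, jb_val, jb_val]
    show (J n).conjTranspose * (Matrix.fromRows 0 1 * inr (Fin (N n)) (x.1 n) *
        (Matrix.fromRows 0 1).conjTranspose) =
      Matrix.fromRows 0 1 * inr (Fin (b n)) (x.1 n) * (Matrix.fromRows 0 1).conjTranspose *
        (J n).conjTranspose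
    rw [inr_blk, inr_blk]
    by_cases h : b n ≤ N n
    · rw [hJp n h]
      exact blk_r h _
    · rw [hJn n h, Matrix.conjTranspose_zero, Matrix.mul_zero, Matrix.zero_mul]
  have h1 : ∀ n, (1 : Matrix (Fin (l n) ⊕ (Fin (N n) × Fin (a n)))
      (Fin (l n) ⊕ (Fin (N n) × Fin (a n))) ℂ) * J n = J n *
      (1 : Matrix (Fin (l n) ⊕ (Fin (b n) × Fin (a n)))
        (Fin (l n) ⊕ (Fin (b n) × Fin (a n))) ℂ) := by
    intro n
    rw [Matrix.one_mul, Matrix.mul_one]
  have h1' : ∀ n, (J n).conjTranspose * (1 : Matrix (Fin (l n) ⊕ (Fin (N n) × Fin (a n)))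
      (Fin (l n) ⊕ (Fin (N n) × Fin (a n))) ℂ) =
      (1 : Matrix (Fin (l n) ⊕ (Fin (b n) × Fin (a n)))
        (Fin (l n) ⊕ (Fin (b n) × Fin (a n))) ℂ) * (J n).conjTranspose := by
    intro n
    rw [Matrix.one_mul, Matrix.mul_one]
  refine ⟨mkM U (ex J hJ v), hV.unit, hV.posa, ?_, ?_, ?_, ?_, ?_, ?_⟩
  · filter_upwards [hV.posb, hbN] with n h2 h3
    omega
  · obtain ⟨C, hC⟩ := hV.cmp
    refine ⟨max C 1, ?_⟩
    filter_upwards [hC, hbN, hNa] with n h2 h3 h4
    have h5 : (b n : ℝ) ≤ N n := by exact_mod_cast h3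
    have h6 : (b n : ℝ) * a n ≤ N n * a n := mul_le_mul_of_nonneg_right h5 (by positivity)
    have h7 : (N n : ℝ) * a n ≤ l n := by exact_mod_cast h4
    constructor
    · refine h2.1.trans ?_
      refine (mul_le_mul_of_nonneg_right (le_max_left C 1) (by positivity)).trans ?_
      exact mul_le_mul_of_nonneg_left h6 (le_trans zero_le_one (le_max_right _ _))
    · refine h7.trans ?_
      have : (0 : ℝ) ≤ l n := by positivity
      nlinarith [le_max_right C 1]
  · intro h0
    apply hV.ne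
    rw [← map_zero (mkM U), mk_eq_mk] at h0 ⊢
    have h2 : Tendsto (fun n => 2 * nn ((ex J hJ v).1 n -
        (0 : BSeq (fun n => Fin (l n) ⊕ (Fin (N n) × Fin (a n)))).1 n)) U (𝓝 0) := by
      simpa using h0.const_mul 2
    refine squeeze_zero' (Eventually.of_forall fun n => nn_nonneg _) ?_ h2
    filter_upwards [hg, hNa, hl] with n h3 h4 h5
    rw [zero_val, zero_val, sub_zero, sub_zero, ex_val J hJ v n]
    unfold nn
    rw [hs_conj h3, ← mul_div_assoc]
    have c1 : (0 : ℝ) < Fintype.card (Fin (l n) ⊕ (Fin (b n) × Fin (a n))) := by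
      have : 0 < Fintype.card (Fin (l n) ⊕ (Fin (b n) × Fin (a n))) := by
        simp only [Fintype.card_sum, Fintype.card_fin]
        omega
      exact_mod_cast this
    have c2 : (0 : ℝ) < Fintype.card (Fin (l n) ⊕ (Fin (N n) × Fin (a n))) := by
      have : 0 < Fintype.card (Fin (l n) ⊕ (Fin (N n) × Fin (a n))) := by
        simp only [Fintype.card_sum, Fintype.card_fin]
        omega
      exact_mod_cast this
    have c3 : (Fintype.card (Fin (l n) ⊕ (Fin (N n) × Fin (a n))) : ℝ) ≤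
        2 * Fintype.card (Fin (l n) ⊕ (Fin (b n) × Fin (a n))) := by
      have : Fintype.card (Fin (l n) ⊕ (Fin (N n) × Fin (a n))) ≤
          2 * Fintype.card (Fin (l n) ⊕ (Fin (b n) × Fin (a n))) := by
        simp only [Fintype.card_sum, Fintype.card_fin, Fintype.card_prod]
        omega
      exact_mod_cast this
    rw [div_le_div_iff₀ c1 c2]
    have := hs_nonneg (v.1 n)
    nlinarith
  · have h2 := hV.corl
    rw [← map_one (mkM U), expd_mk, ← map_mul] at h2
    rw [← map_one (mkM U), expd_mk, ← map_mul]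
    have h3 := key J hJ hg _ 1 v _ 1 (hinl 1) h1' (by rw [mul_one]; exact h2)
    rw [mul_one] at h3
    exact h3
  · have h2 := hV.corr
    rw [← map_one (mkM U), expd_mk, ← map_mul] at h2
    rw [← map_one (mkM U), expd_mk, ← map_mul]
    have e1 : (1 : BSeq (fun n => Fin (b n) × Fin (a n))) = jb (fun n => Fin (b n)) 1 :=
      (map_one _).symm
    have e2 : (1 : BSeq (fun n => Fin (N n) × Fin (a n))) = jb (fun n => Fin (N n)) 1 :=
      (map_one _).symm
    rw [e1] at h2
    rw [e2]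
    have h3 := key J hJ hg 1 _ v 1 _ h1 (hinr 1) (by rw [one_mul]; exact h2.symm)
    rw [one_mul] at h3
    exact h3.symm
  · intro k
    have h2 := hV.itw k
    obtain ⟨x, hx⟩ := mkM_surjective (u k)
    obtain ⟨y, hy⟩ := mkM_surjective (c k)
    rw [← hx, ← hy, expd_mk, jm_mk, expd_mk, ← map_mul, ← map_mul] at h2
    rw [← hx, ← hy, expd_mk, jm_mk, expd_mk, ← map_mul, ← map_mul]
    exact key J hJ hg _ _ v _ _ (hinl x) (hinr y) h2

end Helper53.NG
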