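import Pool.Agent.Helper53.NG.StG

/-! Project NG, module PHI. -/

namespace Helper53.NG

namespace PHI

variable {A : Type} [CommRing A]

lemma zt_apply (r d : A) (i j : Ix) : zt r d i j =
    (if i = j then 1 else 0) + (if Ix.o = i ∧ Ix.w 3 = j then r else 0) +
      (if Ix.v 3 = i ∧ Ix.w 3 = j then d else 0) := by
  unfold zt
  rw [Matrix.add_apply, Matrix.add_apply, Matrix.one_apply, Matrix.single_apply, Matrix.single_apply]

lemma zt_mul (r d r' d' : A) : zt r d * zt r' d' = zt (r + r') (d + d') := by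
  unfold zt
  rw [mul_add, mul_add, add_mul, add_mul, add_mul, add_mul, add_mul, add_mul]
  rw [Matrix.single_mul_single_of_ne (h := by decide), Matrix.single_mul_single_of_ne (h := by decide),
    Matrix.single_mul_single_of_ne (h := by decide), Matrix.single_mul_single_of_ne (h := by decide)]
  rw [Matrix.single_add, Matrix.single_add]
  simp only [mul_one, one_mul, add_zero]
  abel

lemma zt_zero : zt (0 : A) 0 = 1 := by
  unfold zt
  simp

lemma zt_o (r d : A) : zt r d .o (.w 3) = r := by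
  rw [zt_apply]; simp

lemma zt_v (r d : A) : zt r d (.v 3) (.w 3) = d := by
  rw [zt_apply]; simp

lemma zt_of_lvl (r d : A) (i j : Ix) (h : lvl j ≤ lvl i) : zt r d i j = (1 : Matrix Ix Ix A) i j := by
  rw [zt_apply, Matrix.one_apply]
  have h1 : ¬ (Ix.o = i ∧ Ix.w 3 = j) := by
    rintro ⟨rfl, rfl⟩; simp [lvl] at h
  have h2 : ¬ (Ix.v 3 = i ∧ Ix.w 3 = j) := by
    rintro ⟨rfl, rfl⟩; simp [lvl] at h
  rw [if_neg h1, if_neg h2, add_zero, add_zero]

lemma BF_zt (S : Subgroup (Matrix (Fin 4) (Fin 4) A)ˣ) (r d : A) : BF S (zt r d) :=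
  ⟨1, S.one_mem, fun i j h => by rw [zt_of_lvl r d i j h, Units.val_one, dg_one]⟩

lemma inv_zt {g : (Matrix Ix Ix A)ˣ} {r d : A} (h : (g : Matrix Ix Ix A) = zt r d) :
    ((g⁻¹ : (Matrix Ix Ix A)ˣ) : Matrix Ix Ix A) = zt (-r) (-d) := by
  have h1 : zt (-r) (-d) * (g : Matrix Ix Ix A) = 1 := by
    rw [h, zt_mul, neg_add_cancel, neg_add_cancel, zt_zero]
  exact (Units.eq_inv_of_mul_eq_one_right h1).symm

lemma mem_PG {S : Subgroup (Matrix (Fin 4) (Fin 4) A)ˣ} {g : (Matrix Ix Ix A)ˣ} {r d : A}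
    (h : (g : Matrix Ix Ix A) = zt r d) : g ∈ PG S := by
  refine ⟨?_, ?_⟩
  · rw [h]; exact BF_zt S r d
  · rw [inv_zt h]; exact BF_zt S _ _

lemma t_zt {g : (Matrix Ix Ix A)ˣ} {r d : A} (h : (g : Matrix Ix Ix A) = zt r d) :
    t1 g = 0 ∧ t2 g = 0 ∧ t3 g = 0 ∧ t4 g = d := by
  unfold t1 t2 t3 t4
  rw [h, zt_apply, zt_apply, zt_apply, zt_apply]
  simp

lemma conj_zt {S : Subgroup (Matrix (Fin 4) (Fin 4) A)ˣ} (hS : S ≤ S3 A)
    {g y : (Matrix Ix Ix A)ˣ} (hg : g ∈ PG S) {r d : A} (h : (y : Matrix Ix Ix A) = zt r d) :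
    ((g * y * g⁻¹ : (Matrix Ix Ix A)ˣ) : Matrix Ix Ix A) = zt (r + t2 g * d) d := by
  obtain ⟨b1, b2, b3, b4, b5, b6, b7, b8, b9⟩ := t_mul_aux hS hg
  have key : (g : Matrix Ix Ix A) * zt r d = zt (r + t2 g * d) d * (g : Matrix Ix Ix A) := by
    ext i j
    rw [Matrix.mul_apply, Matrix.mul_apply]
    simp only [zt_apply, mul_add, add_mul, Finset.sum_add_distrib]
    have e1 : ∑ k, (g : Matrix Ix Ix A) i k * (if k = j then (1 : A) else 0) = (g : Matrix Ix Ix A) i j := by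
      simp
    have e2 : ∑ k, (if i = k then (1 : A) else 0) * (g : Matrix Ix Ix A) k j = (g : Matrix Ix Ix A) i j := by
      simp
    have e3 : ∑ k, (g : Matrix Ix Ix A) i k * (if Ix.o = k ∧ Ix.w 3 = j then r else 0) =
        if Ix.w 3 = j then (g : Matrix Ix Ix A) i .o * r else 0 := by
      by_cases hj : Ix.w 3 = j
      · simp [hj]
      · simp [hj]
    have e4 : ∑ k, (g : Matrix Ix Ix A) i k * (if Ix.v 3 = k ∧ Ix.w 3 = j then d else 0) =
        if Ix.w 3 = j then (g : Matrix Ix Ix A) i (.v 3) * d else 0 := by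
      by_cases hj : Ix.w 3 = j
      · simp [hj]
      · simp [hj]
    have e5 : ∀ c : A, ∑ k, (if Ix.o = i ∧ Ix.w 3 = k then c else 0) * (g : Matrix Ix Ix A) k j =
        if Ix.o = i then c * (g : Matrix Ix Ix A) (.w 3) j else 0 := by
      intro c
      by_cases hi : Ix.o = i
      · simp [hi]
      · simp [hi]
    have e6 : ∑ k, (if Ix.v 3 = i ∧ Ix.w 3 = k then d else 0) * (g : Matrix Ix Ix A) k j =
        if Ix.v 3 = i then d * (g : Matrix Ix Ix A) (.w 3) j else 0 := by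
      by_cases hi : Ix.v 3 = i
      · simp [hi]
      · simp [hi]
    rw [e1, e2, e3, e4, e5, e6, b1 i, b2 j]
    have b5' : (g : Matrix Ix Ix A) i (.v 3) = (if i = .v 3 then 1 else 0) + (if i = .o then t2 g else 0) := by
      cases i with
      | o => simp [t2]
      | v k => rw [b5 k]; simp
      | q => rw [b7 3]; simp
      | w k => rw [b9 k 3]; simp
    rw [b5']
    by_cases hj : j = Ix.w 3
    · subst hj
      cases i with
      | o => simp; ring
      | v k =>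
        by_cases hk : k = 3
        · subst hk; simp
        · have hk' : ¬ (3 : Fin 4) = k := fun h => hk h.symm
          simp [hk, hk']
      | q => simp
      | w k => simp
    · have hj' : ¬ Ix.w 3 = j := fun h => hj h.symm
      rw [if_neg hj', if_neg hj', if_neg hj]
      simp
  rw [Units.val_mul, Units.val_mul, h, key, mul_assoc, ← Units.val_mul, mul_inv_cancel, Units.val_one,
    mul_one]

lemma phi_of {χ : A → ℂ} {x : (Matrix Ix Ix A)ˣ × (Matrix Ix Ix A)ˣ} {r r' d : A}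
    (h1 : (x.1 : Matrix Ix Ix A) = zt r d) (h2 : (x.2 : Matrix Ix Ix A) = zt r' d) :
    phi χ x = χ (r - r') := by
  unfold phi
  rw [if_pos ⟨r, r', d, h1, h2⟩, h1, h2, zt_o, zt_o]

lemma phi_not {χ : A → ℂ} {x : (Matrix Ix Ix A)ˣ × (Matrix Ix Ix A)ˣ} (h : ¬ InC x) : phi χ x = 0 := by
  unfold phi
  rw [if_neg h]

lemma InC_mul {x y : (Matrix Ix Ix A)ˣ × (Matrix Ix Ix A)ˣ} (hx : InC x) (hy : InC y) : InC (x * y) := by
  obtain ⟨r, r', d, h1, h2⟩ := hx
  obtain ⟨s, s', e, k1, k2⟩ := hy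
  refine ⟨r + s, r' + s', d + e, ?_, ?_⟩
  · rw [Prod.fst_mul, Units.val_mul, h1, k1, zt_mul]
  · rw [Prod.snd_mul, Units.val_mul, h2, k2, zt_mul]

lemma InC_inv {x : (Matrix Ix Ix A)ˣ × (Matrix Ix Ix A)ˣ} (hx : InC x) : InC x⁻¹ := by
  obtain ⟨r, r', d, h1, h2⟩ := hx
  exact ⟨-r, -r', -d, inv_zt h1, inv_zt h2⟩

lemma InC_conj {S : Subgroup (Matrix (Fin 4) (Fin 4) A)ˣ} (hS : S ≤ S3 A)
    {x y : (Matrix Ix Ix A)ˣ × (Matrix Ix Ix A)ˣ} (hx : x ∈ GG S hS) (hy : InC y) :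
    InC (x * y * x⁻¹) := by
  obtain ⟨r, r', d, h1, h2⟩ := hy
  obtain ⟨g0, g0', g1, g2, g3, g4⟩ := hx
  refine ⟨r + t2 x.1 * d, r' + t2 x.2 * d, d, ?_, ?_⟩
  · exact conj_zt hS g0 h1
  · exact conj_zt hS g0' h2

end PHI

open PHI in
theorem pPHI : StPhi := by
  intro A _ S hS χ hχ hχ0
  have hone : InC (1 : (Matrix Ix Ix A)ˣ × (Matrix Ix Ix A)ˣ) :=
    ⟨0, 0, 0, by rw [zt_zero]; rfl, by rw [zt_zero]; rfl⟩
  have hconj : ∀ x ∈ GG S hS, ∀ y : (Matrix Ix Ix A)ˣ × (Matrix Ix Ix A)ˣ, ¬ InC y →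
      ¬ InC (x * y * x⁻¹) := by
    intro x hx y hy h
    apply hy
    have := InC_conj hS ((GG S hS).inv_mem hx) h
    have h2 : x⁻¹ * (x * y * x⁻¹) * x⁻¹⁻¹ = y := by group
    rwa [h2] at this
  refine ⟨hone, ?_, fun x y hx hy => InC_mul hx hy, fun x hx => ⟨InC_inv hx, ?_⟩,
    fun x hx y hy => InC_conj hS hx hy, ?_, ?_⟩
  · rw [phi_of (x := (1 : (Matrix Ix Ix A)ˣ × (Matrix Ix Ix A)ˣ)) (r := 0) (r' := 0) (d := 0)
      (by rw [zt_zero]; rfl) (by rw [zt_zero]; rfl), sub_zero, hχ0]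
  · obtain ⟨r, r', d, h1, h2⟩ := hx
    obtain ⟨a1, a2, a3, a4⟩ := t_zt h1
    obtain ⟨b1, b2, b3, b4⟩ := t_zt h2
    exact ⟨mem_PG h1, mem_PG h2, by rw [a1, b1], by rw [a2, b2], by rw [a3, b3], by rw [a4, b4]⟩
  · intro x y hx
    by_cases hy : InC y
    · obtain ⟨r, r', d, h1, h2⟩ := hx
      obtain ⟨s, s', e, k1, k2⟩ := hy
      rw [phi_of h1 h2, phi_of k1 k2, phi_of (x := x * y) (r := r + s) (r' := r' + s') (d := d + e)
        (by rw [Prod.fst_mul, Units.val_mul, h1, k1, zt_mul])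
        (by rw [Prod.snd_mul, Units.val_mul, h2, k2, zt_mul]), ← hχ]
      congr 1
      ring
    · have hxy : ¬ InC (x * y) := by
        intro h
        apply hy
        have := InC_mul (InC_inv hx) h
        rwa [inv_mul_cancel_left] at this
      rw [phi_not hxy, phi_not hy, mul_zero]
  · intro x hx y _
    by_cases hy : InC y
    · obtain ⟨r, r', d, h1, h2⟩ := hy
      obtain ⟨g0, g0', g1, g2, g3, g4⟩ := hx
      rw [phi_of h1 h2, phi_of (x := x * y * x⁻¹) (r := r + t2 x.1 * d) (r' := r' + t2 x.2 * d) (d := d)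
        (conj_zt hS g0 h1) (conj_zt hS g0' h2), g2]
      congr 1
      ring
    · rw [phi_not hy, phi_not (hconj x hx y hy)]

end Helper53.NG
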