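import Pool.Agent.Helper53.NG.StA

/-!
# Project NG, module POL: spectral projection and polar decomposition
-/

set_option linter.unusedSectionVars false

namespace Helper53.NG

open Helper51.MU Helper61.IE Filter Topology
open scoped Matrix.Norms.L2Operator MatrixOrder ComplexOrder

attribute [local irreducible] Helper51.MU.instRingMUlt

namespace POL

/-! ## real functions -/

/-- the levels -/
noncomputable def cc (t : ℝ) (k : ℕ) : ℝ := t + t / (k + 1)

lemma cc_gt {t : ℝ} (ht : 0 < t) (k : ℕ) : t < cc t k := by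
  unfold cc
  have : 0 < t / ((k : ℝ) + 1) := by positivity
  linarith

lemma cc_lt {t : ℝ} (ht : 0 < t) {j k : ℕ} (h : j < k) : cc t k < cc t j := by
  unfold cc
  have h1 : (j : ℝ) + 1 < (k : ℝ) + 1 := by
    have : (j : ℝ) < k := by exact_mod_cast h
    linarith
  have h2 : t / ((k : ℝ) + 1) < t / ((j : ℝ) + 1) :=
    div_lt_div_of_pos_left ht (by positivity) h1
  linarith

lemma cc_le {t : ℝ} (ht : 0 < t) {j k : ℕ} (h : j ≤ k) : cc t k ≤ cc t j := by
  rcases h.eq_or_lt with h | h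
  · rw [h]
  · exact (cc_lt ht h).le

/-- the continuous approximations of the indicator of `(t, ∞)` -/
noncomputable def gk (t : ℝ) (k : ℕ) (x : ℝ) : ℝ :=
  max 0 (min 1 ((x - cc t (k + 1)) / (cc t k - cc t (k + 1))))

lemma gk_cont (t : ℝ) (k : ℕ) : Continuous (gk t k) := by
  unfold gk
  fun_prop

lemma gk_nonneg (t : ℝ) (k : ℕ) (x : ℝ) : 0 ≤ gk t k x := le_max_left _ _

lemma gk_le_one (t : ℝ) (k : ℕ) (x : ℝ) : gk t k x ≤ 1 :=
  max_le zero_le_one (min_le_left _ _)

lemma gk_zero {t : ℝ} (ht : 0 < t) (k : ℕ) {x : ℝ} (h : x ≤ cc t (k + 1)) : gk t k x = 0 := by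
  unfold gk
  apply max_eq_left
  have h1 := cc_lt ht (Nat.lt_succ_self k)
  have h2 : (x - cc t (k + 1)) / (cc t k - cc t (k + 1)) ≤ 0 :=
    div_nonpos_of_nonpos_of_nonneg (by linarith) (by linarith)
  exact (min_le_right _ _).trans h2

lemma gk_one {t : ℝ} (ht : 0 < t) (k : ℕ) {x : ℝ} (h : cc t k ≤ x) : gk t k x = 1 := by
  unfold gk
  have h1 := cc_lt ht (Nat.lt_succ_self k)
  have h2 : 1 ≤ (x - cc t (k + 1)) / (cc t k - cc t (k + 1)) := by
    rw [one_le_div (by linarith)]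
    linarith
  rw [min_eq_left h2]
  exact max_eq_right zero_le_one

lemma gk_mul {t : ℝ} (ht : 0 < t) {j k : ℕ} (h : j < k) (x : ℝ) :
    gk t k x * gk t j x = gk t j x := by
  rcases le_or_gt x (cc t (j + 1)) with h1 | h1
  · rw [gk_zero ht j h1, mul_zero]
  · rw [gk_one ht k ((cc_le ht h).trans h1.le), one_mul]

lemma gk_mono {t : ℝ} (ht : 0 < t) {j k : ℕ} (h : j ≤ k) (x : ℝ) : gk t j x ≤ gk t k x := by
  rcases h.eq_or_lt with h | h
  · rw [h]
  rcases le_or_gt x (cc t (j + 1)) with h1 | h1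
  · rw [gk_zero ht j h1]
    exact gk_nonneg _ _ _
  · rw [gk_one ht k ((cc_le ht h).trans h1.le)]
    exact gk_le_one _ _ _

lemma gk_bdd (t : ℝ) (k : ℕ) : ∃ B : ℝ, ∀ x, |gk t k x| ≤ B :=
  ⟨1, fun x => by rw [abs_of_nonneg (gk_nonneg t k x)]; exact gk_le_one t k x⟩

/-- the inverse above `t` -/
noncomputable def h0 (t x : ℝ) : ℝ := (max x t)⁻¹

lemma max_pos' {t : ℝ} (ht : 0 < t) (x : ℝ) : 0 < max x t := lt_max_of_lt_right ht

lemma h0_cont {t : ℝ} (ht : 0 < t) : Continuous (h0 t) := by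
  unfold h0
  exact (continuous_id.max continuous_const).inv₀ fun x => (max_pos' ht x).ne'

lemma h0_nonneg {t : ℝ} (ht : 0 < t) (x : ℝ) : 0 ≤ h0 t x := (inv_pos.2 (max_pos' ht x)).le

lemma h0_bdd {t : ℝ} (ht : 0 < t) : ∃ B : ℝ, ∀ x, |h0 t x| ≤ B :=
  ⟨t⁻¹, fun x => by
    rw [abs_of_nonneg (h0_nonneg ht x)]
    exact inv_anti₀ ht (le_max_right _ _)⟩

lemma h0_mul {t : ℝ} (ht : 0 < t) (k : ℕ) (x : ℝ) : x * (h0 t x * gk t k x) = gk t k x := by
  rcases le_or_gt x (cc t (k + 1)) with h1 | h1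
  · rw [gk_zero ht k h1, mul_zero, mul_zero]
  · have h2 : t < x := (cc_gt ht (k + 1)).trans h1
    unfold h0
    rw [max_eq_left h2.le, ← mul_assoc, mul_inv_cancel₀ (ht.trans h2).ne', one_mul]

/-- the inverse square root above `t` -/
noncomputable def g0 (t x : ℝ) : ℝ := Real.sqrt (h0 t x)

lemma g0_cont {t : ℝ} (ht : 0 < t) : Continuous (g0 t) := (h0_cont ht).sqrt

lemma g0_bdd {t : ℝ} (ht : 0 < t) : ∃ B : ℝ, ∀ x, |g0 t x| ≤ B := by
  obtain ⟨B, hB⟩ := h0_bdd ht
  refine ⟨Real.sqrt B, fun x => ?_⟩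
  unfold g0
  rw [abs_of_nonneg (Real.sqrt_nonneg _)]
  exact Real.sqrt_le_sqrt ((le_abs_self _).trans (hB x))

lemma g0_mul {t : ℝ} (ht : 0 < t) (x : ℝ) : g0 t x * g0 t x = h0 t x :=
  Real.mul_self_sqrt (h0_nonneg ht x)

/-! ## functional calculus on sequences -/

variable {ι : ℕ → Type} [∀ n, Fintype (ι n)] [∀ n, DecidableEq (ι n)] {U : Ultrafilter ℕ}

/-- entrywise functional calculus -/
noncomputable def cf (φ : ℝ → ℝ) (h : ∃ B : ℝ, ∀ x, |φ x| ≤ B) (x : BSeq ι) : BSeq ι :=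
  ⟨fun n => cfc (R := ℝ) (p := IsSelfAdjoint) φ (x.1 n), by
    obtain ⟨B, hB⟩ := h
    exact ⟨B, fun n => norm_cfc_le ((abs_nonneg _).trans (hB 0)) fun x _ => hB x⟩⟩

lemma cf_val (φ : ℝ → ℝ) (h : ∃ B : ℝ, ∀ x, |φ x| ≤ B) (x : BSeq ι) (n : ℕ) :
    (cf φ h x).1 n = cfc (R := ℝ) (p := IsSelfAdjoint) φ (x.1 n) := rfl

lemma cf_star (φ : ℝ → ℝ) (h : ∃ B : ℝ, ∀ x, |φ x| ≤ B) (x : BSeq ι) :
    star (mkM U (cf φ h x)) = mkM U (cf φ h x) := by
  rw [star_mk]
  congr 1
  refine Subtype.ext (funext fun n => ?_)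
  rw [star_val, cf_val]
  exact (cfc_predicate (R := ℝ) (p := IsSelfAdjoint) φ (x.1 n) : IsSelfAdjoint _)

lemma cf_mul {φ ψ χ : ℝ → ℝ} (hφ : Continuous φ) (hψ : Continuous ψ)
    (h1 : ∃ B : ℝ, ∀ x, |φ x| ≤ B) (h2 : ∃ B : ℝ, ∀ x, |ψ x| ≤ B)
    (h3 : ∃ B : ℝ, ∀ x, |χ x| ≤ B) (h : ∀ x, φ x * ψ x = χ x) (x : BSeq ι) :
    mkM U (cf φ h1 x) * mkM U (cf ψ h2 x) = mkM U (cf χ h3 x) := by
  rw [← map_mul]
  congr 1
  refine Subtype.ext (funext fun n => ?_)
  rw [mul_val, cf_val, cf_val, cf_val, ← cfc_mul φ ψ (x.1 n) hφ.continuousOn hψ.continuousOn]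
  congr 1
  funext y
  exact h y

lemma cf_comm {φ ψ : ℝ → ℝ} (h1 : ∃ B : ℝ, ∀ x, |φ x| ≤ B) (h2 : ∃ B : ℝ, ∀ x, |ψ x| ≤ B)
    (x : BSeq ι) : mkM U (cf φ h1 x) * mkM U (cf ψ h2 x) =
      mkM U (cf ψ h2 x) * mkM U (cf φ h1 x) := by
  rw [← map_mul, ← map_mul]
  congr 1
  refine Subtype.ext (funext fun n => ?_)
  rw [mul_val, mul_val, cf_val, cf_val]
  exact cfc_commute_cfc φ ψ (x.1 n)

lemma cf_id_comm {φ : ℝ → ℝ} (h1 : ∃ B : ℝ, ∀ x, |φ x| ≤ B) {x : BSeq ι}
    (hx : ∀ n, IsSelfAdjoint (x.1 n)) :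
    mkM U x * mkM U (cf φ h1 x) = mkM U (cf φ h1 x) * mkM U x := by
  rw [← map_mul, ← map_mul]
  congr 1
  refine Subtype.ext (funext fun n => ?_)
  rw [mul_val, mul_val, cf_val]
  have h := cfc_commute_cfc (R := ℝ) (p := IsSelfAdjoint) (fun y => y) φ (x.1 n)
  rw [cfc_id' ℝ (x.1 n) (hx n)] at h
  exact h

lemma cf_id_mul {φ ψ : ℝ → ℝ} (hφ : Continuous φ) (h1 : ∃ B : ℝ, ∀ x, |φ x| ≤ B)
    (h2 : ∃ B : ℝ, ∀ x, |ψ x| ≤ B) (h : ∀ x, x * φ x = ψ x) {x : BSeq ι}
    (hx : ∀ n, IsSelfAdjoint (x.1 n)) :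
    mkM U x * mkM U (cf φ h1 x) = mkM U (cf ψ h2 x) := by
  rw [← map_mul]
  congr 1
  refine Subtype.ext (funext fun n => ?_)
  rw [mul_val, cf_val, cf_val]
  have e : ψ = fun y => (fun z : ℝ => z) y * φ y := by
    funext y
    exact (h y).symm
  rw [e, cfc_mul (fun z : ℝ => z) φ (x.1 n) continuous_id.continuousOn hφ.continuousOn,
    cfc_id' ℝ (x.1 n) (hx n)]

/-- the upper bound by the first approximation -/
lemma upper {n : Type} [Fintype n] [DecidableEq n] {t C : ℝ} (ht : 0 < t) {A : Matrix n n ℂ}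
    (hA : IsSelfAdjoint A) (h : A ≤ (C ^ 2) • (1 : Matrix n n ℂ)) :
    A ≤ ((2 * t : ℝ) : ℂ) • (1 : Matrix n n ℂ) + ((C ^ 2 : ℝ) : ℂ) •
      cfc (R := ℝ) (p := IsSelfAdjoint) (gk t 0) A := by
  have h3 : ∀ y ∈ spectrum ℝ A, y ≤ C ^ 2 := by
    rw [← le_algebraMap_iff_spectrum_le, Algebra.algebraMap_eq_smul_one]
    exact h
  have h4 : cfc (R := ℝ) (p := IsSelfAdjoint) (fun y : ℝ => y) A ≤
      cfc (R := ℝ) (p := IsSelfAdjoint) (fun y : ℝ => 2 * t + C ^ 2 * gk t 0 y) A := by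
    apply cfc_mono
    · intro y hy
      have h5 := h3 y hy
      have h6 := gk_nonneg t 0 y
      rcases le_or_gt y (cc t 0) with h7 | h7
      · have h8 : cc t 0 = 2 * t := by
          unfold cc
          push_cast
          ring
        rw [h8] at h7
        have h9 : 0 ≤ C ^ 2 * gk t 0 y := by positivity
        linarith
      · rw [gk_one ht 0 h7.le]
        linarith
    · exact continuous_id.continuousOn
    · exact (continuous_const.add (continuous_const.mul (gk_cont t 0))).continuousOn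
  rw [cfc_id' ℝ A hA, cfc_const_add (2 * t) (fun y => C ^ 2 * gk t 0 y) A
    (continuous_const.mul (gk_cont t 0)).continuousOn hA,
    cfc_const_mul (C ^ 2) (gk t 0) A (gk_cont t 0).continuousOn,
    Algebra.algebraMap_eq_smul_one] at h4
  rw [Complex.coe_smul, Complex.coe_smul]
  exact h4

lemma ntr_re {n : Type} [Fintype n] (A : Matrix n n ℂ) :
    (ntr A).re = rt A / (Fintype.card n : ℝ) := by
  have h : ntr A = Matrix.trace A / ((Fintype.card n : ℝ) : ℂ) := by
    rw [Complex.ofReal_natCast]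
    rfl
  rw [h, Complex.div_ofReal_re]
  rfl

lemma tendsto_rt (x : BSeq ι) : Tendsto (fun n => rt (x.1 n) / (Fintype.card (ι n) : ℝ)) U
    (𝓝 (tr (mkM U x)).re) := by
  have h := (Complex.continuous_re.tendsto _).comp (tendsto_tr (U := U) x)
  refine h.congr fun n => ?_
  exact ntr_re _

lemma tr_mono {x y : BSeq ι} (h : ∀ n, x.1 n ≤ y.1 n) :
    (tr (mkM U x)).re ≤ (tr (mkM U y)).re := by
  refine le_of_tendsto_of_tendsto' (tendsto_rt x) (tendsto_rt y) fun n => ?_
  exact div_le_div_of_nonneg_right (rt_mono (h n)) (by positivity)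

lemma nrm_le_tr {x : BSeq ι} (h0 : ∀ n, 0 ≤ x.1 n) (h1 : ∀ n, x.1 n ≤ 1) :
    nrm (mkM U x) ≤ (tr (mkM U x)).re := by
  refine le_of_tendsto_of_tendsto' (tendsto_nn x) (tendsto_rt x) fun n => ?_
  exact div_le_div_of_nonneg_right (hs_le_rt (h0 n) (h1 n)) (by positivity)

lemma tr_one_le : (tr (1 : MUlt ι U)).re ≤ 1 := by
  have h1 : NB 1 (1 : MUlt ι U) := by
    refine ⟨1, map_one _, fun n => ?_⟩
    rw [one_val]
    refine norm_le_one_of_nonneg ?_ le_rfl
    have := nonneg_star_mul (1 : Matrix (ι n) (ι n) ℂ)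
    rwa [Matrix.mul_one, Matrix.conjTranspose_one] at this
  have h2 := nrm_le_of_NB h1
  rw [Pj.one.nrm] at h2
  linarith

lemma eq_of_lim {x y f : MUlt ι U} {F : ℕ → MUlt ι U} {K : ℝ}
    (hF : Tendsto (fun k => nrm (F k - f)) atTop (𝓝 0))
    (h : ∀ᶠ k in atTop, nrm (x - y) ≤ K * nrm (F k - f)) : x = y := by
  have h1 : Tendsto (fun k => K * nrm (F k - f)) atTop (𝓝 0) := by
    simpa using hF.const_mul K
  have h2 : nrm (x - y) ≤ 0 := ge_of_tendsto h1 h
  exact sub_eq_zero.1 (nrm_eq_zero.1 (le_antisymm h2 (nrm_nonneg _)))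

end POL

open POL in
theorem pPOL : StPol := by
  intro hCfc hCom ι _ _ U hU D hD a haD ha
  obtain ⟨C, hC, α, rfl, hα⟩ := exists_NB a
  set x : BSeq ι := star α * α with hx
  have hxv : ∀ n, x.1 n = (α.1 n).conjTranspose * α.1 n := fun n => rfl
  have hX : mkM U x = star (mkM U α) * mkM U α := by
    rw [hx, map_mul, star_mk]
  have hXD : mkM U x ∈ D := by
    rw [hX]
    exact hD.mul _ (hD.star _ haD) _ haD
  have hx0 : ∀ n, 0 ≤ x.1 n := fun n => by
    rw [hxv]
    exact nonneg_star_mul _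
  have hsa : ∀ n, IsSelfAdjoint (x.1 n) := fun n => herm_of_nonneg (hx0 n)
  have hxC : ∀ n, x.1 n ≤ (C ^ 2) • (1 : Matrix (ι n) (ι n) ℂ) := fun n => by
    rw [hxv]
    refine (star_mul_le _).trans ?_
    have h1 : (0 : Matrix (ι n) (ι n) ℂ) ≤ 1 := by
      have := nonneg_star_mul (1 : Matrix (ι n) (ι n) ℂ)
      rwa [Matrix.mul_one, Matrix.conjTranspose_one] at this
    exact smul_mono_left (pow_le_pow_left₀ (norm_nonneg _) (hα n) 2) h1
  have hs0 : 0 < nrm (mkM U α) := by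
    rcases (nrm_nonneg (mkM U α)).lt_or_eq with h | h
    · exact h
    · exact absurd (nrm_eq_zero.1 h.symm) ha
  set t : ℝ := nrm (mkM U α) / 4 with htdef
  have ht : 0 < t := by positivity
  have htr : (tr (mkM U x)).re = 4 * t := by
    rw [hX, htdef]
    unfold nrm
    ring
  -- the functional calculus of `X`
  set F : ℕ → MUlt ι U := fun k => mkM U (cf (gk t k) (gk_bdd t k) x) with hFdef
  set H : MUlt ι U := mkM U (cf (h0 t) (h0_bdd ht) x) with hHdef
  set G : MUlt ι U := mkM U (cf (g0 t) (g0_bdd ht) x) with hGdef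
  have hFD : ∀ k, F k ∈ D := fun k =>
    hCfc ι U D hD x _ (gk t k) (gk_cont t k) hsa hXD fun n => rfl
  have hHD : H ∈ D := hCfc ι U D hD x _ (h0 t) (h0_cont ht) hsa hXD fun n => rfl
  have hGD : G ∈ D := hCfc ι U D hD x _ (g0 t) (g0_cont ht) hsa hXD fun n => rfl
  have hFs : ∀ k, star (F k) = F k := fun k => cf_star _ _ _
  have hFF : ∀ j k, j < k → F k * F j = F j := fun j k hjk =>
    cf_mul (gk_cont t k) (gk_cont t j) _ _ _ (gk_mul ht hjk) x
  have hNB : ∀ k, NB 1 (F k) := fun k => by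
    refine ⟨_, rfl, fun n => ?_⟩
    rw [cf_val]
    refine norm_cfc_le zero_le_one fun y _ => ?_
    rw [Real.norm_eq_abs, abs_of_nonneg (gk_nonneg t k y)]
    exact gk_le_one t k y
  have hdiff : ∀ j k, j ≤ k → nrm (F k - F j) ≤ (tr (F k)).re - (tr (F j)).re := by
    intro j k hjk
    have e : F k - F j = mkM U (cf (gk t k) (gk_bdd t k) x - cf (gk t j) (gk_bdd t j) x) := by
      rw [map_sub]
    rw [← Complex.sub_re, ← tr_sub, e]
    have hv : ∀ n, (cf (gk t k) (gk_bdd t k) x - cf (gk t j) (gk_bdd t j) x).1 n =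
        cfc (R := ℝ) (p := IsSelfAdjoint) (fun y => gk t k y - gk t j y) (x.1 n) := by
      intro n
      rw [sub_val, cf_val, cf_val]
      exact (cfc_sub (R := ℝ) (p := IsSelfAdjoint) (gk t k) (gk t j) (x.1 n)
        (gk_cont t k).continuousOn (gk_cont t j).continuousOn).symm
    apply nrm_le_tr
    · intro n
      rw [hv]
      exact cfc_nonneg fun y _ => sub_nonneg.2 (gk_mono ht hjk y)
    · intro n
      rw [hv]
      apply cfc_le_one
      intro y _
      linarith [gk_nonneg t j y, gk_le_one t k y]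
  -- a convergent subsequence
  have hmono : Monotone fun k => (tr (F k)).re := by
    intro j k hjk
    have h1 := hdiff j k hjk
    have h2 := nrm_nonneg (F k - F j)
    show (tr (F j)).re ≤ (tr (F k)).re
    linarith
  have hbd : BddAbove (Set.range fun k => (tr (F k)).re) := by
    refine ⟨1, ?_⟩
    rintro _ ⟨k, rfl⟩
    refine le_trans ?_ (tr_one_le (ι := ι) (U := U))
    rw [← map_one (mkM U)]
    apply tr_mono
    intro n
    rw [one_val, cf_val]
    exact cfc_le_one _ _ fun y _ => gk_le_one t k y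
  have hlim := tendsto_atTop_ciSup hmono hbd
  set L : ℝ := ⨆ k, (tr (F k)).re with hL
  have hleL : ∀ k, (tr (F k)).re ≤ L := fun k => le_ciSup hbd k
  obtain ⟨φ, hφ, hφL⟩ := Filter.extraction_forall_of_eventually
    (P := fun n k => L - (1 / 16) ^ n < (tr (F k)).re) (fun n => by
      apply hlim.eventually_const_lt
      have : (0 : ℝ) < (1 / 16) ^ n := by positivity
      linarith)
  obtain ⟨f, hfNB, hf⟩ := hCom ι U hU (fun k => F (φ k)) 1 (fun k => hNB (φ k)) (fun k => by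
    refine (hdiff _ _ (hφ.monotone (Nat.le_succ k))).trans ?_
    have h1 := hleL (φ (k + 1))
    have h2 : L - (1 / 16) ^ k < (tr (F (φ k))).re := hφL k
    linarith)
  -- properties of the limit
  have hfD : f ∈ D := by
    apply hD.closed
    intro ε hε
    obtain ⟨k, hk⟩ := (hf.eventually_lt_const hε).exists
    exact ⟨F (φ k), hFD _, by rw [nrm_sub_comm]; exact hk⟩
  have hfF : ∀ k, f * F k = F k := by
    intro k
    apply eq_of_lim (K := 1) hf
    filter_upwards [eventually_gt_atTop k] with j hj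
    have hj' : k < φ j := hj.trans_le (hφ.id_le j)
    have e : f * F k - F k = (f - F (φ j)) * F k := by
      rw [sub_mul, hFF k (φ j) hj']
    rw [e, nrm_sub_comm]
    refine (nrm_mul_le' (hNB k) _).trans (le_of_eq ?_)
    rw [one_pow, nrm_sub_comm]
  have hfs : star f = f := by
    apply eq_of_lim (K := 4) hf
    filter_upwards with j
    have e : star f - f = (F (φ j) - f) - star (F (φ j) - f) := by
      rw [star_sub, hFs]
      abel
    rw [e]
    refine (nrm_sub_le _ _).trans (le_of_eq ?_)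
    rw [nrm_star]
    ring
  have hff : f * f = f := by
    apply eq_of_lim (K := 4) hf
    filter_upwards with j
    have e : f * f - f = (F (φ j) - f) - f * (F (φ j) - f) := by
      rw [mul_sub, hfF]
      abel
    rw [e]
    refine (nrm_sub_le _ _).trans ?_
    have := nrm_mul_le hfNB (F (φ j) - f)
    linarith
  have hf0 : f ≠ 0 := by
    intro h
    have h1 : F 0 = 0 := by rw [← hfF 0, h, zero_mul]
    have h2 : (tr (mkM U x)).re ≤
        (tr (mkM U (((2 * t : ℝ) : ℂ) • 1 + ((C ^ 2 : ℝ) : ℂ) • cf (gk t 0) (gk_bdd t 0) x))).re := by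
      apply tr_mono
      intro n
      rw [add_val, smul_val, smul_val, one_val, cf_val]
      exact upper ht (hsa n) (hxC n)
    rw [map_add, mkM_smul, mkM_smul, map_one, tr_add, tr_smul, tr_smul] at h2
    have h3 : mkM U (cf (gk t 0) (gk_bdd t 0) x) = 0 := h1
    rw [h3, tr_zero, mul_zero, add_zero, Complex.re_ofReal_mul, htr] at h2
    have h4 := tr_one_le (ι := ι) (U := U)
    nlinarith
  -- commutation
  have hcomm : ∀ Y : MUlt ι U, (∀ k, F k * Y = Y * F k) → f * Y = Y * f := by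
    intro Y hY
    apply commute_of_closed
    intro ε hε
    obtain ⟨k, hk⟩ := (hf.eventually_lt_const hε).exists
    exact ⟨F (φ k), hY _, by rw [nrm_sub_comm]; exact hk⟩
  have hfX : f * mkM U x = mkM U x * f := hcomm _ fun k => (cf_id_comm _ hsa).symm
  have hfH : f * H = H * f := hcomm _ fun k => cf_comm _ _ _
  have hfG : f * G = G * f := hcomm _ fun k => cf_comm _ _ _
  have hXH : mkM U x * H = H * mkM U x := cf_id_comm _ hsa
  have hXG : mkM U x * G = G * mkM U x := cf_id_comm _ hsa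
  have hGG : G * G = H := cf_mul (g0_cont ht) (g0_cont ht) _ _ _ (g0_mul ht) x
  have hGs : star G = G := cf_star _ _ _
  have hXHF : ∀ k, mkM U x * (H * F k) = F k := by
    intro k
    have hb : ∃ B : ℝ, ∀ y, |h0 t y * gk t k y| ≤ B := by
      obtain ⟨B, hB⟩ := h0_bdd ht
      refine ⟨B * 1, fun y => ?_⟩
      rw [abs_mul]
      refine mul_le_mul (hB y) ?_ (abs_nonneg _) ((abs_nonneg _).trans (hB y))
      rw [abs_of_nonneg (gk_nonneg t k y)]
      exact gk_le_one t k y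
    have e1 : H * F k = mkM U (cf (fun y => h0 t y * gk t k y) hb x) :=
      cf_mul (h0_cont ht) (gk_cont t k) _ _ _ (fun y => rfl) x
    rw [e1]
    exact cf_id_mul ((h0_cont ht).mul (gk_cont t k)) _ _ (h0_mul ht k) hsa
  obtain ⟨K, hK, hXHK⟩ := exists_NB (mkM U x * H)
  have hXHf : mkM U x * (H * f) = f := by
    apply eq_of_lim (K := 2 + 2 * K ^ 2) hf
    filter_upwards with j
    have e : mkM U x * (H * f) - f = (F (φ j) - f) - (mkM U x * H) * (F (φ j) - f) := by
      rw [mul_sub, mul_assoc, hXHF, mul_assoc]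
      abel
    rw [e]
    refine (nrm_sub_le _ _).trans ?_
    have := nrm_mul_le hXHK (F (φ j) - f)
    linarith
  have hmain : star (mkM U α * (G * f)) * (mkM U α * (G * f)) = f := by
    calc star (mkM U α * (G * f)) * (mkM U α * (G * f))
        = f * G * (star (mkM U α) * mkM U α) * (G * f) := by
          rw [star_mul, star_mul, hfs, hGs]
          simp only [mul_assoc]
      _ = f * (mkM U x * (G * G * f)) := by
          rw [← hX]
          calc f * G * mkM U x * (G * f) = f * (G * mkM U x) * (G * f) := by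
                simp only [mul_assoc]
            _ = f * (mkM U x * G) * (G * f) := by rw [hXG]
            _ = _ := by simp only [mul_assoc]
      _ = f := by rw [hGG, hXHf, hff]
  refine ⟨G * f, hD.mul _ hGD _ hfD, H * f, hD.mul _ hHD _ hfD, ?_, ?_, ?_, ?_⟩
  · rw [hmain]
    exact ⟨hfs, hff⟩
  · rw [hmain]
    exact hf0
  · rw [hmain, ← hX]
    calc f = mkM U x * (H * f) := hXHf.symm
      _ = H * (mkM U x * f) := by rw [← mul_assoc, hXH, mul_assoc]
      _ = H * (f * mkM U x) := by rw [hfX]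
      _ = H * f * mkM U x := by rw [mul_assoc]
  · rw [hmain, ← hX, hXHf]

end Helper53.NG
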