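import Pool.Agent.Helper53.NG.StA

/-!
# Project NG: positive and negative part
-/

namespace Helper53.NG

open Helper51.MU Helper61.IE Filter Topology
open scoped Matrix.Norms.L2Operator MatrixOrder ComplexOrder

attribute [local irreducible] Helper51.MU.instRingMUlt

namespace POS

variable {ι : ℕ → Type} [∀ n, Fintype (ι n)] [∀ n, DecidableEq (ι n)] {U : Ultrafilter ℕ}

/-- a real number in the spectrum of a matrix is bounded by the norm -/
theorem abs_le_norm {n : Type} [Fintype n] [DecidableEq n] {a : Matrix n n ℂ} {x : ℝ}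
    (hx : x ∈ spectrum ℝ a) : |x| ≤ ‖a‖ := by
  have h6 := spectrum.norm_le_norm_mul_of_mem hx
  rw [Real.norm_eq_abs] at h6
  rcases isEmpty_or_nonempty n with h | h
  · have h7 : ‖(1 : Matrix n n ℂ)‖ = 0 := by
      have : (1 : Matrix n n ℂ) = 0 := Subsingleton.elim _ _
      rw [this, norm_zero]
    rw [h7, mul_zero] at h6
    exact h6.trans (norm_nonneg _)
  · have h7 : ‖(1 : Matrix n n ℂ)‖ = 1 := CStarRing.norm_one
    rwa [h7, mul_one] at h6

/-- the continuous functional calculus of a bounded sequence -/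
theorem exists_cfc (α : BSeq ι) (g : ℝ → ℝ) (hg : ∀ C : ℝ, ∃ K : ℝ, 0 ≤ K ∧ ∀ x, |x| ≤ C → |g x| ≤ K) :
    ∃ β : BSeq ι, ∀ n, β.1 n = cfc (R := ℝ) (p := IsSelfAdjoint) g (α.1 n) := by
  obtain ⟨C, hC⟩ := α.2
  obtain ⟨K, hK, hKg⟩ := hg C
  refine ⟨⟨fun n => cfc (R := ℝ) (p := IsSelfAdjoint) g (α.1 n), K, fun n => ?_⟩, fun n => rfl⟩
  refine norm_cfc_le hK fun x hx => ?_
  rw [Real.norm_eq_abs]
  exact hKg x ((abs_le_norm hx).trans (hC n))

end POS

theorem pPOS : StPos := by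
  intro hC ι _ _ U D hD a haD hsa
  obtain ⟨x, hx⟩ := mkM_surjective a
  set α : BSeq ι := ((1 / 2 : ℂ)) • (x + star x) with hα
  have hαa : mkM U α = a := by
    rw [hα, mkM_smul, map_add, ← star_mk, hx, hsa, ← two_smul ℂ a, smul_smul]
    norm_num
  have hαsa : ∀ n, IsSelfAdjoint (α.1 n) := by
    intro n
    rw [hα, smul_val, add_val, star_val]
    show star _ = _
    rw [star_smul, star_add, Matrix.star_eq_conjTranspose, Matrix.star_eq_conjTranspose,
      Matrix.conjTranspose_conjTranspose, add_comm]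
    congr 1
    simp
  set g1 : ℝ → ℝ := fun t => Real.sqrt (max t 0) with hg1
  set g2 : ℝ → ℝ := fun t => Real.sqrt (max (-t) 0) with hg2
  have hg1c : Continuous g1 := by
    rw [hg1]; fun_prop
  have hg2c : Continuous g2 := by
    rw [hg2]; fun_prop
  have hb : ∀ g : ℝ → ℝ, Continuous g → ∀ C : ℝ, ∃ K : ℝ, 0 ≤ K ∧ ∀ x, |x| ≤ C → |g x| ≤ K := by
    intro g hg C
    obtain ⟨K, hK⟩ := (isCompact_Icc (a := -C) (b := C)).exists_bound_of_continuousOn hg.continuousOn
    refine ⟨max K 0, le_max_right _ _, fun x hx => ?_⟩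
    have := hK x (abs_le.1 hx)
    rw [Real.norm_eq_abs] at this
    exact this.trans (le_max_left _ _)
  obtain ⟨β, hβ⟩ := POS.exists_cfc α g1 (hb g1 hg1c)
  obtain ⟨γ, hγ⟩ := POS.exists_cfc α g2 (hb g2 hg2c)
  have hβD : mkM U β ∈ D := hC ι U D hD α β g1 hg1c hαsa (by rw [hαa]; exact haD) hβ
  have hγD : mkM U γ ∈ D := hC ι U D hD α γ g2 hg2c hαsa (by rw [hαa]; exact haD) hγ
  have hsβ : star β = β := by
    refine Subtype.ext (funext fun n => ?_)
    rw [star_val, hβ]
    exact cfc_predicate (R := ℝ) (p := IsSelfAdjoint) g1 (α.1 n)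
  have hsγ : star γ = γ := by
    refine Subtype.ext (funext fun n => ?_)
    rw [star_val, hγ]
    exact cfc_predicate (R := ℝ) (p := IsSelfAdjoint) g2 (α.1 n)
  have h1 : ∀ t : ℝ, g1 t * g1 t = max t 0 := fun t => Real.mul_self_sqrt (le_max_right _ _)
  have h2 : ∀ t : ℝ, g2 t * g2 t = max (-t) 0 := fun t => Real.mul_self_sqrt (le_max_right _ _)
  have hββ : ∀ n, (β * β).1 n = cfc (R := ℝ) (p := IsSelfAdjoint) (fun t => g1 t * g1 t) (α.1 n) := by
    intro n
    rw [mul_val, hβ, cfc_mul (R := ℝ) (p := IsSelfAdjoint) g1 g1 (α.1 n) hg1c.continuousOn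
      hg1c.continuousOn]
  have hγγ : ∀ n, (γ * γ).1 n = cfc (R := ℝ) (p := IsSelfAdjoint) (fun t => g2 t * g2 t) (α.1 n) := by
    intro n
    rw [mul_val, hγ, cfc_mul (R := ℝ) (p := IsSelfAdjoint) g2 g2 (α.1 n) hg2c.continuousOn
      hg2c.continuousOn]
  refine ⟨mkM U β, hβD, mkM U γ, hγD, ?_, ?_, ?_, ?_⟩
  · rw [star_mk, hsβ]
  · rw [star_mk, hsγ]
  · rw [← map_mul, ← map_mul, ← map_sub, ← hαa]
    congr 1
    refine Subtype.ext (funext fun n => ?_)
    rw [sub_val, hββ, hγγ, ← cfc_sub (R := ℝ) (p := IsSelfAdjoint) (fun t => g1 t * g1 t)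
      (fun t => g2 t * g2 t) (α.1 n) (by fun_prop) (by fun_prop)]
    have : (fun t : ℝ => g1 t * g1 t - g2 t * g2 t) = id := by
      funext t
      rw [h1, h2]
      rcases le_total t 0 with h | h
      · rw [max_eq_right h, max_eq_left (by linarith)]; simp
      · rw [max_eq_left h, max_eq_right (by linarith)]; simp
    rw [this, cfc_id (R := ℝ) (p := IsSelfAdjoint) (α.1 n) (hαsa n)]
  · rw [← map_mul, ← map_mul, ← map_mul, ← map_zero (mkM U)]
    congr 1
    refine Subtype.ext (funext fun n => ?_)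
    rw [mul_val, hββ, hγγ, ← cfc_mul (R := ℝ) (p := IsSelfAdjoint) (fun t => g1 t * g1 t)
      (fun t => g2 t * g2 t) (α.1 n) (by fun_prop) (by fun_prop), zero_val]
    have : (fun t : ℝ => g1 t * g1 t * (g2 t * g2 t)) = fun _ => 0 := by
      funext t
      rw [h1, h2]
      rcases le_total t 0 with h | h
      · rw [max_eq_right h]; simp
      · rw [max_eq_right (show -t ≤ 0 by linarith)]; simp
    rw [this]
    exact cfc_const_zero ℝ (α.1 n)

end Helper53.NG
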