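import Pool.Agent.Helper53.NG.StA

namespace Helper53.NG

attribute [local irreducible] Helper51.MU.instRingMUlt

open Helper51.MU Helper61.IE Filter Topology
open scoped Matrix.Norms.L2Operator MatrixOrder ComplexOrder

namespace PR1

private theorem closed_aux {ι : ℕ → Type} [∀ n, Fintype (ι n)] [∀ n, DecidableEq (ι n)]
    {U : Ultrafilter ℕ} (a w : MUlt ι U)
    (h : ∀ ε > 0, ∃ y : MUlt ι U, a * y = 0 ∧ nrm (w - y) < ε) : a * w = 0 := by
  obtain ⟨C, hC, ha⟩ := exists_NB a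
  apply nrm_eq_zero.1
  apply le_antisymm _ (nrm_nonneg _)
  by_contra h1
  push Not at h1
  obtain ⟨y, hy, hy2⟩ := h (nrm (a * w) / C ^ 2) (by positivity)
  have e1 : a * w = a * (w - y) := by rw [mul_sub, hy, sub_zero]
  have h2 := nrm_mul_le ha (w - y)
  rw [← e1] at h2
  have h3 : C ^ 2 * nrm (w - y) < C ^ 2 * (nrm (a * w) / C ^ 2) :=
    mul_lt_mul_of_pos_left hy2 (by positivity)
  rw [mul_div_cancel₀ _ (by positivity)] at h3
  linarith

end PR1

theorem pPR1 : StPR1 := by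
  intro hI ι _ _ U hU D hD hz x hx y hy h
  obtain ⟨q, hqI, -, hqz, hqy⟩ := hI ι U hU D {w | w ∈ D ∧ ∀ d ∈ D, x * d * w = 0} hD
    (fun w hw => hw.1) ⟨hD.zero, fun d _ => mul_zero _⟩
    (fun a ha b hb => ⟨hD.add _ ha.1 _ hb.1, fun d hd => by
      rw [mul_add, ha.2 d hd, hb.2 d hd, add_zero]⟩)
    (fun a ha d hd => ⟨⟨hD.mul _ hd _ ha.1, fun e he => by
      rw [← mul_assoc, mul_assoc x e d]
      exact ha.2 _ (hD.mul _ he _ hd)⟩, ⟨hD.mul _ ha.1 _ hd, fun e he => by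
      rw [← mul_assoc, ha.2 e he, zero_mul]⟩⟩)
    (fun w hw hcl => ⟨hw, fun d hd => PR1.closed_aux (x * d) w fun ε hε => by
      obtain ⟨v, hv, hv2⟩ := hcl ε hε
      exact ⟨v, hv.2 d hd, hv2⟩⟩)
  obtain ⟨c, hc⟩ := hz q hqz
  have hy' : y * q = y := hqy y ⟨hy, h⟩
  by_cases hc0 : c = 0
  · right
    rw [← hy', hc, hc0, zero_smul, mul_zero]
  · left
    have h1 := hqI.2 1 hD.one
    rw [mul_one, hc, mul_smul_comm, mul_one] at h1
    have h2 := congrArg (fun z => c⁻¹ • z) h1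
    simp only [smul_zero] at h2
    rwa [smul_smul, inv_mul_cancel₀ hc0, one_smul] at h2

end Helper53.NG
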