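import Pool.Agent.Helper53.NG.StA

/-!
# Project NG, module PR2: prime implies trivial centre
-/

namespace Helper53.NG

open Helper51.MU Helper61.IE Filter Topology
open scoped Matrix.Norms.L2Operator MatrixOrder ComplexOrder

attribute [local irreducible] Helper51.MU.instRingMUlt

namespace PR2

variable {ι : ℕ → Type} [∀ n, Fintype (ι n)] [∀ n, DecidableEq (ι n)] {U : Ultrafilter ℕ}

/-- the centre of a von Neumann algebra is a von Neumann algebra -/
lemma isVN_zc {D : Set (MUlt ι U)} (hD : IsVN D) : IsVN (Zc D) where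
  one := ⟨hD.one, fun d _ => by rw [one_mul, mul_one]⟩
  add x hx y hy := ⟨hD.add x hx.1 y hy.1, fun d hd => by
    rw [add_mul, mul_add, hx.2 d hd, hy.2 d hd]⟩
  mul x hx y hy := ⟨hD.mul x hx.1 y hy.1, fun d hd => by
    rw [mul_assoc, hy.2 d hd, ← mul_assoc, hx.2 d hd, mul_assoc]⟩
  smul c x hx := ⟨hD.smul c x hx.1, fun d hd => by
    rw [smul_mul_assoc, mul_smul_comm, hx.2 d hd]⟩
  star x hx := ⟨hD.star x hx.1, fun d hd => by
    have h := congrArg Star.star (hx.2 (Star.star d) (hD.star d hd))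
    rw [star_mul, star_mul, star_star] at h
    exact h.symm⟩
  closed x hx := by
    refine ⟨hD.closed x fun ε hε => ?_, fun d hd => commute_of_closed fun ε hε => ?_⟩
    · obtain ⟨y, hy, h⟩ := hx ε hε
      exact ⟨y, hy.1, h⟩
    · obtain ⟨y, hy, h⟩ := hx ε hε
      exact ⟨y, hy.2 d hd, h⟩

lemma eq_zero_of_star_mul {y : MUlt ι U} (h : star y * y = 0) : y = 0 := by
  have h1 : nrm y = 0 := by
    unfold nrm
    rw [h, tr_zero, Complex.zero_re]
  exact nrm_eq_zero.1 h1

lemma nrm_self {b : MUlt ι U} (hb : star b = b) : ((nrm b : ℝ) : ℂ) = tr (b * b) := by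
  have := tr_star_mul b
  rw [hb] at this
  exact this.symm

/-- the selfadjoint case -/
lemma selfAdj (hP : POS) (hne : ∀ᶠ n in (U : Filter ℕ), Nonempty (ι n)) {D : Set (MUlt ι U)}
    (hD : IsVN D) (hpr : Prime D) {z : MUlt ι U} (hz : z ∈ Zc D) (hs : star z = z) :
    z = tr z • (1 : MUlt ι U) := by
  have hZ := isVN_zc hD
  have hreal : star (tr z) = tr z := by rw [← tr_star, hs]
  have ha : z - tr z • (1 : MUlt ι U) ∈ Zc D := hZ.sub hz (hZ.smul _ _ hZ.one)
  have has : star (z - tr z • (1 : MUlt ι U)) = z - tr z • (1 : MUlt ι U) := by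
    rw [star_sub, star_smul', star_one, hs]
    rw [RCLike.star_def] at hreal
    rw [hreal]
  obtain ⟨b, hb, c, hc, hbs, hcs, habc, hbc⟩ := hP ι U (Zc D) hZ _ ha has
  have htr : tr (b * b) = tr (c * c) := by
    have h := congrArg tr habc
    rw [tr_sub, tr_smul, tr_one hne, mul_one, sub_self, tr_sub] at h
    exact (sub_eq_zero.1 h.symm)
  have hn : nrm b = nrm c := by
    have h := htr
    rw [← nrm_self hbs, ← nrm_self hcs] at h
    exact_mod_cast h
  have hbb : b * b ∈ Zc D := hZ.mul b hb b hb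
  have hcc : c * c ∈ Zc D := hZ.mul c hc c hc
  have hzero : ∀ d ∈ D, (b * b) * d * (c * c) = 0 := by
    intro d hd
    rw [hbb.2 d hd, mul_assoc, hbc, mul_zero]
  have key : b = 0 ∧ c = 0 := by
    rcases hpr _ hbb.1 _ hcc.1 hzero with h | h
    · have hb0 : b = 0 := eq_zero_of_star_mul (by rw [hbs, h])
      refine ⟨hb0, nrm_eq_zero.1 ?_⟩
      rw [← hn, hb0, nrm_zero]
    · have hc0 : c = 0 := eq_zero_of_star_mul (by rw [hcs, h])
      refine ⟨nrm_eq_zero.1 ?_, hc0⟩
      rw [hn, hc0, nrm_zero]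
  rw [key.1, key.2, mul_zero, sub_zero] at habc
  exact sub_eq_zero.1 habc

end PR2

theorem pPR2 : StPR2 := by
  intro hP ι _ _ U hne D hD hpr z hz
  have hZ := PR2.isVN_zc hD
  have hzs := hZ.star z hz
  -- real part and imaginary part (times `2`)
  have h1 : z + star z ∈ Zc D := hZ.add _ hz _ hzs
  have h2 : (Complex.I) • (z - star z) ∈ Zc D := hZ.smul _ _ (hZ.sub hz hzs)
  have s1 : star (z + star z) = z + star z := by
    rw [star_add, star_star, add_comm]
  have s2 : star ((Complex.I) • (z - star z)) = (Complex.I) • (z - star z) := by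
    rw [star_smul', star_sub, star_star, Complex.conj_I, neg_smul, ← smul_neg, neg_sub]
  have e1 := PR2.selfAdj hP hne hD hpr h1 s1
  have e2 := PR2.selfAdj hP hne hD hpr h2 s2
  refine ⟨(1 / 2 : ℂ) * tr (z + star z) + (-(Complex.I) / 2) *
    tr ((Complex.I) • (z - star z)), ?_⟩
  rw [add_smul, mul_smul, mul_smul, ← e1, ← e2, smul_smul]
  have : -Complex.I / 2 * Complex.I = 1 / 2 := by
    rw [div_mul_eq_mul_div, neg_mul, Complex.I_mul_I, neg_neg]
  rw [this, ← smul_add]
  have h3 : z + star z + (z - star z) = (2 : ℂ) • z := by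
    rw [two_smul]; abel
  rw [h3, smul_smul]
  norm_num

end Helper53.NG
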