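import Pool.Agent.Helper53.NG.StG

set_option autoImplicit false

/-!
# Project NG, module QUO: finite quotients
-/

namespace Helper53.NG

open Polynomial

namespace QUO

section

variable (p : ℕ) [Fact p.Prime]

/-- The finite ring. -/
abbrev An (n : ℕ) : Type := (ZMod p)[X] ⧸ Ideal.span {(X : (ZMod p)[X]) ^ n}

instance finAn (n : ℕ) : Finite (An p n) := by
  have h : Module.Finite (ZMod p) (An p n) := (monic_X_pow (R := ZMod p) n).finite_quotient
  exact Module.finite_of_finite (ZMod p)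

/-- The reduction. -/
noncomputable abbrev red (n : ℕ) : (ZMod p)[X] →+* An p n := Ideal.Quotient.mk _

open Classical in
/-- The truncated functional. -/
noncomputable def lamn (n : ℕ) (f : (ZMod p)[X]) : ZMod p :=
  ∑ i ∈ Finset.range n, if ∃ k, i = 2 ^ k then f.coeff i else 0

variable {p}

theorem red_eq {n : ℕ} {f g : (ZMod p)[X]} (h : red p n f = red p n g) (i : ℕ) (hi : i < n) :
    f.coeff i = g.coeff i := by
  have h1 := Ideal.mem_span_singleton.1 (Ideal.Quotient.eq.1 h)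
  have h2 := (X_pow_dvd_iff.1 h1) i hi
  rw [coeff_sub] at h2
  exact sub_eq_zero.1 h2

theorem red_ne {n : ℕ} {f g : (ZMod p)[X]} (h : f ≠ g) (hn : (f - g).natDegree < n) :
    red p n f ≠ red p n g := by
  intro h1
  apply h
  ext i
  by_cases hi : i < n
  · exact red_eq h1 i hi
  · have h2 : (f - g).coeff i = 0 := coeff_eq_zero_of_natDegree_lt (by omega)
    rw [coeff_sub] at h2
    exact sub_eq_zero.1 h2

theorem lamn_congr {n : ℕ} {f g : (ZMod p)[X]} (h : red p n f = red p n g) :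
    lamn p n f = lamn p n g := by
  unfold lamn
  refine Finset.sum_congr rfl fun i hi => ?_
  rw [red_eq h i (Finset.mem_range.1 hi)]

theorem lamn_add (n : ℕ) (f g : (ZMod p)[X]) : lamn p n (f + g) = lamn p n f + lamn p n g := by
  unfold lamn
  rw [← Finset.sum_add_distrib]
  refine Finset.sum_congr rfl fun i _ => ?_
  split_ifs
  · rw [coeff_add]
  · rw [add_zero]

theorem lamn_zero (n : ℕ) : lamn p n (0 : (ZMod p)[X]) = 0 := by
  unfold lamn
  refine Finset.sum_eq_zero fun i _ => ?_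
  split_ifs <;> simp

theorem lamn_large {n : ℕ} (f : (ZMod p)[X]) (h : f.natDegree < n) : lamn p n f = lam p f := by
  classical
  unfold lamn lam
  rw [sum_over_range' f (by intro m; split_ifs <;> rfl) n h]

variable (p) in
/-- The character of the finite ring. -/
noncomputable def chin (n : ℕ) (a : An p n) : ℂ :=
  ZMod.stdAddChar (lamn p n (Function.surjInv (Ideal.Quotient.mk_surjective) a))

theorem chin_red (n : ℕ) (f : (ZMod p)[X]) : chin p n (red p n f) = ZMod.stdAddChar (lamn p n f) := by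
  unfold chin
  rw [lamn_congr (Function.surjInv_eq Ideal.Quotient.mk_surjective (red p n f))]

theorem chin_add (n : ℕ) (a b : An p n) : chin p n (a + b) = chin p n a * chin p n b := by
  obtain ⟨f, rfl⟩ := Ideal.Quotient.mk_surjective a
  obtain ⟨g, rfl⟩ := Ideal.Quotient.mk_surjective b
  have h1 := chin_red (p := p) n (f + g)
  have h2 := chin_red (p := p) n f
  have h3 := chin_red (p := p) n g
  rw [map_add, lamn_add, AddChar.map_add_eq_mul] at h1
  rw [h1, h2, h3]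

theorem chin_zero (n : ℕ) : chin p n 0 = 1 := by
  have h1 := chin_red (p := p) n 0
  rw [map_zero, lamn_zero, AddChar.map_zero_eq_one] at h1
  exact h1

theorem chin_norm (n : ℕ) (a : An p n) : ‖chin p n a‖ = 1 := by
  unfold chin
  rw [ZMod.stdAddChar_apply]
  exact Circle.norm_coe _

/-- The reduction of matrices. -/
noncomputable def redM (n : ℕ) : (Matrix Ix Ix (ZMod p)[X])ˣ →* (Matrix Ix Ix (An p n))ˣ :=
  Units.map ((red p n).mapMatrix (m := Ix)).toMonoidHom

noncomputable def red4 (n : ℕ) :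
    (Matrix (Fin 4) (Fin 4) (ZMod p)[X])ˣ →* (Matrix (Fin 4) (Fin 4) (An p n))ˣ :=
  Units.map ((red p n).mapMatrix (m := Fin 4)).toMonoidHom

theorem redM_apply (n : ℕ) (g : (Matrix Ix Ix (ZMod p)[X])ˣ) (i j : Ix) :
    (redM n g : Matrix Ix Ix (An p n)) i j = red p n ((g : Matrix Ix Ix (ZMod p)[X]) i j) := rfl

theorem red4_apply (n : ℕ) (g : (Matrix (Fin 4) (Fin 4) (ZMod p)[X])ˣ) (i j : Fin 4) :
    (red4 n g : Matrix (Fin 4) (Fin 4) (An p n)) i j =
      red p n ((g : Matrix (Fin 4) (Fin 4) (ZMod p)[X]) i j) := rfl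

theorem red4_mem (n : ℕ) {σ : (Matrix (Fin 4) (Fin 4) (ZMod p)[X])ˣ} (h : σ ∈ SS p) :
    red4 n σ ∈ S3 (An p n) := by
  obtain ⟨h1, h2⟩ := SS_le p h
  refine ⟨fun i => ?_, fun i => ?_⟩
  · rw [red4_apply, h1, Matrix.one_apply, Matrix.one_apply]
    split_ifs
    · exact map_one _
    · exact map_zero _
  · rw [red4_apply, h2, Matrix.one_apply, Matrix.one_apply]
    split_ifs
    · exact map_one _
    · exact map_zero _

theorem red_dg (n : ℕ) (σ : (Matrix (Fin 4) (Fin 4) (ZMod p)[X])ˣ) (i j : Ix) :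
    red p n (dg (σ : Matrix (Fin 4) (Fin 4) (ZMod p)[X]) i j) =
      dg (red4 n σ : Matrix (Fin 4) (Fin 4) (An p n)) i j := by
  cases i <;> cases j <;> first | exact map_one _ | exact map_zero _ | rfl

theorem redM_BF (n : ℕ) {g : (Matrix Ix Ix (ZMod p)[X])ˣ}
    (h : BF (SS p) (g : Matrix Ix Ix (ZMod p)[X])) :
    BF (S3 (An p n)) (redM n g : Matrix Ix Ix (An p n)) := by
  obtain ⟨σ, hσ, h1⟩ := h
  refine ⟨red4 n σ, red4_mem n hσ, fun i j hij => ?_⟩
  rw [redM_apply, h1 i j hij, red_dg]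

theorem redM_PG (n : ℕ) {g : (Matrix Ix Ix (ZMod p)[X])ˣ} (h : g ∈ PG (SS p)) :
    redM n g ∈ PG (S3 (An p n)) := by
  obtain ⟨h1, h2⟩ := h
  refine ⟨redM_BF n h1, ?_⟩
  rw [← map_inv]
  exact redM_BF n h2

/-- The finite group. -/
abbrev Hn (p : ℕ) [Fact p.Prime] (n : ℕ) : Type := GG (S3 (An p n)) le_rfl

/-- The reduction `G → H_n`. -/
noncomputable def rho (n : ℕ) : GP p →* Hn p n :=
  (((redM n).prodMap (redM n)).comp (GP p).subtype).codRestrict (GG (S3 (An p n)) le_rfl) (by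
    intro g
    obtain ⟨g, g1, g2, e1, e2, e3, e4⟩ := g
    refine ⟨redM_PG n g1, redM_PG n g2, ?_, ?_, ?_, ?_⟩
    · exact congrArg (red p n) e1
    · exact congrArg (red p n) e2
    · exact congrArg (red p n) e3
    · exact congrArg (red p n) e4)

theorem rho_fst (n : ℕ) (g : GP p) : (rho n g).1.1 = redM n g.1.1 := rfl

theorem rho_snd (n : ℕ) (g : GP p) : (rho n g).1.2 = redM n g.1.2 := rfl

end

theorem zt_o {A : Type} [CommRing A] (r d : A) : zt r d .o (.w 3) = r := by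
  simp [zt, Matrix.single_apply, Matrix.one_apply]

theorem zt_v {A : Type} [CommRing A] (r d : A) : zt r d (.v 3) (.w 3) = d := by
  simp [zt, Matrix.single_apply, Matrix.one_apply]

theorem zt_map {A B : Type} [CommRing A] [CommRing B] (f : A →+* B) (r d : A) (i j : Ix) :
    f (zt r d i j) = zt (f r) (f d) i j := by
  simp only [zt, Matrix.add_apply, Matrix.single_apply, Matrix.one_apply, map_add]
  congr 1
  · congr 1
    · split_ifs <;> simp
    · split_ifs <;> simp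
  · split_ifs <;> simp

/-- `InC` in terms of entries. -/
theorem inC_iff {A : Type} [CommRing A] (x : (Matrix Ix Ix A)ˣ × (Matrix Ix Ix A)ˣ) :
    InC x ↔ (∀ i j, (x.1 : Matrix Ix Ix A) i j =
      zt ((x.1 : Matrix Ix Ix A) .o (.w 3)) ((x.1 : Matrix Ix Ix A) (.v 3) (.w 3)) i j) ∧
      ∀ i j, (x.2 : Matrix Ix Ix A) i j =
      zt ((x.2 : Matrix Ix Ix A) .o (.w 3)) ((x.1 : Matrix Ix Ix A) (.v 3) (.w 3)) i j := by
  constructor
  · rintro ⟨r, r', d, h1, h2⟩
    rw [h1, h2, zt_o, zt_v, zt_o]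
    exact ⟨fun _ _ => rfl, fun _ _ => rfl⟩
  · rintro ⟨h1, h2⟩
    exact ⟨_, _, _, Matrix.ext h1, Matrix.ext h2⟩

section

variable {p : ℕ} [Fact p.Prime]

theorem inC_red (n : ℕ) (x : (Matrix Ix Ix (ZMod p)[X])ˣ × (Matrix Ix Ix (ZMod p)[X])ˣ)
    (h : InC x) : InC (redM n x.1, redM n x.2) := by
  rw [inC_iff] at h ⊢
  obtain ⟨h1, h2⟩ := h
  refine ⟨fun i j => ?_, fun i j => ?_⟩
  · simp only [redM_apply]
    rw [← zt_map, ← h1 i j]
  · simp only [redM_apply]
    rw [← zt_map, ← h2 i j]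

theorem not_inC_red (x : (Matrix Ix Ix (ZMod p)[X])ˣ × (Matrix Ix Ix (ZMod p)[X])ˣ)
    (h : ¬ InC x) : ∃ n₀, ∀ n, n₀ ≤ n → ¬ InC (redM n x.1, redM n x.2) := by
  rw [inC_iff, not_and_or] at h
  rcases h with h | h
  · push Not at h
    obtain ⟨i, j, hij⟩ := h
    refine ⟨((x.1 : Matrix Ix Ix (ZMod p)[X]) i j - zt ((x.1 : Matrix Ix Ix (ZMod p)[X]) .o (.w 3))
      ((x.1 : Matrix Ix Ix (ZMod p)[X]) (.v 3) (.w 3)) i j).natDegree + 1, fun n hn hC => ?_⟩
    rw [inC_iff] at hC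
    have h1 := hC.1 i j
    simp only [redM_apply] at h1
    rw [← zt_map] at h1
    exact red_ne hij (Nat.lt_of_succ_le hn) h1
  · push Not at h
    obtain ⟨i, j, hij⟩ := h
    refine ⟨((x.2 : Matrix Ix Ix (ZMod p)[X]) i j - zt ((x.2 : Matrix Ix Ix (ZMod p)[X]) .o (.w 3))
      ((x.1 : Matrix Ix Ix (ZMod p)[X]) (.v 3) (.w 3)) i j).natDegree + 1, fun n hn hC => ?_⟩
    rw [inC_iff] at hC
    have h1 := hC.2 i j
    simp only [redM_apply] at h1
    rw [← zt_map] at h1
    exact red_ne hij (Nat.lt_of_succ_le hn) h1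

end

end QUO

open QUO in
theorem pQUO : StQuo := by
  intro hPhi p _
  have hP := fun n => hPhi (An p n) (S3 (An p n)) le_rfl (chin p n) (chin_add n) (chin_zero n)
  refine ⟨fun n => Hn p n, fun n => inferInstance, fun n => inferInstance, fun n =>
    { carrier := {g | InC (g : (Matrix Ix Ix (An p n))ˣ × (Matrix Ix Ix (An p n))ˣ)}
      mul_mem' := fun {a b} ha hb => (hP n).2.2.1 _ _ ha hb
      one_mem' := (hP n).1
      inv_mem' := fun {a} ha => ((hP n).2.2.2.1 _ ha).1 },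
    fun n g => phi (chin p n) (g : (Matrix Ix Ix (An p n))ˣ × (Matrix Ix Ix (An p n))ˣ),
    fun n => rho n, fun n => ⟨?_, ?_, ?_, ?_, ?_⟩, ?_⟩
  · intro g h hh
    exact (hP n).2.2.2.2.1 _ g.2 _ hh
  · intro g hg
    exact if_neg hg
  · intro g hg
    have h1 : phi (chin p n) (g : (Matrix Ix Ix (An p n))ˣ × (Matrix Ix Ix (An p n))ˣ) = _ :=
      if_pos hg
    show ‖phi (chin p n) (g : (Matrix Ix Ix (An p n))ˣ × (Matrix Ix Ix (An p n))ˣ)‖ = 1
    rw [h1]
    exact chin_norm n _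
  · intro g hg h
    exact (hP n).2.2.2.2.2.1 _ _ hg
  · intro g h
    exact (hP n).2.2.2.2.2.2 _ g.2 _ h.2
  · intro g
    by_cases hg : InC (g : (Matrix Ix Ix (ZMod p)[X])ˣ × (Matrix Ix Ix (ZMod p)[X])ˣ)
    · refine ⟨((g : (Matrix Ix Ix (ZMod p)[X])ˣ × (Matrix Ix Ix (ZMod p)[X])ˣ).1.1 .o (.w 3) -
        (g : (Matrix Ix Ix (ZMod p)[X])ˣ × (Matrix Ix Ix (ZMod p)[X])ˣ).2.1 .o (.w 3)).natDegree + 1,
        fun n hn => ?_⟩
      have h1 : InC ((rho n g : Hn p n) : (Matrix Ix Ix (An p n))ˣ × (Matrix Ix Ix (An p n))ˣ) :=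
        inC_red n _ hg
      show phi (chin p n) ((rho n g : Hn p n) :
        (Matrix Ix Ix (An p n))ˣ × (Matrix Ix Ix (An p n))ˣ) = _
      unfold phi
      rw [if_pos h1, if_pos hg, rho_fst, rho_snd, redM_apply, redM_apply, ← map_sub, chin_red,
        lamn_large _ (Nat.lt_of_succ_le hn)]
      rfl
    · obtain ⟨n₀, h0⟩ := not_inC_red _ hg
      refine ⟨n₀, fun n hn => ?_⟩
      have h1 : ¬ InC ((rho n g : Hn p n) : (Matrix Ix Ix (An p n))ˣ × (Matrix Ix Ix (An p n))ˣ) :=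
        h0 n hn
      show phi (chin p n) ((rho n g : Hn p n) :
        (Matrix Ix Ix (An p n))ˣ × (Matrix Ix Ix (An p n))ˣ) = _
      unfold phi
      rw [if_neg h1, if_neg hg]

end Helper53.NG
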