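import Pool.Agent.Helper53.NG.StB

/-!
# Project NG, module RCT: restriction of a homomorphism to a projection of its commutant
-/

namespace Helper53.NG

open Helper51.MU Helper61.IE Filter Topology
open scoped Matrix.Norms.L2Operator MatrixOrder ComplexOrder

attribute [local irreducible] Helper51.MU.instRingMUlt

theorem pRCT : StRCT := by
  classical
  intro hCut K _ ι _ _ U u hu e he hPe he0
  obtain ⟨r, J, hJ1, hlim⟩ := hCut ι U e hPe
  have htp : 0 < (tr e).re := hPe.tr_pos he0
  have hev : ∀ᶠ n in (U : Filter ℕ), (tr e).re / 2 < (r n : ℝ) / Fintype.card (ι n) :=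
    hlim.eventually (lt_mem_nhds (by linarith))
  have hev2 : ∀ᶠ n in (U : Filter ℕ), 0 < r n ∧
      (Fintype.card (ι n) : ℝ) ≤ 2 / (tr e).re * r n := by
    filter_upwards [hev] with n hn
    have hc : (0 : ℝ) < Fintype.card (ι n) := by
      rcases Nat.eq_zero_or_pos (Fintype.card (ι n)) with h | h
      · rw [h, Nat.cast_zero, div_zero] at hn
        linarith
      · exact_mod_cast h
    rw [lt_div_iff₀ hc] at hn
    refine ⟨?_, ?_⟩
    · rcases Nat.eq_zero_or_pos (r n) with h | h
      · rw [h, Nat.cast_zero] at hn
        have := mul_pos (half_pos htp) hc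
        linarith
      · exact h
    · rw [div_mul_eq_mul_div, le_div_iff₀ htp]
      linarith
  have hcmp : Cmp (fun n => Fin (r n)) ι U := by
    refine ⟨2 / (tr e).re, ?_⟩
    filter_upwards [hev2] with n hn
    rw [Fintype.card_fin]
    exact hn.2
  have hinj := expd_injective (U := U) J hcmp
  have hmul := fun x y => map_mul (expd J U) x y
  -- the lifts
  have hlift : ∀ k, ∃ x, expd J U x = e * u k := by
    intro k
    apply expd_range J hcmp
    rw [hJ1]
    calc e * (e * u k) * e = (e * e) * (u k * e) := by noncomm_ring
      _ = (e * e) * (e * u k) := by rw [he k]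
      _ = e * u k := by rw [hPe.2, ← mul_assoc, hPe.2]
  choose v hv using hlift
  have hee : ∀ x, e * (e * x) = e * x := fun x => by rw [← mul_assoc, hPe.2]
  have hone : v 1 = 1 := by
    apply hinj
    rw [hv, map_one, mul_one, hJ1]
  have hvm : ∀ k k', v (k * k') = v k * v k' := by
    intro k k'
    apply hinj
    rw [hmul, hv, hv, hv, map_mul]
    calc e * (u k * u k') = e * (e * u k) * u k' := by rw [hee, mul_assoc]
      _ = e * (u k * e) * u k' := by rw [he k]
      _ = e * u k * (e * u k') := by simp only [mul_assoc]
  let u₁ : K →* MUlt (fun n => Fin (r n)) U :=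
    { toFun := v
      map_one' := hone
      map_mul' := hvm }
  have hu1 : ∀ k, u₁ k = v k := fun _ => rfl
  have hstare : ∀ k, star (e * u k) = star (u k) * e := fun k => by rw [star_mul, hPe.1]
  refine ⟨r, J, u₁, hJ1, fun k => by rw [hu1, hv], ?_, hlim, ?_, hcmp, ?_, ?_⟩
  · intro k
    apply hinj
    rw [hmul, map_star, hu1, hv, hJ1, hstare]
    calc star (u k) * e * (e * u k) = star (u k) * (e * (e * u k)) := by rw [mul_assoc]
      _ = star (u k) * (e * u k) := by rw [hee]
      _ = star (u k) * (u k * e) := by rw [he k]
      _ = e := by rw [← mul_assoc, hu k, one_mul]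
  · filter_upwards [hev2] with n hn
    exact hn.1
  · intro y hy k
    have h1 : expd J U y = expd J U y * e := by
      rw [← hJ1, ← hmul, mul_one]
    have h2 : expd J U y = e * expd J U y := by
      rw [← hJ1, ← hmul, one_mul]
    calc expd J U y * u k = expd J U y * e * u k := by rw [← h1]
      _ = expd J U y * (e * u k) := by rw [mul_assoc]
      _ = expd J U (y * v k) := by rw [hmul, hv]
      _ = expd J U (v k * y) := by rw [← hu1, hy k]
      _ = e * u k * expd J U y := by rw [hmul, hv]
      _ = u k * e * expd J U y := by rw [he k]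
      _ = u k * (e * expd J U y) := by rw [mul_assoc]
      _ = u k * expd J U y := by rw [← h2]
  · intro y hy hye
    obtain ⟨x, hx⟩ := expd_range J hcmp y (by rw [hJ1]; exact hye)
    have h1 : y * e = y := by
      calc y * e = e * y * e * e := by rw [hye]
        _ = e * y * (e * e) := by rw [mul_assoc]
        _ = y := by rw [hPe.2, hye]
    have h2 : e * y = y := by
      calc e * y = e * (e * y * e) := by rw [hye]
        _ = (e * e) * y * e := by simp only [mul_assoc]
        _ = y := by rw [hPe.2, hye]
    refine ⟨x, ?_, hx⟩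
    intro k
    show x * v k = v k * x
    apply hinj
    rw [hmul, hmul, hv, hx]
    calc y * (e * u k) = y * u k := by rw [← mul_assoc, h1]
      _ = u k * y := hy k
      _ = u k * e * y := by rw [mul_assoc, h2]
      _ = e * u k * y := by rw [he k]

end Helper53.NG
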