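import Pool.Agent.Helper53.NG.StB

/-!
# Project NG: module RCV
-/

namespace Helper53.NG

open Helper51.MU Helper61.IE Filter Topology
open scoped Matrix.Norms.L2Operator MatrixOrder ComplexOrder

attribute [local irreducible] Helper51.MU.instRingMUlt

namespace RCV

section gen

variable {ι κ μ : ℕ → Type} [∀ n, Fintype (ι n)] [∀ n, DecidableEq (ι n)]
  [∀ n, Fintype (κ n)] [∀ n, DecidableEq (κ n)] [∀ n, Fintype (μ n)] [∀ n, DecidableEq (μ n)]
  {U : Ultrafilter ℕ}

/-- composition -/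
noncomputable def cmpI (J : Iso ι κ) (J' : Iso κ μ) : Iso ι μ where
  J n := J'.J n * J.J n
  iso n := by
    rw [Matrix.conjTranspose_mul, Matrix.mul_assoc, ← Matrix.mul_assoc (J'.J n).conjTranspose,
      J'.iso, Matrix.one_mul, J.iso]

lemma expd_cmpI (J : Iso ι κ) (J' : Iso κ μ) (x : MUlt ι U) :
    expd J' U (expd J U x) = expd (cmpI J J') U x := by
  obtain ⟨x, rfl⟩ := mkM_surjective x
  rw [expd_mk, expd_mk, expd_mk]
  congr 1
  refine Subtype.ext (funext fun n => ?_)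
  rw [expB_val, expB_val, expB_val]
  show J'.J n * (J.J n * x.1 n * (J.J n).conjTranspose) * (J'.J n).conjTranspose =
    J'.J n * J.J n * x.1 n * (J'.J n * J.J n).conjTranspose
  rw [Matrix.conjTranspose_mul]
  simp only [Matrix.mul_assoc]

lemma expd_congr (J J' : Iso ι κ) (h : ∀ n, J.J n = J'.J n) (x : MUlt ι U) :
    expd J U x = expd J' U x := by
  obtain ⟨x, rfl⟩ := mkM_surjective x
  rw [expd_mk, expd_mk]
  congr 1
  refine Subtype.ext (funext fun n => ?_)
  rw [expB_val, expB_val, h]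

/-- `1 ⊗ J`. -/
noncomputable def ampI (b : ℕ → ℕ) (J : Iso ι κ) :
    Iso (fun n => Fin (b n) × ι n) (fun n => Fin (b n) × κ n) where
  J n := Matrix.kroneckerMap (· * ·) (1 : Matrix (Fin (b n)) (Fin (b n)) ℂ) (J.J n)
  iso n := by
    have h1 := Matrix.conjTranspose_kronecker (1 : Matrix (Fin (b n)) (Fin (b n)) ℂ) (J.J n)
    rw [h1, Matrix.conjTranspose_one]
    have h2 := Matrix.mul_kronecker_mul (1 : Matrix (Fin (b n)) (Fin (b n)) ℂ)
      (1 : Matrix (Fin (b n)) (Fin (b n)) ℂ) (J.J n).conjTranspose (J.J n)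
    rw [← h2, Matrix.mul_one, J.iso]
    exact Matrix.one_kronecker_one

lemma expd_ampI (b : ℕ → ℕ) (J : Iso ι κ) (x : MUlt ι U) :
    expd (ampI b J) U (amp b x) = amp b (expd J U x) := by
  obtain ⟨x, rfl⟩ := mkM_surjective x
  rw [expd_mk, jm_mk, jm_mk, expd_mk]
  congr 1
  refine Subtype.ext (funext fun n => ?_)
  rw [expB_val, jb_val, jb_val, expB_val]
  show Matrix.kroneckerMap (· * ·) (1 : Matrix (Fin (b n)) (Fin (b n)) ℂ) (J.J n) *
    Matrix.kroneckerMap (· * ·) (1 : Matrix (Fin (b n)) (Fin (b n)) ℂ) (x.1 n) *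
    (Matrix.kroneckerMap (· * ·) (1 : Matrix (Fin (b n)) (Fin (b n)) ℂ) (J.J n)).conjTranspose =
    Matrix.kroneckerMap (· * ·) (1 : Matrix (Fin (b n)) (Fin (b n)) ℂ)
      (J.J n * x.1 n * (J.J n).conjTranspose)
  have h1 := Matrix.conjTranspose_kronecker (1 : Matrix (Fin (b n)) (Fin (b n)) ℂ) (J.J n)
  have h2 := Matrix.mul_kronecker_mul (1 : Matrix (Fin (b n)) (Fin (b n)) ℂ)
      (1 : Matrix (Fin (b n)) (Fin (b n)) ℂ) (J.J n) (x.1 n)
  have h3 := Matrix.mul_kronecker_mul (1 : Matrix (Fin (b n)) (Fin (b n)) ℂ)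
      (1 : Matrix (Fin (b n)) (Fin (b n)) ℂ) (J.J n * x.1 n) (J.J n).conjTranspose
  rw [Matrix.mul_one] at h2 h3
  rw [h1, Matrix.conjTranspose_one, h3, h2]

/-- `1 ⊕ J`. -/
noncomputable def sumI (ν : ℕ → Type) [∀ n, Fintype (ν n)] [∀ n, DecidableEq (ν n)]
    (J : Iso ι κ) : Iso (fun n => ν n ⊕ ι n) (fun n => ν n ⊕ κ n) where
  J n := Matrix.fromBlocks 1 0 0 (J.J n)
  iso n := by
    rw [Matrix.fromBlocks_conjTranspose, Matrix.fromBlocks_multiply]
    simp [J.iso]

variable (ν : ℕ → Type) [∀ n, Fintype (ν n)] [∀ n, DecidableEq (ν n)]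

lemma sumI_inl (J : Iso ι κ) (x : MUlt ν U) :
    expd (sumI ν J) U (inlM ι x) = inlM κ x := by
  unfold inlM
  rw [expd_cmpI]
  refine expd_congr _ _ (fun n => ?_) x
  show Matrix.fromBlocks 1 0 0 (J.J n) * Matrix.fromRows 1 0 = Matrix.fromRows 1 0
  rw [Matrix.fromBlocks_mul_fromRows]
  simp

lemma sumI_inr (J : Iso ι κ) (x : MUlt ι U) :
    expd (sumI ν J) U (inrM ν x) = inrM ν (expd J U x) := by
  unfold inrM
  rw [expd_cmpI, expd_cmpI]
  refine expd_congr _ _ (fun n => ?_) x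
  show Matrix.fromBlocks 1 0 0 (J.J n) * Matrix.fromRows 0 1 = Matrix.fromRows 0 1 * J.J n
  rw [Matrix.fromBlocks_mul_fromRows, Matrix.fromRows_mul]
  simp

end gen

end RCV

open RCV

theorem pRCV : StRCV := by
  intro K _ l U u hu hl r b c V hV e he hpe y hy hne a J c₁ hJ1 hJc hc₁ ha hCmp
  obtain ⟨C', hC'⟩ := hCmp
  obtain ⟨C, hC⟩ := hV.cmp
  -- the isometries
  set J₂ : Iso (fun n => Fin (l n) ⊕ (Fin (b n) × Fin (a n)))
    (fun n => Fin (l n) ⊕ (Fin (b n) × Fin (r n))) := sumI (fun n => Fin (l n)) (ampI b J) with hJ₂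
  have har : ∀ n, a n ≤ r n := fun n => by
    have := card_le_of_iso (J.iso n)
    simpa using this
  have hcmp2 : Cmp (fun n => Fin (l n) ⊕ (Fin (b n) × Fin (a n)))
      (fun n => Fin (l n) ⊕ (Fin (b n) × Fin (r n))) U := by
    refine ⟨max 1 C', ?_⟩
    filter_upwards [hC'] with n hn
    simp only [Fintype.card_fin, Fintype.card_sum, Fintype.card_prod] at hn ⊢
    push_cast
    have h1 : (r n : ℝ) ≤ max 1 C' * a n :=
      hn.trans (mul_le_mul_of_nonneg_right (le_max_right _ _) (by positivity))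
    have h2 : (l n : ℝ) ≤ max 1 C' * l n :=
      le_mul_of_one_le_left (by positivity) (le_max_left _ _)
    have h3 : (b n : ℝ) * r n ≤ b n * (max 1 C' * a n) :=
      mul_le_mul_of_nonneg_left h1 (by positivity)
    calc (l n : ℝ) + b n * r n ≤ max 1 C' * l n + b n * (max 1 C' * a n) := add_le_add h2 h3
      _ = max 1 C' * (l n + b n * a n) := by ring
  have hinj := expd_injective J₂ hcmp2
  have F1 : ∀ x : MUlt (fun n => Fin (l n)) U,
      expd J₂ U (inlM (fun n => Fin (b n) × Fin (a n)) x) =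
        inlM (fun n => Fin (b n) × Fin (r n)) x := fun x => sumI_inl _ _ x
  have F2 : ∀ x : MUlt (fun n => Fin (a n)) U,
      expd J₂ U (inrM (fun n => Fin (l n)) (amp b x)) =
        inrM (fun n => Fin (l n)) (amp b (expd J U x)) := fun x => by
    rw [hJ₂, sumI_inr, expd_ampI]
  have F2' : expd J₂ U (inrM (fun n => Fin (l n)) 1) =
        inrM (fun n => Fin (l n)) (amp b e) := by
    have := F2 1
    rwa [map_one, hJ1] at this
  have F3 : expd J₂ U 1 = inlM (fun n => Fin (b n) × Fin (r n)) 1 +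
      inrM (fun n => Fin (l n)) (amp b e) := by
    rw [← inl_add_inr, map_add, F1, F2']
  set V₀ := V * inrM (fun n => Fin (l n)) (amp b (y * e)) with hV₀
  have hl0 : inlM (fun n => Fin (b n) × Fin (r n)) 1 * V₀ = V₀ := by
    rw [hV₀, ← mul_assoc, hV.corl]
  have hr0 : V₀ * inrM (fun n => Fin (l n)) (amp b e) = V₀ := by
    rw [hV₀, mul_assoc, ← map_mul, ← map_mul, mul_assoc, hpe.2]
  have hl1 : inrM (fun n => Fin (l n)) (amp b e) * V₀ = 0 := by
    rw [← hl0, ← mul_assoc, inr_mul_inl, zero_mul]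
  have hr1 : V₀ * inlM (fun n => Fin (b n) × Fin (r n)) 1 = 0 := by
    rw [← hr0, mul_assoc, inr_mul_inl, mul_zero]
  have hP : expd J₂ U 1 * V₀ * expd J₂ U 1 = V₀ := by
    rw [F3, add_mul, hl0, hl1, add_zero, mul_add, hr1, hr0, zero_add]
  obtain ⟨V₁, hV₁⟩ := expd_range J₂ hcmp2 V₀ hP
  refine ⟨V₁, hc₁, ha, hV.posb, ?_, ?_, ?_, ?_, ?_⟩
  · -- sizes
    refine ⟨max C 0 * max 1 C' + max C 0, ?_⟩
    filter_upwards [hC, hC', ha, hV.posb] with n hn hn' han hbn
    simp only [Fintype.card_fin] at hn'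
    have hC0 : (0 : ℝ) ≤ max C 0 := le_max_right _ _
    have hC1 : (0 : ℝ) ≤ max 1 C' := zero_le_one.trans (le_max_left _ _)
    have h1 : (r n : ℝ) ≤ max 1 C' * a n :=
      hn'.trans (mul_le_mul_of_nonneg_right (le_max_right _ _) (by positivity))
    have h2 : (a n : ℝ) ≤ r n := by exact_mod_cast har n
    have hb0 : (0 : ℝ) ≤ b n := by positivity
    have ha0 : (0 : ℝ) ≤ a n := by positivity
    have hl0' : (0 : ℝ) ≤ l n := by positivity
    constructor
    · calc (l n : ℝ) ≤ C * (b n * r n) := hn.1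
        _ ≤ max C 0 * (b n * r n) := mul_le_mul_of_nonneg_right (le_max_left _ _) (by positivity)
        _ ≤ max C 0 * (b n * (max 1 C' * a n)) :=
            mul_le_mul_of_nonneg_left (mul_le_mul_of_nonneg_left h1 hb0) hC0
        _ = max C 0 * max 1 C' * (b n * a n) := by ring
        _ ≤ (max C 0 * max 1 C' + max C 0) * (b n * a n) :=
            mul_le_mul_of_nonneg_right (le_add_of_nonneg_right hC0) (by positivity)
    · calc (b n : ℝ) * a n ≤ b n * r n := mul_le_mul_of_nonneg_left h2 hb0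
        _ ≤ C * l n := hn.2
        _ ≤ max C 0 * l n := mul_le_mul_of_nonneg_right (le_max_left _ _) hl0'
        _ ≤ (max C 0 * max 1 C' + max C 0) * l n :=
            mul_le_mul_of_nonneg_right (le_add_of_nonneg_left (mul_nonneg hC0 hC1)) hl0'
  · rintro rfl
    rw [map_zero] at hV₁
    exact hne hV₁.symm
  · apply hinj
    rw [map_mul, F1, hV₁, hl0]
  · apply hinj
    rw [map_mul, F2', hV₁, hr0]
  · intro k
    apply hinj
    rw [map_mul, map_mul, F1, F2, hV₁, hJc, hV₀, ← mul_assoc, hV.itw, mul_assoc, mul_assoc,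
      ← map_mul, ← map_mul, ← map_mul, ← map_mul]
    congr 3
    have h1 : c k * y = y * c k := (hy k).symm
    have h2 : e * c k = c k * e := he k
    calc c k * (y * e) = y * (c k * e) := by rw [← mul_assoc, h1, mul_assoc]
      _ = y * (e * c k) := by rw [h2]
      _ = y * e * (e * c k) := by rw [mul_assoc, ← mul_assoc e e, hpe.2]

end Helper53.NG
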