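import Pool.Agent.Helper53.NG.Grp

/-!
# Project NG: statements of the group theory modules

Module `X` proves `theorem pX : StX`.  Definitions in `Grp.lean`.
-/

namespace Helper53.NG

open Polynomial

/-- CHI.  (a) `chi` is an additive character with values of absolute value one;
(b) nondegeneracy: for `g ≠ 0` take `c = X^(2^k - deg g)` with `2^(k-1) > deg g`: the coefficient of
`g c` at `2^k` is the leading coefficient of `g`, the coefficients at the other powers of two vanish;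
(c) fix `b ≠ 0` in `A₂` (`A₂` is infinite); if `chi (a b c) = 1` for all `a ∈ A₁`, `c ∈ A₃` then
`a ↦ chi (a b ·)` maps the infinite group `A₁` to the finite set of characters that are trivial on
`A₃` (determined by the values, which are `p`-th roots of unity, on finitely many cosets of `A₃`), so
two different `a, a'` have `chi ((a - a') b c) = 1` for all `c`, contradicting (b). -/
def StChi : Prop := ∀ (p : ℕ) [Fact p.Prime],
  (∀ f g : (ZMod p)[X], chi p (f + g) = chi p f * chi p g) ∧ chi p 0 = 1 ∧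
  (∀ f : (ZMod p)[X], ‖chi p f‖ = 1) ∧ (∀ f : (ZMod p)[X], chi p (-f) = star (chi p f)) ∧
  (∀ g : (ZMod p)[X], g ≠ 0 → ∃ c, chi p (g * c) ≠ 1) ∧
  ∀ A₁ A₂ A₃ : AddSubgroup (ZMod p)[X], A₁.FiniteIndex → A₂.FiniteIndex → A₃.FiniteIndex →
    ∃ a ∈ A₁, ∃ b ∈ A₂, ∃ c ∈ A₃, chi p (a * b * c) ≠ 1

/-- SSR.  `SS p` contains `el i j (X r)` for all `i ≠ j` in `{0, 1, 2}` and all `r`, and `el i j r` for
`i < j`.  `[el i j r, el j k s] = el i k (r s)`: from `el 0 1 1, el 1 2 1, el 2 0 X` one gets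
`el 0 2 1`, `el 2 1 X`, `el 1 0 X`, then `el 0 1 X = [el 0 2 1, el 2 1 X]` etc., all monomials by induction,
and `el i j (r + r') = el i j r * el i j r'`. -/
def StSS : Prop := ∀ (p : ℕ) [Fact p.Prime] (i j : Fin 4) (h : i ≠ j), i ≠ 3 → j ≠ 3 →
  ∀ r : (ZMod p)[X], el i j h (X * r) ∈ SS p ∧ (i < j → el i j h r ∈ SS p)

/-- CNT. -/
def StCnt : Prop := ∀ (p : ℕ) [Fact p.Prime], Countable (GP p)

/-- GEN.  `K'` is generated by the eight elements `gen p i`.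
`⊆`: the entries.  `⊇`: let `H` be the closure.  (1) `dgU σ ∈ H` for `σ ∈ SS p` (closure induction).
(2) Root elements in `H`: for `r ∈ R`: `el .o (.v j) r` (`j ≠ 3`): `[el .o (.v i) r, dgU (el i j s)] =
el .o (.v j) (r s)`, starting from `gen 3` and going around `0 → 1 → 2 → 0` (the last step multiplies by
`X`), additive in `r`, so all monomials and all polynomials; in the same way `el (.v j) .q r`,
`el (.v j) (.w 3) r` (`j ≠ 3`) (columns: `[dgU (el i j s), el (.v j) .q r] = el (.v i) .q (s r)`),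
`el .q (.w j) r`, `el (.v 3) (.w j) r` (`j ≠ 3`); then by commutators `el .o .q r`, `el .o (.w 3) r`,
`el (.v i) (.w j) r` (`i, j ≠ 3`), `el .o (.w j) r` (`j ≠ 3`).
(3) For `g ∈ K'` with diagonal part `σ`, `n = dgU σ⁻¹ g` is `1 + R_o + R_v + R_{v3} + R_q` (rows) and
`n = (1+R_q)(1+R_{v3})(1+R_v)(1+R_o)`, each factor is a product of commuting root elements. -/
def StGen : Prop := StSS → ∀ (p : ℕ) [Fact p.Prime],
  Subgroup.closure (Set.range (gen p)) = KK p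

/-- TD.  The eight generators satisfy `TData` (with `StGen`).  The 28 pairs: matrix computations. -/
def StTD : Prop := ∀ (p : ℕ) [Fact p.Prime], 25 < p → Subgroup.closure (Set.range (gen p)) = KK p →
  ∃ x : Fin 8 → KK p, (∀ i, (x i : (Matrix Ix Ix (ZMod p)[X])ˣ) = gen p i) ∧ TData (KK p) p x nb

/-- TDP.  `TData` for `K × K`. -/
def StTDP : Prop := ∀ (K : Type) [Group K] (ι : Type) [Fintype ι] [DecidableEq ι] (p : ℕ)
  (x : ι → K) (N : ι → Finset ι), TData K p x N →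
  ∃ N' : ι ⊕ ι → Finset (ι ⊕ ι),
    TData (K × K) p (Sum.elim (fun i => (x i, (1 : K))) fun i => ((1 : K), x i)) N'

/-- REL.  Relations between `τ₁(a) = el .q (.w 3) a`, `τ₂(b) = el .o (.v 3) b`,
`τ₃(c) = el (.v 3) .q c`, `τ₄(d) = el (.v 3) (.w 3) d`, `s(d) = el .o .q d`, `z(r) = el .o (.w 3) r`. -/
def StRel : Prop := ∀ (A : Type) [CommRing A] (S : Subgroup (Matrix (Fin 4) (Fin 4) A)ˣ)
  (hS : S ≤ S3 A),
  -- normality of K'
  (∀ g ∈ PG S, ∀ k ∈ KG S hS, g * k * g⁻¹ ∈ KG S hS) ∧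
  -- memberships
  (∀ r, el .q (.w 3) (by decide) r ∈ PG S ∧ el .o (.v 3) (by decide) r ∈ PG S ∧
    el (.v 3) .q (by decide) r ∈ PG S ∧ el (.v 3) (.w 3) (by decide) r ∈ PG S ∧
    el .o .q (by decide) r ∈ KG S hS ∧ el .o (.w 3) (by decide) r ∈ KG S hS) ∧
  -- z is central in P
  (∀ g ∈ PG S, ∀ r, g * el .o (.w 3) (by decide) r = el .o (.w 3) (by decide) r * g) ∧
  -- τ₄ commutes with K'
  (∀ k ∈ KG S hS, ∀ d, k * el (.v 3) (.w 3) (by decide) d = el (.v 3) (.w 3) (by decide) d * k) ∧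
  -- τ₁ τ₂ = τ₂ τ₁
  (∀ a b, (el .q (.w 3) (by decide) a : (Matrix Ix Ix A)ˣ) * el .o (.v 3) (by decide) b =
    el .o (.v 3) (by decide) b * el .q (.w 3) (by decide) a) ∧
  -- τ₂(b) τ₃(c) = s(bc) τ₃(c) τ₂(b)
  (∀ b c, (el .o (.v 3) (by decide) b : (Matrix Ix Ix A)ˣ) * el (.v 3) .q (by decide) c =
    el .o .q (by decide) (b * c) * (el (.v 3) .q (by decide) c * el .o (.v 3) (by decide) b)) ∧
  -- τ₃(c) τ₁(a) = τ₄(ca) τ₁(a) τ₃(c)
  (∀ c a, (el (.v 3) .q (by decide) c : (Matrix Ix Ix A)ˣ) * el .q (.w 3) (by decide) a =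
    el (.v 3) (.w 3) (by decide) (c * a) *
      (el .q (.w 3) (by decide) a * el (.v 3) .q (by decide) c)) ∧
  -- τ₁(a) s(d) = s(d) z(-ad) τ₁(a)
  (∀ a d, (el .q (.w 3) (by decide) a : (Matrix Ix Ix A)ˣ) * el .o .q (by decide) d =
    el .o .q (by decide) d * el .o (.w 3) (by decide) (-(a * d)) * el .q (.w 3) (by decide) a)

/-- PHI.  Properties of `C` and of the character `phi χ`: `C` is a normal subgroup, `phi χ` is
multiplicative on `C`, vanishes off `C`, and is a class function on `G`; `C` translates.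
(Conjugating `(τ₄(d), τ₄(d))` by `(g, g')` multiplies both components by `z(t₂(g) d)`.) -/
def StPhi : Prop := ∀ (A : Type) [CommRing A] (S : Subgroup (Matrix (Fin 4) (Fin 4) A)ˣ)
  (hS : S ≤ S3 A) (χ : A → ℂ), (∀ f g, χ (f + g) = χ f * χ g) → χ 0 = 1 →
  (InC (1 : (Matrix Ix Ix A)ˣ × (Matrix Ix Ix A)ˣ)) ∧ phi χ (1 : (Matrix Ix Ix A)ˣ × _) = 1 ∧
  (∀ x y : (Matrix Ix Ix A)ˣ × (Matrix Ix Ix A)ˣ, InC x → InC y → InC (x * y)) ∧
  (∀ x : (Matrix Ix Ix A)ˣ × (Matrix Ix Ix A)ˣ, InC x → InC x⁻¹ ∧ x ∈ GG S hS) ∧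
  (∀ x ∈ GG S hS, ∀ y : (Matrix Ix Ix A)ˣ × (Matrix Ix Ix A)ˣ, InC y → InC (x * y * x⁻¹)) ∧
  (∀ x y : (Matrix Ix Ix A)ˣ × (Matrix Ix Ix A)ˣ, InC x → phi χ (x * y) = phi χ x * phi χ y) ∧
  (∀ x ∈ GG S hS, ∀ y ∈ GG S hS, phi χ (x * y * x⁻¹) = phi χ y)

/-- ORB.  `K' × K'`-orbits on `G \ C` are infinite modulo `C`.
If `g = (g₁, g₂) ∈ G` has only finitely many conjugates `(k₁ g₁ k₁⁻¹, k₂ g₂ k₂⁻¹)` modulo `C`, then a finite
index subgroup `K₀` of `K'` satisfies `k g₁ k⁻¹ = g₁ z(r_k)` for `k ∈ K₀` (the second component is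
unchanged when `k₂ = 1`, so `d = 0`), the same for `g₂`.  For each root type `E` of `K'` (see `StGen`) the
infinite group `{1 + r E}` meets `K₀` in some `r ≠ 0`, so `r (E g₁ - g₁ E) ∈ R E_{o,w3}`, and as `R` is a
domain `E g₁ - g₁ E` is supported on `(o, w3)`.  (`E_{ij} g₁` is row `j` of `g₁` put in row `i`,
`g₁ E_{ij}` is column `i` of `g₁` put in column `j`.)  Write `g₁ = 1 + N`.  `E = E_{q,wj}` (`j ≠ 3`): `σ = 1` and
`N(x, q) = 0`; `E = E_{v3,wj}` (`j ≠ 3`): `N(x, v3) = 0`; `E = E_{vj,q}` (`j ≠ 3`): `N(q, x) = 0`,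
`N(x, vj) = 0`; `E = E_{o,vj}` (`j ≠ 3`): `N(vj, wk) = 0` for `k ≠ 3`; finally
`E = E_{vi,vj} + E_{wi,wj}` (the elements `dgU (el i j (X r))`, `StSS`, `i ≠ j` in `{0,1,2}`):
`N(vj, w3) = 0`, `N(o, wi) = 0`, `N(v3, wi) = 0`.  Only `N(o,w3)` and `N(v3,w3)` survive.
As `t₄ g₁ = t₄ g₂`, `g ∈ C`. -/
def StOrb : Prop := StSS → ∀ (p : ℕ) [Fact p.Prime] (g : (Matrix Ix Ix (ZMod p)[X])ˣ × _), g ∈ GP p →
  ¬ InC g → ∀ m : ℕ, ∃ k : Fin m → KK p × KK p, ∀ i j, i ≠ j →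
    ¬ InC ((((k i).1 : (Matrix Ix Ix (ZMod p)[X])ˣ), ((k i).2 : (Matrix Ix Ix (ZMod p)[X])ˣ)) * g *
        (((k i).1 : (Matrix Ix Ix (ZMod p)[X])ˣ), ((k i).2 : (Matrix Ix Ix (ZMod p)[X])ˣ))⁻¹ *
      ((((k j).1 : (Matrix Ix Ix (ZMod p)[X])ˣ), ((k j).2 : (Matrix Ix Ix (ZMod p)[X])ˣ)) * g *
        (((k j).1 : (Matrix Ix Ix (ZMod p)[X])ˣ), ((k j).2 : (Matrix Ix Ix (ZMod p)[X])ˣ))⁻¹)⁻¹)

/-- CHN.  The chain `G_j = {g ∈ G : deg t_i(g) < j, i = 1, 2, 3}`: increasing, exhausting, index at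
most `q` at each step (`q = p^3`), and `G_0` consists of the products
`(k, 1)(1, k')(τ₄(d), τ₄(d))`, `k, k' ∈ K'`. -/
def StChn : Prop := ∀ (p : ℕ) [Fact p.Prime], ∃ (Gj : ℕ → Subgroup (GP p)) (q : ℕ),
  Monotone Gj ∧ (∀ g, ∃ j, g ∈ Gj j) ∧
  (∀ j, ∃ F : Finset (GP p), F.card ≤ q ∧ (∀ f ∈ F, f ∈ Gj (j + 1)) ∧
    ∀ g ∈ Gj (j + 1), ∃ f ∈ F, f⁻¹ * g ∈ Gj j) ∧
  ∀ g ∈ Gj 0, ∃ (k k' : KK p) (d : (ZMod p)[X]),
    (g : (Matrix Ix Ix (ZMod p)[X])ˣ × (Matrix Ix Ix (ZMod p)[X])ˣ) =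
      ((k : (Matrix Ix Ix (ZMod p)[X])ˣ) * el (.v 3) (.w 3) (by decide) d,
        (k' : (Matrix Ix Ix (ZMod p)[X])ˣ) * el (.v 3) (.w 3) (by decide) d)

/-- TRI.  For a subgroup `H` of finite index of `G` there are `a, b, c` with `chi (a b c) ≠ 1` and
`t₁(a), t₂(b), t₃(c) ∈ H` (from `StChi`, (c); `a ↦ (τ₁(a), τ₁(a))` is a homomorphism to `G`). -/
def StTri : Prop := StChi → ∀ (p : ℕ) [Fact p.Prime] (H : Subgroup (GP p)), H.FiniteIndex →
  ∃ (a b c : (ZMod p)[X]) (ga gb gc : GP p), chi p (a * b * c) ≠ 1 ∧ ga ∈ H ∧ gb ∈ H ∧ gc ∈ H ∧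
    (ga : (Matrix Ix Ix (ZMod p)[X])ˣ × (Matrix Ix Ix (ZMod p)[X])ˣ) =
      (el .q (.w 3) (by decide) a, el .q (.w 3) (by decide) a) ∧
    (gb : (Matrix Ix Ix (ZMod p)[X])ˣ × (Matrix Ix Ix (ZMod p)[X])ˣ) =
      (el .o (.v 3) (by decide) b, el .o (.v 3) (by decide) b) ∧
    (gc : (Matrix Ix Ix (ZMod p)[X])ˣ × (Matrix Ix Ix (ZMod p)[X])ˣ) =
      (el (.v 3) .q (by decide) c, el (.v 3) .q (by decide) c)

/-- IND.  Induced representations: a finite group `H`, a function `f` supported on a normal subgroup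
`C`, multiplicative with absolute value one on `C` and a class function: there is a finite-dimensional
unitary representation with normalized trace `f`.  Matrix entries `f (s(x)⁻¹ h s(y))`, `x, y ∈ H/C`. -/
def StInd : Prop := ∀ (H : Type) [Group H] [Finite H] (C : Subgroup H) (f : H → ℂ),
  (∀ g h, h ∈ C → g * h * g⁻¹ ∈ C) → (∀ g, g ∉ C → f g = 0) → (∀ g ∈ C, ‖f g‖ = 1) →
  (∀ g ∈ C, ∀ h, f (g * h) = f g * f h) → (∀ g h, f (g * h * g⁻¹) = f h) →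
  ∃ (d : ℕ) (_ : 0 < d) (π : H →* Matrix.unitaryGroup (Fin d) ℂ), ∀ g,
    Matrix.trace ((π g : Matrix.unitaryGroup (Fin d) ℂ) : Matrix (Fin d) (Fin d) ℂ) = d * f g

/-- QUO.  Finite quotients: reduction modulo `X^n`.  For each `n` the ring `A = R/(X^n)` is finite,
`chi` modified by keeping only the coefficients below `n` factors through `A`; `H = GG (S3 A)`,
`f = phi χ_n`; for fixed `g ∈ G`, `phi χ_n (g mod X^n) = phi chi g` for large `n`. -/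
def StQuo : Prop := StPhi → ∀ (p : ℕ) [Fact p.Prime],
  ∃ (H : ℕ → Type) (_ : ∀ n, Group (H n)) (_ : ∀ n, Finite (H n)) (C : ∀ n, Subgroup (H n))
    (f : ∀ n, H n → ℂ) (ρ : ∀ n, GP p →* H n),
    (∀ n, (∀ g h, h ∈ C n → g * h * g⁻¹ ∈ C n) ∧ (∀ g, g ∉ C n → f n g = 0) ∧
      (∀ g ∈ C n, ‖f n g‖ = 1) ∧ (∀ g ∈ C n, ∀ h, f n (g * h) = f n g * f n h) ∧
      (∀ g h, f n (g * h * g⁻¹) = f n h)) ∧
    ∀ g : GP p, ∃ n₀, ∀ n, n₀ ≤ n → f n (ρ n g) =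
      phi (chi p) (g : (Matrix Ix Ix (ZMod p)[X])ˣ × (Matrix Ix Ix (ZMod p)[X])ˣ)

end Helper53.NG
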