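import Mathlib
import Pool.Agent.Helper53.NG.StG

/-!
# Project NG: module REL
-/

namespace Helper53.NG

open Polynomial

namespace REL

variable {A : Type} [CommRing A]

lemma el_val (i j : Ix) (h : i ≠ j) (r : A) :
    ((el i j h r : (Matrix Ix Ix A)ˣ) : Matrix Ix Ix A) = 1 + Matrix.single i j r := rfl

lemma el_inv_val (i j : Ix) (h : i ≠ j) (r : A) :
    (((el i j h r)⁻¹ : (Matrix Ix Ix A)ˣ) : Matrix Ix Ix A) = 1 + Matrix.single i j (-r) := rfl

lemma BF_tv (S : Subgroup (Matrix (Fin 4) (Fin 4) A)ˣ) (i j : Ix) (hl : lvl i < lvl j) (r : A) :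
    BF S (1 + Matrix.single i j r : Matrix Ix Ix A) := by
  refine ⟨1, S.one_mem, fun a b hab => ?_⟩
  rw [Units.val_one, dg_one, Matrix.add_apply, Matrix.single_apply, if_neg, add_zero]
  rintro ⟨rfl, rfl⟩
  omega

lemma el_mem_PG (S : Subgroup (Matrix (Fin 4) (Fin 4) A)ˣ) (i j : Ix) (h : i ≠ j)
    (hl : lvl i < lvl j) (r : A) : el i j h r ∈ PG S := by
  refine ⟨?_, ?_⟩
  · rw [el_val]; exact BF_tv S i j hl r
  · rw [el_inv_val]; exact BF_tv S i j hl (-r)

lemma el_mem_KG (S : Subgroup (Matrix (Fin 4) (Fin 4) A)ˣ) (hS : S ≤ S3 A) (i j : Ix) (h : i ≠ j)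
    (hl : lvl i < lvl j) (r : A) (h1 : ¬ (i = .q ∧ j = .w 3)) (h2 : ¬ (i = .o ∧ j = .v 3))
    (h3 : ¬ (i = .v 3 ∧ j = .q)) (h4 : ¬ (i = .v 3 ∧ j = .w 3)) : el i j h r ∈ KG S hS := by
  refine ⟨el_mem_PG S i j h hl r, ?_, ?_, ?_, ?_⟩
  · unfold t1
    rw [el_val, Matrix.add_apply, Matrix.single_apply, if_neg h1, one_apply']
    simp
  · unfold t2
    rw [el_val, Matrix.add_apply, Matrix.single_apply, if_neg h2, one_apply']
    simp
  · unfold t3
    rw [el_val, Matrix.add_apply, Matrix.single_apply, if_neg h3, one_apply']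
    simp
  · unfold t4
    rw [el_val, Matrix.add_apply, Matrix.single_apply, if_neg h4, one_apply']
    simp

lemma mul0 (i j k l : Ix) (h : j ≠ k) (c d : A) :
    (Matrix.single i j c * Matrix.single k l d : Matrix Ix Ix A) = 0 :=
  Matrix.single_mul_single_of_ne c i j k h d

/-- An element whose column `i` is `e_i` and whose row `j` is `e_j` commutes with `1 + r E_{ij}`. -/
lemma comm_el (g : (Matrix Ix Ix A)ˣ) (i j : Ix) (h : i ≠ j) (r : A)
    (hc : ∀ k, (g : Matrix Ix Ix A) k i = if k = i then 1 else 0)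
    (hr : ∀ k, (g : Matrix Ix Ix A) j k = if k = j then 1 else 0) :
    g * el i j h r = el i j h r * g := by
  ext1
  rw [Units.val_mul, Units.val_mul, el_val, mul_add, add_mul, mul_one, one_mul]
  congr 1
  ext a b
  rw [Matrix.mul_apply, Matrix.mul_apply]
  simp only [Matrix.single_apply, ite_and, mul_ite, mul_zero, ite_mul, zero_mul]
  by_cases hb : j = b
  · subst hb
    by_cases ha : i = a
    · subst ha
      simp [hc, hr]
    · have ha' : ¬ a = i := fun e => ha e.symm
      simp [hc, ha, ha']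
  · have hb' : ¬ b = j := fun e => hb e.symm
    simp [hr, hb, hb']

end REL

open REL in
theorem pREL : StRel := by
  intro A _ S hS
  refine ⟨?_, ?_, ?_, ?_, ?_, ?_, ?_, ?_⟩
  · rintro g hg k ⟨k0, k1, k2, k3, k4⟩
    have hi := (PG S).inv_mem hg
    have hgk := (PG S).mul_mem hg k0
    obtain ⟨e1, e2, e3, e4⟩ := t_inv hS hg
    refine ⟨(PG S).mul_mem hgk hi, ?_, ?_, ?_, ?_⟩
    · rw [t1_mul hS hgk hi, t1_mul hS hg k0, k1, e1]; ring
    · rw [t2_mul hS hgk hi, t2_mul hS hg k0, k2, e2]; ring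
    · rw [t3_mul hS hgk hi, t3_mul hS hg k0, k3, e3]; ring
    · rw [t4_mul hS hgk hi, t4_mul hS hg k0, t3_mul hS hg k0, k4, k3, k1, e4, e1]; ring
  · intro r
    refine ⟨el_mem_PG S _ _ _ (by decide) r, el_mem_PG S _ _ _ (by decide) r,
      el_mem_PG S _ _ _ (by decide) r, el_mem_PG S _ _ _ (by decide) r,
      el_mem_KG S hS _ _ _ (by decide) r (by decide) (by decide) (by decide) (by decide),
      el_mem_KG S hS _ _ _ (by decide) r (by decide) (by decide) (by decide) (by decide)⟩
  · intro g hg r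
    obtain ⟨a1, a2, -⟩ := t_mul_aux hS hg
    exact comm_el g .o (.w 3) _ r a1 a2
  · rintro k ⟨k0, k1, k2, k3, k4⟩ d
    obtain ⟨a1, a2, a3, a4, a5, a6, a7, a8, a9⟩ := t_mul_aux hS k0
    refine comm_el k (.v 3) (.w 3) _ d ?_ a2
    intro i
    cases i with
    | o => simpa [t2] using k2
    | v j => rw [a5 j]; simp
    | q => rw [a7 3]; simp
    | w j => rw [a9 j 3]; simp
  · intro a b
    ext1
    simp only [Units.val_mul, el_val]
    simp only [mul_add, add_mul, mul_one, one_mul]
    rw [mul0 .q (.w 3) .o (.v 3) (by decide), mul0 .o (.v 3) .q (.w 3) (by decide)]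
    abel
  · intro b c
    ext1
    simp only [Units.val_mul, el_val]
    simp only [mul_add, add_mul, mul_one, one_mul, Matrix.single_mul_single_same]
    rw [mul0 .o .q (.v 3) .q (by decide), mul0 .o .q .o (.v 3) (by decide),
      mul0 (.v 3) .q .o (.v 3) (by decide)]
    simp only [mul_zero]
    abel
  · intro c a
    ext1
    simp only [Units.val_mul, el_val]
    simp only [mul_add, add_mul, mul_one, one_mul, Matrix.single_mul_single_same]
    rw [mul0 (.v 3) (.w 3) .q (.w 3) (by decide), mul0 (.v 3) (.w 3) (.v 3) .q (by decide),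
      mul0 .q (.w 3) (.v 3) .q (by decide)]
    simp only [mul_zero]
    abel
  · intro a d
    ext1
    simp only [Units.val_mul, el_val]
    simp only [mul_add, add_mul, mul_one, one_mul, Matrix.single_mul_single_same]
    rw [mul0 .q (.w 3) .o .q (by decide), mul0 .o .q .o (.w 3) (by decide),
      mul0 .o (.w 3) .q (.w 3) (by decide)]
    simp only [zero_mul, add_zero]
    have e : (Matrix.single Ix.o (Ix.w 3) (-(a * d)) : Matrix Ix Ix A) +
        Matrix.single Ix.o (Ix.w 3) (d * a) = 0 := by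
      rw [← Matrix.single_add, mul_comm d a, neg_add_cancel, Matrix.single_zero]
    rw [eq_neg_of_add_eq_zero_left e]
    abel

end Helper53.NG
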