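import Pool.Agent.Helper53.NG.StA
import Pool.Agent.Helper61.IE.Lib

/-!
# Project NG, module RK: a projection matrix is `J J*` for an isometry
-/

set_option autoImplicit false

namespace Helper53.NG

open Helper51.MU Helper61.IE Filter Topology
open scoped Matrix.Norms.L2Operator MatrixOrder ComplexOrder

attribute [local irreducible] Helper51.MU.instRingMUlt

/-- A projection is `W W*` for an isometry `W`. -/
private lemma RK.exists_iso {n : Type} [Fintype n] [DecidableEq n] {p : Matrix n n ℂ}
    (hp : Pr p) : ∃ (k : ℕ) (W : Matrix n (Fin k) ℂ), W.conjTranspose * W = 1 ∧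
      W * W.conjTranspose = p ∧ (k : ℝ) = rt p := by
  have hH : p.IsHermitian := hp.1
  set U : Matrix n n ℂ := (hH.eigenvectorUnitary : Matrix n n ℂ) with hU
  have hUU : U.conjTranspose * U = 1 := by
    have := Unitary.coe_star_mul_self hH.eigenvectorUnitary
    rw [Matrix.star_eq_conjTranspose] at this
    exact this
  have hUU' : U * U.conjTranspose = 1 := unit_comm hUU
  have hsp : p = U * Matrix.diagonal (fun i => ((hH.eigenvalues i : ℝ) : ℂ)) *
      U.conjTranspose := by
    have := hH.spectral_theorem
    rw [Unitary.conjStarAlgAut_apply] at this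
    rw [Matrix.star_eq_conjTranspose] at this
    exact this
  set lam : n → ℂ := fun i => ((hH.eigenvalues i : ℝ) : ℂ) with hlam
  have hD : Matrix.diagonal lam = U.conjTranspose * p * U := by
    rw [hsp]
    calc Matrix.diagonal lam = (U.conjTranspose * U) * Matrix.diagonal lam *
        (U.conjTranspose * U) := by rw [hUU, one_mul, mul_one]
      _ = _ := by simp only [Matrix.mul_assoc]
  have hDD : Matrix.diagonal lam * Matrix.diagonal lam = Matrix.diagonal lam := by
    rw [hD]
    calc U.conjTranspose * p * U * (U.conjTranspose * p * U)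
        = U.conjTranspose * p * (U * U.conjTranspose) * p * U := by
          simp only [Matrix.mul_assoc]
      _ = U.conjTranspose * (p * p) * U := by rw [hUU']; simp only [Matrix.mul_assoc, mul_one]
      _ = _ := by rw [hp.2]
  have hl : ∀ i, lam i * lam i = lam i := by
    intro i
    rw [Matrix.diagonal_mul_diagonal] at hDD
    have := congrFun (Matrix.diagonal_injective hDD) i
    exact this
  have hl' : ∀ i, lam i = if lam i = 1 then 1 else 0 := by
    intro i
    split_ifs with h
    · exact h
    · have h1 : lam i * (lam i - 1) = 0 := by rw [mul_sub, hl i]; ring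
      rcases mul_eq_zero.1 h1 with h2 | h2
      · exact h2
      · exact absurd (sub_eq_zero.1 h2) h
  classical
  let I := {i : n // lam i = 1}
  let e : Fin (Fintype.card I) ≃ I := (Fintype.equivFin I).symm
  let W : Matrix n (Fin (Fintype.card I)) ℂ := U.submatrix id (fun a => (e a : n))
  have hW1 : W.conjTranspose * W = 1 := by
    ext a b
    have h1 : (W.conjTranspose * W) a b = (U.conjTranspose * U) (e a : n) (e b : n) := by
      simp only [Matrix.mul_apply, Matrix.conjTranspose_apply, W, Matrix.submatrix_apply, id]
    rw [h1, hUU, Matrix.one_apply, Matrix.one_apply]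
    have h2 : ((e a : n) = (e b : n)) ↔ a = b :=
      ⟨fun h => e.injective (Subtype.ext h), fun h => by rw [h]⟩
    simp only [h2]
  have hW2 : W * W.conjTranspose = p := by
    ext i j
    have h1 : (W * W.conjTranspose) i j =
        ∑ a : Fin (Fintype.card I), U i (e a : n) * star (U j (e a : n)) := by
      simp only [Matrix.mul_apply, Matrix.conjTranspose_apply, W, Matrix.submatrix_apply, id]
    have h2 : ∑ a : Fin (Fintype.card I), U i (e a : n) * star (U j (e a : n)) =
        ∑ c : I, U i (c : n) * star (U j (c : n)) :=
      Equiv.sum_comp e (fun c : I => U i (c : n) * star (U j (c : n)))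
    have h3 : ∑ c : I, U i (c : n) * star (U j (c : n)) =
        ∑ c ∈ Finset.univ.filter (fun c => lam c = 1), U i c * star (U j c) := by
      rw [Finset.sum_subtype (s := Finset.univ.filter (fun c => lam c = 1))
        (p := fun c => lam c = 1) (by simp)]
    have h4 : p i j = ∑ c, U i c * lam c * star (U j c) := by
      conv_lhs => rw [hsp]
      rw [Matrix.mul_apply]
      refine Finset.sum_congr rfl fun c _ => ?_
      rw [Matrix.mul_diagonal, Matrix.conjTranspose_apply]
    rw [h1, h2, h3, h4, Finset.sum_filter]
    refine Finset.sum_congr rfl fun c _ => ?_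
    by_cases h : lam c = 1
    · rw [if_pos h, h, mul_one]
    · have h0 : lam c = 0 := by rw [hl' c, if_neg h]
      rw [if_neg h, h0, mul_zero, zero_mul]
  refine ⟨Fintype.card I, W, hW1, hW2, ?_⟩
  unfold rt
  rw [← hW2, Matrix.trace_mul_comm, hW1, Matrix.trace_one]
  simp

theorem pRK : StRK := by
  intro n _ _ p hp
  exact RK.exists_iso hp

end Helper53.NG
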