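import Pool.Agent.Helper53.NG.StB
import Pool.Agent.Helper61.IE.Rnd0

/-!
# RND: rounding
-/

namespace Helper53.NG

attribute [local irreducible] Helper51.MU.instRingMUlt

open Helper51.MU Helper61.IE Helper61.IE.Rnd0 Filter Topology MeasureTheory
open scoped Matrix.Norms.L2Operator MatrixOrder ComplexOrder

theorem pRND : StRND := by
  intro n _ _ I F u a hu ha0 ha1
  obtain ⟨V, g, hV, rfl⟩ := exists_spec (herm_of_nonneg ha0)
  have hg0 : ∀ i, 0 ≤ g i := fun i => by
    have := dg_nonneg (V := V) ha0 i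
    rwa [dg_MM hV] at this
  have hg1 : ∀ i, g i ≤ 1 := fun i => by
    have := dg_le_one hV ha1 i
    rwa [dg_MM hV] at this
  obtain ⟨x, hx1, hx2, hx⟩ := exists_le_avg (t := 1 / 4) (s := 1 / 2) (by norm_num)
    (En_stp_int hV F u g (1 / 4) (1 / 2))
  have hle := int_En_stp_le hV F hu hg0 (t := 1 / 4) (s := 1 / 2) (by norm_num) (by norm_num)
  refine ⟨MM V (fun i => stp (g i) x), MM_pr hV fun i => stp_or _ _, ?_, ?_, ?_⟩
  · rw [MM_smul]
    refine MM_mono fun i => ?_
    unfold stp
    split_ifs with h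
    · linarith
    · linarith [hg0 i]
  · have e1 : 2 * (F.card : ℝ) * En F u (MM V g) * rt (MM V g) / (1 / 4) =
        8 * F.card * En F u (MM V g) * rt (MM V g) := by ring
    rw [e1] at hle
    linarith
  · have h1 : hs (MM V g) = ∑ i, g i * g i := by
      rw [hs_eq_rt, MM_herm, MM_mul hV, rt_MM hV]
    rw [h1, rt_MM hV, rt_MM hV, Finset.mul_sum, ← Finset.sum_sub_distrib]
    refine Finset.sum_le_sum fun i _ => ?_
    unfold stp
    split_ifs with h
    · nlinarith [hg0 i, hg1 i]
    · push Not at h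
      nlinarith [hg0 i, hg1 i]

end Helper53.NG
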