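import Pool.Agent.Helper53.NG.StB
import Pool.Agent.Helper53.NG.PIDL

set_option autoImplicit false
set_option linter.unusedSectionVars false

/-!
# Project NG, module SMC: small central projections
-/

namespace Helper53.NG

open Helper51.MU Helper61.IE Filter Topology
open scoped Matrix.Norms.L2Operator MatrixOrder ComplexOrder

attribute [local irreducible] Helper51.MU.instRingMUlt

namespace SMC

variable {ι : ℕ → Type} [∀ n, Fintype (ι n)] [∀ n, DecidableEq (ι n)] {U : Ultrafilter ℕ}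
  {G : Type} [Group G]

/-- Conjugation. -/
noncomputable def cj (u : G →* MUlt ι U) (g : G) (z : MUlt ι U) : MUlt ι U := u g * z * u g⁻¹

lemma inv_mul_u (u : G →* MUlt ι U) (g : G) : u g⁻¹ * u g = 1 := by
  rw [← map_mul, inv_mul_cancel, map_one]

lemma mul_inv_u (u : G →* MUlt ι U) (g : G) : u g * u g⁻¹ = 1 := by
  rw [← map_mul, mul_inv_cancel, map_one]

lemma cj_mul (u : G →* MUlt ι U) (g h : G) (z : MUlt ι U) :
    cj u (g * h) z = cj u g (cj u h z) := by
  unfold cj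
  rw [map_mul, mul_inv_rev, map_mul]
  simp only [mul_assoc]

lemma cj_one (u : G →* MUlt ι U) (z : MUlt ι U) : cj u 1 z = z := by
  unfold cj
  rw [inv_one, map_one, one_mul, mul_one]

lemma cj_prod (u : G →* MUlt ι U) (g : G) (a b : MUlt ι U) :
    cj u g (a * b) = cj u g a * cj u g b := by
  unfold cj
  calc u g * (a * b) * u g⁻¹ = u g * a * (1 * (b * u g⁻¹)) := by rw [one_mul]; simp only [mul_assoc]
    _ = _ := by rw [← inv_mul_u u g]; simp only [mul_assoc]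

lemma cj_star (u : G →* MUlt ι U) (hu : ∀ g, star (u g) * u g = 1) (g : G) (z : MUlt ι U) :
    star (cj u g z) = cj u g (star z) := by
  unfold cj
  rw [star_mul, star_mul, hom_inv u hu, star_star, mul_assoc]

lemma cj_tr (u : G →* MUlt ι U) (g : G) (z : MUlt ι U) : tr (cj u g z) = tr z := by
  unfold cj
  rw [tr_mul_comm, ← mul_assoc, inv_mul_u, one_mul]

lemma cj_pj (u : G →* MUlt ι U) (hu : ∀ g, star (u g) * u g = 1) (g : G) {e : MUlt ι U}
    (he : Pj e) : Pj (cj u g e) :=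
  ⟨by rw [cj_star u hu, he.1], by rw [← cj_prod, he.2]⟩

lemma cj_eq (u : G →* MUlt ι U) {g : G} {z : MUlt ι U} (h : z * u g = u g * z) :
    cj u g z = z := by
  unfold cj
  rw [← h, mul_assoc, mul_inv_u, mul_one]

lemma comm_of_cj (u : G →* MUlt ι U) {g : G} {z : MUlt ι U} (h : cj u g z = z) :
    z * u g = u g * z := by
  unfold cj at h
  conv_lhs => rw [← h]
  rw [mul_assoc, inv_mul_u, mul_one]

lemma cj_inv_cj (u : G →* MUlt ι U) (g : G) (z : MUlt ι U) : cj u g (cj u g⁻¹ z) = z := by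
  rw [← cj_mul, mul_inv_cancel, cj_one]

variable {K : Type} [Group K]

lemma cj_mem (u : G →* MUlt ι U) (i : K →* G) (hi : ∀ g k, ∃ k', g * i k * g⁻¹ = i k') (g : G)
    {d : MUlt ι U} (hd : d ∈ Cmt fun k => u (i k)) : cj u g d ∈ Cmt fun k => u (i k) := by
  intro k
  obtain ⟨k', hk'⟩ := hi g⁻¹ k
  have h1 : d * u (i k') = u (i k') * d := hd k'
  have h2 : u g⁻¹ * u (i k) = u (i k') * u g⁻¹ := by
    rw [← hk', inv_inv, map_mul, map_mul]
    rw [mul_assoc, mul_inv_u, mul_one]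
  have h3 : u (i k) * u g = u g * u (i k') := by
    rw [← hk', inv_inv, map_mul, map_mul, ← mul_assoc, ← mul_assoc, mul_inv_u, one_mul]
  show cj u g d * u (i k) = u (i k) * cj u g d
  unfold cj
  calc u g * d * u g⁻¹ * u (i k) = u g * d * (u g⁻¹ * u (i k)) := by simp only [mul_assoc]
    _ = u g * (d * u (i k')) * u g⁻¹ := by rw [h2]; simp only [mul_assoc]
    _ = (u g * u (i k')) * d * u g⁻¹ := by rw [h1]; simp only [mul_assoc]
    _ = u (i k) * (u g * d * u g⁻¹) := by rw [← h3]; simp only [mul_assoc]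

lemma cj_zc (u : G →* MUlt ι U) (i : K →* G) (hi : ∀ g k, ∃ k', g * i k * g⁻¹ = i k') (g : G)
    {z : MUlt ι U} (hz : z ∈ Zc (Cmt fun k => u (i k))) : cj u g z ∈ Zc (Cmt fun k => u (i k)) := by
  refine ⟨cj_mem u i hi g hz.1, fun d hd => ?_⟩
  have h1 := hz.2 _ (cj_mem u i hi g⁻¹ hd)
  have h2 := congrArg (cj u g) h1
  rw [cj_prod, cj_prod, cj_inv_cj] at h2
  exact h2

lemma nonscalar (h0 : ∀ᶠ n in (U : Filter ℕ), Nonempty (ι n)) {e : MUlt ι U} (he : Pj e)
    (h1 : 0 < (tr e).re) (h2 : (tr e).re ≤ 1 / 2) (t : ℂ) : e ≠ t • (1 : MUlt ι U) := by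
  intro h
  have h3 : tr e = t := by rw [h, tr_smul, tr_one h0, mul_one]
  have h4 : t * t = t := by
    have h5 := congrArg tr he.2
    rw [h, smul_mul_smul_comm, mul_one, tr_smul, tr_smul, tr_one h0, mul_one, mul_one] at h5
    exact h5
  rw [h3] at h1 h2
  have h5 : t * (t - 1) = 0 := by rw [mul_sub, mul_one, h4, sub_self]
  rcases mul_eq_zero.1 h5 with h6 | h6
  · rw [h6, Complex.zero_re] at h1
    exact lt_irrefl _ h1
  · rw [sub_eq_zero.1 h6, Complex.one_re] at h2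
    norm_num at h2

/-- One step of the chain. -/
lemma step (hJON : StJON) (u : G →* MUlt ι U) (hu : ∀ g, star (u g) * u g = 1) (i : K →* G)
    (hi : ∀ g k, ∃ k', g * i k * g⁻¹ = i k') (A B : Subgroup G) (q : ℕ) (hAB : A ≤ B)
    (hF : ∃ F : Finset G, F.card ≤ q ∧ (∀ f ∈ F, f ∈ B) ∧ ∀ g ∈ B, ∃ f ∈ F, f⁻¹ * g ∈ A)
    (E : MUlt ι U) (hE : E ∈ Zc (Cmt fun k => u (i k))) (hP : Pj E)
    (hc : ∀ g ∈ A, E * u g = u g * E) :
    ∃ J ∈ Zc (Cmt fun k => u (i k)), Pj J ∧ (∀ g ∈ B, J * u g = u g * J) ∧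
      (tr E).re ≤ (tr J).re ∧ (tr J).re ≤ q * (tr E).re := by
  obtain ⟨F, hF1, hF2, hF3⟩ := hF
  have hD : IsVN (Cmt fun k => u (i k)) := isVN_cmt_hom (u.comp i) (fun k => hu (i k))
  obtain ⟨J, hJ, hPJ, hJ1, hJ2, hJ3⟩ := hJON ι U _ hD G F (fun f => cj u f E)
    (fun f _ => ⟨cj_pj u hu f hP, cj_zc u i hi f hE⟩)
  refine ⟨J, hJ, hPJ, fun g hg => ?_, ?_, ?_⟩
  · have h1 : ∀ f ∈ F, cj u g J * cj u f E = cj u f E := by
      intro f hf
      obtain ⟨f', hf', h2⟩ := hF3 (g⁻¹ * f) (B.mul_mem (B.inv_mem hg) (hF2 f hf))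
      have h3 : cj u (g⁻¹ * f) E = cj u f' E := by
        have h4 := cj_eq u (hc _ h2)
        calc cj u (g⁻¹ * f) E = cj u (f' * (f'⁻¹ * (g⁻¹ * f))) E := by rw [mul_inv_cancel_left]
          _ = cj u f' (cj u (f'⁻¹ * (g⁻¹ * f)) E) := cj_mul u _ _ _
          _ = cj u f' E := by rw [h4]
      have h5 := congrArg (cj u g) (hJ1 f' hf')
      rw [← h3, cj_mul, cj_prod, cj_inv_cj] at h5
      exact h5
    have h2 := hJ2 (cj u g J) (cj_zc u i hi g hJ) (cj_pj u hu g hPJ) h1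
    have h3 := IDL.nrm_sub_eq hPJ (cj_pj u hu g hPJ) h2
    rw [cj_tr, sub_self] at h3
    exact comm_of_cj u (sub_eq_zero.1 (nrm_eq_zero.1 h3))
  · obtain ⟨f, hf, h2⟩ := hF3 1 B.one_mem
    rw [mul_one] at h2
    have h3 : cj u f E = E := by
      have h4 := cj_eq u (hc _ h2)
      conv_lhs => rw [← h4]
      exact cj_inv_cj u f E
    have h4 := hJ1 f hf
    simp only [h3] at h4
    exact IDL.tr_mono hP hPJ h4
  · refine hJ3.trans ?_
    have h1 : ∑ a ∈ F, (tr (cj u a E)).re = F.card * (tr E).re := by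
      rw [Finset.sum_congr rfl fun a _ => by rw [cj_tr], Finset.sum_const, nsmul_eq_mul]
    rw [h1]
    refine mul_le_mul_of_nonneg_right ?_ hP.tr_nonneg
    exact_mod_cast hF1

end SMC

open SMC in
theorem pSMC : StSMC := by
  intro hJON hLP hSAT G K _ _ _ ι _ _ U hU h0 u hu i hi Gj q hmono hex hF hG0 hsmall
  -- the sequences
  have hseq : ∀ e : MUlt ι U, e ∈ Zc (Cmt fun k => u (i k)) → Pj e →
      ∃ E : ℕ → MUlt ι U, E 0 = e ∧ ∀ j, (E j ∈ Zc (Cmt fun k => u (i k)) ∧ Pj (E j) ∧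
        ∀ g ∈ Gj j, E j * u g = u g * E j) ∧ (tr (E j)).re ≤ (tr (E (j + 1))).re ∧
        (tr (E (j + 1))).re ≤ q * (tr (E j)).re := by
    intro e he hPe
    have hst : ∀ (j : ℕ) (E : MUlt ι U), (E ∈ Zc (Cmt fun k => u (i k)) ∧ Pj E ∧
        ∀ g ∈ Gj j, E * u g = u g * E) → ∃ J, (J ∈ Zc (Cmt fun k => u (i k)) ∧ Pj J ∧
        ∀ g ∈ Gj (j + 1), J * u g = u g * J) ∧ (tr E).re ≤ (tr J).re ∧
        (tr J).re ≤ q * (tr E).re := by
      rintro j E ⟨h1, h2, h3⟩
      obtain ⟨J, a1, a2, a3, a4, a5⟩ := step hJON u hu i hi (Gj j) (Gj (j + 1)) q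
        (hmono (Nat.le_succ j)) (hF j) E h1 h2 h3
      exact ⟨J, ⟨a1, a2, a3⟩, a4, a5⟩
    choose! N hN1 hN2 hN3 using hst
    let E : ℕ → MUlt ι U := fun j => Nat.rec e (fun j E => N j E) j
    have hE : ∀ j, E j ∈ Zc (Cmt fun k => u (i k)) ∧ Pj (E j) ∧
        ∀ g ∈ Gj j, E j * u g = u g * E j := by
      intro j
      induction j with
      | zero => exact ⟨he, hPe, fun g hg => hG0 g hg e he⟩
      | succ j ih => exact hN1 j _ ih
    exact ⟨E, rfl, fun j => ⟨hE j, hN2 j _ (hE j), hN3 j _ (hE j)⟩⟩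
  choose! E hE0 hE1 using hseq
  have hfin : ∀ (a : ℝ), 0 < a → (∀ J : ℕ, ∃ e : MUlt ι U, Pj e ∧
      (∀ g ∈ Gj J, e * u g = u g * e) ∧ a ≤ (tr e).re ∧ (tr e).re ≤ 1 / 2) →
      ∃ y : MUlt ι U, (∀ g, y * u g = u g * y) ∧ ∀ t : ℂ, y ≠ t • (1 : MUlt ι U) := by
    intro a ha h1
    obtain ⟨e, he, hc, ha1, ha2⟩ := hSAT hLP G ι U hU (fun g => u g) a (1 / 2) (by
      intro F
      have h2 : ∃ J, ∀ g ∈ F, g ∈ Gj J := by
        classical
        induction F using Finset.induction_on with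
        | empty => exact ⟨0, fun g hg => absurd hg (Finset.notMem_empty g)⟩
        | insert a s _ ih =>
          obtain ⟨J, hJ⟩ := ih
          obtain ⟨J', hJ'⟩ := hex a
          refine ⟨max J J', fun g hg => ?_⟩
          rcases Finset.mem_insert.1 hg with rfl | hg
          · exact hmono (le_max_right J J') hJ'
          · exact hmono (le_max_left J J') (hJ g hg)
      obtain ⟨J, hJ⟩ := h2
      obtain ⟨e, b1, b2, b3, b4⟩ := h1 J
      exact ⟨e, b1, fun g hg => b2 g (hJ g hg), b3, b4⟩)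
    exact ⟨e, hc, nonscalar h0 he (lt_of_lt_of_le ha ha1) ha2⟩
  have hq : 1 ≤ q := by
    obtain ⟨F, h1, _, h3⟩ := hF 0
    obtain ⟨f, hf, _⟩ := h3 1 (Gj 1).one_mem
    exact (Finset.card_pos.2 ⟨f, hf⟩).trans_le h1
  have hqR : (1 : ℝ) ≤ q := by exact_mod_cast hq
  have hqpos : (0 : ℝ) < q := by linarith
  by_cases hA : ∃ e ∈ Zc (Cmt fun k => u (i k)), Pj e ∧ e ≠ 0 ∧
      ∀ j, (tr (E e j)).re ≤ 1 / (2 * q)
  · obtain ⟨e, he, hPe, hne, hj⟩ := hA
    refine hfin (tr e).re (hPe.tr_pos hne) fun J => ⟨E e J, (hE1 e he hPe J).1.2.1,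
      (hE1 e he hPe J).1.2.2, ?_, (hj J).trans ?_⟩
    · have h1 : ∀ j, (tr e).re ≤ (tr (E e j)).re := by
        intro j
        induction j with
        | zero => rw [hE0 e he hPe]
        | succ j ih => exact ih.trans (hE1 e he hPe j).2.1
      exact h1 J
    · rw [one_div_le_one_div (by positivity) (by norm_num)]
      linarith
  · push Not at hA
    refine hfin (1 / (2 * q)) (by positivity) fun J => ?_
    have hδ : (0 : ℝ) < 1 / (2 * q ^ (J + 2)) := by positivity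
    obtain ⟨e, he, hPe, hne, hte⟩ := hsmall _ hδ
    have hex' := hA e he hPe hne
    classical
    let j := Nat.find hex'
    have hj1 : 1 / (2 * (q : ℝ)) < (tr (E e j)).re := Nat.find_spec hex'
    have hj2 : ∀ m < j, (tr (E e m)).re ≤ 1 / (2 * q) := fun m hm => not_lt.1 (Nat.find_min hex' hm)
    have hgrow : ∀ m, (tr (E e m)).re ≤ q ^ m * (tr e).re := by
      intro m
      induction m with
      | zero => rw [hE0 e he hPe, pow_zero, one_mul]
      | succ m ih =>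
        refine (hE1 e he hPe m).2.2.trans ?_
        rw [pow_succ']
        nlinarith
    have hJj : J < j := by
      by_contra hcon
      push Not at hcon
      have h1 := hgrow j
      have h2 : (q : ℝ) ^ j ≤ q ^ (J + 1) := pow_le_pow_right₀ hqR (by omega)
      have h3 : (tr (E e j)).re ≤ q ^ (J + 1) * (1 / (2 * q ^ (J + 2))) := by
        refine h1.trans (mul_le_mul h2 hte hPe.tr_nonneg (by positivity))
      have h4 : (q : ℝ) ^ (J + 1) * (1 / (2 * q ^ (J + 2))) = 1 / (2 * q) := by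
        rw [pow_succ (q : ℝ) (J + 1)]
        field_simp
      rw [h4] at h3
      linarith
    obtain ⟨m, hm⟩ : ∃ m, j = m + 1 := ⟨j - 1, by omega⟩
    refine ⟨E e j, (hE1 e he hPe j).1.2.1, fun g hg => (hE1 e he hPe j).1.2.2 g
      (hmono hJj.le hg), hj1.le, ?_⟩
    rw [hm]
    refine (hE1 e he hPe m).2.2.trans ?_
    have h1 := hj2 m (by omega)
    calc (q : ℝ) * (tr (E e m)).re ≤ q * (1 / (2 * q)) :=
          mul_le_mul_of_nonneg_left h1 hqpos.le
      _ = 1 / 2 := by field_simp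

end Helper53.NG
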