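import Pool.Agent.Helper53.NG.StA

/-!
# Project NG, module SML: small projections
-/

namespace Helper53.NG

open Helper51.MU Helper61.IE Filter Topology
open scoped Matrix.Norms.L2Operator MatrixOrder ComplexOrder

attribute [local irreducible] Helper51.MU.instRingMUlt

namespace SML

variable {ι : ℕ → Type} [∀ n, Fintype (ι n)] [∀ n, DecidableEq (ι n)] {U : Ultrafilter ℕ}

lemma eq_zero_of_star_mul {y : MUlt ι U} (h : star y * y = 0) : y = 0 := by
  have h1 : nrm y = 0 := by
    unfold nrm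
    rw [h, tr_zero, Complex.zero_re]
  exact nrm_eq_zero.1 h1

lemma nrm_self {b : MUlt ι U} (hb : star b = b) : ((nrm b : ℝ) : ℂ) = tr (b * b) := by
  have := tr_star_mul b
  rw [hb] at this
  exact this.symm

/-- a nonscalar selfadjoint element of the corner -/
lemma selfAdj {D : Set (MUlt ι U)} (hD : IsVN D) {e y : MUlt ι U} (he : Pj e)
    (hy : y ∈ D) (hey : e * y * e = y) (hns : ∀ c : ℂ, y ≠ c • e) :
    ∃ x ∈ D, star x = x ∧ e * x * e = x ∧ ∀ c : ℂ, x ≠ c • e := by
  have hys := hD.star y hy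
  have heys : e * star y * e = star y := by
    have h := congrArg star hey
    rw [star_mul, star_mul, he.1, ← mul_assoc] at h
    exact h
  by_contra hcon
  push Not at hcon
  obtain ⟨c1, h1⟩ := hcon (y + star y) (hD.add _ hy _ hys) (by
    rw [star_add, star_star, add_comm]) (by
    rw [mul_add, add_mul, hey, heys])
  obtain ⟨c2, h2⟩ := hcon ((Complex.I) • (y - star y)) (hD.smul _ _ (hD.sub hy hys)) (by
    rw [star_smul', star_sub, star_star, Complex.conj_I, neg_smul, ← smul_neg, neg_sub]) (by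
    rw [mul_smul_comm, smul_mul_assoc, mul_sub, sub_mul, hey, heys])
  refine hns ((1 / 2 : ℂ) * c1 + (-(Complex.I) / 2) * c2) ?_
  rw [add_smul, mul_smul, mul_smul, ← h1, ← h2, smul_smul]
  have : -Complex.I / 2 * Complex.I = 1 / 2 := by
    rw [div_mul_eq_mul_div, neg_mul, Complex.I_mul_I, neg_neg]
  rw [this, ← smul_add]
  have h3 : y + star y + (y - star y) = (2 : ℂ) • y := by
    rw [two_smul]; abel
  rw [h3, smul_smul]
  norm_num

/-- a proper nonzero subprojection -/
lemma proper (hPOS : POS) (hPOL : POL) (hU : Nonprincipal U) {D : Set (MUlt ι U)} (hD : IsVN D)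
    {e : MUlt ι U} (heD : e ∈ D) (he : Pj e) (he0 : e ≠ 0)
    (hy : ∃ y ∈ D, e * y * e = y ∧ ∀ c : ℂ, y ≠ c • e) :
    ∃ f ∈ D, Pj f ∧ f ≠ 0 ∧ e * f = f ∧ f ≠ e := by
  obtain ⟨y, hyD, hey, hns⟩ := hy
  obtain ⟨x, hxD, hxs, hex, hxn⟩ := selfAdj hD he hyD hey hns
  have hex' : e * x = x := by
    calc e * x = e * (e * x * e) := by rw [hex]
      _ = (e * e) * x * e := by simp only [mul_assoc]
      _ = x := by rw [he.2, hex]
  have hxe' : x * e = x := by
    calc x * e = (e * x * e) * e := by rw [hex]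
      _ = e * x * (e * e) := by simp only [mul_assoc]
      _ = x := by rw [he.2, hex]
  have htr0 : tr e ≠ 0 := by
    intro h
    have := he.tr_pos he0
    rw [h, Complex.zero_re] at this
    exact lt_irrefl _ this
  have hre : (starRingEnd ℂ) (tr e) = tr e := by
    have := tr_star e
    rw [he.1, RCLike.star_def] at this
    exact this.symm
  have hrx : (starRingEnd ℂ) (tr x) = tr x := by
    have := tr_star x
    rw [hxs, RCLike.star_def] at this
    exact this.symm
  obtain ⟨a, ha⟩ : ∃ a : MUlt ι U, a = x - (tr x / tr e) • e := ⟨_, rfl⟩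
  have haD : a ∈ D := by rw [ha]; exact hD.sub hxD (hD.smul _ _ heD)
  have has : star a = a := by
    rw [ha, star_sub, star_smul', hxs, he.1, map_div₀, hre, hrx]
  have ha0 : a ≠ 0 := by
    intro h
    rw [ha] at h
    exact hxn _ (sub_eq_zero.1 h)
  have hae : a * e = a := by
    rw [ha, sub_mul, hxe', smul_mul_assoc, he.2]
  have hea : e * a = a := by
    rw [ha, mul_sub, hex', mul_smul_comm, he.2]
  have hta : tr a = 0 := by
    rw [ha, tr_sub, tr_smul, div_mul_cancel₀ _ htr0, sub_self]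
  obtain ⟨b, hb, c, hc, hbs, hcs, habc, hbc⟩ := hPOS ι U D hD a haD has
  have htr : tr (b * b) = tr (c * c) := by
    have h := congrArg tr habc
    rw [hta, tr_sub] at h
    exact (sub_eq_zero.1 h.symm)
  have hn : nrm b = nrm c := by
    have h := htr
    rw [← nrm_self hbs, ← nrm_self hcs] at h
    exact_mod_cast h
  have hb0 : b ≠ 0 := by
    intro h
    have hc0 : c = 0 := nrm_eq_zero.1 (by rw [← hn, h, nrm_zero])
    rw [h, hc0, mul_zero, sub_zero] at habc
    exact ha0 habc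
  have hc0 : c ≠ 0 := by
    intro h
    exact hb0 (nrm_eq_zero.1 (by rw [hn, h, nrm_zero]))
  have hcc0 : c * c ≠ 0 := by
    intro h
    exact hc0 (eq_zero_of_star_mul (by rw [hcs, h]))
  -- `b² e = b²`
  have hbba : (b * b) * (b * b) = (b * b) * a := by
    rw [habc, mul_sub, hbc, sub_zero]
  have hbe : (b * b) * e = b * b := by
    have h1 : (b * b) * (b * b) * (1 - e) = 0 := by
      rw [hbba, mul_sub, mul_one, mul_assoc (b * b) a e, hae, sub_self]
    have h2 : star ((b * b) * (1 - e)) * ((b * b) * (1 - e)) = 0 := by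
      have h3 : star ((b * b) * (1 - e)) = star (1 - e) * (b * b) := by
        rw [star_mul, star_mul, hbs]
      rw [h3]
      calc star (1 - e) * (b * b) * ((b * b) * (1 - e))
          = star (1 - e) * ((b * b) * (b * b) * (1 - e)) := by simp only [mul_assoc]
        _ = 0 := by rw [h1, mul_zero]
    have h3 := eq_zero_of_star_mul h2
    rw [mul_sub, mul_one] at h3
    exact (sub_eq_zero.1 h3).symm
  have heb : e * (b * b) = b * b := by
    have h := congrArg star hbe
    rw [star_mul, star_mul, hbs, he.1] at h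
    exact h
  obtain ⟨g, hg, h, hh, hPj, hf0, hf1, hf2⟩ := hPOL ι U hU D hD b hb hb0
  rw [hbs] at hf1 hf2
  obtain ⟨f, hf⟩ : ∃ f : MUlt ι U, f = star (b * g) * (b * g) := ⟨_, rfl⟩
  rw [← hf] at hPj hf0 hf1 hf2
  have hfD : f ∈ D := by
    rw [hf1]
    exact hD.mul _ hh _ (hD.mul _ hb _ hb)
  refine ⟨f, hfD, hPj, hf0, ?_, ?_⟩
  · rw [hf2, ← mul_assoc, heb]
  · intro hfe
    have h1 : f * (c * c) = 0 := by
      rw [hf1, mul_assoc, hbc, mul_zero]
    have h2 : e * (c * c) = c * c := by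
      have h3 : c * c = b * b - a := by rw [habc]; abel
      rw [h3, mul_sub, heb, hea]
    rw [hfe, h2] at h1
    exact hcc0 h1

/-- halving -/
lemma halve {D : Set (MUlt ι U)} (hD : IsVN D) {e : MUlt ι U} (heD : e ∈ D) (he : Pj e)
    (hf : ∃ f ∈ D, Pj f ∧ f ≠ 0 ∧ e * f = f ∧ f ≠ e) :
    ∃ f ∈ D, Pj f ∧ f ≠ 0 ∧ e * f = f ∧ (tr f).re ≤ (tr e).re / 2 := by
  obtain ⟨f, hfD, hfp, hf0, hef, hfe⟩ := hf
  by_cases hle : (tr f).re ≤ (tr e).re / 2
  · exact ⟨f, hfD, hfp, hf0, hef, hle⟩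
  · have hfe' : f * e = f := by
      have h := congrArg star hef
      rw [star_mul, hfp.1, he.1] at h
      exact h
    refine ⟨e - f, hD.sub heD hfD, ⟨?_, ?_⟩, ?_, ?_, ?_⟩
    · rw [star_sub, he.1, hfp.1]
    · rw [sub_mul, mul_sub, mul_sub, he.2, hef, hfe', hfp.2]
      simp
    · intro h
      exact hfe (sub_eq_zero.1 h).symm
    · rw [mul_sub, he.2, hef]
    · rw [tr_sub, Complex.sub_re]
      push Not at hle
      linarith

end SML

theorem pSML : StSML := by
  intro hPOS hPOL ι _ _ U hU D hD q hqD hq hq0 hcor δ hδ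
  have step : ∀ e ∈ D, Pj e → e ≠ 0 → q * e = e →
      ∃ f ∈ D, Pj f ∧ f ≠ 0 ∧ q * f = f ∧ (tr f).re ≤ (tr e).re / 2 := by
    intro e heD he he0 hqe
    obtain ⟨f, hfD, hfp, hf0, hef, hle⟩ := SML.halve hD heD he
      (SML.proper hPOS hPOL hU hD heD he he0 (hcor e heD he he0 hqe))
    refine ⟨f, hfD, hfp, hf0, ?_, hle⟩
    calc q * f = q * (e * f) := by rw [hef]
      _ = (q * e) * f := by rw [mul_assoc]
      _ = f := by rw [hqe, hef]
  have iter : ∀ n : ℕ, ∃ e ∈ D, Pj e ∧ e ≠ 0 ∧ q * e = e ∧ (tr e).re ≤ (tr q).re * (1 / 2) ^ n := by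
    intro n
    induction n with
    | zero => exact ⟨q, hqD, hq, hq0, hq.2, by rw [pow_zero, mul_one]⟩
    | succ n ih =>
      obtain ⟨e, heD, he, he0, hqe, hle⟩ := ih
      obtain ⟨f, hfD, hfp, hf0, hqf, hlf⟩ := step e heD he he0 hqe
      refine ⟨f, hfD, hfp, hf0, hqf, ?_⟩
      rw [pow_succ]
      linarith
  have hlim : Tendsto (fun n : ℕ => (tr q).re * (1 / 2 : ℝ) ^ n) atTop (𝓝 0) := by
    have := (tendsto_pow_atTop_nhds_zero_of_lt_one (r := (1 / 2 : ℝ)) (by norm_num)
      (by norm_num)).const_mul (tr q).re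
    rwa [mul_zero] at this
  obtain ⟨n, hn⟩ := (hlim.eventually (gt_mem_nhds hδ)).exists
  obtain ⟨e, heD, he, he0, hqe, hle⟩ := iter n
  exact ⟨e, heD, he, he0, hqe, hle.trans (le_of_lt hn)⟩

end Helper53.NG
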