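import Pool.Agent.Helper53.NG.StB

/-!
# Project NG, module SPN: the closure of the span of a unitary group is a von Neumann algebra
-/

set_option linter.unusedSectionVars false

namespace Helper53.NG

open Helper51.MU Helper61.IE Filter Topology
open scoped Matrix.Norms.L2Operator MatrixOrder ComplexOrder

attribute [local irreducible] Helper51.MU.instRingMUlt

section spn

variable {ι : ℕ → Type} [∀ n, Fintype (ι n)] [∀ n, DecidableEq (ι n)] {U : Ultrafilter ℕ}

private lemma span_mul {G : Type} [Group G] (u : G →* MUlt ι U) {x y : MUlt ι U}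
    (hx : x ∈ Submodule.span ℂ (Set.range u)) (hy : y ∈ Submodule.span ℂ (Set.range u)) :
    x * y ∈ Submodule.span ℂ (Set.range u) := by
  induction hx using Submodule.span_induction with
  | mem x h =>
    obtain ⟨g, rfl⟩ := h
    induction hy using Submodule.span_induction with
    | mem y h =>
      obtain ⟨k, rfl⟩ := h
      rw [← map_mul]
      exact Submodule.subset_span ⟨_, rfl⟩
    | zero => rw [mul_zero]; exact Submodule.zero_mem _
    | add y z _ _ h1 h2 => rw [mul_add]; exact Submodule.add_mem _ h1 h2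
    | smul c y _ h1 => rw [mul_smul_comm]; exact Submodule.smul_mem _ _ h1
  | zero => rw [zero_mul]; exact Submodule.zero_mem _
  | add x z _ _ h1 h2 => rw [add_mul]; exact Submodule.add_mem _ h1 h2
  | smul c x _ h1 => rw [smul_mul_assoc]; exact Submodule.smul_mem _ _ h1

private lemma span_star {G : Type} [Group G] (u : G →* MUlt ι U)
    (hu : ∀ g, star (u g) * u g = 1) {x : MUlt ι U}
    (hx : x ∈ Submodule.span ℂ (Set.range u)) :
    star x ∈ Submodule.span ℂ (Set.range u) := by
  induction hx using Submodule.span_induction with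
  | mem x h =>
    obtain ⟨g, rfl⟩ := h
    rw [← hom_inv u hu]
    exact Submodule.subset_span ⟨_, rfl⟩
  | zero => rw [star_zero]; exact Submodule.zero_mem _
  | add x z _ _ h1 h2 => rw [star_add]; exact Submodule.add_mem _ h1 h2
  | smul c x _ h1 => rw [star_smul']; exact Submodule.smul_mem _ _ h1

theorem pSPN : StSPN := by
  intro G _ ι _ _ U u hu
  refine ⟨?_, ?_, ?_, ?_, ?_, ?_⟩
  · intro ε hε
    refine ⟨1, ?_, by rw [sub_self, nrm_zero]; exact hε⟩
    rw [← map_one u]
    exact Submodule.subset_span ⟨1, rfl⟩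
  · intro x hx y hy ε hε
    obtain ⟨x', hx', h1⟩ := hx (ε / 4) (by positivity)
    obtain ⟨y', hy', h2⟩ := hy (ε / 4) (by positivity)
    refine ⟨x' + y', Submodule.add_mem _ hx' hy', ?_⟩
    have e : x + y - (x' + y') = (x - x') + (y - y') := by abel
    rw [e]
    have := nrm_add_le (x - x') (y - y')
    linarith
  · intro x hx y hy ε hε
    obtain ⟨C, hC, hyC⟩ := exists_NB y
    obtain ⟨x', hx', h1⟩ := hx (ε / (4 * C ^ 2)) (by positivity)
    obtain ⟨D, hD, hxD⟩ := exists_NB x'
    obtain ⟨y', hy', h2⟩ := hy (ε / (4 * D ^ 2)) (by positivity)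
    refine ⟨x' * y', span_mul u hx' hy', ?_⟩
    have e : x * y - x' * y' = (x - x') * y + x' * (y - y') := by
      rw [sub_mul, mul_sub]; abel
    rw [e]
    have a0 := nrm_add_le ((x - x') * y) (x' * (y - y'))
    have a1 := nrm_mul_le' hyC (x - x')
    have a2 := nrm_mul_le hxD (y - y')
    have b1 : C ^ 2 * nrm (x - x') < ε / 4 := by
      have : C ^ 2 * nrm (x - x') < C ^ 2 * (ε / (4 * C ^ 2)) :=
        mul_lt_mul_of_pos_left h1 (by positivity)
      refine this.trans_eq ?_
      field_simp
    have b2 : D ^ 2 * nrm (y - y') < ε / 4 := by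
      have : D ^ 2 * nrm (y - y') < D ^ 2 * (ε / (4 * D ^ 2)) :=
        mul_lt_mul_of_pos_left h2 (by positivity)
      refine this.trans_eq ?_
      field_simp
    linarith
  · intro c x hx ε hε
    obtain ⟨x', hx', h1⟩ := hx (ε / (‖c‖ ^ 2 + 1)) (by positivity)
    refine ⟨c • x', Submodule.smul_mem _ _ hx', ?_⟩
    rw [← smul_sub, nrm_smul]
    have h0 := nrm_nonneg (x - x')
    have h3 : (‖c‖ ^ 2 + 1) * nrm (x - x') < ε := by
      have : (‖c‖ ^ 2 + 1) * nrm (x - x') < (‖c‖ ^ 2 + 1) * (ε / (‖c‖ ^ 2 + 1)) :=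
        mul_lt_mul_of_pos_left h1 (by positivity)
      refine this.trans_eq ?_
      field_simp
    nlinarith
  · intro x hx ε hε
    obtain ⟨x', hx', h1⟩ := hx ε hε
    refine ⟨star x', span_star u hu hx', ?_⟩
    rw [← star_sub, nrm_star]
    exact h1
  · intro x hx ε hε
    obtain ⟨y, hy, h1⟩ := hx (ε / 4) (by positivity)
    obtain ⟨z, hz, h2⟩ := hy (ε / 4) (by positivity)
    refine ⟨z, hz, ?_⟩
    have e : x - z = (x - y) + (y - z) := by abel
    rw [e]
    have := nrm_add_le (x - y) (y - z)
    linarith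

end spn

end Helper53.NG
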