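import Pool.Agent.Helper53.NG.StG

/-!
# Project NG, module SSR: root elements of `SS p`
-/

namespace Helper53.NG

open Polynomial

namespace SSR

section el

variable {n : Type} [Fintype n] [DecidableEq n] {A : Type} [CommRing A]

theorem el_val (i j : n) (h : i ≠ j) (r : A) :
    ((el i j h r : (Matrix n n A)ˣ) : Matrix n n A) = 1 + Matrix.single i j r := rfl

theorem el_add (i j : n) (h : i ≠ j) (r s : A) : el i j h (r + s) = el i j h r * el i j h s := by
  apply Units.ext
  rw [Units.val_mul, el_val, el_val, el_val]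
  have h1 : Matrix.single i j r * Matrix.single i j s = (0 : Matrix n n A) :=
    Matrix.single_mul_single_of_ne r i j i h.symm s
  have h2 : Matrix.single i j (r + s) = Matrix.single i j r + (Matrix.single i j s : Matrix n n A) :=
    Matrix.single_add i j r s
  rw [h2, mul_add, mul_one, add_mul, one_mul, h1, add_zero]
  abel

theorem el_zero (i j : n) (h : i ≠ j) : el i j h (0 : A) = 1 := by
  apply Units.ext
  rw [el_val, Units.val_one, Matrix.single_zero, add_zero]

theorem el_neg (i j : n) (h : i ≠ j) (r : A) : el i j h (-r) = (el i j h r)⁻¹ := by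
  apply eq_inv_of_mul_eq_one_left
  rw [← el_add, neg_add_cancel, el_zero]

theorem el_comm (i j k : n) (hij : i ≠ j) (hjk : j ≠ k) (hik : i ≠ k) (r s : A) :
    el i j hij r * el j k hjk s = el i k hik (r * s) * (el j k hjk s * el i j hij r) := by
  apply Units.ext
  rw [Units.val_mul, Units.val_mul, Units.val_mul, el_val, el_val, el_val]
  have ab : Matrix.single i j r * Matrix.single j k s = (Matrix.single i k (r * s) : Matrix n n A) :=
    Matrix.single_mul_single_same r i j k s
  have ba : Matrix.single j k s * Matrix.single i j r = (0 : Matrix n n A) :=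
    Matrix.single_mul_single_of_ne s j k i hik.symm r
  have aba : Matrix.single i k (r * s) * Matrix.single i j r = (0 : Matrix n n A) :=
    Matrix.single_mul_single_of_ne (r * s) i k i hik.symm r
  have abb : Matrix.single i k (r * s) * Matrix.single j k s = (0 : Matrix n n A) :=
    Matrix.single_mul_single_of_ne (r * s) i k j hjk.symm s
  have e1 : (1 + Matrix.single j k s) * (1 + Matrix.single i j r) =
      (1 + Matrix.single j k s + Matrix.single i j r : Matrix n n A) := by
    rw [mul_add, mul_one, add_mul, one_mul, ba, add_zero]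
  have e2 : (1 + Matrix.single i k (r * s)) *
      (1 + Matrix.single j k s + Matrix.single i j r) =
      (1 + Matrix.single j k s + Matrix.single i j r + Matrix.single i k (r * s) : Matrix n n A) := by
    rw [add_mul, one_mul, mul_add, mul_add, mul_one, aba, abb, add_zero, add_zero]
  rw [e1, e2, mul_add, mul_one, add_mul, one_mul, ab]
  abel

end el

variable (p : ℕ) [Fact p.Prime]

/-- the coefficients of the root elements in `SS p` -/
noncomputable def Q (i j : Fin 4) (h : i ≠ j) : AddSubgroup (ZMod p)[X] where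
  carrier := {r | el i j h r ∈ SS p}
  zero_mem' := by
    show el i j h (0 : (ZMod p)[X]) ∈ SS p
    rw [el_zero]
    exact (SS p).one_mem
  add_mem' := by
    intro r s hr hs
    show el i j h (r + s) ∈ SS p
    rw [el_add]
    exact (SS p).mul_mem hr hs
  neg_mem' := by
    intro r hr
    show el i j h (-r) ∈ SS p
    rw [el_neg]
    exact (SS p).inv_mem hr

theorem mem_Q {i j : Fin 4} {h : i ≠ j} {r : (ZMod p)[X]} : r ∈ Q p i j h ↔ el i j h r ∈ SS p :=
  Iff.rfl

theorem Q_mul {i j k : Fin 4} (hij : i ≠ j) (hjk : j ≠ k) (hik : i ≠ k) {r s : (ZMod p)[X]}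
    (hr : r ∈ Q p i j hij) (hs : s ∈ Q p j k hjk) : r * s ∈ Q p i k hik := by
  rw [mem_Q] at *
  have h := el_comm i j k hij hjk hik r s
  have h2 : el i k hik (r * s) =
      (el i j hij r * el j k hjk s) * (el j k hjk s * el i j hij r)⁻¹ := by
    rw [h, mul_inv_cancel_right]
  rw [h2]
  exact (SS p).mul_mem ((SS p).mul_mem hr hs) ((SS p).inv_mem ((SS p).mul_mem hs hr))

theorem monos (k : ℕ) : (X ^ k ∈ Q p 0 1 (by decide) ∧ X ^ k ∈ Q p 1 2 (by decide) ∧
    X ^ k ∈ Q p 0 2 (by decide)) ∧ X ^ (k + 1) ∈ Q p 2 0 (by decide) ∧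
    X ^ (k + 1) ∈ Q p 2 1 (by decide) ∧ X ^ (k + 1) ∈ Q p 1 0 (by decide) := by
  have a01 : (1 : (ZMod p)[X]) ∈ Q p 0 1 (by decide) :=
    Subgroup.subset_closure (by simp)
  have a12 : (1 : (ZMod p)[X]) ∈ Q p 1 2 (by decide) :=
    Subgroup.subset_closure (by simp)
  have a20 : (X : (ZMod p)[X]) ∈ Q p 2 0 (by decide) :=
    Subgroup.subset_closure (by simp)
  have a02 : (1 : (ZMod p)[X]) ∈ Q p 0 2 (by decide) := by
    have := Q_mul p (i := 0) (j := 1) (k := 2) (by decide) (by decide) (by decide) a01 a12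
    rwa [mul_one] at this
  have a21 : (X : (ZMod p)[X]) ∈ Q p 2 1 (by decide) := by
    have := Q_mul p (i := 2) (j := 0) (k := 1) (by decide) (by decide) (by decide) a20 a01
    rwa [mul_one] at this
  have a10 : (X : (ZMod p)[X]) ∈ Q p 1 0 (by decide) := by
    have := Q_mul p (i := 1) (j := 2) (k := 0) (by decide) (by decide) (by decide) a12 a20
    rwa [one_mul] at this
  induction k with
  | zero =>
    simp only [pow_zero, zero_add, pow_one]
    exact ⟨⟨a01, a12, a02⟩, a20, a21, a10⟩
  | succ k ih =>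
    obtain ⟨⟨b01, b12, b02⟩, b20, b21, b10⟩ := ih
    have c01 : X ^ (k + 1) ∈ Q p 0 1 (by decide) := by
      have := Q_mul p (i := 0) (j := 2) (k := 1) (by decide) (by decide) (by decide) b02 a21
      rwa [← pow_succ] at this
    have c12 : X ^ (k + 1) ∈ Q p 1 2 (by decide) := by
      have := Q_mul p (i := 1) (j := 0) (k := 2) (by decide) (by decide) (by decide) a10 b02
      rwa [← pow_succ'] at this
    have c02 : X ^ (k + 1) ∈ Q p 0 2 (by decide) := by
      have := Q_mul p (i := 0) (j := 1) (k := 2) (by decide) (by decide) (by decide) c01 a12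
      rwa [mul_one] at this
    have c20 : X ^ (k + 1 + 1) ∈ Q p 2 0 (by decide) := by
      have := Q_mul p (i := 2) (j := 1) (k := 0) (by decide) (by decide) (by decide) b21 a10
      rwa [← pow_succ] at this
    have c21 : X ^ (k + 1 + 1) ∈ Q p 2 1 (by decide) := by
      have := Q_mul p (i := 2) (j := 0) (k := 1) (by decide) (by decide) (by decide) c20 a01
      rwa [mul_one] at this
    have c10 : X ^ (k + 1 + 1) ∈ Q p 1 0 (by decide) := by
      have := Q_mul p (i := 1) (j := 2) (k := 0) (by decide) (by decide) (by decide) c12 a20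
      rwa [← pow_succ] at this
    exact ⟨⟨c01, c12, c02⟩, c20, c21, c10⟩

/-- scalars from the prime field -/
theorem mono_mem (B : AddSubgroup (ZMod p)[X]) (m : ℕ) (hB : X ^ m ∈ B) (c : ZMod p) :
    monomial m c ∈ B := by
  have h1 : monomial m c = c.val • (X ^ m : (ZMod p)[X]) := by
    rw [nsmul_eq_mul, ← C_mul_X_pow_eq_monomial]
    congr 1
    have h2 : (C (c.val : ZMod p) : (ZMod p)[X]) = (c.val : (ZMod p)[X]) := map_natCast C c.val
    rw [← h2, ZMod.natCast_zmod_val]
  rw [h1]
  exact B.nsmul_mem hB _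

theorem all_mem (B : AddSubgroup (ZMod p)[X]) (hB : ∀ k, X ^ k ∈ B) (r : (ZMod p)[X]) : r ∈ B := by
  induction r using Polynomial.induction_on' with
  | add f g hf hg => exact B.add_mem hf hg
  | monomial m c => exact mono_mem p B m (hB m) c

theorem all_mem_X (B : AddSubgroup (ZMod p)[X]) (hB : ∀ k, X ^ (k + 1) ∈ B) (r : (ZMod p)[X]) :
    X * r ∈ B := by
  induction r using Polynomial.induction_on' with
  | add f g hf hg => rw [mul_add]; exact B.add_mem hf hg
  | monomial m c =>
    rw [X_mul_monomial]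
    exact mono_mem p B (m + 1) (hB m) c

end SSR

open SSR in
theorem pSSR : StSS := by
  intro p _ i j h hi hj r
  have h3 : ∀ k : Fin 4, k ≠ 3 → k = 0 ∨ k = 1 ∨ k = 2 := by decide
  have key : (∀ k, X ^ (k + 1) ∈ Q p i j h) ∧ (i < j → ∀ k, X ^ k ∈ Q p i j h) := by
    rcases h3 i hi with rfl | rfl | rfl
    · rcases h3 j hj with rfl | rfl | rfl
      · exact absurd rfl h
      · exact ⟨fun k => (monos p (k + 1)).1.1, fun _ k => (monos p k).1.1⟩
      · exact ⟨fun k => (monos p (k + 1)).1.2.2, fun _ k => (monos p k).1.2.2⟩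
    · rcases h3 j hj with rfl | rfl | rfl
      · exact ⟨fun k => (monos p k).2.2.2, fun hlt => absurd hlt (by decide)⟩
      · exact absurd rfl h
      · exact ⟨fun k => (monos p (k + 1)).1.2.1, fun _ k => (monos p k).1.2.1⟩
    · rcases h3 j hj with rfl | rfl | rfl
      · exact ⟨fun k => (monos p k).2.1, fun hlt => absurd hlt (by decide)⟩
      · exact ⟨fun k => (monos p k).2.2.1, fun hlt => absurd hlt (by decide)⟩
      · exact absurd rfl h
  obtain ⟨k1, k2⟩ := key
  exact ⟨all_mem_X p _ k1 r, fun hlt => all_mem p _ (k2 hlt) r⟩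

end Helper53.NG
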