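import Pool.Agent.Helper53.NG.StB

/-!
# Project NG, module SUP: the support of an intertwiner
-/

set_option linter.unusedSectionVars false

namespace Helper53.NG

open Helper51.MU Helper61.IE Filter Topology
open scoped Matrix.Norms.L2Operator MatrixOrder ComplexOrder

attribute [local irreducible] Helper51.MU.instRingMUlt

namespace SUP

section

variable {K : Type} [Group K] {l r b : ℕ → ℕ} {U : Ultrafilter ℕ}
  {u : K →* MUlt (fun n => Fin (l n)) U} {c : K →* MUlt (fun n => Fin (r n)) U}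
  {V : MUlt (fun n => Fin (l n) ⊕ (Fin (b n) × Fin (r n))) U}

/-- `y ↦ 0 ⊕ (1 ⊗ y)` -/
noncomputable def Ra (l b r : ℕ → ℕ) (U : Ultrafilter ℕ) (y : MUlt (fun n => Fin (r n)) U) :
    MUlt (fun n => Fin (l n) ⊕ (Fin (b n) × Fin (r n))) U :=
  inrM (fun n => Fin (l n)) (amp b y)

lemma Ra_mul (x y : MUlt (fun n => Fin (r n)) U) :
    Ra l b r U (x * y) = Ra l b r U x * Ra l b r U y := by
  unfold Ra; rw [map_mul, map_mul]

lemma Ra_add (x y : MUlt (fun n => Fin (r n)) U) :
    Ra l b r U (x + y) = Ra l b r U x + Ra l b r U y := by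
  unfold Ra; rw [map_add, map_add]

lemma Ra_sub (x y : MUlt (fun n => Fin (r n)) U) :
    Ra l b r U (x - y) = Ra l b r U x - Ra l b r U y := by
  unfold Ra; rw [map_sub, map_sub]

lemma Ra_zero : Ra l b r U 0 = 0 := by
  unfold Ra; rw [map_zero, map_zero]

lemma Ra_star (x : MUlt (fun n => Fin (r n)) U) :
    Ra l b r U (star x) = star (Ra l b r U x) := by
  unfold Ra; rw [amp_star, map_star]

lemma nrm_Ra_le (hb : ∀ᶠ n in (U : Filter ℕ), 0 < b n) (x : MUlt (fun n => Fin (r n)) U) :
    nrm (Ra l b r U x) ≤ nrm x := by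
  unfold Ra
  refine (nrm_expd_le _ _).trans (le_of_eq ?_)
  exact nrm_amp b hb x

lemma cmpL (h : Itw u r b c V) :
    Cmp (fun n => Fin (l n)) (fun n => Fin (l n) ⊕ (Fin (b n) × Fin (r n))) U := by
  obtain ⟨C, hC⟩ := h.cmp
  refine ⟨1 + C, ?_⟩
  filter_upwards [hC] with n hn
  simp only [Fintype.card_sum, Fintype.card_prod, Fintype.card_fin]
  push_cast
  linarith [hn.2]

lemma cmpR (h : Itw u r b c V) :
    Cmp (fun n => Fin (b n) × Fin (r n)) (fun n => Fin (l n) ⊕ (Fin (b n) × Fin (r n))) U := by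
  obtain ⟨C, hC⟩ := h.cmp
  refine ⟨1 + C, ?_⟩
  filter_upwards [hC] with n hn
  simp only [Fintype.card_sum, Fintype.card_prod, Fintype.card_fin]
  push_cast
  linarith [hn.1]

/-- the left corner -/
lemma itwA (h : Itw u r b c V) {w : MUlt (fun n => Fin (r n)) U} (hw : w ∈ Cmt (fun k => c k))
    (k : K) : inlM (fun n => Fin (b n) × Fin (r n)) (u k) * (V * Ra l b r U w) =
      (V * Ra l b r U w) * Ra l b r U (c k) := by
  rw [← mul_assoc, h.itw k, mul_assoc, mul_assoc]
  congr 1
  have h1 : inrM (fun n => Fin (l n)) (amp b (c k)) = Ra l b r U (c k) := rfl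
  rw [h1, ← Ra_mul, ← Ra_mul, hw k]

lemma itwA' (hu : ∀ k, star (u k) * u k = 1) (h : Itw u r b c V)
    {w : MUlt (fun n => Fin (r n)) U} (hw : w ∈ Cmt (fun k => c k)) (k : K) :
    star (V * Ra l b r U w) * inlM (fun n => Fin (b n) × Fin (r n)) (u k) =
      Ra l b r U (c k) * star (V * Ra l b r U w) := by
  have h1 := congrArg star (itwA h hw k⁻¹)
  rw [star_mul, star_mul (V * Ra l b r U w), ← map_star, hom_inv u hu, star_star,
    ← Ra_star, hom_inv c h.unit, star_star] at h1
  exact h1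

lemma commA (hu : ∀ k, star (u k) * u k = 1) (h : Itw u r b c V)
    {w : MUlt (fun n => Fin (r n)) U} (hw : w ∈ Cmt (fun k => c k)) (k : K) :
    ((V * Ra l b r U w) * star (V * Ra l b r U w)) *
        inlM (fun n => Fin (b n) × Fin (r n)) (u k) =
      inlM (fun n => Fin (b n) × Fin (r n)) (u k) *
        ((V * Ra l b r U w) * star (V * Ra l b r U w)) := by
  rw [mul_assoc, itwA' hu h hw, ← mul_assoc, ← itwA h hw, mul_assoc]

/-- `A A*` comes from the commutant of `u` -/
lemma exists_P (hu : ∀ k, star (u k) * u k = 1) (h : Itw u r b c V)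
    {w : MUlt (fun n => Fin (r n)) U} (hw : w ∈ Cmt (fun k => c k)) :
    ∃ P ∈ Cmt (fun k => u k), inlM (fun n => Fin (b n) × Fin (r n)) P =
      (V * Ra l b r U w) * star (V * Ra l b r U w) := by
  have h1 : inlM (fun n => Fin (b n) × Fin (r n)) (1 : MUlt (fun n => Fin (l n)) U) *
      (V * Ra l b r U w) = V * Ra l b r U w := by
    rw [← mul_assoc, h.corl]
  have h2 : star (V * Ra l b r U w) *
      inlM (fun n => Fin (b n) × Fin (r n)) (1 : MUlt (fun n => Fin (l n)) U) =
      star (V * Ra l b r U w) := by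
    have := congrArg star h1
    rw [star_mul, ← map_star, star_one] at this
    exact this
  obtain ⟨P, hP⟩ := expd_range (JL (fun n => Fin (l n)) (fun n => Fin (b n) × Fin (r n)))
    (cmpL h) ((V * Ra l b r U w) * star (V * Ra l b r U w)) (by
      rw [← mul_assoc, h1, mul_assoc, h2])
  refine ⟨P, fun k => ?_, hP⟩
  apply expd_injective (JL (fun n => Fin (l n)) (fun n => Fin (b n) × Fin (r n))) (cmpL h)
  rw [map_mul, map_mul, hP]
  exact commA hu h hw k

/-- `V* d V` comes from an intertwiner -/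
lemma exists_X (hu : ∀ k, star (u k) * u k = 1) (h : Itw u r b c V)
    {d : MUlt (fun n => Fin (l n)) U} (hd : d ∈ Cmt (fun k => u k)) :
    ∃ X : MUlt (fun n => Fin (b n) × Fin (r n)) U,
      inrM (fun n => Fin (l n)) X =
        star V * inlM (fun n => Fin (b n) × Fin (r n)) d * V ∧
      ∀ k, amp b (c k) * X = X * amp b (c k) := by
  have h2 : inrM (fun n => Fin (l n)) (1 : MUlt (fun n => Fin (b n) × Fin (r n)) U) * star V =
      star V := by
    have := congrArg star h.corr
    rw [star_mul, ← map_star, star_one] at this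
    exact this
  obtain ⟨X, hX⟩ := expd_range (JR (fun n => Fin (l n)) (fun n => Fin (b n) × Fin (r n)))
    (cmpR h) (star V * inlM (fun n => Fin (b n) × Fin (r n)) d * V) (by
      rw [← mul_assoc, ← mul_assoc, h2, mul_assoc _ V, h.corr])
  refine ⟨X, hX, fun k => ?_⟩
  apply expd_injective (JR (fun n => Fin (l n)) (fun n => Fin (b n) × Fin (r n))) (cmpR h)
  rw [map_mul, map_mul, hX]
  have h3 : inrM (fun n => Fin (l n)) (amp b (c k)) * star V =
      star V * inlM (fun n => Fin (b n) × Fin (r n)) (u k) := by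
    have h4 := h.itw k⁻¹
    rw [hom_inv u hu, hom_inv c h.unit, map_star, amp_star, map_star] at h4
    have h6 := congrArg star h4
    rw [star_mul, star_mul V, star_star, star_star] at h6
    exact h6.symm
  rw [← mul_assoc, ← mul_assoc, h3, mul_assoc _ V, ← h.itw k]
  have h5 : inlM (fun n => Fin (b n) × Fin (r n)) (u k) *
      inlM (fun n => Fin (b n) × Fin (r n)) d =
      inlM (fun n => Fin (b n) × Fin (r n)) d *
      inlM (fun n => Fin (b n) × Fin (r n)) (u k) := by
    rw [← map_mul, ← map_mul, hd k]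
  rw [mul_assoc (star V), h5]
  simp only [mul_assoc]

lemma eq_zero_of_mul_star {ι : ℕ → Type} [∀ n, Fintype (ι n)] [∀ n, DecidableEq (ι n)]
    {A : MUlt ι U} (h : A * star A = 0) : A = 0 := by
  have h1 : nrm (star A) = 0 := by
    unfold nrm
    rw [star_star, h, tr_zero, Complex.zero_re]
  have h2 := nrm_eq_zero.1 h1
  rw [← star_star A, h2, star_zero]

end

end SUP

open SUP

theorem pSUP : StSUP := by
  intro hIDL hCBK K I _ _ _ p x N l U hU hT hI u hu hprime r b c V h
  have hC : IsVN (Cmt (fun k => c k)) := isVN_cmt_hom c h.unit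
  -- the ideal
  set J : Set (MUlt (fun n => Fin (r n)) U) :=
    {y | y ∈ Cmt (fun k => c k) ∧ ∀ x ∈ Cmt (fun k => c k), V * Ra l b r U (x * y) = 0} with hJ
  obtain ⟨q, hqJ, hqP, hqZ, hq⟩ := hIDL (fun n => Fin (r n)) U hU (Cmt (fun k => c k)) J hC
    (fun y hy => hy.1)
    ⟨hC.zero, fun x _ => by rw [mul_zero, Ra_zero, mul_zero]⟩
    (fun y hy y' hy' => ⟨hC.add y hy.1 y' hy'.1, fun x hx => by
      rw [mul_add, Ra_add, mul_add, hy.2 x hx, hy'.2 x hx, add_zero]⟩)
    (fun y hy d hd => ⟨⟨hC.mul d hd y hy.1, fun x hx => by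
        rw [← mul_assoc]; exact hy.2 (x * d) (hC.mul x hx d hd)⟩,
      ⟨hC.mul y hy.1 d hd, fun x hx => by
        rw [← mul_assoc, Ra_mul, ← mul_assoc, hy.2 x hx, zero_mul]⟩⟩)
    (by
      intro y hy hcl
      refine ⟨hy, fun x hx => ?_⟩
      obtain ⟨CV, hCV0, hCV⟩ := exists_NB V
      obtain ⟨Cx, hCx0, hCx⟩ := exists_NB x
      apply nrm_eq_zero.1
      by_contra hne
      have hpos : 0 < nrm (V * Ra l b r U (x * y)) :=
        lt_of_le_of_ne (nrm_nonneg _) (Ne.symm hne)
      obtain ⟨y', hy', hlt⟩ := hcl (nrm (V * Ra l b r U (x * y)) / (2 * (CV ^ 2 * Cx ^ 2)))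
        (by positivity)
      have e1 : V * Ra l b r U (x * y) = V * Ra l b r U (x * (y - y')) := by
        rw [mul_sub, Ra_sub, mul_sub, hy'.2 x hx, sub_zero]
      have e2 : nrm (V * Ra l b r U (x * y)) ≤ CV ^ 2 * (Cx ^ 2 * nrm (y - y')) := by
        rw [e1]
        refine (nrm_mul_le hCV _).trans ?_
        refine mul_le_mul_of_nonneg_left ?_ (by positivity)
        exact (nrm_Ra_le h.posb _).trans (nrm_mul_le hCx _)
      have e3 : CV ^ 2 * (Cx ^ 2 * nrm (y - y')) <
          CV ^ 2 * (Cx ^ 2 * (nrm (V * Ra l b r U (x * y)) / (2 * (CV ^ 2 * Cx ^ 2)))) := by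
        have : 0 < CV ^ 2 := by positivity
        have : 0 < Cx ^ 2 := by positivity
        gcongr
      have e4 : CV ^ 2 * (Cx ^ 2 * (nrm (V * Ra l b r U (x * y)) / (2 * (CV ^ 2 * Cx ^ 2)))) =
          nrm (V * Ra l b r U (x * y)) / 2 := by
        field_simp
      linarith)
  have hz : ∀ e, e * (1 - q) = e → e * q = e → e = 0 := by
    intro e h1 h2
    rw [← h1, mul_sub, mul_one, h2, sub_self]
  refine ⟨1 - q, (isVN_zc hC).sub (isVN_zc hC).one hqZ, hqP.one_sub, ?_, ?_, ?_⟩
  · -- nonzero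
    intro h0
    have hq1 : q = 1 := (sub_eq_zero.1 h0).symm
    have h1 := hqJ.2 1 hC.one
    rw [hq1, mul_one] at h1
    have h2 : Ra l b r U 1 =
        inrM (fun n => Fin (l n)) (1 : MUlt (fun n => Fin (b n) × Fin (r n)) U) := by
      unfold Ra; rw [map_one]
    rw [h2, h.corr] at h1
    exact h.ne h1
  · intro y₁ hy₁ y₂ hy₂ hz1 hz2 hd
    have key : star y₁ ∈ J ∨ y₂ ∈ J := by
      by_contra hcon
      rw [not_or] at hcon
      obtain ⟨hn1, hn2⟩ := hcon
      have hs1 : star y₁ ∈ Cmt (fun k => c k) := hC.star y₁ hy₁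
      have hx1 : ∃ x ∈ Cmt (fun k => c k), V * Ra l b r U (x * star y₁) ≠ 0 := by
        by_contra hc
        push Not at hc
        exact hn1 ⟨hs1, hc⟩
      have hx2 : ∃ x ∈ Cmt (fun k => c k), V * Ra l b r U (x * y₂) ≠ 0 := by
        by_contra hc
        push Not at hc
        exact hn2 ⟨hy₂, hc⟩
      obtain ⟨x₁, hx₁, hA1⟩ := hx1
      obtain ⟨x₂, hx₂, hA2⟩ := hx2
      obtain ⟨P₁, hP₁, hP₁'⟩ := exists_P hu h (hC.mul _ hx₁ _ hs1)
      obtain ⟨P₂, hP₂, hP₂'⟩ := exists_P hu h (hC.mul _ hx₂ _ hy₂)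
      have hPP : ∀ d ∈ Cmt (fun k => u k), P₁ * d * P₂ = 0 := by
        intro d hdD
        obtain ⟨X, hX, hX'⟩ := exists_X hu h hdD
        have h1 := hCBK K I p x N (fun n => Fin (r n)) U hU hT hI c c h.unit h.unit
          (y₁ * star x₁) (x₂ * y₂) (by
            intro y hy
            have hyC : y ∈ Cmt (fun k => c k) := fun k => (hy k).symm
            have h2 := hd (star x₁ * y * x₂)
              (hC.mul _ (hC.mul _ (hC.star _ hx₁) _ hyC) _ hx₂)
            rw [← h2]
            simp only [mul_assoc]) b X hX'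
        have h3 : star (V * Ra l b r U (x₁ * star y₁)) *
            inlM (fun n => Fin (b n) × Fin (r n)) d * (V * Ra l b r U (x₂ * y₂)) = 0 := by
          have h4 := congrArg (inrM (fun n => Fin (l n))) h1
          rw [map_mul, map_mul, hX, map_zero] at h4
          rw [star_mul, ← Ra_star, star_mul, star_star, ← h4]
          unfold Ra
          simp only [mul_assoc]
        apply expd_injective (JL (fun n => Fin (l n)) (fun n => Fin (b n) × Fin (r n))) (cmpL h)
        rw [map_mul, map_mul, map_zero, hP₁', hP₂']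
        calc _ = (V * Ra l b r U (x₁ * star y₁)) * (star (V * Ra l b r U (x₁ * star y₁)) *
            inlM (fun n => Fin (b n) × Fin (r n)) d * (V * Ra l b r U (x₂ * y₂))) *
            star (V * Ra l b r U (x₂ * y₂)) := by simp only [mul_assoc]
          _ = 0 := by rw [h3, mul_zero, zero_mul]
      rcases hprime P₁ hP₁ P₂ hP₂ hPP with h0 | h0
      · rw [h0, map_zero] at hP₁'
        exact hA1 (eq_zero_of_mul_star hP₁'.symm)
      · rw [h0, map_zero] at hP₂'
        exact hA2 (eq_zero_of_mul_star hP₂'.symm)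
    rcases key with hk | hk
    · left
      have h1 := congrArg star (hq _ hk)
      rw [star_mul, star_star, hqP.1] at h1
      have h2 : y₁ * q = y₁ := by rw [← hqZ.2 y₁ hy₁, h1]
      exact hz _ hz1 h2
    · right
      exact hz _ hz2 (hq _ hk)
  · intro e he hez hne
    by_contra hcon
    push Not at hcon
    exact hne (hz _ hez (hq e ⟨he, hcon⟩))

end Helper53.NG
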