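import Pool.Agent.Helper53.NG.StT

/-!
# Project NG, module T1: the Heisenberg pair inequality
-/

namespace Helper53.NG

namespace T1

open Finset

section ring

variable {V : Type} [NormedAddCommGroup V] [InnerProductSpace ℂ V]

/-- The average of the powers of `u`. -/
noncomputable def av (p : ℕ) (u : V →ₗ[ℂ] V) : V →ₗ[ℂ] V :=
  (p : ℂ)⁻¹ • ∑ j ∈ range p, u ^ j

theorem sum_shift {p : ℕ} {u : V →ₗ[ℂ] V} (hu : u ^ p = 1) :
    ∑ j ∈ range p, u ^ (j + 1) = ∑ j ∈ range p, u ^ j := by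
  have h1 := sum_range_succ (fun j => u ^ j) p
  have h2 := sum_range_succ' (fun j => u ^ j) p
  rw [h1, hu, pow_zero] at h2
  exact (add_right_cancel h2).symm

theorem mul_av {p : ℕ} {u : V →ₗ[ℂ] V} (hu : u ^ p = 1) : u * av p u = av p u := by
  unfold av
  rw [mul_smul_comm, mul_sum, ← sum_shift hu]
  congr 1
  refine sum_congr rfl fun j _ => ?_
  rw [pow_succ']

theorem pow_mul_av {p : ℕ} {u : V →ₗ[ℂ] V} (hu : u ^ p = 1) (k : ℕ) :
    u ^ k * av p u = av p u := by
  induction k with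
  | zero => rw [pow_zero, one_mul]
  | succ k ih => rw [pow_succ, mul_assoc, mul_av hu, ih]

theorem av_mul {p : ℕ} (hp : p ≠ 0) {u y : V →ₗ[ℂ] V} (h : u * y = y) : av p u * y = y := by
  have h1 : ∀ k : ℕ, u ^ k * y = y := by
    intro k
    induction k with
    | zero => rw [pow_zero, one_mul]
    | succ k ih => rw [pow_succ, mul_assoc, h, ih]
  unfold av
  rw [smul_mul_assoc, sum_mul, sum_congr rfl fun k _ => h1 k, sum_const, card_range,
    ← Nat.cast_smul_eq_nsmul ℂ, smul_smul, inv_mul_cancel₀ (by exact_mod_cast hp), one_smul]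

theorem av_av {p : ℕ} (hp : p ≠ 0) {u : V →ₗ[ℂ] V} (hu : u ^ p = 1) :
    av p u * av p u = av p u := av_mul hp (mul_av hu)

theorem av_comm {p : ℕ} {u y : V →ₗ[ℂ] V} (h : u * y = y * u) : av p u * y = y * av p u := by
  have h1 : Commute u y := h
  unfold av
  rw [smul_mul_assoc, mul_smul_comm, sum_mul, mul_sum]
  congr 1
  exact sum_congr rfl fun k _ => (h1.pow_left k).eq

theorem pow_norm {u : V →ₗ[ℂ] V} (hu : ∀ v, ‖u v‖ = ‖v‖) (k : ℕ) (v : V) :
    ‖(u ^ k) v‖ = ‖v‖ := by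
  induction k with
  | zero => simp
  | succ k ih =>
    rw [pow_succ', Module.End.mul_apply, hu, ih]

theorem inner_pres {u : V →ₗ[ℂ] V} (hu : ∀ v, ‖u v‖ = ‖v‖) (v w : V) :
    inner ℂ (u v) (u w) = inner ℂ v w := by
  let U : V →ₗᵢ[ℂ] V := ⟨u, hu⟩
  exact U.inner_map_map v w

theorem inner_pow {p : ℕ} {u : V →ₗ[ℂ] V} (hu : ∀ v, ‖u v‖ = ‖v‖) (hp : u ^ p = 1) {j : ℕ}
    (hj : j ≤ p) (v w : V) : inner ℂ ((u ^ j) v) w = inner ℂ v ((u ^ (p - j)) w) := by
  rw [← inner_pres (pow_norm hu (p - j)) ((u ^ j) v) w, ← Module.End.mul_apply, ← pow_add,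
    Nat.sub_add_cancel hj, hp, Module.End.one_apply]

theorem av_apply (p : ℕ) (u : V →ₗ[ℂ] V) (v : V) :
    av p u v = (p : ℂ)⁻¹ • ∑ j ∈ range p, (u ^ j) v := by
  unfold av
  rw [LinearMap.smul_apply, LinearMap.sum_apply]

theorem inner_av {p : ℕ} {u : V →ₗ[ℂ] V} (hu : ∀ v, ‖u v‖ = ‖v‖) (hp : u ^ p = 1) (v w : V) :
    inner ℂ (av p u v) w = inner ℂ v (av p u w) := by
  rw [av_apply, av_apply, inner_smul_left, inner_smul_right, sum_inner, inner_sum, map_inv₀,
    Complex.conj_natCast]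
  congr 1
  rw [← sum_range_reflect (fun j => inner ℂ v ((u ^ j) w))]
  have h1 : ∀ j ∈ range p, inner ℂ ((u ^ j) v) w = inner ℂ v ((u ^ (p - 1 - j + 1)) w) := by
    intro j hj
    rw [mem_range] at hj
    rw [inner_pow hu hp hj.le]
    congr 3
    omega
  rw [sum_congr rfl h1, sum_range_reflect (fun j => inner ℂ v ((u ^ (j + 1)) w)),
    sum_range_reflect (fun j => inner ℂ v ((u ^ j) w)), ← inner_sum, ← inner_sum,
    ← LinearMap.sum_apply, ← LinearMap.sum_apply, sum_shift hp]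

end ring

section heis

variable {V : Type} [NormedAddCommGroup V] [InnerProductSpace ℂ V]
variable {p : ℕ} {a b z : V →ₗ[ℂ] V}

theorem a_pow_b (hab : a * b = z * (b * a)) (hzb : z * b = b * z) (n : ℕ) :
    a * b ^ n = z ^ n * (b ^ n * a) := by
  have hzb' : Commute z b := hzb
  induction n with
  | zero => simp
  | succ n ih =>
    have h1 : z ^ n * b ^ n * z = z * (z ^ n * b ^ n) := by
      have hz : Commute z (z ^ n * b ^ n) :=
        ((Commute.refl z).pow_right n).mul_right (hzb'.pow_right n)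
      exact hz.eq.symm
    calc a * b ^ (n + 1) = (a * b ^ n) * b := by rw [pow_succ, mul_assoc]
      _ = z ^ n * b ^ n * (a * b) := by rw [ih]; simp only [mul_assoc]
      _ = z ^ n * b ^ n * z * (b * a) := by rw [hab]; simp only [mul_assoc]
      _ = z ^ (n + 1) * (b ^ (n + 1) * a) := by
          rw [h1, pow_succ', pow_succ]; simp only [mul_assoc]

theorem pow_a_pow_b (hab : a * b = z * (b * a)) (hza : z * a = a * z) (hzb : z * b = b * z)
    (k n : ℕ) : a ^ k * b ^ n = (z ^ n) ^ k * (b ^ n * a ^ k) := by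
  have hza' : Commute z a := hza
  induction k with
  | zero => simp
  | succ k ih =>
    have h1 : a * (z ^ n) ^ k = (z ^ n) ^ k * a :=
      ((hza'.symm.pow_right n).pow_right k).eq
    calc a ^ (k + 1) * b ^ n = a * (a ^ k * b ^ n) := by rw [pow_succ', mul_assoc]
      _ = (a * (z ^ n) ^ k) * (b ^ n * a ^ k) := by rw [ih, mul_assoc]
      _ = (z ^ n) ^ k * (a * b ^ n) * a ^ k := by rw [h1]; simp only [mul_assoc]
      _ = (z ^ n) ^ (k + 1) * (b ^ n * a ^ (k + 1)) := by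
          rw [a_pow_b hab hzb, pow_succ (z ^ n), pow_succ' a]; simp only [mul_assoc]

theorem z_pow (hp : p ≠ 0) (ha : a ^ p = 1) (hb : b ^ p = 1) (hab : a * b = z * (b * a))
    (hzb : z * b = b * z) : z ^ p = 1 := by
  have h1 := a_pow_b hab hzb p
  rw [hb, mul_one, one_mul] at h1
  have h2 : a * a ^ (p - 1) = 1 := by
    rw [← pow_succ', Nat.sub_add_cancel (Nat.pos_of_ne_zero hp), ha]
  calc z ^ p = z ^ p * (a * a ^ (p - 1)) := by rw [h2, mul_one]
    _ = (z ^ p * a) * a ^ (p - 1) := by rw [mul_assoc]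
    _ = 1 := by rw [← h1, h2]

/-- On the fixed space of `z` the averages commute. -/
theorem comm_Z (hzp : z ^ p = 1) (hab : a * b = z * (b * a)) (hza : z * a = a * z)
    (hzb : z * b = b * z) : av p a * av p b * av p z = av p b * av p a * av p z := by
  have hza' : Commute z a := hza
  have hzb' : Commute z b := hzb
  have h1 : ∀ k n : ℕ, a ^ k * b ^ n * av p z = b ^ n * a ^ k * av p z := by
    intro k n
    have h2 : (z ^ n) ^ k * av p z = av p z := by
      rw [← pow_mul]; exact pow_mul_av hzp _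
    have h3 : Commute ((z ^ n) ^ k) (b ^ n * a ^ k) :=
      (((hzb'.pow_pow n n).pow_left k).mul_right ((hza'.pow_pow n k).pow_left k))
    rw [pow_a_pow_b hab hza hzb, h3.eq, mul_assoc, h2]
  have h4 : ∀ x y : V →ₗ[ℂ] V, av p x * av p y * av p z =
      ((p : ℂ)⁻¹ * (p : ℂ)⁻¹) • ∑ k ∈ range p, ∑ n ∈ range p, x ^ k * y ^ n * av p z := by
    intro x y
    have h5 : av p x * av p y = ((p : ℂ)⁻¹ * (p : ℂ)⁻¹) •
        ((∑ k ∈ range p, x ^ k) * ∑ n ∈ range p, y ^ n) := by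
      unfold av
      rw [smul_mul_smul_comm]
    rw [h5, smul_mul_assoc, sum_mul_sum, sum_mul]
    congr 1
    exact sum_congr rfl fun k _ => sum_mul _ _ _
  rw [h4, h4, sum_comm]
  congr 1
  exact sum_congr rfl fun n _ => sum_congr rfl fun k _ => h1 k n

/-- `P b^j P` vanishes off the fixed space of `z`. -/
theorem PbP (hpp : p.Prime) (hzp : z ^ p = 1) (ha : a ^ p = 1) (hab : a * b = z * (b * a))
    (hza : z * a = a * z) (hzb : z * b = b * z) {j : ℕ} (hj0 : 0 < j) (hj : j < p) (v : V)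
    (hv : av p z v = 0) : av p a ((b ^ j) (av p a v)) = 0 := by
  have hza' : Commute z a := hza
  have hzb' : Commute z b := hzb
  have h1 : av p a * b ^ j * av p a = av p (z ^ j) * (b ^ j * av p a) := by
    have h2 : ∀ k : ℕ, a ^ k * b ^ j * av p a = (z ^ j) ^ k * (b ^ j * av p a) := by
      intro k
      rw [pow_a_pow_b hab hza hzb, mul_assoc, mul_assoc, pow_mul_av ha]
    conv_lhs => rw [av, smul_mul_assoc, smul_mul_assoc, sum_mul, sum_mul]
    conv_rhs => rw [av, smul_mul_assoc, sum_mul]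
    congr 1
    exact sum_congr rfl fun k _ => h2 k
  have h3 : av p (z ^ j) * av p z = av p (z ^ j) := by
    obtain ⟨m, hm⟩ : ∃ m : ℕ, z = (z ^ j) ^ m := by
      have hcop : Nat.Coprime j p := ((Nat.Prime.coprime_iff_not_dvd hpp).2
        (fun h => by have := Nat.le_of_dvd hj0 h; omega)).symm
      obtain ⟨m, -, hm⟩ := Nat.exists_mul_mod_eq_one_of_coprime hcop hpp.one_lt
      refine ⟨m, ?_⟩
      rw [← pow_mul]
      conv_rhs => rw [← Nat.div_add_mod (j * m) p, hm, pow_add, pow_mul, hzp, one_pow, one_mul,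
        pow_one]
    have hzj : (z ^ j) ^ p = 1 := by rw [← pow_mul, mul_comm, pow_mul, hzp, one_pow]
    have h4 : z * av p (z ^ j) = av p (z ^ j) := by
      have h11 := pow_mul_av hzj m
      rw [← hm] at h11
      exact h11
    have h5 : av p z * av p (z ^ j) = av p (z ^ j) := av_mul hpp.ne_zero h4
    have h6 : av p z * av p (z ^ j) = av p (z ^ j) * av p z :=
      av_comm (av_comm (Commute.pow_left (Commute.refl z) j).eq).symm
    rw [← h6, h5]
  have h7 : av p (z ^ j) v = 0 := by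
    rw [← h3, Module.End.mul_apply, hv, map_zero]
  have h8 : Commute (av p (z ^ j)) (b ^ j * av p a) := by
    have h9 : Commute (z ^ j) (b ^ j * av p a) :=
      (hzb'.pow_pow j j).mul_right (by
        have : Commute a (z ^ j) := hza'.symm.pow_right j
        exact (av_comm this.eq).symm)
    exact av_comm h9.eq
  have h10 : (av p a * b ^ j * av p a) v = av p a ((b ^ j) (av p a v)) := rfl
  rw [← h10, h1, h8.eq, Module.End.mul_apply, h7, map_zero]

end heis

/-- The real inequality. -/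
theorem real_ineq {n α β B c : ℝ} (hn : 0 ≤ n) (hα0 : 0 ≤ α) (hβ0 : 0 ≤ β) (hα : α ≤ n)
    (hβ : β ≤ n) (hc : 0 ≤ c) (hB1 : -(c * (α + β) / 2) ≤ B) (hB : B ≤ c * (α + β) / 2)
    (hA : (α + β) ^ 2 ≤ (α + β + 2 * B) * n) :
    -c * ((n - α) + (n - β)) ≤ 2 * (n - (α + β) + B) := by
  rcases hn.eq_or_lt with h0 | h0
  · subst h0
    have h1 : α = 0 := le_antisymm hα hα0
    have h2 : β = 0 := le_antisymm hβ hβ0
    subst h1; subst h2
    simp only [add_zero, mul_zero, zero_div, neg_zero] at hB1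
    simp only [sub_zero, add_zero, mul_zero, zero_add]
    linarith
  · have h1 : α + β ≤ (1 + c) * n := by
      by_contra hcon
      push Not at hcon
      have h2 : 0 < α + β := lt_of_le_of_lt (by positivity) hcon
      have h3 : (α + β + 2 * B) * n ≤ (1 + c) * n * (α + β) := by nlinarith
      nlinarith
    have h2 : 0 ≤ (2 * n - (α + β)) * ((1 + c) * n - (α + β)) :=
      mul_nonneg (by linarith) (by linarith)
    have h3 : 0 ≤ (2 * (n - (α + β) + B) + c * ((n - α) + (n - β))) * n := by nlinarith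
    have h4 := nonneg_of_mul_nonneg_left h3 h0
    linarith

end T1

open T1 in
theorem pT1 : StT1 := by
  intro V _ _ p a b z hpp hna hnb hnz ha hb hab hza hzb v
  have hp : p ≠ 0 := hpp.ne_zero
  have hzp : z ^ p = 1 := z_pow hp ha hb hab hzb
  have hPP := av_av hp ha
  have hQQ := av_av hp hb
  have hZZ := av_av hp hzp
  have hPZ : av p a * av p z = av p z * av p a := av_comm (av_comm hza).symm
  have hQZ : av p b * av p z = av p z * av p b := av_comm (av_comm hzb).symm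
  have hZ0 := comm_Z (p := p) hzp hab hza hzb
  have iP := fun x y => inner_av hna ha (v := x) (w := y)
  have iQ := fun x y => inner_av hnb hb (v := x) (w := y)
  have iZ := fun x y => inner_av hnz hzp (v := x) (w := y)
  have hbj := fun {j : ℕ} (h1 : 0 < j) (h2 : j < p) (x : V) (hx : av p z x = 0) =>
    PbP hpp hzp ha hab hza hzb h1 h2 x hx
  change - (1 / Real.sqrt p) * (‖v - av p a v‖ ^ 2 + ‖v - av p b v‖ ^ 2) ≤
    2 * (inner ℂ (v - av p a v) (v - av p b v)).re
  have hQdef : ∀ x, av p b x = (p : ℂ)⁻¹ • ∑ j ∈ Finset.range p, (b ^ j) x := av_apply p b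
  generalize av p a = P at *
  generalize av p b = Q at *
  generalize av p z = Z at *
  have ePP : ∀ x, P (P x) = P x := fun x => by rw [← Module.End.mul_apply, hPP]
  have eQQ : ∀ x, Q (Q x) = Q x := fun x => by rw [← Module.End.mul_apply, hQQ]
  have eZZ : ∀ x, Z (Z x) = Z x := fun x => by rw [← Module.End.mul_apply, hZZ]
  have ePZ : ∀ x, P (Z x) = Z (P x) := fun x => by
    rw [← Module.End.mul_apply, hPZ, Module.End.mul_apply]
  have eQZ : ∀ x, Q (Z x) = Z (Q x) := fun x => by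
    rw [← Module.End.mul_apply, hQZ, Module.End.mul_apply]
  have ePQ : ∀ x, P (Q (Z x)) = Q (P (Z x)) := fun x => by
    have := congrArg (fun f : V →ₗ[ℂ] V => f x) hZ0
    exact this
  -- decomposition along `Z`
  have split : ∀ x y : V, inner ℂ x y = inner ℂ (Z x) (Z y) + inner ℂ (x - Z x) (y - Z y) := by
    intro x y
    have h1 : inner ℂ (Z x) (y - Z y) = 0 := by
      rw [iZ, map_sub, eZZ, sub_self, inner_zero_right]
    have h2 : inner ℂ (x - Z x) (Z y) = 0 := by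
      rw [← iZ, map_sub, eZZ, sub_self, inner_zero_left]
    have e1 : x = Z x + (x - Z x) := by abel
    have e2 : y = Z y + (y - Z y) := by abel
    conv_lhs => rw [e1, e2]
    rw [inner_add_left, inner_add_right, inner_add_right, h1, h2]
    ring
  have nsq : ∀ x : V, ‖x‖ ^ 2 = (inner ℂ x x).re := fun x => by
    rw [inner_self_eq_norm_sq_to_K]
    norm_cast
  -- the other part
  have part1 : ∀ w : V, Z w = 0 → - (1 / Real.sqrt p) * (‖w - P w‖ ^ 2 + ‖w - Q w‖ ^ 2) ≤
      2 * (inner ℂ (w - P w) (w - Q w)).re := by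
    intro w hZw
    have hp0 : (0 : ℝ) < p := by exact_mod_cast hpp.pos
    have j1 : inner ℂ w (P w) = inner ℂ (P w) (P w) := by rw [iP, ePP]
    have j2 : inner ℂ (P w) w = inner ℂ (P w) (P w) := by rw [iP w (P w), ePP, iP]
    have j3 : inner ℂ w (Q w) = inner ℂ (Q w) (Q w) := by rw [iQ, eQQ]
    have j4 : inner ℂ (Q w) w = inner ℂ (Q w) (Q w) := by rw [iQ w (Q w), eQQ, iQ]
    have k1 : ‖w - P w‖ ^ 2 = ‖w‖ ^ 2 - ‖P w‖ ^ 2 := by
      rw [nsq, nsq w, nsq (P w), inner_sub_left, inner_sub_right, inner_sub_right, j1, j2]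
      simp only [Complex.sub_re]
      ring
    have k2 : ‖w - Q w‖ ^ 2 = ‖w‖ ^ 2 - ‖Q w‖ ^ 2 := by
      rw [nsq, nsq w, nsq (Q w), inner_sub_left, inner_sub_right, inner_sub_right, j3, j4]
      simp only [Complex.sub_re]
      ring
    have k3 : (inner ℂ (w - P w) (w - Q w)).re =
        ‖w‖ ^ 2 - (‖P w‖ ^ 2 + ‖Q w‖ ^ 2) + (inner ℂ (P w) (Q w)).re := by
      rw [nsq w, nsq (P w), nsq (Q w), inner_sub_left, inner_sub_right, inner_sub_right, j3, j2]
      simp only [Complex.sub_re]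
      ring
    have k4 : ‖P w + Q w‖ ^ 2 = ‖P w‖ ^ 2 + ‖Q w‖ ^ 2 + 2 * (inner ℂ (P w) (Q w)).re := by
      have h9 : (inner ℂ (Q w) (P w)).re = (inner ℂ (P w) (Q w)).re := inner_re_symm (𝕜 := ℂ) _ _
      rw [nsq, nsq (P w), nsq (Q w), inner_add_left, inner_add_right, inner_add_right]
      simp only [Complex.add_re]
      rw [h9]
      ring
    have k5 : (‖P w‖ ^ 2 + ‖Q w‖ ^ 2) ^ 2 ≤
        (‖P w‖ ^ 2 + ‖Q w‖ ^ 2 + 2 * (inner ℂ (P w) (Q w)).re) * ‖w‖ ^ 2 := by
      have h9 : (inner ℂ (P w + Q w) w).re = ‖P w‖ ^ 2 + ‖Q w‖ ^ 2 := by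
        rw [nsq (P w), nsq (Q w), inner_add_left, j2, j4, Complex.add_re]
      have h10 : (inner ℂ (P w + Q w) w).re ≤ ‖P w + Q w‖ * ‖w‖ :=
        (Complex.re_le_norm _).trans (norm_inner_le_norm _ _)
      rw [h9] at h10
      rw [← k4, ← mul_pow]
      exact pow_le_pow_left₀ (by positivity) h10 2
    have k6 : P (Q (P w)) = (p : ℂ)⁻¹ • P w := by
      rw [hQdef, map_smul, map_sum]
      congr 1
      rw [Finset.sum_eq_single_of_mem 0 (Finset.mem_range.2 hpp.pos)]
      · rw [pow_zero, Module.End.one_apply, ePP]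
      · intro j hj hj0
        exact hbj (Nat.pos_of_ne_zero hj0) (Finset.mem_range.1 hj) w hZw
    have k7 : ‖Q (P w)‖ ^ 2 = (1 / Real.sqrt p * ‖P w‖) ^ 2 := by
      have h9 : inner ℂ (Q (P w)) (Q (P w)) = (p : ℂ)⁻¹ * inner ℂ (P w) (P w) := by
        rw [← iQ, eQQ, ← iP, k6, inner_smul_left, map_inv₀, Complex.conj_natCast, j2]
      rw [nsq, h9, mul_pow, div_pow, one_pow, Real.sq_sqrt hp0.le, nsq (P w)]
      have h10 : ((p : ℂ)⁻¹) = (((p : ℝ)⁻¹ : ℝ) : ℂ) := by push_cast; rfl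
      rw [h10, Complex.re_ofReal_mul, one_div]
    have k8 : ‖Q (P w)‖ = 1 / Real.sqrt p * ‖P w‖ := by
      have h9 : (0 : ℝ) ≤ 1 / Real.sqrt p * ‖P w‖ := by positivity
      exact (pow_left_inj₀ (norm_nonneg _) h9 two_ne_zero).1 k7
    have k9 : |(inner ℂ (P w) (Q w)).re| ≤ 1 / Real.sqrt p * (‖P w‖ ^ 2 + ‖Q w‖ ^ 2) / 2 := by
      have h9 : inner ℂ (P w) (Q w) = inner ℂ (Q (P w)) (Q w) := by rw [iQ, eQQ]
      have h10 : |(inner ℂ (P w) (Q w)).re| ≤ ‖Q (P w)‖ * ‖Q w‖ := by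
        rw [h9]
        exact (Complex.abs_re_le_norm _).trans (norm_inner_le_norm _ _)
      rw [k8] at h10
      have h11 : ‖P w‖ * ‖Q w‖ ≤ (‖P w‖ ^ 2 + ‖Q w‖ ^ 2) / 2 := by
        nlinarith [sq_nonneg (‖P w‖ - ‖Q w‖)]
      have h12 : (0 : ℝ) ≤ 1 / Real.sqrt p := by positivity
      calc |(inner ℂ (P w) (Q w)).re| ≤ 1 / Real.sqrt p * (‖P w‖ * ‖Q w‖) := by
            rw [← mul_assoc]; exact h10
        _ ≤ 1 / Real.sqrt p * ((‖P w‖ ^ 2 + ‖Q w‖ ^ 2) / 2) :=
            mul_le_mul_of_nonneg_left h11 h12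
        _ = 1 / Real.sqrt p * (‖P w‖ ^ 2 + ‖Q w‖ ^ 2) / 2 := by ring
    have k10 := abs_le.1 k9
    have k11 : ‖P w‖ ^ 2 ≤ ‖w‖ ^ 2 := by
      have : 0 ≤ ‖w - P w‖ ^ 2 := by positivity
      rw [k1] at this
      linarith
    have k12 : ‖Q w‖ ^ 2 ≤ ‖w‖ ^ 2 := by
      have : 0 ≤ ‖w - Q w‖ ^ 2 := by positivity
      rw [k2] at this
      linarith
    rw [k1, k2, k3]
    exact real_ineq (by positivity) (by positivity) (by positivity) k11 k12 (by positivity)
      k10.1 k10.2 k5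
  set w := v - Z v with hw
  set v0 := Z v with hv0
  have hZw : Z w = 0 := by rw [hw, map_sub, hv0, eZZ, sub_self]
  -- the part fixed by `z`
  have part0 : 0 ≤ (inner ℂ (v0 - P v0) (v0 - Q v0)).re := by
    have h1 : inner ℂ (v0 - P v0) (v0 - Q v0) =
        inner ℂ ((v0 - Q v0) - P (v0 - Q v0)) ((v0 - Q v0) - P (v0 - Q v0)) := by
      have e0 : P (Q v0) = Q (P v0) := by rw [hv0]; exact ePQ v
      have e5 : (v0 - Q v0) - P (v0 - Q v0) = (v0 - P v0) - Q (v0 - P v0) := by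
        rw [map_sub, map_sub, e0]; abel
      have e6 : inner ℂ ((v0 - Q v0) - P (v0 - Q v0)) (P (v0 - Q v0)) = 0 := by
        rw [← iP, map_sub, ePP, sub_self, inner_zero_left]
      have e7 : inner ℂ (Q (v0 - P v0)) (v0 - Q v0) = 0 := by
        rw [iQ, map_sub Q v0 (Q v0), eQQ, sub_self, inner_zero_right]
      have e8 : inner ℂ ((v0 - Q v0) - P (v0 - Q v0)) ((v0 - Q v0) - P (v0 - Q v0)) =
          inner ℂ ((v0 - Q v0) - P (v0 - Q v0)) (v0 - Q v0) := by
        rw [inner_sub_right _ (v0 - Q v0) (P (v0 - Q v0)), e6, sub_zero]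
      rw [e8, e5, inner_sub_left (v0 - P v0), e7, sub_zero]
    rw [h1, ← nsq]
    positivity
  have e1 : Z (v - P v) = v0 - P v0 := by rw [map_sub, hv0, ePZ]
  have e2 : Z (v - Q v) = v0 - Q v0 := by rw [map_sub, hv0, eQZ]
  have e3 : (v - P v) - Z (v - P v) = w - P w := by
    rw [e1, hw, map_sub, hv0]; abel
  have e4 : (v - Q v) - Z (v - Q v) = w - Q w := by
    rw [e2, hw, map_sub, hv0]; abel
  have s1 := split (v - P v) (v - Q v)
  have s2 := split (v - P v) (v - P v)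
  have s3 := split (v - Q v) (v - Q v)
  rw [e1, e2, ← e1, ← e2, e3, e4, e1, e2] at s1
  rw [e3, e1] at s2
  rw [e4, e2] at s3
  rw [nsq, nsq, s1, s2, s3, Complex.add_re, Complex.add_re, Complex.add_re, ← nsq, ← nsq, ← nsq,
    ← nsq]
  have part1 := part1 w hZw
  have hs : 0 ≤ 1 / Real.sqrt p := by positivity
  have h5 : 0 ≤ (1 / Real.sqrt p) * (‖v0 - P v0‖ ^ 2 + ‖v0 - Q v0‖ ^ 2) := by positivity
  nlinarith

end Helper53.NG
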