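import Pool.Agent.Helper53.NG.StT

/-!
Project NG, module T2: spectral calculus for a selfadjoint contraction with a gap.
-/

set_option autoImplicit false

namespace Helper53.NG

namespace T2

variable {V : Type} [NormedAddCommGroup V] [InnerProductSpace ℂ V] {T : V →ₗ[ℂ] V}

/-- Cauchy-Schwarz for the real part of a positive symmetric form. -/
private theorem cs (A : V →ₗ[ℂ] V) (hA : ∀ v w, inner ℂ (A v) w = inner ℂ v (A w))
    (hp : ∀ v, 0 ≤ (inner ℂ (A v) v).re) (v w : V) :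
    (inner ℂ (A v) w).re ^ 2 ≤ (inner ℂ (A v) v).re * (inner ℂ (A w) w).re := by
  have key : ∀ t : ℝ, 0 ≤ (inner ℂ (A w) w).re * (t * t) + 2 * (inner ℂ (A v) w).re * t +
      (inner ℂ (A v) v).re := by
    intro t
    have h1 := hp (v + (t : ℂ) • w)
    have h2 : (inner ℂ (A w) v).re = (inner ℂ (A v) w).re := by
      rw [hA w v, ← inner_conj_symm, Complex.conj_re]
    rw [map_add, map_smul, inner_add_left, inner_add_right, inner_add_right, inner_smul_left,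
      inner_smul_left, inner_smul_right, inner_smul_right, Complex.conj_ofReal] at h1
    simp only [Complex.add_re, Complex.re_ofReal_mul, h2] at h1
    linarith
  have h3 := discrim_le_zero key
  unfold discrim at h3
  nlinarith

private theorem sym_pow (hs : ∀ v w, inner ℂ (T v) w = inner ℂ v (T w)) (k : ℕ) (v w : V) :
    inner ℂ ((T ^ k) v) w = inner ℂ v ((T ^ k) w) := by
  induction k generalizing v w with
  | zero => rfl
  | succ k ih =>
    have e1 : (T ^ (k + 1)) v = (T ^ k) (T v) := by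
      rw [pow_succ]
      rfl
    have e2 : (T ^ (k + 1)) w = T ((T ^ k) w) := by
      rw [pow_succ']
      rfl
    rw [e1, e2, ih, hs]

private theorem nsq (v : V) : (inner ℂ v v).re = ‖v‖ ^ 2 := by
  rw [inner_self_eq_norm_sq_to_K]
  norm_cast

variable (hs : ∀ v w, inner ℂ (T v) w = inner ℂ v (T w))
  (h0 : ∀ v, 0 ≤ (inner ℂ (T v) v).re) (h1 : ∀ v, (inner ℂ (T v) v).re ≤ ‖v‖ ^ 2)

include hs in
private theorem norm_T (v : V) : ‖T v‖ ^ 2 = (inner ℂ (T (T v)) v).re := by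
  rw [← nsq, hs (T v) v]

include hs in
private theorem norm_sub_T (v : V) :
    ‖v - T v‖ ^ 2 = ‖v‖ ^ 2 - 2 * (inner ℂ (T v) v).re + ‖T v‖ ^ 2 := by
  rw [← nsq (v - T v), ← nsq v, ← nsq (T v), inner_sub_left, inner_sub_right, inner_sub_right]
  simp only [Complex.sub_re]
  have : (inner ℂ v (T v)).re = (inner ℂ (T v) v).re := by rw [hs]
  rw [this]
  ring

include hs h0 h1 in
/-- `T (1 - T)` is positive -/
private theorem pos (v : V) : 0 ≤ (inner ℂ (T v) v).re - ‖T v‖ ^ 2 := by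
  have e1 := h0 (v - T v)
  have e2 := h1 (T v)
  have e3 : (inner ℂ (T (v - T v)) (v - T v)).re = (inner ℂ (T v) v).re - 2 * ‖T v‖ ^ 2 +
      (inner ℂ (T (T v)) (T v)).re := by
    rw [map_sub, inner_sub_left, inner_sub_right, inner_sub_right]
    simp only [Complex.sub_re]
    rw [nsq (T v), ← norm_T hs v]
    ring
  rw [e3] at e1
  linarith

include hs h0 h1 in
private theorem step (c : ℝ) (hc : c ≤ 1)
    (hg : ∀ v, c * (‖v‖ ^ 2 - (inner ℂ (T v) v).re) ≤ ‖v - T v‖ ^ 2) (v : V) :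
    ‖T v‖ ^ 2 - (inner ℂ (T (T v)) (T v)).re ≤
      (1 - c) ^ 2 * (‖v‖ ^ 2 - (inner ℂ (T v) v).re) := by
  have hb : ∀ w, (inner ℂ (T w) w).re - ‖T w‖ ^ 2 ≤
      (1 - c) * (‖w‖ ^ 2 - (inner ℂ (T w) w).re) := by
    intro w
    have := hg w
    rw [norm_sub_T hs] at this
    linarith
  have hA : ∀ w, (inner ℂ ((T - T * T) w) w).re = (inner ℂ (T w) w).re - ‖T w‖ ^ 2 := by
    intro w
    rw [LinearMap.sub_apply, inner_sub_left, Complex.sub_re, norm_T hs w]
    rfl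
  have hcs := cs (T - T * T) (fun a b => by
    rw [LinearMap.sub_apply, LinearMap.sub_apply, inner_sub_left, inner_sub_right, hs a b]
    change _ - inner ℂ (T (T a)) b = _ - inner ℂ a (T (T b))
    rw [hs, hs]) (fun w => by rw [hA]; exact pos hs h0 h1 w) v (T v)
  rw [hA, hA] at hcs
  have e1 : (inner ℂ ((T - T * T) v) (T v)).re = ‖T v‖ ^ 2 - (inner ℂ (T (T v)) (T v)).re := by
    rw [LinearMap.sub_apply, inner_sub_left, Complex.sub_re, nsq]
    rfl
  rw [e1] at hcs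
  have q0 : 0 ≤ ‖T v‖ ^ 2 - (inner ℂ (T (T v)) (T v)).re := by
    have := h1 (T v)
    linarith
  have q1 : 0 ≤ ‖v‖ ^ 2 - (inner ℂ (T v) v).re := by
    have := h1 v
    linarith
  have p1 := pos hs h0 h1 v
  have p2 := pos hs h0 h1 (T v)
  have b1 := hb v
  have b2 := hb (T v)
  have hc' : 0 ≤ 1 - c := by linarith
  have h5 : (‖T v‖ ^ 2 - (inner ℂ (T (T v)) (T v)).re) ^ 2 ≤
      ((1 - c) * (‖v‖ ^ 2 - (inner ℂ (T v) v).re)) *
      ((1 - c) * (‖T v‖ ^ 2 - (inner ℂ (T (T v)) (T v)).re)) :=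
    hcs.trans (mul_le_mul b1 b2 p2 (mul_nonneg hc' q1))
  rcases eq_or_lt_of_le q0 with h6 | h6
  · rw [← h6]
    positivity
  · refine le_of_mul_le_mul_right ?_ h6
    calc (‖T v‖ ^ 2 - (inner ℂ (T (T v)) (T v)).re) *
          (‖T v‖ ^ 2 - (inner ℂ (T (T v)) (T v)).re) =
          (‖T v‖ ^ 2 - (inner ℂ (T (T v)) (T v)).re) ^ 2 := by ring
      _ ≤ _ := h5
      _ = _ := by ring

end T2

open T2 in
theorem pT2 : StT2 := by
  intro V _ _ T c hc hc1 hs h0 h1 hg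
  have hc' : 0 ≤ 1 - c := by linarith
  have hq : ∀ v : V, 0 ≤ ‖v‖ ^ 2 - (inner ℂ (T v) v).re := fun v => by
    have := h1 v
    linarith
  have hsucc : ∀ (k : ℕ) (v : V), (T ^ (k + 1)) v = T ((T ^ k) v) := by
    intro k v
    rw [pow_succ']
    rfl
  -- first claim
  have c1 : ∀ (k : ℕ) (v : V), ‖(T ^ k) v‖ ^ 2 - (inner ℂ (T ((T ^ k) v)) ((T ^ k) v)).re ≤
      (1 - c) ^ (2 * k) * (‖v‖ ^ 2 - (inner ℂ (T v) v).re) := by
    intro k v
    induction k with
    | zero => simp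
    | succ k ih =>
      rw [hsucc]
      refine (step hs h0 h1 c hc1 hg ((T ^ k) v)).trans ?_
      calc (1 - c) ^ 2 * (‖(T ^ k) v‖ ^ 2 - (inner ℂ (T ((T ^ k) v)) ((T ^ k) v)).re) ≤
            (1 - c) ^ 2 * ((1 - c) ^ (2 * k) * (‖v‖ ^ 2 - (inner ℂ (T v) v).re)) :=
            mul_le_mul_of_nonneg_left ih (by positivity)
        _ = _ := by ring
  -- the sequence
  have a0 : ∀ (i : ℕ) (v : V), (inner ℂ ((T ^ (2 * i)) v) v).re = ‖(T ^ i) v‖ ^ 2 := by
    intro i v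
    have e : (T ^ (2 * i)) v = (T ^ i) ((T ^ i) v) := by
      rw [two_mul, pow_add]
      rfl
    rw [e, sym_pow hs, nsq]
  have a1 : ∀ (i : ℕ) (v : V), (inner ℂ ((T ^ (2 * i + 1)) v) v).re =
      (inner ℂ (T ((T ^ i) v)) ((T ^ i) v)).re := by
    intro i v
    have e : (T ^ (2 * i + 1)) v = (T ^ i) (T ((T ^ i) v)) := by
      rw [← hsucc, show 2 * i + 1 = i + (i + 1) by ring, pow_add]
      rfl
    rw [e, sym_pow hs]
  have hb : ∀ (j : ℕ) (v : V),
      0 ≤ (inner ℂ ((T ^ j) v) v).re - (inner ℂ ((T ^ (j + 1)) v) v).re ∧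
      (inner ℂ ((T ^ j) v) v).re - (inner ℂ ((T ^ (j + 1)) v) v).re ≤
        (1 - c) ^ j * (‖v‖ ^ 2 - (inner ℂ (T v) v).re) := by
    intro j v
    rcases Nat.even_or_odd' j with ⟨i, rfl | rfl⟩
    · rw [a0, a1]
      exact ⟨hq _, c1 i v⟩
    · have e2 : 2 * i + 1 + 1 = 2 * (i + 1) := by ring
      rw [e2, a0, a1, hsucc]
      refine ⟨pos hs h0 h1 _, ?_⟩
      have h3 := hg ((T ^ i) v)
      rw [norm_sub_T hs] at h3
      have h4 := c1 i v
      have h5 : (1 - c) * (‖(T ^ i) v‖ ^ 2 - (inner ℂ (T ((T ^ i) v)) ((T ^ i) v)).re) ≤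
          (1 - c) * ((1 - c) ^ (2 * i) * (‖v‖ ^ 2 - (inner ℂ (T v) v).re)) :=
        mul_le_mul_of_nonneg_left h4 hc'
      have h6 : (1 - c) * ((1 - c) ^ (2 * i) * (‖v‖ ^ 2 - (inner ℂ (T v) v).re)) =
          (1 - c) ^ (2 * i + 1) * (‖v‖ ^ 2 - (inner ℂ (T v) v).re) := by ring
      rw [h6] at h5
      linarith
  have hsum : ∀ (k : ℕ) (v : V), (inner ℂ v v).re - (inner ℂ ((T ^ k) v) v).re ≤
      (∑ j ∈ Finset.range k, (1 - c) ^ j) * (‖v‖ ^ 2 - (inner ℂ (T v) v).re) := by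
    intro k v
    induction k with
    | zero => simp
    | succ k ih =>
      rw [Finset.sum_range_succ, add_mul]
      have := (hb k v).2
      linarith
  have hgeo : ∀ k : ℕ, (∑ j ∈ Finset.range k, (1 - c) ^ j) ≤ 1 / c := by
    intro k
    rw [le_div_iff₀ hc]
    have h3 := geom_sum_mul (1 - c) k
    have h4 : 0 ≤ (1 - c) ^ k := pow_nonneg hc' k
    nlinarith
  have c3 : ∀ (k : ℕ) (v : V), ‖v‖ ^ 2 - (inner ℂ ((T ^ k) v) v).re ≤
      1 / c * (‖v‖ ^ 2 - (inner ℂ (T v) v).re) := by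
    intro k v
    rw [← nsq v]
    refine (hsum k v).trans ?_
    rw [nsq v]
    exact mul_le_mul_of_nonneg_right (hgeo k) (hq v)
  refine ⟨c1, ?_, c3⟩
  intro k v
  refine le_trans ?_ (c3 k v)
  have hanti : ∀ (m : ℕ), (inner ℂ ((T ^ (k + m)) v) v).re ≤ (inner ℂ ((T ^ k) v) v).re := by
    intro m
    induction m with
    | zero => simp
    | succ m ih =>
      have := (hb (k + m) v).1
      rw [← add_assoc]
      linarith
  have h3 := hanti k
  rw [← two_mul, a0] at h3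
  have h4 : ‖(T ^ k) v - v‖ ^ 2 = ‖(T ^ k) v‖ ^ 2 - 2 * (inner ℂ ((T ^ k) v) v).re +
      ‖v‖ ^ 2 := by
    rw [← nsq ((T ^ k) v - v), inner_sub_left, inner_sub_right, inner_sub_right]
    simp only [Complex.sub_re]
    rw [nsq, nsq, ← sym_pow hs k v v]
    ring
  rw [h4]
  linarith

end Helper53.NG
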