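import Pool.Agent.Helper53.NG.StT

/-!
# Project NG, module T3: the spectral gap lemma in an inner product space
-/

namespace Helper53.NG

namespace T3

variable {V : Type} [NormedAddCommGroup V] [InnerProductSpace ℂ V]

/-- An orthogonal projection. -/
structure OProj (P : V →ₗ[ℂ] V) : Prop where
  sa : ∀ v w, inner ℂ (P v) w = inner ℂ v (P w)
  idem : ∀ v, P (P v) = P v

lemma re_inner_self (v : V) : (inner ℂ v v).re = ‖v‖ ^ 2 := by
  have := inner_self_eq_norm_sq (𝕜 := ℂ) v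
  simpa using this

lemma OProj.compl {P : V →ₗ[ℂ] V} (h : OProj P) : OProj (1 - P) := by
  refine ⟨fun v w => ?_, fun v => ?_⟩
  · simp only [LinearMap.sub_apply, Module.End.one_apply, inner_sub_left, inner_sub_right, h.sa]
  · simp [h.idem]

lemma OProj.inner_self {P : V →ₗ[ℂ] V} (h : OProj P) (v : V) :
    (inner ℂ (P v) v).re = ‖P v‖ ^ 2 := by
  have h1 : inner ℂ (P v) v = inner ℂ (P v) (P v) := by
    calc inner ℂ (P v) v = inner ℂ (P (P v)) v := by rw [h.idem]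
      _ = inner ℂ (P v) (P v) := h.sa _ _
  rw [h1, re_inner_self]

lemma OProj.inner_comm_nonneg {P Q : V →ₗ[ℂ] V} (hP : OProj P) (hQ : OProj Q)
    (hc : ∀ v, P (Q v) = Q (P v)) (v : V) : 0 ≤ (inner ℂ (P v) (Q v)).re := by
  have h1 : inner ℂ (P v) (Q v) = inner ℂ (P (Q v)) (P (Q v)) := by
    calc inner ℂ (P v) (Q v) = inner ℂ (P v) (Q (Q v)) := by rw [hQ.idem]
      _ = inner ℂ (Q (P v)) (Q v) := by rw [hQ.sa]
      _ = inner ℂ (P (Q v)) (Q v) := by rw [hc]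
      _ = inner ℂ (P (P (Q v))) (Q v) := by rw [hP.idem]
      _ = inner ℂ (P (Q v)) (P (Q v)) := by rw [hP.sa]
  rw [h1, re_inner_self]
  positivity

variable {K : Type} [Group K]

/-- A unitary representation (pointwise form). -/
structure Rep (ρ : K → V →ₗ[ℂ] V) : Prop where
  iso : ∀ k v, ‖ρ k v‖ = ‖v‖
  mul : ∀ k k' v, ρ k (ρ k' v) = ρ (k * k') v
  one : ∀ v, ρ 1 v = v

lemma Rep.inner_map {ρ : K → V →ₗ[ℂ] V} (h : Rep ρ) (k : K) (v w : V) :
    inner ℂ (ρ k v) (ρ k w) = inner ℂ v w :=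
  (⟨ρ k, h.iso k⟩ : V →ₗᵢ[ℂ] V).inner_map_map v w

lemma Rep.adj {ρ : K → V →ₗ[ℂ] V} (h : Rep ρ) (k : K) (v w : V) :
    inner ℂ (ρ k v) w = inner ℂ v (ρ k⁻¹ w) := by
  have h1 : w = ρ k (ρ k⁻¹ w) := by rw [h.mul, mul_inv_cancel, h.one]
  conv_lhs => rw [h1]
  rw [h.inner_map]

lemma Rep.pow {ρ : K → V →ₗ[ℂ] V} (h : Rep ρ) (g : K) (j : ℕ) : (ρ g) ^ j = ρ (g ^ j) := by
  induction j with
  | zero => ext v; simp [h.one]
  | succ n ih => ext v; rw [pow_succ, ih, Module.End.mul_apply, h.mul, ← pow_succ]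

/-- The average over the powers. -/
noncomputable def Pr (p : ℕ) (ρ : K → V →ₗ[ℂ] V) (g : K) : V →ₗ[ℂ] V :=
  (p : ℂ)⁻¹ • ∑ j ∈ Finset.range p, ρ (g ^ j)

lemma Pr_apply (p : ℕ) (ρ : K → V →ₗ[ℂ] V) (g : K) (v : V) :
    Pr p ρ g v = (p : ℂ)⁻¹ • ∑ j ∈ Finset.range p, ρ (g ^ j) v := by
  simp [Pr]

lemma Rep.fixS {ρ : K → V →ₗ[ℂ] V} (h : Rep ρ) {p : ℕ} {g : K} (hg : g ^ p = 1) (v : V) :
    ρ g (∑ j ∈ Finset.range p, ρ (g ^ j) v) = ∑ j ∈ Finset.range p, ρ (g ^ j) v := by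
  rw [map_sum]
  have h1 : ∀ j, ρ g (ρ (g ^ j) v) = ρ (g ^ (j + 1)) v := fun j => by
    rw [h.mul, ← pow_succ']
  simp only [h1]
  have h2 := Finset.sum_range_succ' (fun j => ρ (g ^ j) v) p
  have h3 := Finset.sum_range_succ (fun j => ρ (g ^ j) v) p
  rw [h2] at h3
  simp only [pow_zero, hg] at h3
  exact add_right_cancel h3

lemma Rep.fix {ρ : K → V →ₗ[ℂ] V} (h : Rep ρ) {p : ℕ} {g : K} (hg : g ^ p = 1) (v : V) :
    ρ g (Pr p ρ g v) = Pr p ρ g v := by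
  rw [Pr_apply, map_smul, h.fixS hg]

lemma Rep.fix_pow {ρ : K → V →ₗ[ℂ] V} (h : Rep ρ) {p : ℕ} {g : K} (hg : g ^ p = 1) (v : V)
    (j : ℕ) : ρ (g ^ j) (Pr p ρ g v) = Pr p ρ g v := by
  induction j with
  | zero => rw [pow_zero, h.one]
  | succ n ih => rw [pow_succ, ← h.mul, h.fix hg, ih]

lemma Rep.oproj {ρ : K → V →ₗ[ℂ] V} (h : Rep ρ) {p : ℕ} (hp : 0 < p) {g : K}
    (hg : g ^ p = 1) : OProj (Pr p ρ g) := by
  have hp' : (p : ℂ) ≠ 0 := by exact_mod_cast hp.ne'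
  refine ⟨fun v w => ?_, fun v => ?_⟩
  · rw [Pr_apply, Pr_apply, inner_smul_left, inner_smul_right, sum_inner, inner_sum]
    have h1 : ∑ j ∈ Finset.range p, ρ ((g ^ j)⁻¹) w = ∑ j ∈ Finset.range p, ρ (g ^ j) w := by
      have h2 := Finset.sum_range_reflect (fun j => ρ (g ^ j) w) p
      have h3 : ∀ j ∈ Finset.range p, ρ (g ^ (p - 1 - j)) w = ρ g⁻¹ (ρ ((g ^ j)⁻¹) w) := by
        intro j hj
        rw [h.mul]
        congr 2
        have hj' := Finset.mem_range.mp hj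
        have h4 : g ^ (p - 1 - j) * g ^ j * g = 1 := by
          rw [← pow_add, ← pow_succ, show p - 1 - j + j + 1 = p by omega, hg]
        rw [eq_comm, ← mul_inv_rev, inv_eq_iff_mul_eq_one]
        have h5 : Commute (g ^ j * g) (g ^ (p - 1 - j)) :=
          ((Commute.pow_pow_self g j _).mul_left ((Commute.refl g).pow_right _))
        rw [h5.eq, ← mul_assoc, h4]
      rw [Finset.sum_congr rfl h3, ← map_sum] at h2
      have h6 := congrArg (ρ g) h2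
      rw [h.mul, mul_inv_cancel, h.one, h.fixS hg] at h6
      exact h6
    have h7 : ∀ j, inner ℂ (ρ (g ^ j) v) w = inner ℂ v (ρ ((g ^ j)⁻¹) w) := fun j => h.adj _ _ _
    simp only [h7]
    rw [← inner_sum, h1, ← inner_sum]
    simp
  · conv_lhs => rw [Pr_apply]
    simp only [h.fix_pow hg, Finset.sum_const, Finset.card_range]
    rw [← Nat.cast_smul_eq_nsmul ℂ, smul_smul, inv_mul_cancel₀ hp', one_smul]

lemma Rep.comm {ρ : K → V →ₗ[ℂ] V} (h : Rep ρ) {p : ℕ} {g g' : K} (hc : Commute g g') (v : V) :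
    Pr p ρ g (Pr p ρ g' v) = Pr p ρ g' (Pr p ρ g v) := by
  simp only [Pr_apply, map_smul, map_sum]
  congr 1
  simp only [← Finset.smul_sum]
  congr 1
  rw [Finset.sum_comm]
  refine Finset.sum_congr rfl fun j _ => Finset.sum_congr rfl fun l _ => ?_
  rw [h.mul, h.mul, (hc.pow_pow j l).eq]

lemma Rep.norm_pow_sub {ρ : K → V →ₗ[ℂ] V} (h : Rep ρ) (g : K) (v : V) (j : ℕ) :
    ‖v - ρ (g ^ j) v‖ ≤ j * ‖ρ g v - v‖ := by
  induction j with
  | zero => simp [h.one]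
  | succ n ih =>
    have h1 : v - ρ (g ^ (n + 1)) v = (v - ρ (g ^ n) v) - ρ (g ^ n) (ρ g v - v) := by
      rw [map_sub, h.mul, ← pow_succ]; abel
    rw [h1]
    refine (norm_sub_le _ _).trans ?_
    rw [h.iso]
    push_cast
    nlinarith


/-- `cT` is positive and at most one. -/
lemma cT_bounds {p m : ℕ} (hlt : 25 < p) (hm0 : 0 < m) : 0 < cT p m ∧ cT p m ≤ 1 := by
  have hmR : (0 : ℝ) < m := by exact_mod_cast hm0
  have hm1 : (1 : ℝ) ≤ m := by exact_mod_cast hm0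
  have hs5 : 5 < Real.sqrt p := by
    have : (5 : ℝ) = Real.sqrt 25 := by
      rw [show (25 : ℝ) = 5 ^ 2 by norm_num, Real.sqrt_sq (by norm_num)]
    rw [this]
    exact Real.sqrt_lt_sqrt (by norm_num) (by exact_mod_cast hlt)
  have hs0 : 0 < Real.sqrt p := by linarith
  have h5s : 5 / Real.sqrt p < 1 := by rw [div_lt_one hs0]; exact hs5
  have h5s0 : 0 < 5 / Real.sqrt p := by positivity
  unfold cT
  refine ⟨div_pos (by linarith) hmR, ?_⟩
  rw [div_le_one hmR]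
  linarith

variable {ι : Type} [Fintype ι] [DecidableEq ι]

/-- The lower bound for one pair. -/
lemma pair (hT1 : StT1) {p : ℕ} {x : ι → K} {N : ι → Finset ι} {ρ : K → V →ₗ[ℂ] V}
    (hD : TData K p x N) (hR : Rep ρ) {L : ι → V →ₗ[ℂ] V}
    (hLv : ∀ i v, L i v = v - Pr p ρ (x i) v) (hLp : ∀ i, OProj (L i)) {s : ℝ} (hs : s = Real.sqrt p)
    (hs0 : 0 < s) (v : V) (i j : ι) : (if j = i then ‖L i v‖ ^ 2 else 0) +
      (if j ∈ N i then -(1 / (2 * s)) * (‖L i v‖ ^ 2 + ‖L j v‖ ^ 2) else 0) ≤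
      (inner ℂ (L i v) (L j v)).re := by
  by_cases hji : j = i
  · subst hji
    have hn := hD.irr j
    rw [if_pos rfl, if_neg hn, add_zero, re_inner_self (L j v)]
  · rw [if_neg hji, zero_add]
    by_cases hN : j ∈ N i
    · rw [if_pos hN]
      obtain ⟨k1, k2⟩ := hD.heis i j hN
      set z := x i * x j * (x i)⁻¹ * (x j)⁻¹ with hz
      have h1 := hT1 V p (ρ (x i)) (ρ (x j)) (ρ z) hD.prime (hR.iso _) (hR.iso _) (hR.iso _)
        (by rw [hR.pow, hD.pow]; ext v; simp [hR.one])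
        (by rw [hR.pow, hD.pow]; ext v; simp [hR.one])
        (by
          ext v
          simp only [Module.End.mul_apply, hR.mul]
          congr 2
          rw [hz]; group)
        (by
          ext v
          simp only [Module.End.mul_apply, hR.mul]
          rw [k1.eq])
        (by
          ext v
          simp only [Module.End.mul_apply, hR.mul]
          rw [k2.eq]) v
      simp only [hR.pow] at h1
      have e1 : v - ((p : ℂ)⁻¹ • ∑ j ∈ Finset.range p, ρ (x i ^ j)) v = L i v := by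
        rw [hLv]; rfl
      have e2 : v - ((p : ℂ)⁻¹ • ∑ l ∈ Finset.range p, ρ (x j ^ l)) v = L j v := by
        rw [hLv]; rfl
      rw [e1, e2, ← hs] at h1
      have h2 : -(1 / (2 * s)) * (‖L i v‖ ^ 2 + ‖L j v‖ ^ 2) =
          (-(1 / s) * (‖L i v‖ ^ 2 + ‖L j v‖ ^ 2)) / 2 := by field_simp
      rw [h2]
      linarith
    · rw [if_neg hN]
      refine (hLp i).inner_comm_nonneg (hLp j) (fun v => ?_) v
      simp only [hLv, map_sub, hR.comm (hD.comm i j hN)]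
      abel

/-- The sum of the pair bounds. -/
lemma sumBound {N : ι → Finset ι} (hcard : ∀ i, (N i).card ≤ 5)
    (hsymm : ∀ i j, j ∈ N i → i ∈ N j) {s : ℝ} (hs0 : 0 < s) (l : ι → ℝ) (hl : ∀ i, 0 ≤ l i)
    (r : ι → ι → ℝ) (hr : ∀ i j, (if j = i then l i else 0) +
      (if j ∈ N i then -(1 / (2 * s)) * (l i + l j) else 0) ≤ r i j) :
    (1 - 5 / s) * ∑ i, l i ≤ ∑ i, ∑ j, r i j := by
  have h2 : ∑ i, ∑ j, ((if j = i then l i else 0) +
      (if j ∈ N i then -(1 / (2 * s)) * (l i + l j) else 0)) ≤ ∑ i, ∑ j, r i j :=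
    Finset.sum_le_sum fun i _ => Finset.sum_le_sum fun j _ => hr i j
  have h3 : ∑ i, ∑ j, (if j ∈ N i then -(1 / (2 * s)) * (l i + l j) else 0) =
      -(1 / s) * ∑ i, (N i).card * l i := by
    have h4 : ∀ i j : ι, (if j ∈ N i then -(1 / (2 * s)) * (l i + l j) else 0) =
        -(1 / (2 * s)) * (if j ∈ N i then l i else 0) +
        -(1 / (2 * s)) * (if j ∈ N i then l j else 0) := by
      intro i j
      split_ifs <;> ring
    simp only [h4, Finset.sum_add_distrib, ← Finset.mul_sum]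
    have h5 : ∑ i, ∑ j, (if j ∈ N i then l i else 0) = ∑ i, ((N i).card : ℝ) * l i := by
      refine Finset.sum_congr rfl fun i _ => ?_
      rw [Finset.sum_ite_mem, Finset.univ_inter, Finset.sum_const, nsmul_eq_mul]
    have h6 : ∑ i, ∑ j, (if j ∈ N i then l j else 0) = ∑ i, ((N i).card : ℝ) * l i := by
      rw [Finset.sum_comm, ← h5]
      refine Finset.sum_congr rfl fun i _ => Finset.sum_congr rfl fun j _ => ?_
      have : i ∈ N j ↔ j ∈ N i := ⟨hsymm _ _, hsymm _ _⟩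
      exact if_congr this rfl rfl
    rw [h5, h6]
    generalize ∑ i, ((N i).card : ℝ) * l i = S
    have : 1 / (2 * s) = 1 / s / 2 := by rw [one_div, one_div, mul_inv]; ring
    rw [this]
    ring
  have h7 : ∑ i, ∑ j, (if j = i then l i else 0) = ∑ i, l i := by
    refine Finset.sum_congr rfl fun i _ => ?_
    simp
  refine le_trans ?_ h2
  simp only [Finset.sum_add_distrib]
  rw [h3, h7]
  have h9 : ∑ i, ((N i).card : ℝ) * l i ≤ 5 * ∑ i, l i := by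
    rw [Finset.mul_sum]
    refine Finset.sum_le_sum fun i _ => mul_le_mul_of_nonneg_right ?_ (hl i)
    exact_mod_cast hcard i
  have h10 : 1 / s * ∑ i, ((N i).card : ℝ) * l i ≤ 1 / s * (5 * ∑ i, l i) :=
    mul_le_mul_of_nonneg_left h9 (by positivity)
  have h11 : 1 / s * (5 * ∑ i, l i) = 5 / s * ∑ i, l i := by ring
  linarith

/-- Everything, for an opaque operator `T`. -/
lemma core (hT1 : StT1) (hT2 : StT2) {p : ℕ} {x : ι → K} {N : ι → Finset ι}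
    {ρ : K → V →ₗ[ℂ] V} (hD : TData K p x N) (hne : Nonempty ι) (hR : Rep ρ) (T : V →ₗ[ℂ] V)
    (hTv : ∀ v, T v = (Fintype.card ι : ℂ)⁻¹ • ∑ i, Pr p ρ (x i) v) :
    (∀ v, 0 ≤ ‖v‖ ^ 2 - (inner ℂ (T v) v).re) ∧
    (∀ v, ‖T v‖ ^ 2 ≤ ‖v‖ ^ 2) ∧
    (∀ (k : ℕ) v, ‖(T ^ k) v‖ ^ 2 - (inner ℂ (T ((T ^ k) v)) ((T ^ k) v)).re ≤
      (1 - cT p (Fintype.card ι)) ^ (2 * k) * (‖v‖ ^ 2 - (inner ℂ (T v) v).re)) ∧
    (∀ (k : ℕ) v, ‖(T ^ k) v - v‖ ^ 2 ≤
      1 / cT p (Fintype.card ι) * (‖v‖ ^ 2 - (inner ℂ (T v) v).re)) ∧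
    (∀ (k : ℕ) v, ‖v‖ ^ 2 - (inner ℂ ((T ^ k) v) v).re ≤
      1 / cT p (Fintype.card ι) * (‖v‖ ^ 2 - (inner ℂ (T v) v).re)) ∧
    (∀ i v, ‖ρ (x i) v - v‖ ^ 2 ≤
      4 * Fintype.card ι * (‖v‖ ^ 2 - (inner ℂ (T v) v).re)) ∧
    (∀ v, ‖v‖ ^ 2 - (inner ℂ (T v) v).re ≤ (p : ℝ) ^ 2 * ∑ i, ‖ρ (x i) v - v‖ ^ 2) := by
  have hp : 0 < p := hD.prime.pos
  have hp' : (p : ℂ) ≠ 0 := by exact_mod_cast hp.ne'
  set m := Fintype.card ι with hm
  have hm0 : 0 < m := Fintype.card_pos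
  have hmC : (m : ℂ) ≠ 0 := by exact_mod_cast hm0.ne'
  have hmR : (0 : ℝ) < m := by exact_mod_cast hm0
  have hm1 : (1 : ℝ) ≤ m := by exact_mod_cast hm0
  obtain ⟨hc0, hc1⟩ := cT_bounds (p := p) (m := m) hD.lt hm0
  have hs0 : 0 < Real.sqrt p := Real.sqrt_pos.mpr (by exact_mod_cast hp)
  have hPr : ∀ i, OProj (Pr p ρ (x i)) := fun i => hR.oproj hp (hD.pow i)
  obtain ⟨L, hLdef⟩ : ∃ L : ι → V →ₗ[ℂ] V, L = fun i => 1 - Pr p ρ (x i) := ⟨_, rfl⟩
  have hLv : ∀ i v, L i v = v - Pr p ρ (x i) v := fun i v => by simp [hLdef]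
  have hLp : ∀ i, OProj (L i) := fun i => by rw [hLdef]; exact (hPr i).compl
  clear hLdef
  have hsub : ∀ v, v - T v = (m : ℂ)⁻¹ • ∑ i, L i v := by
    intro v
    rw [hTv]
    simp only [hLv, Finset.sum_sub_distrib, smul_sub, Finset.sum_const, Finset.card_univ]
    rw [← hm, ← Nat.cast_smul_eq_nsmul ℂ, smul_smul, inv_mul_cancel₀ hmC, one_smul]
  have hstar : (starRingEnd ℂ) ((m : ℂ)⁻¹) = ((m : ℝ)⁻¹ : ℝ) := by simp
  have hQ : ∀ v, ‖v‖ ^ 2 - (inner ℂ (T v) v).re = (m : ℝ)⁻¹ * ∑ i, ‖L i v‖ ^ 2 := by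
    intro v
    have h1 : ‖v‖ ^ 2 - (inner ℂ (T v) v).re = (inner ℂ (v - T v) v).re := by
      rw [inner_sub_left, Complex.sub_re, re_inner_self v]
    rw [h1, hsub, inner_smul_left, sum_inner, hstar, Complex.re_ofReal_mul, Complex.re_sum]
    congr 1
    exact Finset.sum_congr rfl fun i _ => (hLp i).inner_self v
  have hTsa : ∀ v w, inner ℂ (T v) w = inner ℂ v (T w) := by
    intro v w
    rw [hTv, hTv, inner_smul_left, inner_smul_right, sum_inner, inner_sum]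
    simp only [(hPr _).sa]
    simp
  have hTnn : ∀ v, 0 ≤ (inner ℂ (T v) v).re := by
    intro v
    rw [hTv, inner_smul_left, sum_inner, hstar, Complex.re_ofReal_mul, Complex.re_sum]
    refine mul_nonneg (by positivity) (Finset.sum_nonneg fun i _ => ?_)
    rw [(hPr i).inner_self]
    positivity
  have hTle0 : ∀ v, 0 ≤ ‖v‖ ^ 2 - (inner ℂ (T v) v).re := by
    intro v
    rw [hQ]
    positivity
  have hTle : ∀ v, (inner ℂ (T v) v).re ≤ ‖v‖ ^ 2 := fun v => by linarith [hTle0 v]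
  have hmain : ∀ v, cT p m * (‖v‖ ^ 2 - (inner ℂ (T v) v).re) ≤ ‖v - T v‖ ^ 2 := by
    intro v
    rw [hQ, hsub, norm_smul, mul_pow]
    have h1 : ‖∑ i, L i v‖ ^ 2 = ∑ i, ∑ j, (inner ℂ (L i v) (L j v)).re := by
      rw [← re_inner_self, sum_inner, Complex.re_sum]
      refine Finset.sum_congr rfl fun i _ => ?_
      rw [inner_sum, Complex.re_sum]
    have h8 : (1 - 5 / Real.sqrt p) * ∑ i, ‖L i v‖ ^ 2 ≤ ‖∑ i, L i v‖ ^ 2 := by
      rw [h1]
      exact sumBound hD.card hD.symm hs0 (fun i => ‖L i v‖ ^ 2) (fun i => by positivity) _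
        (fun i j => pair hT1 hD hR hLv hLp rfl hs0 v i j)
    have h12 : ‖(m : ℂ)⁻¹‖ ^ 2 = (m : ℝ)⁻¹ * (m : ℝ)⁻¹ := by
      rw [norm_inv, Complex.norm_natCast]; ring
    rw [h12]
    have h13 : cT p m * ((m : ℝ)⁻¹ * ∑ i, ‖L i v‖ ^ 2) =
        (m : ℝ)⁻¹ * (m : ℝ)⁻¹ * ((1 - 5 / Real.sqrt p) * ∑ i, ‖L i v‖ ^ 2) := by
      unfold cT
      field_simp
    rw [h13]
    exact mul_le_mul_of_nonneg_left h8 (by positivity)
  obtain ⟨g1, g2, g3⟩ := hT2 V T (cT p m) hc0 hc1 hTsa hTnn hTle hmain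
  refine ⟨hTle0, fun v => ?_, g1, g2, g3, fun i v => ?_, fun v => ?_⟩
  · have h1 : ‖T v‖ ≤ ‖v‖ := by
      rw [hTv, norm_smul, norm_inv, Complex.norm_natCast]
      have h2 : ‖∑ i, Pr p ρ (x i) v‖ ≤ m * ‖v‖ := by
        refine (norm_sum_le _ _).trans ?_
        have h3 : ∀ i ∈ Finset.univ, ‖Pr p ρ (x i) v‖ ≤ ‖v‖ := by
          intro i _
          rw [Pr_apply, norm_smul, norm_inv, Complex.norm_natCast]
          have h4 : ‖∑ j ∈ Finset.range p, ρ (x i ^ j) v‖ ≤ p * ‖v‖ := by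
            refine (norm_sum_le _ _).trans ?_
            simp only [hR.iso, Finset.sum_const, Finset.card_range, nsmul_eq_mul, le_refl]
          rw [inv_mul_le_iff₀ (by exact_mod_cast hp)]
          exact h4
        refine (Finset.sum_le_sum h3).trans ?_
        simp [hm]
      rw [inv_mul_le_iff₀ hmR]
      exact h2
    exact pow_le_pow_left₀ (norm_nonneg _) h1 2
  · rw [hQ]
    have h1 : ρ (x i) v - v = ρ (x i) (L i v) - L i v := by
      rw [hLv, map_sub, hR.fix (hD.pow i)]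
      abel
    have h2 : ‖ρ (x i) v - v‖ ≤ 2 * ‖L i v‖ := by
      rw [h1]
      refine (norm_sub_le _ _).trans ?_
      rw [hR.iso]
      linarith
    have h3 : ‖ρ (x i) v - v‖ ^ 2 ≤ 4 * ‖L i v‖ ^ 2 := by
      calc ‖ρ (x i) v - v‖ ^ 2 ≤ (2 * ‖L i v‖) ^ 2 := pow_le_pow_left₀ (norm_nonneg _) h2 2
        _ = 4 * ‖L i v‖ ^ 2 := by ring
    have h4 : ‖L i v‖ ^ 2 ≤ ∑ i, ‖L i v‖ ^ 2 :=
      Finset.single_le_sum (f := fun i => ‖L i v‖ ^ 2) (fun i _ => by positivity)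
        (Finset.mem_univ i)
    have h5 : 4 * (m : ℝ) * ((m : ℝ)⁻¹ * ∑ i, ‖L i v‖ ^ 2) = 4 * ∑ i, ‖L i v‖ ^ 2 := by
      field_simp
    rw [h5]
    linarith
  · rw [hQ]
    have h1 : ∀ i, ‖L i v‖ ^ 2 ≤ (p : ℝ) ^ 2 * ‖ρ (x i) v - v‖ ^ 2 := by
      intro i
      have h2 : L i v = (p : ℂ)⁻¹ • ∑ j ∈ Finset.range p, (v - ρ (x i ^ j) v) := by
        rw [hLv, Pr_apply, Finset.sum_sub_distrib, smul_sub, Finset.sum_const,
          Finset.card_range, ← Nat.cast_smul_eq_nsmul ℂ, smul_smul, inv_mul_cancel₀ hp', one_smul]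
      have h3 : ‖L i v‖ ≤ p * ‖ρ (x i) v - v‖ := by
        rw [h2, norm_smul, norm_inv, Complex.norm_natCast,
          inv_mul_le_iff₀ (by exact_mod_cast hp)]
        refine (norm_sum_le _ _).trans ?_
        have h4 : ∀ j ∈ Finset.range p, ‖v - ρ (x i ^ j) v‖ ≤ p * ‖ρ (x i) v - v‖ := by
          intro j hj
          refine (hR.norm_pow_sub _ _ _).trans ?_
          exact mul_le_mul_of_nonneg_right
            (by exact_mod_cast (Finset.mem_range.mp hj).le) (norm_nonneg _)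
        refine (Finset.sum_le_sum h4).trans ?_
        simp
      calc ‖L i v‖ ^ 2 ≤ (p * ‖ρ (x i) v - v‖) ^ 2 := pow_le_pow_left₀ (norm_nonneg _) h3 2
        _ = _ := by ring
    have h5 : (m : ℝ)⁻¹ * ∑ i, ‖L i v‖ ^ 2 ≤ ∑ i, ‖L i v‖ ^ 2 := by
      have h6 : (m : ℝ)⁻¹ ≤ 1 := inv_le_one_of_one_le₀ hm1
      have h7 : 0 ≤ ∑ i, ‖L i v‖ ^ 2 := by positivity
      nlinarith
    refine h5.trans ?_
    rw [Finset.mul_sum]
    exact Finset.sum_le_sum fun i _ => h1 i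

end T3

open T3 in
theorem pT3 : StT3 := by
  intro hT1 hT2 K V ι _ _ _ _ _ p x N ρ hD hne hiso hmul hone
  have hR : Rep ρ := ⟨hiso, hmul, hone⟩
  have hm0 : 0 < Fintype.card ι := Fintype.card_pos
  obtain ⟨hc0, hc1⟩ := cT_bounds (p := p) (m := Fintype.card ι) hD.lt hm0
  have hTv : ∀ v, TAv p x ρ v = (Fintype.card ι : ℂ)⁻¹ • ∑ i, Pr p ρ (x i) v := by
    intro v
    simp only [TAv, Pr, LinearMap.smul_apply, LinearMap.sum_apply]
    rw [← Finset.smul_sum, smul_smul, mul_inv]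
  obtain ⟨a1, a2, a3, a4, a5, a6, a7⟩ := core hT1 hT2 hD hne hR (TAv p x ρ) hTv
  generalize hTd : TAv p x ρ = T at a1 a2 a3 a4 a5 a6 a7 hTv
  have hQf : ∀ v, Qf (fun v w => inner ℂ v w) T v = ‖v‖ ^ 2 - (inner ℂ (T v) v).re := by
    intro v
    unfold Qf
    rw [re_inner_self v]
  refine ⟨hc0, hc1, ⟨?_, ?_, ?_, ?_, ?_, ?_, ?_⟩⟩
  · intro v
    rw [hTd, hQf]
    exact a1 v
  · intro v
    rw [hTd, re_inner_self (T v), re_inner_self v]
    exact a2 v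
  · intro k v
    rw [hTd, hQf, hQf]
    exact a3 k v
  · intro k v
    rw [hTd, hQf, re_inner_self ((T ^ k) v - v)]
    exact a4 k v
  · intro k v
    rw [hTd, hQf, re_inner_self v]
    exact a5 k v
  · intro i v
    rw [hTd, hQf, re_inner_self (ρ (x i) v - v)]
    exact a6 i v
  · intro v
    rw [hTd, hQf]
    simp only [fun i => re_inner_self (ρ (x i) v - v)]
    exact a7 v

end Helper53.NG
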