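import Pool.Agent.Helper53.NG.StT

/-!
# Project NG: module T4, passing to the quotient by the null vectors
-/

namespace Helper53.NG

open Helper51.MU
open scoped Matrix.Norms.L2Operator

namespace T4

section Semi

variable {E : Type} [SeminormedAddCommGroup E] [InnerProductSpace ℂ E]

/-- The induced map on the quotient. -/
private noncomputable def ind (f : E →ₗ[ℂ] E) (hf : ∀ v, ‖f v‖ = ‖v‖) :
    SeparationQuotient E →ₗ[ℂ] SeparationQuotient E :=
  (SeparationQuotient.liftCLM
    ((SeparationQuotient.mkCLM ℂ E).comp (f.mkContinuous 1 (fun v => by rw [hf, one_mul])))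
    (fun _ _ h => (h.map (ContinuousLinearMap.continuous _)).eq) :
      SeparationQuotient E →L[ℂ] SeparationQuotient E)

private lemma ind_mk (f : E →ₗ[ℂ] E) (hf : ∀ v, ‖f v‖ = ‖v‖) (v : E) :
    ind f hf (SeparationQuotient.mk v) = SeparationQuotient.mk (f v) := rfl

private lemma mk_eq_of_norm {v w : E} (h : ‖v - w‖ = 0) :
    (SeparationQuotient.mk v : SeparationQuotient E) = SeparationQuotient.mk w := by
  rw [← sub_eq_zero, ← SeparationQuotient.mk_sub, ← norm_eq_zero, SeparationQuotient.norm_mk, h]

private lemma semi (h1 : StT1) (h2 : StT2) (h3 : StT3) (K ι : Type) [Group K]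
    [Fintype ι] [DecidableEq ι] (p : ℕ) (x : ι → K) (N : ι → Finset ι) (ρ : K → E →ₗ[ℂ] E)
    (hT : TData K p x N) (hne : Nonempty ι) (hiso : ∀ k v, ‖ρ k v‖ = ‖v‖)
    (hmul : ∀ k k' v, ‖ρ k (ρ k' v) - ρ (k * k') v‖ = 0) (hone : ∀ v, ‖ρ 1 v - v‖ = 0) :
    0 < cT p (Fintype.card ι) ∧ cT p (Fintype.card ι) ≤ 1 ∧
      TConcl p x (fun v w : E => inner ℂ v w) ρ (cT p (Fintype.card ι)) := by
  let ρ' : K → SeparationQuotient E →ₗ[ℂ] SeparationQuotient E := fun k => ind (ρ k) (hiso k)
  have hmk : ∀ k v, ρ' k (SeparationQuotient.mk v) = SeparationQuotient.mk (ρ k v) :=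
    fun k v => rfl
  have hmain := h3 h1 h2 K (SeparationQuotient E) ι p x N ρ' hT hne
    (by
      intro k v
      obtain ⟨v, rfl⟩ := SeparationQuotient.surjective_mk v
      rw [hmk, SeparationQuotient.norm_mk, SeparationQuotient.norm_mk, hiso])
    (by
      intro k k' v
      obtain ⟨v, rfl⟩ := SeparationQuotient.surjective_mk v
      rw [hmk, hmk, hmk]
      exact mk_eq_of_norm (hmul k k' v))
    (by
      intro v
      obtain ⟨v, rfl⟩ := SeparationQuotient.surjective_mk v
      rw [hmk]
      exact mk_eq_of_norm (hone v))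
  obtain ⟨hc0, hc1, hC⟩ := hmain
  refine ⟨hc0, hc1, ?_⟩
  have hsum : ∀ (s : Finset ℕ) (f : ℕ → E), (SeparationQuotient.mk (∑ j ∈ s, f j) :
      SeparationQuotient E) = ∑ j ∈ s, SeparationQuotient.mk (f j) :=
    fun s f => map_sum (SeparationQuotient.mkCLM ℂ E) f s
  have hsum' : ∀ f : ι → E, (SeparationQuotient.mk (∑ j, f j) :
      SeparationQuotient E) = ∑ j, SeparationQuotient.mk (f j) :=
    fun f => map_sum (SeparationQuotient.mkCLM ℂ E) f Finset.univ
  have hTav : ∀ v, TAv p x ρ' (SeparationQuotient.mk v) = SeparationQuotient.mk (TAv p x ρ v) := by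
    intro v
    simp only [TAv, LinearMap.smul_apply, LinearMap.sum_apply, SeparationQuotient.mk_smul,
      hsum, hsum', hmk]
  have hpow : ∀ (k : ℕ) v, (TAv p x ρ' ^ k) (SeparationQuotient.mk v) =
      SeparationQuotient.mk ((TAv p x ρ ^ k) v) := by
    intro k
    induction k with
    | zero => intro v; rfl
    | succ k ih =>
      intro v
      rw [pow_succ, pow_succ, Module.End.mul_apply, Module.End.mul_apply, hTav, ih]
  have hQ : ∀ v, Qf (fun v w : SeparationQuotient E => inner ℂ v w) (TAv p x ρ')
      (SeparationQuotient.mk v) = Qf (fun v w : E => inner ℂ v w) (TAv p x ρ) v := by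
    intro v
    unfold Qf
    rw [hTav]
    rfl
  have hD : ∀ v w : E, (inner ℂ (SeparationQuotient.mk v - SeparationQuotient.mk w)
      (SeparationQuotient.mk v - SeparationQuotient.mk w : SeparationQuotient E) : ℂ) =
      inner ℂ (v - w) (v - w) := fun v w => rfl
  have hI : ∀ v w : E, (inner ℂ (SeparationQuotient.mk v)
      (SeparationQuotient.mk w : SeparationQuotient E) : ℂ) = inner ℂ v w := fun v w => rfl
  refine ⟨?_, ?_, ?_, ?_, ?_, ?_, ?_⟩
  · intro v
    have := hC.nonneg (SeparationQuotient.mk v)
    rwa [hQ] at this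
  · intro v
    have := hC.contr (SeparationQuotient.mk v)
    simp only [hTav, hI] at this
    exact this
  · intro k v
    have := hC.energy k (SeparationQuotient.mk v)
    rw [hpow, hQ, hQ] at this
    exact this
  · intro k v
    have := hC.dist k (SeparationQuotient.mk v)
    simp only [hpow, hQ, hD] at this
    exact this
  · intro k v
    have := hC.low k (SeparationQuotient.mk v)
    simp only [hpow, hQ, hI] at this
    exact this
  · intro i v
    have := hC.gen i (SeparationQuotient.mk v)
    simp only [hmk, hQ, hD] at this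
    exact this
  · intro v
    have := hC.conv (SeparationQuotient.mk v)
    simp only [hmk, hQ, hD] at this
    exact this

end Semi

end T4

theorem pT4 : StT4 := by
  intro h1 h2 h3 K E ι _ _ _ _ _ p x N B ρ hT hne hW
  have hadd_left : ∀ v w u, B (v + w) u = B v u + B w u := by
    intro v w u
    rw [hW.form.symm u (v + w), hW.form.add, star_add, ← hW.form.symm, ← hW.form.symm]
  have hsmul_left : ∀ v w (r : ℂ), B (r • v) w = starRingEnd ℂ r * B v w := by
    intro v w r
    rw [hW.form.symm w (r • v), hW.form.smul, star_mul', ← hW.form.symm]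
    rfl
  let cd : PreInnerProductSpace.Core ℂ E :=
    { inner := B
      conj_inner_symm := fun v w => (hW.form.symm w v).symm
      re_inner_nonneg := fun v => hW.form.nonneg v
      add_left := hadd_left
      smul_left := hsmul_left }
  letI : SeminormedAddCommGroup E := @InnerProductSpace.Core.toSeminormedAddCommGroup ℂ E _ _ _ cd
  letI : InnerProductSpace ℂ E := InnerProductSpace.ofCore cd
  have hnorm : ∀ v : E, ‖v‖ = Real.sqrt (B v v).re := fun v => rfl
  exact T4.semi h1 h2 h3 K ι p x N ρ hT hne
    (fun k v => by rw [hnorm, hnorm, hW.iso])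
    (fun k k' v => by rw [hnorm, hW.mul, Real.sqrt_zero])
    (fun v => by rw [hnorm, hW.one, Real.sqrt_zero])

end Helper53.NG
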