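import Pool.Agent.Helper53.NG.StG

/-!
# Project NG, module TD: the eight generators satisfy `TData`
-/

namespace Helper53.NG

open Polynomial

namespace TD

/-- the positions of the nonzero entries of `gen i - 1` -/
def sup : Fin 8 → Finset (Ix × Ix) :=
  ![{(.v 0, .v 1), (.w 0, .w 1)}, {(.v 1, .v 2), (.w 1, .w 2)}, {(.v 2, .v 0), (.w 2, .w 0)},
    {(.o, .v 0)}, {(.v 2, .q)}, {(.v 2, .w 3)}, {(.q, .w 0)}, {(.v 3, .w 0)}]

/-- no composable positions -/
def Z (i j : Fin 8) : Prop := ∀ e ∈ sup i, ∀ f ∈ sup j, e.2 ≠ f.1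

instance (i j : Fin 8) : Decidable (Z i j) := by unfold Z; infer_instance

lemma z_self : ∀ i, Z i i := by decide +kernel

lemma z_not : ∀ i j, j ∉ nb i → i = j ∨ (Z i j ∧ Z j i) := by decide +kernel

lemma z_or : ∀ i j, j ∈ nb i → (Z i j ∨ Z j i) := by decide +kernel

/-- `gen i - 1` -/
noncomputable def nn (p : ℕ) (i : Fin 8) : Matrix Ix Ix (ZMod p)[X] :=
  ∑ e ∈ sup i, Matrix.single e.1 e.2 (if i = 2 then X else 1)

lemma nn_mul (p : ℕ) {i j : Fin 8} (h : Z i j) : nn p i * nn p j = 0 := by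
  unfold nn
  rw [Finset.sum_mul_sum]
  refine Finset.sum_eq_zero fun e he => Finset.sum_eq_zero fun f hf => ?_
  exact Matrix.single_mul_single_of_ne _ _ _ _ (h e he f hf) _

lemma dg_tv {A : Type} [CommRing A] (a b : Fin 4) (r : A) : dg (Matrix.transvection a b r) =
    1 + (Matrix.single (.v a) (.v b) r + Matrix.single (.w a) (.w b) r) := by
  ext i j
  cases i <;> cases j <;>
    simp [dg, Matrix.transvection, Matrix.single_apply, Matrix.one_apply]

lemma gen_val (p : ℕ) [Fact p.Prime] (i : Fin 8) :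
    ((gen p i : (Matrix Ix Ix (ZMod p)[X])ˣ) : Matrix Ix Ix (ZMod p)[X]) = 1 + nn p i := by
  have key : ∀ (a b : Fin 4) (h : a ≠ b) (r : (ZMod p)[X]), ((dgU (el a b h r) :
      (Matrix Ix Ix (ZMod p)[X])ˣ) : Matrix Ix Ix (ZMod p)[X]) =
      1 + ∑ e ∈ ({(.v a, .v b), (.w a, .w b)} : Finset (Ix × Ix)), Matrix.single e.1 e.2 r := by
    intro a b h r
    rw [Finset.sum_pair (by simp)]
    exact dg_tv a b r
  have key2 : ∀ (a b : Ix) (h : a ≠ b) (r : (ZMod p)[X]), ((el a b h r :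
      (Matrix Ix Ix (ZMod p)[X])ˣ) : Matrix Ix Ix (ZMod p)[X]) =
      1 + ∑ e ∈ ({(a, b)} : Finset (Ix × Ix)), Matrix.single e.1 e.2 r := by
    intro a b h r
    rw [Finset.sum_singleton]
    rfl
  fin_cases i
  · exact key 0 1 (by decide) 1
  · exact key 1 2 (by decide) 1
  · exact key 2 0 (by decide) X
  · exact key2 .o (.v 0) (by decide) 1
  · exact key2 (.v 2) .q (by decide) 1
  · exact key2 (.v 2) (.w 3) (by decide) 1
  · exact key2 .q (.w 0) (by decide) 1
  · exact key2 (.v 3) (.w 0) (by decide) 1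

lemma gen_inv (p : ℕ) [Fact p.Prime] (i : Fin 8) :
    (((gen p i)⁻¹ : (Matrix Ix Ix (ZMod p)[X])ˣ) : Matrix Ix Ix (ZMod p)[X]) = 1 - nn p i := by
  have h0 := nn_mul p (z_self i)
  have h1 : ((gen p i : (Matrix Ix Ix (ZMod p)[X])ˣ) : Matrix Ix Ix (ZMod p)[X]) * (1 - nn p i) = 1 := by
    rw [gen_val, mul_sub, mul_one, add_mul, one_mul, h0, add_zero, add_sub_cancel_right]
  exact Units.inv_eq_of_mul_eq_one_right h1

lemma gen_pow (p : ℕ) [Fact p.Prime] (i : Fin 8) : gen p i ^ p = 1 := by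
  have h0 := nn_mul p (z_self i)
  have h1 : ∀ n : ℕ, (1 + nn p i) ^ n = 1 + n • nn p i := by
    intro n
    induction n with
    | zero => simp
    | succ n ih =>
      rw [pow_succ, ih, mul_add, mul_one, add_mul, one_mul, smul_mul_assoc, h0, smul_zero, add_zero,
        succ_nsmul, add_assoc]
  apply Units.ext
  rw [Units.val_pow_eq_pow_val, gen_val, h1, Units.val_one]
  have h2 : p • nn p i = 0 := by
    have h3 : (p : (ZMod p)[X]) = 0 := CharP.cast_eq_zero _ _
    rw [← Nat.cast_smul_eq_nsmul (ZMod p)[X], h3, zero_smul]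
  rw [h2, add_zero]

lemma comm_gen (p : ℕ) [Fact p.Prime] {i j : Fin 8} (h1 : Z i j) (h2 : Z j i) :
    gen p i * gen p j = gen p j * gen p i := by
  apply Units.ext
  rw [Units.val_mul, Units.val_mul, gen_val, gen_val]
  simp only [mul_add, add_mul, mul_one, one_mul, nn_mul p h1, nn_mul p h2, add_zero]
  abel

/-- the commutator is `1 + c` where `c` kills and is killed by both -/
lemma heis_aux (p : ℕ) [Fact p.Prime] {i j : Fin 8} (h : Z i j ∨ Z j i) :
    ∃ c : Matrix Ix Ix (ZMod p)[X], ((gen p i * gen p j * (gen p i)⁻¹ * (gen p j)⁻¹ :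
      (Matrix Ix Ix (ZMod p)[X])ˣ) : Matrix Ix Ix (ZMod p)[X]) = 1 + c ∧ c * nn p i = 0 ∧
      nn p i * c = 0 ∧ c * nn p j = 0 ∧ nn p j * c = 0 := by
  rw [Units.val_mul, Units.val_mul, Units.val_mul, gen_inv, gen_inv, gen_val, gen_val]
  have ha := nn_mul p (z_self i)
  have hb := nn_mul p (z_self j)
  have hab : nn p i * nn p j = 0 ∨ nn p j * nn p i = 0 := h.imp (nn_mul p) (nn_mul p)
  clear h
  generalize nn p i = a at *
  generalize nn p j = b at *
  rcases hab with hab | hab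
  · refine ⟨-(b * a), ?_, ?_, ?_, ?_, ?_⟩
    · have h1 : (1 + a) * (1 + b) = 1 + a + b := by
        rw [mul_add, mul_one, add_mul, one_mul, hab, add_zero]
      have h2 : (1 - a) * (1 - b) = 1 - a - b := by
        rw [mul_sub, mul_one, sub_mul, one_mul, hab, sub_zero]
      rw [mul_assoc ((1 + a) * (1 + b)), h1, h2]
      have h3 : (1 + a + b) * (1 - a - b) = 1 - a * a - a * b - b * a - b * b := by noncomm_ring
      rw [h3, ha, hb, hab, sub_zero, sub_zero, sub_zero, sub_eq_add_neg]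
    · rw [neg_mul, mul_assoc, ha, mul_zero, neg_zero]
    · rw [mul_neg, ← mul_assoc, hab, zero_mul, neg_zero]
    · rw [neg_mul, mul_assoc, hab, mul_zero, neg_zero]
    · rw [mul_neg, ← mul_assoc, hb, zero_mul, neg_zero]
  · refine ⟨a * b, ?_, ?_, ?_, ?_, ?_⟩
    · have h3 : (1 + a) * (1 + b) * (1 - a) * (1 - b) = 1 + a * b - a * a + a * a * b - a * b * a
          + a * b * a * b - b * a + b * a * b - b * b - a * b * b := by noncomm_ring
      rw [h3, mul_assoc a b a, mul_assoc a b b, hab, ha, hb]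
      simp
    · rw [mul_assoc, hab, mul_zero]
    · rw [← mul_assoc, ha, zero_mul]
    · rw [mul_assoc, hb, mul_zero]
    · rw [← mul_assoc, hab, zero_mul]

end TD

open TD

theorem pTD : StTD := by
  intro p hpf hlt hcl
  have hmem : ∀ i, gen p i ∈ KK p := fun i => by
    rw [← hcl]
    exact Subgroup.subset_closure ⟨i, rfl⟩
  refine ⟨fun i => ⟨gen p i, hmem i⟩, fun i => rfl, ?_⟩
  refine ⟨hpf.out, hlt, fun i => ?_, ?_, by decide, by decide, by decide, fun i j hij => ?_, fun i j hij => ?_⟩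
  · apply Subtype.ext
    rw [Subgroup.coe_pow, gen_pow, Subgroup.coe_one]
  · apply Subgroup.map_injective (KK p).subtype_injective
    rw [MonoidHom.map_closure, ← Set.range_comp, ← MonoidHom.range_eq_map, Subgroup.range_subtype]
    exact hcl
  · rcases z_not i j hij with rfl | ⟨h1, h2⟩
    · exact Commute.refl _
    · exact Subtype.ext (comm_gen p h1 h2)
  · obtain ⟨c, hc, h1, h2, h3, h4⟩ := heis_aux p (z_or i j hij)
    constructor
    · apply Subtype.ext
      apply Units.ext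
      show ((gen p i * gen p j * (gen p i)⁻¹ * (gen p j)⁻¹ : (Matrix Ix Ix (ZMod p)[X])ˣ) :
        Matrix Ix Ix (ZMod p)[X]) * (gen p i : (Matrix Ix Ix (ZMod p)[X])ˣ) =
        ((gen p i : (Matrix Ix Ix (ZMod p)[X])ˣ) : Matrix Ix Ix (ZMod p)[X]) *
        ((gen p i * gen p j * (gen p i)⁻¹ * (gen p j)⁻¹ : (Matrix Ix Ix (ZMod p)[X])ˣ) : Matrix Ix Ix (ZMod p)[X])
      rw [hc, gen_val]
      simp only [mul_add, add_mul, mul_one, one_mul, h1, h2, add_zero]
      abel
    · apply Subtype.ext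
      apply Units.ext
      show ((gen p i * gen p j * (gen p i)⁻¹ * (gen p j)⁻¹ : (Matrix Ix Ix (ZMod p)[X])ˣ) :
        Matrix Ix Ix (ZMod p)[X]) * (gen p j : (Matrix Ix Ix (ZMod p)[X])ˣ) =
        ((gen p j : (Matrix Ix Ix (ZMod p)[X])ˣ) : Matrix Ix Ix (ZMod p)[X]) *
        ((gen p i * gen p j * (gen p i)⁻¹ * (gen p j)⁻¹ : (Matrix Ix Ix (ZMod p)[X])ˣ) : Matrix Ix Ix (ZMod p)[X])
      rw [hc, gen_val]
      simp only [mul_add, add_mul, mul_one, one_mul, h3, h4, add_zero]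
      abel

end Helper53.NG
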