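import Pool.Agent.Helper53.NG.StG

/-!
# Project NG, module TDP: `TData` for `K × K`
-/

namespace Helper53.NG

open Polynomial

namespace TDP

/-- the pairs for the product -/
def nb2 {ι : Type} [DecidableEq ι] (N : ι → Finset ι) : ι ⊕ ι → Finset (ι ⊕ ι) :=
  Sum.elim (fun i => (N i).image Sum.inl) (fun i => (N i).image Sum.inr)

end TDP

theorem pTDP : StTDP := by
  intro K _ ι _ _ p x N h
  refine ⟨TDP.nb2 N, ?_⟩
  refine ⟨h.prime, h.lt, ?_, ?_, ?_, ?_, ?_, ?_, ?_⟩
  · rintro (i | i)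
    · show ((x i, (1 : K)) : K × K) ^ p = 1
      rw [Prod.pow_mk, h.pow, one_pow]
      rfl
    · show (((1 : K), x i) : K × K) ^ p = 1
      rw [Prod.pow_mk, h.pow, one_pow]
      rfl
  · set T := Subgroup.closure (Set.range (Sum.elim (fun i => (x i, (1 : K))) fun i => ((1 : K), x i))) with hT
    have h1 : ∀ k : K, (k, (1 : K)) ∈ T := by
      intro k
      have hk : k ∈ Subgroup.closure (Set.range x) := by rw [h.gen]; exact Subgroup.mem_top k
      have hm : Subgroup.closure (Set.range x) ≤ T.comap (MonoidHom.inl K K) := by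
        rw [Subgroup.closure_le]
        rintro _ ⟨i, rfl⟩
        exact Subgroup.subset_closure ⟨Sum.inl i, rfl⟩
      exact hm hk
    have h2 : ∀ k : K, ((1 : K), k) ∈ T := by
      intro k
      have hk : k ∈ Subgroup.closure (Set.range x) := by rw [h.gen]; exact Subgroup.mem_top k
      have hm : Subgroup.closure (Set.range x) ≤ T.comap (MonoidHom.inr K K) := by
        rw [Subgroup.closure_le]
        rintro _ ⟨i, rfl⟩
        exact Subgroup.subset_closure ⟨Sum.inr i, rfl⟩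
      exact hm hk
    rw [eq_top_iff]
    rintro ⟨a, b⟩ -
    have e : ((a, b) : K × K) = (a, 1) * (1, b) := by
      rw [Prod.mk_mul_mk, mul_one, one_mul]
    rw [e]
    exact T.mul_mem (h1 a) (h2 b)
  · rintro (i | i)
    · exact Finset.card_image_le.trans (h.card i)
    · exact Finset.card_image_le.trans (h.card i)
  · rintro (i | i) hi
    · obtain ⟨j, hj, hji⟩ := Finset.mem_image.mp hi
      rw [Sum.inl.inj hji] at hj
      exact h.irr i hj
    · obtain ⟨j, hj, hji⟩ := Finset.mem_image.mp hi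
      rw [Sum.inr.inj hji] at hj
      exact h.irr i hj
  · rintro (i | i) (j | j) hij
    · obtain ⟨k, hk, hki⟩ := Finset.mem_image.mp hij
      rw [Sum.inl.inj hki] at hk
      exact Finset.mem_image.mpr ⟨i, h.symm i j hk, rfl⟩
    · obtain ⟨k, hk, hki⟩ := Finset.mem_image.mp hij
      cases hki
    · obtain ⟨k, hk, hki⟩ := Finset.mem_image.mp hij
      cases hki
    · obtain ⟨k, hk, hki⟩ := Finset.mem_image.mp hij
      rw [Sum.inr.inj hki] at hk
      exact Finset.mem_image.mpr ⟨i, h.symm i j hk, rfl⟩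
  · rintro (i | i) (j | j) hij
    · have h1 : j ∉ N i := fun hj => hij (Finset.mem_image.mpr ⟨j, hj, rfl⟩)
      show Commute (x i, (1 : K)) (x j, (1 : K))
      rw [commute_iff_eq, Prod.mk_mul_mk, Prod.mk_mul_mk, (h.comm i j h1).eq]
    · show Commute (x i, (1 : K)) ((1 : K), x j)
      rw [commute_iff_eq, Prod.mk_mul_mk, Prod.mk_mul_mk, mul_one, one_mul, mul_one, one_mul]
    · show Commute ((1 : K), x i) (x j, (1 : K))
      rw [commute_iff_eq, Prod.mk_mul_mk, Prod.mk_mul_mk, mul_one, one_mul, mul_one, one_mul]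
    · have h1 : j ∉ N i := fun hj => hij (Finset.mem_image.mpr ⟨j, hj, rfl⟩)
      show Commute ((1 : K), x i) ((1 : K), x j)
      rw [commute_iff_eq, Prod.mk_mul_mk, Prod.mk_mul_mk, (h.comm i j h1).eq]
  · rintro (i | i) (j | j) hij
    · obtain ⟨k, hk, hki⟩ := Finset.mem_image.mp hij
      rw [Sum.inl.inj hki] at hk
      obtain ⟨h1, h2⟩ := h.heis i j hk
      have e : (x i, (1 : K)) * (x j, (1 : K)) * (x i, (1 : K))⁻¹ * (x j, (1 : K))⁻¹ =
          (x i * x j * (x i)⁻¹ * (x j)⁻¹, (1 : K)) := by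
        rw [Prod.inv_mk, Prod.inv_mk, Prod.mk_mul_mk, Prod.mk_mul_mk, Prod.mk_mul_mk]
        simp
      refine ⟨?_, ?_⟩
      · show Commute ((x i, (1 : K)) * (x j, (1 : K)) * (x i, (1 : K))⁻¹ * (x j, (1 : K))⁻¹) (x i, (1 : K))
        rw [e, commute_iff_eq, Prod.mk_mul_mk, Prod.mk_mul_mk, h1.eq]
      · show Commute ((x i, (1 : K)) * (x j, (1 : K)) * (x i, (1 : K))⁻¹ * (x j, (1 : K))⁻¹) (x j, (1 : K))
        rw [e, commute_iff_eq, Prod.mk_mul_mk, Prod.mk_mul_mk, h2.eq]
    · obtain ⟨k, hk, hki⟩ := Finset.mem_image.mp hij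
      cases hki
    · obtain ⟨k, hk, hki⟩ := Finset.mem_image.mp hij
      cases hki
    · obtain ⟨k, hk, hki⟩ := Finset.mem_image.mp hij
      rw [Sum.inr.inj hki] at hk
      obtain ⟨h1, h2⟩ := h.heis i j hk
      have e : ((1 : K), x i) * ((1 : K), x j) * ((1 : K), x i)⁻¹ * ((1 : K), x j)⁻¹ =
          ((1 : K), x i * x j * (x i)⁻¹ * (x j)⁻¹) := by
        rw [Prod.inv_mk, Prod.inv_mk, Prod.mk_mul_mk, Prod.mk_mul_mk, Prod.mk_mul_mk]
        simp
      refine ⟨?_, ?_⟩
      · show Commute (((1 : K), x i) * ((1 : K), x j) * ((1 : K), x i)⁻¹ * ((1 : K), x j)⁻¹) ((1 : K), x i)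
        rw [e, commute_iff_eq, Prod.mk_mul_mk, Prod.mk_mul_mk, h1.eq]
      · show Commute (((1 : K), x i) * ((1 : K), x j) * ((1 : K), x i)⁻¹ * ((1 : K), x j)⁻¹) ((1 : K), x j)
        rw [e, commute_iff_eq, Prod.mk_mul_mk, Prod.mk_mul_mk, h2.eq]

end Helper53.NG
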