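import Pool.Agent.Helper53.NG.StA

/-!
# Project NG: module TNS
-/

namespace Helper53.NG

open Helper51.MU Helper61.IE Filter Topology
open scoped Matrix.Norms.L2Operator MatrixOrder ComplexOrder

attribute [local irreducible] Helper51.MU.instRingMUlt

namespace TNS

/-- signs -/
def sg : Bool → ℂ
  | true => -1
  | false => 1

/-- real signs -/
def sgr : Bool → ℝ
  | true => -1
  | false => 1

lemma sg_star (a : Bool) : star (sg a) * sg a = 1 := by
  cases a <;> simp [sg]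

lemma sg_sub (a c : Bool) : ‖sg a - sg c‖ ^ 2 = 2 - 2 * (sgr a * sgr c) := by
  cases a <;> cases c <;> simp [sg, sgr] <;> norm_num

lemma sum_sgr {b : ℕ} {i j : Fin b} (hij : i ≠ j) :
    ∑ ε : Fin b → Bool, sgr (ε i) * sgr (ε j) = 0 := by
  refine Finset.sum_involution (fun ε _ => Function.update ε i (!(ε i))) ?_ ?_ ?_ ?_
  · intro ε _
    rw [Function.update_self, Function.update_of_ne hij.symm]
    cases ε i <;> simp [sgr]
  · intro ε _ _ h
    have := congrFun h i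
    rw [Function.update_self] at this
    revert this
    cases ε i <;> simp
  · intro ε _
    exact Finset.mem_univ _
  · intro ε _
    simp

lemma sum_sg {b : ℕ} {i j : Fin b} (hij : i ≠ j) :
    ∑ ε : Fin b → Bool, ‖sg (ε i) - sg (ε j)‖ ^ 2 = 2 * Fintype.card (Fin b → Bool) := by
  simp only [sg_sub]
  rw [Finset.sum_sub_distrib, ← Finset.mul_sum, sum_sgr hij]
  simp
  ring

/-- diagonal sign matrices -/
noncomputable def dm {b : ℕ} (ε : Fin b → Bool) : Matrix.unitaryGroup (Fin b) ℂ :=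
  ⟨Matrix.diagonal fun i => sg (ε i), by
    rw [Matrix.mem_unitaryGroup_iff', Matrix.star_eq_conjTranspose, Matrix.diagonal_conjTranspose,
      Matrix.diagonal_mul_diagonal, ← Matrix.diagonal_one]
    congr 1
    funext i
    exact sg_star _⟩

lemma dm_comm {b : ℕ} (ε : Fin b → Bool) (y : Matrix (Fin b) (Fin b) ℂ) :
    hs ((dm ε : Matrix (Fin b) (Fin b) ℂ) * y - y * (dm ε : Matrix (Fin b) (Fin b) ℂ)) =
      ∑ i, ∑ j, ‖sg (ε i) - sg (ε j)‖ ^ 2 * ‖y i j‖ ^ 2 := by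
  unfold hs
  refine Finset.sum_congr rfl fun i _ => Finset.sum_congr rfl fun j _ => ?_
  have h1 : ((dm ε : Matrix (Fin b) (Fin b) ℂ) * y - y * (dm ε : Matrix (Fin b) (Fin b) ℂ)) i j =
      (sg (ε i) - sg (ε j)) * y i j := by
    show ((Matrix.diagonal fun i => sg (ε i)) * y - y * Matrix.diagonal fun i => sg (ε i)) i j = _
    rw [Matrix.sub_apply, Matrix.diagonal_mul, Matrix.mul_diagonal]
    ring
  rw [h1, norm_mul, mul_pow]

lemma sum_dm {b : ℕ} (y : Matrix (Fin b) (Fin b) ℂ) :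
    ∑ ε : Fin b → Bool, hs ((dm ε : Matrix (Fin b) (Fin b) ℂ) * y -
      y * (dm ε : Matrix (Fin b) (Fin b) ℂ)) =
    2 * Fintype.card (Fin b → Bool) * ∑ i, ∑ j, (if i = j then 0 else ‖y i j‖ ^ 2) := by
  simp only [dm_comm]
  rw [Finset.sum_comm, Finset.mul_sum]
  refine Finset.sum_congr rfl fun i _ => ?_
  rw [Finset.sum_comm, Finset.mul_sum]
  refine Finset.sum_congr rfl fun j _ => ?_
  rw [← Finset.sum_mul]
  by_cases hij : i = j
  · subst hij
    simp
  · rw [sum_sg hij, if_neg hij]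

/-- cyclic permutation matrices -/
noncomputable def pm {b : ℕ} [NeZero b] (k : Fin b) : Matrix.unitaryGroup (Fin b) ℂ :=
  ⟨Matrix.of fun i j => if i + k = j then 1 else 0, by
    rw [Matrix.mem_unitaryGroup_iff]
    ext i j
    rw [Matrix.mul_apply]
    simp only [Matrix.star_apply, Matrix.of_apply, Matrix.one_apply]
    rw [Finset.sum_eq_single (i + k)]
    · by_cases h : i = j
      · subst h; simp
      · have h2 : ¬ j + k = i + k := fun h' => h (add_right_cancel h').symm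
        simp [h, h2]
    · intro l _ hl
      rw [if_neg hl.symm, zero_mul]
    · simp⟩

lemma pm_comm {b : ℕ} [NeZero b] (k : Fin b) (y : Matrix (Fin b) (Fin b) ℂ) :
    ∑ i, ‖y (i + k) (i + k) - y i i‖ ^ 2 ≤
    hs ((pm k : Matrix (Fin b) (Fin b) ℂ) * y - y * (pm k : Matrix (Fin b) (Fin b) ℂ)) := by
  unfold hs
  refine Finset.sum_le_sum fun i _ => ?_
  have h1 : ((pm k : Matrix (Fin b) (Fin b) ℂ) * y - y * (pm k : Matrix (Fin b) (Fin b) ℂ))
      i (i + k) = y (i + k) (i + k) - y i i := by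
    rw [Matrix.sub_apply, Matrix.mul_apply, Matrix.mul_apply]
    congr 1
    · rw [Finset.sum_eq_single (i + k)]
      · show (if i + k = i + k then (1 : ℂ) else 0) * _ = _
        rw [if_pos rfl, one_mul]
      · intro l _ hl
        show (if i + k = l then (1 : ℂ) else 0) * _ = _
        rw [if_neg hl.symm, zero_mul]
      · simp
    · rw [Finset.sum_eq_single i]
      · show _ * (if i + k = i + k then (1 : ℂ) else 0) = _
        rw [if_pos rfl, mul_one]
      · intro l _ hl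
        show _ * (if l + k = i + k then (1 : ℂ) else 0) = _
        rw [if_neg (fun h => hl (add_right_cancel h)), mul_zero]
      · simp
  rw [← h1]
  exact Finset.single_le_sum (f := fun j => ‖((pm k : Matrix (Fin b) (Fin b) ℂ) * y -
    y * (pm k : Matrix (Fin b) (Fin b) ℂ)) i j‖ ^ 2) (fun _ _ => by positivity) (Finset.mem_univ _)

lemma sum_diff {b : ℕ} [NeZero b] (d : Fin b → ℂ) (m : ℂ) (hm : ∑ i, (d i - m) = 0) :
    ∑ k : Fin b, ∑ i, ‖d (i + k) - d i‖ ^ 2 = 2 * b * ∑ i, ‖d i - m‖ ^ 2 := by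
  rw [Finset.sum_comm]
  have h1 : ∀ i : Fin b, ∑ k : Fin b, ‖d (i + k) - d i‖ ^ 2 = ∑ j : Fin b, ‖d j - d i‖ ^ 2 :=
    fun i => Fintype.sum_equiv (Equiv.addLeft i) _ _ fun k => rfl
  simp only [h1]
  have h2 : ∀ i : Fin b, ∑ j : Fin b, ‖d j - d i‖ ^ 2 =
      ∑ j : Fin b, ‖d j - m‖ ^ 2 + b * ‖d i - m‖ ^ 2 := by
    intro i
    have h3 : ∀ j : Fin b, ‖d j - d i‖ ^ 2 = ‖d j - m‖ ^ 2 + ‖d i - m‖ ^ 2 -
        2 * ((starRingEnd ℂ (d i - m)) * (d j - m)).re := by
      intro j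
      have e : d j - d i = (d j - m) - (d i - m) := by ring
      rw [e, ← Complex.normSq_eq_norm_sq, ← Complex.normSq_eq_norm_sq, ← Complex.normSq_eq_norm_sq,
        Complex.normSq_sub, mul_comm (starRingEnd ℂ (d i - m))]
    simp only [h3]
    rw [Finset.sum_sub_distrib, Finset.sum_add_distrib, ← Finset.mul_sum, ← Complex.re_sum,
      ← Finset.mul_sum, hm]
    simp
  simp only [h2]
  rw [Finset.sum_add_distrib, ← Finset.mul_sum]
  simp
  ring

lemma hs_sub_ntr {b : ℕ} (y : Matrix (Fin b) (Fin b) ℂ) (m : ℂ) :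
    hs (y - m • (1 : Matrix (Fin b) (Fin b) ℂ)) =
      ∑ i, ‖y i i - m‖ ^ 2 + ∑ i, ∑ j, (if i = j then 0 else ‖y i j‖ ^ 2) := by
  unfold hs
  rw [← Finset.sum_add_distrib]
  refine Finset.sum_congr rfl fun i _ => ?_
  have h1 : ∀ j, ‖(y - m • (1 : Matrix (Fin b) (Fin b) ℂ)) i j‖ ^ 2 =
      (if i = j then ‖y i i - m‖ ^ 2 else 0) + (if i = j then 0 else ‖y i j‖ ^ 2) := by
    intro j
    rw [Matrix.sub_apply, Matrix.smul_apply, Matrix.one_apply]
    by_cases h : i = j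
    · subst h; simp
    · simp [h]
  simp only [h1]
  rw [Finset.sum_add_distrib]
  simp

/-- the family of unitaries -/
noncomputable def wf {b : ℕ} [NeZero b] :
    ((Fin b → Bool) × Fin b) ⊕ ((Fin b → Bool) × Fin b) → Matrix.unitaryGroup (Fin b) ℂ
  | .inl x => dm x.1
  | .inr x => pm x.2

lemma gap {b : ℕ} [NeZero b] (y : Matrix (Fin b) (Fin b) ℂ) :
    (Fintype.card (((Fin b → Bool) × Fin b) ⊕ ((Fin b → Bool) × Fin b)) : ℝ) *
      hs (y - ntr y • (1 : Matrix (Fin b) (Fin b) ℂ)) ≤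
    ∑ s ∈ (Finset.univ : Finset (((Fin b → Bool) × Fin b) ⊕ ((Fin b → Bool) × Fin b))),
      hs ((wf s : Matrix (Fin b) (Fin b) ℂ) * y - y * (wf s : Matrix (Fin b) (Fin b) ℂ)) := by
  have hb : (b : ℂ) ≠ 0 := by exact_mod_cast NeZero.ne b
  have hm : ∑ i, (y i i - ntr y) = 0 := by
    rw [Finset.sum_sub_distrib]
    unfold ntr
    simp
    field_simp
    simp
  rw [Fintype.sum_sum_type, Fintype.sum_prod_type, Fintype.sum_prod_type, hs_sub_ntr,
    Fintype.card_sum, Fintype.card_prod, Fintype.card_fin]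
  have e1 : ∑ ε : Fin b → Bool, ∑ k : Fin b,
      hs ((wf (Sum.inl (ε, k)) : Matrix (Fin b) (Fin b) ℂ) * y -
        y * (wf (Sum.inl (ε, k)) : Matrix (Fin b) (Fin b) ℂ)) =
      b * (2 * Fintype.card (Fin b → Bool) * ∑ i, ∑ j, (if i = j then 0 else ‖y i j‖ ^ 2)) := by
    rw [← sum_dm, Finset.mul_sum]
    refine Finset.sum_congr rfl fun ε _ => ?_
    show ∑ k : Fin b, hs ((dm ε : Matrix (Fin b) (Fin b) ℂ) * y -
      y * (dm ε : Matrix (Fin b) (Fin b) ℂ)) = _
    simp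
  have e2 : Fintype.card (Fin b → Bool) * (2 * b * ∑ i, ‖y i i - ntr y‖ ^ 2) ≤
      ∑ ε : Fin b → Bool, ∑ k : Fin b,
      hs ((wf (Sum.inr (ε, k)) : Matrix (Fin b) (Fin b) ℂ) * y -
        y * (wf (Sum.inr (ε, k)) : Matrix (Fin b) (Fin b) ℂ)) := by
    have h1 : 2 * b * ∑ i, ‖y i i - ntr y‖ ^ 2 ≤ ∑ k : Fin b,
      hs ((pm k : Matrix (Fin b) (Fin b) ℂ) * y - y * (pm k : Matrix (Fin b) (Fin b) ℂ)) := by
      rw [← sum_diff (fun i => y i i) (ntr y) hm]
      exact Finset.sum_le_sum fun k _ => pm_comm k y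
    have h2 : (Fintype.card (Fin b → Bool) : ℝ) * ∑ k : Fin b,
        hs ((pm k : Matrix (Fin b) (Fin b) ℂ) * y - y * (pm k : Matrix (Fin b) (Fin b) ℂ)) =
        ∑ ε : Fin b → Bool, ∑ k : Fin b,
          hs ((pm k : Matrix (Fin b) (Fin b) ℂ) * y - y * (pm k : Matrix (Fin b) (Fin b) ℂ)) := by
      simp
    exact (mul_le_mul_of_nonneg_left h1 (by positivity)).trans (le_of_eq h2)
  rw [e1]
  refine le_trans (le_of_eq ?_) (add_le_add_right e2 _)
  push_cast
  ring

/-- a unitary above average -/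
lemma exists_w (b : ℕ) (κ : Type) [Fintype κ] [DecidableEq κ]
    (y : Matrix (Fin b × κ) (Fin b × κ) ℂ) : ∃ w : Matrix.unitaryGroup (Fin b) ℂ,
    hs (y - inr (Fin b) (ptr y)) ≤ hs ((uinl κ w : Matrix (Fin b × κ) (Fin b × κ) ℂ) * y -
      y * (uinl κ w : Matrix (Fin b × κ) (Fin b × κ) ℂ)) := by
  rcases Nat.eq_zero_or_pos b with h | h
  · subst h
    refine ⟨1, ?_⟩
    have : y - inr (Fin 0) (ptr y) = 0 := Subsingleton.elim _ _
    rw [this, hs_zero]
    exact hs_nonneg _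
  · have : NeZero b := ⟨h.ne'⟩
    have h1 := gap_tensor (κ := κ) (wf (b := b)) gap y
    by_contra hcon
    push Not at hcon
    have h2 : ∑ s ∈ (Finset.univ : Finset (((Fin b → Bool) × Fin b) ⊕ ((Fin b → Bool) × Fin b))),
        hs ((uinl κ (wf s) : Matrix (Fin b × κ) (Fin b × κ) ℂ) * y -
          y * (uinl κ (wf s) : Matrix (Fin b × κ) (Fin b × κ) ℂ)) <
        ∑ s ∈ (Finset.univ : Finset (((Fin b → Bool) × Fin b) ⊕ ((Fin b → Bool) × Fin b))),
          hs (y - inr (Fin b) (ptr y)) :=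
      Finset.sum_lt_sum_of_nonempty ⟨Sum.inl (fun _ => true, 0), Finset.mem_univ _⟩
        fun s _ => hcon (wf s)
    rw [Finset.sum_const, Finset.card_univ, nsmul_eq_mul] at h2
    exact absurd h1 (not_le.2 h2)

end TNS

theorem pTNS : StTNS := by
  intro κ _ _ b U Z hZ
  obtain ⟨y, rfl⟩ := mkM_surjective Z
  choose w hw using fun n => TNS.exists_w (b n) (κ n) (y.1 n)
  let z : BSeq κ := ⟨fun n => ptr (y.1 n), by
    obtain ⟨C, hC⟩ := y.2
    exact ⟨C, fun n => (norm_ptr_le _).trans (hC n)⟩⟩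
  refine ⟨mkM U z, ?_⟩
  have h0 := hZ w
  rw [jm_mk, mk_eq_mk]
  have h5 := commute_tendsto (x := useq fun n => uinl (κ n) (w n)) (y := y) (U := U) h0
  simp only [useq_val] at h5
  refine squeeze_zero (fun n => nn_nonneg _) (fun n => ?_) h5
  unfold nn
  exact div_le_div_of_nonneg_right (hw n) (by positivity)

end Helper53.NG
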