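import Pool.Agent.Helper53.NG.StG

/-!
# Project NG, module TRI: three elements of a subgroup of finite index
-/

namespace Helper53.NG

open Polynomial

namespace TRI

theorem bf_el {A : Type} [CommRing A] (S : Subgroup (Matrix (Fin 4) (Fin 4) A)ˣ) (i j : Ix)
    (hij : lvl i < lvl j) (r : A) : BF S (Matrix.transvection i j r) := by
  refine ⟨1, S.one_mem, fun a b hab => ?_⟩
  rw [Units.val_one, dg_one, Matrix.transvection, Matrix.add_apply, Matrix.single_apply, if_neg,
    add_zero]
  rintro ⟨rfl, rfl⟩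
  omega

theorem el_mem {A : Type} [CommRing A] (S : Subgroup (Matrix (Fin 4) (Fin 4) A)ˣ) (i j : Ix)
    (h : i ≠ j) (hij : lvl i < lvl j) (r : A) : el i j h r ∈ PG S :=
  ⟨bf_el S i j hij r, bf_el S i j hij (-r)⟩

theorem el_add {A : Type} [CommRing A] (i j : Ix) (h : i ≠ j) (r s : A) :
    el i j h (r + s) = el i j h r * el i j h s := by
  apply Units.ext
  rw [Units.val_mul]
  exact (Matrix.transvection_mul_transvection_same i j h r s).symm

/-- the homomorphism `a ↦ (el a, el a)` -/
noncomputable def dh (p : ℕ) [Fact p.Prime] (i j : Ix) (h : i ≠ j) (hij : lvl i < lvl j) :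
    (ZMod p)[X] →+ Additive (GP p) where
  toFun a := Additive.ofMul ⟨(el i j h a, el i j h a),
    el_mem (SS p) i j h hij a, el_mem (SS p) i j h hij a, rfl, rfl, rfl, rfl⟩
  map_zero' := by
    rw [← ofMul_one]
    congr 1
    apply Subtype.ext
    have e : el i j h (0 : (ZMod p)[X]) = 1 := by
      apply Units.ext
      exact Matrix.transvection_zero i j
    show (el i j h (0 : (ZMod p)[X]), el i j h (0 : (ZMod p)[X])) = 1
    rw [e]
    rfl
  map_add' a b := by
    rw [← ofMul_mul]
    congr 1
    apply Subtype.ext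
    show (el i j h (a + b), el i j h (a + b)) =
      (el i j h a, el i j h a) * (el i j h b, el i j h b)
    rw [el_add, Prod.mk_mul_mk]

theorem fin {p : ℕ} [Fact p.Prime] (H : Subgroup (GP p)) (hH : H.FiniteIndex) (i j : Ix) (h : i ≠ j)
    (hij : lvl i < lvl j) : ((Subgroup.toAddSubgroup H).comap (dh p i j h hij)).FiniteIndex := by
  have h1 : (Subgroup.toAddSubgroup H).FiniteIndex := by
    rw [Subgroup.finiteIndex_toAddSubgroup_iff]
    exact hH
  refine ⟨?_⟩
  rw [AddSubgroup.index_comap]
  have h2 : (Subgroup.toAddSubgroup H).IsFiniteRelIndex (dh p i j h hij).range :=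
    AddSubgroup.isFiniteRelIndex_of_finiteIndex
  exact AddSubgroup.relIndex_ne_zero

end TRI

theorem pTRI : StTri := by
  intro hchi p _ H hH
  obtain ⟨-, -, -, -, -, h6⟩ := hchi p
  obtain ⟨a, ha, b, hb, c, hc, habc⟩ := h6 _ _ _
    (TRI.fin H hH .q (.w 3) (by decide) (by decide))
    (TRI.fin H hH .o (.v 3) (by decide) (by decide))
    (TRI.fin H hH (.v 3) .q (by decide) (by decide))
  exact ⟨a, b, c, _, _, _, habc, ha, hb, hc, rfl, rfl, rfl⟩

end Helper53.NG
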