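import Pool.Agent.Helper53.NG.StB

set_option autoImplicit false
set_option linter.unusedSectionVars false

/-!
# XIB: the set of multiplicities is bounded and contains 1
-/

namespace Helper53.NG

open Helper51.MU Helper61.IE Filter Topology
open scoped Matrix.Norms.L2Operator MatrixOrder ComplexOrder

attribute [local irreducible] Helper51.MU.instRingMUlt

namespace XIB

variable {n : Type} [Fintype n] [DecidableEq n]

lemma hs_le_rt_sq {X : Matrix n n ℂ} (hX : 0 ≤ X) : hs X ≤ rt X ^ 2 := by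
  have h1 : hs X ≤ ‖X‖ * rt X := by
    rw [hs_eq_rt, herm_of_nonneg hX]
    calc rt (X * X) ≤ rt ((‖X‖ • (1 : Matrix n n ℂ)) * X) :=
          rt_mul_mono (le_smul_of_norm (herm_of_nonneg hX)) hX
      _ = ‖X‖ * rt X := by rw [smul_mul_assoc, one_mul, rt_smul]
  have h2 := norm_sq_le_hs X
  have h3 := norm_nonneg X
  have h4 := rt_nonneg hX
  rcases eq_or_lt_of_le h3 with h5 | h5
  · rw [← h5] at h1
    nlinarith
  · have h6 : ‖X‖ ≤ rt X := by
      have h7 : ‖X‖ * ‖X‖ ≤ ‖X‖ * rt X := by nlinarith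
      exact le_of_mul_le_mul_left h7 h5
    nlinarith

lemma rt_ptr {b : ℕ} (hb : 0 < b) (X : Matrix (Fin b × n) (Fin b × n) ℂ) :
    rt X = b * rt (ptr X) := by
  have h1 : Matrix.trace X = (b : ℂ) * Matrix.trace (ptr X) := by
    unfold Matrix.trace
    rw [Finset.mul_sum, Fintype.sum_prod_type, Finset.sum_comm]
    refine Finset.sum_congr rfl fun a _ => ?_
    show _ = (b : ℂ) * ntr (blk X a a)
    unfold ntr blk
    have hb' : (b : ℂ) ≠ 0 := by exact_mod_cast hb.ne'
    rw [Fintype.card_fin, mul_div_cancel₀ _ hb']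
    rfl
  unfold rt
  rw [h1]
  simp

lemma ptr_one : ptr (1 : Matrix (Fin 1 × n) (Fin 1 × n) ℂ) = 1 := by
  ext a c
  show ntr (blk (1 : Matrix (Fin 1 × n) (Fin 1 × n) ℂ) a c) = _
  unfold ntr blk
  simp [Matrix.one_apply]

lemma rt_one : rt (1 : Matrix n n ℂ) = Fintype.card n := by
  simp [rt]

end XIB

open XIB in
theorem pXIB : StXIB := by
  intro n _ _ I _ x ε hε hε2 hn
  refine ⟨⟨one_pos, 1, zero_le_one, le_rfl, ?_, ?_, ?_⟩, ?_⟩
  · rw [ptr_one]
    simp
  · have h1 : hs (1 : Matrix (Fin 1 × n) (Fin 1 × n) ℂ) = Fintype.card n := by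
      rw [hs_eq_rt, Matrix.conjTranspose_one, one_mul, XIB.rt_one]
      simp
    rw [h1]
    have : (0 : ℝ) ≤ Fintype.card n := by positivity
    push_cast
    nlinarith
  · have h1 : ∀ i, inr (Fin 1) (x i) * (1 : Matrix (Fin 1 × n) (Fin 1 × n) ℂ) -
        1 * inr (Fin 1) (x i) = 0 := fun i => by rw [mul_one, one_mul, sub_self]
    simp only [h1]
    have h2 : hs (0 : Matrix (Fin 1 × n) (Fin 1 × n) ℂ) = 0 := by simp [hs]
    rw [h2]
    simp only [Finset.sum_const_zero, mul_zero]
    positivity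
  · rintro b ⟨hb, X, hX0, hX1, hX2, hX3, -⟩
    have hb' : (0 : ℝ) < b := by exact_mod_cast hb
    have hn' : (0 : ℝ) < Fintype.card n := by exact_mod_cast hn
    have h1 : (b : ℝ) ^ 2 * rt (ptr X) ≤ Fintype.card n := by
      have := rt_mono hX2
      rwa [rt_smul, XIB.rt_one] at this
    have h2 := rt_ptr hb X
    have h3 : (b : ℝ) * rt X ≤ Fintype.card n := by
      rw [h2]; nlinarith
    have h4 := hs_le_rt_sq hX0
    have h5 := rt_nonneg hX0
    have h6 : (b : ℝ) * ((1 - ε) * Fintype.card n) ≤ (Fintype.card n : ℝ) ^ 2 := by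
      calc (b : ℝ) * ((1 - ε) * Fintype.card n) ≤ b * (b * hs X) :=
            mul_le_mul_of_nonneg_left hX3 hb'.le
        _ ≤ b * (b * rt X ^ 2) := by
            refine mul_le_mul_of_nonneg_left (mul_le_mul_of_nonneg_left h4 hb'.le) hb'.le
        _ = (b * rt X) ^ 2 := by ring
        _ ≤ (Fintype.card n : ℝ) ^ 2 := by
            refine pow_le_pow_left₀ (by positivity) h3 2
    have h7 : (b : ℝ) * (1 - ε) ≤ Fintype.card n := by
      have : ((b : ℝ) * (1 - ε)) * Fintype.card n ≤ Fintype.card n * Fintype.card n := by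
        nlinarith
      exact le_of_mul_le_mul_right this hn'
    have h8 : (b : ℝ) ≤ 2 * Fintype.card n := by nlinarith
    exact_mod_cast h8

end Helper53.NG
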