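import Pool.Agent.Helper53.NG.Int
import Pool.Agent.Helper53.NG.Fin
import Pool.Agent.Helper53.NG.PBXI
import Pool.Agent.Helper53.NG.PCB
import Pool.Agent.Helper53.NG.PCBK
import Pool.Agent.Helper53.NG.PCE
import Pool.Agent.Helper53.NG.PCFC
import Pool.Agent.Helper53.NG.PCHI
import Pool.Agent.Helper53.NG.PCHN
import Pool.Agent.Helper53.NG.PCMP
import Pool.Agent.Helper53.NG.PCNJ
import Pool.Agent.Helper53.NG.PCNT
import Pool.Agent.Helper53.NG.PCOM
import Pool.Agent.Helper53.NG.PCUT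
import Pool.Agent.Helper53.NG.PDDP
import Pool.Agent.Helper53.NG.PFIX
import Pool.Agent.Helper53.NG.PGEN
import Pool.Agent.Helper53.NG.PGPN
import Pool.Agent.Helper53.NG.PIDL
import Pool.Agent.Helper53.NG.PIMA
import Pool.Agent.Helper53.NG.PIMB
import Pool.Agent.Helper53.NG.PIMC
import Pool.Agent.Helper53.NG.PIMM
import Pool.Agent.Helper53.NG.PIND
import Pool.Agent.Helper53.NG.PJON
import Pool.Agent.Helper53.NG.PLP
import Pool.Agent.Helper53.NG.PNB1
import Pool.Agent.Helper53.NG.POBS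
import Pool.Agent.Helper53.NG.PORB
import Pool.Agent.Helper53.NG.PPAD
import Pool.Agent.Helper53.NG.PPHI
import Pool.Agent.Helper53.NG.PPOL
import Pool.Agent.Helper53.NG.PPOS
import Pool.Agent.Helper53.NG.PPR1
import Pool.Agent.Helper53.NG.PPR2
import Pool.Agent.Helper53.NG.PQUO
import Pool.Agent.Helper53.NG.PRCT
import Pool.Agent.Helper53.NG.PRCV
import Pool.Agent.Helper53.NG.PREL
import Pool.Agent.Helper53.NG.PRK
import Pool.Agent.Helper53.NG.PRND
import Pool.Agent.Helper53.NG.PSAT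
import Pool.Agent.Helper53.NG.PSMC
import Pool.Agent.Helper53.NG.PSML
import Pool.Agent.Helper53.NG.PSPN
import Pool.Agent.Helper53.NG.PSSR
import Pool.Agent.Helper53.NG.PSUP
import Pool.Agent.Helper53.NG.PT1
import Pool.Agent.Helper53.NG.PT2
import Pool.Agent.Helper53.NG.PT3
import Pool.Agent.Helper53.NG.PT4
import Pool.Agent.Helper53.NG.PTD
import Pool.Agent.Helper53.NG.PTDP
import Pool.Agent.Helper53.NG.PTNS
import Pool.Agent.Helper53.NG.PTRI
import Pool.Agent.Helper53.NG.PWPR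
import Pool.Agent.Helper53.NG.PXIB

/-!
# Project NG: the main theorem
-/

namespace Helper53.NG

open Helper51.MU Helper61.IE Filter Topology Polynomial
open scoped Matrix.Norms.L2Operator MatrixOrder ComplexOrder

attribute [local irreducible] Helper51.MU.instRingMUlt

theorem main :
    ∃ (G : Type) (_ : Group G) (φ : G → ℂ), Countable G ∧
      ∀ U : Ultrafilter ℕ, Nonprincipal U →
        ∃ (u : G →* MUlt (fun n => Fin n) U) (N : Sub (fun n => Fin n) U),
          Generates φ u N ∧ NonGammaFactor N ∧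
          ∀ (l : ℕ → ℕ) (V : Ultrafilter ℕ), Nonprincipal V →
            NoIrreducible N (fun n => Fin (l n)) V := by
  have hT4 : T4 := pT4 pT1 pT2 pT3
  have hCUT : CUT := pCUT pLP pRK
  have hPOS : POS := pPOS pCFC
  have hPOL : POL := pPOL pCFC pCOM
  have hIDL : IDL := pIDL pNB1 pCOM hPOL
  have hCNJ : CNJ := pCNJ hT4 pNB1 pCOM
  have hCBK : CBK := pCBK hCNJ pCB pNB1
  have hINT : INT := int hT4 pNB1 pCOM pRK hPOS hPOL hIDL pPR1 pPR2 pSML pCMP pTNS hCBK hCUT pXIB
    pIMA pRND pIMB pIMC pIMM pSUP pRCT pRCV pPAD pDDP pBXI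
  have : Fact (Nat.Prime 29) := ⟨by norm_num⟩
  obtain ⟨x, -, hT⟩ := pTD 29 (by norm_num) (pGEN pSSR 29)
  exact cex pREL pCHI pCNT pSSR pORB pPHI pIND pQUO pTDP hCNJ pSPN pGPN pCE 29 x hT
    (neg pREL pCHI pTRI pCHN pCNT pJON pLP pSAT pSMC pSML hPOS hPOL pFIX hCUT pRCT hIDL pPR1 hCNJ
      hINT hCBK pWPR pOBS 29 x hT)

end Helper53.NG
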