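import Pool.Agent.Helper53.NG.StB
import Pool.Agent.Helper53.NG.StG
import Pool.Agent.Helper53.NG.StT

/-!
# Project NG: the obstruction (assembly of section 4)

Every homomorphism of `GP p` into the unitary group of `∏_U M_n` with trace `phi` has a nonscalar
commuting element.
-/

namespace Helper53.NG

open Helper51.MU Helper61.IE Filter Topology Polynomial
open scoped Matrix.Norms.L2Operator MatrixOrder ComplexOrder

attribute [local irreducible] Helper51.MU.instRingMUlt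

/-- The conclusion of section 3 (`int`). -/
def INT : Prop := ∀ (K I : Type) [Group K] [Fintype I] [DecidableEq I] (p : ℕ) (x : I → K)
  (N : I → Finset I) (l : ℕ → ℕ) (U : Ultrafilter ℕ), Nonprincipal U → TData K p x N →
  Nonempty I → (0 < cT p (Fintype.card I) ∧ cT p (Fintype.card I) ≤ 1) →
  ∀ (u : K →* MUlt (fun n => Fin (l n)) U), (∀ k, star (u k) * u k = 1) →
  Prime (Cmt fun k => u k) → (∀ᶠ n in (U : Filter ℕ), 0 < l n) →
  ∃ a b c V, Itw u a b c V ∧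
    ∀ y ∈ Cmt (fun k => c k), ∃ t : ℂ, y = t • (1 : MUlt (fun n => Fin (a n)) U)

namespace NEG

section grp

variable {A : Type} [CommRing A] {S : Subgroup (Matrix (Fin 4) (Fin 4) A)ˣ} {hS : S ≤ S3 A}

/-- The embedding of the first factor. -/
def i1 (S : Subgroup (Matrix (Fin 4) (Fin 4) A)ˣ) (hS : S ≤ S3 A) : KG S hS →* GG S hS where
  toFun k := ⟨((k : (Matrix Ix Ix A)ˣ), 1), by
    obtain ⟨k, h0, h1, h2, h3, h4⟩ := k
    refine ⟨h0, (PG S).one_mem, ?_, ?_, ?_, ?_⟩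
    · show t1 k = t1 1; rw [h1, t_one.1]
    · show t2 k = t2 1; rw [h2, t_one.2.1]
    · show t3 k = t3 1; rw [h3, t_one.2.2.1]
    · show t4 k = t4 1; rw [h4, t_one.2.2.2]⟩
  map_one' := rfl
  map_mul' k k' := by
    apply Subtype.ext
    show (((k * k' : KG S hS) : (Matrix Ix Ix A)ˣ), (1 : (Matrix Ix Ix A)ˣ)) = (_, _) * (_, _)
    rw [Prod.mk_mul_mk, one_mul]
    rfl

/-- The embedding of the second factor. -/
def i2 (S : Subgroup (Matrix (Fin 4) (Fin 4) A)ˣ) (hS : S ≤ S3 A) : KG S hS →* GG S hS where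
  toFun k := ⟨(1, (k : (Matrix Ix Ix A)ˣ)), by
    obtain ⟨k, h0, h1, h2, h3, h4⟩ := k
    refine ⟨(PG S).one_mem, h0, ?_, ?_, ?_, ?_⟩
    · show t1 1 = t1 k; rw [h1, t_one.1]
    · show t2 1 = t2 k; rw [h2, t_one.2.1]
    · show t3 1 = t3 k; rw [h3, t_one.2.2.1]
    · show t4 1 = t4 k; rw [h4, t_one.2.2.2]⟩
  map_one' := rfl
  map_mul' k k' := by
    apply Subtype.ext
    show ((1 : (Matrix Ix Ix A)ˣ), ((k * k' : KG S hS) : (Matrix Ix Ix A)ˣ)) = (_, _) * (_, _)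
    rw [Prod.mk_mul_mk, one_mul]
    rfl

lemma i1_i2 (k k' : KG S hS) : i1 S hS k * i2 S hS k' = i2 S hS k' * i1 S hS k := by
  apply Subtype.ext
  show ((k : (Matrix Ix Ix A)ˣ), (1 : (Matrix Ix Ix A)ˣ)) * (1, (k' : (Matrix Ix Ix A)ˣ)) =
    (1, (k' : (Matrix Ix Ix A)ˣ)) * ((k : (Matrix Ix Ix A)ˣ), (1 : (Matrix Ix Ix A)ˣ))
  rw [Prod.mk_mul_mk, Prod.mk_mul_mk, one_mul, one_mul, mul_one, mul_one]

lemma i1_normal (hREL : StRel) (g : GG S hS) (k : KG S hS) :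
    ∃ k', g * i1 S hS k * g⁻¹ = i1 S hS k' := by
  obtain ⟨h1, -⟩ := hREL A S hS
  refine ⟨⟨_, h1 _ g.2.1 _ k.2⟩, ?_⟩
  apply Subtype.ext
  refine Prod.ext ?_ ?_
  · rfl
  · show g.1.2 * 1 * (g.1.2)⁻¹ = 1
    rw [mul_one, mul_inv_cancel]

/-- Conjugation. -/
def cj (hREL : StRel) (g : (Matrix Ix Ix A)ˣ) (hg : g ∈ PG S) : KG S hS ≃* KG S hS where
  toFun k := ⟨g * k * g⁻¹, (hREL A S hS).1 g hg k k.2⟩
  invFun k := ⟨g⁻¹ * k * (g⁻¹)⁻¹, (hREL A S hS).1 g⁻¹ ((PG S).inv_mem hg) k k.2⟩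
  left_inv k := by apply Subtype.ext; simp [mul_assoc]
  right_inv k := by apply Subtype.ext; simp [mul_assoc]
  map_mul' k k' := by apply Subtype.ext; simp [mul_assoc]

lemma cj_val (hREL : StRel) (g : (Matrix Ix Ix A)ˣ) (hg : g ∈ PG S) (k : KG S hS) :
    ((cj hREL g hg k : KG S hS) : (Matrix Ix Ix A)ˣ) = g * k * g⁻¹ := rfl

lemma cj_comm (hREL : StRel) (a b : A) (ha : el .q (.w 3) (by decide) a ∈ PG S)
    (hb : el .o (.v 3) (by decide) b ∈ PG S) (k : KG S hS) :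
    cj hREL _ ha (cj hREL _ hb k) = cj hREL _ hb (cj hREL _ ha k) := by
  obtain ⟨-, -, -, -, h5, -⟩ := hREL A S hS
  apply Subtype.ext
  simp only [cj_val]
  have e : ∀ x y z : (Matrix Ix Ix A)ˣ, x * (y * z * y⁻¹) * x⁻¹ = (x * y) * z * (x * y)⁻¹ := by
    intro x y z; rw [mul_inv_rev]; simp only [mul_assoc]
  rw [e, e, h5]

lemma cj_comm3 (hREL : StRel) (a c : A) (ha : el .q (.w 3) (by decide) a ∈ PG S)
    (hc : el (.v 3) .q (by decide) c ∈ PG S) (k : KG S hS) :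
    cj hREL _ ha (cj hREL _ hc k) = cj hREL _ hc (cj hREL _ ha k) := by
  obtain ⟨-, -, -, h4, -, -, h7, -⟩ := hREL A S hS
  have hm := (cj hREL _ ha (cj hREL _ hc k)).2
  apply Subtype.ext
  rw [cj_val, cj_val] at hm
  simp only [cj_val]
  have e : ∀ x y z : (Matrix Ix Ix A)ˣ, x * (y * z * y⁻¹) * x⁻¹ = (x * y) * z * (x * y)⁻¹ := by
    intro x y z; rw [mul_inv_rev]; simp only [mul_assoc]
  rw [e] at hm
  rw [e, e, h7]
  have e2 := h4 _ hm (c * a)
  set T : (Matrix Ix Ix A)ˣ := el (.v 3) (.w 3) (by decide) (c * a) with hT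
  set W := (el .q (.w 3) (by decide) a : (Matrix Ix Ix A)ˣ) * el (.v 3) .q (by decide) c with hW
  have e3 : T * W * (k : (Matrix Ix Ix A)ˣ) * (T * W)⁻¹ =
      T * (W * (k : (Matrix Ix Ix A)ˣ) * W⁻¹) * T⁻¹ := by
    rw [mul_inv_rev]; simp only [mul_assoc]
  rw [e3, ← e2, mul_inv_cancel_right]

lemma cj_obs (hREL : StRel) (b c : A) (hb : el .o (.v 3) (by decide) b ∈ PG S)
    (hc : el (.v 3) .q (by decide) c ∈ PG S) (s : KG S hS)
    (hs : (s : (Matrix Ix Ix A)ˣ) = el .o .q (by decide) (b * c)) (k : KG S hS) :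
    cj hREL _ hb (cj hREL _ hc k) = s * cj hREL _ hc (cj hREL _ hb k) * s⁻¹ := by
  obtain ⟨-, -, -, -, -, h6, -, -⟩ := hREL A S hS
  apply Subtype.ext
  show _ = (s : (Matrix Ix Ix A)ˣ) * _ * (s : (Matrix Ix Ix A)ˣ)⁻¹
  simp only [cj_val]
  have e : ∀ x y z : (Matrix Ix Ix A)ˣ, x * (y * z * y⁻¹) * x⁻¹ = (x * y) * z * (x * y)⁻¹ := by
    intro x y z; rw [mul_inv_rev]; simp only [mul_assoc]
  rw [e, e, h6, hs]
  simp only [mul_inv_rev, mul_assoc]

lemma cj_s (hREL : StRel) (a d : A) (ha : el .q (.w 3) (by decide) a ∈ PG S) (s z : KG S hS)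
    (hs : (s : (Matrix Ix Ix A)ˣ) = el .o .q (by decide) d)
    (hz : (z : (Matrix Ix Ix A)ˣ) = el .o (.w 3) (by decide) (-(a * d))) :
    cj hREL _ ha s = s * z := by
  obtain ⟨-, -, -, -, -, -, -, h8⟩ := hREL A S hS
  apply Subtype.ext
  show _ = (s : (Matrix Ix Ix A)ˣ) * (z : (Matrix Ix Ix A)ˣ)
  rw [cj_val, hs, hz, h8, mul_inv_cancel_right]

lemma InC_el (r r' d : A) : InC ((el .o (.w 3) (by decide) r * el (.v 3) (.w 3) (by decide) d,
    el .o (.w 3) (by decide) r' * el (.v 3) (.w 3) (by decide) d) :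
    (Matrix Ix Ix A)ˣ × (Matrix Ix Ix A)ˣ) := by
  have key : ∀ r : A, (((el .o (.w 3) (by decide) r : (Matrix Ix Ix A)ˣ) *
      (el (.v 3) (.w 3) (by decide) d : (Matrix Ix Ix A)ˣ) : (Matrix Ix Ix A)ˣ) :
      Matrix Ix Ix A) = zt r d := by
    intro r
    show Matrix.transvection Ix.o (Ix.w 3) r * Matrix.transvection (Ix.v 3) (Ix.w 3) d = _
    unfold Matrix.transvection zt
    rw [add_mul, mul_add, mul_add, one_mul, one_mul, mul_one,
      Matrix.single_mul_single_of_ne _ _ _ _ (by decide : (Ix.w 3) ≠ .v 3), add_zero]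
    abel
  exact ⟨r, r', d, key r, key r'⟩

lemma phi_z (χ : A → ℂ) (r : A) : phi χ (el .o (.w 3) (by decide) r, 1) = χ r := by
  have h := InC_el r 0 (0 : A)
  have e0 : ∀ i j h, (el i j h (0 : A) : (Matrix Ix Ix A)ˣ) = 1 := by
    intro i j h; ext1; show Matrix.transvection i j 0 = 1; simp
  rw [e0, e0, mul_one, mul_one] at h
  unfold phi
  rw [if_pos h]
  congr 1
  show (Matrix.transvection .o (.w 3) r : Matrix Ix Ix A) .o (.w 3) -
    (1 : Matrix Ix Ix A) .o (.w 3) = r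
  simp [Matrix.transvection, Matrix.one_apply]

lemma phi_t4 (χ : A → ℂ) (d : A) : phi χ (el (.v 3) (.w 3) (by decide) d,
    el (.v 3) (.w 3) (by decide) d) = χ 0 := by
  have h := InC_el 0 0 d
  have e0 : ∀ i j h, (el i j h (0 : A) : (Matrix Ix Ix A)ˣ) = 1 := by
    intro i j h; ext1; show Matrix.transvection i j 0 = 1; simp
  rw [e0, one_mul] at h
  unfold phi
  rw [if_pos h]
  congr 1
  exact sub_self _

end grp

end NEG

open NEG in
/-- The obstruction. -/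
theorem neg (hREL : StRel) (hCHI : StChi) (hTRI : StTri) (hCHN : StChn) (hCNT : StCnt)
    (hJON : StJON) (hLP : StLP) (hSAT : StSAT) (hSMC : StSMC) (hSML : StSML) (hPOS : POS)
    (hPOL : POL) (hFIX : StFIX) (hCUT : CUT) (hRCT : StRCT) (hIDL : IDL) (hPR1 : StPR1)
    (hCNJ : CNJ) (hINT : INT) (hCBK : CBK) (hWPR : StWPR) (hOBS : StOBS)
    (p : ℕ) [Fact p.Prime] (x : Fin 8 → KK p) (hT : TData (KK p) p x nb)
    (l : ℕ → ℕ) (U : Ultrafilter ℕ) (hU : Nonprincipal U) (hl : ∀ᶠ n in (U : Filter ℕ), 0 < l n)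
    (u : GP p →* MUlt (fun n => Fin (l n)) U)
    (hu : ∀ g, star (u g) * u g = 1) (htr : ∀ g : GP p, tr (u g) = phi (chi p) g.1) :
    ∃ y, (∀ g, y * u g = u g * y) ∧ ∀ t : ℂ, y ≠ t • (1 : MUlt (fun n => Fin (l n)) U) := by
  classical
  by_contra hcon
  push Not at hcon
  obtain ⟨c1, c2, c3, c4, -, -⟩ := hCHI p
  have hne : ∀ᶠ n in (U : Filter ℕ), Nonempty (Fin (l n)) := by
    filter_upwards [hl] with n hn
    exact ⟨⟨0, hn⟩⟩
  set i : KK p →* GP p := i1 (SS p) (SS_le p) with hi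
  set D := Cmt (fun k : KK p => u (i k)) with hD
  have huK : ∀ k : KK p, star ((u.comp i) k) * (u.comp i) k = 1 := fun k => hu (i k)
  have hVN : IsVN D := isVN_cmt_hom (u.comp i) huK
  have hnorm : ∀ g k, ∃ k', g * i k * g⁻¹ = i k' := fun g k => i1_normal hREL g k
  have hscal : ∀ g : GP p, ‖phi (chi p) g.1‖ = 1 → u g = phi (chi p) g.1 • (1 : MUlt _ U) := by
    intro g hg
    rw [← htr g] at hg ⊢
    exact unit_eq_smul hne (hu g) hg
  -- the elements of `G_0` commute with the centre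
  obtain ⟨Gj, q, hmono, hexh, hind, hG0⟩ := hCHN p
  have hG0' : ∀ g ∈ Gj 0, ∀ z ∈ Zc D, z * u g = u g * z := by
    intro g hg z hz
    obtain ⟨k, k', d, hk⟩ := hG0 g hg
    obtain ⟨-, hmem, -⟩ := hREL (ZMod p)[X] (SS p) (SS_le p)
    have hm4 := (hmem d).2.2.2.1
    have hgd : (i k * i2 (SS p) (SS_le p) k')⁻¹ * g = ⟨(el (.v 3) (.w 3) (by decide) d,
        el (.v 3) (.w 3) (by decide) d), ⟨hm4, hm4, rfl, rfl, rfl, rfl⟩⟩ := by
      apply Subtype.ext
      show (((k : (Matrix Ix Ix (ZMod p)[X])ˣ), (1 : (Matrix Ix Ix (ZMod p)[X])ˣ)) *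
        (1, (k' : (Matrix Ix Ix (ZMod p)[X])ˣ)))⁻¹ * g.1 = _
      have e1 : ((k : (Matrix Ix Ix (ZMod p)[X])ˣ), (1 : (Matrix Ix Ix (ZMod p)[X])ˣ)) *
        ((1 : (Matrix Ix Ix (ZMod p)[X])ˣ), (k' : (Matrix Ix Ix (ZMod p)[X])ˣ)) =
        ((k : (Matrix Ix Ix (ZMod p)[X])ˣ), (k' : (Matrix Ix Ix (ZMod p)[X])ˣ)) := by
        rw [Prod.mk_mul_mk, mul_one, one_mul]
      rw [e1, hk, Prod.inv_mk, Prod.mk_mul_mk, inv_mul_cancel_left, inv_mul_cancel_left]
    have h1 : u ((i k * i2 (SS p) (SS_le p) k')⁻¹ * g) = 1 := by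
      rw [hgd]
      have hph : phi (chi p) ((el (.v 3) (.w 3) (by decide) d, el (.v 3) (.w 3) (by decide) d) :
        (Matrix Ix Ix (ZMod p)[X])ˣ × (Matrix Ix Ix (ZMod p)[X])ˣ) = 1 := by
        rw [phi_t4, c2]
      rw [hscal _ (by rw [hph, norm_one]), hph, one_smul]
    have h2 : u g = u (i k) * u (i2 (SS p) (SS_le p) k') := by
      rw [← map_mul]
      calc u g = u (i k * i2 (SS p) (SS_le p) k' *
          ((i k * i2 (SS p) (SS_le p) k')⁻¹ * g)) := by rw [mul_inv_cancel_left]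
        _ = _ := by rw [map_mul, h1, mul_one]
    have h3 : u (i2 (SS p) (SS_le p) k') ∈ D := by
      intro k₁
      show u _ * u (i k₁) = u (i k₁) * u _
      rw [← map_mul, ← map_mul, hi, i1_i2]
    have h4 : z * u (i k) = u (i k) * z := hz.1 k
    rw [h2, ← mul_assoc, h4, mul_assoc, hz.2 _ h3, ← mul_assoc]
  have : Countable (GP p) := hCNT p
  -- no small projections
  have hnosmall : ¬ ∀ δ : ℝ, 0 < δ → ∃ e ∈ Zc D, Pj e ∧ e ≠ 0 ∧ (tr e).re ≤ δ := by
    intro hsmall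
    obtain ⟨y, hy1, hy2⟩ := hSMC hJON hLP hSAT (GP p) (KK p) (fun n => Fin (l n)) U hU hne u hu i hnorm
      Gj q hmono hexh hind hG0' hsmall
    obtain ⟨t, ht⟩ := hcon y hy1
    exact hy2 t ht
  -- a minimal projection
  obtain ⟨e, he, hep, he0, hemin⟩ : ∃ e ∈ Zc D, Pj e ∧ e ≠ 0 ∧
      ∀ y ∈ Zc D, e * y * e = y → ∃ c : ℂ, y = c • e := by
    by_contra hno
    push Not at hno
    refine hnosmall fun δ hδ => ?_
    have h10 : (1 : MUlt (fun n => Fin (l n)) U) ≠ 0 := by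
      intro h
      have := tr_one hne
      rw [h, tr_zero] at this
      exact one_ne_zero this.symm
    obtain ⟨e, he, hp, h0, -, ht⟩ := hSML hPOS hPOL (fun n => Fin (l n)) U hU (Zc D) (isVN_zc hVN) 1
      (isVN_zc hVN).one Pj.one h10 (fun e he hp h0 _ => by
        obtain ⟨y, hy1, hy2, hy3⟩ := hno e he hp h0
        exact ⟨y, hy1, hy2, hy3⟩) δ hδ
    exact ⟨e, he, hp, h0, ht⟩
  have heD : e ∈ D := he.1
  obtain ⟨H, hH, hHe⟩ := hFIX (GP p) (KK p) (fun n => Fin (l n)) U hne u hu i hnorm e he hep he0 (by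
    intro z hz
    refine hemin _ ((isVN_zc hVN).mul _ ((isVN_zc hVN).mul _ he _ hz) _ he) ?_
    calc e * (e * z * e) * e = (e * e) * z * (e * e) := by simp only [mul_assoc]
      _ = _ := by rw [hep.2])
  obtain ⟨a, b, c, ga, gb, gc, habc, hga, hgb, hgc, ega, egb, egc⟩ := hTRI hCHI p H hH
  -- cut down
  obtain ⟨r, J, u₁, hJ1, hJu, hu₁, -, hr0, hcmp, hJD, hJE⟩ :=
    hRCT hCUT (KK p) (fun n => Fin (l n)) U (u.comp i) huK e heD hep he0
  have hinj := expd_injective J hcmp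
  have hVN1 : IsVN (Cmt fun k => u₁ k) := isVN_cmt_hom u₁ hu₁
  have heJ : ∀ y, e * expd J U y = expd J U y := fun y => by rw [← hJ1, ← map_mul, one_mul]
  have hJe : ∀ y, expd J U y * e = expd J U y := fun y => by rw [← hJ1, ← map_mul, mul_one]
  have hcen : ∀ z ∈ Zc (Cmt fun k => u₁ k), ∃ t : ℂ, z = t • (1 : MUlt (fun n => Fin (r n)) U) := by
    intro z hz
    have h1 : expd J U z ∈ Zc D := by
      refine ⟨hJD z hz.1, fun d hd => ?_⟩
      have hede : e * (e * d * e) * e = e * d * e := by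
        calc e * (e * d * e) * e = (e * e) * d * (e * e) := by simp only [mul_assoc]
          _ = _ := by rw [hep.2]
      obtain ⟨d₁, hd₁, hd₁'⟩ := hJE (e * d * e) (hVN.mul _ (hVN.mul _ heD _ hd) _ heD) hede
      have hed : e * d = d * e := he.2 d hd
      calc expd J U z * d = expd J U z * (e * d * e) := by
            rw [hed, mul_assoc, hep.2, ← hed, ← mul_assoc, hJe]
        _ = (e * d * e) * expd J U z := by rw [← hd₁', ← map_mul, ← map_mul, hz.2 d₁ hd₁]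
        _ = d * expd J U z := by rw [hed, mul_assoc, heJ, mul_assoc, heJ]
    obtain ⟨t, ht⟩ := hemin _ h1 (by rw [heJ, hJe])
    refine ⟨t, hinj ?_⟩
    rw [ht, map_smul, hJ1]
  have hprime : Prime (Cmt fun k => u₁ k) := hPR1 hIDL (fun n => Fin (r n)) U hU _ hVN1 hcen
  have hI : Nonempty (Fin 8) := ⟨0⟩
  obtain ⟨hc0, hc1, -⟩ := hCNJ (KK p) (Fin 8) p x nb (fun n => Fin (r n)) U hU hT hI u₁ u₁ hu₁ hu₁
  obtain ⟨a', b', c', V', hV', hc'⟩ := hINT (KK p) (Fin 8) p x nb r U hU hT hI ⟨hc0, hc1⟩ u₁ hu₁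
    hprime hr0
  -- the unitaries `w`
  have hW : ∀ (g : GP p) (hg : g ∈ H), ∃ w' : MUlt (fun n => Fin (a' n)) U, star w' * w' = 1 ∧
      ∀ k, w' * c' k = c' (cj hREL g.1.1 g.2.1 k) * w' := by
    intro g hg
    have hge := hHe g hg
    obtain ⟨w, hw⟩ := expd_range J hcmp (e * u g) (by
      rw [hJ1, ← mul_assoc, hep.2, hge, mul_assoc, hep.2])
    refine hWPR hCBK (KK p) (Fin 8) p x nb r U hU hT hI u₁ hu₁ hprime a' b' c' V' hV' hc'
      (cj hREL g.1.1 g.2.1) w (hinj ?_) fun k => hinj ?_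
    · rw [map_mul, map_star, hw, hJ1, hge, star_mul, hep.1, mul_assoc, ← mul_assoc (star (u g)),
        hu, one_mul, hep.2]
    · have hgk : g * i k = i (cj hREL g.1.1 g.2.1 k) * g := by
        apply Subtype.ext
        show g.1 * ((k : (Matrix Ix Ix (ZMod p)[X])ˣ), (1 : (Matrix Ix Ix (ZMod p)[X])ˣ)) =
          ((g.1.1 * (k : (Matrix Ix Ix (ZMod p)[X])ˣ) * g.1.1⁻¹),
            (1 : (Matrix Ix Ix (ZMod p)[X])ˣ)) * g.1
        refine Prod.ext ?_ ?_
        · show g.1.1 * (k : (Matrix Ix Ix (ZMod p)[X])ˣ) =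
            g.1.1 * (k : (Matrix Ix Ix (ZMod p)[X])ˣ) * g.1.1⁻¹ * g.1.1
          rw [inv_mul_cancel_right]
        · show g.1.2 * 1 = 1 * g.1.2
          rw [mul_one, one_mul]
      rw [map_mul, map_mul, hw, hJu, hJu]
      show e * u g * (e * u (i k)) = e * u (i _) * (e * u g)
      have he1 : e * u (i k) = u (i k) * e := heD k
      have he2 := heD (cj hREL g.1.1 g.2.1 k)
      have he2' : e * u (i (cj hREL g.1.1 g.2.1 k)) = u (i (cj hREL g.1.1 g.2.1 k)) * e := he2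
      calc e * u g * (e * u (i k)) = e * (u g * e) * u (i k) := by simp only [mul_assoc]
        _ = e * e * (u g * u (i k)) := by rw [← hge]; simp only [mul_assoc]
        _ = e * e * (u (i (cj hREL g.1.1 g.2.1 k)) * u g) := by rw [← map_mul, hgk, map_mul]
        _ = e * (e * u (i (cj hREL g.1.1 g.2.1 k))) * u g := by simp only [mul_assoc]
        _ = _ := by rw [he2', ← mul_assoc e, he2']; simp only [mul_assoc]
  have eqcj : ∀ (g h : (Matrix Ix Ix (ZMod p)[X])ˣ) (hg : g ∈ PG (SS p)) (hh : h ∈ PG (SS p)),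
      g = h → cj hREL (hS := SS_le p) g hg = cj hREL h hh := by
    rintro g h hg hh rfl; rfl
  obtain ⟨-, hmem, -⟩ := hREL (ZMod p)[X] (SS p) (SS_le p)
  obtain ⟨w₁, hw₁, hw₁'⟩ := hW ga hga
  obtain ⟨w₂, hw₂, hw₂'⟩ := hW gb hgb
  obtain ⟨w₃, hw₃, hw₃'⟩ := hW gc hgc
  have ma := (hmem a).1
  have mb := (hmem b).2.1
  have mc := (hmem c).2.2.1
  rw [eqcj _ _ ga.2.1 ma (by rw [ega])] at hw₁'
  rw [eqcj _ _ gb.2.1 mb (by rw [egb])] at hw₂'
  rw [eqcj _ _ gc.2.1 mc (by rw [egc])] at hw₃'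
  set s : KK p := ⟨el .o .q (by decide) (b * c), (hmem (b * c)).2.2.2.2.1⟩ with hs
  set z : KK p := ⟨el .o (.w 3) (by decide) (-(a * (b * c))), (hmem _).2.2.2.2.2⟩ with hz
  have hcz : c' z = 1 := hOBS (KK p) (fun n => Fin (a' n)) U c' hV'.unit hc' _ _ _ w₁ w₂ w₃ hw₁ hw₂
    hw₃ hw₁' hw₂' hw₃' s z (fun k => cj_comm hREL a b ma mb k) (fun k => cj_comm3 hREL a c ma mc k)
    (fun k => cj_obs hREL b c mb mc s rfl k) (cj_s hREL a (b * c) ma s z rfl rfl)
  -- the value of `u₁ z`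
  have hphz : phi (chi p) (i z).1 = chi p (-(a * (b * c))) := phi_z _ _
  have huz : u (i z) = chi p (-(a * (b * c))) • (1 : MUlt (fun n => Fin (l n)) U) := by
    rw [← hphz]
    exact hscal _ (by rw [hphz, c3])
  have hu₁z : u₁ z = chi p (-(a * (b * c))) • (1 : MUlt (fun n => Fin (r n)) U) := by
    apply hinj
    rw [hJu, map_smul, hJ1]
    show e * u (i z) = _
    rw [huz, mul_smul_comm, mul_one]
  have hit := hV'.itw z
  rw [hcz, hu₁z, map_smul, smul_mul_assoc, hV'.corl, map_one, hV'.corr] at hit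
  have h1 : chi p (-(a * (b * c))) = 1 := by
    by_contra hne1
    apply hV'.ne
    have h2 : (chi p (-(a * (b * c))) - 1) • V' = 0 := by rw [sub_smul, one_smul, hit, sub_self]
    rcases smul_eq_zero.1 h2 with h3 | h3
    · exact absurd (sub_eq_zero.1 h3) hne1
    · exact h3
  apply habc
  rw [c4] at h1
  have h2 : chi p (a * (b * c)) = 1 := by
    have := congrArg star h1
    rwa [star_star, star_one] at this
  rw [mul_assoc]
  exact h2

end Helper53.NG
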