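import Pool.Agent.Helper53.NG.StA

/-!
# Project NG: module CUT
-/

namespace Helper53.NG

open Helper51.MU Helper61.IE Filter Topology
open scoped Matrix.Norms.L2Operator MatrixOrder ComplexOrder

attribute [local irreducible] Helper51.MU.instRingMUlt

theorem pCUT : StCut := by
  intro hLP hRK ι _ _ U e he
  obtain ⟨p, hp, hPr⟩ := hLP ι U e he
  have hex : ∀ n, ∃ (r : ℕ) (J : Matrix (ι n) (Fin r) ℂ), J.conjTranspose * J = 1 ∧
      J * J.conjTranspose = p.1 n ∧ (r : ℝ) = rt (p.1 n) := fun n => hRK (ι n) (p.1 n) (hPr n)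
  choose r J h1 h2 h3 using hex
  refine ⟨r, ⟨J, h1⟩, ?_, ?_⟩
  · rw [← map_one (mkM U), expd_mk, ← hp]
    congr 1
    refine Subtype.ext (funext fun n => ?_)
    rw [expB_val, one_val, Matrix.mul_one]
    exact h2 n
  · have h4 := (Complex.continuous_re.tendsto _).comp (tendsto_tr (U := U) p)
    rw [hp] at h4
    refine h4.congr fun n => ?_
    show (ntr (p.1 n)).re = _
    have h5 : ntr (p.1 n) = Matrix.trace (p.1 n) / ((Fintype.card (ι n) : ℝ) : ℂ) := by
      rw [Complex.ofReal_natCast]; rfl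
    rw [h5, Complex.div_ofReal_re, h3 n]
    rfl

end Helper53.NG
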