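import Pool.Agent.Helper53.NG.StB

/-!
# Project NG, module OBS: the obstruction
-/

set_option autoImplicit false

namespace Helper53.NG

open Helper51.MU Helper61.IE Filter Topology
open scoped Matrix.Norms.L2Operator MatrixOrder ComplexOrder

attribute [local irreducible] Helper51.MU.instRingMUlt

/-- Two unitaries implementing the same map differ by a scalar. -/
private lemma OBS.scalar {K : Type} {ι : ℕ → Type} [∀ n, Fintype (ι n)]
    [∀ n, DecidableEq (ι n)] {U : Ultrafilter ℕ} {c : K → MUlt ι U}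
    (hcom : ∀ y ∈ Cmt c, ∃ t : ℂ, y = t • (1 : MUlt ι U)) {β : K → K} {A B : MUlt ι U}
    (hB : star B * B = 1) (hAc : ∀ k, A * c k = c (β k) * A)
    (hBc : ∀ k, B * c k = c (β k) * B) : ∃ t : ℂ, A = t • B := by
  have hB' := mul_star_of_unit hB
  have h1 : ∀ k, star B * c (β k) = c k * star B := by
    intro k
    calc star B * c (β k) = star B * c (β k) * (B * star B) := by rw [hB', mul_one]
      _ = star B * (c (β k) * B) * star B := by simp only [mul_assoc]
      _ = star B * (B * c k) * star B := by rw [hBc]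
      _ = (star B * B) * c k * star B := by simp only [mul_assoc]
      _ = c k * star B := by rw [hB, one_mul]
  obtain ⟨t, ht⟩ := hcom (star B * A) (by
    intro k
    calc star B * A * c k = star B * (A * c k) := by simp only [mul_assoc]
      _ = (star B * c (β k)) * A := by rw [hAc]; simp only [mul_assoc]
      _ = c k * (star B * A) := by rw [h1]; simp only [mul_assoc])
  refine ⟨t, ?_⟩
  calc A = (B * star B) * A := by rw [hB', one_mul]
    _ = B * (star B * A) := by simp only [mul_assoc]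
    _ = B * (t • 1) := by rw [ht]
    _ = t • B := by rw [mul_smul_comm, mul_one]

private lemma OBS.unit_mul {ι : ℕ → Type} [∀ n, Fintype (ι n)]
    [∀ n, DecidableEq (ι n)] {U : Ultrafilter ℕ} {A B : MUlt ι U}
    (hA : star A * A = 1) (hB : star B * B = 1) : star (A * B) * (A * B) = 1 := by
  rw [star_mul]
  calc star B * star A * (A * B) = star B * (star A * A) * B := by simp only [mul_assoc]
    _ = 1 := by rw [hA, mul_one, hB]

private lemma OBS.cancel {ι : ℕ → Type} [∀ n, Fintype (ι n)]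
    [∀ n, DecidableEq (ι n)] {U : Ultrafilter ℕ} {A B C : MUlt ι U}
    (hC : star C * C = 1) (h : A * C = B * C) : A = B := by
  have hC' := mul_star_of_unit hC
  calc A = A * (C * star C) := by rw [hC', mul_one]
    _ = (A * C) * star C := by simp only [mul_assoc]
    _ = B * (C * star C) := by rw [h]; simp only [mul_assoc]
    _ = B := by rw [hC', mul_one]

theorem pOBS : StOBS := by
  intro K _ ι _ _ U c hc hcom α₁ α₂ α₃ w₁ w₂ w₃ h₁ h₂ h₃ hw₁ hw₂ hw₃ s z h12 h13 h23 hs
  by_cases htriv : (1 : MUlt ι U) = 0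
  · calc c z = c z * 1 := (mul_one _).symm
      _ = 0 := by rw [htriv, mul_zero]
      _ = 1 := htriv.symm
  have u12 := OBS.unit_mul h₁ h₂
  have u21 := OBS.unit_mul h₂ h₁
  have u13 := OBS.unit_mul h₁ h₃
  have u31 := OBS.unit_mul h₃ h₁
  have u23 := OBS.unit_mul h₂ h₃
  have u32 := OBS.unit_mul h₃ h₂
  -- a scalar multiple relation between unitaries has a nonzero scalar
  have hne : ∀ {A B : MUlt ι U} {t : ℂ}, star A * A = 1 → A = t • B → t ≠ 0 := by
    intro A B t hA hAB ht
    apply htriv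
    rw [← hA, hAB, ht, zero_smul, mul_zero]
  obtain ⟨a, ha⟩ := OBS.scalar (c := fun k => c k) (β := fun k => α₁ (α₂ k)) (A := w₁ * w₂)
    (B := w₂ * w₁) hcom u21
    (fun k => by
      calc w₁ * w₂ * c k = w₁ * (w₂ * c k) := by simp only [mul_assoc]
        _ = (w₁ * c (α₂ k)) * w₂ := by rw [hw₂]; simp only [mul_assoc]
        _ = c (α₁ (α₂ k)) * (w₁ * w₂) := by rw [hw₁]; simp only [mul_assoc])
    (fun k => by
      calc w₂ * w₁ * c k = w₂ * (w₁ * c k) := by simp only [mul_assoc]
        _ = (w₂ * c (α₁ k)) * w₁ := by rw [hw₁]; simp only [mul_assoc]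
        _ = c (α₁ (α₂ k)) * (w₂ * w₁) := by rw [hw₂, h12]; simp only [mul_assoc])
  obtain ⟨b, hb⟩ := OBS.scalar (c := fun k => c k) (β := fun k => α₁ (α₃ k)) (A := w₁ * w₃)
    (B := w₃ * w₁) hcom u31
    (fun k => by
      calc w₁ * w₃ * c k = w₁ * (w₃ * c k) := by simp only [mul_assoc]
        _ = (w₁ * c (α₃ k)) * w₃ := by rw [hw₃]; simp only [mul_assoc]
        _ = c (α₁ (α₃ k)) * (w₁ * w₃) := by rw [hw₁]; simp only [mul_assoc])
    (fun k => by
      calc w₃ * w₁ * c k = w₃ * (w₁ * c k) := by simp only [mul_assoc]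
        _ = (w₃ * c (α₁ k)) * w₁ := by rw [hw₁]; simp only [mul_assoc]
        _ = c (α₁ (α₃ k)) * (w₃ * w₁) := by rw [hw₃, h13]; simp only [mul_assoc])
  have us : star (c s * (w₃ * w₂)) * (c s * (w₃ * w₂)) = 1 := OBS.unit_mul (hc s) u32
  obtain ⟨t, ht⟩ := OBS.scalar (c := fun k => c k) (β := fun k => α₂ (α₃ k)) (A := w₂ * w₃)
    (B := c s * (w₃ * w₂)) hcom us
    (fun k => by
      calc w₂ * w₃ * c k = w₂ * (w₃ * c k) := by simp only [mul_assoc]
        _ = (w₂ * c (α₃ k)) * w₃ := by rw [hw₃]; simp only [mul_assoc]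
        _ = c (α₂ (α₃ k)) * (w₂ * w₃) := by rw [hw₂]; simp only [mul_assoc])
    (fun k => by
      have hss : c (s * α₃ (α₂ k) * s⁻¹) * c s = c s * c (α₃ (α₂ k)) := by
        rw [← map_mul, ← map_mul]
        congr 1
        group
      calc c s * (w₃ * w₂) * c k = c s * (w₃ * (w₂ * c k)) := by simp only [mul_assoc]
        _ = c s * ((w₃ * c (α₂ k)) * w₂) := by rw [hw₂]; simp only [mul_assoc]
        _ = (c s * c (α₃ (α₂ k))) * (w₃ * w₂) := by rw [hw₃]; simp only [mul_assoc]
        _ = c (α₂ (α₃ k)) * (c s * (w₃ * w₂)) := by rw [h23, ← hss]; simp only [mul_assoc])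
  have ha0 : a ≠ 0 := hne u12 ha
  have hb0 : b ≠ 0 := hne u13 hb
  have ht0 : t ≠ 0 := hne u23 ht
  have e1 : w₁ * (w₂ * w₃) = (a * b) • (w₂ * w₃ * w₁) := by
    calc w₁ * (w₂ * w₃) = (w₁ * w₂) * w₃ := by simp only [mul_assoc]
      _ = a • (w₂ * (w₁ * w₃)) := by rw [ha, smul_mul_assoc]; simp only [mul_assoc]
      _ = (a * b) • (w₂ * w₃ * w₁) := by
        rw [hb, mul_smul_comm, smul_smul]; simp only [mul_assoc]
  have e2 : w₁ * (c s * (w₃ * w₂)) = (a * b) • (c s * c z * (w₃ * w₂) * w₁) := by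
    calc w₁ * (c s * (w₃ * w₂)) = (w₁ * c s) * (w₃ * w₂) := by simp only [mul_assoc]
      _ = c (s * z) * ((w₁ * w₃) * w₂) := by rw [hw₁, hs]; simp only [mul_assoc]
      _ = b • (c (s * z) * (w₃ * (w₁ * w₂))) := by
        rw [hb, smul_mul_assoc, mul_smul_comm]; simp only [mul_assoc]
      _ = (a * b) • (c s * c z * (w₃ * w₂) * w₁) := by
        rw [ha, mul_smul_comm, mul_smul_comm, smul_smul, map_mul, mul_comm b a]
        simp only [mul_assoc]
  have e3 : (a * b) • (w₂ * w₃ * w₁) = (a * b) • ((t • (c s * c z * (w₃ * w₂))) * w₁) := by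
    rw [← e1, ht, mul_smul_comm, e2, smul_mul_assoc, smul_comm]
  have hab : a * b ≠ 0 := mul_ne_zero ha0 hb0
  have e4 : w₂ * w₃ * w₁ = (t • (c s * c z * (w₃ * w₂))) * w₁ := by
    have := congrArg (fun y => (a * b)⁻¹ • y) e3
    simpa only [smul_smul, inv_mul_cancel₀ hab, one_smul] using this
  have e5 : w₂ * w₃ = t • (c s * c z * (w₃ * w₂)) := OBS.cancel h₁ e4
  rw [ht] at e5
  have e6 : c s * (w₃ * w₂) = c s * c z * (w₃ * w₂) := by
    have := congrArg (fun y => t⁻¹ • y) e5
    simpa only [smul_smul, inv_mul_cancel₀ ht0, one_smul] using this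
  have e7 : c s = c s * c z := OBS.cancel u32 e6
  calc c z = (star (c s) * c s) * c z := by rw [hc, one_mul]
    _ = star (c s) * (c s * c z) := by simp only [mul_assoc]
    _ = 1 := by rw [← e7, hc]

end Helper53.NG
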