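import Pool.Agent.Helper53.NG.StA
import Pool.Agent.Helper61.IE.PDiag

/-!
# Project NG, module SAT: saturation for projections commuting with a countable group
-/

namespace Helper53.NG

open Helper51.MU Helper61.IE Filter Topology
open scoped Matrix.Norms.L2Operator MatrixOrder ComplexOrder

attribute [local irreducible] Helper51.MU.instRingMUlt

theorem pSAT : StSAT := by
  classical
  intro hLP G _ _ ι _ _ U hU u a b hyp
  obtain ⟨en, hen⟩ := exists_surjective_nat G
  have hyp' : ∀ m : ℕ, ∃ p : BSeq ι, (∀ n, Pr (p.1 n)) ∧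
      (∀ i ∈ Finset.range (m + 1), mkM U p * u (en i) = u (en i) * mkM U p) ∧
      a ≤ (tr (mkM U p)).re ∧ (tr (mkM U p)).re ≤ b := by
    intro m
    obtain ⟨e, he1, he2, he3, he4⟩ := hyp ((Finset.range (m + 1)).image en)
    obtain ⟨p, hp1, hp2⟩ := hLP ι U e he1
    refine ⟨p, hp2, ?_, ?_, ?_⟩
    · intro i hi
      rw [hp1]
      exact he2 _ (Finset.mem_image_of_mem en hi)
    · rw [hp1]; exact he3
    · rw [hp1]; exact he4
  choose P hP1 hP2 hP3 hP4 using hyp'
  choose W hW using fun g => mkM_surjective (u g)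
  set A : ℕ → ℕ → Prop := fun m j =>
    (∀ i ∈ Finset.range (m + 1), nn ((P m).1 j * (W (en i)).1 j - (W (en i)).1 j * (P m).1 j) ≤
      1 / ((m : ℝ) + 1)) ∧
    a - 1 / ((m : ℝ) + 1) ≤ (ntr ((P m).1 j)).re ∧ (ntr ((P m).1 j)).re ≤ b + 1 / ((m : ℝ) + 1)
    with hAdef
  have hmpos : ∀ m : ℕ, (0 : ℝ) < 1 / ((m : ℝ) + 1) := fun m => by positivity
  have hAev : ∀ m, ∀ᶠ j in (U : Filter ℕ), A m j := by
    intro m
    have hre : Tendsto (fun n => (ntr ((P m).1 n)).re) U (𝓝 (tr (mkM U (P m))).re) :=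
      (Complex.continuous_re.tendsto _).comp (tendsto_tr (P m))
    refine (Filter.eventually_and.2 ⟨?_, Filter.eventually_and.2 ⟨?_, ?_⟩⟩)
    · rw [Filter.eventually_all_finset]
      intro i hi
      have h0 : nrm (mkM U (P m * W (en i) - W (en i) * P m)) = 0 := by
        rw [map_sub, map_mul, map_mul, hW, hP2 m i hi, sub_self, nrm_zero]
      have h1 := tendsto_nn (U := U) (P m * W (en i) - W (en i) * P m)
      rw [h0] at h1
      filter_upwards [h1.eventually (gt_mem_nhds (hmpos m))] with j hj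
      exact hj.le
    · have h1 : a - 1 / ((m : ℝ) + 1) < (tr (mkM U (P m))).re := by
        have := hmpos m
        have := hP3 m
        linarith
      filter_upwards [hre.eventually (lt_mem_nhds h1)] with j hj
      exact hj.le
    · have h1 : (tr (mkM U (P m))).re < b + 1 / ((m : ℝ) + 1) := by
        have := hmpos m
        have := hP4 m
        linarith
      filter_upwards [hre.eventually (gt_mem_nhds h1)] with j hj
      exact hj.le
  obtain ⟨m, hm, hA⟩ := pDiag U hU A hAev
  have hlim : Tendsto (fun j => 1 / ((m j : ℝ) + 1)) U (𝓝 0) :=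
    (tendsto_one_div_add_atTop_nhds_zero_nat (𝕜 := ℝ)).comp hm
  set y : BSeq ι := (⟨fun j => (P (m j)).1 j, ⟨1, fun j => (hP1 (m j) j).norm_le⟩⟩ : Bdd ι) with hy
  have hyv : ∀ j, y.1 j = (P (m j)).1 j := fun j => rfl
  have hre : Tendsto (fun n => (ntr (y.1 n)).re) U (𝓝 (tr (mkM U y)).re) :=
    (Complex.continuous_re.tendsto _).comp (tendsto_tr y)
  refine ⟨mkM U y, ⟨?_, ?_⟩, ?_, ?_, ?_⟩
  · rw [star_mk]
    congr 1
    refine Subtype.ext (funext fun n => ?_)
    rw [star_val, hyv]
    exact (hP1 (m n) n).1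
  · rw [← map_mul]
    congr 1
    refine Subtype.ext (funext fun n => ?_)
    rw [mul_val, hyv]
    exact (hP1 (m n) n).2
  · intro g
    rw [← hW g, ← map_mul, ← map_mul, mk_eq_mk]
    obtain ⟨i, rfl⟩ := hen g
    refine squeeze_zero' (Filter.Eventually.of_forall fun n => nn_nonneg _) ?_ hlim
    filter_upwards [hA, hm.eventually_ge_atTop i] with j j1 j2
    rw [mul_val, mul_val, hyv]
    exact j1.1 i (Finset.mem_range.2 (by omega))
  · have h1 : Tendsto (fun j => a - 1 / ((m j : ℝ) + 1)) U (𝓝 (a - 0)) :=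
      tendsto_const_nhds.sub hlim
    rw [sub_zero] at h1
    refine le_of_tendsto_of_tendsto h1 hre ?_
    filter_upwards [hA] with j j1
    exact j1.2.1
  · have h1 : Tendsto (fun j => b + 1 / ((m j : ℝ) + 1)) U (𝓝 (b + 0)) :=
      tendsto_const_nhds.add hlim
    rw [add_zero] at h1
    refine le_of_tendsto_of_tendsto hre h1 ?_
    filter_upwards [hA] with j j1
    exact j1.2.2

end Helper53.NG
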