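import Pool.Agent.Helper53.NG.StB

/-!
# Project NG, module WPR
-/

namespace Helper53.NG

open Helper51.MU Helper61.IE Filter Topology
open scoped Matrix.Norms.L2Operator MatrixOrder ComplexOrder

attribute [local irreducible] Helper51.MU.instRingMUlt

namespace WPR

section gen

variable {ι : ℕ → Type} [∀ n, Fintype (ι n)] [∀ n, DecidableEq (ι n)] {U : Ultrafilter ℕ}

lemma star_mul_eq_zero {y : MUlt ι U} (h : star y * y = 0) : y = 0 := by
  apply nrm_eq_zero.1
  unfold Helper61.IE.nrm
  rw [h, tr_zero, Complex.zero_re]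

lemma mul_star_eq_zero {y : MUlt ι U} (h : y * star y = 0) : y = 0 := by
  have h1 : star y = 0 := star_mul_eq_zero (by rw [star_star]; exact h)
  have h2 := congrArg star h1
  rwa [star_star, star_zero] at h2

/-- the adjoint of an intertwining relation, `v k⁻¹ = (v k)*` on both sides -/
lemma adj {a a' b b' y : MUlt ι U} (h : a' * y = y * b') (ha : star a' = a) (hb : star b' = b) :
    star y * a = b * star y := by
  have h1 := congrArg star h
  rw [star_mul, star_mul, ha, hb] at h1
  exact h1

end gen

end WPR

open WPR in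
theorem pWPR : StWPR := by
  intro hCBK K I _ _ _ p x N l U hU hT hI u hu hPr a b c V hV hirr α w hw hwu
  have hw' : w * star w = 1 := mul_star_of_unit hw
  -- comparabilities
  obtain ⟨C, hC⟩ := hV.cmp
  have hcmpL : Cmp (fun n => Fin (l n)) (fun n => Fin (l n) ⊕ (Fin (b n) × Fin (a n))) U := by
    refine ⟨1 + C, ?_⟩
    filter_upwards [hC] with n hn
    simp only [Fintype.card_sum, Fintype.card_prod, Fintype.card_fin]
    push_cast
    nlinarith [hn.2]
  have hcmpR : Cmp (fun n => Fin (b n) × Fin (a n))
      (fun n => Fin (l n) ⊕ (Fin (b n) × Fin (a n))) U := by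
    refine ⟨1 + C, ?_⟩
    filter_upwards [hC] with n hn
    simp only [Fintype.card_sum, Fintype.card_prod, Fintype.card_fin]
    push_cast
    nlinarith [hn.1]
  have hinjL : Function.Injective (inlM (fun n => Fin (b n) × Fin (a n)) :
      MUlt (fun n => Fin (l n)) U → _) := expd_injective _ hcmpL
  have hinjR : Function.Injective (inrM (fun n => Fin (l n)) :
      MUlt (fun n => Fin (b n) × Fin (a n)) U → _) := expd_injective _ hcmpR
  -- unitaries
  have hus : ∀ k, star (u k⁻¹) = u k := fun k => by rw [hom_inv u hu, star_star]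
  have hcs : ∀ k, star (c k⁻¹) = c k := fun k => by rw [hom_inv c hV.unit, star_star]
  -- adjoint relation for `V`
  have hVs : ∀ k, star V * inlM (fun n => Fin (b n) × Fin (a n)) (u k) =
      inrM (fun n => Fin (l n)) (amp b (c k)) * star V := by
    intro k
    refine adj (hV.itw k⁻¹) ?_ ?_
    · rw [← map_star, hus]
    · rw [← map_star, ← amp_star, hcs]
  have hVr : inrM (fun n => Fin (l n)) 1 * star V = star V := by
    have h1 := congrArg star hV.corr
    rw [star_mul, ← map_star, star_one] at h1
    exact h1
  have hVl : star V * inlM (fun n => Fin (b n) × Fin (a n)) 1 = star V := by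
    have h1 := congrArg star hV.corl
    rw [star_mul, ← map_star, star_one] at h1
    exact h1
  -- the projection-like element `P`
  obtain ⟨P, hP⟩ : ∃ P : MUlt (fun n => Fin (l n)) U,
      inlM (fun n => Fin (b n) × Fin (a n)) P = V * star V := by
    apply expd_range _ hcmpL
    calc inlM (fun n => Fin (b n) × Fin (a n)) 1 * (V * star V) *
          inlM (fun n => Fin (b n) × Fin (a n)) 1
        = (inlM (fun n => Fin (b n) × Fin (a n)) 1 * V) *
          (star V * inlM (fun n => Fin (b n) × Fin (a n)) 1) := by simp only [mul_assoc]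
      _ = V * star V := by rw [hV.corl, hVl]
  have hP0 : P ≠ 0 := by
    intro h
    rw [h, map_zero] at hP
    exact hV.ne (mul_star_eq_zero hP.symm)
  have hPD : P ∈ Cmt (fun k => u k) := by
    intro k
    apply hinjL
    rw [map_mul, map_mul, hP]
    calc V * star V * inlM (fun n => Fin (b n) × Fin (a n)) (u k)
        = V * (star V * inlM (fun n => Fin (b n) × Fin (a n)) (u k)) := mul_assoc _ _ _
      _ = V * inrM (fun n => Fin (l n)) (amp b (c k)) * star V := by rw [hVs, mul_assoc]
      _ = inlM (fun n => Fin (b n) × Fin (a n)) (u k) * V * star V := by rw [hV.itw]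
      _ = inlM (fun n => Fin (b n) × Fin (a n)) (u k) * (V * star V) := mul_assoc _ _ _
  -- adjoint relation for `w`
  have hws : ∀ k, u k * star w = star w * u (α k) := by
    intro k
    have h1 : u (α k⁻¹) * w = w * u k⁻¹ := (hwu k⁻¹).symm
    have h2 := adj (y := w) h1 (a := u (α k)) (b := u k) (by rw [map_inv, hus]) (hus k)
    exact h2.symm
  have hwP : w * P * star w ∈ Cmt (fun k => u k) := by
    intro k'
    obtain ⟨k, rfl⟩ := α.surjective k'
    show w * P * star w * u (α k) = u (α k) * (w * P * star w)
    calc w * P * star w * u (α k) = w * P * (star w * u (α k)) := mul_assoc _ _ _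
      _ = w * (P * u k) * star w := by rw [← hws]; simp only [mul_assoc]
      _ = w * (u k * P) * star w := by rw [hPD k]
      _ = (w * u k) * P * star w := by simp only [mul_assoc]
      _ = u (α k) * (w * P * star w) := by rw [hwu]; simp only [mul_assoc]
  have hwP0 : w * P * star w ≠ 0 := by
    intro h
    apply hP0
    calc P = (star w * w) * P * (star w * w) := by rw [hw, one_mul, mul_one]
      _ = star w * (w * P * star w) * w := by simp only [mul_assoc]
      _ = 0 := by rw [h, mul_zero, zero_mul]
  obtain ⟨d, hd, hne⟩ : ∃ d ∈ Cmt (fun k => u k), P * d * (w * P * star w) ≠ 0 := by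
    by_contra hcon
    push Not at hcon
    rcases hPr P hPD _ hwP hcon with h | h
    · exact hP0 h
    · exact hwP0 h
  -- the intertwiner `Z`
  obtain ⟨Z, hZ⟩ : ∃ Z : MUlt (fun n => Fin (b n) × Fin (a n)) U,
      inrM (fun n => Fin (l n)) Z =
        star V * inlM (fun n => Fin (b n) × Fin (a n)) (d * w) * V := by
    apply expd_range _ hcmpR
    calc inrM (fun n => Fin (l n)) 1 *
          (star V * inlM (fun n => Fin (b n) × Fin (a n)) (d * w) * V) *
          inrM (fun n => Fin (l n)) 1
        = (inrM (fun n => Fin (l n)) 1 * star V) *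
          inlM (fun n => Fin (b n) × Fin (a n)) (d * w) *
          (V * inrM (fun n => Fin (l n)) 1) := by simp only [mul_assoc]
      _ = star V * inlM (fun n => Fin (b n) × Fin (a n)) (d * w) * V := by rw [hVr, hV.corr]
  have hZ0 : Z ≠ 0 := by
    intro h
    rw [h, map_zero] at hZ
    apply hne
    apply hinjL
    rw [map_zero]
    calc inlM (fun n => Fin (b n) × Fin (a n)) (P * d * (w * P * star w))
        = inlM (fun n => Fin (b n) × Fin (a n)) P *
          inlM (fun n => Fin (b n) × Fin (a n)) (d * w) *
          inlM (fun n => Fin (b n) × Fin (a n)) P *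
          inlM (fun n => Fin (b n) × Fin (a n)) (star w) := by
          simp only [← map_mul, mul_assoc]
      _ = V * (star V * inlM (fun n => Fin (b n) × Fin (a n)) (d * w) * V) * star V *
          inlM (fun n => Fin (b n) × Fin (a n)) (star w) := by
          rw [hP]; simp only [mul_assoc]
      _ = 0 := by rw [← hZ, mul_zero, zero_mul, zero_mul]
  have hZi : ∀ k, amp b (c (α k)) * Z = Z * amp b (c k) := by
    intro k
    apply hinjR
    rw [map_mul, map_mul, hZ]
    have e1 : u (α k) * (d * w) = d * w * u k := by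
      rw [← mul_assoc, ← hd (α k), mul_assoc, ← hwu, mul_assoc]
    calc inrM (fun n => Fin (l n)) (amp b (c (α k))) *
          (star V * inlM (fun n => Fin (b n) × Fin (a n)) (d * w) * V)
        = (inrM (fun n => Fin (l n)) (amp b (c (α k))) * star V) *
          inlM (fun n => Fin (b n) × Fin (a n)) (d * w) * V := by simp only [mul_assoc]
      _ = star V * (inlM (fun n => Fin (b n) × Fin (a n)) (u (α k)) *
          inlM (fun n => Fin (b n) × Fin (a n)) (d * w)) * V := by
          rw [← hVs]; simp only [mul_assoc]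
      _ = star V * (inlM (fun n => Fin (b n) × Fin (a n)) (d * w) *
          inlM (fun n => Fin (b n) × Fin (a n)) (u k)) * V := by
          rw [← map_mul, e1, map_mul]
      _ = star V * inlM (fun n => Fin (b n) × Fin (a n)) (d * w) *
          (inlM (fun n => Fin (b n) × Fin (a n)) (u k) * V) := by simp only [mul_assoc]
      _ = star V * inlM (fun n => Fin (b n) × Fin (a n)) (d * w) * V *
          inrM (fun n => Fin (l n)) (amp b (c k)) := by rw [hV.itw]; simp only [mul_assoc]
  -- an intertwiner of the irreducible constituents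
  obtain ⟨y, hy, hy0⟩ : ∃ y : MUlt (fun n => Fin (a n)) U,
      (∀ k, c (α k) * y = y * c k) ∧ y ≠ 0 := by
    by_contra hcon
    push Not at hcon
    apply hZ0
    have h1 := hCBK K I p x N (fun n => Fin (a n)) U hU hT hI (c.comp α.toMonoidHom) c
      (fun k => hV.unit _) hV.unit 1 1 (fun y hy => by
        rw [one_mul, mul_one]
        exact hcon y hy) b Z hZi
    rwa [map_one, one_mul, mul_one] at h1
  have hys : ∀ k, star y * c (α k) = c k * star y := by
    intro k
    refine adj (hy k⁻¹) ?_ (hcs k)
    rw [map_inv, hcs]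
  have hyy : star y * y ∈ Cmt (fun k => c k) := by
    intro k
    show star y * y * c k = c k * (star y * y)
    rw [mul_assoc, ← hy, ← mul_assoc, hys, mul_assoc]
  obtain ⟨t, ht⟩ := hirr _ hyy
  have hnonempty : ∀ᶠ n in (U : Filter ℕ), Nonempty (Fin (a n)) := by
    filter_upwards [hV.posa] with n hn
    exact ⟨⟨0, hn⟩⟩
  have htr : t = ((Helper61.IE.nrm y : ℝ) : ℂ) := by
    rw [← tr_star_mul, ht, tr_smul, tr_one hnonempty, mul_one]
  have hpos : 0 < Helper61.IE.nrm y := by
    rcases (nrm_nonneg y).lt_or_eq with h | h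
    · exact h
    · exact absurd (nrm_eq_zero.1 h.symm) hy0
  refine ⟨(((Real.sqrt (Helper61.IE.nrm y))⁻¹ : ℝ) : ℂ) • y, ?_, ?_⟩
  · rw [star_smul', smul_mul_smul_comm, ht, htr, smul_smul, Complex.conj_ofReal]
    have e1 : (((Real.sqrt (Helper61.IE.nrm y))⁻¹ : ℝ) : ℂ) *
        (((Real.sqrt (Helper61.IE.nrm y))⁻¹ : ℝ) : ℂ) * ((Helper61.IE.nrm y : ℝ) : ℂ) = 1 := by
      rw [← Complex.ofReal_mul, ← Complex.ofReal_mul]
      have h2 := Real.mul_self_sqrt hpos.le
      have h3 : Real.sqrt (Helper61.IE.nrm y) ≠ 0 := (Real.sqrt_pos.2 hpos).ne'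
      have h4 : (Real.sqrt (Helper61.IE.nrm y))⁻¹ * (Real.sqrt (Helper61.IE.nrm y))⁻¹ *
          Helper61.IE.nrm y = 1 := by
        rw [← mul_inv, h2]
        exact inv_mul_cancel₀ hpos.ne'
      rw [h4, Complex.ofReal_one]
    rw [e1, one_smul]
  · intro k
    rw [smul_mul_assoc, mul_smul_comm, hy]

end Helper53.NG
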