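import Pool.Agent.Helper53.NG.Api
import Pool.Agent.Helper61.IE.St2

/-!
# Project NG: statements of the analytic modules, part A (factor theory in matrix ultraproducts)

Module `X` proves `theorem pX : StX`.

IMPORTANT: put the line `attribute [local irreducible] Helper51.MU.instRingMUlt` after the namespace
line of every file (otherwise instances of `Module ℂ (MUlt ι U)`, `star_one`, `neg_smul`, ... fail).
-/

namespace Helper53.NG

open Helper51.MU Helper61.IE Filter Topology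
open scoped Matrix.Norms.L2Operator MatrixOrder ComplexOrder

attribute [local irreducible] Helper51.MU.instRingMUlt

/-- NB1.  If `x* x` is a projection, then `x` has a lift of norm `≤ 1`.
Lift `x` to `x_n`, `‖x_n‖ ≤ C`, `X_n = x_n* x_n`, `y_n = x_n φ(X_n)` with `φ(λ) = min(1, λ^{-1/2})`:
`‖y_n‖ ≤ 1`, and `|φ(λ) - 1| ≤ |λ² - λ|` for `λ ≥ 0` gives `nn (φ(X_n) - 1) ≤ nn (X_n² - X_n) → 0`. -/
def StNB1 : Prop := ∀ (ι : ℕ → Type) [∀ n, Fintype (ι n)] [∀ n, DecidableEq (ι n)]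
  (U : Ultrafilter ℕ) (x : MUlt ι U), Pj (star x * x) → NB 1 x

/-- LP.  Projections lift to projections: spectral projection `(1/2, ∞)` of a hermitian lift,
`|1_{λ>1/2} - λ| ≤ 2 |λ² - λ|`. -/
def StLP : Prop := ∀ (ι : ℕ → Type) [∀ n, Fintype (ι n)] [∀ n, DecidableEq (ι n)]
  (U : Ultrafilter ℕ) (e : MUlt ι U), Pj e → ∃ p : BSeq ι, mkM U p = e ∧ ∀ n, Pr (p.1 n)

/-- RK.  A projection matrix is `J J*` for an isometry `J : ℂ^r → ℂ^n`. -/
def StRK : Prop := ∀ (n : Type) [Fintype n] [DecidableEq n] (p : Matrix n n ℂ), Pr p →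
  ∃ (r : ℕ) (J : Matrix n (Fin r) ℂ), J.conjTranspose * J = 1 ∧ J * J.conjTranspose = p ∧
    (r : ℝ) = rt p

/-- CUT.  The corner `e M e` is a matrix ultraproduct (`StLP`, `StRK`). -/
def StCut : Prop := StLP → StRK → ∀ (ι : ℕ → Type) [∀ n, Fintype (ι n)] [∀ n, DecidableEq (ι n)]
  (U : Ultrafilter ℕ) (e : MUlt ι U), Pj e →
  ∃ (r : ℕ → ℕ) (J : Iso (fun n => Fin (r n)) ι), expd J U 1 = e ∧
    Tendsto (fun n => (r n : ℝ) / Fintype.card (ι n)) U (𝓝 (tr e).re)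

/-- COM.  Completeness of the balls: diagonal sequence of the lifts.
(Lifts `x_{k,n}`, `‖x_{k,n}‖ ≤ C`; let `m(n)` be the largest `m ≤ n` with
`nn (x_{i,n} - x_{j,n}) ≤ 16 (1/4)^i` for all `i ≤ j ≤ m`; `y_n = x_{m(n),n}`.) -/
def StCom : Prop := ∀ (ι : ℕ → Type) [∀ n, Fintype (ι n)] [∀ n, DecidableEq (ι n)]
  (U : Ultrafilter ℕ), Nonprincipal U → ∀ (x : ℕ → MUlt ι U) (C : ℝ), (∀ k, NB C (x k)) →
  (∀ k, nrm (x (k + 1) - x k) ≤ (1 / 16) ^ k) →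
  ∃ y : MUlt ι U, NB C y ∧ Tendsto (fun k => nrm (x k - y)) atTop (𝓝 0)

/-- CFC.  2-norm closed *-subalgebras are closed under the continuous functional calculus of
selfadjoint elements (polynomial approximation on `[-C, C]`). -/
def StCfc : Prop := ∀ (ι : ℕ → Type) [∀ n, Fintype (ι n)] [∀ n, DecidableEq (ι n)]
  (U : Ultrafilter ℕ) (D : Set (MUlt ι U)), IsVN D → ∀ (α β : BSeq ι) (g : ℝ → ℝ), Continuous g →
  (∀ n, IsSelfAdjoint (α.1 n)) → mkM U α ∈ D →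
  (∀ n, β.1 n = cfc (R := ℝ) (p := IsSelfAdjoint) g (α.1 n)) → mkM U β ∈ D

/-- POS.  Positive and negative part. `b = sqrt (max a 0)`, `c = sqrt (max (-a) 0)`. -/
def StPos : Prop := StCfc → ∀ (ι : ℕ → Type) [∀ n, Fintype (ι n)] [∀ n, DecidableEq (ι n)]
  (U : Ultrafilter ℕ) (D : Set (MUlt ι U)), IsVN D → ∀ a ∈ D, star a = a →
  ∃ b ∈ D, ∃ c ∈ D, star b = b ∧ star c = c ∧ a = b * b - c * c ∧ (b * b) * (c * c) = 0

/-- POL.  Spectral projection and polar decomposition.  `X = a* a`, `s = τ(X) > 0`, `NB C a`, `t = s/4`.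
`g_k` continuous, `0` on `(-∞, t + t/(k+2)]`, `1` on `[t + t/(k+1), ∞)`, linear between:
`g_k g_{k+1} = g_k`; `F_k = g_k(X) ∈ D` increasing, `nrm (F_{k+j} - F_k) ≤ τ(F_{k+j}) - τ(F_k)`, so a
subsequence satisfies `StCom`; limit `f ∈ D`, `f F_k = F_k`, `f² = f = f*`;
`X ≤ 2t + C² F_0` gives `τ(f) ≥ τ(F_0) > 0`.  With `H = h₀(X)`, `h₀(λ) = 1/max(λ,t)`, `X H F_k = F_k`, so
`X H f = f`, `h = H f`; `g = G f`, `G = g₀(X)`, `g₀ = max(λ,t)^{-1/2}`: `(a g)* (a g) = f`. -/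
def StPol : Prop := StCfc → StCom → ∀ (ι : ℕ → Type) [∀ n, Fintype (ι n)]
  [∀ n, DecidableEq (ι n)] (U : Ultrafilter ℕ), Nonprincipal U → ∀ (D : Set (MUlt ι U)), IsVN D →
  ∀ a ∈ D, a ≠ 0 → ∃ g ∈ D, ∃ h ∈ D, Pj (star (a * g) * (a * g)) ∧ star (a * g) * (a * g) ≠ 0 ∧
    star (a * g) * (a * g) = h * (star a * a) ∧ star (a * g) * (a * g) = (star a * a) * h

/-- The conclusion of POL, used as hypothesis of the following modules. -/
def POL : Prop := ∀ (ι : ℕ → Type) [∀ n, Fintype (ι n)]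
  [∀ n, DecidableEq (ι n)] (U : Ultrafilter ℕ), Nonprincipal U → ∀ (D : Set (MUlt ι U)), IsVN D →
  ∀ a ∈ D, a ≠ 0 → ∃ g ∈ D, ∃ h ∈ D, Pj (star (a * g) * (a * g)) ∧ star (a * g) * (a * g) ≠ 0 ∧
    star (a * g) * (a * g) = h * (star a * a) ∧ star (a * g) * (a * g) = (star a * a) * h

/-- The conclusion of POS, used as hypothesis of the following modules. -/
def POS : Prop := ∀ (ι : ℕ → Type) [∀ n, Fintype (ι n)] [∀ n, DecidableEq (ι n)]
  (U : Ultrafilter ℕ) (D : Set (MUlt ι U)), IsVN D → ∀ a ∈ D, star a = a →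
  ∃ b ∈ D, ∃ c ∈ D, star b = b ∧ star c = c ∧ a = b * b - c * c ∧ (b * b) * (c * c) = 0

/-- IDL.  2-norm closed two-sided ideals.  (1) Zorn: a maximal projection `q ∈ I` (order `e ≤ f` iff
`f e = e`; a chain has an upper bound: increasing sequence with traces tending to the supremum,
`nrm (e_{k+1} - e_k) = τ(e_{k+1}) - τ(e_k)`, limit by `StCom` with `NB 1` from `StNB1`; an element `e` of
the chain is below some `e_k` or is the limit).  (2) `y q = y` for `y ∈ I`: let `a = y (1 - q) ∈ I`; if `a ≠ 0`,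
POL gives `f = h (a* a) = (a* a) h ∈ I`, a nonzero projection with `f q = 0`, and `q + f` is larger.
(3) `q y = y` for `y ∈ I`: `a = (1 - q) y`, `a a* ∈ I`, so `a a* = (a a*) q`, adjoint: `a a* = q a a* = 0`.
(4) `q` is central: for `d ∈ D`, `q d = (q d) q` and `d q = q (d q)`. -/
def StIdl : Prop := StNB1 → StCom → POL → ∀ (ι : ℕ → Type) [∀ n, Fintype (ι n)]
  [∀ n, DecidableEq (ι n)] (U : Ultrafilter ℕ), Nonprincipal U → ∀ (D I : Set (MUlt ι U)),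
  IsVN D → I ⊆ D → 0 ∈ I → (∀ x ∈ I, ∀ y ∈ I, x + y ∈ I) →
  (∀ x ∈ I, ∀ d ∈ D, d * x ∈ I ∧ x * d ∈ I) →
  (∀ x ∈ D, (∀ ε > 0, ∃ y ∈ I, nrm (x - y) < ε) → x ∈ I) →
  ∃ q ∈ I, Pj q ∧ q ∈ Zc D ∧ ∀ y ∈ I, y * q = y

/-- The conclusion of IDL. -/
def IDL : Prop := ∀ (ι : ℕ → Type) [∀ n, Fintype (ι n)]
  [∀ n, DecidableEq (ι n)] (U : Ultrafilter ℕ), Nonprincipal U → ∀ (D I : Set (MUlt ι U)),
  IsVN D → I ⊆ D → 0 ∈ I → (∀ x ∈ I, ∀ y ∈ I, x + y ∈ I) →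
  (∀ x ∈ I, ∀ d ∈ D, d * x ∈ I ∧ x * d ∈ I) →
  (∀ x ∈ D, (∀ ε > 0, ∃ y ∈ I, nrm (x - y) < ε) → x ∈ I) →
  ∃ q ∈ I, Pj q ∧ q ∈ Zc D ∧ ∀ y ∈ I, y * q = y

/-- PR1.  Trivial centre implies prime: `I = {y ∈ D : x d y = 0 for all d ∈ D}`. -/
def StPR1 : Prop := IDL → ∀ (ι : ℕ → Type) [∀ n, Fintype (ι n)] [∀ n, DecidableEq (ι n)]
  (U : Ultrafilter ℕ), Nonprincipal U → ∀ (D : Set (MUlt ι U)), IsVN D →
  (∀ z ∈ Zc D, ∃ c : ℂ, z = c • (1 : MUlt ι U)) → Prime D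

/-- PR2.  Prime implies trivial centre.  `z ∈ Zc D`, selfadjoint, `t = τ(z)` (real), `a = z - t`,
POS in `Zc D`: `a = b² - c²`, `b² c² = 0`, `τ(b²) = τ(c²)`; `b² d c² = d b² c² = 0`, so `b² = 0` or `c² = 0`, so
both (trace), `a = 0`.  General `z`: real and imaginary parts. -/
def StPR2 : Prop := POS → ∀ (ι : ℕ → Type) [∀ n, Fintype (ι n)] [∀ n, DecidableEq (ι n)]
  (U : Ultrafilter ℕ), (∀ᶠ n in (U : Filter ℕ), Nonempty (ι n)) → ∀ (D : Set (MUlt ι U)),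
  IsVN D → Prime D → ∀ z ∈ Zc D, ∃ c : ℂ, z = c • (1 : MUlt ι U)

/-- SML.  Small projections.  If no nonzero projection `e ≤ q` of `D` satisfies `e D e = ℂ e`, there are
nonzero projections below `q` of arbitrarily small trace.  Halving: for `e`, a nonscalar `y ∈ e D e`, which
may be taken selfadjoint; `t = τ(y)/τ(e)`, `a = y - t e = b² - c²` (POS), `b² c² = 0`, `τ(b²) = τ(c²) > 0`,
`e b² = b²` (from `b² b² = b² a`, `a e = a`); POL for `b`: projection `f = (b* b) h = h (b* b) ≠ 0`, `e f = f`,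
`f c² = 0 ≠ e c²`, so `f ≠ e`; take the one of `f`, `e - f` with trace `≤ τ(e)/2`. -/
def StSML : Prop := POS → POL → ∀ (ι : ℕ → Type) [∀ n, Fintype (ι n)] [∀ n, DecidableEq (ι n)]
  (U : Ultrafilter ℕ), Nonprincipal U → ∀ (D : Set (MUlt ι U)), IsVN D → ∀ q ∈ D, Pj q → q ≠ 0 →
  (∀ e ∈ D, Pj e → e ≠ 0 → q * e = e → ∃ y ∈ D, e * y * e = y ∧ ∀ c : ℂ, y ≠ c • e) →
  ∀ δ : ℝ, 0 < δ → ∃ e ∈ D, Pj e ∧ e ≠ 0 ∧ q * e = e ∧ (tr e).re ≤ δ

/-- CMP.  Comparison in a prime algebra.  Zorn for the set of `W ∈ D` with `W* W` a projection,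
`q (W* W) = W* W`, `p W = W`, order `W ≤ W'` iff `W' (W* W) = W` (then `nrm (W' - W) = τ(W'* W') - τ(W* W)`).
For a maximal `W` let `q' = q - W* W`, `p' = p - W W*` (projections).  If `q' ≠ 0` then `τ(p') ≥ τ(q') > 0`; prime:
`y = p' d q' ≠ 0`; POL for `y`: `w = y g`, `f = w* w = (y* y) h ≠ 0`, `q' f = f`, `p' w = w`, `w f = w`;
`W + w` is larger (`W* w = W* p' w = 0`, `w (W* W) = w f q' (W* W) = 0`).  So `W* W = q`. -/
def StCMP : Prop := StNB1 → StCom → POL → ∀ (ι : ℕ → Type) [∀ n, Fintype (ι n)]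
  [∀ n, DecidableEq (ι n)] (U : Ultrafilter ℕ), Nonprincipal U → ∀ (D : Set (MUlt ι U)),
  IsVN D → Prime D → ∀ p ∈ D, ∀ q ∈ D, Pj p → Pj q → (tr q).re ≤ (tr p).re →
  ∃ W ∈ D, star W * W = q ∧ p * W = W

/-- SAT.  Saturation for projections almost commuting with a countable group (`Helper61.IE.StDiag`,
proved in `Helper61.IE.PDiag`, and `StLP`). -/
def StSAT : Prop := StLP → ∀ (G : Type) [Group G] [Countable G] (ι : ℕ → Type)
  [∀ n, Fintype (ι n)] [∀ n, DecidableEq (ι n)] (U : Ultrafilter ℕ), Nonprincipal U →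
  ∀ (u : G → MUlt ι U) (a b : ℝ), (∀ F : Finset G, ∃ e : MUlt ι U, Pj e ∧
    (∀ g ∈ F, e * u g = u g * e) ∧ a ≤ (tr e).re ∧ (tr e).re ≤ b) →
  ∃ e : MUlt ι U, Pj e ∧ (∀ g, e * u g = u g * e) ∧ a ≤ (tr e).re ∧ (tr e).re ≤ b

/-- TNS.  Elements of `∏ M_b ⊗ M_κ` commuting with all `w ⊗ 1` are of the form `1 ⊗ z`: `z = ptr Z`
(the normalized partial trace), and for the finite group of signed cyclic permutation matrices `w` of
size `b` the average of `hs ((w ⊗ 1) Z - Z (w ⊗ 1))` is `2 hs (Z - 1 ⊗ ptr Z)`; choose `w_n` above average. -/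
def StTNS : Prop := ∀ (κ : ℕ → Type) [∀ n, Fintype (κ n)] [∀ n, DecidableEq (κ n)] (b : ℕ → ℕ)
  (U : Ultrafilter ℕ) (Z : MUlt (fun n => Fin (b n) × κ n) U),
  (∀ w : ∀ n, Matrix.unitaryGroup (Fin (b n)) ℂ,
    Z * mkM U (useq (fun n => uinl (κ n) (w n))) = mkM U (useq (fun n => uinl (κ n) (w n))) * Z) →
  ∃ z : MUlt κ U, Z = amp b z

/-- The conclusion of T4 for conjugation type representations is used through this statement. -/
def T4 : Prop := ∀ (K E ι : Type) [Group K] [AddCommGroup E] [Module ℂ E]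
  [Fintype ι] [DecidableEq ι] (p : ℕ) (x : ι → K) (N : ι → Finset ι) (B : E → E → ℂ)
  (ρ : K → E →ₗ[ℂ] E), TData K p x N → Nonempty ι → WRep B ρ →
  0 < cT p (Fintype.card ι) ∧ cT p (Fintype.card ι) ≤ 1 ∧
    TConcl p x B ρ (cT p (Fintype.card ι))

/-- The representation `y ↦ α(k) y β(k)*` on the ultraproduct. -/
noncomputable def cnj {K : Type} {ι : ℕ → Type} [∀ n, Fintype (ι n)] [∀ n, DecidableEq (ι n)]
    {U : Ultrafilter ℕ} (α β : K → MUlt ι U) (k : K) : MUlt ι U →ₗ[ℂ] MUlt ι U where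
  toFun y := α k * y * star (β k)
  map_add' x y := by rw [mul_add, add_mul]
  map_smul' c x := by rw [mul_smul_comm, smul_mul_assoc, RingHom.id_apply]

/-- CNJ.  `cnj α β` is a `WRep` for the form `tr (x* y)`, `T`-powers converge to intertwiners:
for every `y` with `NB C y` there is `y∞`, `NB C y∞`, `α(k) y∞ = y∞ β(k)` for all `k`, with
`nrm (T^k y - y∞) ≤ (4/c) (1-c)^{2k} nrm y`, `c = cT p |ι|`.
(`T^{k+j} y - T^k y`: `dist` applied to `T^k y` and `energy`, `Qf ≤ nrm`; completeness `StCom`; fixed by all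
`x i` by `gen`, so by `K`.  `NB C (T^k y)` from `NB 1 (α k)`, `NB 1 (β k)`, `StNB1`.) -/
def StCNJ : Prop := T4 → StNB1 → StCom → ∀ (K I : Type) [Group K] [Fintype I] [DecidableEq I]
  (p : ℕ) (x : I → K) (N : I → Finset I) (ι : ℕ → Type) [∀ n, Fintype (ι n)]
  [∀ n, DecidableEq (ι n)] (U : Ultrafilter ℕ), Nonprincipal U → TData K p x N → Nonempty I →
  ∀ (α β : K →* MUlt ι U), (∀ k, star (α k) * α k = 1) → (∀ k, star (β k) * β k = 1) →
  0 < cT p (Fintype.card I) ∧ cT p (Fintype.card I) ≤ 1 ∧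
  WRep (fun x y : MUlt ι U => tr (star x * y)) (cnj (fun k => α k) (fun k => β k)) ∧
  TConcl p x (fun x y : MUlt ι U => tr (star x * y)) (cnj (fun k => α k) (fun k => β k))
    (cT p (Fintype.card I)) ∧
  ∀ (y : MUlt ι U) (C : ℝ), NB C y → ∃ y' : MUlt ι U, NB C y' ∧ (∀ k, α k * y' = y' * β k) ∧
    ∀ k : ℕ, nrm ((TAv p x (cnj (fun k => α k) (fun k => β k)) ^ k) y - y') ≤
      4 / cT p (Fintype.card I) * (1 - cT p (Fintype.card I)) ^ (2 * k) * nrm y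

/-- The conclusion of CNJ. -/
def CNJ : Prop := ∀ (K I : Type) [Group K] [Fintype I] [DecidableEq I]
  (p : ℕ) (x : I → K) (N : I → Finset I) (ι : ℕ → Type) [∀ n, Fintype (ι n)]
  [∀ n, DecidableEq (ι n)] (U : Ultrafilter ℕ), Nonprincipal U → TData K p x N → Nonempty I →
  ∀ (α β : K →* MUlt ι U), (∀ k, star (α k) * α k = 1) → (∀ k, star (β k) * β k = 1) →
  0 < cT p (Fintype.card I) ∧ cT p (Fintype.card I) ≤ 1 ∧
  WRep (fun x y : MUlt ι U => tr (star x * y)) (cnj (fun k => α k) (fun k => β k)) ∧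
  TConcl p x (fun x y : MUlt ι U => tr (star x * y)) (cnj (fun k => α k) (fun k => β k))
    (cT p (Fintype.card I)) ∧
  ∀ (y : MUlt ι U) (C : ℝ), NB C y → ∃ y' : MUlt ι U, NB C y' ∧ (∀ k, α k * y' = y' * β k) ∧
    ∀ k : ℕ, nrm ((TAv p x (cnj (fun k => α k) (fun k => β k)) ^ k) y - y') ≤
      4 / cT p (Fintype.card I) * (1 - cT p (Fintype.card I)) ^ (2 * k) * nrm y

/-- CBK.  Lifts `a_{i,j,n}`, `b_{i,j,n}` (norm `≤ 1`) of `α(x_i^j)`, `β(x_i^j)`, lifts `y₁, y₂` of norm `≤ C`;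
`T_n(y) = (1/mp) ∑ a y b*` on `M_{κ n}`, `Φ_{k,n}(y) = y₁ T_n^k(y) y₂`: `nn (Φ y) ≤ C⁴ nn y`;
`s_{k,n} = sup {nn (Φ_{k,n} y) : ‖y‖ ≤ 1}`; near maximizers `y_n` define `y` with `NB 1 y`,
`Φ_k(y) = y₁ T^k(y) y₂ = y₁ (T^k y - y∞) y₂` (CNJ and the hypothesis), so `lim_U s_{k,n} ≤ C⁴ (4/c)(1-c)^{2k} =: δ_k²/2`.
`StCB` with `Φ_{k,n}`, `δ_k` for the lift of `X` (norm `≤ C'`, scale): the class of `(Φ_{k,n} ⊗ id)(X_n)` is
`(1⊗y₁) X (1⊗y₂)` because `X` is an intertwiner; so its `nrm` is `≤ 4 C² C'² δ_k → 0`. -/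
def StCBK : Prop := CNJ → StCB → StNB1 → ∀ (K I : Type) [Group K] [Fintype I] [DecidableEq I]
  (p : ℕ) (x : I → K) (N : I → Finset I) (κ : ℕ → Type) [∀ n, Fintype (κ n)]
  [∀ n, DecidableEq (κ n)] (U : Ultrafilter ℕ), Nonprincipal U → TData K p x N → Nonempty I →
  ∀ (α β : K →* MUlt κ U), (∀ k, star (α k) * α k = 1) → (∀ k, star (β k) * β k = 1) →
  ∀ (y₁ y₂ : MUlt κ U), (∀ y, (∀ k, α k * y = y * β k) → y₁ * y * y₂ = 0) →
  ∀ (b : ℕ → ℕ) (X : MUlt (fun n => Fin (b n) × κ n) U),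
    (∀ k, amp b (α k) * X = X * amp b (β k)) → amp b y₁ * X * amp b y₂ = 0

/-- The conclusion of CBK. -/
def CBK : Prop := ∀ (K I : Type) [Group K] [Fintype I] [DecidableEq I]
  (p : ℕ) (x : I → K) (N : I → Finset I) (κ : ℕ → Type) [∀ n, Fintype (κ n)]
  [∀ n, DecidableEq (κ n)] (U : Ultrafilter ℕ), Nonprincipal U → TData K p x N → Nonempty I →
  ∀ (α β : K →* MUlt κ U), (∀ k, star (α k) * α k = 1) → (∀ k, star (β k) * β k = 1) →
  ∀ (y₁ y₂ : MUlt κ U), (∀ y, (∀ k, α k * y = y * β k) → y₁ * y * y₂ = 0) →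
  ∀ (b : ℕ → ℕ) (X : MUlt (fun n => Fin (b n) × κ n) U),
    (∀ k, amp b (α k) * X = X * amp b (β k)) → amp b y₁ * X * amp b y₂ = 0

end Helper53.NG
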