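import Pool.Agent.Helper53.NG.StA

/-!
# Project NG: statements of the analytic modules, part B (the core)

Put `attribute [local irreducible] Helper51.MU.instRingMUlt` after the namespace line of every file.
Unitary homomorphism: `∀ k, star (u k) * u k = 1`.
-/

namespace Helper53.NG

open Helper51.MU Helper61.IE Filter Topology
open scoped Matrix.Norms.L2Operator MatrixOrder ComplexOrder

attribute [local irreducible] Helper51.MU.instRingMUlt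

/-- Unitary lifts of a homomorphism (they exist by `Helper61.IE.pLift`). -/
structure Lft {K : Type} [Group K] {l : ℕ → ℕ} {U : Ultrafilter ℕ}
    (u : K →* MUlt (fun n => Fin (l n)) U) (π : ∀ n, K → Matrix (Fin (l n)) (Fin (l n)) ℂ)
    (y : K → BSeq (fun n => Fin (l n))) : Prop where
  unit : ∀ n g, (π n g).conjTranspose * π n g = 1
  val : ∀ n g, (y g).1 n = π n g
  cls : ∀ g, mkM U (y g) = u g

/-- The set of multiplicities: `ptr` is the normalized partial trace over the first factor, so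
`b² ptr X ≤ 1` says that the unnormalized partial trace of `X` is at most `1/b`. -/
def Xi {n : Type} [Fintype n] [DecidableEq n] {I : Type} [Fintype I] (x : I → Matrix n n ℂ)
    (ε : ℝ) (b : ℕ) : Prop :=
  0 < b ∧ ∃ X : Matrix (Fin b × n) (Fin b × n) ℂ, 0 ≤ X ∧ X ≤ 1 ∧ ((b : ℝ) ^ 2) • ptr X ≤ 1 ∧
    (1 - ε) * Fintype.card n ≤ b * hs X ∧
    b * ∑ i, hs (inr (Fin b) (x i) * X - X * inr (Fin b) (x i)) ≤ ε * Fintype.card n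

/-- XIB.  `1 ∈ Xi` (with `X = 1`), and `b ≤ 2 card n` for `b ∈ Xi`, `ε ≤ 1/2`:
`rt X = b rt (ptr X) ≤ card n / b`, `hs X ≤ ‖X‖ rt X ≤ (rt X)²`, so `(1 - ε) card n / b ≤ (card n / b)²`. -/
def StXIB : Prop := ∀ (n : Type) [Fintype n] [DecidableEq n] (I : Type) [Fintype I]
  (x : I → Matrix n n ℂ) (ε : ℝ), 0 ≤ ε → ε ≤ 1 / 2 → 0 < Fintype.card n →
  Xi x ε 1 ∧ ∀ b, Xi x ε b → b ≤ 2 * Fintype.card n

/-- IMA.  Improvement.  `E` = the space of all sequences `ξ` of matrices over `Fin (b n) × Fin (l n)` with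
`b² ptr (ξ ξ*) ≤ C`, `b² ptr (ξ* ξ) ≤ C` for some `C` (all `n`); form `B(ξ, η) = lim_U (b/l) Tr(ξ* η)`
(bounded); `ρ(k) ξ = (1 ⊗ π(k)) ξ (1 ⊗ π(k))*`.  If `a_n ∈ M_{l n}`, `nn a_n → 0` (bounded) and `ξ ∈ E` then
`(b/l) hs((1⊗a) ξ) = (b²/l) Tr (a* a ptr(ξ ξ*)) ≤ C nn a → 0`, and the same for `ξ (1⊗a)`; so `ρ` is a `WRep`.
`T4`: for `X ∈ E` (the `X_n` of `Xi`, `0` for the other `n`; `X X* ≤ X`): with `c = cT p |I|`,
`B`-distance squared of `T^k X` and `X` is `≤ (1/c) Qf X ≤ (p²/c) ε ≤ 1/400`, `Qf(T^k X) ≤ (1-c)^{2k} Qf X`,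
`gen` gives the commutators.  `T_n^k X_n` satisfies `0 ≤ · ≤ 1`, `b² ptr ≤ 1` (`ptr` commutes with
conjugation by `1 ⊗ π`), and `b hs (T_n^k X_n) ≥ (sqrt(1-ε) - 1/20 - small)² l ≥ (4/5) l`.
Diagonal sequence `k_n → ∞` (`Helper61.IE.pDiag`). -/
def StIMA : Prop := T4 → ∀ (K I : Type) [Group K] [Fintype I] [DecidableEq I] (p : ℕ)
  (x : I → K) (N : I → Finset I) (l : ℕ → ℕ) (U : Ultrafilter ℕ), Nonprincipal U →
  TData K p x N → Nonempty I → ∀ (u : K →* MUlt (fun n => Fin (l n)) U) π y, Lft u π y →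
  ∀ (b : ℕ → ℕ) (ε : ℝ), 0 < ε → ε ≤ cT p (Fintype.card I) / (400 * (p : ℝ) ^ 2) →
  (∀ᶠ n in (U : Filter ℕ), 0 < l n ∧ Xi (fun i => π n (x i)) ε (b n)) →
  ∃ Y : ∀ n, Matrix (Fin (b n) × Fin (l n)) (Fin (b n) × Fin (l n)) ℂ,
    (∀ᶠ n in (U : Filter ℕ), 0 ≤ Y n ∧ Y n ≤ 1 ∧ ((b n : ℝ) ^ 2) • ptr (Y n) ≤ 1 ∧
      4 / 5 * (l n : ℝ) ≤ b n * hs (Y n)) ∧
    ∀ i, Tendsto (fun n => (b n : ℝ) * hs (inr (Fin (b n)) (π n (x i)) * Y n -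
      Y n * inr (Fin (b n)) (π n (x i))) / l n) U (𝓝 0)

/-- RND.  Rounding (compare `Helper61.IE.pRound2` and the library `Helper61.IE.Rnd0`): the spectral
projection `p` of `a` above a good level in `[1/4, 1/2]`. -/
def StRND : Prop := ∀ (n : Type) [Fintype n] [DecidableEq n] (I : Type) (F : Finset I)
  (u : I → Matrix n n ℂ) (a : Matrix n n ℂ), (∀ s, (u s).conjTranspose * u s = 1) → 0 ≤ a → a ≤ 1 →
  ∃ p : Matrix n n ℂ, Pr p ∧ p ≤ (4 : ℝ) • a ∧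
    En F u p ≤ 4 * Real.sqrt (8 * F.card * En F u a * rt a) ∧ hs a - 1 / 2 * rt a ≤ rt p

/-- IMB.  `RND` applied to `Y n` and the unitaries `1 ⊗ π n (x i)`. `rt Y = b rt (ptr Y) ≤ l / b`. -/
def StIMB : Prop := StRND → ∀ (I : Type) [Fintype I] (l b : ℕ → ℕ) (U : Ultrafilter ℕ)
  (w : ∀ n, I → Matrix (Fin (l n)) (Fin (l n)) ℂ), (∀ n i, (w n i).conjTranspose * w n i = 1) →
  (∀ᶠ n in (U : Filter ℕ), 0 < l n ∧ 0 < b n) →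
  ∀ Y : ∀ n, Matrix (Fin (b n) × Fin (l n)) (Fin (b n) × Fin (l n)) ℂ,
    (∀ᶠ n in (U : Filter ℕ), 0 ≤ Y n ∧ Y n ≤ 1 ∧ ((b n : ℝ) ^ 2) • ptr (Y n) ≤ 1 ∧
      4 / 5 * (l n : ℝ) ≤ b n * hs (Y n)) →
    (∀ i, Tendsto (fun n => (b n : ℝ) * hs (inr (Fin (b n)) (w n i) * Y n -
      Y n * inr (Fin (b n)) (w n i)) / l n) U (𝓝 0)) →
  ∃ f : ∀ n, Matrix (Fin (b n) × Fin (l n)) (Fin (b n) × Fin (l n)) ℂ, (∀ n, Pr (f n)) ∧
    (∀ᶠ n in (U : Filter ℕ), ((b n : ℝ) ^ 2) • ptr (f n) ≤ (4 : ℝ) • (1 : Matrix _ _ ℂ) ∧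
      3 / 10 * (l n : ℝ) ≤ b n * rt (f n)) ∧
    ∀ i, Tendsto (fun n => (b n : ℝ) * hs (inr (Fin (b n)) (w n i) * f n -
      f n * inr (Fin (b n)) (w n i)) / l n) U (𝓝 0)

/-- A unitary homomorphism `c : K → ∏ M_a` and a nonzero exact intertwiner `V` from `1_b ⊗ c` to `u`,
in the linking algebra `∏ M_{l + b a}`; the sizes `l` and `b a` are comparable. -/
structure Itw {K : Type} [Group K] {l : ℕ → ℕ} {U : Ultrafilter ℕ}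
    (u : K →* MUlt (fun n => Fin (l n)) U) (a b : ℕ → ℕ) (c : K →* MUlt (fun n => Fin (a n)) U)
    (V : MUlt (fun n => Fin (l n) ⊕ (Fin (b n) × Fin (a n))) U) : Prop where
  unit : ∀ k, star (c k) * c k = 1
  posa : ∀ᶠ n in (U : Filter ℕ), 0 < a n
  posb : ∀ᶠ n in (U : Filter ℕ), 0 < b n
  cmp : ∃ C : ℝ, ∀ᶠ n in (U : Filter ℕ), (l n : ℝ) ≤ C * (b n * a n) ∧
    (b n : ℝ) * a n ≤ C * l n
  ne : V ≠ 0
  corl : inlM (fun n => Fin (b n) × Fin (a n)) 1 * V = V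
  corr : V * inrM (fun n => Fin (l n)) 1 = V
  itw : ∀ k, inlM (fun n => Fin (b n) × Fin (a n)) (u k) * V =
    V * inrM (fun n => Fin (l n)) (amp b (c k))

/-- IMC.  Compression to `f`.  `J_n : ℂ^r → ℂ^b ⊗ ℂ^l` isometry onto the range of `f_n` (`StRK`),
`c(k) = [J* (1 ⊗ π(k)) J]`, `V = [fromBlocks 0 V₀ 0 0]`, `V₀ i (β, ρ) = sqrt b * J (β, i) ρ`:
`V₀ V₀* = b² ptr f ≤ 4`, `hs V₀ = b r ≥ (3/10) l`, `b r ≤ 4 l`.
The `k ∈ K` with `(b/l) hs [1⊗π(k), f] → 0` form a subgroup (marginal bound `b² ptr f ≤ 4` for the defects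
`π(k k') - π(k) π(k')`: `(b/l) hs((1⊗a) f) = (b²/l) Tr(a* a ptr f) ≤ 4 nn a`), so this holds for all `k`.
`c` is a homomorphism: `J*(1⊗π(k))(f - 1)(1⊗π(k'))J` and `J*(1⊗(π(k)π(k') - π(kk')))J` are null relative to `r`.
`π(k)V₀ - V₀(1⊗c(k))` corresponds to `sqrt b (1-f)(1⊗π(k)) J`. -/
def StIMC : Prop := StRK → ∀ (K I : Type) [Group K] [Fintype I] (x : I → K) (l b : ℕ → ℕ)
  (U : Ultrafilter ℕ), Subgroup.closure (Set.range x) = ⊤ →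
  ∀ (u : K →* MUlt (fun n => Fin (l n)) U) π y, Lft u π y →
  (∀ᶠ n in (U : Filter ℕ), 0 < l n ∧ 0 < b n) →
  ∀ f : ∀ n, Matrix (Fin (b n) × Fin (l n)) (Fin (b n) × Fin (l n)) ℂ, (∀ n, Pr (f n)) →
    (∀ᶠ n in (U : Filter ℕ), ((b n : ℝ) ^ 2) • ptr (f n) ≤ (4 : ℝ) • (1 : Matrix _ _ ℂ) ∧
      3 / 10 * (l n : ℝ) ≤ b n * rt (f n)) →
    (∀ i, Tendsto (fun n => (b n : ℝ) * hs (inr (Fin (b n)) (π n (x i)) * f n -
      f n * inr (Fin (b n)) (π n (x i))) / l n) U (𝓝 0)) →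
  ∃ (r : ℕ → ℕ) (c : K →* MUlt (fun n => Fin (r n)) U)
    (V : MUlt (fun n => Fin (l n) ⊕ (Fin (b n) × Fin (r n))) U), Itw u r b c V ∧
    ∀ᶠ n in (U : Filter ℕ), (b n : ℝ) * r n ≤ 4 * l n

/-- SUP.  The support `z` of `V` in `C' = Cmt c`, `D = Cmt u` prime.
`I = {y ∈ C' : V * inrM (amp b (x y)) = 0 for all x ∈ C'}` is a 2-norm closed two-sided ideal of `C'`; by IDL
`I = {y ∈ C' : y q = y}`, `z = 1 - q`.  (a) If `y₁ C' y₂ = 0` (`y₁, y₂ ∈ C'`), then for `x, x' ∈ C'`, `d ∈ D`: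
`V* inlM(d) V = inrM(X)` (`expd_range`), `X` an intertwiner of `amp c`, so by CBK (with `y₁ x*`, `x' y₂`)
`amp(y₁ x*) X amp(x' y₂) = 0`; let `A₁ = V inrM(amp(x y₁*))`, `A₂ = V inrM(amp(x' y₂))`, `A_i A_i* = inlM(P_i)`,
`P_i ∈ D`, `P₁ d P₂ = 0` for all `d ∈ D`, so `P₁ = 0` or `P₂ = 0`, `A₁ = 0` or `A₂ = 0`.  Hence `y₁* ∈ I` or `y₂ ∈ I`.
(b) `z ≠ 0` as `1 ∉ I`.  (c) for `y₁ z = y₁`, `y₂ z = y₂` this gives `y₁ = 0` or `y₂ = 0`. -/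
def StSUP : Prop := IDL → CBK → ∀ (K I : Type) [Group K] [Fintype I] [DecidableEq I] (p : ℕ)
  (x : I → K) (N : I → Finset I) (l : ℕ → ℕ) (U : Ultrafilter ℕ), Nonprincipal U →
  TData K p x N → Nonempty I → ∀ (u : K →* MUlt (fun n => Fin (l n)) U),
  (∀ k, star (u k) * u k = 1) → Prime (Cmt fun k => u k) → ∀ r b c V, Itw u r b c V →
  ∃ z ∈ Zc (Cmt fun k => c k), Pj z ∧ z ≠ 0 ∧
    (∀ y₁ ∈ Cmt (fun k => c k), ∀ y₂ ∈ Cmt (fun k => c k), y₁ * z = y₁ → y₂ * z = y₂ →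
      (∀ d ∈ Cmt (fun k => c k), y₁ * d * y₂ = 0) → y₁ = 0 ∨ y₂ = 0) ∧
    ∀ e ∈ Cmt (fun k => c k), e * z = e → e ≠ 0 →
      ∃ y ∈ Cmt (fun k => c k), V * inrM (fun n => Fin (l n)) (amp b (y * e)) ≠ 0

/-- The conclusion of CUT. -/
def CUT : Prop := ∀ (ι : ℕ → Type) [∀ n, Fintype (ι n)] [∀ n, DecidableEq (ι n)]
  (U : Ultrafilter ℕ) (e : MUlt ι U), Pj e →
  ∃ (r : ℕ → ℕ) (J : Iso (fun n => Fin (r n)) ι), expd J U 1 = e ∧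
    Tendsto (fun n => (r n : ℝ) / Fintype.card (ι n)) U (𝓝 (tr e).re)

/-- RCT.  Restriction of a homomorphism to a projection of its commutant:
`u₁(k)` with `expd J (u₁ k) = e u(k)` (`expd_range`, `expd_injective`). -/
def StRCT : Prop := CUT → ∀ (K : Type) [Group K] (ι : ℕ → Type) [∀ n, Fintype (ι n)]
  [∀ n, DecidableEq (ι n)] (U : Ultrafilter ℕ) (u : K →* MUlt ι U),
  (∀ k, star (u k) * u k = 1) → ∀ e ∈ Cmt (fun k => u k), Pj e → e ≠ 0 →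
  ∃ (r : ℕ → ℕ) (J : Iso (fun n => Fin (r n)) ι) (u₁ : K →* MUlt (fun n => Fin (r n)) U),
    expd J U 1 = e ∧ (∀ k, expd J U (u₁ k) = e * u k) ∧ (∀ k, star (u₁ k) * u₁ k = 1) ∧
    Tendsto (fun n => (r n : ℝ) / Fintype.card (ι n)) U (𝓝 (tr e).re) ∧
    (∀ᶠ n in (U : Filter ℕ), 0 < r n) ∧ Cmp (fun n => Fin (r n)) ι U ∧
    (∀ y ∈ Cmt (fun k => u₁ k), expd J U y ∈ Cmt (fun k => u k)) ∧
    ∀ y ∈ Cmt (fun k => u k), e * y * e = y → ∃ y₁ ∈ Cmt (fun k => u₁ k), expd J U y₁ = y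

/-- RCV.  Restriction of an intertwiner: for the `J`, `c₁` of RCT (for `c`, `e`) and `y ∈ Cmt c` with
`V₀ = V inrM(amp(y e)) ≠ 0`.  `J₂ = 1 ⊕ (1 ⊗ J)` is a sequence of isometries
`ℂ^{l + b a} → ℂ^{l + b r}` with `expd J₂ (inlM x) = inlM x`, `expd J₂ (inrM (amp x)) = inrM (amp (expd J x))`;
`V₀ = expd J₂ V₁` (`expd_range`), injectivity of `expd J₂`. -/
def StRCV : Prop := ∀ (K : Type) [Group K] (l : ℕ → ℕ) (U : Ultrafilter ℕ)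
  (u : K →* MUlt (fun n => Fin (l n)) U), (∀ k, star (u k) * u k = 1) →
  (∀ᶠ n in (U : Filter ℕ), 0 < l n) → ∀ r b c V, Itw u r b c V →
  ∀ e ∈ Cmt (fun k => c k), Pj e → ∀ y ∈ Cmt (fun k => c k),
  V * inrM (fun n => Fin (l n)) (amp b (y * e)) ≠ 0 →
  ∀ (a : ℕ → ℕ) (J : Iso (fun n => Fin (a n)) (fun n => Fin (r n)))
    (c₁ : K →* MUlt (fun n => Fin (a n)) U), expd J U 1 = e →
    (∀ k, expd J U (c₁ k) = e * c k) → (∀ k, star (c₁ k) * c₁ k = 1) →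
    (∀ᶠ n in (U : Filter ℕ), 0 < a n) → Cmp (fun n => Fin (a n)) (fun n => Fin (r n)) U →
  ∃ V₁, Itw u a b c₁ V₁

/-- PAD.  Enlarging the multiplicity: `J₃ = 1 ⊕ (incl ⊗ 1) : ℂ^{l + b a} → ℂ^{l + N a}`, `V' = expd J₃ V`;
`expd J₃ (inrM (amp b y)) = inrM (amp N y) * P = P * inrM (amp N y)`, `P = expd J₃ (inrM 1)`. -/
def StPAD : Prop := ∀ (K : Type) [Group K] (l : ℕ → ℕ) (U : Ultrafilter ℕ)
  (u : K →* MUlt (fun n => Fin (l n)) U), (∀ᶠ n in (U : Filter ℕ), 0 < l n) →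
  ∀ a b c V, Itw u a b c V → ∀ N : ℕ → ℕ, (∀ᶠ n in (U : Filter ℕ), b n ≤ N n) →
  (∀ᶠ n in (U : Filter ℕ), N n * a n ≤ l n) → ∃ V', Itw u a N c V'

/-- DDP.  `DD = Cmt (u ⊕ 1_N ⊗ c)` is prime.  By PR1 it suffices that the centre is trivial:
`Z ∈ Zc DD` commutes with `inlM 1`, `inrM 1 ∈ DD`, so `Z = inlM Z₁ + inrM Z₂` (`expd_range`);
`inlM d ∈ DD` for `d ∈ Cmt u`, so `Z₁ ∈ Zc (Cmt u)` is a scalar (PR2); `Z₂` commutes with all `w ⊗ 1` (`inrM` of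
them is in `DD`), so `Z₂ = amp z` (TNS), `z ∈ Zc (Cmt c)` (`inrM (amp y) ∈ DD` for `y ∈ Cmt c`), a scalar; the
scalars agree because `V ∈ DD`, `V ≠ 0`. -/
def StDDP : Prop := IDL → POS → StPR1 → StPR2 → StTNS → ∀ (K : Type) [Group K] (l : ℕ → ℕ)
  (U : Ultrafilter ℕ), Nonprincipal U → (∀ᶠ n in (U : Filter ℕ), 0 < l n) →
  ∀ (u : K →* MUlt (fun n => Fin (l n)) U), (∀ k, star (u k) * u k = 1) →
  Prime (Cmt fun k => u k) → ∀ a b c V, Itw u a b c V →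
  (∀ z ∈ Zc (Cmt fun k => c k), ∃ t : ℂ, z = t • (1 : MUlt (fun n => Fin (a n)) U)) →
  IsVN (Cmt fun k => inlM (fun n => Fin (b n) × Fin (a n)) (u k) +
      inrM (fun n => Fin (l n)) (amp b (c k))) ∧
    Prime (Cmt fun k => inlM (fun n => Fin (b n) × Fin (a n)) (u k) +
      inrM (fun n => Fin (l n)) (amp b (c k)))

/-- BXI.  From an isometric intertwiner `W` to `N n ∈ Xi`.  Lift: `NB 1 W` (StNB1), corner block
`W_n : ℂ^N ⊗ ℂ^a → ℂ^l`, `‖W_n‖ ≤ 1`, `nn (W_n* W_n - 1) → 0`.  `J_n : ℂ^a → ℂ^N ⊗ ℂ^l`,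
`J (β, i) ρ = N^{-1/2} W i (β, ρ)`; `J* J = ptr-like (W* W) ≤ 1` (the normalized partial trace of `W* W`),
`nn (J* J - 1) → 0`, `X = J J*`: `0 ≤ X ≤ 1`, `N² ptr X = W W* ≤ 1`, `hs X = hs (J* J) ≥ (1 - o(1)) a`,
`N a ≥ (1 - ε/2) l`; `hs ((1⊗π(k)) J - J ĉ(k)) = (1/N) hs (π(k) W - W (1⊗ĉ(k))) = o(l/N)` for `k = x_i` and for
`k = x_i⁻¹` (`π(x_i⁻¹) ≈ π(x_i)*`), so `hs [1⊗π(x_i), X] = o(l/N)`. -/
def StBXI : Prop := StNB1 → ∀ (K I : Type) [Group K] [Fintype I] (x : I → K) (l : ℕ → ℕ)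
  (U : Ultrafilter ℕ) (u : K →* MUlt (fun n => Fin (l n)) U) π y, Lft u π y →
  (∀ᶠ n in (U : Filter ℕ), 0 < l n) → ∀ (a N : ℕ → ℕ) (c : K →* MUlt (fun n => Fin (a n)) U),
  (∀ k, star (c k) * c k = 1) →
  ∀ (W : MUlt (fun n => Fin (l n) ⊕ (Fin (N n) × Fin (a n))) U),
  star W * W = inrM (fun n => Fin (l n)) 1 →
  inlM (fun n => Fin (N n) × Fin (a n)) 1 * W = W →
  (∀ k, inlM (fun n => Fin (N n) × Fin (a n)) (u k) * W =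
    W * inrM (fun n => Fin (l n)) (amp N (c k))) →
  ∀ ε : ℝ, 0 < ε → ε ≤ 1 → (∀ᶠ n in (U : Filter ℕ), 0 < N n ∧ 0 < a n ∧
    (1 - ε / 2) * (l n : ℝ) ≤ N n * a n ∧ N n * a n ≤ l n) →
  ∀ᶠ n in (U : Filter ℕ), Xi (fun i => π n (x i)) ε (N n)

/-- IMM.  Assembly of IMA, IMB, IMC: multiplicities `b n ∈ Xi` give an exact intertwiner. -/
def StIMM : Prop := StIMA → StIMB → StIMC → StRND → StRK → T4 → ∀ (K I : Type) [Group K]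
  [Fintype I] [DecidableEq I] (p : ℕ) (x : I → K) (N : I → Finset I) (l : ℕ → ℕ)
  (U : Ultrafilter ℕ), Nonprincipal U → TData K p x N → Nonempty I →
  ∀ (u : K →* MUlt (fun n => Fin (l n)) U) π y, Lft u π y →
  ∀ (b : ℕ → ℕ) (ε : ℝ), 0 < ε → ε ≤ cT p (Fintype.card I) / (400 * (p : ℝ) ^ 2) →
  (∀ᶠ n in (U : Filter ℕ), 0 < l n ∧ Xi (fun i => π n (x i)) ε (b n)) →
  ∃ (r : ℕ → ℕ) (c : K →* MUlt (fun n => Fin (r n)) U)
    (V : MUlt (fun n => Fin (l n) ⊕ (Fin (b n) × Fin (r n))) U), Itw u r b c V ∧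
    ∀ᶠ n in (U : Filter ℕ), (b n : ℝ) * r n ≤ 4 * l n

/-- WPR.  (4.3 of the text.)  `w` unitary with `w u(k) = u(α(k)) w`, `D = Cmt u` prime, `c` irreducible.
`V V* = inlM(P)`, `0 ≠ P ∈ D`, `w P w* ∈ D`; prime: `d ∈ D` with `P d (w P w*) ≠ 0`; `V* inlM(d w) V = inrM(Z)`,
`Z ≠ 0`, `amp(c(α k)) Z = Z amp(c k)` (injectivity of `inrM`); CBK with `y₁ = y₂ = 1`, `c ∘ α` and `c`: there is
`y ≠ 0` with `c(α k) y = y c(k)`; `y* y` is a scalar `> 0`; normalize. -/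
def StWPR : Prop := CBK → ∀ (K I : Type) [Group K] [Fintype I] [DecidableEq I] (p : ℕ)
  (x : I → K) (N : I → Finset I) (l : ℕ → ℕ) (U : Ultrafilter ℕ), Nonprincipal U →
  TData K p x N → Nonempty I → ∀ (u : K →* MUlt (fun n => Fin (l n)) U),
  (∀ k, star (u k) * u k = 1) → Prime (Cmt fun k => u k) → ∀ a b c V, Itw u a b c V →
  (∀ y ∈ Cmt (fun k => c k), ∃ t : ℂ, y = t • (1 : MUlt (fun n => Fin (a n)) U)) →
  ∀ (α : K ≃* K) (w : MUlt (fun n => Fin (l n)) U), star w * w = 1 →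
  (∀ k, w * u k = u (α k) * w) →
  ∃ w' : MUlt (fun n => Fin (a n)) U, star w' * w' = 1 ∧ ∀ k, w' * c k = c (α k) * w'

/-- OBS.  (4.4 of the text.)  The obstruction. -/
def StOBS : Prop := ∀ (K : Type) [Group K] (ι : ℕ → Type) [∀ n, Fintype (ι n)]
  [∀ n, DecidableEq (ι n)] (U : Ultrafilter ℕ) (c : K →* MUlt ι U),
  (∀ k, star (c k) * c k = 1) →
  (∀ y ∈ Cmt (fun k => c k), ∃ t : ℂ, y = t • (1 : MUlt ι U)) →
  ∀ (α₁ α₂ α₃ : K ≃* K) (w₁ w₂ w₃ : MUlt ι U), star w₁ * w₁ = 1 → star w₂ * w₂ = 1 →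
  star w₃ * w₃ = 1 → (∀ k, w₁ * c k = c (α₁ k) * w₁) → (∀ k, w₂ * c k = c (α₂ k) * w₂) →
  (∀ k, w₃ * c k = c (α₃ k) * w₃) → ∀ (s z : K), (∀ k, α₁ (α₂ k) = α₂ (α₁ k)) →
  (∀ k, α₁ (α₃ k) = α₃ (α₁ k)) → (∀ k, α₂ (α₃ k) = s * α₃ (α₂ k) * s⁻¹) → α₁ s = s * z →
  c z = 1

/-- JON.  Finite joins of central projections: for commuting projections `e₁, e₂` the join is
`e₁ + e₂ - e₁ e₂`; induction. -/
def StJON : Prop := ∀ (ι : ℕ → Type) [∀ n, Fintype (ι n)] [∀ n, DecidableEq (ι n)]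
  (U : Ultrafilter ℕ) (D : Set (MUlt ι U)), IsVN D → ∀ (A : Type) (F : Finset A)
  (e : A → MUlt ι U), (∀ a ∈ F, Pj (e a) ∧ e a ∈ Zc D) →
  ∃ J ∈ Zc D, Pj J ∧ (∀ a ∈ F, J * e a = e a) ∧
    (∀ Q ∈ Zc D, Pj Q → (∀ a ∈ F, Q * e a = e a) → Q * J = J) ∧
    (tr J).re ≤ ∑ a ∈ F, (tr (e a)).re

/-- SMC.  (4.1 of the text, small projections.)  `D = Cmt (u ∘ i)` for a normal subgroup `i(K)` of `G`, a chain
`G_j`; if `Zc D` contains nonzero projections of arbitrarily small trace, then the commutant of `u(G)`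
contains a nonscalar.  For `e ∈ Zc D` (it commutes with `u(G_0)`) put `e_0 = e`, `e_{j+1}` = the join of the
`u(f) e_j u(f)*`, `f ∈ F_j` (JON): it is the smallest projection of `Zc D` above all `u(g) e_j u(g)*`,
`g ∈ G_{j+1}`, hence commutes with `u(G_{j+1})` (conjugate it: same trace and comparable), and
`τ(e_j) ≤ τ(e_{j+1}) ≤ q τ(e_j)`.  If for some `e` all `τ(e_j) ≤ 1/(2q)`: SAT with `a = τ(e)`, `b = 1/2`.
Otherwise for every `J` take `e` with `τ(e) ≤ 1/(2 q^{J+2})` and the first `j` with `τ(e_j) > 1/(2q)`: `j > J`,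
`τ(e_j) ≤ 1/2`: SAT with `a = 1/(2q)`, `b = 1/2`. -/
def StSMC : Prop := StJON → StLP → StSAT → ∀ (G K : Type) [Group G] [Group K] [Countable G]
  (ι : ℕ → Type) [∀ n, Fintype (ι n)] [∀ n, DecidableEq (ι n)] (U : Ultrafilter ℕ),
  Nonprincipal U → (∀ᶠ n in (U : Filter ℕ), Nonempty (ι n)) → ∀ (u : G →* MUlt ι U),
  (∀ g, star (u g) * u g = 1) → ∀ (i : K →* G), (∀ g k, ∃ k', g * i k * g⁻¹ = i k') →
  ∀ (Gj : ℕ → Subgroup G) (q : ℕ), Monotone Gj → (∀ g, ∃ j, g ∈ Gj j) →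
  (∀ j, ∃ F : Finset G, F.card ≤ q ∧ (∀ f ∈ F, f ∈ Gj (j + 1)) ∧
    ∀ g ∈ Gj (j + 1), ∃ f ∈ F, f⁻¹ * g ∈ Gj j) →
  (∀ g ∈ Gj 0, ∀ z ∈ Zc (Cmt fun k => u (i k)), z * u g = u g * z) →
  (∀ δ : ℝ, 0 < δ → ∃ e ∈ Zc (Cmt fun k => u (i k)), Pj e ∧ e ≠ 0 ∧ (tr e).re ≤ δ) →
  ∃ y : MUlt ι U, (∀ g, y * u g = u g * y) ∧ ∀ t : ℂ, y ≠ t • (1 : MUlt ι U)

/-- FIX.  (4.2 of the text.)  A minimal projection `e` of the centre of `D = Cmt (u ∘ i)` has a stabilizer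
of finite index: the translates `u(g) e u(g)*` are in `Zc D` and pairwise equal or orthogonal, all of trace
`τ(e) > 0`. -/
def StFIX : Prop := ∀ (G K : Type) [Group G] [Group K] (ι : ℕ → Type) [∀ n, Fintype (ι n)]
  [∀ n, DecidableEq (ι n)] (U : Ultrafilter ℕ), (∀ᶠ n in (U : Filter ℕ), Nonempty (ι n)) →
  ∀ (u : G →* MUlt ι U), (∀ g, star (u g) * u g = 1) → ∀ (i : K →* G),
  (∀ g k, ∃ k', g * i k * g⁻¹ = i k') → ∀ e ∈ Zc (Cmt fun k => u (i k)), Pj e → e ≠ 0 →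
  (∀ z ∈ Zc (Cmt fun k => u (i k)), ∃ t : ℂ, e * z * e = t • e) →
  ∃ H : Subgroup G, H.FiniteIndex ∧ ∀ g ∈ H, e * u g = u g * e

/-- SPN.  The 2-norm closure of the span of a group of unitaries is a von Neumann algebra. -/
def StSPN : Prop := ∀ (G : Type) [Group G] (ι : ℕ → Type) [∀ n, Fintype (ι n)]
  [∀ n, DecidableEq (ι n)] (U : Ultrafilter ℕ) (u : G →* MUlt ι U),
  (∀ g, star (u g) * u g = 1) →
  IsVN {x : MUlt ι U | ∀ ε > 0, ∃ y ∈ Submodule.span ℂ (Set.range u), nrm (x - y) < ε}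

/-- GPN.  (5.2 of the text.)  `x` in the closure of the span of `u(G)`.  CNJ for `α = β = u ∘ i`: `T^k x → x'`,
`x'` commutes with `u(i(K))`.  For `g ∉ C` and `m` conjugates `h_j = i(k_j) g i(k_j)⁻¹`:
`tr(u(h_j)* x') = tr(u(g)* x')`, the `u(h_j)` are orthonormal (`φ(h_i⁻¹ h_j) = φ(h_j h_i⁻¹) = 0`), Bessel:
`m |tr(u(g)* x')|² ≤ nrm x'`, so `tr(u(g)* x') = 0`; for `g ∈ C`, `u(g) = φ(g) 1` (`unit_eq_smul`); `τ(x') = τ(x)`.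
So `tr(y* x') = conj(τ(y)) τ(x)` for `y` in the closure of the span, in particular for `y = x`:
`nrm (x - τ(x) 1) = nrm x - |τ(x)|² = lim (nrm x - Re tr((T^k x)* x)) ≤ (1/c) Qf x ≤ (p²/c) ∑ nrm (...)`. -/
def StGPN : Prop := CNJ → ∀ (G K I : Type) [Group G] [Group K] [Fintype I] [DecidableEq I]
  (p : ℕ) (x : I → K) (N : I → Finset I) (ι : ℕ → Type) [∀ n, Fintype (ι n)]
  [∀ n, DecidableEq (ι n)] (U : Ultrafilter ℕ), Nonprincipal U →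
  (∀ᶠ n in (U : Filter ℕ), Nonempty (ι n)) → TData K p x N → Nonempty I → ∀ (i : K →* G)
  (φ : G → ℂ) (C : Set G), (∀ g ∈ C, ‖φ g‖ = 1) → (∀ g, g ∉ C → φ g = 0) →
  (∀ g h, φ (g * h * g⁻¹) = φ h) →
  (∀ g, g ∉ C → ∀ m : ℕ, ∃ k : Fin m → K, ∀ s t, s ≠ t →
    (i (k s) * g * (i (k s))⁻¹) * (i (k t) * g * (i (k t))⁻¹)⁻¹ ∉ C) →
  ∀ (u : G →* MUlt ι U), (∀ g, star (u g) * u g = 1) → (∀ g, tr (u g) = φ g) →
  ∀ y : MUlt ι U, (∀ ε > 0, ∃ y' ∈ Submodule.span ℂ (Set.range u), nrm (y - y') < ε) →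
    nrm (y - tr y • (1 : MUlt ι U)) ≤ (p : ℝ) ^ 2 / cT p (Fintype.card I) *
      ∑ s, nrm (u (i (x s)) * y - y * u (i (x s)))

/-- CE.  From finite-dimensional representations with converging normalized traces to a homomorphism
into `∏ M_n`: `k(n) → ∞` with `(k(n) + 1) d_{k(n)} ≤ n` (for `n ≥ d_0`), `⌊n/d⌋` copies and the identity on the
rest; trace error `≤ 2 d / n`. -/
def StCE : Prop := ∀ (G : Type) [Group G] (χ : G → ℂ) (d : ℕ → ℕ)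
  (π : ∀ k, G →* Matrix.unitaryGroup (Fin (d k)) ℂ), (∀ k, 0 < d k) →
  (∀ g, Tendsto (fun k => ntr ((π k g : Matrix.unitaryGroup (Fin (d k)) ℂ) :
    Matrix (Fin (d k)) (Fin (d k)) ℂ)) atTop (𝓝 (χ g))) →
  ∀ U : Ultrafilter ℕ, Nonprincipal U → ∃ u : G →* MUlt (fun n => Fin n) U,
    (∀ g, star (u g) * u g = 1) ∧ ∀ g, tr (u g) = χ g

end Helper53.NG
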